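import Pool.Agent.CMR.ZArt
import Pool.Agent.CMG.SComb

/-!
# A-COMB combination of N(c) - 1 equal to the number of roots of unity

Copy of `CMG/SComb.lean` (`exists_comb`) with ideals `𝔠` instead of elements `α` (there all ideals are principal; the proof works with the
ideals `𝔭^f` directly and gets simpler). `R = m`; `hram` from `hmod.ram` and `N ∣ m`.
-/

set_option autoImplicit false

noncomputable section

open NumberField Pool.Agent.StarkRQ
open scoped PeriodPair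

namespace Pool.Agent.CMR

private theorem comb_art_mul {k M : Type} [Field k] [NumberField k] [Field M] [NumberField M]
    [Algebra k M] {𝔞 𝔟 : Ideal (𝓞 k)} {σ τ : Gal(M/k)} (h : HasArtinSymbol 𝔞 σ)
    (h' : HasArtinSymbol 𝔟 τ) : HasArtinSymbol (𝔞 * 𝔟) (σ * τ) := by
  obtain ⟨l, hl, rfl, rfl⟩ := h
  obtain ⟨l', hl', rfl, rfl⟩ := h'
  refine ⟨l ++ l', ?_, by rw [List.map_append, List.prod_append],
    by rw [List.map_append, List.prod_append]⟩
  intro x hx
  rcases List.mem_append.1 hx with h | h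
  · exact hl x h
  · exact hl' x h

private theorem comb_art_pow {k M : Type} [Field k] [NumberField k] [Field M] [NumberField M]
    [Algebra k M] {𝔞 : Ideal (𝓞 k)} {σ : Gal(M/k)} (h : HasArtinSymbol 𝔞 σ) (n : ℕ) :
    HasArtinSymbol (𝔞 ^ n) (σ ^ n) := by
  induction n with
  | zero =>
    refine ⟨[], ?_, ?_, ?_⟩
    · intro x hx
      exact absurd hx List.not_mem_nil
    · rw [pow_zero]
      rfl
    · rw [pow_zero]
      rfl
  | succ n ih =>
    rw [pow_succ, pow_succ]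
    exact comb_art_mul ih h

private theorem comb_prime {K : Type*} [CommRing K] {P : Ideal K} (hP : P.IsPrime) :
    ∀ n : ℕ, n ≠ 0 → (n : K) ∈ P → ∃ p : ℕ, p.Prime ∧ p ∣ n ∧ (p : K) ∈ P := by
  intro n
  induction n using Nat.recOnMul with
  | zero => intro h; exact absurd rfl h
  | one =>
    intro _ h
    rw [Nat.cast_one] at h
    exact absurd ((Ideal.eq_top_iff_one P).2 h) hP.ne_top
  | prime p hp => intro _ h; exact ⟨p, hp, dvd_rfl, h⟩
  | mul a b ha hb =>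
    intro h0 h
    rw [Nat.cast_mul] at h
    rcases hP.mem_or_mem h with h1 | h1
    · obtain ⟨p, hp, hpa, hpP⟩ := ha (left_ne_zero_of_mul h0) h1
      exact ⟨p, hp, hpa.mul_right b, hpP⟩
    · obtain ⟨p, hp, hpa, hpP⟩ := hb (right_ne_zero_of_mul h0) h1
      exact ⟨p, hp, hpa.mul_left a, hpP⟩

private theorem pow_norm_sub_mem {K : Type*} [Field K] [NumberField K] {P : Ideal (𝓞 K)}
    (hP : P.IsPrime) (hP0 : P ≠ ⊥) (x : 𝓞 K) : x - x ^ Ideal.absNorm P ∈ P := by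
  have hm : P.IsMaximal := hP.isMaximal hP0
  let := Ideal.Quotient.field P
  have hfin : Finite (𝓞 K ⧸ P) := Ideal.finiteQuotientOfFreeOfNeBot P hP0
  let := Fintype.ofFinite (𝓞 K ⧸ P)
  have h1 := FiniteField.pow_card (Ideal.Quotient.mk P x)
  have h2 : Fintype.card (𝓞 K ⧸ P) = Ideal.absNorm P := by
    rw [← Nat.card_eq_fintype_card, ← Submodule.cardQuot_apply, ← Ideal.absNorm_apply]
  rw [h2, ← map_pow, Ideal.Quotient.eq] at h1
  have h3 := P.neg_mem h1
  rwa [neg_sub] at h3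

private theorem exists_ideal {k M : Type} [Field k] [NumberField k]
    [Field M] [NumberField M] [Algebra k M] [IsGalois ℚ M] [IsAbelianGalois k M] {R : ℕ}
    (hram : ∀ p : ℕ, p.Prime → (p : ℤ) ∣ discr M → p ∣ R) {P : Ideal (𝓞 M)} (hP : P.IsPrime)
    (hP0 : P ≠ ⊥) (hR : (R : 𝓞 M) ∉ P) :
    ∃ 𝔠 : Ideal (𝓞 k), 𝔠 ≠ ⊥ ∧ Prm R 𝔠 ∧ HasArtinSymbol 𝔠 (1 : Gal(M/k)) ∧
      Ideal.absNorm 𝔠 = Ideal.absNorm P := by
  have hm : P.IsMaximal := hP.isMaximal hP0
  let p : Ideal (𝓞 k) := P.under (𝓞 k)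
  have hp0 : p ≠ ⊥ := Ideal.under_ne_bot _ hP0
  have hp : p.IsPrime := inferInstance
  have hpm : p.IsMaximal := hp.isMaximal hp0
  let := Ideal.Quotient.field p
  let := Ideal.Quotient.field P
  have hfin : Finite (𝓞 M ⧸ P) := Ideal.finiteQuotientOfFreeOfNeBot P hP0
  obtain ⟨φ, hφ⟩ := exists_cong_over (M := M) hp0 (Q := P) rfl
  obtain ⟨f, hf⟩ : ∃ f : ℕ, Ideal.absNorm P = Ideal.absNorm p ^ f := by
    refine ⟨Module.finrank (𝓞 k ⧸ p) (𝓞 M ⧸ P), ?_⟩
    rw [Ideal.absNorm_apply, Ideal.absNorm_apply, Submodule.cardQuot_apply,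
      Submodule.cardQuot_apply]
    exact Module.natCard_eq_pow_finrank
  have h1 : φ ^ f = 1 := by
    obtain ⟨r, hr, -, hrP⟩ := comb_prime hP (Ideal.absNorm P)
      (fun h => hP0 (Ideal.absNorm_eq_zero_iff.1 h)) (Ideal.absNorm_mem P)
    have hrd : ¬ (r : ℤ) ∣ discr M := by
      intro h
      obtain ⟨c, hc⟩ := hram r hr h
      apply hR
      rw [hc, Nat.cast_mul]
      exact P.mul_mem_right _ hrP
    apply toG_injective
    rw [map_pow, map_one]
    refine Cong.unique hr hrd hrP (hφ.pow f) ?_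
    intro x
    rw [one_smul, ← hf]
    exact pow_norm_sub_mem hP hP0 x
  refine ⟨p ^ f, pow_ne_zero f hp0, ?_, ?_, ?_⟩
  · have hRp : (R : 𝓞 k) ∉ p := by
      intro h
      apply hR
      have h2 : algebraMap (𝓞 k) (𝓞 M) (R : 𝓞 k) ∈ P := h
      rwa [map_natCast] at h2
    have h3 : p ⊔ Ideal.span {(R : 𝓞 k)} = ⊤ := by
      refine hpm.1.2 _ (lt_of_le_of_ne le_sup_left fun h => hRp ?_)
      rw [h]
      exact Ideal.mem_sup_right (Ideal.mem_span_singleton_self _)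
    exact IsCoprime.pow_left (Ideal.isCoprime_iff_sup_eq.2 h3)
  · rw [← h1]
    refine comb_art_pow ⟨[(p, φ)], ?_, ?_, ?_⟩ f
    · intro x hx
      rw [List.mem_singleton] at hx
      subst hx
      exact ⟨hp, hp0, P, hP, rfl, hφ⟩
    · simp
    · simp
  · rw [map_pow, hf]

private theorem norm_eq_of_dvd {M M' : Type} [Field M] [NumberField M] [Field M'] [NumberField M']
    [Algebra M M'] {g : ℕ} [NeZero g] [IsCyclotomicExtension {g} M M'] {𝔮 : Ideal (𝓞 M')}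
    (h𝔮 : 𝔮.IsPrime) (h0 : 𝔮 ≠ ⊥) (hg : (g : 𝓞 M') ∉ 𝔮)
    (hd : g ∣ Ideal.absNorm (𝔮.comap (algebraMap (𝓞 M) (𝓞 M'))) - 1) :
    Ideal.absNorm 𝔮 = Ideal.absNorm (𝔮.comap (algebraMap (𝓞 M) (𝓞 M'))) := by
  have hm : 𝔮.IsMaximal := h𝔮.isMaximal h0
  have hgal : IsGalois M M' := IsCyclotomicExtension.isGalois {g} M M'
  let P : Ideal (𝓞 M) := 𝔮.comap (algebraMap (𝓞 M) (𝓞 M'))
  have hP0 : P ≠ ⊥ := Ideal.under_ne_bot (𝓞 M) h0
  have hP : P.IsPrime := Ideal.IsPrime.comap _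
  have hfin : Finite (𝓞 M' ⧸ 𝔮) := Ideal.finiteQuotientOfFreeOfNeBot 𝔮 h0
  have hfin' : Finite (𝓞 M ⧸ P) := Ideal.finiteQuotientOfFreeOfNeBot P hP0
  have hcP : Nat.card (𝓞 M ⧸ P) = Ideal.absNorm P := by
    rw [Ideal.absNorm_apply, Submodule.cardQuot_apply]
  have hcq : Nat.card (𝓞 M' ⧸ 𝔮) = Ideal.absNorm 𝔮 := by
    rw [Ideal.absNorm_apply, Submodule.cardQuot_apply]
  have hpos : Ideal.absNorm P ≠ 0 := fun h => hP0 (Ideal.absNorm_eq_zero_iff.1 h)
  have hone : Ideal.absNorm P ≠ 1 := fun h => hP.ne_top (Ideal.absNorm_eq_one_iff.1 h)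
  obtain ⟨τ, hτ⟩ := IsArithFrobAt.exists_of_isInvariant (R := 𝓞 M) (G := Gal(M'/M)) (Q := 𝔮)
  have hζ := IsCyclotomicExtension.zeta_spec g M M'
  have h1 : τ = 1 := by
    have h2 := hτ.apply_of_pow_eq_one (ζ := hζ.toInteger) (m := g)
      hζ.toInteger_isPrimitiveRoot.pow_eq_one hg
    have h3 : Nat.card (𝓞 M ⧸ 𝔮.under (𝓞 M)) = Ideal.absNorm P := hcP
    rw [h3] at h2
    obtain ⟨c, hc⟩ := hd
    have h4 : Ideal.absNorm P = g * c + 1 := by
      have h5 : Ideal.absNorm P - 1 = g * c := hc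
      omega
    rw [h4, pow_succ, pow_mul, hζ.toInteger_isPrimitiveRoot.pow_eq_one, one_pow, one_mul] at h2
    have h5 : τ (IsCyclotomicExtension.zeta g M M') = IsCyclotomicExtension.zeta g M M' :=
      congrArg (algebraMap (𝓞 M') M') h2
    have h6 : (τ : M' →ₐ[M] M') = AlgHom.id M M' := by
      refine (hζ.powerBasis M).algHom_ext ?_
      rw [IsPrimitiveRoot.powerBasis_gen]
      exact h5
    exact AlgEquiv.ext fun x => DFunLike.congr_fun h6 x
  have h2 : ∀ x : 𝓞 M' ⧸ 𝔮, x ^ Ideal.absNorm P = x := by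
    intro x
    obtain ⟨y, rfl⟩ := Ideal.Quotient.mk_surjective x
    have h3 := hτ y
    have h4 : Nat.card (𝓞 M ⧸ 𝔮.under (𝓞 M)) = Ideal.absNorm P := hcP
    rw [h4, h1] at h3
    have h5 : (1 : Gal(M'/M)) • y - y ^ Ideal.absNorm P ∈ 𝔮 := h3
    rw [one_smul] at h5
    rw [← map_pow, eq_comm, Ideal.Quotient.eq]
    exact h5
  refine le_antisymm ?_ ?_
  · let := Ideal.Quotient.field 𝔮
    let := Fintype.ofFinite (𝓞 M' ⧸ 𝔮)
    classical
    have h3 : 1 < Ideal.absNorm P := by omega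
    have h4 : (Finset.univ : Finset (𝓞 M' ⧸ 𝔮)) ⊆
        (Polynomial.X ^ Ideal.absNorm P - Polynomial.X : Polynomial (𝓞 M' ⧸ 𝔮)).roots.toFinset := by
      intro x _
      rw [Multiset.mem_toFinset, Polynomial.mem_roots
        (FiniteField.X_pow_card_sub_X_ne_zero (𝓞 M' ⧸ 𝔮) h3), Polynomial.IsRoot.def]
      simp [h2 x]
    have h5 := (Finset.card_le_card h4).trans ((Multiset.toFinset_card_le _).trans
      (Polynomial.card_roots' _))
    rw [FiniteField.X_pow_card_sub_X_natDegree_eq (𝓞 M' ⧸ 𝔮) h3, Finset.card_univ,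
      ← Nat.card_eq_fintype_card, hcq] at h5
    exact h5
  · rw [← hcq]
    show Ideal.absNorm P ≤ _
    rw [← hcP]
    exact Nat.card_le_card_of_injective _
      (Ideal.quotientMap_injective (I := 𝔮) (f := algebraMap (𝓞 M) (𝓞 M')))

theorem exists_comb_ideal {k M : Type} [Field k] [NumberField k] [Field M] [NumberField M]
    [Algebra k M] [IsGalois ℚ M] [IsAbelianGalois k M] {N m : ℕ} (hmod : IsMod k M N) (hm : m ≠ 0)
    (hN : N ∣ m) :
    ∃ (s : Finset (Ideal (𝓞 k))) (c : Ideal (𝓞 k) → ℤ),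
      (∀ 𝔠 ∈ s, 𝔠 ≠ ⊥ ∧ Prm m 𝔠 ∧ HasArtinSymbol 𝔠 (1 : Gal(M/k))) ∧
      ∑ 𝔠 ∈ s, c 𝔠 * ((Ideal.absNorm 𝔠 : ℤ) - 1) = Units.torsionOrder M := by
  have hram : ∀ p : ℕ, p.Prime → (p : ℤ) ∣ discr M → p ∣ m :=
    fun p hp h => (hmod.ram p hp h).trans hN
  let A : Set (Ideal (𝓞 k)) := {α | α ≠ ⊥ ∧ Prm m α ∧ HasArtinSymbol α (1 : Gal(M/k))}
  let v : Ideal (𝓞 k) → ℤ := fun α => (Ideal.absNorm α : ℤ) - 1
  suffices h : (Units.torsionOrder M : ℤ) ∈ Submodule.span ℤ (v '' A) by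
    rw [Finsupp.mem_span_image_iff_linearCombination] at h
    obtain ⟨l, hl, h1⟩ := h
    refine ⟨l.support, l, fun α hα => ?_, ?_⟩
    · exact hl hα
    · rw [← h1, Finsupp.linearCombination_apply, Finsupp.sum]
      exact Finset.sum_congr rfl fun α _ => (smul_eq_mul _ _).symm
  obtain ⟨g', hg'⟩ := (IsPrincipalIdealRing.principal (Submodule.span ℤ (v '' A))).principal
  let g : ℕ := g'.natAbs
  have hmem : ∀ n : ℤ, n ∈ Submodule.span ℤ (v '' A) ↔ (g : ℤ) ∣ n := by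
    intro n
    rw [hg', Submodule.mem_span_singleton, Int.natCast_natAbs, abs_dvd]
    constructor
    · rintro ⟨a, rfl⟩
      exact ⟨a, by rw [smul_eq_mul, mul_comm]⟩
    · rintro ⟨a, rfl⟩
      exact ⟨a, by rw [smul_eq_mul, mul_comm]⟩
  have hdvd : ∀ P : Ideal (𝓞 M), P.IsPrime → P ≠ ⊥ → (m : 𝓞 M) ∉ P →
      g ∣ Ideal.absNorm P - 1 := by
    intro P hP hP0 hRP
    obtain ⟨α, h1, h2, h2', h3⟩ := exists_ideal (k := k) hram hP hP0 hRP
    have h4 : (g : ℤ) ∣ v α := (hmem _).1 (Submodule.subset_span ⟨α, ⟨h1, h2, h2'⟩, rfl⟩)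
    have h5 : v α = ((Ideal.absNorm P - 1 : ℕ) : ℤ) := by
      have h6 : Ideal.absNorm P ≠ 0 := fun h => hP0 (Ideal.absNorm_eq_zero_iff.1 h)
      show (Ideal.absNorm α : ℤ) - 1 = _
      rw [h3]
      omega
    rw [h5] at h4
    exact_mod_cast h4
  rw [hmem]
  have hg0 : g ≠ 0 := by
    intro h0
    obtain ⟨r, hrR, hr⟩ := Nat.exists_infinite_primes (m + 1)
    have hrp : Prime (r : ℤ) := Nat.prime_iff_prime_int.1 hr
    have hprime : (Ideal.span {(r : ℤ)}).IsPrime :=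
      (Ideal.span_singleton_prime hrp.ne_zero).2 hrp
    obtain ⟨P, hP, hPr⟩ := Ideal.exists_ideal_over_prime_of_isIntegral_of_isDomain (S := 𝓞 M)
      (Ideal.span {(r : ℤ)}) (by
        rw [(RingHom.injective_iff_ker_eq_bot _).1 (FaithfulSMul.algebraMap_injective ℤ (𝓞 M))]
        exact bot_le)
    have hP0 : P ≠ ⊥ := by
      rintro rfl
      rw [Ideal.comap_bot_of_injective _ (FaithfulSMul.algebraMap_injective ℤ (𝓞 M)), eq_comm,
        Ideal.span_singleton_eq_bot] at hPr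
      exact hrp.ne_zero hPr
    have hRP : (m : 𝓞 M) ∉ P := by
      intro h
      have h1 : ((m : ℕ) : ℤ) ∈ P.comap (algebraMap ℤ (𝓞 M)) := by
        rw [Ideal.mem_comap, map_natCast]
        exact h
      rw [hPr, Ideal.mem_span_singleton] at h1
      have h2 : r ∣ m := by exact_mod_cast h1
      have h3 := Nat.le_of_dvd (Nat.pos_of_ne_zero hm) h2
      omega
    have h1 := hdvd P hP hP0 hRP
    rw [h0, zero_dvd_iff] at h1
    have h2 : Ideal.absNorm P ≠ 0 := fun h => hP0 (Ideal.absNorm_eq_zero_iff.1 h)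
    have h3 : Ideal.absNorm P ≠ 1 := fun h => hP.ne_top (Ideal.absNorm_eq_one_iff.1 h)
    omega
  have hgz : NeZero g := ⟨hg0⟩
  have hnf : NumberField (CyclotomicField g M) :=
    IsCyclotomicExtension.numberField {g} M (CyclotomicField g M)
  have h1 : Module.finrank M (CyclotomicField g M) = 1 := by
    refine CMG.split_trivial (S := {I | ((g * m : ℕ) : 𝓞 M) ∈ I}) ?_ ?_
    · refine (Ideal.finite_setOfPred_absNorm_le (Ideal.absNorm
        (Ideal.span {((g * m : ℕ) : 𝓞 M)}))).subset fun I hI => ?_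
      refine Nat.le_of_dvd (Nat.pos_of_ne_zero ?_) (Ideal.absNorm_dvd_absNorm_of_le ?_)
      · rw [Ne, Ideal.absNorm_eq_zero_iff, Ideal.span_singleton_eq_bot, Nat.cast_eq_zero]
        exact Nat.mul_ne_zero hg0 hm
      · rw [Ideal.span_singleton_le_iff_mem]
        exact hI
    · intro 𝔮 h𝔮 h0 hS
      rw [Set.mem_ofPred_eq, Ideal.mem_comap, map_natCast] at hS
      refine norm_eq_of_dvd (g := g) h𝔮 h0 ?_ ?_
      · intro h
        apply hS
        rw [Nat.cast_mul]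
        exact 𝔮.mul_mem_right _ h
      · refine hdvd _ (Ideal.IsPrime.comap _) (Ideal.under_ne_bot (𝓞 M) h0) ?_
        intro h
        apply hS
        rw [Ideal.mem_comap, map_natCast] at h
        rw [Nat.cast_mul]
        exact 𝔮.mul_mem_left _ h
  obtain ⟨ζ, hζ⟩ := (Algebra.finrank_eq_one_iff_bijective_algebraMap.1 h1).2
    (IsCyclotomicExtension.zeta g M (CyclotomicField g M))
  have h2 : IsPrimitiveRoot ζ g := by
    refine IsPrimitiveRoot.of_map_of_injective (f := algebraMap M (CyclotomicField g M)) ?_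
      (algebraMap M (CyclotomicField g M)).injective
    rw [hζ]
    exact IsCyclotomicExtension.zeta_spec g M (CyclotomicField g M)
  exact_mod_cast NumberField.Units.dvd_torsionOrder_of_isPrimitiveRoot h2

end Pool.Agent.CMR
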