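import Pool.Agent.CMR.LDefs
import Pool.Agent.StarkRQ.Base

/-!
# Stark units over imaginary quadratic fields: definitions for the assembly
-/

set_option autoImplicit false

noncomputable section

open NumberField Pool.Agent.StarkRQ
open scoped PeriodPair

namespace Pool.Agent.CMR

section

variable {k : Type} [Field k] [NumberField k]

/-- `G` is a system of representatives of the ray classes modulo `N`. -/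
structure IsCls (N : ℕ) (G : Finset (Ideal (𝓞 k))) : Prop where
  ne : ∀ 𝔤 ∈ G, 𝔤 ≠ ⊥
  prm : ∀ 𝔤 ∈ G, Prm N 𝔤
  ex : ∀ 𝔞 : Ideal (𝓞 k), 𝔞 ≠ ⊥ → Prm N 𝔞 → ∃ 𝔤 ∈ G, REq N 𝔞 𝔤
  inj : ∀ 𝔤 ∈ G, ∀ 𝔥 ∈ G, REq N 𝔤 𝔥 → 𝔤 = 𝔥

variable [Algebra k ℂ]

/-- the normalized coordinates of the points `a / n` of `ℂ / 𝔤⁻¹` -/
def crI (n : ℕ) (𝔤 : Ideal (𝓞 k)) (a : 𝓞 k) : ℂ :=
  (℘[LatI 𝔤] (ptt n a) - ℘[LatI 𝔤] (ptt n (1 : 𝓞 k))) /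
    (℘[LatI 𝔤] (ptt n (2 : 𝓞 k)) - ℘[LatI 𝔤] (ptt n (1 : 𝓞 k)))

/-- the elliptic units -/
def UU (N : ℕ) (𝔠 𝔤 : Ideal (𝓞 k)) : ℂ := Psi (LatI 𝔤) (LatI (𝔤 * 𝔠)) (ptt N (1 : 𝓞 k))

end

section

variable (k M : Type) [Field k] [NumberField k] [Field M] [NumberField M] [Algebra k M]

/-- `N` is a modulus of the abelian extension `M/k`, in the sense of class field theory: `M` is unramified outside `N`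
and the Artin symbol of `(a)` is trivial for `a ≡ 1` modulo `N`. -/
structure IsMod (N : ℕ) : Prop where
  ram : ∀ p : ℕ, p.Prime → (p : ℤ) ∣ discr M → p ∣ N
  artin : ∀ a : 𝓞 k, a ≠ 0 → (N : 𝓞 k) ∣ a - 1 →
    HasArtinSymbol (Ideal.span {a}) (1 : Gal(M/k))

variable {k M}

/-- Data from which Stark units of `M/k` are constructed: `y 𝔠` is the norm to `M` of an elliptic unit. -/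
structure YData (ι : M →+* ℂ) (N m : ℕ) (y : Ideal (𝓞 k) → M) : Prop where
  ne_zero : ∀ 𝔠 : Ideal (𝓞 k), 𝔠 ≠ ⊥ → Prm m 𝔠 → y 𝔠 ≠ 0
  cont : ∀ σ : Gal(M/k), ∃ Z : ℂ → ℂ, IsPartialZeta N σ Z
  kron : ∀ 𝔠 : Ideal (𝓞 k), 𝔠 ≠ ⊥ → Prm m 𝔠 → ∀ (σ : Gal(M/k)) (Z Z' : ℂ → ℂ),
    IsPartialZeta N σ Z → IsPartialZeta N (σ * art 𝔠) Z' →
    (Ideal.absNorm 𝔠 : ℂ) * deriv Z 0 - deriv Z' 0 =
      ((- Real.log (‖ι (σ (y 𝔠))‖ ^ 2) : ℝ) : ℂ)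
  symm : ∀ 𝔠 𝔡 : Ideal (𝓞 k), 𝔠 ≠ ⊥ → Prm m 𝔠 → 𝔡 ≠ ⊥ → Prm m 𝔡 →
    y 𝔠 ^ Ideal.absNorm 𝔡 * (art 𝔠 : Gal(M/k)) (y 𝔡) =
      y 𝔡 ^ Ideal.absNorm 𝔠 * (art 𝔡 : Gal(M/k)) (y 𝔠)
  val : ∀ 𝔠 : Ideal (𝓞 k), 𝔠 ≠ ⊥ → Prm m 𝔠 → ∃ B K L : ℕ, 0 < B ∧ 0 < K ∧
    IsIntegral ℤ (y 𝔠 ^ K / (B : M) ^ L) ∧ IsIntegral ℤ ((B : M) ^ L / y 𝔠 ^ K)
  val_one : ¬ IsPrimePow N → ∀ 𝔠 : Ideal (𝓞 k), 𝔠 ≠ ⊥ → Prm m 𝔠 →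
    IsIntegral ℤ (y 𝔠) ∧ IsIntegral ℤ (y 𝔠)⁻¹

end

end Pool.Agent.CMR
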