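import Pool.Agent.CMR.AComb
import Pool.Agent.CMG.TateAb
import Pool.Agent.CMG.ArtRoot
import Pool.Agent.CMG.SAux

/-!
# A-STARK Stark units from YData

Copy of `CMG/SStark.lean` (`exists_stark`) with `y 𝔠` for the norm `Algebra.norm M (ψ α 1)`, `Ideal.absNorm 𝔠` for `nrm α`. `s, c` from `exists_comb_ideal`,
`η = ∏_{𝔠 ∈ s} y 𝔠 ^ c 𝔠`; `art 𝔠 = 1` for `𝔠 ∈ s`. `deriv_zeta`: `hy.kron` with `Z' = Z`: `(N𝔠 - 1) Z'(0) = -log|ι(σ y_𝔠)|²`, add up. `abelian`: for every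
`σ` choose `𝔠_σ` with `art 𝔠_σ = σ` (`art_surj`), `n σ = N(𝔠_σ)`, `y σ = y 𝔠_σ`; for `𝔠 ∈ s` `hy.symm` gives
`y_𝔠^{n σ} y_σ = y_σ^{N𝔠} σ(y_𝔠)` (as `art 𝔠 = 1`), i.e. `y_𝔠^{nσ} = σ(y_𝔠) y_σ^{N𝔠 - 1}`, hence `η^{nσ} = σ(η) y_σ^w`; `hcomm` is `hy.symm`; `hroot` is
`CMG.artin_root` (`n σ` is prime to `w`: an odd prime dividing `w` is ramified in `M` (`CMG.ramified_of_dvd`), so it divides `N`, `2 ∣ m`; `Prm m 𝔠_σ`, `prm_iff`); conclusion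
by `CMG.tate_abelian`. Integrality of `g η/η`: `hy.val` as in `SStark` (with `B` depending on `𝔠`). Last part: `hy.val_one`.
-/

set_option autoImplicit false

noncomputable section

open NumberField Pool.Agent.StarkRQ
open scoped PeriodPair

namespace Pool.Agent.CMR

private theorem isIntegral_zpow' {M : Type} [Field M] {x : M} (h : IsIntegral ℤ x)
    (h' : IsIntegral ℤ x⁻¹) (n : ℤ) : IsIntegral ℤ (x ^ n) := by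
  obtain ⟨m, rfl | rfl⟩ := n.eq_nat_or_neg
  · rw [zpow_natCast]
    exact h.pow m
  · rw [zpow_neg, zpow_natCast, ← inv_pow]
    exact h'.pow m

/-- Stark units from the data `YData` -/
theorem exists_stark_of_YData {k M : Type} [Field k] [NumberField k] [Field M] [NumberField M]
    [Algebra k M] [IsGalois ℚ M] [IsAbelianGalois k M] (ι : M →+* ℂ) {N m : ℕ}
    (hmod : IsMod k M N) (hm : m ≠ 0) (hN : N ∣ m) (h2 : 2 ∣ m) {y : Ideal (𝓞 k) → M}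
    (hy : YData ι N m y) :
    ∃ η : M, IsStarkUnit k ι N η ∧ (¬ IsPrimePow N → IsIntegral ℤ η ∧ IsIntegral ℤ η⁻¹) := by
  classical
  obtain ⟨s, c, hs, hsum⟩ := exists_comb_ideal hmod hm hN
  set w : ℕ := Units.torsionOrder M with hw
  have hw0 : w ≠ 0 := Units.torsionOrder_ne_zero M
  have hart1 : ∀ 𝔠 ∈ s, (art 𝔠 : Gal(M/k)) = 1 := fun 𝔠 h𝔠 =>
    ((art_iff hmod (hs 𝔠 h𝔠).1 ((hs 𝔠 h𝔠).2.1.of_dvd hN) 1).1 (hs 𝔠 h𝔠).2.2).symm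
  have hy0 : ∀ 𝔠 ∈ s, y 𝔠 ≠ 0 := fun 𝔠 h𝔠 => hy.ne_zero 𝔠 (hs 𝔠 h𝔠).1 (hs 𝔠 h𝔠).2.1
  set η : M := ∏ 𝔠 ∈ s, y 𝔠 ^ c 𝔠 with hη
  have hη0 : η ≠ 0 := Finset.prod_ne_zero_iff.2 fun 𝔠 h𝔠 => zpow_ne_zero _ (hy0 𝔠 h𝔠)
  have hlog : ∀ (σ : Gal(M/k)) (Z : ℂ → ℂ), IsPartialZeta N σ Z → ∀ 𝔠 ∈ s,
      ((Ideal.absNorm 𝔠 : ℂ) - 1) * deriv Z 0 =
        ((- Real.log (‖ι (σ (y 𝔠))‖ ^ 2) : ℝ) : ℂ) := by
    intro σ Z hZ 𝔠 h𝔠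
    have h := hy.kron 𝔠 (hs 𝔠 h𝔠).1 (hs 𝔠 h𝔠).2.1 σ Z Z hZ (by
      rw [hart1 𝔠 h𝔠, mul_one]
      exact hZ)
    rw [← h]
    ring
  refine ⟨η, ⟨hη0, ?_, ?_, ?_⟩, ?_⟩
  · -- integrality of the quotients
    intro g
    have hg : ∀ 𝔠 ∈ s, IsIntegral ℤ (g (y 𝔠) / y 𝔠) ∧ IsIntegral ℤ (g (y 𝔠) / y 𝔠)⁻¹ := by
      intro 𝔠 h𝔠
      obtain ⟨B, K, L, hBpos, hK, h1, h2⟩ := hy.val 𝔠 (hs 𝔠 h𝔠).1 (hs 𝔠 h𝔠).2.1
      have hy0' := hy0 𝔠 h𝔠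
      have hgy0 : g (y 𝔠) ≠ 0 := (map_ne_zero g).2 hy0'
      have hB : (B : M) ≠ 0 := Nat.cast_ne_zero.2 hBpos.ne'
      have h3 : IsIntegral ℤ (g (y 𝔠 ^ K / (B : M) ^ L)) := h1.map (g : M →+* M).toIntAlgHom
      have h4 : IsIntegral ℤ (g ((B : M) ^ L / y 𝔠 ^ K)) := h2.map (g : M →+* M).toIntAlgHom
      have hKey1 : (g (y 𝔠) / y 𝔠) ^ K = g (y 𝔠 ^ K / (B : M) ^ L) * ((B : M) ^ L / y 𝔠 ^ K) := by
        rw [map_div₀, map_pow, map_pow, map_natCast, div_pow]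
        field_simp
      have hKey2 : ((g (y 𝔠) / y 𝔠)⁻¹) ^ K =
          (y 𝔠 ^ K / (B : M) ^ L) * g ((B : M) ^ L / y 𝔠 ^ K) := by
        rw [map_div₀, map_pow, map_pow, map_natCast, inv_pow, div_pow]
        field_simp
      exact ⟨IsIntegral.of_pow hK (hKey1 ▸ h3.mul h2), IsIntegral.of_pow hK (hKey2 ▸ h1.mul h4)⟩
    have : g η / η = ∏ 𝔠 ∈ s, (g (y 𝔠) / y 𝔠) ^ c 𝔠 := by
      rw [hη, map_prod, ← Finset.prod_div_distrib]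
      refine Finset.prod_congr rfl fun 𝔠 _ => ?_
      rw [map_zpow₀, div_zpow]
    rw [this]
    exact IsIntegral.prod _ fun 𝔠 h𝔠 => isIntegral_zpow' (hg 𝔠 h𝔠).1 (hg 𝔠 h𝔠).2 _
  · -- derivatives
    intro σ
    obtain ⟨Z, hZ⟩ := hy.cont σ
    refine ⟨Z, hZ, ?_⟩
    have h1 : (w : ℂ) * deriv Z 0 = ((- Real.log (‖ι (σ η)‖ ^ 2) : ℝ) : ℂ) := by
      have e1 : (w : ℂ) * deriv Z 0 =
          ∑ 𝔠 ∈ s, (c 𝔠 : ℂ) * (((Ideal.absNorm 𝔠 : ℂ) - 1) * deriv Z 0) := by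
        have : (w : ℂ) = ∑ 𝔠 ∈ s, (c 𝔠 : ℂ) * ((Ideal.absNorm 𝔠 : ℂ) - 1) := by
          have := congrArg (fun x : ℤ => (x : ℂ)) hsum
          push_cast at this
          rw [← this]
        rw [this, Finset.sum_mul]
        exact Finset.sum_congr rfl fun 𝔠 _ => by ring
      rw [e1, Finset.sum_congr rfl fun 𝔠 h𝔠 => by rw [hlog σ Z hZ 𝔠 h𝔠]]
      have e2 : Real.log (‖ι (σ η)‖ ^ 2) = ∑ 𝔠 ∈ s, (c 𝔠 : ℝ) * Real.log (‖ι (σ (y 𝔠))‖ ^ 2) := by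
        have : ‖ι (σ η)‖ ^ 2 = ∏ 𝔠 ∈ s, (‖ι (σ (y 𝔠))‖ ^ 2) ^ c 𝔠 := by
          rw [hη, map_prod, map_prod, norm_prod, ← Finset.prod_pow]
          refine Finset.prod_congr rfl fun 𝔠 _ => ?_
          rw [map_zpow₀, map_zpow₀, norm_zpow, ← zpow_natCast, ← zpow_natCast, ← zpow_mul,
            ← zpow_mul, mul_comm]
        rw [this, Real.log_prod (fun 𝔠 h𝔠 => zpow_ne_zero _ (pow_ne_zero _ (norm_ne_zero_iff.2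
          ((map_ne_zero ι).2 ((map_ne_zero σ).2 (hy0 𝔠 h𝔠))))))]
        exact Finset.sum_congr rfl fun 𝔠 _ => Real.log_zpow _ _
      rw [e2]
      push_cast
      rw [← Finset.sum_neg_distrib]
      exact Finset.sum_congr rfl fun 𝔠 _ => by ring
    have hwC : (w : ℂ) ≠ 0 := Nat.cast_ne_zero.2 hw0
    rw [← mul_right_inj' hwC, h1, ← hw]
    push_cast
    field_simp
  · -- the abelian condition
    choose β hβ0 hβp hβa using fun σ : Gal(M/k) => art_surj hmod hm hN σ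
    refine CMG.tate_abelian hη0 (fun σ => Ideal.absNorm (β σ)) (fun σ => y (β σ)) ?_ ?_ ?_
    · intro σ ζ hζ
      refine CMG.artin_root ((art_iff hmod (hβ0 σ) ((hβp σ).of_dvd hN) σ).2 (hβa σ).symm) hw0 ?_ hζ
      have h1 : (Ideal.absNorm (β σ)).Coprime m := (prm_iff (β σ)).1 (hβp σ)
      refine Nat.coprime_of_dvd fun p hp hp1 hp2 => ?_
      have h3 : p ∣ m := by
        by_cases h : p = 2
        · rw [h]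
          exact h2
        · exact (hmod.ram p hp (CMG.ramified_of_dvd hp h hp2)).trans hN
      exact Nat.Prime.not_coprime_iff_dvd.2 ⟨p, hp, hp1, h3⟩ h1
    · intro σ
      have h1 : ∀ 𝔠 ∈ s, y 𝔠 ^ Ideal.absNorm (β σ) =
          σ (y 𝔠) * y (β σ) ^ ((Ideal.absNorm 𝔠 : ℤ) - 1) := by
        intro 𝔠 h𝔠
        have h2 := hy.symm 𝔠 (β σ) (hs 𝔠 h𝔠).1 (hs 𝔠 h𝔠).2.1 (hβ0 σ) (hβp σ)
        rw [hart1 𝔠 h𝔠, hβa σ, AlgEquiv.one_apply] at h2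
        have h3 := hy.ne_zero (β σ) (hβ0 σ) (hβp σ)
        rw [zpow_sub_one₀ h3, zpow_natCast, ← mul_assoc, eq_mul_inv_iff_mul_eq₀ h3]
        rw [mul_comm (σ (y 𝔠))]
        exact h2
      have h2 : η ^ Ideal.absNorm (β σ) = ∏ 𝔠 ∈ s, (y 𝔠 ^ Ideal.absNorm (β σ)) ^ c 𝔠 := by
        rw [hη, ← Finset.prod_pow]
        refine Finset.prod_congr rfl fun 𝔠 _ => ?_
        rw [← zpow_natCast, ← zpow_natCast, ← zpow_mul, ← zpow_mul, mul_comm]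
      have h3 : ∏ 𝔠 ∈ s, (y 𝔠 ^ Ideal.absNorm (β σ)) ^ c 𝔠 =
          (∏ 𝔠 ∈ s, σ (y 𝔠) ^ c 𝔠) *
            y (β σ) ^ (∑ 𝔠 ∈ s, c 𝔠 * ((Ideal.absNorm 𝔠 : ℤ) - 1)) := by
        have h4 : y (β σ) ^ (∑ 𝔠 ∈ s, c 𝔠 * ((Ideal.absNorm 𝔠 : ℤ) - 1)) =
            ∏ 𝔠 ∈ s, y (β σ) ^ (c 𝔠 * ((Ideal.absNorm 𝔠 : ℤ) - 1)) := by
          have h5 := hy.ne_zero (β σ) (hβ0 σ) (hβp σ)
          have : ∀ t : Finset (Ideal (𝓞 k)),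
              y (β σ) ^ (∑ 𝔠 ∈ t, c 𝔠 * ((Ideal.absNorm 𝔠 : ℤ) - 1)) =
              ∏ 𝔠 ∈ t, y (β σ) ^ (c 𝔠 * ((Ideal.absNorm 𝔠 : ℤ) - 1)) := by
            intro t
            induction t using Finset.induction_on with
            | empty => simp
            | insert a t ha ih => rw [Finset.sum_insert ha, Finset.prod_insert ha, zpow_add₀ h5, ih]
          exact this s
        rw [h4, ← Finset.prod_mul_distrib]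
        refine Finset.prod_congr rfl fun 𝔠 h𝔠 => ?_
        rw [h1 𝔠 h𝔠, mul_zpow, ← zpow_mul, mul_comm (c 𝔠)]
      rw [h2, h3, hsum, zpow_natCast, hη, map_prod]
      congr 1
      exact Finset.prod_congr rfl fun 𝔠 _ => (map_zpow₀ σ _ _).symm
    · intro σ τ
      have h2 := hy.symm (β σ) (β τ) (hβ0 σ) (hβp σ) (hβ0 τ) (hβp τ)
      rw [hβa σ, hβa τ] at h2
      exact h2
  · intro hN'
    have hg : ∀ 𝔠 ∈ s, IsIntegral ℤ (y 𝔠) ∧ IsIntegral ℤ (y 𝔠)⁻¹ :=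
      fun 𝔠 h𝔠 => hy.val_one hN' 𝔠 (hs 𝔠 h𝔠).1 (hs 𝔠 h𝔠).2.1
    refine ⟨IsIntegral.prod _ fun 𝔠 h𝔠 => isIntegral_zpow' (hg 𝔠 h𝔠).1 (hg 𝔠 h𝔠).2 _, ?_⟩
    rw [hη, ← Finset.prod_inv_distrib]
    refine IsIntegral.prod _ fun 𝔠 h𝔠 => ?_
    rw [← zpow_neg]
    exact isIntegral_zpow' (hg 𝔠 h𝔠).1 (hg 𝔠 h𝔠).2 _

end Pool.Agent.CMR
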