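import Pool.Agent.CMR.MDefs

/-!
# Pairs of lattices `L ⊆ L'`: definitions

`DD L L' z = ∏ (℘(z) - t)` over the values `t` of `℘ = ℘[L]` at the points of `L' ∖ L`; for odd index `n` it has the divisor
`∑_{s ∈ L'/L, s ≠ 0} (s) - (n - 1) (0)` on `ℂ/L`. `Psi L L'` is a multiple of `1 / DD L L'`, homogeneous of degree `0`.
-/

set_option autoImplicit false

noncomputable section

open scoped PeriodPair

namespace Pool.Agent.CMR

/-- the index of `L` in `L'` -/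
def idx (L L' : PeriodPair) : ℕ := L.lattice.toAddSubgroup.relIndex L'.lattice.toAddSubgroup

/-- `R` is a system of representatives of `L' / L` containing `0`. -/
structure IsReps (L L' : PeriodPair) (R : Finset ℂ) : Prop where
  le : L.lattice ≤ L'.lattice
  zero : 0 ∈ R
  mem : ∀ s ∈ R, s ∈ L'.lattice
  ex : ∀ l ∈ L'.lattice, ∃ s ∈ R, l - s ∈ L.lattice
  inj : ∀ s ∈ R, ∀ t ∈ R, s - t ∈ L.lattice → s = t

/-- `R` is a system of representatives of the nonzero elements of `L' / L` modulo `± 1` (for odd index). -/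
structure IsHalf (L L' : PeriodPair) (R : Finset ℂ) : Prop where
  le : L.lattice ≤ L'.lattice
  mem : ∀ s ∈ R, s ∈ L'.lattice
  notMem : ∀ s ∈ R, s ∉ L.lattice
  ex : ∀ l ∈ L'.lattice, l ∉ L.lattice → ∃ s ∈ R, l - s ∈ L.lattice ∨ l + s ∈ L.lattice
  inj : ∀ s ∈ R, ∀ t ∈ R, s - t ∈ L.lattice ∨ s + t ∈ L.lattice → s = t

/-- `T` is a system of representatives of the nonzero `m`-torsion points of `ℂ / L`. -/
structure IsTors (m : ℕ) (L : PeriodPair) (T : Finset ℂ) : Prop where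
  mem : ∀ t ∈ T, (m : ℂ) * t ∈ L.lattice
  notMem : ∀ t ∈ T, t ∉ L.lattice
  ex : ∀ z, (m : ℂ) * z ∈ L.lattice → z ∉ L.lattice → ∃ t ∈ T, z - t ∈ L.lattice
  inj : ∀ s ∈ T, ∀ t ∈ T, s - t ∈ L.lattice → s = t

/-- the standard system of nonzero `m`-torsion points -/
def torT (m : ℕ) (L : PeriodPair) : Finset ℂ := open Classical in
  ((Finset.range m ×ˢ Finset.range m).image
    fun ij => ((ij.1 : ℂ) * L.ω₁ + (ij.2 : ℂ) * L.ω₂) / (m : ℂ)).erase 0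

def DD (L L' : PeriodPair) (z : ℂ) : ℂ :=
  ∏ᶠ t ∈ ℘[L] '' {s : ℂ | s ∈ L'.lattice ∧ s ∉ L.lattice}, (℘[L] z - t)

def AA (m : ℕ) (L L' : PeriodPair) : ℂ := (m : ℂ) ^ (idx L L' - 1) * ∏ t ∈ torT m L, DD L L' t

def Psi (L L' : PeriodPair) (z : ℂ) : ℂ := AA 2 L L' ^ 3 / (AA 3 L L' * DD L L' z)

/-- `Z` is the continuation to `ℂ ∖ {1}` of `∑_{l ∈ L} |z + l|^{-2s}`, and `Z 0 = 0`. -/
structure IsEps (L : PeriodPair) (z : ℂ) (Z : ℂ → ℂ) : Prop where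
  diff : DifferentiableOn ℂ Z {1}ᶜ
  sum : ∀ s : ℂ, 1 < s.re → HasSum (fun l : L.lattice =>
    ((‖z + (l : ℂ)‖ ^ 2 : ℝ) : ℂ) ^ (-s)) (Z s)
  zero : Z 0 = 0

/-- the rectangular lattice `ℤ + ℤ r i` -/
def Lrec (r : ℝ) (hr : 0 < r) : PeriodPair := Ltau ⟨(r : ℂ) * Complex.I, by simpa using hr⟩

end Pool.Agent.CMR
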