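import Pool.Agent.CMR.GVal

/-!
# G-FIELD a Galois number field containing M and the torsion values

The set `S` of the values `crI n 𝔤 a` is finite (`crI_congr_class`, `exists_isCls` modulo `n`, `crI_congr_pt`, `𝓞 k/n` finite) and consists of algebraic numbers
(`crI_algebraic`). `F` = normal closure over `k` in `ℂ` of the field generated by `S` and `ι M` (as `IntermediateField k ℂ`; `ℂ` is algebraically closed: adjoin
the roots of the minimal polynomials over `k` of the elements of `S` and of generators of `ι M`; splitting field of the product), finite over `k`, Galois (characteristic `0`);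
`NumberField`. `κ` the inclusion. `X 𝔤 a = ⟨crI n 𝔤 a, _⟩` when the conditions hold, else `0`. (`F : Type` since it is a subtype of `ℂ`.) Model for instances: `CMG/ModelEx.lean`.
-/

set_option autoImplicit false

noncomputable section

open NumberField Pool.Agent.StarkRQ
open scoped PeriodPair

namespace Pool.Agent.CMR

/-- a number field, Galois over `k`, containing `M` and all values `crI n 𝔤 a` -/
theorem exists_field {k : Type} [Field k] [NumberField k] [Algebra k ℂ] (hk : IsIQ k) {n : ℕ}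
    (hn : 5 ≤ n) {M : Type} [Field M] [NumberField M] [Algebra k M] (ι : M →+* ℂ)
    (hι : ∀ x : k, ι (algebraMap k M x) = algebraMap k ℂ x) :
    ∃ (F : Type) (_ : Field F) (_ : NumberField F) (_ : Algebra k F) (_ : Algebra M F)
      (_ : IsScalarTower k M F) (_ : IsGalois k F) (κ : F →+* ℂ)
      (X : Ideal (𝓞 k) → 𝓞 k → F), (∀ x : M, κ (algebraMap M F x) = ι x) ∧
      ∀ 𝔤 : Ideal (𝓞 k), 𝔤 ≠ ⊥ → Prm n 𝔤 → ∀ a : 𝓞 k, ¬ (n : 𝓞 k) ∣ a →
        κ (X 𝔤 a) = crI n 𝔤 a := by
  classical
  have hn0 : n ≠ 0 := by omega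
  obtain ⟨G, hG⟩ := exists_isCls (k := k) hn0
  let S : Set ℂ := {z | ∃ 𝔤 : Ideal (𝓞 k), 𝔤 ≠ ⊥ ∧ Prm n 𝔤 ∧ ∃ a : 𝓞 k, ¬ (n : 𝓞 k) ∣ a ∧
    z = crI n 𝔤 a}
  have hSfin : S.Finite := by
    have hne : Ideal.span {(n : 𝓞 k)} ≠ ⊥ := by
      rw [Ne, Ideal.span_singleton_eq_bot]
      exact_mod_cast hn0
    have : Finite (𝓞 k ⧸ Ideal.span {(n : 𝓞 k)}) := Ideal.finiteQuotientOfFreeOfNeBot _ hne
    refine (Set.finite_range (fun x : G × (𝓞 k ⧸ Ideal.span {(n : 𝓞 k)}) =>
      crI n (x.1 : Ideal (𝓞 k)) (Quotient.out x.2))).subset ?_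
    rintro z ⟨𝔤, h0, hp, a, ha, rfl⟩
    obtain ⟨𝔥, hh, hreq⟩ := hG.ex 𝔤 h0 hp
    refine ⟨(⟨𝔥, hh⟩, Ideal.Quotient.mk _ a), ?_⟩
    show crI n 𝔥 (Quotient.out _) = crI n 𝔤 a
    rw [crI_congr_class hk hn0 h0 (hG.ne _ hh) hp (hG.prm _ hh) hreq a]
    refine crI_congr_pt hk hn0 (hG.ne _ hh) ?_
    rw [← Ideal.mem_span_singleton, ← Ideal.Quotient.eq]
    exact Ideal.Quotient.mk_out _
  have hSint : ∀ z ∈ S, IsIntegral k z := by
    rintro z ⟨𝔤, h0, hp, a, ha, rfl⟩
    have h1 := crI_algebraic hk hn h0 hp ha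
    exact (h1.tower_top k).isIntegral
  let ιk : M →ₐ[k] ℂ := { ι with commutes' := hι }
  have hfdM : FiniteDimensional k M := FiniteDimensional.right ℚ k M
  have hfd1 : FiniteDimensional k ιk.fieldRange := ιk.toLinearMap.finiteDimensional_range
  have hfd2 : FiniteDimensional k (IntermediateField.adjoin k S) := by
    have : Finite S := hSfin.to_subtype
    exact IntermediateField.finiteDimensional_adjoin hSint
  let L1 : IntermediateField k ℂ := ιk.fieldRange ⊔ IntermediateField.adjoin k S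
  have hfd3 : FiniteDimensional k L1 := IntermediateField.finiteDimensional_sup _ _
  let F : IntermediateField k ℂ := IntermediateField.normalClosure k L1 ℂ
  have hfd : FiniteDimensional k F := normalClosure.is_finiteDimensional k L1 ℂ
  have hnc : IsNormalClosure k L1 F :=
    Algebra.IsAlgebraic.isNormalClosure_normalClosure fun x => IsAlgClosed.splits _
  have hnormal : Normal k F := hnc.normal
  have hLF : L1 ≤ F := IntermediateField.le_normalClosure L1
  have hgal : IsGalois k F := { }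
  have hnf : NumberField F := { to_finiteDimensional := FiniteDimensional.trans ℚ k F }
  have hιF : ∀ x : M, ι x ∈ F := fun x => hLF (le_sup_left (a := ιk.fieldRange) ⟨x, rfl⟩)
  let φ : M →+* F := ι.codRestrict F.toSubfield.toSubring hιF
  let algMF : Algebra M F := φ.toAlgebra
  have htower : IsScalarTower k M F := by
    refine IsScalarTower.of_algebraMap_eq fun x => ?_
    apply Subtype.ext
    exact (hι x).symm
  refine ⟨F, inferInstance, hnf, inferInstance, algMF, htower, hgal, (F.val : F →+* ℂ),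
    fun 𝔤 a => if h : crI n 𝔤 a ∈ F then ⟨crI n 𝔤 a, h⟩ else 0, fun x => rfl, ?_⟩
  intro 𝔤 h0 hp a ha
  have hmem : crI n 𝔤 a ∈ F := hLF (le_sup_right (a := ιk.fieldRange)
    (IntermediateField.subset_adjoin k S ⟨𝔤, h0, hp, a, ha, rfl⟩))
  simp only [dif_pos hmem]
  rfl

end Pool.Agent.CMR
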