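import Pool.Agent.CMR.ADefs
import Pool.Agent.StarkRQ.ArtSpec
import Pool.Agent.CMG.SplitTriv

/-!
# Z-ART Artin symbols of a field with modulus N

`prm_iff`: `𝔞 + (N) = 1` iff no prime contains both; a prime ideal containing `𝔞` and `N` contains a prime number dividing `N`
and divides `N(𝔞)`; conversely if `p ∣ N`, `p ∣ N(𝔞)` then a prime over `p` divides `𝔞`. The next ones follow (or `IsCoprime.mul_left` etc.).
`art_iff`: `StarkRQ.art_spec` with `hm.ram`. `art_mul_of`: `StarkRQ.art_mul`. `art_eq_of_REq`: `a 𝔞 = b 𝔟`, `art (a) = art (b) = 1` by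
`hm.artin` and `art_iff` (`prm_span`). `art_surj`: let `H` be the set of all `art 𝔠`, `𝔠 ≠ ⊥` prime to `m`: a submonoid of a finite group, hence a subgroup. Let `E` be its
fixed field (`IntermediateField.fixedField`). For a prime `𝔮` of `E` not dividing `m`, `𝔭 = 𝔮 ∩ k`, a Frobenius `φ ∈ Gal(M/k)` at a prime `𝔓` over
`𝔮` is `art 𝔭 ∈ H` (`exists_cong_over`, `art_prime`), so `x = φ x ≡ x^{N𝔭}` modulo `𝔮` for `x ∈ 𝓞 E`, so the residue field of `𝔮` has at most `N𝔭` elements and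
`N𝔮 = N𝔭`. `CMG.split_trivial` (`M := k`, `M' := E`, `S` = primes dividing `m`): `[E : k] = 1`, so `H` is everything.
-/

set_option autoImplicit false

noncomputable section

open NumberField Pool.Agent.StarkRQ
open scoped PeriodPair

namespace Pool.Agent.CMR

variable {k : Type} [Field k] [NumberField k]

theorem prm_iff {N : ℕ} (𝔞 : Ideal (𝓞 k)) : Prm N 𝔞 ↔ (Ideal.absNorm 𝔞).Coprime N := by
  constructor
  · intro h
    rw [Prm, Ideal.isCoprime_iff_sup_eq] at h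
    rw [Nat.coprime_iff_gcd_eq_one]
    by_contra hne
    obtain ⟨p, hp, hpd⟩ := Nat.exists_prime_and_dvd hne
    have hpa : p ∣ Ideal.absNorm 𝔞 := hpd.trans (Nat.gcd_dvd_left _ _)
    have hpN : p ∣ N := hpd.trans (Nat.gcd_dvd_right _ _)
    have h1 : (1 : 𝓞 k) ∈ 𝔞 ⊔ Ideal.span {(N : 𝓞 k)} := by rw [h]; trivial
    obtain ⟨a, ha, b, hb, hab⟩ := Submodule.mem_sup.1 h1
    obtain ⟨c, rfl⟩ := Ideal.mem_span_singleton.1 hb
    obtain ⟨N', rfl⟩ := hpN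
    by_cases h0 : 𝔞 = ⊥
    · rw [h0, Ideal.mem_bot] at ha
      obtain ⟨Q, hQ, hpQ⟩ := exists_prime_over (M := k) hp
      apply hQ.ne_top
      rw [Ideal.eq_top_iff_one, ← hab, ha, zero_add, Nat.cast_mul, mul_assoc]
      exact Q.mul_mem_right _ hpQ
    · have hfin : Finite (𝓞 k ⧸ 𝔞) := Ideal.finiteQuotientOfFreeOfNeBot 𝔞 h0
      have hfact : Fact p.Prime := ⟨hp⟩
      rw [Ideal.absNorm_apply, Submodule.cardQuot_apply] at hpa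
      obtain ⟨x, hx⟩ := exists_prime_addOrderOf_dvd_card' (G := 𝓞 k ⧸ 𝔞) p hpa
      have h2 : p • x = 0 := by rw [← hx]; exact addOrderOf_nsmul_eq_zero x
      have h3 : x = 0 := by
        have h4 : (Ideal.Quotient.mk 𝔞 a) + Ideal.Quotient.mk 𝔞 (((p * N' : ℕ) : 𝓞 k) * c) = 1 := by
          rw [← map_add, hab, map_one]
        rw [Ideal.Quotient.eq_zero_iff_mem.2 ha, zero_add, Nat.cast_mul, mul_assoc, map_mul,
          map_natCast] at h4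
        calc x = x * 1 := (mul_one x).symm
          _ = x * ((p : 𝓞 k ⧸ 𝔞) * Ideal.Quotient.mk 𝔞 ((N' : 𝓞 k) * c)) := by rw [h4]
          _ = (p • x) * Ideal.Quotient.mk 𝔞 ((N' : 𝓞 k) * c) := by rw [nsmul_eq_mul]; ring
          _ = 0 := by rw [h2, zero_mul]
      rw [h3, addOrderOf_zero] at hx
      exact hp.one_lt.ne hx
  · intro h
    rw [Prm, Ideal.isCoprime_iff_sup_eq, Ideal.eq_top_iff_one]
    obtain ⟨u, v, huv⟩ := Nat.isCoprime_iff_coprime.2 h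
    have h1 : (1 : 𝓞 k) = (u : 𝓞 k) * (Ideal.absNorm 𝔞 : 𝓞 k) + (v : 𝓞 k) * (N : 𝓞 k) := by
      have h2 := congrArg (Int.cast : ℤ → 𝓞 k) huv
      push_cast at h2
      exact h2.symm
    rw [h1]
    refine Submodule.add_mem_sup (Ideal.mul_mem_left _ _ (Ideal.absNorm_mem 𝔞)) ?_
    exact Ideal.mul_mem_left _ _ (Ideal.mem_span_singleton_self _)

theorem prm_mul_iff {N : ℕ} (𝔞 𝔟 : Ideal (𝓞 k)) : Prm N (𝔞 * 𝔟) ↔ Prm N 𝔞 ∧ Prm N 𝔟 := by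
  rw [prm_iff, prm_iff, prm_iff, map_mul, Nat.coprime_mul_iff_left]

theorem prm_mul_left_iff {n m : ℕ} (𝔞 : Ideal (𝓞 k)) : Prm (n * m) 𝔞 ↔ Prm n 𝔞 ∧ Prm m 𝔞 := by
  rw [prm_iff, prm_iff, prm_iff, Nat.coprime_mul_iff_right]

theorem Prm.of_dvd {n m : ℕ} (h : n ∣ m) {𝔞 : Ideal (𝓞 k)} (h' : Prm m 𝔞) : Prm n 𝔞 := by
  rw [prm_iff] at h' ⊢
  exact Nat.Coprime.coprime_dvd_right h h'

/-- `Prm N` for principal ideals generated by `a ≡ 1` -/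
theorem prm_span {N : ℕ} {a : 𝓞 k} (h : (N : 𝓞 k) ∣ a - 1) : Prm N (Ideal.span {a}) := by
  rw [Prm, Ideal.isCoprime_span_singleton_iff]
  obtain ⟨c, hc⟩ := h
  refine ⟨1, -c, ?_⟩
  linear_combination hc

variable {M : Type} [Field M] [NumberField M] [Algebra k M] [IsGalois ℚ M] [IsAbelianGalois k M]
  {N : ℕ}

omit [NumberField k] [NumberField M] [IsGalois ℚ M] in
private theorem gal_comm (σ τ : Gal(M/k)) : σ * τ = τ * σ :=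
  IsMulCommutative.is_comm.comm σ τ

theorem art_iff (hm : IsMod k M N) {𝔞 : Ideal (𝓞 k)} (h0 : 𝔞 ≠ ⊥) (hp : Prm N 𝔞)
    (σ : Gal(M/k)) : HasArtinSymbol 𝔞 σ ↔ σ = art 𝔞 := by
  exact art_spec gal_comm hm.ram h0 ((prm_iff 𝔞).1 hp) σ

theorem art_mul_of (hm : IsMod k M N) {𝔞 𝔟 : Ideal (𝓞 k)} (h0 : 𝔞 ≠ ⊥) (h0' : 𝔟 ≠ ⊥)
    (hp : Prm N 𝔞) (hp' : Prm N 𝔟) : art (𝔞 * 𝔟) = (art 𝔞 * art 𝔟 : Gal(M/k)) := by
  exact art_mul gal_comm hm.ram 𝔞 𝔟 h0 h0' ((prm_iff 𝔞).1 hp) ((prm_iff 𝔟).1 hp')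

/-- the Artin symbol depends only on the ray class -/
theorem art_eq_of_REq (hm : IsMod k M N) {𝔞 𝔟 : Ideal (𝓞 k)} (h0 : 𝔞 ≠ ⊥) (h0' : 𝔟 ≠ ⊥)
    (hp : Prm N 𝔞) (hp' : Prm N 𝔟) (h : REq N 𝔞 𝔟) : (art 𝔞 : Gal(M/k)) = art 𝔟 := by
  obtain ⟨a, b, ha0, hb0, ha, hb, hab⟩ := h
  have h1 : ∀ c : 𝓞 k, c ≠ 0 → (N : 𝓞 k) ∣ c - 1 → ∀ 𝔠 : Ideal (𝓞 k), 𝔠 ≠ ⊥ → Prm N 𝔠 →
      art (Ideal.span {c} * 𝔠) = (art 𝔠 : Gal(M/k)) := by
    intro c hc0 hc 𝔠 h𝔠 h𝔠p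
    have h2 : Ideal.span {c} ≠ ⊥ := by
      rw [Ne, Ideal.span_singleton_eq_bot]
      exact hc0
    rw [art_mul_of hm h2 h𝔠 (prm_span hc) h𝔠p,
      ← (art_iff hm h2 (prm_span hc) 1).1 (hm.artin c hc0 hc), one_mul]
  rw [← h1 a ha0 ha 𝔞 h0 hp, hab, h1 b hb0 hb 𝔟 h0' hp']

omit [NumberField k] in
/-- a polynomial has few roots -/
private theorem card_le_of_pow {R : Type} [CommRing R] [IsDomain R] [Finite R] {q : ℕ} (hq : 1 < q)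
    (h : ∀ x : R, x ^ q = x) : Nat.card R ≤ q := by
  classical
  have hfin : Fintype R := Fintype.ofFinite R
  have h1 : (Polynomial.X ^ q - Polynomial.X : Polynomial R).natDegree = q := by
    rw [Polynomial.natDegree_sub_eq_left_of_natDegree_lt]
    · exact Polynomial.natDegree_X_pow q
    · rw [Polynomial.natDegree_X_pow, Polynomial.natDegree_X]
      exact hq
  have h0 : (Polynomial.X ^ q - Polynomial.X : Polynomial R) ≠ 0 := by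
    intro h2
    rw [h2, Polynomial.natDegree_zero] at h1
    omega
  have h2 : (Finset.univ : Finset R) ⊆
      (Polynomial.X ^ q - Polynomial.X : Polynomial R).roots.toFinset := by
    intro x _
    rw [Multiset.mem_toFinset, Polynomial.mem_roots h0, Polynomial.IsRoot.def]
    simp only [Polynomial.eval_sub, Polynomial.eval_pow, Polynomial.eval_X, h x, sub_self]
  calc Nat.card R = (Finset.univ : Finset R).card := by
        rw [Nat.card_eq_fintype_card, Finset.card_univ]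
    _ ≤ (Polynomial.X ^ q - Polynomial.X : Polynomial R).roots.toFinset.card :=
        Finset.card_le_card h2
    _ ≤ Multiset.card (Polynomial.X ^ q - Polynomial.X : Polynomial R).roots :=
        Multiset.toFinset_card_le _
    _ ≤ (Polynomial.X ^ q - Polynomial.X : Polynomial R).natDegree := Polynomial.card_roots' _
    _ = q := h1

private theorem norm_eq_of_cong {E : Type} [Field E] [NumberField E] [Algebra k E] [Algebra E M]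
    [IsScalarTower k E M] {𝔮 : Ideal (𝓞 E)} (h𝔮 : 𝔮.IsPrime) (h0 : 𝔮 ≠ ⊥) {𝔓 : Ideal (𝓞 M)}
    (h𝔓 : 𝔓.comap (algebraMap (𝓞 E) (𝓞 M)) = 𝔮) {σ : Gal(M/k)}
    (hσ : ∀ x : E, σ (algebraMap E M x) = algebraMap E M x)
    (hc : Cong (toG k M σ) 𝔓 (Ideal.absNorm (𝔮.comap (algebraMap (𝓞 k) (𝓞 E))))) :
    Ideal.absNorm 𝔮 = Ideal.absNorm (𝔮.comap (algebraMap (𝓞 k) (𝓞 E))) := by
  have h1 : 𝔮.comap (algebraMap (𝓞 k) (𝓞 E)) ≠ ⊥ := by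
    intro h
    exact h0 (Ideal.eq_bot_of_comap_eq_bot h)
  have hpr : (𝔮.comap (algebraMap (𝓞 k) (𝓞 E))).IsPrime := Ideal.comap_isPrime _ _
  have hfin : Finite (𝓞 E ⧸ 𝔮) := Ideal.finiteQuotientOfFreeOfNeBot 𝔮 h0
  have hfin' : Finite (𝓞 k ⧸ 𝔮.comap (algebraMap (𝓞 k) (𝓞 E))) :=
    Ideal.finiteQuotientOfFreeOfNeBot _ h1
  refine le_antisymm ?_ ?_
  · rw [Ideal.absNorm_apply 𝔮, Submodule.cardQuot_apply]
    have h2 : 1 < Ideal.absNorm (𝔮.comap (algebraMap (𝓞 k) (𝓞 E))) := by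
      have h3 : Ideal.absNorm (𝔮.comap (algebraMap (𝓞 k) (𝓞 E))) ≠ 0 := fun h =>
        h1 (Ideal.absNorm_eq_zero_iff.1 h)
      have h4 : Ideal.absNorm (𝔮.comap (algebraMap (𝓞 k) (𝓞 E))) ≠ 1 := fun h =>
        hpr.ne_top (Ideal.absNorm_eq_one_iff.1 h)
      omega
    refine card_le_of_pow h2 fun y => ?_
    obtain ⟨x, rfl⟩ := Ideal.Quotient.mk_surjective y
    rw [← map_pow, eq_comm, Ideal.Quotient.eq]
    have h5 := hc (algebraMap (𝓞 E) (𝓞 M) x)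
    have h6 : toG k M σ • (algebraMap (𝓞 E) (𝓞 M) x) = algebraMap (𝓞 E) (𝓞 M) x := by
      rw [toG_smul]
      apply RingOfIntegers.ext
      exact hσ (x : E)
    rw [h6, ← map_pow, ← map_sub, ← Ideal.mem_comap, h𝔓] at h5
    exact h5
  · rw [Ideal.absNorm_apply 𝔮, Submodule.cardQuot_apply, Ideal.absNorm_apply,
      Submodule.cardQuot_apply]
    exact Nat.card_le_card_of_injective (Ideal.quotientMap 𝔮 (algebraMap (𝓞 k) (𝓞 E)) le_rfl)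
      Ideal.quotientMap_injective

private theorem prm_of_prime {m : ℕ} {𝔭 : Ideal (𝓞 k)} (h𝔭 : 𝔭.IsPrime) (h0 : 𝔭 ≠ ⊥)
    (h : ¬ 𝔭 ∣ Ideal.span {(m : 𝓞 k)}) : Prm m 𝔭 := by
  have hmax : 𝔭.IsMaximal := h𝔭.isMaximal h0
  rw [Prm, Ideal.isCoprime_iff_sup_eq]
  refine hmax.out.2 _ (lt_of_le_of_ne le_sup_left fun h1 => h ?_)
  rw [Ideal.dvd_iff_le]
  rw [h1]
  exact le_sup_right

/-- every element of the Galois group is the Artin symbol of an ideal prime to `m` -/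
theorem art_surj (hm : IsMod k M N) {m : ℕ} (hm0 : m ≠ 0) (hN : N ∣ m) (σ : Gal(M/k)) :
    ∃ 𝔠 : Ideal (𝓞 k), 𝔠 ≠ ⊥ ∧ Prm m 𝔠 ∧ art 𝔠 = σ := by
  have hone : ∃ 𝔠 : Ideal (𝓞 k), 𝔠 ≠ ⊥ ∧ Prm m 𝔠 ∧ art 𝔠 = (1 : Gal(M/k)) := by
    have h1 : Prm m (⊤ : Ideal (𝓞 k)) := by
      rw [prm_iff, Ideal.absNorm_top]
      exact Nat.coprime_one_left m
    refine ⟨⊤, top_ne_bot, h1, ((art_iff hm top_ne_bot (h1.of_dvd hN) 1).1 ?_).symm⟩
    exact ⟨[], by simp, by simp, by simp⟩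
  have hmul : ∀ σ τ : Gal(M/k), (∃ 𝔠 : Ideal (𝓞 k), 𝔠 ≠ ⊥ ∧ Prm m 𝔠 ∧ art 𝔠 = σ) →
      (∃ 𝔠 : Ideal (𝓞 k), 𝔠 ≠ ⊥ ∧ Prm m 𝔠 ∧ art 𝔠 = τ) →
      ∃ 𝔠 : Ideal (𝓞 k), 𝔠 ≠ ⊥ ∧ Prm m 𝔠 ∧ art 𝔠 = σ * τ := by
    rintro σ τ ⟨𝔞, h𝔞, h𝔞p, rfl⟩ ⟨𝔟, h𝔟, h𝔟p, rfl⟩
    refine ⟨𝔞 * 𝔟, mul_ne_zero h𝔞 h𝔟, (prm_mul_iff 𝔞 𝔟).2 ⟨h𝔞p, h𝔟p⟩, ?_⟩
    exact art_mul_of hm h𝔞 h𝔟 (h𝔞p.of_dvd hN) (h𝔟p.of_dvd hN)
  have hpow : ∀ (σ : Gal(M/k)) (n : ℕ), (∃ 𝔠 : Ideal (𝓞 k), 𝔠 ≠ ⊥ ∧ Prm m 𝔠 ∧ art 𝔠 = σ) →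
      ∃ 𝔠 : Ideal (𝓞 k), 𝔠 ≠ ⊥ ∧ Prm m 𝔠 ∧ art 𝔠 = σ ^ n := by
    intro σ n h
    induction n with
    | zero => rw [pow_zero]; exact hone
    | succ n ih => rw [pow_succ]; exact hmul _ _ ih h
  let H : Subgroup Gal(M/k) :=
    { carrier := {σ | ∃ 𝔠 : Ideal (𝓞 k), 𝔠 ≠ ⊥ ∧ Prm m 𝔠 ∧ art 𝔠 = σ}
      mul_mem' := fun h h' => hmul _ _ h h'
      one_mem' := hone
      inv_mem' := fun {σ} h => by
        have h1 : σ⁻¹ = σ ^ (Nat.card Gal(M/k) - 1) := by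
          rw [inv_eq_iff_mul_eq_one, ← pow_succ', Nat.sub_add_cancel Nat.card_pos, pow_card_eq_one']
        rw [h1]
        exact hpow σ _ h }
  have hH : ∀ σ, σ ∈ H ↔ ∃ 𝔠 : Ideal (𝓞 k), 𝔠 ≠ ⊥ ∧ Prm m 𝔠 ∧ art 𝔠 = σ := fun σ => Iff.rfl
  have hfr : Module.finrank k (IntermediateField.fixedField H) = 1 := by
    have hspan : Ideal.span {(m : 𝓞 k)} ≠ ⊥ := by
      rw [Ne, Ideal.span_singleton_eq_bot, Nat.cast_eq_zero]
      exact hm0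
    refine CMG.split_trivial (S := {𝔭 : Ideal (𝓞 k) | 𝔭 ∣ Ideal.span {(m : 𝓞 k)}}) ?_ ?_
    · have h1 := UniqueFactorizationMonoid.fintypeSubtypeDvd (Ideal.span {(m : 𝓞 k)}) hspan
      have h2 : Finite {y : Ideal (𝓞 k) // y ∣ Ideal.span {(m : 𝓞 k)}} := Finite.of_fintype _
      exact Set.finite_coe_iff.1 h2
    · intro 𝔮 h𝔮 h𝔮0 hS
      have h𝔭 : (𝔮.comap (algebraMap (𝓞 k) (𝓞 (IntermediateField.fixedField H)))).IsPrime :=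
        Ideal.comap_isPrime _ _
      have h𝔭0 : 𝔮.comap (algebraMap (𝓞 k) (𝓞 (IntermediateField.fixedField H))) ≠ ⊥ := by
        intro h
        exact h𝔮0 (Ideal.eq_bot_of_comap_eq_bot h)
      have hprm : Prm m (𝔮.comap (algebraMap (𝓞 k) (𝓞 (IntermediateField.fixedField H)))) :=
        prm_of_prime h𝔭 h𝔭0 hS
      obtain ⟨𝔓, h𝔓, h𝔓𝔮⟩ := exists_over (M := M) 𝔮
      have h𝔓𝔭 : 𝔓.comap (algebraMap (𝓞 k) (𝓞 M)) =
          𝔮.comap (algebraMap (𝓞 k) (𝓞 (IntermediateField.fixedField H))) := by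
        rw [← h𝔓𝔮, Ideal.comap_comap, ← IsScalarTower.algebraMap_eq]
      refine norm_eq_of_cong h𝔮 h𝔮0 h𝔓𝔮
        (σ := art (𝔮.comap (algebraMap (𝓞 k) (𝓞 (IntermediateField.fixedField H))))) ?_ ?_
      · intro x
        have h1 := (IntermediateField.mem_fixedField_iff H (x : M)).1 x.2
        exact h1 _ ((hH _).2 ⟨_, h𝔭0, hprm, rfl⟩)
      · exact art_prime gal_comm hm.ram h𝔭 h𝔭0 ((prm_iff _).1 (hprm.of_dvd hN)) h𝔓𝔭
  have h1 := IntermediateField.finrank_eq_one_iff.1 hfr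
  have h2 := IntermediateField.fixingSubgroup_fixedField H
  rw [h1, IntermediateField.fixingSubgroup_bot] at h2
  rw [← hH, ← h2]
  trivial

end Pool.Agent.CMR
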