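import Pool.Agent.CMR.GFrob
import Pool.Agent.CMR.ZArt
import Pool.Agent.StarkRQ.FrobF

/-!
# G-GEN every element of Gal(F/k) acts by multiplication of ideals

Let `H ⊆ Gal(F/k)` be the set of the `τ` for which such an `𝔥` exists. `1 ∈ H` (`𝔥 = ⊤`;
`art ⊤ = 1`), products (`𝔥 𝔥'`; `art_mul_of`), and inverses since the group is finite. `H` contains
every Frobenius element at a prime `𝔓` of `F` not containing `B` (`frob_acts_almost`), with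
`𝔥 = 𝔭 = 𝔓 ∩ 𝓞 k`: its restriction to `M` is a Frobenius element at `𝔓 ∩ 𝓞 M`, so it is `art 𝔭`
(`IsFrob`, `HasArtinSymbol` with a list of length one, `art_iff`). Let `E` be the fixed field of the
subgroup `H`. For a prime `𝔮 ∌ B` of `E`, `𝔓` over `𝔮`, a Frobenius element `φ ∈ Gal(F/k)` at `𝔓`
(`StarkRQ.exists_cong_over`) is in `H`, so it fixes `E` and `x ≡ x^{N𝔭}` mod `𝔮` on `𝓞 E`:
`N𝔮 = N𝔭`. `CMG.split_trivial`: `E = k`, so `H = Gal(F/k)`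
(`IntermediateField.fixingSubgroup_fixedField`).
-/

set_option autoImplicit false

noncomputable section

open NumberField Pool.Agent.StarkRQ
open scoped PeriodPair

namespace Pool.Agent.CMR

/-- a residue field in which `x ^ q = x` -/
private lemma ggen_card {k E : Type} [Field k] [NumberField k] [Field E] [NumberField E]
    [Algebra k E] {𝔮 : Ideal (𝓞 E)} (h𝔮 : 𝔮.IsPrime) (h0 : 𝔮 ≠ ⊥)
    (h : ∀ x : 𝓞 E, x - x ^ Ideal.absNorm (𝔮.comap (algebraMap (𝓞 k) (𝓞 E))) ∈ 𝔮)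
    (h0' : 𝔮.comap (algebraMap (𝓞 k) (𝓞 E)) ≠ ⊥) :
    Ideal.absNorm 𝔮 = Ideal.absNorm (𝔮.comap (algebraMap (𝓞 k) (𝓞 E))) := by
  classical
  set 𝔭 := 𝔮.comap (algebraMap (𝓞 k) (𝓞 E)) with h𝔭
  have hp : 𝔭.IsPrime := Ideal.comap_isPrime _ _
  have hmax : 𝔮.IsMaximal := h𝔮.isMaximal h0
  have hfin : Finite (𝓞 E ⧸ 𝔮) := Ideal.finiteQuotientOfFreeOfNeBot 𝔮 h0
  have hfin' : Finite (𝓞 k ⧸ 𝔭) := Ideal.finiteQuotientOfFreeOfNeBot 𝔭 h0'
  have e1 : Ideal.absNorm 𝔮 = Nat.card (𝓞 E ⧸ 𝔮) := by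
    rw [Ideal.absNorm_apply, Submodule.cardQuot_apply]
  have e2 : Ideal.absNorm 𝔭 = Nat.card (𝓞 k ⧸ 𝔭) := by
    rw [Ideal.absNorm_apply, Submodule.cardQuot_apply]
  apply le_antisymm
  · set q := Ideal.absNorm 𝔭 with hq
    have hq1 : 1 < q := by
      rw [e2]
      have : Nontrivial (𝓞 k ⧸ 𝔭) := Ideal.Quotient.nontrivial_iff.2 hp.ne_top
      exact Finite.one_lt_card
    let _ : Field (𝓞 E ⧸ 𝔮) := Ideal.Quotient.field 𝔮
    have _ : Fintype (𝓞 E ⧸ 𝔮) := Fintype.ofFinite _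
    set P : Polynomial (𝓞 E ⧸ 𝔮) := Polynomial.X ^ q - Polynomial.X with hP
    have hP0 : P ≠ 0 := FiniteField.X_pow_card_sub_X_ne_zero _ hq1
    have hPd : P.natDegree = q := FiniteField.X_pow_card_sub_X_natDegree_eq _ hq1
    rw [e1, Nat.card_eq_fintype_card]
    have hsub : (Finset.univ : Finset (𝓞 E ⧸ 𝔮)) ⊆ P.roots.toFinset := by
      intro y _
      rw [Multiset.mem_toFinset, Polynomial.mem_roots hP0, Polynomial.IsRoot.def, hP]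
      obtain ⟨x, rfl⟩ := Ideal.Quotient.mk_surjective y
      have h1 := Ideal.Quotient.eq_zero_iff_mem.2 (h x)
      rw [map_sub, map_pow, sub_eq_zero] at h1
      simp only [Polynomial.eval_sub, Polynomial.eval_pow, Polynomial.eval_X]
      rw [← h1, sub_self]
    calc Fintype.card (𝓞 E ⧸ 𝔮) = (Finset.univ : Finset (𝓞 E ⧸ 𝔮)).card := rfl
      _ ≤ P.roots.toFinset.card := Finset.card_le_card hsub
      _ ≤ P.roots.card := Multiset.toFinset_card_le _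
      _ ≤ P.natDegree := Polynomial.card_roots' P
      _ = q := hPd
  · rw [e1, e2]
    exact Nat.card_le_card_of_injective
      (Ideal.quotientMap 𝔮 (algebraMap (𝓞 k) (𝓞 E)) le_rfl) (Ideal.quotientMap_injective)

private lemma ggen_comap_ne {k E : Type} [Field k] [NumberField k] [Field E] [NumberField E]
    [Algebra k E] {𝔮 : Ideal (𝓞 E)} (h0 : 𝔮 ≠ ⊥) :
    𝔮.comap (algebraMap (𝓞 k) (𝓞 E)) ≠ ⊥ := by
  intro h
  have h1 : ((Ideal.absNorm 𝔮 : ℕ) : 𝓞 k) ∈ 𝔮.comap (algebraMap (𝓞 k) (𝓞 E)) := by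
    rw [Ideal.mem_comap, map_natCast]
    exact Ideal.absNorm_mem 𝔮
  rw [h, Ideal.mem_bot, Nat.cast_eq_zero, Ideal.absNorm_eq_zero_iff] at h1
  exact h0 h1

/-- the elements which act by multiplication with an ideal -/
private def GA {k : Type} [Field k] [NumberField k] (n : ℕ) {M : Type} [Field M] [NumberField M]
    [Algebra k M] {F : Type} [Field F] [NumberField F] [Algebra k F]
    [Algebra M F] (X : Ideal (𝓞 k) → 𝓞 k → F) (τ : Gal(F/k)) : Prop :=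
    ∃ 𝔥 : Ideal (𝓞 k), 𝔥 ≠ ⊥ ∧ Prm n 𝔥 ∧
      (∀ 𝔤 : Ideal (𝓞 k), 𝔤 ≠ ⊥ → Prm n 𝔤 → ∀ a : 𝓞 k, ¬ (n : 𝓞 k) ∣ a →
        τ (X 𝔤 a) = X (𝔤 * 𝔥) a) ∧
      ∀ x : M, τ (algebraMap M F x) = algebraMap M F ((art 𝔥 : Gal(M/k)) x)

private lemma ggen_one {k : Type} [Field k] [NumberField k] {n N : ℕ}
    {M : Type} [Field M] [NumberField M] [Algebra k M] [IsGalois ℚ M]
    [IsAbelianGalois k M] (hmod : IsMod k M N) {F : Type} [Field F] [NumberField F] [Algebra k F]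
    [Algebra M F] (X : Ideal (𝓞 k) → 𝓞 k → F) : GA (M := M) n X (1 : Gal(F/k)) := by
  have hp : ∀ m : ℕ, Prm m (1 : Ideal (𝓞 k)) := fun m => isCoprime_one_left
  refine ⟨1, one_ne_zero, hp n, fun 𝔤 _ _ a _ => ?_, fun x => ?_⟩
  · rw [mul_one]
    rfl
  · have h1 : (1 : Gal(M/k)) = art (1 : Ideal (𝓞 k)) :=
      (art_iff hmod one_ne_zero (hp N) 1).1 ⟨[], by simp, by simp, by simp⟩
    rw [← h1]
    rfl

private lemma ggen_mul {k : Type} [Field k] [NumberField k] {n N : ℕ}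
    (hN : N ∣ n) {M : Type} [Field M] [NumberField M] [Algebra k M] [IsGalois ℚ M]
    [IsAbelianGalois k M] (hmod : IsMod k M N) {F : Type} [Field F] [NumberField F] [Algebra k F]
    [Algebra M F] (X : Ideal (𝓞 k) → 𝓞 k → F) {σ τ : Gal(F/k)} (h1 : GA (M := M) n X σ)
    (h2 : GA (M := M) n X τ) : GA (M := M) n X (σ * τ) := by
  obtain ⟨𝔥, a0, a1, a2, a3⟩ := h1
  obtain ⟨𝔨, b0, b1, b2, b3⟩ := h2
  refine ⟨𝔥 * 𝔨, mul_ne_zero a0 b0, (prm_mul_iff _ _).2 ⟨a1, b1⟩, fun 𝔤 h𝔤 h𝔤' a ha => ?_,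
    fun x => ?_⟩
  · rw [AlgEquiv.mul_apply, b2 𝔤 h𝔤 h𝔤' a ha,
      a2 _ (mul_ne_zero h𝔤 b0) ((prm_mul_iff _ _).2 ⟨h𝔤', b1⟩) a ha]
    congr 1
    rw [mul_assoc, mul_comm 𝔨 𝔥]
  · rw [AlgEquiv.mul_apply, b3, a3, art_mul_of hmod a0 b0 (Prm.of_dvd hN a1) (Prm.of_dvd hN b1)]
    rfl

private lemma ggen_frob {k : Type} [Field k] [NumberField k] {n N B : ℕ}
    (hN : N ∣ n) (hnB : n ∣ B) {M : Type} [Field M] [NumberField M] [Algebra k M] [IsGalois ℚ M]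
    [IsAbelianGalois k M] (hmod : IsMod k M N) {F : Type} [Field F] [NumberField F] [Algebra k F]
    [Algebra M F] [IsScalarTower k M F] [IsGalois k F] (X : Ideal (𝓞 k) → 𝓞 k → F)
    {𝔓 : Ideal (𝓞 F)} {φ : Gal(F/k)} (h𝔓 : 𝔓.IsPrime) (h0 : 𝔓 ≠ ⊥) (hB : (B : 𝓞 F) ∉ 𝔓)
    (hφ : ∀ x : 𝓞 F, φ • x - x ^ Ideal.absNorm (𝔓.comap (algebraMap (𝓞 k) (𝓞 F))) ∈ 𝔓)
    (hX : ∀ 𝔤 : Ideal (𝓞 k), 𝔤 ≠ ⊥ → Prm n 𝔤 → ∀ a : 𝓞 k, ¬ (n : 𝓞 k) ∣ a →
        φ (X 𝔤 a) = X (𝔤 * 𝔓.comap (algebraMap (𝓞 k) (𝓞 F))) a) :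
    GA (M := M) n X φ := by
  set 𝔭 := 𝔓.comap (algebraMap (𝓞 k) (𝓞 F)) with h𝔭
  have hp : 𝔭.IsPrime := Ideal.comap_isPrime _ _
  have hp0 : 𝔭 ≠ ⊥ := ggen_comap_ne h0
  have hmax : 𝔭.IsMaximal := hp.isMaximal hp0
  have hn : (n : 𝓞 k) ∉ 𝔭 := by
    intro h
    rw [h𝔭, Ideal.mem_comap, map_natCast] at h
    apply hB
    obtain ⟨c, rfl⟩ := hnB
    rw [Nat.cast_mul]
    exact 𝔓.mul_mem_right _ h
  have hprm : Prm n 𝔭 := by
    unfold Prm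
    rw [Ideal.isCoprime_iff_sup_eq]
    by_contra hcon
    have h1 := hmax.eq_of_le hcon le_sup_left
    apply hn
    rw [h1]
    exact Ideal.mem_sup_right (Ideal.mem_span_singleton_self _)
  have hnorm : Normal k M := IsGalois.to_normal
  refine ⟨𝔭, hp0, hprm, hX, ?_⟩
  set ψ : Gal(M/k) := φ.restrictNormal M with hψ
  have hcomm : ∀ x : M, algebraMap M F (ψ x) = φ (algebraMap M F x) := fun x =>
    AlgEquiv.restrictNormal_commutes φ M x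
  have hart : ψ = art 𝔭 := by
    rw [← art_iff hmod hp0 (Prm.of_dvd hN hprm)]
    refine ⟨[(𝔭, ψ)], ?_, by simp, by simp⟩
    intro x hx
    rw [List.mem_singleton] at hx
    rw [hx]
    refine ⟨hp, hp0, 𝔓.comap (algebraMap (𝓞 M) (𝓞 F)), Ideal.comap_isPrime _ _, ?_, ?_⟩
    · show Ideal.comap (algebraMap (𝓞 k) (𝓞 M)) (Ideal.comap (algebraMap (𝓞 M) (𝓞 F)) 𝔓) = 𝔭
      rw [Ideal.comap_comap, h𝔭]
      congr 1
      ext y
      show ((algebraMap M F (algebraMap k M y)) : F) = algebraMap k F y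
      rw [← IsScalarTower.algebraMap_apply]
    · intro y
      rw [Ideal.mem_comap]
      have h1 := hφ (algebraMap (𝓞 M) (𝓞 F) y)
      have h2 : algebraMap (𝓞 M) (𝓞 F) (ψ • y - y ^ Ideal.absNorm 𝔭) =
          φ • (algebraMap (𝓞 M) (𝓞 F) y) - (algebraMap (𝓞 M) (𝓞 F) y) ^ Ideal.absNorm 𝔭 := by
        rw [map_sub, map_pow]
        congr 1
        ext
        exact hcomm y
      rw [h2]
      exact h1
  intro x
  rw [← hart, hcomm]

/-- every element of the Galois group acts by multiplication with an ideal, compatible with the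
Artin symbol on `M` -/
theorem gal_acts {k : Type} [Field k] [NumberField k] [Algebra k ℂ] (hk : IsIQ k) {n N : ℕ}
    (hn : 5 ≤ n) (hN : N ∣ n) {M : Type} [Field M] [NumberField M] [Algebra k M] [IsGalois ℚ M]
    [IsAbelianGalois k M] (hmod : IsMod k M N) {F : Type} [Field F] [NumberField F] [Algebra k F]
    [Algebra M F] [IsScalarTower k M F] [IsGalois k F] (κ : F →+* ℂ)
    (hκ : ∀ x : k, κ (algebraMap k F x) = algebraMap k ℂ x) (X : Ideal (𝓞 k) → 𝓞 k → F)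
    (hX : ∀ 𝔤 : Ideal (𝓞 k), 𝔤 ≠ ⊥ → Prm n 𝔤 → ∀ a : 𝓞 k, ¬ (n : 𝓞 k) ∣ a →
      κ (X 𝔤 a) = crI n 𝔤 a) (τ : Gal(F/k)) :
    ∃ 𝔥 : Ideal (𝓞 k), 𝔥 ≠ ⊥ ∧ Prm n 𝔥 ∧
      (∀ 𝔤 : Ideal (𝓞 k), 𝔤 ≠ ⊥ → Prm n 𝔤 → ∀ a : 𝓞 k, ¬ (n : 𝓞 k) ∣ a →
        τ (X 𝔤 a) = X (𝔤 * 𝔥) a) ∧
      ∀ x : M, τ (algebraMap M F x) = algebraMap M F ((art 𝔥 : Gal(M/k)) x) := by
  classical
  obtain ⟨B, hB0, hnB, hB⟩ := frob_acts_almost hk hn κ hκ X hX
  let H0 : Submonoid Gal(F/k) :=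
    { carrier := {σ | GA (M := M) n X σ}
      one_mem' := ggen_one hmod X
      mul_mem' := fun h1 h2 => ggen_mul hN hmod X h1 h2 }
  let H : Subgroup Gal(F/k) :=
    { H0 with
      inv_mem' := by
        intro σ hσ
        have h1 : σ⁻¹ ∈ Submonoid.powers σ :=
          (isOfFinOrder_of_finite σ).mem_powers_iff_mem_zpowers.2
            (inv_mem (Subgroup.mem_zpowers σ))
        exact (Submonoid.powers_le.2 (show σ ∈ H0 from hσ)) h1 }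
  have hH : ∀ σ, σ ∈ H ↔ GA (M := M) n X σ := fun σ => Iff.rfl
  suffices hτ : τ ∈ H from hτ
  set E : IntermediateField k F := IntermediateField.fixedField H with hE
  have hone : Module.finrank k E = 1 := by
    have hBk : (Ideal.span {(B : 𝓞 k)} : Ideal (𝓞 k)) ≠ 0 := by
      rw [Ne, Ideal.zero_eq_bot, Ideal.span_singleton_eq_bot]
      exact_mod_cast hB0
    have hS : {𝔭 : Ideal (𝓞 k) | 𝔭 ∣ Ideal.span {(B : 𝓞 k)}}.Finite :=
      @Set.toFinite _ _ (@Finite.of_fintype _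
        (UniqueFactorizationMonoid.fintypeSubtypeDvd _ hBk))
    refine CMG.split_trivial hS ?_
    intro 𝔮 h𝔮 h0 hnot
    have hBq : (B : 𝓞 E) ∉ 𝔮 := by
      intro h
      apply hnot
      show 𝔮.comap (algebraMap (𝓞 k) (𝓞 E)) ∣ Ideal.span {(B : 𝓞 k)}
      rw [Ideal.dvd_span_singleton, Ideal.mem_comap, map_natCast]
      exact h
    obtain ⟨𝔓, h𝔓, hc⟩ := exists_over (F := E) (M := F) 𝔮
    have h𝔓0 : 𝔓 ≠ ⊥ := by
      rintro rfl
      apply h0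
      rw [← hc, Ideal.comap_bot_of_injective _ (FaithfulSMul.algebraMap_injective (𝓞 E) (𝓞 F))]
    have hB𝔓 : (B : 𝓞 F) ∉ 𝔓 := by
      intro h
      apply hBq
      rw [← hc, Ideal.mem_comap, map_natCast]
      exact h
    set 𝔭 := 𝔓.comap (algebraMap (𝓞 k) (𝓞 F)) with h𝔭
    have hp : 𝔭.IsPrime := Ideal.comap_isPrime _ _
    have hp0 : 𝔭 ≠ ⊥ := ggen_comap_ne h𝔓0
    have hpq : 𝔮.comap (algebraMap (𝓞 k) (𝓞 E)) = 𝔭 := by
      rw [← hc, Ideal.comap_comap, h𝔭]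
      congr 1
    obtain ⟨φ, hφ⟩ := exists_cong_over (F := k) (M := F) hp0 h𝔭.symm
    have hφH : φ ∈ H := by
      rw [hH]
      exact ggen_frob hN hnB hmod X h𝔓 h𝔓0 hB𝔓 hφ (hB 𝔓 φ h𝔓 h𝔓0 hB𝔓 hφ)
    refine ggen_card h𝔮 h0 ?_ (ggen_comap_ne h0)
    intro x
    rw [hpq, ← hc, Ideal.mem_comap]
    have h1 := hφ (algebraMap (𝓞 E) (𝓞 F) x)
    have h2 : φ ((x : E) : F) = ((x : E) : F) :=
      (IntermediateField.mem_fixedField_iff H _).1 (x : E).2 φ hφH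
    have h3 : toG k F φ • algebraMap (𝓞 E) (𝓞 F) x = algebraMap (𝓞 E) (𝓞 F) x := by
      ext
      exact h2
    rw [h3] at h1
    rw [map_sub, map_pow]
    exact h1
  have hbot : E = ⊥ := IntermediateField.finrank_eq_one_iff.1 hone
  have hfix : E.fixingSubgroup = H := IntermediateField.fixingSubgroup_fixedField H
  rw [hbot, IntermediateField.fixingSubgroup_bot] at hfix
  rw [← hfix]
  trivial

end Pool.Agent.CMR
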