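import Pool.Agent.CMR.ZArt

/-!
# Z-CLS ray classes

`REq` is an equivalence relation compatible with products (multiply `a`s and `b`s; `a a' ≡ 1`); `cancel`: ideals of a Dedekind domain
are cancellable. `exists_REq_prm`: choose `b ∈ 𝔞` with `b ≡ 1` mod `N` and `v_𝔮(b) = v_𝔮(𝔞)` for the primes `𝔮 ∣ m`, `𝔮 ∤ N` (Chinese remainder theorem:
choose `b` in `𝔞`, not in `𝔞 𝔮` for the finitely many `𝔮`; `IsDedekindDomain.exists_forall_sub_mem_ideal`), so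
`(b) = 𝔞 𝔟'` with `𝔟'` prime to `m N`; the same for `𝔟'`: `(c) = 𝔟' 𝔟`, `c ≡ 1` mod `N`, `𝔟` prime to `m N`; then
`b 𝔟 = 𝔞 𝔟' 𝔟 = c 𝔞`. `exists_REq_inv`: `𝔟'` in this construction. `exists_isCls`: finitely many classes: finitely many ideal classes `C_j`, choose for every class an
ideal `𝔟_j` prime to `N` in the inverse class (`exists_REq_prm` with ordinary equivalence, or by the same construction); for `𝔞` prime to `N` in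
class `j`: `𝔞 𝔟_j = (x)`, `x` prime to `N`; if `𝔞, 𝔞'` have the same `j` and `x ≡ x'` mod `N` then with `y x ≡ 1` mod `N`:
`y x' 𝔞 𝔟_j = y x 𝔞' 𝔟_j`, so `𝔞`, `𝔞'` are equivalent (`y x' ≡ y x ≡ 1`); `𝓞 k / N` is finite. Then choose one ideal in every class (quotient of the subtype of ideals
prime to `N`, finite). `perm`: `𝔤 ↦` the representative of `𝔤 𝔥`, injective by `cancel`, finite.
-/

set_option autoImplicit false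

noncomputable section

open NumberField Pool.Agent.StarkRQ
open scoped PeriodPair

namespace Pool.Agent.CMR

set_option linter.unusedSectionVars false
set_option linter.unusedVariables false

variable {k : Type} [Field k] [NumberField k] {N : ℕ}

theorem REq.refl (𝔞 : Ideal (𝓞 k)) : REq N 𝔞 𝔞 := by
  exact ⟨1, 1, one_ne_zero, one_ne_zero, by simp, by simp, rfl⟩

theorem REq.symm {𝔞 𝔟 : Ideal (𝓞 k)} (h : REq N 𝔞 𝔟) : REq N 𝔟 𝔞 := by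
  obtain ⟨a, b, ha0, hb0, ha, hb, e⟩ := h
  exact ⟨b, a, hb0, ha0, hb, ha, e.symm⟩

private lemma zc_mul_sub {a b : 𝓞 k} (ha : (N : 𝓞 k) ∣ a - 1) (hb : (N : 𝓞 k) ∣ b - 1) :
    (N : 𝓞 k) ∣ a * b - 1 := by
  have h : a * b - 1 = a * (b - 1) + (a - 1) := by ring
  rw [h]
  exact dvd_add (hb.mul_left a) ha

theorem REq.trans {𝔞 𝔟 𝔠 : Ideal (𝓞 k)} (h : REq N 𝔞 𝔟) (h' : REq N 𝔟 𝔠) : REq N 𝔞 𝔠 := by
  obtain ⟨a, b, ha0, hb0, ha, hb, e⟩ := h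
  obtain ⟨c, d, hc0, hd0, hc, hd, e'⟩ := h'
  refine ⟨a * c, b * d, mul_ne_zero ha0 hc0, mul_ne_zero hb0 hd0, zc_mul_sub ha hc,
    zc_mul_sub hb hd, ?_⟩
  rw [← Ideal.span_singleton_mul_span_singleton, ← Ideal.span_singleton_mul_span_singleton,
    mul_assoc, mul_left_comm, e, mul_left_comm, e', mul_assoc]

theorem REq.mul {𝔞 𝔟 𝔠 𝔡 : Ideal (𝓞 k)} (h : REq N 𝔞 𝔟) (h' : REq N 𝔠 𝔡) :
    REq N (𝔞 * 𝔠) (𝔟 * 𝔡) := by
  obtain ⟨a, b, ha0, hb0, ha, hb, e⟩ := h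
  obtain ⟨c, d, hc0, hd0, hc, hd, e'⟩ := h'
  refine ⟨a * c, b * d, mul_ne_zero ha0 hc0, mul_ne_zero hb0 hd0, zc_mul_sub ha hc,
    zc_mul_sub hb hd, ?_⟩
  rw [← Ideal.span_singleton_mul_span_singleton, ← Ideal.span_singleton_mul_span_singleton,
    mul_mul_mul_comm, e, e', mul_mul_mul_comm]

theorem REq.cancel {𝔞 𝔟 𝔠 : Ideal (𝓞 k)} (h0 : 𝔠 ≠ ⊥) (h : REq N (𝔞 * 𝔠) (𝔟 * 𝔠)) :
    REq N 𝔞 𝔟 := by
  obtain ⟨a, b, ha0, hb0, ha, hb, e⟩ := h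
  refine ⟨a, b, ha0, hb0, ha, hb, ?_⟩
  rw [← mul_assoc, ← mul_assoc] at e
  exact mul_right_cancel₀ h0 e

theorem REq.of_dvd {n : ℕ} (hn : N ∣ n) {𝔞 𝔟 : Ideal (𝓞 k)} (h : REq n 𝔞 𝔟) : REq N 𝔞 𝔟 := by
  obtain ⟨a, b, ha0, hb0, ha, hb, e⟩ := h
  have h1 : (N : 𝓞 k) ∣ (n : 𝓞 k) := Nat.cast_dvd_cast hn
  exact ⟨a, b, ha0, hb0, h1.trans ha, h1.trans hb, e⟩

theorem REq.span_mul {a : 𝓞 k} (ha0 : a ≠ 0) (ha : (N : 𝓞 k) ∣ a - 1) (𝔞 : Ideal (𝓞 k)) :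
    REq N (𝔞 * Ideal.span {a}) 𝔞 := by
  refine ⟨1, a, one_ne_zero, ha0, by simp, ha, ?_⟩
  rw [Ideal.span_singleton_one, Ideal.top_mul, mul_comm]

/-- an element prime to `N` is congruent to one prime to `m` -/
private lemma zc_lift {m : ℕ} (hN : N ≠ 0) (hm : m ≠ 0) {c₀ : 𝓞 k}
    (h : IsCoprime c₀ (N : 𝓞 k)) :
    ∃ c : 𝓞 k, c ≠ 0 ∧ (N : 𝓞 k) ∣ c - c₀ ∧ IsCoprime c (m : 𝓞 k) := by
  classical
  have hN0 : (N : 𝓞 k) ≠ 0 := Nat.cast_ne_zero.2 hN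
  have hm0 : (m : 𝓞 k) ≠ 0 := Nat.cast_ne_zero.2 hm
  suffices hs : ∃ c : 𝓞 k, (N : 𝓞 k) ∣ c - c₀ ∧ IsCoprime c (m : 𝓞 k) by
    obtain ⟨c, h1, h2⟩ := hs
    by_cases hc : c = 0
    · subst hc
      rw [isCoprime_zero_left] at h2
      refine ⟨(N : 𝓞 k) * m, mul_ne_zero hN0 hm0, ?_, ?_⟩
      · have h3 : (N : 𝓞 k) * m - c₀ = N * m + (0 - c₀) := by ring
        rw [h3]
        exact dvd_add (dvd_mul_right _ _) h1
      · obtain ⟨u, hu⟩ := h2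
        exact ⟨0, (u⁻¹ : (𝓞 k)ˣ), by rw [zero_mul, zero_add, ← hu, Units.inv_mul]⟩
    · exact ⟨c, hc, h1, h2⟩
  have hmb : Ideal.span {(m : 𝓞 k)} ≠ ⊥ := by
    rw [Ne, Ideal.span_singleton_eq_bot]
    exact hm0
  set s : Finset (Ideal (𝓞 k)) :=
    (UniqueFactorizationMonoid.normalizedFactors (Ideal.span {(m : 𝓞 k)})).toFinset with hs
  have hmem : ∀ P : Ideal (𝓞 k), P ∈ s ↔ P.IsPrime ∧ Ideal.span {(m : 𝓞 k)} ≤ P := by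
    intro P
    rw [hs, Multiset.mem_toFinset, Ideal.mem_normalizedFactors_iff hmb]
  obtain ⟨t, ht⟩ := IsDedekindDomain.exists_forall_sub_mem_ideal (s := s) (fun P => P)
    (fun _ => 1) (fun P hP => by
      rw [hs, Multiset.mem_toFinset] at hP
      exact UniqueFactorizationMonoid.prime_of_normalized_factor P hP)
    (fun _ _ _ _ hij => hij) (fun P => if c₀ ∈ (P : Ideal (𝓞 k)) then (1 : 𝓞 k) else 0)
  refine ⟨c₀ + N * t, ⟨t, by ring⟩, ?_⟩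
  rw [← Ideal.isCoprime_span_singleton_iff, Ideal.isCoprime_iff_sup_eq]
  by_contra hne
  obtain ⟨P, hP, hle⟩ := Ideal.exists_le_maximal _ hne
  have hPm : Ideal.span {(m : 𝓞 k)} ≤ P := le_sup_right.trans hle
  have hPc : c₀ + N * t ∈ P := by
    have h1 : Ideal.span {c₀ + N * t} ≤ P := le_sup_left.trans hle
    exact h1 (Ideal.mem_span_singleton_self _)
  have hPs : P ∈ s := (hmem P).2 ⟨hP.isPrime, hPm⟩
  have h2 := ht P hPs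
  rw [pow_one] at h2
  by_cases hc : c₀ ∈ P
  · rw [if_pos hc] at h2
    have h3 : (N : 𝓞 k) * t ∈ P := (Ideal.add_mem_iff_right P hc).1 hPc
    have h4 : (N : 𝓞 k) ∈ P := by
      have h5 : (N : 𝓞 k) = N * t - N * (t - 1) := by ring
      rw [h5]
      exact P.sub_mem h3 (P.mul_mem_left _ h2)
    obtain ⟨u, v, huv⟩ := h
    apply hP.ne_top
    rw [Ideal.eq_top_iff_one, ← huv]
    exact P.add_mem (P.mul_mem_left _ hc) (P.mul_mem_left _ h4)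
  · rw [if_neg hc, sub_zero] at h2
    apply hc
    have h5 : c₀ = c₀ + N * t - N * t := by ring
    rw [h5]
    exact P.sub_mem hPc (P.mul_mem_left _ h2)

/-- every ideal divides a principal ideal with cofactor prime to `n` -/
private lemma zc_key0 {n : ℕ} (hn : n ≠ 0) {𝔞 : Ideal (𝓞 k)} (h0 : 𝔞 ≠ ⊥) :
    ∃ (a : 𝓞 k) (𝔟 : Ideal (𝓞 k)), a ≠ 0 ∧ 𝔟 ≠ ⊥ ∧ Prm n 𝔟 ∧ Ideal.span {a} = 𝔞 * 𝔟 := by
  have hn0 : (n : 𝓞 k) ≠ 0 := Nat.cast_ne_zero.2 hn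
  have hnb : Ideal.span {(n : 𝓞 k)} ≠ ⊥ := by
    rw [Ne, Ideal.span_singleton_eq_bot]
    exact hn0
  have hI0 : 𝔞 * Ideal.span {(n : 𝓞 k)} ≠ ⊥ := mul_ne_zero h0 hnb
  obtain ⟨a, ha0, ha⟩ : ∃ a : 𝓞 k, a ≠ 0 ∧ 𝔞 * Ideal.span {(n : 𝓞 k)} ⊔ Ideal.span {a} = 𝔞 := by
    obtain ⟨a, ha⟩ := IsDedekindDomain.exists_sup_span_eq
      (Ideal.mul_le_left : 𝔞 * Ideal.span {(n : 𝓞 k)} ≤ 𝔞) hI0
    by_cases h : a = 0
    · obtain ⟨x, hx, hx0⟩ := Submodule.exists_mem_ne_zero_of_ne_bot hI0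
      refine ⟨x, hx0, ?_⟩
      have h1 : Ideal.span {x} ≤ 𝔞 * Ideal.span {(n : 𝓞 k)} := by
        rw [Ideal.span_singleton_le_iff_mem]
        exact hx
      rw [sup_eq_left.2 h1]
      rwa [h, Ideal.span_singleton_eq_bot.2 rfl, sup_bot_eq] at ha
    · exact ⟨a, h, ha⟩
  have hmem : a ∈ 𝔞 := by
    have h1 : Ideal.span {a} ≤ 𝔞 := by
      exact le_sup_right.trans ha.le
    exact h1 (Ideal.mem_span_singleton_self _)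
  obtain ⟨𝔟, hb⟩ := Ideal.dvd_span_singleton.2 hmem
  refine ⟨a, 𝔟, ha0, ?_, ?_, hb⟩
  · rintro rfl
    apply ha0
    rw [← Ideal.span_singleton_eq_bot, hb]
    exact mul_zero _
  · unfold Prm
    rw [Ideal.isCoprime_iff_sup_eq, sup_comm]
    rw [hb, ← Ideal.mul_sup] at ha
    have h1 : 𝔞 * (Ideal.span {(n : 𝓞 k)} ⊔ 𝔟) = 𝔞 * ⊤ := by rw [ha, Ideal.mul_top]
    exact mul_left_cancel₀ h0 h1

private lemma zc_key (hN : N ≠ 0) {m : ℕ} (hm : m ≠ 0) {𝔞 : Ideal (𝓞 k)} (h0 : 𝔞 ≠ ⊥)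
    (hp : Prm N 𝔞) : ∃ (b : 𝓞 k) (𝔟 : Ideal (𝓞 k)), b ≠ 0 ∧ (N : 𝓞 k) ∣ b - 1 ∧ 𝔟 ≠ ⊥ ∧
      Prm (N * m) 𝔟 ∧ Ideal.span {b} = 𝔞 * 𝔟 := by
  obtain ⟨a, 𝔟, ha0, hb0, hbp, hab⟩ := zc_key0 (mul_ne_zero hN hm) h0
  have hbp' := (prm_mul_left_iff 𝔟).1 hbp
  have haN : IsCoprime a (N : 𝓞 k) := by
    rw [← Ideal.isCoprime_span_singleton_iff, hab]
    exact IsCoprime.mul_left hp hbp'.1
  obtain ⟨u, v, huv⟩ := haN
  have hu : IsCoprime u (N : 𝓞 k) := ⟨a, v, by rw [← huv]; ring⟩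
  obtain ⟨c, hc0, hcu, hcm⟩ := zc_lift hN hm hu
  have hca : (N : 𝓞 k) ∣ c * a - 1 := by
    have h1 : c * a - 1 = (c - u) * a - N * v := by
      linear_combination huv
    rw [h1]
    exact dvd_sub (hcu.mul_right a) (dvd_mul_right _ _)
  refine ⟨c * a, Ideal.span {c} * 𝔟, mul_ne_zero hc0 ha0, hca, ?_, ?_, ?_⟩
  · refine mul_ne_zero ?_ hb0
    rw [Ne, Ideal.zero_eq_bot, Ideal.span_singleton_eq_bot]
    exact hc0
  · refine (prm_mul_iff _ _).2 ⟨(prm_mul_left_iff _).2 ⟨?_, ?_⟩, hbp⟩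
    · unfold Prm
      rw [Ideal.isCoprime_span_singleton_iff]
      obtain ⟨w, hw⟩ := hca
      exact ⟨a, -w, by linear_combination hw⟩
    · unfold Prm
      rw [Ideal.isCoprime_span_singleton_iff]
      exact hcm
  · rw [← Ideal.span_singleton_mul_span_singleton, hab, mul_left_comm]

/-- every class contains ideals prime to `m` -/
theorem exists_REq_prm (hN : N ≠ 0) {m : ℕ} (hm : m ≠ 0) {𝔞 : Ideal (𝓞 k)} (h0 : 𝔞 ≠ ⊥)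
    (hp : Prm N 𝔞) : ∃ 𝔟 : Ideal (𝓞 k), 𝔟 ≠ ⊥ ∧ Prm (N * m) 𝔟 ∧ REq N 𝔞 𝔟 := by
  obtain ⟨b, 𝔟', hb0, hb, hb'0, hb'p, e⟩ := zc_key hN hm h0 hp
  obtain ⟨c, 𝔟, hc0, hc, h𝔟0, h𝔟p, e'⟩ := zc_key hN hm hb'0 ((prm_mul_left_iff _).1 hb'p).1
  refine ⟨𝔟, h𝔟0, h𝔟p, c, b, hc0, hb0, hc, hb, ?_⟩
  rw [e, e']
  ring

/-- inverse classes -/
theorem exists_REq_inv (hN : N ≠ 0) {𝔞 : Ideal (𝓞 k)} (h0 : 𝔞 ≠ ⊥) (hp : Prm N 𝔞) :
    ∃ 𝔟 : Ideal (𝓞 k), 𝔟 ≠ ⊥ ∧ Prm N 𝔟 ∧ REq N (𝔞 * 𝔟) ⊤ := by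
  obtain ⟨b, 𝔟, hb0, hb, hb'0, hb'p, e⟩ := zc_key hN one_ne_zero h0 hp
  refine ⟨𝔟, hb'0, ((prm_mul_left_iff _).1 hb'p).1, 1, b, one_ne_zero, hb0, by simp, hb, ?_⟩
  rw [e, Ideal.span_singleton_one, Ideal.top_mul, Ideal.mul_top]

theorem exists_isCls (hN : N ≠ 0) : ∃ G : Finset (Ideal (𝓞 k)), IsCls N G := by
  classical
  have hN0 : (N : 𝓞 k) ≠ 0 := Nat.cast_ne_zero.2 hN
  have hNb : Ideal.span {(N : 𝓞 k)} ≠ ⊥ := by
    rw [Ne, Ideal.span_singleton_eq_bot]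
    exact hN0
  have hfin : Finite (𝓞 k ⧸ Ideal.span {(N : 𝓞 k)}) := Ideal.finiteQuotientOfFreeOfNeBot _ hNb
  -- ideals in the inverse classes
  have hcl : ∀ j : ClassGroup (𝓞 k), ∃ 𝔟 : Ideal (𝓞 k), 𝔟 ≠ ⊥ ∧ Prm N 𝔟 ∧
      ∀ 𝔞 : nonZeroDivisors (Ideal (𝓞 k)), ClassGroup.mk0 𝔞 = j →
        ∃ z : 𝓞 k, (𝔞 : Ideal (𝓞 k)) * 𝔟 = Ideal.span {z} := by
    intro j
    obtain ⟨𝔠, h𝔠⟩ := ClassGroup.mk0_surjective j
    obtain ⟨a, 𝔟, ha0, hb0, hbp, hab⟩ := zc_key0 hN (nonZeroDivisors.coe_ne_zero 𝔠)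
    refine ⟨𝔟, hb0, hbp, fun 𝔞 h𝔞 => ?_⟩
    have hbm : 𝔟 ∈ nonZeroDivisors (Ideal (𝓞 k)) := mem_nonZeroDivisors_of_ne_zero hb0
    have h1 : ClassGroup.mk0 (𝔞 * ⟨𝔟, hbm⟩) = 1 := by
      rw [map_mul, h𝔞, ← h𝔠, ← map_mul]
      have h2 : (𝔠 * ⟨𝔟, hbm⟩ : nonZeroDivisors (Ideal (𝓞 k))) =
          ⟨Ideal.span {a}, by
            rw [hab]
            exact mul_mem 𝔠.2 hbm⟩ := Subtype.ext hab.symm
      rw [h2, ClassGroup.mk0_eq_one_iff]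
      exact ⟨a, rfl⟩
    have h3 : (𝔞 * ⟨𝔟, hbm⟩ : nonZeroDivisors (Ideal (𝓞 k))) =
        ⟨(𝔞 : Ideal (𝓞 k)) * 𝔟, mul_mem 𝔞.2 hbm⟩ := rfl
    rw [h3, ClassGroup.mk0_eq_one_iff] at h1
    obtain ⟨z, hz⟩ := h1
    exact ⟨z, hz⟩
  choose B hB0 hBp hB using hcl
  let X : Type := {𝔞 : Ideal (𝓞 k) // 𝔞 ≠ ⊥ ∧ Prm N 𝔞}
  let nz : X → nonZeroDivisors (Ideal (𝓞 k)) := fun x =>
    ⟨x.1, mem_nonZeroDivisors_of_ne_zero x.2.1⟩
  have hz : ∀ x : X, ∃ z : 𝓞 k, x.1 * B (ClassGroup.mk0 (nz x)) = Ideal.span {z} :=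
    fun x => hB _ (nz x) rfl
  choose z hz using hz
  let r : Setoid X := ⟨fun x y => REq N x.1 y.1, fun x => REq.refl _, fun h => h.symm,
    fun h h' => h.trans h'⟩
  let F : Quotient r → ClassGroup (𝓞 k) × (𝓞 k ⧸ Ideal.span {(N : 𝓞 k)}) := fun q =>
    (ClassGroup.mk0 (nz q.out), Ideal.Quotient.mk _ (z q.out))
  have hF : Function.Injective F := by
    intro q q' h
    have h1 : ClassGroup.mk0 (nz q.out) = ClassGroup.mk0 (nz q'.out) := congrArg Prod.fst h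
    have h2 : Ideal.Quotient.mk (Ideal.span {(N : 𝓞 k)}) (z q.out) =
      Ideal.Quotient.mk (Ideal.span {(N : 𝓞 k)}) (z q'.out) := congrArg Prod.snd h
    rw [Ideal.Quotient.eq, Ideal.mem_span_singleton] at h2
    have e1 := hz q.out
    have e2 := hz q'.out
    rw [← h1] at e2
    have hB0' := hB0 (ClassGroup.mk0 (nz q.out))
    have hz0 : z q.out ≠ 0 := by
      intro h3
      rw [h3, Ideal.span_singleton_eq_bot.2 rfl] at e1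
      exact mul_ne_zero q.out.2.1 hB0' e1
    have hz0' : z q'.out ≠ 0 := by
      intro h3
      rw [h3, Ideal.span_singleton_eq_bot.2 rfl] at e2
      exact mul_ne_zero q'.out.2.1 hB0' e2
    have hco : IsCoprime (z q.out) (N : 𝓞 k) := by
      rw [← Ideal.isCoprime_span_singleton_iff, ← e1]
      exact IsCoprime.mul_left q.out.2.2 (hBp _)
    obtain ⟨u, v, huv⟩ := hco
    have hu : IsCoprime u (N : 𝓞 k) := ⟨z q.out, v, by rw [← huv]; ring⟩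
    obtain ⟨y, hy0, hyu, -⟩ := zc_lift (m := 1) hN one_ne_zero hu
    have hy1 : (N : 𝓞 k) ∣ y * z q.out - 1 := by
      have h3 : y * z q.out - 1 = (y - u) * z q.out - N * v := by
        linear_combination huv
      rw [h3]
      exact dvd_sub (hyu.mul_right _) (dvd_mul_right _ _)
    have hy2 : (N : 𝓞 k) ∣ y * z q'.out - 1 := by
      have h3 : y * z q'.out - 1 = (y * z q.out - 1) - (z q.out - z q'.out) * y := by ring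
      rw [h3]
      exact dvd_sub hy1 (h2.mul_right _)
    have h4 : REq N (q.out.1 * B (ClassGroup.mk0 (nz q.out)))
        (q'.out.1 * B (ClassGroup.mk0 (nz q.out))) := by
      refine ⟨y * z q'.out, y * z q.out, mul_ne_zero hy0 hz0', mul_ne_zero hy0 hz0, hy2, hy1, ?_⟩
      rw [e1, e2, Ideal.span_singleton_mul_span_singleton,
        Ideal.span_singleton_mul_span_singleton]
      congr 2
      ring
    have h5 : REq N q.out.1 q'.out.1 := h4.cancel hB0'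
    have h6 : (Quotient.mk r q.out) = Quotient.mk r q'.out := Quotient.sound h5
    rwa [Quotient.out_eq, Quotient.out_eq] at h6
  have hq : Finite (Quotient r) := Finite.of_injective F hF
  refine ⟨(Set.finite_range fun q : Quotient r => q.out.1).toFinset, ?_, ?_, ?_, ?_⟩
  · intro 𝔤 h𝔤
    obtain ⟨q, rfl⟩ := (Set.Finite.mem_toFinset _).1 h𝔤
    exact q.out.2.1
  · intro 𝔤 h𝔤
    obtain ⟨q, rfl⟩ := (Set.Finite.mem_toFinset _).1 h𝔤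
    exact q.out.2.2
  · intro 𝔞 h𝔞0 h𝔞p
    refine ⟨(Quotient.mk r ⟨𝔞, h𝔞0, h𝔞p⟩).out.1, (Set.Finite.mem_toFinset _).2 ⟨_, rfl⟩, ?_⟩
    have h1 : (Quotient.mk r (Quotient.mk r (⟨𝔞, h𝔞0, h𝔞p⟩ : X)).out) =
      Quotient.mk r ⟨𝔞, h𝔞0, h𝔞p⟩ := Quotient.out_eq _
    exact (Quotient.exact h1).symm
  · intro 𝔤 h𝔤 𝔥 h𝔥 h
    obtain ⟨q, rfl⟩ := (Set.Finite.mem_toFinset _).1 h𝔤
    obtain ⟨q', rfl⟩ := (Set.Finite.mem_toFinset _).1 h𝔥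
    have h1 : (Quotient.mk r q.out) = Quotient.mk r q'.out := Quotient.sound h
    rw [Quotient.out_eq, Quotient.out_eq] at h1
    rw [h1]

/-- multiplication by an ideal permutes the classes -/
theorem IsCls.perm {G : Finset (Ideal (𝓞 k))} (hG : IsCls N G) (hN : N ≠ 0) {𝔥 : Ideal (𝓞 k)}
    (h0 : 𝔥 ≠ ⊥) (hp : Prm N 𝔥) : ∃ π : Equiv.Perm G, ∀ 𝔤 : G, REq N ((𝔤 : Ideal (𝓞 k)) * 𝔥) (π 𝔤) := by
  classical
  have hex : ∀ 𝔤 : G, ∃ 𝔤' ∈ G, REq N ((𝔤 : Ideal (𝓞 k)) * 𝔥) 𝔤' := fun 𝔤 =>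
    hG.ex _ (mul_ne_zero (hG.ne _ 𝔤.2) h0) ((prm_mul_iff _ _).2 ⟨hG.prm _ 𝔤.2, hp⟩)
  choose f hf hf' using hex
  let π : G → G := fun 𝔤 => ⟨f 𝔤, hf 𝔤⟩
  have hinj : Function.Injective π := by
    intro 𝔤 𝔤' h
    have h1 : f 𝔤 = f 𝔤' := congrArg Subtype.val h
    have h2 : REq N ((𝔤 : Ideal (𝓞 k)) * 𝔥) ((𝔤' : Ideal (𝓞 k)) * 𝔥) := by
      have h3 := hf' 𝔤
      rw [h1] at h3
      exact h3.trans (hf' 𝔤').symm
    exact Subtype.ext (hG.inj _ 𝔤.2 _ 𝔤'.2 (h2.cancel h0))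
  exact ⟨Equiv.ofBijective π (Finite.injective_iff_bijective.1 hinj), fun 𝔤 => hf' 𝔤⟩

end Pool.Agent.CMR
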