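import Pool.Agent.CMR.GU
import Pool.Agent.CMR.GGen
import Pool.Agent.CMR.GField
import Pool.Agent.CMR.ZCls

/-!
# G-Y norms of elliptic units to M

`n = 6 N · N(𝔠) · 5` or so (`n ∈ 𝔠`, `6 ∣ n`, `n ≥ 5`). `F, κ, X` from `exists_field`, `u` from `exists_u`. First choose for every `𝔤 ∈ G` an equivalent (mod `N`) ideal `𝔤'` prime to `n` (`exists_REq_prm`);
`UU N 𝔠 𝔤 = UU N 𝔠 𝔤'` (`UU_congr_class`), `art 𝔤 = art 𝔤'` (`art_eq_of_REq`). For `σ` let `Y_σ = ∏_{𝔤 ∈ G, art 𝔤 = σ} u 𝔤' ∈ F`. For `τ ∈ Gal(F/k)` with `𝔥` from `gal_acts`: `τ(u 𝔤') = u(𝔤' 𝔥)`,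
`κ u(𝔤'𝔥) = UU N 𝔠 (𝔤𝔥) = κ u(π(𝔤)')` with the permutation `π` of `G` from `IsCls.perm` (`𝔥` is prime to `N`), and `art(π 𝔤) = art 𝔤 · art 𝔥`. So `τ Y_σ = Y_{σ · art 𝔥}` and
`art 𝔥` is the restriction of `τ` to `M`. So `Y_1` is fixed by `Gal(F/M)` (elements fixing `algebraMap M F`), `F/M` is Galois, so `Y_1 = algebraMap M F y`; for `σ ∈ Gal(M/k)` take an extension `τ` of `σ`
(`AlgEquiv.restrictNormalHom_surjective`): `ι(σ y) = κ(τ Y_1) = κ Y_σ`.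
-/

set_option autoImplicit false

noncomputable section

open NumberField Pool.Agent.StarkRQ
open scoped PeriodPair

namespace Pool.Agent.CMR

/-- the norms of the elliptic units to `M` -/
theorem exists_y {k : Type} [Field k] [NumberField k] [Algebra k ℂ] (hk : IsIQ k) {N : ℕ}
    (hN : 2 ≤ N) {M : Type} [Field M] [NumberField M] [Algebra k M] [IsGalois ℚ M]
    [IsAbelianGalois k M] (ι : M →+* ℂ) (hι : ∀ x : k, ι (algebraMap k M x) = algebraMap k ℂ x)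
    (hmod : IsMod k M N) {G : Finset (Ideal (𝓞 k))} (hG : IsCls N G) {𝔠 : Ideal (𝓞 k)}
    (hc0 : 𝔠 ≠ ⊥) (hc : Prm (6 * N) 𝔠) :
    ∃ y : M, ∀ σ : Gal(M/k), ι (σ y) = ∏ 𝔤 ∈ G, open Classical in
      if (art 𝔤 : Gal(M/k)) = σ then UU N 𝔠 𝔤 else 1 := by
  classical
  have hN0 : N ≠ 0 := by omega
  have hcN0 : Ideal.absNorm 𝔠 ≠ 0 := fun h => hc0 (Ideal.absNorm_eq_zero_iff.1 h)
  have hc' := (prm_mul_left_iff (n := 6) (m := N) 𝔠).1 hc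
  have h6 : (Ideal.absNorm 𝔠).Coprime 6 := (prm_iff 𝔠).1 hc'.1
  have hcN : Prm N 𝔠 := hc'.2
  obtain ⟨n, hn⟩ : ∃ n : ℕ, n = 6 * N * Ideal.absNorm 𝔠 := ⟨_, rfl⟩
  have hn0 : n ≠ 0 := by
    rw [hn]
    exact mul_ne_zero (mul_ne_zero (by norm_num) hN0) hcN0
  have h6n : 6 ∣ n := by
    rw [hn, mul_assoc]
    exact dvd_mul_right _ _
  have hn5 : 5 ≤ n := (by norm_num : 5 ≤ 6).trans (Nat.le_of_dvd (Nat.pos_of_ne_zero hn0) h6n)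
  have hNn : N ∣ n := by
    rw [hn]
    exact (dvd_mul_left N 6).mul_right _
  have hcn : (n : 𝓞 k) ∈ 𝔠 := by
    rw [hn, Nat.cast_mul]
    exact 𝔠.mul_mem_left _ (Ideal.absNorm_mem 𝔠)
  obtain ⟨F, _, _, _, _, _, _, κ, X, hκM, hX⟩ := exists_field hk hn5 ι hι
  have hκ : ∀ x : k, κ (algebraMap k F x) = algebraMap k ℂ x := by
    intro x
    rw [IsScalarTower.algebraMap_apply k M F, hκM, hι]
  obtain ⟨u, hu, hτu⟩ := exists_u hk hn5 hNn hN h6n hc0 h6 hcN hcn κ X hX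
  -- representatives prime to `n`
  have hrep : ∀ 𝔤 : Ideal (𝓞 k), ∃ 𝔤' : Ideal (𝓞 k), 𝔤 ∈ G → 𝔤' ≠ ⊥ ∧ Prm n 𝔤' ∧ REq N 𝔤 𝔤' := by
    intro 𝔤
    by_cases h : 𝔤 ∈ G
    · obtain ⟨𝔟, hb0, hb, hb'⟩ := exists_REq_prm hN0 hn0 (hG.ne 𝔤 h) (hG.prm 𝔤 h)
      exact ⟨𝔟, fun _ => ⟨hb0, ((prm_mul_left_iff 𝔟).1 hb).2, hb'⟩⟩
    · exact ⟨⊥, fun h' => absurd h' h⟩
  choose r hr using hrep
  let Y : Gal(M/k) → F := fun σ => ∏ 𝔤 ∈ G, if (art 𝔤 : Gal(M/k)) = σ then u (r 𝔤) else 1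
  have hY : ∀ σ : Gal(M/k), κ (Y σ) = ∏ 𝔤 ∈ G, if (art 𝔤 : Gal(M/k)) = σ then UU N 𝔠 𝔤 else 1 := by
    intro σ
    rw [map_prod]
    refine Finset.prod_congr rfl fun 𝔤 h𝔤 => ?_
    obtain ⟨h1, h2, h3⟩ := hr 𝔤 h𝔤
    split_ifs with h
    · rw [hu _ h1 h2]
      exact (UU_congr_class hk hN0 hc0 h6 (hG.ne 𝔤 h𝔤) h1 (hG.prm 𝔤 h𝔤) (h2.of_dvd hNn) h3).symm
    · exact map_one κ
  have hact : ∀ (τ : Gal(F/k)) (𝔥 : Ideal (𝓞 k)), 𝔥 ≠ ⊥ → Prm n 𝔥 →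
      (∀ 𝔤 : Ideal (𝓞 k), 𝔤 ≠ ⊥ → Prm n 𝔤 → ∀ a : 𝓞 k, ¬ (n : 𝓞 k) ∣ a →
        τ (X 𝔤 a) = X (𝔤 * 𝔥) a) →
      ∀ σ : Gal(M/k), τ (Y σ) = Y (σ * art 𝔥) := by
    intro τ 𝔥 hh0 hh hτ σ
    apply κ.injective
    rw [hY, map_prod, map_prod]
    obtain ⟨π, hπ⟩ := hG.perm hN0 hh0 (hh.of_dvd hNn)
    have e1 : ∀ 𝔤 : G, κ (τ (if (art (𝔤 : Ideal (𝓞 k)) : Gal(M/k)) = σ then u (r 𝔤) else 1)) =
        if (art ((π 𝔤 : G) : Ideal (𝓞 k)) : Gal(M/k)) = σ * art 𝔥 then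
          UU N 𝔠 ((π 𝔤 : G) : Ideal (𝓞 k)) else 1 := by
      intro 𝔤
      obtain ⟨h1, h2, h3⟩ := hr 𝔤 𝔤.2
      have h4 : (art ((π 𝔤 : G) : Ideal (𝓞 k)) : Gal(M/k)) = art (𝔤 : Ideal (𝓞 k)) * art 𝔥 := by
        rw [← art_mul_of hmod (hG.ne _ 𝔤.2) hh0 (hG.prm _ 𝔤.2) (hh.of_dvd hNn)]
        refine (art_eq_of_REq hmod (mul_ne_zero (hG.ne _ 𝔤.2) hh0) (hG.ne _ (π 𝔤).2)
          ((prm_mul_iff _ _).2 ⟨hG.prm _ 𝔤.2, hh.of_dvd hNn⟩) (hG.prm _ (π 𝔤).2) (hπ 𝔤)).symm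
      have h5 : (art ((π 𝔤 : G) : Ideal (𝓞 k)) : Gal(M/k)) = σ * art 𝔥 ↔
          (art (𝔤 : Ideal (𝓞 k)) : Gal(M/k)) = σ := by
        rw [h4]
        exact mul_left_inj _
      by_cases h : (art (𝔤 : Ideal (𝓞 k)) : Gal(M/k)) = σ
      · rw [if_pos h, if_pos (h5.2 h), hτu τ 𝔥 hh0 hh hτ _ h1 h2]
        have h6' : Prm n (r 𝔤 * 𝔥) := (prm_mul_iff _ _).2 ⟨h2, hh⟩
        have h7 : r 𝔤 * 𝔥 ≠ ⊥ := mul_ne_zero h1 hh0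
        rw [hu _ h7 h6']
        exact UU_congr_class hk hN0 hc0 h6 h7 (hG.ne _ (π 𝔤).2) (h6'.of_dvd hNn)
          (hG.prm _ (π 𝔤).2) ((h3.symm.mul (REq.refl 𝔥)).trans (hπ 𝔤))
      · rw [if_neg h, if_neg (fun h' => h (h5.1 h')), map_one, map_one]
    rw [← Finset.prod_coe_sort G, ← Finset.prod_coe_sort G
      (fun 𝔤 => if (art 𝔤 : Gal(M/k)) = σ * art 𝔥 then UU N 𝔠 𝔤 else 1)]
    rw [Finset.prod_congr rfl fun 𝔤 _ => e1 𝔤]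
    exact Equiv.prod_comp π (fun 𝔤 : G =>
      if (art (𝔤 : Ideal (𝓞 k)) : Gal(M/k)) = σ * art 𝔥 then UU N 𝔠 (𝔤 : Ideal (𝓞 k)) else 1)
  have : IsGalois M F := IsGalois.tower_top_of_isGalois k M F
  have : FiniteDimensional M F := Module.Finite.of_restrictScalars_finite ℚ M F
  have hfix : ∀ τ : Gal(F/M), τ (Y 1) = Y 1 := by
    intro τ
    obtain ⟨𝔥, hh0, hh, h1, h2⟩ := gal_acts hk hn5 hNn hmod κ hκ X hX (τ.restrictScalars k)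
    have h3 : (art 𝔥 : Gal(M/k)) = 1 := by
      ext x
      apply (algebraMap M F).injective
      rw [← h2 x]
      exact τ.commutes x
    have h4 := hact _ 𝔥 hh0 hh h1 1
    rw [h3, mul_one] at h4
    exact h4
  obtain ⟨y, hy⟩ := (IsGalois.mem_range_algebraMap_iff_fixed (F := M) (E := F) (Y 1)).2 hfix
  refine ⟨y, fun σ => ?_⟩
  obtain ⟨τ, hτ⟩ := AlgEquiv.restrictNormalHom_surjective (F := k) (K₁ := M) F σ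
  obtain ⟨𝔥, hh0, hh, h1, h2⟩ := gal_acts hk hn5 hNn hmod κ hκ X hX τ
  have h3 : ∀ x : M, τ (algebraMap M F x) = algebraMap M F (σ x) := by
    intro x
    rw [← hτ]
    exact (AlgEquiv.restrictNormal_commutes τ M x).symm
  have h4 : (art 𝔥 : Gal(M/k)) = σ := by
    ext x
    apply (algebraMap M F).injective
    rw [← h2 x, h3]
  have h5 := hact τ 𝔥 hh0 hh h1 1
  rw [one_mul, h4, ← hy, h3] at h5
  rw [← hκM, h5, hY]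

end Pool.Agent.CMR
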