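import Pool.Agent.CMR.IReps
import Pool.Agent.CMG.AnKron
import Pool.Agent.CMG.EpsG

/-!
# K-EPS Epstein zeta functions of lattices containing a rectangular lattice

`CMG.kron_rect` with `x = Re w`, `y = Im w / r` for `w = z + q` (`w ∉ Lrec`, since `z ∉ L`, so
`(x, y)` is not integral) gives `Z_q` with `∑_{(m,n)} |w + m + n r i|^{-2s}` and derivative
`BB r w` at `0`. `Z = ∑_{q ∈ Q} Z_q`: `L` is the disjoint union of the cosets `q + Lrec`
(`IsReps`), so the sum over `L` is the finite sum. Uniqueness as in `CMG.EpsG` (`eps_deriv`).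
-/

set_option autoImplicit false

noncomputable section

open Filter Topology
open scoped PeriodPair

namespace Pool.Agent.CMR

theorem IsEps.deriv_eq {L : PeriodPair} {z : ℂ} {Z Z' : ℂ → ℂ} (h : IsEps L z Z)
    (h' : IsEps L z Z') :
    deriv Z 0 = deriv Z' 0 := by
  have hopen : IsOpen ({1}ᶜ : Set ℂ) := isOpen_compl_singleton
  have hmem : (0 : ℂ) ∈ ({1}ᶜ : Set ℂ) := by simp
  have hZ : AnalyticOnNhd ℂ Z {1}ᶜ := h.diff.analyticOnNhd hopen
  have hW : AnalyticOnNhd ℂ Z' {1}ᶜ := h'.diff.analyticOnNhd hopen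
  have hconn : IsPreconnected ({1}ᶜ : Set ℂ) :=
    (isConnected_compl_singleton_of_one_lt_rank (by simp) 1).isPreconnected
  have hev : Z =ᶠ[𝓝 (2 : ℂ)] Z' := by
    have ho : IsOpen {s : ℂ | 1 < s.re} := isOpen_lt continuous_const Complex.continuous_re
    filter_upwards [ho.mem_nhds (show (2 : ℂ) ∈ {s : ℂ | 1 < s.re} by simp)] with s hs
    exact (h.sum s hs).unique (h'.sum s hs)
  have hall := hZ.eqOn_of_preconnected_of_eventuallyEq hW hconn
    (show (2 : ℂ) ∈ ({1}ᶜ : Set ℂ) by simp) hev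
  have h0 : Z =ᶠ[𝓝 (0 : ℂ)] Z' := by
    filter_upwards [hopen.mem_nhds hmem] with s hs
    exact hall hs
  exact h0.deriv_eq

private lemma keps_mem {r : ℝ} (hr : 0 < r) {w : ℂ} :
    w ∈ (Lrec r hr).lattice ↔ ∃ m n : ℤ, (m : ℂ) + n * (r * Complex.I) = w := by
  rw [PeriodPair.mem_lattice]
  constructor
  · rintro ⟨m, n, h⟩
    refine ⟨m, n, ?_⟩
    rw [← h]
    show (m : ℂ) + n * (r * Complex.I) = m * (1 : ℂ) + n * (r * Complex.I)
    ring
  · rintro ⟨m, n, h⟩
    refine ⟨m, n, ?_⟩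
    rw [← h]
    show m * (1 : ℂ) + n * (r * Complex.I) = (m : ℂ) + n * (r * Complex.I)
    ring

private lemma keps_norm {r : ℝ} (hr : 0 < r) (w : ℂ) (m n : ℤ) :
    (‖w + ((m : ℂ) + n * (r * Complex.I))‖ ^ 2 : ℝ) =
      (w.re + m) ^ 2 + r ^ 2 * (w.im / r + n) ^ 2 := by
  rw [Complex.sq_norm, Complex.normSq_apply]
  have hr' : r ≠ 0 := hr.ne'
  simp
  field_simp

private lemma keps_ne {r : ℝ} (hr : 0 < r) {w : ℂ} (hw : w ∉ (Lrec r hr).lattice) :
    (w.re : UnitAddCircle) ≠ 0 ∨ ((w.im / r : ℝ) : UnitAddCircle) ≠ 0 := by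
  by_contra hcon
  push Not at hcon
  obtain ⟨h1, h2⟩ := hcon
  rw [AddCircle.coe_eq_zero_iff] at h1 h2
  obtain ⟨m, hm⟩ := h1
  obtain ⟨n, hn⟩ := h2
  apply hw
  rw [keps_mem]
  refine ⟨m, n, ?_⟩
  have hr' : r ≠ 0 := hr.ne'
  apply Complex.ext
  · simp at hm ⊢
    exact hm
  · simp at hn ⊢
    rw [hn]
    field_simp

/-- existence and derivative at `0` of the Epstein zeta function of a lattice containing a
rectangular lattice -/
theorem exists_eps {r : ℝ} (hr : 0 < r) {L : PeriodPair} {Q : Finset ℂ}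
    (hQ : IsReps (Lrec r hr) L Q)
    {z : ℂ} (hz : z ∉ L.lattice) :
    ∃ Z : ℂ → ℂ, IsEps L z Z ∧ deriv Z 0 = ((∑ q ∈ Q, CMG.BB r (z + q) : ℝ) : ℂ) := by
  classical
  have hr' : r ≠ 0 := hr.ne'
  have hq : ∀ q ∈ Q, ∃ Z : ℂ → ℂ, CMG.IsRect r (z + q).re ((z + q).im / r) Z ∧
      deriv Z 0 = (CMG.BB r (z + q) : ℝ) := by
    intro q hqQ
    have hw : z + q ∉ (Lrec r hr).lattice := fun h =>
      hz (by simpa using L.lattice.sub_mem (hQ.le h) (hQ.mem q hqQ))
    obtain ⟨Z, hZ, hd⟩ := CMG.kron_rect hr (keps_ne hr hw)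
    refine ⟨Z, hZ, ?_⟩
    rw [hd]
    congr 2
    apply Complex.ext
    · simp
    · simp
      field_simp
  choose! Zq hZq hdq using hq
  refine ⟨fun s => ∑ q ∈ Q, Zq q s, ⟨?_, ?_, ?_⟩, ?_⟩
  · exact DifferentiableOn.fun_sum fun q hqQ => (hZq q hqQ).diff
  · intro s hs
    set F : L.lattice → ℂ := fun l => ((‖z + (l : ℂ)‖ ^ 2 : ℝ) : ℂ) ^ (-s) with hF
    have h1 : ∀ q ∈ Q, HasSum (fun l : L.lattice =>
        if (l : ℂ) - q ∈ (Lrec r hr).lattice then F l else 0) (Zq q s) := by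
      intro q hqQ
      have hmem : ∀ p : ℤ × ℤ, q + ((p.1 : ℂ) + p.2 * (r * Complex.I)) ∈ L.lattice := fun p =>
        L.lattice.add_mem (hQ.mem q hqQ) (hQ.le ((keps_mem hr).2 ⟨p.1, p.2, rfl⟩))
      set g : ℤ × ℤ → L.lattice := fun p => ⟨q + ((p.1 : ℂ) + p.2 * (r * Complex.I)), hmem p⟩
        with hg
      have hginj : Function.Injective g := by
        intro p p' h
        have h2 : q + ((p.1 : ℂ) + p.2 * (r * Complex.I)) =
            q + ((p'.1 : ℂ) + p'.2 * (r * Complex.I)) := congrArg Subtype.val h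
        have h3 := add_left_cancel h2
        have h4 := congrArg Complex.re h3
        have h5 := congrArg Complex.im h3
        simp [hr'] at h4 h5
        exact Prod.ext (by exact_mod_cast h4) (by exact_mod_cast h5)
      rw [← hginj.hasSum_iff]
      · have h6 := (hZq q hqQ).sum s hs
        have h7 : (fun l : L.lattice =>
            if (l : ℂ) - q ∈ (Lrec r hr).lattice then F l else 0) ∘ g =
            fun p : ℤ × ℤ => ((((z + q).re + p.1) ^ 2 +
              r ^ 2 * ((z + q).im / r + p.2) ^ 2 : ℝ) : ℂ) ^ (-s) := by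
          funext p
          rw [Function.comp_apply, if_pos]
          · rw [hF]
            show ((‖z + (q + ((p.1 : ℂ) + p.2 * (r * Complex.I)))‖ ^ 2 : ℝ) : ℂ) ^ (-s) = _
            rw [← add_assoc, keps_norm hr]
          · show q + ((p.1 : ℂ) + p.2 * (r * Complex.I)) - q ∈ _
            rw [add_sub_cancel_left]
            exact (keps_mem hr).2 ⟨p.1, p.2, rfl⟩
        rw [h7]
        exact h6
      · intro l hl
        rw [if_neg]
        intro h8
        apply hl
        obtain ⟨m, n, hmn⟩ := (keps_mem hr).1 h8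
        refine ⟨(m, n), Subtype.ext ?_⟩
        show q + ((m : ℂ) + n * (r * Complex.I)) = (l : ℂ)
        rw [hmn]
        ring
    have h2 := hasSum_sum h1
    have h3 : (fun l : L.lattice => ∑ q ∈ Q,
        if (l : ℂ) - q ∈ (Lrec r hr).lattice then F l else 0) = F := by
      funext l
      obtain ⟨t, ht, htl⟩ := hQ.ex l l.2
      rw [Finset.sum_eq_single t, if_pos htl]
      · intro q hqQ hqt
        rw [if_neg]
        intro h4
        apply hqt
        apply hQ.inj q hqQ t ht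
        have h5 := (Lrec r hr).lattice.sub_mem htl h4
        have h6 : (l : ℂ) - t - ((l : ℂ) - q) = q - t := by ring
        rwa [h6] at h5
      · exact fun h => absurd ht h
    rw [h3] at h2
    exact h2
  · exact Finset.sum_eq_zero fun q hqQ => (hZq q hqQ).zero
  · have hmem : ({1}ᶜ : Set ℂ) ∈ 𝓝 (0 : ℂ) := isOpen_compl_singleton.mem_nhds (by simp)
    rw [deriv_fun_sum fun q hqQ => (hZq q hqQ).diff.differentiableAt hmem]
    rw [Finset.sum_congr rfl fun q hqQ => hdq q hqQ]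
    push_cast
    rfl

end Pool.Agent.CMR
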