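import Pool.Agent.CMR.ICoc

/-!
# I-AA the constants AA and the functions Psi: cocycle and homogeneity

`AA_eq`: `isTors_torT`, `IsTors.prod_eq`, `DD_add`. `AA_ne_zero`: the points of `T` are not in `L'` (`IsTors.of_le`), `DD_ne_zero`.
`AA_cocycle`: with `T = torT m L` (also a system for `L₁` and `L₂` by `of_le`, since `idx L L₁` and `idx L₁ L₂` divide `idx L L₂`):
`∏_{t ∈ T} DD L L₂ t = (∏ DD L L₁ t)^{n₂} ∏ DD L₁ L₂ t` by `DD_cocycle`, and `m^{n₁ n₂ - 1} = (m^{n₁ - 1})^{n₂} m^{n₂ - 1}`.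
`Psi_cocycle` follows. `Psi_homothety`: `DD_homothety`; if `T` is a system for `L` then `c T` is one for `M`; the powers of `c`: with
`k = idx - 1`: `AA m` is multiplied by `c^{-k (m² - 1)}` (`IsTors.card`), total exponent `-(3·3 k - 8 k - k) = 0`.
-/

set_option autoImplicit false

noncomputable section

open Filter Topology
open scoped PeriodPair

namespace Pool.Agent.CMR

theorem AA_eq {m : ℕ} (hm : 0 < m) {L L' : PeriodPair} {T : Finset ℂ} (hT : IsTors m L T) :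
    AA m L L' = (m : ℂ) ^ (idx L L' - 1) * ∏ t ∈ T, DD L L' t := by
  unfold AA
  rw [(isTors_torT hm L).prod_eq hT (f := DD L L') fun z l hl => DD_add z hl]

theorem AA_ne_zero {m : ℕ} (hm : 0 < m) {L L' : PeriodPair} (h : L.lattice ≤ L'.lattice)
    (hc : (idx L L').Coprime m) : AA m L L' ≠ 0 := by
  unfold AA
  have hm0 : (m : ℂ) ≠ 0 := Nat.cast_ne_zero.2 hm.ne'
  refine mul_ne_zero (pow_ne_zero _ hm0) (Finset.prod_ne_zero_iff.2 fun t ht => ?_)
  exact DD_ne_zero h (((isTors_torT hm L).of_le h hc).notMem t ht)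

theorem AA_cocycle {m : ℕ} (hm : 0 < m) {L L₁ L₂ : PeriodPair} (h : L.lattice ≤ L₁.lattice)
    (h₁ : L₁.lattice ≤ L₂.lattice) (ho : Odd (idx L L₂)) (hc : (idx L L₂).Coprime m) :
    AA m L L₂ = AA m L L₁ ^ idx L₁ L₂ * AA m L₁ L₂ := by
  have hmul := idx_mul h h₁
  have hT := isTors_torT hm L
  have hc₁ : (idx L L₁).Coprime m := Nat.Coprime.coprime_dvd_left ⟨_, hmul⟩ hc
  have hT₁ := hT.of_le h hc₁
  have hT₂ := hT.of_le (h.trans h₁) hc
  have hp₁ := idx_pos h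
  have hp₂ := idx_pos h₁
  rw [AA_eq hm hT, AA_eq hm (L := L) (L' := L₁) hT, AA_eq hm (L := L₁) (L' := L₂) hT₁]
  have e1 : ∏ t ∈ torT m L, DD L L₂ t =
      (∏ t ∈ torT m L, DD L L₁ t) ^ idx L₁ L₂ * ∏ t ∈ torT m L, DD L₁ L₂ t := by
    rw [← Finset.prod_pow, ← Finset.prod_mul_distrib]
    exact Finset.prod_congr rfl fun t ht => DD_cocycle h h₁ ho (hT₂.notMem t ht)
  have e2 : idx L L₂ - 1 = (idx L L₁ - 1) * idx L₁ L₂ + (idx L₁ L₂ - 1) := by
    obtain ⟨a, ha⟩ : ∃ a, idx L L₁ = a + 1 := ⟨idx L L₁ - 1, by omega⟩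
    obtain ⟨b, hb⟩ : ∃ b, idx L₁ L₂ = b + 1 := ⟨idx L₁ L₂ - 1, by omega⟩
    rw [hmul, ha, hb, Nat.add_sub_cancel, Nat.add_sub_cancel,
      show (a + 1) * (b + 1) = a * (b + 1) + b + 1 by ring, Nat.add_sub_cancel]
  rw [e1, e2, pow_add, pow_mul, mul_pow]
  ring

private theorem cop_two {n : ℕ} (h : n.Coprime 6) : n.Coprime 2 :=
  Nat.Coprime.coprime_dvd_right (by norm_num) h

private theorem cop_three {n : ℕ} (h : n.Coprime 6) : n.Coprime 3 :=
  Nat.Coprime.coprime_dvd_right (by norm_num) h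

private theorem odd_of_cop {n : ℕ} (h : n.Coprime 6) : Odd n :=
  Nat.coprime_two_right.1 (cop_two h)

theorem Psi_ne_zero {L L' : PeriodPair} (h : L.lattice ≤ L'.lattice)
    (hc : (idx L L').Coprime 6) {z : ℂ} (hz : z ∉ L'.lattice) : Psi L L' z ≠ 0 := by
  unfold Psi
  exact div_ne_zero (pow_ne_zero _ (AA_ne_zero (by norm_num) h (cop_two hc)))
    (mul_ne_zero (AA_ne_zero (by norm_num) h (cop_three hc)) (DD_ne_zero h hz))

theorem Psi_cocycle {L L₁ L₂ : PeriodPair} (h : L.lattice ≤ L₁.lattice)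
    (h₁ : L₁.lattice ≤ L₂.lattice) (hc : (idx L L₂).Coprime 6) {z : ℂ} (hz : z ∉ L₂.lattice) :
    Psi L L₂ z = Psi L L₁ z ^ idx L₁ L₂ * Psi L₁ L₂ z := by
  have ho := odd_of_cop hc
  unfold Psi
  rw [AA_cocycle (by norm_num) h h₁ ho (cop_two hc), AA_cocycle (by norm_num) h h₁ ho
    (cop_three hc), DD_cocycle h h₁ ho hz, div_pow, div_mul_div_comm]
  congr 1 <;> ring

theorem Psi_add {L L' : PeriodPair} (z : ℂ) {l : ℂ} (hl : l ∈ L.lattice) :
    Psi L L' (z + l) = Psi L L' z := by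
  unfold Psi
  rw [DD_add z hl]

private theorem isTors_image {m : ℕ} {L M : PeriodPair} {c : ℂ} (hc : c ≠ 0)
    (h : ∀ z, c * z ∈ M.lattice ↔ z ∈ L.lattice) {T : Finset ℂ} (hT : IsTors m L T) :
    open Classical in IsTors m M (T.image (c * ·)) := by
  classical
  refine ⟨?_, ?_, ?_, ?_⟩
  · intro t ht
    obtain ⟨s, hs, rfl⟩ := Finset.mem_image.1 ht
    rw [mul_left_comm, h]
    exact hT.mem s hs
  · intro t ht
    obtain ⟨s, hs, rfl⟩ := Finset.mem_image.1 ht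
    rw [h]
    exact hT.notMem s hs
  · intro z hz hz'
    have e : c * (z / c) = z := mul_div_cancel₀ _ hc
    obtain ⟨t, ht, ht'⟩ := hT.ex (z / c)
      (by rw [← h, mul_left_comm, e]; exact hz) (by rw [← h, e]; exact hz')
    refine ⟨c * t, Finset.mem_image.2 ⟨t, ht, rfl⟩, ?_⟩
    rw [← h, mul_sub, e] at ht'
    exact ht'
  · intro s hs t ht hst
    obtain ⟨s', hs', rfl⟩ := Finset.mem_image.1 hs
    obtain ⟨t', ht', rfl⟩ := Finset.mem_image.1 ht
    rw [← mul_sub, h] at hst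
    rw [hT.inj s' hs' t' ht' hst]

private theorem AA_homothety {m : ℕ} (hm : 0 < m) {L L' M M' : PeriodPair} {c : ℂ} (hc : c ≠ 0)
    (h : ∀ z, c * z ∈ M.lattice ↔ z ∈ L.lattice) (h' : ∀ z, c * z ∈ M'.lattice ↔ z ∈ L'.lattice)
    (hle : L.lattice ≤ L'.lattice) (ho : Odd (idx L L')) :
    AA m M M' = AA m L L' / (c ^ (idx L L' - 1)) ^ (m ^ 2 - 1) := by
  classical
  have hT := isTors_torT hm L
  rw [AA_eq hm (isTors_image hc h hT), AA_eq hm hT, idx_congr hc h h',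
    Finset.prod_image fun x _ y _ e => mul_left_cancel₀ hc e,
    Finset.prod_congr rfl fun t _ => DD_homothety hc h h' hle ho t, Finset.prod_div_distrib,
    Finset.prod_const, hT.card hm, mul_div_assoc]

/-- `Psi` is homogeneous of degree `0`; in particular it depends only on the lattices (`c = 1`) -/
theorem Psi_homothety {L L' M M' : PeriodPair} {c : ℂ} (hc : c ≠ 0)
    (h : ∀ z, c * z ∈ M.lattice ↔ z ∈ L.lattice) (h' : ∀ z, c * z ∈ M'.lattice ↔ z ∈ L'.lattice)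
    (hle : L.lattice ≤ L'.lattice) (hi : (idx L L').Coprime 6) (z : ℂ) :
    Psi M M' (c * z) = Psi L L' z := by
  have ho := odd_of_cop hi
  unfold Psi
  rw [AA_homothety (by norm_num) hc h h' hle ho, AA_homothety (by norm_num) hc h h' hle ho,
    DD_homothety hc h h' hle ho]
  generalize idx L L' - 1 = k
  have hk : c ^ k ≠ 0 := pow_ne_zero _ hc
  generalize c ^ k = x at hk
  norm_num
  rw [div_pow, div_mul_div_comm, ← pow_mul, ← pow_succ, div_div_div_cancel_right₀ (pow_ne_zero _ hk)]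

end Pool.Agent.CMR
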