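import Pool.Agent.CMR.KEps

/-!
# K-DIST distribution relation for Epstein zeta functions at 0

For `Re s > 1`: `∑_{t ∈ T ∪ 0} ∑_{l ∈ L} |z + t + l|^{-2s} = ∑_{l ∈ (1/m) L} |z + l|^{-2s} = m^{2s} ∑_{l ∈ L} |m z + l|^{-2s}` (the map
`(t, l) ↦ m (t + l)` is a bijection from `(T ∪ 0) × L` to `L`, by `IsTors`). So `∑_t Z t` and `s ↦ m^{2s} W s` agree for `Re s > 1`,
hence on `{1}ᶜ` (as in `CMG.EpsG`), and the derivative at `0` of `m^{2s} W s` is `W'(0)` since `W 0 = 0`. (`0 ∉ T`.)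
-/

set_option autoImplicit false

noncomputable section

open Filter Topology
open scoped PeriodPair

namespace Pool.Agent.CMR

/-- a sum over finitely many copies of an index type -/
theorem hasSum_finset_prod {ι β : Type*} {S : Finset ι} {f : S × β → ℂ} {a : S → ℂ}
    (h : ∀ i, HasSum (fun b => f (i, b)) (a i)) : HasSum f (∑ i, a i) := by
  classical
  have h1 : ∀ i : S, HasSum (fun p : S × β => if p.1 = i then f p else 0) (a i) := by
    intro i
    have hinj : Function.Injective (fun b : β => (i, b)) := fun b c hbc => by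
      simpa using hbc
    rw [← hinj.hasSum_iff]
    · have : ((fun p : S × β => if p.1 = i then f p else 0) ∘ fun b : β => (i, b)) =
          fun b => f (i, b) := by
        funext b
        simp
      rw [this]
      exact h i
    · rintro ⟨j, b⟩ hj
      have : j ≠ i := by
        rintro rfl
        exact hj ⟨b, rfl⟩
      simp [this]
  have h2 := hasSum_sum (s := Finset.univ) fun i _ => h1 i
  have h3 : (fun p : S × β => ∑ i : S, if p.1 = i then f p else 0) = f := by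
    funext p
    simp
  rwa [h3] at h2

/-- the bijection `(t, l) ↦ m (t + l)` -/
def torsMap {m : ℕ} {L : PeriodPair} {T : Finset ℂ} (hT : IsTors m L T)
    (p : (insert (0 : ℂ) T : Finset ℂ) × L.lattice) : L.lattice :=
  ⟨(m : ℂ) * (p.1 + p.2), by
    rw [mul_add]
    refine add_mem ?_ ?_
    · rcases Finset.mem_insert.mp p.1.2 with h | h
      · rw [h, mul_zero]
        exact zero_mem _
      · exact hT.mem _ h
    · have := nsmul_mem p.2.2 m
      rwa [nsmul_eq_mul] at this⟩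

theorem torsMap_bij {m : ℕ} (hm : 0 < m) {L : PeriodPair} {T : Finset ℂ} (hT : IsTors m L T) :
    Function.Bijective (torsMap hT) := by
  have hm0 : (m : ℂ) ≠ 0 := by exact_mod_cast hm.ne'
  constructor
  · rintro ⟨⟨t, ht⟩, ⟨l, hl⟩⟩ ⟨⟨t', ht'⟩, ⟨l', hl'⟩⟩ h
    have h1 : (m : ℂ) * (t + l) = (m : ℂ) * (t' + l') := congrArg Subtype.val h
    have h2 : t + l = t' + l' := mul_left_cancel₀ hm0 h1
    have h3 : t - t' ∈ L.lattice := by
      have : t - t' = l' - l := by linear_combination h2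
      rw [this]
      exact sub_mem hl' hl
    have h4 : t = t' := by
      rcases Finset.mem_insert.mp ht with e | e <;> rcases Finset.mem_insert.mp ht' with e' | e'
      · rw [e, e']
      · rw [e, zero_sub, neg_mem_iff] at h3
        exact absurd h3 (hT.notMem _ e')
      · rw [e', sub_zero] at h3
        exact absurd h3 (hT.notMem _ e)
      · exact hT.inj _ e _ e' h3
    subst h4
    have h5 : l = l' := by linear_combination h2
    subst h5
    rfl
  · rintro ⟨l, hl⟩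
    have h1 : (m : ℂ) * (l / m) = l := by field_simp
    by_cases h : l / m ∈ L.lattice
    · refine ⟨(⟨0, Finset.mem_insert_self _ _⟩, ⟨l / m, h⟩), Subtype.ext ?_⟩
      change (m : ℂ) * (0 + l / m) = l
      rw [zero_add, h1]
    · obtain ⟨t, ht, ht'⟩ := hT.ex (l / m) (by rw [h1]; exact hl) h
      refine ⟨(⟨t, Finset.mem_insert_of_mem ht⟩, ⟨l / m - t, ht'⟩), Subtype.ext ?_⟩
      change (m : ℂ) * (t + (l / m - t)) = l
      rw [add_sub_cancel, h1]

/-- the relation for `Re s > 1` -/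
theorem eps_distr_sum {m : ℕ} (hm : 0 < m) {L : PeriodPair} {T : Finset ℂ} (hT : IsTors m L T)
    {z : ℂ} {Z : ℂ → ℂ → ℂ} {W : ℂ → ℂ}
    (hZ : ∀ t ∈ insert (0 : ℂ) T, IsEps L (z + t) (Z t)) (hW : IsEps L (m * z) W) {s : ℂ}
    (hs : 1 < s.re) :
    ∑ t ∈ insert (0 : ℂ) T, Z t s = (((m : ℝ) ^ 2 : ℝ) : ℂ) ^ s * W s := by
  have hm0 : (((m : ℝ) ^ 2 : ℝ) : ℂ) ≠ 0 := by
    have : ((m : ℝ) ^ 2 : ℝ) ≠ 0 := by positivity
    exact_mod_cast this
  have h1 : HasSum (fun p : (insert (0 : ℂ) T : Finset ℂ) × L.lattice =>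
      ((‖(m : ℂ) * z + (torsMap hT p : ℂ)‖ ^ 2 : ℝ) : ℂ) ^ (-s))
      (∑ t : (insert (0 : ℂ) T : Finset ℂ), (((m : ℝ) ^ 2 : ℝ) : ℂ) ^ (-s) * Z t s) := by
    refine hasSum_finset_prod fun t => ?_
    have h2 := ((hZ t t.2).sum s hs).mul_left ((((m : ℝ) ^ 2 : ℝ) : ℂ) ^ (-s))
    refine h2.congr_fun ?_
    intro l
    change ((‖(m : ℂ) * z + (m : ℂ) * (t + l)‖ ^ 2 : ℝ) : ℂ) ^ (-s) = _
    rw [← mul_add, norm_mul, mul_pow, Complex.norm_natCast, Complex.ofReal_mul,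
      Complex.mul_cpow_ofReal_nonneg (by positivity) (by positivity), ← add_assoc]
  have h2 : HasSum (fun p : (insert (0 : ℂ) T : Finset ℂ) × L.lattice =>
      ((‖(m : ℂ) * z + (torsMap hT p : ℂ)‖ ^ 2 : ℝ) : ℂ) ^ (-s)) (W s) :=
    (Equiv.ofBijective _ (torsMap_bij hm hT)).hasSum_iff.mpr (hW.sum s hs)
  rw [h2.unique h1, ← Finset.mul_sum, ← mul_assoc, ← Complex.cpow_add _ _ hm0, add_neg_cancel,
    Complex.cpow_zero, one_mul]
  exact (Finset.sum_coe_sort (insert (0 : ℂ) T) fun t => Z t s).symm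

/-- distribution relation at `s = 0` -/
theorem eps_distr {m : ℕ} (hm : 0 < m) {L : PeriodPair} {T : Finset ℂ} (hT : IsTors m L T) {z : ℂ}
    {Z : ℂ → ℂ → ℂ} {W : ℂ → ℂ} (hZ : ∀ t ∈ insert (0 : ℂ) T, IsEps L (z + t) (Z t))
    (hW : IsEps L (m * z) W) :
    ∑ t ∈ insert (0 : ℂ) T, deriv (Z t) 0 = deriv W 0 := by
  have hopen : IsOpen ({1}ᶜ : Set ℂ) := isOpen_compl_singleton
  have hmem : (0 : ℂ) ∈ ({1}ᶜ : Set ℂ) := by simp
  have hm0 : (((m : ℝ) ^ 2 : ℝ) : ℂ) ≠ 0 := by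
    have : ((m : ℝ) ^ 2 : ℝ) ≠ 0 := by positivity
    exact_mod_cast this
  have hg : Differentiable ℂ fun s : ℂ => (((m : ℝ) ^ 2 : ℝ) : ℂ) ^ s :=
    fun s => DifferentiableAt.const_cpow differentiableAt_id (Or.inl hm0)
  have hA : AnalyticOnNhd ℂ (fun s => ∑ t ∈ insert (0 : ℂ) T, Z t s) {1}ᶜ := by
    refine DifferentiableOn.analyticOnNhd ?_ hopen
    exact DifferentiableOn.fun_sum fun t ht => (hZ t ht).diff
  have hB : AnalyticOnNhd ℂ (fun s => (((m : ℝ) ^ 2 : ℝ) : ℂ) ^ s * W s) {1}ᶜ :=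
    DifferentiableOn.analyticOnNhd (hg.differentiableOn.mul hW.diff) hopen
  have hconn : IsPreconnected ({1}ᶜ : Set ℂ) :=
    (isConnected_compl_singleton_of_one_lt_rank (by simp) 1).isPreconnected
  have hev : (fun s => ∑ t ∈ insert (0 : ℂ) T, Z t s) =ᶠ[𝓝 (2 : ℂ)]
      fun s => (((m : ℝ) ^ 2 : ℝ) : ℂ) ^ s * W s := by
    have ho : IsOpen {s : ℂ | 1 < s.re} := isOpen_lt continuous_const Complex.continuous_re
    filter_upwards [ho.mem_nhds (show (2 : ℂ) ∈ {s : ℂ | 1 < s.re} by simp)] with s hs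
    exact eps_distr_sum hm hT hZ hW hs
  have hall := hA.eqOn_of_preconnected_of_eventuallyEq hB hconn
    (show (2 : ℂ) ∈ ({1}ᶜ : Set ℂ) by simp) hev
  have h0 : (fun s => ∑ t ∈ insert (0 : ℂ) T, Z t s) =ᶠ[𝓝 (0 : ℂ)]
      fun s => (((m : ℝ) ^ 2 : ℝ) : ℂ) ^ s * W s := by
    filter_upwards [hopen.mem_nhds hmem] with s hs
    exact hall hs
  have hd := h0.deriv_eq
  have hZd : ∀ t ∈ insert (0 : ℂ) T, DifferentiableAt ℂ (Z t) 0 := fun t ht =>
    (hZ t ht).diff.differentiableAt (hopen.mem_nhds hmem)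
  have hWd : DifferentiableAt ℂ W 0 := hW.diff.differentiableAt (hopen.mem_nhds hmem)
  rw [deriv_fun_sum hZd, deriv_fun_mul (hg 0) hWd, hW.zero, mul_zero, zero_add, Complex.cpow_zero,
    one_mul] at hd
  exact hd

end Pool.Agent.CMR
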