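import Pool.Agent.CMR.KHarm
import Pool.Agent.CMR.KDist
import Pool.Agent.CMR.IAA

/-!
# K-FIN Kronecker limit formula

`n = idx L L'`, `Q`, `Q'` from `exists_reps`; `g(z) = n ∑_Q BB(z+q) - ∑_{Q'} BB(z+q)` is `n Z'(0) - Z''(0)` by `exists_eps` and `deriv_eq`, and
`g(z) - 2 log |DD(z)| = C` off `L'` (`kron_const`). For `m = 2, 3` (prime to `n`), `T = torT m L` (a system also for `L'`): for `z` with `m z ∉ L'`:
`∑_{t ∈ T ∪ 0} g(z+t) = g(m z)` (`eps_distr` for `L` and for `L'`; real parts), so `m² C + 2 ∑_{t ∈ T ∪ 0} log|DD(z+t)| = C + 2 log |DD(m z)|`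
(`card T = m² - 1`). Let `z → 0`, `z ≠ 0`: `|DD(m z)/DD(z)| → m^{-(n-1)}` (`DD_tendsto`), `DD(z+t) → DD(t)`, so
`(m² - 1) C = -2 log(m^{n-1} ∏_{t ∈ T} |DD t|) = -2 log |AA m|`. Hence `C = 3 · 3 C - 8 C = -2 log |AA 2³ / AA 3|` and
`g(z) = 2 log|DD z| + C = -2 log |Psi L L' z|`.
-/

set_option autoImplicit false

noncomputable section

open Filter Topology
open scoped PeriodPair

namespace Pool.Agent.CMR

private theorem kf_notMem {m : ℕ} {L L' : PeriodPair} (h : L.lattice ≤ L'.lattice)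
    {T : Finset ℂ} (hT : IsTors m L T) {z : ℂ} (hz : (m : ℂ) * z ∉ L'.lattice) {t : ℂ}
    (ht : t ∈ insert (0 : ℂ) T) : z + t ∉ L'.lattice := by
  intro h1
  apply hz
  have h2 : (m : ℂ) * t ∈ L'.lattice := by
    rcases Finset.mem_insert.1 ht with rfl | ht
    · rw [mul_zero]
      exact Submodule.zero_mem _
    · exact h (hT.mem t ht)
  have h3 : (m : ℂ) * (z + t) ∈ L'.lattice := by
    have h4 := L'.lattice.smul_mem (m : ℤ) h1
    rw [zsmul_eq_mul] at h4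
    exact_mod_cast h4
  have h4 := Submodule.sub_mem _ h3 h2
  have h5 : (m : ℂ) * (z + t) - m * t = m * z := by ring
  rwa [h5] at h4

private theorem kf_sum {r : ℝ} (hr : 0 < r) {L : PeriodPair} {Q : Finset ℂ}
    (hQ : IsReps (Lrec r hr) L Q) {m : ℕ} (hm : 0 < m) {T : Finset ℂ} (hT : IsTors m L T)
    {z : ℂ} (hz : (m : ℂ) * z ∉ L.lattice) :
    ∑ t ∈ insert (0 : ℂ) T, ∑ q ∈ Q, CMG.BB r (z + t + q) = ∑ q ∈ Q, CMG.BB r (m * z + q) := by
  have h1 : ∀ t ∈ insert (0 : ℂ) T, z + t ∉ L.lattice := fun t ht => kf_notMem le_rfl hT hz ht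
  have h2 : ∀ t : ℂ, ∃ Z : ℂ → ℂ, t ∈ insert (0 : ℂ) T → IsEps L (z + t) Z ∧
      deriv Z 0 = ((∑ q ∈ Q, CMG.BB r (z + t + q) : ℝ) : ℂ) := by
    intro t
    by_cases ht : t ∈ insert (0 : ℂ) T
    · obtain ⟨Z, hZ⟩ := exists_eps hr hQ (h1 t ht)
      exact ⟨Z, fun _ => hZ⟩
    · exact ⟨0, fun h => absurd h ht⟩
  choose Z hZ using h2
  obtain ⟨W, hW, hW'⟩ := exists_eps hr hQ hz
  have h3 := eps_distr hm hT (z := z) (Z := Z) (W := W) (fun t ht => (hZ t ht).1) hW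
  rw [hW', Finset.sum_congr rfl fun t ht => (hZ t ht).2] at h3
  rw [← Complex.ofReal_sum] at h3
  exact Complex.ofReal_injective h3

private theorem kf_const {m : ℕ} (hm : 1 < m) {L L' : PeriodPair} (h : L.lattice ≤ L'.lattice)
    (ho : Odd (idx L L')) (hcm : (idx L L').Coprime m) {C : ℝ}
    (hC : ∀ z : ℂ, (m : ℂ) * z ∉ L'.lattice →
      ∑ t ∈ insert (0 : ℂ) (torT m L), (C + 2 * Real.log ‖DD L L' (z + t)‖) =
        C + 2 * Real.log ‖DD L L' (m * z)‖) :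
    ((m : ℝ) ^ 2 - 1) * C = -2 * Real.log ‖AA m L L'‖ := by
  have hm0 : 0 < m := by omega
  have hmC : (m : ℂ) ≠ 0 := by exact_mod_cast hm0.ne'
  have hmR : (m : ℝ) ≠ 0 := by exact_mod_cast hm0.ne'
  have hT := isTors_torT hm0 L
  have hT' := hT.of_le h hcm
  have h0T : (0 : ℂ) ∉ torT m L := fun h0 => hT.notMem 0 h0 (Submodule.zero_mem _)
  have hcard : (torT m L).card = m ^ 2 - 1 := hT.card hm0
  have hDt : ∀ t ∈ torT m L, DD L L' t ≠ 0 := fun t ht => DD_ne_zero h (hT'.notMem t ht)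
  -- the identity off a discrete set
  have h1 : ∀ z : ℂ, (m : ℂ) * z ∉ L'.lattice → ((m : ℝ) ^ 2 - 1) * C =
      2 * Real.log ‖DD L L' (m * z) / DD L L' z‖ -
        2 * ∑ t ∈ torT m L, Real.log ‖DD L L' (z + t)‖ := by
    intro z hz
    have h2 := hC z hz
    have hz' : z ∉ L'.lattice := by
      have := kf_notMem h hT hz (Finset.mem_insert_self (0 : ℂ) _)
      rwa [add_zero] at this
    rw [Finset.sum_insert h0T, add_zero, Finset.sum_add_distrib, Finset.sum_const, hcard,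
      nsmul_eq_mul, ← Finset.mul_sum] at h2
    rw [norm_div, Real.log_div (norm_ne_zero_iff.2 (DD_ne_zero h hz))
      (norm_ne_zero_iff.2 (DD_ne_zero h hz'))]
    have h3 : ((m ^ 2 - 1 : ℕ) : ℝ) = (m : ℝ) ^ 2 - 1 := by
      rw [Nat.cast_sub (by nlinarith)]
      push_cast
      ring
    rw [h3] at h2
    linarith
  -- the limits
  have hlim : Tendsto (fun z : ℂ => DD L L' (m * z) / DD L L' z) (𝓝[≠] 0)
      (𝓝 ((m : ℂ) ^ (idx L L' - 1))⁻¹) := by
    have h2 := DD_tendsto h ho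
    have h3 : Tendsto (fun z : ℂ => (m : ℂ) * z) (𝓝[≠] 0) (𝓝[≠] 0) := by
      refine tendsto_nhdsWithin_iff.2 ⟨?_, ?_⟩
      · have : Tendsto (fun z : ℂ => (m : ℂ) * z) (𝓝 0) (𝓝 ((m : ℂ) * 0)) :=
          (continuous_const.mul continuous_id).tendsto 0
        rw [mul_zero] at this
        exact this.mono_left nhdsWithin_le_nhds
      · filter_upwards [self_mem_nhdsWithin] with z hz
        exact mul_ne_zero hmC hz
    have h4 := (h2.comp h3).div h2 one_ne_zero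
    have h5 := h4.const_mul ((m : ℂ) ^ (idx L L' - 1))⁻¹
    rw [div_one, mul_one] at h5
    refine h5.congr' ?_
    filter_upwards [self_mem_nhdsWithin] with z hz
    have hz0 : z ≠ 0 := hz
    have hz1 : z ^ (idx L L' - 1) ≠ 0 := pow_ne_zero _ hz0
    have hm1 : (m : ℂ) ^ (idx L L' - 1) ≠ 0 := pow_ne_zero _ hmC
    change ((m : ℂ) ^ (idx L L' - 1))⁻¹ * (DD L L' (m * z) * (m * z) ^ (idx L L' - 1) /
      (DD L L' z * z ^ (idx L L' - 1))) = _
    rw [mul_pow, ← mul_assoc (DD L L' (m * z)), mul_div_mul_right _ _ hz1,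
      mul_comm (DD L L' (m * z)), mul_div_assoc, inv_mul_cancel_left₀ hm1]
  have hlim1 : Tendsto (fun z : ℂ => 2 * Real.log ‖DD L L' (m * z) / DD L L' z‖ -
      2 * ∑ t ∈ torT m L, Real.log ‖DD L L' (z + t)‖) (𝓝[≠] 0)
      (𝓝 (2 * Real.log ‖((m : ℂ) ^ (idx L L' - 1))⁻¹‖ -
        2 * ∑ t ∈ torT m L, Real.log ‖DD L L' t‖)) := by
    refine (Tendsto.const_mul 2 ?_).sub (Tendsto.const_mul 2 ?_)
    · refine Tendsto.log hlim.norm ?_
      rw [norm_ne_zero_iff]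
      exact inv_ne_zero (pow_ne_zero _ hmC)
    · refine tendsto_finsetSum _ fun t ht => ?_
      refine Tendsto.log ?_ (norm_ne_zero_iff.2 (hDt t ht))
      have h2 : ContinuousAt (DD L L') t := (DD_analytic L L' h (hT.notMem t ht)).continuousAt
      have h3 : Tendsto (fun z : ℂ => z + t) (𝓝[≠] 0) (𝓝 t) := by
        have : Tendsto (fun z : ℂ => z + t) (𝓝 0) (𝓝 (0 + t)) :=
          (continuous_id.add continuous_const).tendsto 0
        rw [zero_add] at this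
        exact this.mono_left nhdsWithin_le_nhds
      exact (h2.tendsto.comp h3).norm
  have hev : ∀ᶠ z : ℂ in 𝓝[≠] 0, (m : ℂ) * z ∉ L'.lattice := by
    have h2 : ((L'.lattice : Set ℂ) \ {0})ᶜ ∈ 𝓝 (0 : ℂ) :=
      L'.compl_lattice_sdiff_singleton_mem_nhds 0
    have h3 : Tendsto (fun z : ℂ => (m : ℂ) * z) (𝓝[≠] 0) (𝓝 0) := by
      have : Tendsto (fun z : ℂ => (m : ℂ) * z) (𝓝 0) (𝓝 ((m : ℂ) * 0)) :=
        (continuous_const.mul continuous_id).tendsto 0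
      rw [mul_zero] at this
      exact this.mono_left nhdsWithin_le_nhds
    filter_upwards [h3 h2, self_mem_nhdsWithin] with z hz hz0 hz1
    exact hz ⟨hz1, mul_ne_zero hmC hz0⟩
  have hconst : Tendsto (fun z : ℂ => 2 * Real.log ‖DD L L' (m * z) / DD L L' z‖ -
      2 * ∑ t ∈ torT m L, Real.log ‖DD L L' (z + t)‖) (𝓝[≠] 0)
      (𝓝 (((m : ℝ) ^ 2 - 1) * C)) := by
    refine tendsto_const_nhds.congr' ?_
    filter_upwards [hev] with z hz
    exact h1 z hz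
  have h2 := tendsto_nhds_unique hconst hlim1
  rw [h2, AA, norm_mul, norm_prod, Real.log_mul, Real.log_prod]
  · rw [norm_inv, Real.log_inv]
    ring
  · exact fun t ht => norm_ne_zero_iff.2 (hDt t ht)
  · rw [norm_ne_zero_iff]
    exact pow_ne_zero _ hmC
  · exact Finset.prod_ne_zero_iff.2 fun t ht => norm_ne_zero_iff.2 (hDt t ht)

/-- Kronecker's limit formula -/
theorem kron {r : ℝ} (hr : 0 < r) {L L' : PeriodPair} (hL : (Lrec r hr).lattice ≤ L.lattice)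
    (h : L.lattice ≤ L'.lattice) (hc : (idx L L').Coprime 6) {z : ℂ} (hz : z ∉ L'.lattice)
    {Z Z' : ℂ → ℂ} (hZ : IsEps L z Z) (hZ' : IsEps L' z Z') :
    idx L L' * deriv Z 0 - deriv Z' 0 = ((-2 * Real.log ‖Psi L L' z‖ : ℝ) : ℂ) := by
  obtain ⟨Q, hQ⟩ := exists_reps hL
  obtain ⟨Q', hQ'⟩ := exists_reps (hL.trans h)
  have hc2 : (idx L L').Coprime 2 := hc.coprime_dvd_right (by norm_num)
  have hc3 : (idx L L').Coprime 3 := hc.coprime_dvd_right (by norm_num)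
  have ho : Odd (idx L L') := Nat.coprime_two_right.1 hc2
  obtain ⟨C, hC⟩ := kron_const hr hQ hQ' h ho
  have key : ∀ m : ℕ, 1 < m → (idx L L').Coprime m →
      ((m : ℝ) ^ 2 - 1) * C = -2 * Real.log ‖AA m L L'‖ := by
    intro m hm hcm
    have hm0 : 0 < m := by omega
    refine kf_const hm h ho hcm fun w hw => ?_
    have hT := isTors_torT hm0 L
    have hT' := hT.of_le h hcm
    have hwL : (m : ℂ) * w ∉ L.lattice := fun h1 => hw (h h1)
    have h1 := kf_sum hr hQ hm0 hT hwL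
    have h2 := kf_sum hr hQ' hm0 hT' hw
    have h3 := hC _ hw
    have h4 : ∀ t ∈ insert (0 : ℂ) (torT m L), C + 2 * Real.log ‖DD L L' (w + t)‖ =
        idx L L' * ∑ q ∈ Q, CMG.BB r (w + t + q) - ∑ q ∈ Q', CMG.BB r (w + t + q) := by
      intro t ht
      have h5 := hC (w + t) (kf_notMem h hT hw ht)
      linarith
    rw [Finset.sum_congr rfl h4, Finset.sum_sub_distrib, ← Finset.mul_sum, h1, h2]
    linarith
  have h2 := key 2 (by norm_num) hc2
  have h3 := key 3 (by norm_num) hc3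
  have hA2 : AA 2 L L' ≠ 0 := AA_ne_zero (by norm_num) h hc2
  have hA3 : AA 3 L L' ≠ 0 := AA_ne_zero (by norm_num) h hc3
  have hD : DD L L' z ≠ 0 := DD_ne_zero h hz
  obtain ⟨Y, hY, hYd⟩ := exists_eps hr hQ (z := z) (fun h1 => hz (h h1))
  obtain ⟨Y', hY', hYd'⟩ := exists_eps hr hQ' hz
  rw [hZ.deriv_eq hY, hZ'.deriv_eq hY', hYd, hYd']
  have h4 : (idx L L' : ℝ) * ∑ q ∈ Q, CMG.BB r (z + q) - ∑ q ∈ Q', CMG.BB r (z + q) =
      -2 * Real.log ‖Psi L L' z‖ := by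
    have h5 := hC z hz
    rw [Psi, norm_div, norm_mul, norm_pow, Real.log_div (pow_ne_zero 3 (norm_ne_zero_iff.2 hA2))
      (mul_ne_zero (norm_ne_zero_iff.2 hA3) (norm_ne_zero_iff.2 hD)), Real.log_pow,
      Real.log_mul (norm_ne_zero_iff.2 hA3) (norm_ne_zero_iff.2 hD)]
    push_cast at h2 h3 ⊢
    linarith
  rw [← h4]
  push_cast
  ring

end Pool.Agent.CMR
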