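import Pool.Agent.CMR.VU
import Pool.Agent.CMR.ADefs
import Pool.Agent.CMG.IntVal

/-!
# V-Y valuations of the norms

If two primes of `k` contain `N` (e.g. if `N ≥ 2` is not a prime power: two prime numbers divide `N`), then `|UU| = 1` for all `V` (`val_UU_one`), so `|ι y| = 1` for all valuation rings `V` of `ℂ` and `y`, `y⁻¹` are integral
(`CMG.isIntegral_of_valuation`, `ι` injective); `B = K = 1`, `L = 0`. Otherwise exactly one prime `𝔭` of `k` contains `N`; let `p` be a prime number dividing `N`,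
`P = Norm_{M/k}(y) ∈ k`. For `|N| < 1` all `UU N 𝔠 𝔤` have the same valuation `c ≤ 1` (`val_UU_eq`, `vy_UU_le`), for `|N| = 1` they have valuation `1`. So `|P| = c^{card G}`, `|ι y| = c^{n₁}`,
`n₁ = card {𝔤 ∈ G : art 𝔤 = 1}`, and `P` is an integer. `(P) = 𝔭^a 𝔟'`, `(p) = 𝔭^e 𝔟` with `𝔟, 𝔟'` prime to `𝔭`, so `|P|^e = |p|^a` for all `V` (if `|N| < 1` then the prime under `V` is `𝔭`). `B = p`, `K = e card G`, `L = a n₁`.
-/

set_option autoImplicit false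
set_option linter.unusedSectionVars false

noncomputable section

open NumberField Pool.Agent.StarkRQ
open scoped PeriodPair

namespace Pool.Agent.CMR

section

variable {k : Type} [Field k] [NumberField k] [Algebra k ℂ]

private lemma vy_int_le (V : ValuationSubring ℂ) (x : 𝓞 k) :
    V.valuation (algebraMap k ℂ (x : k)) ≤ 1 := by
  have h1 : IsIntegral ℤ (algebraMap k ℂ (x : k)) :=
    x.isIntegral_coe.map (algebraMap k ℂ).toIntAlgHom
  have h2 : IsIntegral V (algebraMap k ℂ (x : k)) := h1.tower_top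
  obtain ⟨y, hy⟩ := IsIntegrallyClosed.isIntegral_iff.1 h2
  rw [← hy]
  exact V.valuation_le_one y

private lemma vy_nat_le (V : ValuationSubring ℂ) (n : ℕ) : V.valuation (n : ℂ) ≤ 1 :=
  (V.valuation_le_one_iff _).2 (natCast_mem V n)

private lemma vy_nat (V : ValuationSubring ℂ) (n : ℕ) :
    V.valuation (algebraMap k ℂ (((n : 𝓞 k) : k))) = V.valuation (n : ℂ) := by
  congr 1
  simp

/-- the prime of `𝓞 k` under `V` -/
private def pV (k : Type) [Field k] [NumberField k] [Algebra k ℂ] (V : ValuationSubring ℂ) :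
    Ideal (𝓞 k) where
  carrier := {x | V.valuation (algebraMap k ℂ (x : k)) < 1}
  add_mem' := by
    intro x y hx hy
    show V.valuation (algebraMap k ℂ ((x + y : 𝓞 k) : k)) < 1
    have h1 : algebraMap k ℂ ((x + y : 𝓞 k) : k) = algebraMap k ℂ (x : k) + algebraMap k ℂ (y : k) := by
      simp
    rw [h1]
    exact V.valuation.map_add_lt hx hy
  zero_mem' := by
    show V.valuation (algebraMap k ℂ ((0 : 𝓞 k) : k)) < 1
    simp
  smul_mem' := by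
    intro x y hy
    show V.valuation (algebraMap k ℂ ((x * y : 𝓞 k) : k)) < 1
    have h1 : algebraMap k ℂ ((x * y : 𝓞 k) : k) = algebraMap k ℂ (x : k) * algebraMap k ℂ (y : k) := by
      simp
    rw [h1, map_mul, mul_comm]
    exact mul_lt_one_of_lt_of_le hy (vy_int_le V x)

private lemma mem_pV (V : ValuationSubring ℂ) (x : 𝓞 k) :
    x ∈ pV k V ↔ V.valuation (algebraMap k ℂ (x : k)) < 1 := Iff.rfl

private lemma vy_eq_one (V : ValuationSubring ℂ) {x : 𝓞 k} (hx : x ∉ pV k V) :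
    V.valuation (algebraMap k ℂ (x : k)) = 1 :=
  le_antisymm (vy_int_le V x) (not_lt.1 hx)

private lemma pV_prime (V : ValuationSubring ℂ) : (pV k V).IsPrime where
  ne_top' := by
    rw [Ideal.ne_top_iff_one, mem_pV]
    simp
  mem_or_mem' := by
    intro x y h
    by_contra hcon
    rw [not_or] at hcon
    rw [mem_pV] at h
    have h1 : algebraMap k ℂ ((x * y : 𝓞 k) : k) = algebraMap k ℂ (x : k) * algebraMap k ℂ (y : k) := by
      simp
    rw [h1, map_mul, vy_eq_one V hcon.1, vy_eq_one V hcon.2, one_mul] at h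
    exact lt_irrefl _ h

/-- comparison of valuations at the prime `𝔭` -/
private lemma vy_compare (V : ValuationSubring ℂ) {u w : 𝓞 k} {𝔟 𝔮 : Ideal (𝓞 k)}
    (hu : Ideal.span {u} = 𝔮 * 𝔟) (hb : ¬ 𝔟 ≤ pV k V) (hw : w ∈ 𝔮) :
    V.valuation (algebraMap k ℂ (w : k)) ≤ V.valuation (algebraMap k ℂ (u : k)) := by
  obtain ⟨t, ht, htV⟩ := SetLike.not_le_iff_exists.1 hb
  have h1 : w * t ∈ Ideal.span {u} := by
    rw [hu]
    exact Ideal.mul_mem_mul hw ht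
  obtain ⟨s, hs⟩ := Ideal.mem_span_singleton.1 h1
  have h2 := congrArg (fun x : 𝓞 k => V.valuation (algebraMap k ℂ (x : k))) hs
  simp only [map_mul, vy_eq_one V htV, mul_one] at h2
  rw [h2]
  exact mul_le_of_le_one_right' (vy_int_le V s)

/-- the valuations of the elliptic units are at most `1` at the primes dividing `N` -/
private lemma vy_UU_le (hk : IsIQ k) (V : ValuationSubring ℂ) {N : ℕ} (hN : 2 ≤ N)
    (hV : V.valuation (N : ℂ) < 1) {𝔠 𝔤 : Ideal (𝓞 k)} (hc0 : 𝔠 ≠ ⊥) (hc : Prm (6 * N) 𝔠)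
    (h0 : 𝔤 ≠ ⊥) (hp : Prm N 𝔤) : V.valuation (UU N 𝔠 𝔤) ≤ 1 := by
  obtain ⟨hc6, hcN⟩ := (prm_mul_left_iff 𝔠).1 hc
  rw [prm_iff] at hc6 hcN
  set c := Ideal.absNorm 𝔠 with hcdef
  have hcV : V.valuation (c : ℂ) = 1 := by
    refine le_antisymm (vy_nat_le V c) (not_lt.1 fun h => ?_)
    obtain ⟨u, v, huv⟩ := Nat.isCoprime_iff_coprime.2 hcN
    have h1 : (u : ℂ) * c + v * N = 1 := by exact_mod_cast huv
    have hz : ∀ m : ℤ, V.valuation (m : ℂ) ≤ 1 := fun m =>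
      (V.valuation_le_one_iff _).2 (intCast_mem V m)
    have h2 : V.valuation ((u : ℂ) * c + v * N) < 1 := by
      refine V.valuation.map_add_lt ?_ ?_
      · rw [map_mul, mul_comm]
        exact mul_lt_one_of_lt_of_le h (hz u)
      · rw [map_mul, mul_comm]
        exact mul_lt_one_of_lt_of_le hV (hz v)
    rw [h1, map_one] at h2
    exact lt_irrefl _ h2
  have hCM := CMlat_LatI hk h0
  obtain ⟨e, d, hg⟩ := exists_good V hCM
  have hle := LatI_le hk h0 hc0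
  have hidx : idx (LatI 𝔤) (LatI (𝔤 * 𝔠)) = c := idx_LatI hk h0 hc0
  have hN0 : N ≠ 0 := by omega
  set z : ℂ := ptt N (1 : 𝓞 k) with hz
  have hz0 : z ∉ (LatI 𝔤).lattice := by
    rw [hz, ptt_mem_iff hk hN0 h0 hp]
    rintro ⟨s, hs⟩
    have h2 := congrArg (fun x : 𝓞 k => V.valuation (algebraMap k ℂ (x : k))) hs
    simp only [map_mul, map_one] at h2
    rw [vy_nat] at h2
    have h3 := mul_lt_one_of_lt_of_le hV (vy_int_le V s)
    rw [← h2] at h3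
    exact lt_irrefl _ h3
  unfold UU
  by_cases hin : InE V (LatI 𝔤) e d z
  · have h1 := val_Psi_in hCM hg hle (by rw [hidx]; exact hc6) (by rw [hidx]; exact hcV) hin hz0
    have h2 : 1 ≤ V.valuation (xx (LatI 𝔤) e d z) ^ ((idx (LatI 𝔤) (LatI (𝔤 * 𝔠)) - 1) / 2) :=
      one_le_pow₀ (hin.resolve_left hz0).le
    calc V.valuation (Psi (LatI 𝔤) (LatI (𝔤 * 𝔠)) z)
        = V.valuation (Psi (LatI 𝔤) (LatI (𝔤 * 𝔠)) z) * 1 := (mul_one _).symm
      _ ≤ V.valuation (Psi (LatI 𝔤) (LatI (𝔤 * 𝔠)) z) *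
          V.valuation (xx (LatI 𝔤) e d z) ^ ((idx (LatI 𝔤) (LatI (𝔤 * 𝔠)) - 1) / 2) :=
          mul_le_mul_right h2 _
      _ = 1 := h1
  · refine (val_Psi hCM hg hle (by rw [hidx]; exact hc6) (by rw [hidx]; exact hcV) ?_).le
    intro s hs hE
    apply hin
    obtain ⟨u, -, hu⟩ := Nat.exists_mul_mod_eq_one_of_coprime hcN (by omega)
    have h1 := InE.nsmul hg hE (c * u)
    have h2 : (c : ℂ) * s ∈ (LatI 𝔤).lattice := by
      have := idx_smul_mem hle hs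
      rwa [hidx] at this
    have h3 : (((c * u : ℕ) : ℂ)) * s ∈ (LatI 𝔤).lattice := by
      have h4 := (LatI 𝔤).lattice.smul_mem (u : ℤ) h2
      rw [zsmul_eq_mul] at h4
      have e1 : (((c * u : ℕ) : ℂ)) * s = ((u : ℤ) : ℂ) * ((c : ℂ) * s) := by
        push_cast
        ring
      rwa [e1]
    have h4 : ((c * u / N : ℕ) : ℂ) ∈ (LatI 𝔤).lattice := by
      have h5 : ptt N ((N : 𝓞 k) * ((c * u / N : ℕ) : 𝓞 k)) ∈ (LatI 𝔤).lattice :=
        (ptt_mem_iff hk hN0 h0 hp _).2 (dvd_mul_right _ _)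
      have h6 : ptt N ((N : 𝓞 k) * ((c * u / N : ℕ) : 𝓞 k)) = ((c * u / N : ℕ) : ℂ) := by
        unfold ptt
        have : (N : ℂ) ≠ 0 := by exact_mod_cast hN0
        rw [div_eq_iff this]
        simp [mul_comm]
      rwa [h6] at h5
    have h5 := InE.add hg h1 (Or.inl ((LatI 𝔤).lattice.neg_mem ((LatI 𝔤).lattice.add_mem h3 h4)))
    have h6 : (((c * u : ℕ) : ℂ)) * (z + s) + -((((c * u : ℕ) : ℂ)) * s + ((c * u / N : ℕ) : ℂ)) = z := by
      have h7 : c * u = N * (c * u / N) + 1 := by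
        have := Nat.div_add_mod (c * u) N
        rw [hu] at this
        exact this.symm
      have h8 : (N : ℂ) * z = 1 := by
        rw [hz]
        unfold ptt
        have : (N : ℂ) ≠ 0 := by exact_mod_cast hN0
        field_simp
        simp
      have h9 : ((c * u : ℕ) : ℂ) = N * ((c * u / N : ℕ) : ℂ) + 1 := by
        exact_mod_cast congrArg (fun n : ℕ => (n : ℂ)) h7
      generalize ((c * u / N : ℕ) : ℂ) = w at h9
      rw [h9]
      linear_combination w * h8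
    rwa [h6] at h5

omit [Algebra k ℂ] in
private lemma vy_exists_prime {p : ℕ} (hp : p.Prime) :
    ∃ 𝔭 : Ideal (𝓞 k), 𝔭.IsPrime ∧ (p : 𝓞 k) ∈ 𝔭 := by
  have h1 : Ideal.span {(p : 𝓞 k)} ≠ ⊤ := by
    intro h
    have h2 : Ideal.absNorm (Ideal.span {(p : 𝓞 k)}) = 1 := by
      rw [h, Ideal.absNorm_top]
    rw [Ideal.absNorm_span_natCast] at h2
    have h3 : 0 < Module.finrank ℤ (𝓞 k) := Module.finrank_pos
    rcases pow_eq_one_iff.1 h2 with h4 | h4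
    · exact hp.one_lt.ne' h4
    · exact h3.ne' h4
  obtain ⟨𝔭, h𝔭, hle⟩ := Ideal.exists_le_maximal _ h1
  exact ⟨𝔭, h𝔭.isPrime, hle (Ideal.mem_span_singleton_self _)⟩

omit [Algebra k ℂ] in
private lemma vy_two {N : ℕ} (hN : 2 ≤ N) (h : ¬ IsPrimePow N) :
    ∃ 𝔭 𝔮 : Ideal (𝓞 k), 𝔭.IsPrime ∧ 𝔮.IsPrime ∧ 𝔭 ≠ 𝔮 ∧ (N : 𝓞 k) ∈ 𝔭 ∧ (N : 𝓞 k) ∈ 𝔮 := by
  have hp : N.minFac.Prime := Nat.minFac_prime (by omega)
  obtain ⟨q, hq, hqN, hne⟩ : ∃ q : ℕ, q.Prime ∧ q ∣ N ∧ q ≠ N.minFac := by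
    by_contra hcon
    push Not at hcon
    apply h
    have h1 := Nat.eq_prime_pow_of_unique_prime_dvd (n := N) (p := N.minFac) (by omega)
      (fun {d} hd hdN => hcon d hd hdN)
    rw [h1]
    refine hp.isPrimePow.pow ?_
    intro h0
    rw [h0, pow_zero] at h1
    omega
  obtain ⟨𝔭, h1, h2⟩ := vy_exists_prime (k := k) hp
  obtain ⟨𝔮, h3, h4⟩ := vy_exists_prime (k := k) hq
  refine ⟨𝔭, 𝔮, h1, h3, ?_, ?_, ?_⟩
  · rintro rfl
    obtain ⟨u, v, huv⟩ := Nat.isCoprime_iff_coprime.2 ((Nat.coprime_primes hq hp).2 hne)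
    apply h1.ne_top
    rw [Ideal.eq_top_iff_one]
    have h5 : (u : 𝓞 k) * q + v * (N.minFac : ℕ) = 1 := by exact_mod_cast congrArg (fun n : ℤ => (n : 𝓞 k)) huv
    rw [← h5]
    exact 𝔭.add_mem (𝔭.mul_mem_left _ h4) (𝔭.mul_mem_left _ h2)
  · obtain ⟨j, hj⟩ := N.minFac_dvd
    rw [hj]
    push_cast
    exact 𝔭.mul_mem_right _ h2
  · obtain ⟨j, hj⟩ := hqN
    rw [hj]
    push_cast
    exact 𝔮.mul_mem_right _ h4

/-- an integer `P` and a number `p` have the same valuations up to powers, if all `V` with `|p| < 1` lie over the same prime -/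
private lemma vy_pow {p : ℕ} (hp : p ≠ 0) {𝔭 : Ideal (𝓞 k)} (h𝔭 : 𝔭.IsPrime) (hp𝔭 : (p : 𝓞 k) ∈ 𝔭)
    {P : 𝓞 k} (hP : P ≠ 0) : ∃ e a : ℕ, 0 < e ∧ ∀ V : ValuationSubring ℂ, pV k V = 𝔭 →
      V.valuation (algebraMap k ℂ (P : k)) ^ e = V.valuation (p : ℂ) ^ a := by
  have hp0 : (p : 𝓞 k) ≠ 0 := by exact_mod_cast hp
  have h𝔭0 : 𝔭 ≠ ⊥ := by
    rintro rfl
    exact hp0 (by simpa using hp𝔭)
  have hprime : Prime 𝔭 := Ideal.prime_of_isPrime h𝔭0 h𝔭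
  have n1 : Ideal.span {(p : 𝓞 k)} ≠ 0 := by
    rw [Ne, Ideal.zero_eq_bot, Ideal.span_singleton_eq_bot]
    exact hp0
  have n2 : Ideal.span {P} ≠ 0 := by
    rw [Ne, Ideal.zero_eq_bot, Ideal.span_singleton_eq_bot]
    exact hP
  obtain ⟨e, 𝔟, hb, he⟩ := WfDvdMonoid.max_power_factor n1 hprime.irreducible
  obtain ⟨a, 𝔟', hb', ha⟩ := WfDvdMonoid.max_power_factor n2 hprime.irreducible
  refine ⟨e, a, ?_, ?_⟩
  · refine Nat.pos_of_ne_zero ?_
    rintro rfl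
    rw [pow_zero, one_mul] at he
    rw [← he, Ideal.dvd_span_singleton] at hb
    exact hb hp𝔭
  · intro V hV
    have hnb : ∀ {𝔞 : Ideal (𝓞 k)} (n : ℕ), ¬ 𝔭 ∣ 𝔞 → ¬ 𝔞 ^ n ≤ pV k V := by
      intro 𝔞 n h1 h2
      rw [hV, ← Ideal.dvd_iff_le] at h2
      exact h1 (hprime.dvd_of_dvd_pow h2)
    have e1 : Ideal.span {(p : 𝓞 k) ^ a} = 𝔭 ^ (e * a) * 𝔟 ^ a := by
      rw [← Ideal.span_singleton_pow, he, mul_pow, pow_mul]
    have e2 : Ideal.span {P ^ e} = 𝔭 ^ (e * a) * 𝔟' ^ e := by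
      rw [← Ideal.span_singleton_pow, ha, mul_pow, ← pow_mul, mul_comm a e]
    have m1 : (p : 𝓞 k) ^ a ∈ 𝔭 ^ (e * a) := by
      have hle : Ideal.span {(p : 𝓞 k) ^ a} ≤ 𝔭 ^ (e * a) := by
        rw [e1]
        exact Ideal.mul_le_left
      exact hle (Ideal.mem_span_singleton_self _)
    have m2 : P ^ e ∈ 𝔭 ^ (e * a) := by
      have hle : Ideal.span {P ^ e} ≤ 𝔭 ^ (e * a) := by
        rw [e2]
        exact Ideal.mul_le_left
      exact hle (Ideal.mem_span_singleton_self _)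
    have c1 := vy_compare V e1 (hnb a hb) m2
    have c2 := vy_compare V e2 (hnb e hb') m1
    have c3 := le_antisymm c1 c2
    simpa using c3

end

/-- the norms of elliptic units are units up to a power of a prime number -/
theorem val_y {k : Type} [Field k] [NumberField k] [Algebra k ℂ] (hk : IsIQ k) {N : ℕ}
    (hN : 2 ≤ N) {M : Type} [Field M] [NumberField M] [Algebra k M] [IsGalois ℚ M]
    [IsAbelianGalois k M] (ι : M →+* ℂ) (hι : ∀ x : k, ι (algebraMap k M x) = algebraMap k ℂ x)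
    (hmod : IsMod k M N) {G : Finset (Ideal (𝓞 k))} (hG : IsCls N G) {𝔠 : Ideal (𝓞 k)}
    (hc0 : 𝔠 ≠ ⊥) (hc : Prm (6 * N) 𝔠) {y : M}
    (hy : ∀ σ : Gal(M/k), ι (σ y) = ∏ 𝔤 ∈ G, open Classical in
      if (art 𝔤 : Gal(M/k)) = σ then UU N 𝔠 𝔤 else 1) :
    (∃ B K L : ℕ, 0 < B ∧ 0 < K ∧ IsIntegral ℤ (y ^ K / (B : M) ^ L) ∧
      IsIntegral ℤ ((B : M) ^ L / y ^ K)) ∧
    (¬ IsPrimePow N → IsIntegral ℤ y ∧ IsIntegral ℤ y⁻¹) := by
  classical
  have hinj : Function.Injective ι := ι.injective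
  have hint : ∀ x : M, (∀ V : ValuationSubring ℂ, V.valuation (ι x) ≤ 1) → IsIntegral ℤ x := by
    intro x hx
    exact (isIntegral_algHom_iff ι.toIntAlgHom hinj).1 (CMG.isIntegral_of_valuation hx)
  have hval : ∀ (V : ValuationSubring ℂ) (σ : Gal(M/k)), V.valuation (ι (σ y)) =
      ∏ 𝔤 ∈ G, if (art 𝔤 : Gal(M/k)) = σ then V.valuation (UU N 𝔠 𝔤) else 1 := by
    intro V σ
    rw [hy σ, map_prod]
    refine Finset.prod_congr rfl fun 𝔤 _ => ?_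
    split_ifs
    · rfl
    · exact map_one _
  -- if all elliptic units are units at `V`
  have hone : ∀ V : ValuationSubring ℂ, (∀ 𝔤 ∈ G, V.valuation (UU N 𝔠 𝔤) = 1) →
      ∀ σ : Gal(M/k), V.valuation (ι (σ y)) = 1 := by
    intro V h σ
    rw [hval]
    refine Finset.prod_eq_one fun 𝔤 h𝔤 => ?_
    split_ifs
    · exact h 𝔤 h𝔤
    · rfl
  have hA : (∃ 𝔭 𝔮 : Ideal (𝓞 k), 𝔭.IsPrime ∧ 𝔮.IsPrime ∧ 𝔭 ≠ 𝔮 ∧
      (N : 𝓞 k) ∈ 𝔭 ∧ (N : 𝓞 k) ∈ 𝔮) → IsIntegral ℤ y ∧ IsIntegral ℤ y⁻¹ := by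
    intro hpq
    have h1 : ∀ V : ValuationSubring ℂ, V.valuation (ι y) = 1 := by
      intro V
      have := hone V (fun 𝔤 h𝔤 => val_UU_one hk V hN (Or.inr hpq) hc0 hc (hG.ne 𝔤 h𝔤)
        (hG.prm 𝔤 h𝔤)) 1
      simpa using this
    refine ⟨hint _ fun V => (h1 V).le, hint _ fun V => ?_⟩
    rw [map_inv₀, map_inv₀, h1, inv_one]
  refine ⟨?_, fun h => hA (vy_two hN h)⟩
  by_cases hpq : ∃ 𝔭 𝔮 : Ideal (𝓞 k), 𝔭.IsPrime ∧ 𝔮.IsPrime ∧ 𝔭 ≠ 𝔮 ∧
      (N : 𝓞 k) ∈ 𝔭 ∧ (N : 𝓞 k) ∈ 𝔮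
  · obtain ⟨h1, h2⟩ := hA hpq
    refine ⟨1, 1, 0, one_pos, one_pos, ?_, ?_⟩
    · simpa using h1
    · simpa using h2
  -- exactly one prime contains `N`
  set p := N.minFac with hpdef
  have hp : p.Prime := Nat.minFac_prime (by omega)
  obtain ⟨𝔭, h𝔭, hp𝔭⟩ := vy_exists_prime (k := k) hp
  obtain ⟨j, hj⟩ : p ∣ N := N.minFac_dvd
  have hN𝔭 : (N : 𝓞 k) ∈ 𝔭 := by
    rw [hj]
    push_cast
    exact 𝔭.mul_mem_right _ hp𝔭
  have hpV : ∀ V : ValuationSubring ℂ, V.valuation (N : ℂ) < 1 → pV k V = 𝔭 := by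
    intro V hV
    by_contra hne
    exact hpq ⟨pV k V, 𝔭, pV_prime V, h𝔭, hne, by rw [mem_pV, vy_nat]; exact hV, hN𝔭⟩
  have hp1 : ∀ V : ValuationSubring ℂ, V.valuation (N : ℂ) = 1 → V.valuation (p : ℂ) = 1 := by
    intro V hV
    refine le_antisymm (vy_nat_le V p) (not_lt.1 fun h => ?_)
    have h1 : V.valuation (N : ℂ) < 1 := by
      rw [hj]
      push_cast
      rw [map_mul]
      exact mul_lt_one_of_lt_of_le h (vy_nat_le V j)
    rw [hV] at h1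
    exact lt_irrefl _ h1
  -- the common valuation
  have hUle : ∀ (V : ValuationSubring ℂ), ∀ 𝔤 ∈ G, V.valuation (UU N 𝔠 𝔤) ≤ 1 := by
    intro V 𝔤 h𝔤
    rcases (vy_nat_le V N).lt_or_eq with h | h
    · exact vy_UU_le hk V hN h hc0 hc (hG.ne 𝔤 h𝔤) (hG.prm 𝔤 h𝔤)
    · exact (val_UU_one hk V hN (Or.inl h) hc0 hc (hG.ne 𝔤 h𝔤) (hG.prm 𝔤 h𝔤)).le
  have htop : Prm N (⊤ : Ideal (𝓞 k)) := by
    unfold Prm
    rw [← Ideal.one_eq_top]
    exact isCoprime_one_left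
  have hbt : (⊤ : Ideal (𝓞 k)) ≠ ⊥ := top_ne_bot
  have hC : ∀ V : ValuationSubring ℂ, ∃ C : V.ValueGroup, ∀ 𝔤 ∈ G, V.valuation (UU N 𝔠 𝔤) = C :=
    fun V => ⟨V.valuation (UU N 𝔠 ⊤), fun 𝔤 h𝔤 =>
      val_UU_eq hk V hN hc0 hc (hG.ne 𝔤 h𝔤) (hG.prm 𝔤 h𝔤) hbt htop⟩
  obtain ⟨𝔤₀, h𝔤₀, -⟩ := hG.ex ⊤ hbt htop
  set n : Gal(M/k) → ℕ := fun σ => (G.filter fun 𝔤 => (art 𝔤 : Gal(M/k)) = σ).card with hn
  have hvalC : ∀ (V : ValuationSubring ℂ) (C : V.ValueGroup),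
      (∀ 𝔤 ∈ G, V.valuation (UU N 𝔠 𝔤) = C) → ∀ σ : Gal(M/k), V.valuation (ι (σ y)) = C ^ n σ := by
    intro V C hC σ
    rw [hval, ← Finset.prod_filter, Finset.prod_congr rfl fun 𝔤 h𝔤 => hC 𝔤 (Finset.mem_filter.1 h𝔤).1,
      Finset.prod_const]
  -- the norm
  have hgal : IsGalois k M := inferInstance
  set P₀ : k := Algebra.norm k y with hP₀
  have hP₀prod : algebraMap k ℂ P₀ = ∏ σ : Gal(M/k), ι (σ y) := by
    rw [← hι, hP₀, Algebra.norm_eq_prod_automorphisms, map_prod]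
  have hP₀V : ∀ (V : ValuationSubring ℂ) (C : V.ValueGroup),
      (∀ 𝔤 ∈ G, V.valuation (UU N 𝔠 𝔤) = C) → V.valuation (algebraMap k ℂ P₀) = C ^ G.card := by
    intro V C hC
    rw [hP₀prod, map_prod, Finset.prod_congr rfl fun σ _ => hvalC V C hC σ, Finset.prod_pow_eq_pow_sum]
    congr 1
    rw [hn]
    exact (Finset.card_eq_sum_card_fiberwise fun 𝔤 _ => Finset.mem_univ _).symm
  have hP₀int : IsIntegral ℤ P₀ := by
    have h1 : IsIntegral ℤ (algebraMap k ℂ P₀) := CMG.isIntegral_of_valuation fun V => by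
      obtain ⟨C, hC⟩ := hC V
      rw [hP₀V V C hC]
      refine pow_le_one' ?_ _
      rw [← hC 𝔤₀ h𝔤₀]
      exact hUle V 𝔤₀ h𝔤₀
    exact (isIntegral_algHom_iff (algebraMap k ℂ).toIntAlgHom (algebraMap k ℂ).injective).1 h1
  obtain ⟨hc6, hcN⟩ := (prm_mul_left_iff 𝔠).1 hc
  have hy0 : y ≠ 0 := by
    intro h0
    have h1 := hy 1
    rw [h0, map_zero, map_zero] at h1
    have h2 := Finset.prod_eq_zero_iff.1 h1.symm
    obtain ⟨𝔤, h𝔤, h3⟩ := h2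
    split_ifs at h3
    · exact UU_ne_zero hk hN hc0 ((prm_iff 𝔠).1 hc6) hcN (hG.ne 𝔤 h𝔤) (hG.prm 𝔤 h𝔤) h3
    · exact one_ne_zero h3
  have hP₀0 : P₀ ≠ 0 := by
    rw [hP₀, Ne, Algebra.norm_eq_zero_iff]
    exact hy0
  set P : 𝓞 k := ⟨P₀, hP₀int⟩ with hP
  have hP0 : P ≠ 0 := by
    intro h0
    apply hP₀0
    have h1 : (P : k) = ((0 : 𝓞 k) : k) := congrArg (fun x : 𝓞 k => (x : k)) h0
    have h2 : (P : k) = P₀ := rfl
    rw [h2] at h1
    rw [h1]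
    simp
  obtain ⟨e, a, he, hea⟩ := vy_pow hp.ne_zero h𝔭 hp𝔭 hP0
  have hkey : ∀ V : ValuationSubring ℂ, V.valuation (ι y) ^ (G.card * e) =
      V.valuation (p : ℂ) ^ (a * n 1) := by
    intro V
    rcases (vy_nat_le V N).lt_or_eq with h | h
    · obtain ⟨C, hC⟩ := hC V
      have h1 := hea V (hpV V h)
      have h2 : V.valuation (algebraMap k ℂ (P : k)) = C ^ G.card := hP₀V V C hC
      have h3 := hvalC V C hC 1
      rw [AlgEquiv.one_apply] at h3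
      rw [h2] at h1
      calc V.valuation (ι y) ^ (G.card * e) = ((C ^ G.card) ^ e) ^ n 1 := by
            rw [h3, ← pow_mul, ← pow_mul, ← pow_mul]
            congr 1
            ring
        _ = V.valuation (p : ℂ) ^ (a * n 1) := by rw [h1, ← pow_mul]
    · have h1 := hone V (fun 𝔤 h𝔤 => val_UU_one hk V hN (Or.inl h) hc0 hc (hG.ne 𝔤 h𝔤)
        (hG.prm 𝔤 h𝔤)) 1
      rw [AlgEquiv.one_apply] at h1
      rw [h1, hp1 V h, one_pow, one_pow]
  have hG0 : 0 < G.card := Finset.card_pos.2 ⟨𝔤₀, h𝔤₀⟩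
  have hpC : (p : ℂ) ≠ 0 := Nat.cast_ne_zero.2 hp.ne_zero
  refine ⟨p, G.card * e, a * n 1, hp.pos, Nat.mul_pos hG0 he, hint _ fun V => ?_,
    hint _ fun V => ?_⟩
  · have h1 : V.valuation (p : ℂ) ^ (a * n 1) ≠ 0 :=
      pow_ne_zero _ ((Valuation.ne_zero_iff _).2 hpC)
    rw [map_div₀, map_div₀, map_pow, map_pow, map_pow, map_pow, map_natCast, hkey V, div_self h1]
  · have h1 : V.valuation (p : ℂ) ^ (a * n 1) ≠ 0 :=
      pow_ne_zero _ ((Valuation.ne_zero_iff _).2 hpC)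
    rw [map_div₀, map_div₀, map_pow, map_pow, map_pow, map_pow, map_natCast, hkey V, div_self h1]

end Pool.Agent.CMR
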