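import Pool.Agent.CMR.ZZeta

/-!
# Z-PART partial zeta functions of M/k

For `Re s > 1` the ideals `𝔞 ≠ ⊥` prime to `N` with Artin symbol `σ` are the disjoint union of the ray classes of the `𝔤 ∈ G` with `art 𝔤 = σ`
(`IsCls`, `art_eq_of_REq`, `art_iff`), so `zeta_class` gives the sum of `N(𝔞)^{-s}` over them, absolutely convergent; collecting the ideals of norm `n`
gives `LSeries (zcoeff N σ)` (`zcoeff` counts ideals of norm `n`, `n` prime to `N`, `prm_iff`; finitely many ideals of given norm; model: `CMG/SZeta.lean`).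
Differentiable on `{1}ᶜ` by `IsEps.diff`. Derivative at `0`: uniqueness of the continuation (two functions differentiable on `{1}ᶜ` which agree for
`Re s > 1`), `Zg 𝔤 0 = 0`.
-/

set_option autoImplicit false

noncomputable section

open NumberField Pool.Agent.StarkRQ
open scoped PeriodPair

namespace Pool.Agent.CMR

variable {k : Type} [Field k] [NumberField k] [Algebra k ℂ]
  {M : Type} [Field M] [NumberField M] [Algebra k M] [IsGalois ℚ M] [IsAbelianGalois k M]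

private theorem zp_congr {α β : Type*} [AddCommMonoid α] [TopologicalSpace α]
    {f g : β → α} {a : α} (h : HasSum f a) (hg : ∀ b, g b = f b) : HasSum g a := by
  rwa [funext hg]

private theorem zp_eqOn {F L : Type*} [Field F] [NumberField F] [Field L] [NumberField L]
    [Algebra F L] {N : ℕ} {σ : Gal(L/F)} {Z W : ℂ → ℂ} (hZ : IsPartialZeta N σ Z)
    (hW : IsPartialZeta N σ W) : Set.EqOn Z W {1}ᶜ := by
  have hopen : IsOpen ({1}ᶜ : Set ℂ) := isOpen_compl_singleton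
  have h2 : (2 : ℂ) ∈ ({1}ᶜ : Set ℂ) := by norm_num
  refine (hZ.1.analyticOnNhd hopen).eqOn_of_preconnected_of_eventuallyEq
    (hW.1.analyticOnNhd hopen) ?_ h2 ?_
  · exact (isConnected_compl_singleton_of_one_lt_rank (by simp) 1).isPreconnected
  · have h3 : {s : ℂ | 1 < s.re} ∈ nhds (2 : ℂ) := by
      refine (isOpen_lt continuous_const Complex.continuous_re).mem_nhds ?_
      change (1 : ℝ) < (2 : ℂ).re
      norm_num
    filter_upwards [h3] with s hs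
    rw [hZ.2 s hs, hW.2 s hs]

omit [Algebra k ℂ] in
private theorem zp_ne {N : ℕ} (hN : 3 ≤ N) {𝔤 : Ideal (𝓞 k)} (h0 : 𝔤 ≠ ⊥) :
    (((Ideal.absNorm 𝔤 : ℝ) * (N : ℝ) ^ 2 : ℝ) : ℂ) ≠ 0 := by
  have h1 : Ideal.absNorm 𝔤 ≠ 0 := fun h => h0 (Ideal.absNorm_eq_zero_iff.1 h)
  have h2 : N ≠ 0 := by omega
  rw [Complex.ofReal_ne_zero]
  positivity

/-- the sum over one class, as a sum over all ideals -/
private theorem zp_class (hk : IsIQ k) {N : ℕ} (hN : 3 ≤ N) {𝔤 : Ideal (𝓞 k)} (h0 : 𝔤 ≠ ⊥)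
    (hp : Prm N 𝔤) {Z : ℂ → ℂ} (hZ : IsEps (LatI 𝔤) (ptt N (1 : 𝓞 k)) Z) {s : ℂ}
    (hs : 1 < s.re) :
    HasSum (fun 𝔞 : Ideal (𝓞 k) => open Classical in
      if 𝔞 ≠ ⊥ ∧ Prm N 𝔞 ∧ REq N 𝔞 𝔤 then ((Ideal.absNorm 𝔞 : ℝ) : ℂ) ^ (-s) else 0)
      ((((Ideal.absNorm 𝔤 : ℝ) * (N : ℝ) ^ 2 : ℝ) : ℂ) ^ (-s) * Z s) := by
  classical
  have h1 := zeta_class hk hN h0 hp hZ hs
  have hinj : Function.Injective
      (Subtype.val : {𝔞 : Ideal (𝓞 k) // 𝔞 ≠ ⊥ ∧ Prm N 𝔞 ∧ REq N 𝔞 𝔤} → Ideal (𝓞 k)) :=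
    Subtype.val_injective
  rw [← hinj.hasSum_iff]
  · refine zp_congr h1 ?_
    intro 𝔞
    rw [Function.comp_apply, if_pos 𝔞.2]
  · intro 𝔞 h𝔞
    rw [if_neg]
    intro h
    exact h𝔞 ⟨⟨𝔞, h⟩, rfl⟩

/-- the sum over all ideals with given Artin symbol -/
private theorem zp_sum (hk : IsIQ k) {N : ℕ} (hN : 3 ≤ N) (hm : IsMod k M N)
    {G : Finset (Ideal (𝓞 k))} (hG : IsCls N G) {Zg : Ideal (𝓞 k) → ℂ → ℂ}
    (hZ : ∀ 𝔤 ∈ G, IsEps (LatI 𝔤) (ptt N (1 : 𝓞 k)) (Zg 𝔤)) (σ : Gal(M/k)) {s : ℂ}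
    (hs : 1 < s.re) :
    HasSum (fun 𝔞 : Ideal (𝓞 k) => open Classical in
      if 𝔞 ≠ ⊥ ∧ Prm N 𝔞 ∧ (art 𝔞 : Gal(M/k)) = σ then
        ((Ideal.absNorm 𝔞 : ℝ) : ℂ) ^ (-s) else 0)
      (∑ 𝔤 ∈ G, open Classical in if (art 𝔤 : Gal(M/k)) = σ then
        (((Ideal.absNorm 𝔤 : ℝ) * (N : ℝ) ^ 2 : ℝ) : ℂ) ^ (-s) * Zg 𝔤 s else 0) := by
  classical
  have h3 := hasSum_sum (s := G) (f := fun 𝔤 (𝔞 : Ideal (𝓞 k)) =>
    if (art 𝔤 : Gal(M/k)) = σ then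
      (if 𝔞 ≠ ⊥ ∧ Prm N 𝔞 ∧ REq N 𝔞 𝔤 then ((Ideal.absNorm 𝔞 : ℝ) : ℂ) ^ (-s) else 0) else 0)
    (a := fun 𝔤 => if (art 𝔤 : Gal(M/k)) = σ then
        (((Ideal.absNorm 𝔤 : ℝ) * (N : ℝ) ^ 2 : ℝ) : ℂ) ^ (-s) * Zg 𝔤 s else 0) (by
      intro 𝔤 h𝔤
      by_cases hu : (art 𝔤 : Gal(M/k)) = σ
      · simp only [hu, if_true]
        exact zp_class hk hN (hG.ne 𝔤 h𝔤) (hG.prm 𝔤 h𝔤) (hZ 𝔤 h𝔤) hs
      · simp only [hu, if_false]
        exact hasSum_zero)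
  refine zp_congr h3 ?_
  intro 𝔞
  by_cases h𝔞 : 𝔞 ≠ ⊥ ∧ Prm N 𝔞
  · obtain ⟨𝔤, h𝔤, hr⟩ := hG.ex 𝔞 h𝔞.1 h𝔞.2
    have hart : (art 𝔞 : Gal(M/k)) = art 𝔤 :=
      art_eq_of_REq hm h𝔞.1 (hG.ne 𝔤 h𝔤) h𝔞.2 (hG.prm 𝔤 h𝔤) hr
    rw [Finset.sum_eq_single_of_mem 𝔤 h𝔤]
    · rw [hart]
      have h4 : 𝔞 ≠ ⊥ ∧ Prm N 𝔞 ∧ REq N 𝔞 𝔤 := ⟨h𝔞.1, h𝔞.2, hr⟩
      rw [if_pos h4]
      by_cases h5 : (art 𝔤 : Gal(M/k)) = σ
      · rw [if_pos ⟨h𝔞.1, h𝔞.2, h5⟩, if_pos h5]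
      · rw [if_neg fun h => h5 h.2.2, if_neg h5]
    · intro 𝔥 h𝔥 hne
      have h4 : ¬ (𝔞 ≠ ⊥ ∧ Prm N 𝔞 ∧ REq N 𝔞 𝔥) := by
        rintro ⟨-, -, h5⟩
        exact hne (hG.inj 𝔥 h𝔥 𝔤 h𝔤 (h5.symm.trans hr))
      rw [if_neg h4, ite_self]
  · rw [if_neg fun h => h𝔞 ⟨h.1, h.2.1⟩]
    refine (Finset.sum_eq_zero fun 𝔤 _ => ?_).symm
    have h4 : ¬ (𝔞 ≠ ⊥ ∧ Prm N 𝔞 ∧ REq N 𝔞 𝔤) := fun h => h𝔞 ⟨h.1, h.2.1⟩
    rw [if_neg h4, ite_self]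

/-- the partial zeta functions of `M/k` -/
theorem partial_zeta (hk : IsIQ k) {N : ℕ} (hN : 3 ≤ N) (hm : IsMod k M N)
    {G : Finset (Ideal (𝓞 k))} (hG : IsCls N G) {Zg : Ideal (𝓞 k) → ℂ → ℂ}
    (hZ : ∀ 𝔤 ∈ G, IsEps (LatI 𝔤) (ptt N (1 : 𝓞 k)) (Zg 𝔤)) (σ : Gal(M/k)) :
    IsPartialZeta N σ (fun s => ∑ 𝔤 ∈ G, open Classical in
      if (art 𝔤 : Gal(M/k)) = σ then
        (((Ideal.absNorm 𝔤 : ℝ) * (N : ℝ) ^ 2 : ℝ) : ℂ) ^ (-s) * Zg 𝔤 s else 0) := by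
  classical
  constructor
  · refine DifferentiableOn.fun_sum fun 𝔤 h𝔤 => ?_
    split_ifs
    · refine DifferentiableOn.mul ?_ (hZ 𝔤 h𝔤).diff
      refine Differentiable.differentiableOn ?_
      intro s
      exact DifferentiableAt.const_cpow (by fun_prop) (Or.inl (zp_ne hN (hG.ne 𝔤 h𝔤)))
    · exact differentiableOn_const _
  · intro s hs
    have hs0 : -s ≠ 0 := by
      intro h
      rw [neg_eq_zero] at h
      rw [h, Complex.zero_re] at hs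
      linarith
    have h2 := zp_sum hk hN hm hG hZ σ hs
    have h3 : HasSum (fun n : ℕ => LSeries.term (fun n => (zcoeff N σ n : ℂ)) s n)
        (∑ 𝔤 ∈ G, if (art 𝔤 : Gal(M/k)) = σ then
          (((Ideal.absNorm 𝔤 : ℝ) * (N : ℝ) ^ 2 : ℝ) : ℂ) ^ (-s) * Zg 𝔤 s else 0) := by
      refine HasSum.sigma
        ((Equiv.sigmaFiberEquiv (fun 𝔞 : Ideal (𝓞 k) => Ideal.absNorm 𝔞)).hasSum_iff.2 h2) ?_
      intro n
      rcases eq_or_ne n 0 with rfl | hn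
      · rw [LSeries.term_zero]
        refine zp_congr (hasSum_zero (α := ℂ)) ?_
        rintro ⟨𝔞, h𝔞⟩
        show (if _ then ((Ideal.absNorm 𝔞 : ℝ) : ℂ) ^ (-s) else 0) = 0
        rw [h𝔞, Nat.cast_zero, Complex.ofReal_zero, Complex.zero_cpow hs0, ite_self]
      · have hQ : ∀ 𝔞 : Ideal (𝓞 k), Ideal.absNorm 𝔞 = n → 𝔞 ≠ ⊥ := by
          rintro 𝔞 h rfl
          rw [Ideal.absNorm_bot] at h
          exact hn h.symm
        have hfin : Finite {𝔞 : Ideal (𝓞 k) // Ideal.absNorm 𝔞 = n} :=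
          (Ideal.finite_setOfPred_absNorm_eq n).to_subtype
        let := Fintype.ofFinite {𝔞 : Ideal (𝓞 k) // Ideal.absNorm 𝔞 = n}
        have h4 : (∑ c : {𝔞 : Ideal (𝓞 k) // Ideal.absNorm 𝔞 = n},
            if c.1 ≠ ⊥ ∧ Prm N c.1 ∧ (art c.1 : Gal(M/k)) = σ then
              ((Ideal.absNorm c.1 : ℝ) : ℂ) ^ (-s) else 0) =
            LSeries.term (fun n => (zcoeff N σ n : ℂ)) s n := by
          have hterm : LSeries.term (fun n => (zcoeff N σ n : ℂ)) s n =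
              (zcoeff N σ n : ℂ) * (n : ℂ) ^ (-s) := by
            rw [LSeries.term_of_ne_zero hn, Complex.cpow_neg, div_eq_mul_inv]
          rw [hterm, zcoeff]
          by_cases hcop : n.Coprime N
          · rw [if_pos hcop]
            have h5 : ∀ c : {𝔞 : Ideal (𝓞 k) // Ideal.absNorm 𝔞 = n},
                (c.1 ≠ ⊥ ∧ Prm N c.1 ∧ (art c.1 : Gal(M/k)) = σ) ↔ HasArtinSymbol c.1 σ := by
              intro c
              have h6 : Prm N c.1 := by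
                rw [prm_iff, c.2]
                exact hcop
              rw [art_iff hm (hQ c.1 c.2) h6 σ]
              exact ⟨fun h => h.2.2.symm, fun h => ⟨hQ c.1 c.2, h6, h.symm⟩⟩
            have h6 : (∑ c : {𝔞 : Ideal (𝓞 k) // Ideal.absNorm 𝔞 = n},
                if c.1 ≠ ⊥ ∧ Prm N c.1 ∧ (art c.1 : Gal(M/k)) = σ then
                  ((Ideal.absNorm c.1 : ℝ) : ℂ) ^ (-s) else 0) =
                ∑ c : {𝔞 : Ideal (𝓞 k) // Ideal.absNorm 𝔞 = n}, if HasArtinSymbol c.1 σ then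
                  (n : ℂ) ^ (-s) else 0 := by
              refine Finset.sum_congr rfl fun c _ => ?_
              rw [c.2, Complex.ofReal_natCast]
              by_cases h7 : HasArtinSymbol c.1 σ
              · rw [if_pos h7, if_pos ((h5 c).2 h7)]
              · rw [if_neg h7, if_neg fun h => h7 ((h5 c).1 h)]
            rw [h6, ← Finset.sum_filter, Finset.sum_const, nsmul_eq_mul]
            congr 2
            rw [← Fintype.card_subtype, ← Nat.card_eq_fintype_card]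
            exact Nat.card_congr (Equiv.subtypeSubtypeEquivSubtypeInter
              (fun 𝔞 : Ideal (𝓞 k) => Ideal.absNorm 𝔞 = n) fun 𝔞 => HasArtinSymbol 𝔞 σ)
          · rw [if_neg hcop, Nat.cast_zero, zero_mul]
            refine Finset.sum_eq_zero fun c _ => ?_
            rw [if_neg]
            rintro ⟨-, h6, -⟩
            rw [prm_iff, c.2] at h6
            exact hcop h6
        rw [← h4]
        exact hasSum_fintype _
    exact h3.tsum_eq.symm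

theorem deriv_partial_zeta (hk : IsIQ k) {N : ℕ} (hN : 3 ≤ N) (hm : IsMod k M N)
    {G : Finset (Ideal (𝓞 k))} (hG : IsCls N G) {Zg : Ideal (𝓞 k) → ℂ → ℂ}
    (hZ : ∀ 𝔤 ∈ G, IsEps (LatI 𝔤) (ptt N (1 : 𝓞 k)) (Zg 𝔤)) {σ : Gal(M/k)} {Z : ℂ → ℂ}
    (h : IsPartialZeta N σ Z) :
    deriv Z 0 = ∑ 𝔤 ∈ G, open Classical in
      if (art 𝔤 : Gal(M/k)) = σ then deriv (Zg 𝔤) 0 else 0 := by
  classical
  have h1 := partial_zeta hk hN hm hG hZ σ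
  have h2 := zp_eqOn h h1
  have h3 : Z =ᶠ[nhds 0] fun s => ∑ 𝔤 ∈ G, if (art 𝔤 : Gal(M/k)) = σ then
      (((Ideal.absNorm 𝔤 : ℝ) * (N : ℝ) ^ 2 : ℝ) : ℂ) ^ (-s) * Zg 𝔤 s else 0 := by
    have h4 : ({1}ᶜ : Set ℂ) ∈ nhds (0 : ℂ) := isOpen_compl_singleton.mem_nhds (by simp)
    filter_upwards [h4] with s hs
    rw [h2 hs]
  rw [h3.deriv_eq]
  have h5 : HasDerivAt (fun s => ∑ 𝔤 ∈ G, if (art 𝔤 : Gal(M/k)) = σ then
      (((Ideal.absNorm 𝔤 : ℝ) * (N : ℝ) ^ 2 : ℝ) : ℂ) ^ (-s) * Zg 𝔤 s else 0)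
      (∑ 𝔤 ∈ G, if (art 𝔤 : Gal(M/k)) = σ then deriv (Zg 𝔤) 0 else 0) 0 := by
    refine HasDerivAt.fun_sum fun 𝔤 h𝔤 => ?_
    by_cases hσ : (art 𝔤 : Gal(M/k)) = σ
    · simp only [if_pos hσ]
      have hd : HasDerivAt (Zg 𝔤) (deriv (Zg 𝔤) 0) 0 :=
        ((hZ 𝔤 h𝔤).diff.differentiableAt (isOpen_compl_singleton.mem_nhds (by simp))).hasDerivAt
      have hc := zp_ne (k := k) hN (hG.ne 𝔤 h𝔤)
      have hp : HasDerivAt (fun s : ℂ =>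
          (((Ideal.absNorm 𝔤 : ℝ) * (N : ℝ) ^ 2 : ℝ) : ℂ) ^ (-s)) _ 0 :=
        (hasDerivAt_id (0 : ℂ)).neg.const_cpow (Or.inl hc)
      have h6 := hp.mul hd
      rw [(hZ 𝔤 h𝔤).zero, mul_zero, zero_add, neg_zero, Complex.cpow_zero, one_mul] at h6
      exact h6
    · simp only [if_neg hσ]
      exact hasDerivAt_const _ _
  exact h5.deriv

end Pool.Agent.CMR
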