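import Pool.Agent.CMR.ADefs
import Pool.Agent.CMG.IntVal

/-!
# G-ALG elements of all valuation rings containing Q are algebraic

If `x` is transcendental over `ℚ` then `1/x` is not a unit of the ring `ℚ[1/x]`; a maximal ideal of it containing `1/x` is dominated by a valuation ring `V` of
`ℂ` (`LocalSubring.exists_le_valuationSubring` or as in `CMG/IntVal.lean`, `isIntegral_of_valuation`), so `|1/x| < 1`, `|x| > 1`, and `ℚ ⊆ V`, so `|q| = 1` for all
`q ≠ 0`. (Equivalently: the integral closure of `ℚ` is the intersection of the valuation rings containing it.)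
-/

set_option autoImplicit false

noncomputable section

open NumberField Pool.Agent.StarkRQ
open scoped PeriodPair

namespace Pool.Agent.CMR

/-- an element of all valuation rings of `ℂ` containing `ℚ` is algebraic -/
theorem isAlgebraic_of_valuation {x : ℂ}
    (h : ∀ V : ValuationSubring ℂ, (∀ q : ℕ, q ≠ 0 → V.valuation (q : ℂ) = 1) →
      V.valuation x ≤ 1) : IsAlgebraic ℚ x := by
  have h1 : x ∈ (integralClosure (Subring.closure (Set.range (algebraMap ℚ ℂ))) ℂ).toSubring := by
    rw [← iInf_valuationSubring_superset, Subring.mem_iInf]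
    intro V
    refine (ValuationSubring.valuation_le_one_iff _ x).1 (h V.1 fun q hq => ?_)
    have hqV : (q : ℂ) ∈ V.1 := V.2 ⟨(q : ℚ), by simp⟩
    have hqV' : ((q : ℂ))⁻¹ ∈ V.1 := V.2 ⟨((q : ℚ))⁻¹, by simp⟩
    have hq0 : (q : ℂ) ≠ 0 := Nat.cast_ne_zero.2 hq
    have a1 := (ValuationSubring.valuation_le_one_iff V.1 (q : ℂ)).2 hqV
    have a2 := (ValuationSubring.valuation_le_one_iff V.1 ((q : ℂ))⁻¹).2 hqV'
    have a3 : V.1.valuation (q : ℂ) * V.1.valuation ((q : ℂ))⁻¹ = 1 := by
      rw [← map_mul, mul_inv_cancel₀ hq0, map_one]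
    refine le_antisymm a1 ?_
    calc (1 : _) = V.1.valuation (q : ℂ) * V.1.valuation ((q : ℂ))⁻¹ := a3.symm
      _ ≤ V.1.valuation (q : ℂ) * 1 := mul_le_mul_right a2 _
      _ = V.1.valuation (q : ℂ) := mul_one _
  have h2 : IsIntegral (Subring.closure (Set.range (algebraMap ℚ ℂ))) x := h1
  obtain ⟨p, hp, hpx⟩ := h2
  have hle : Subring.closure (Set.range (algebraMap ℚ ℂ)) ≤ (algebraMap ℚ ℂ).range := by
    rw [Subring.closure_le]
    rintro _ ⟨q, rfl⟩
    exact ⟨q, rfl⟩
  have hlift : p.map (Subring.closure (Set.range (algebraMap ℚ ℂ))).subtype ∈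
      Polynomial.lifts (algebraMap ℚ ℂ) := by
    rw [Polynomial.lifts_iff_coeff_lifts]
    intro n
    rw [Polynomial.coeff_map]
    exact hle (p.coeff n).2
  obtain ⟨r, hr, hdeg, hmon⟩ := Polynomial.lifts_and_degree_eq_and_monic hlift (hp.map _)
  refine IsIntegral.isAlgebraic ⟨r, hmon, ?_⟩
  rw [← Polynomial.eval_map, hr, Polynomial.eval_map]
  exact hpx

end Pool.Agent.CMR
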