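import Pool.Agent.CMR.GVal
import Pool.Agent.CMG.IntVal

/-!
# G-FROB almost all Frobenius elements act by multiplication of ideals

The set `W ⊆ F` of all `τ (X 𝔤 a)`, `τ ∈ Gal(F/k)`, `𝔤`, `a` as in `hX`, is finite (`κ` is injective, `crI_congr_class`, `crI_congr_pt`, `exists_isCls`). For every nonzero `f ∈ F` there is `B_f ≠ 0` with
`B_f f` and `B_f / f` integral. `B` = `n` times the product of the `B_f` for `f = u` and `f = u - v`, `u, v ∈ W`, `f ≠ 0`. Let `𝔓 ∌ B`, `𝔭 = 𝔓 ∩ 𝓞 k`, `V` from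
`CMG.exists_valuationSubring κ 𝔓`: `|n| = 1`, `|κ x| < 1` for `x ∈ 𝔭` (`hκ`). For `u = X 𝔤 a` we have `u = α/B'` with `α` integral and `B' ∉ 𝔓` (a product of the `B_f`), so
`|κ(φ u - u^{N𝔭})| < 1` (from the congruences for `α` and `B'`: `φ u - u^q = (φ α B'^q - α^q φ B')/(B'^q φ B')`). `crI_frob`: `|κ(X (𝔤𝔭) a) - κ(X 𝔤 a)^{N𝔭}| < 1`. So `f = φ(X 𝔤 a) - X (𝔤𝔭) a` satisfies
`|κ f| < 1`, but if `f ≠ 0` then `B_f/f` is integral with `|B_f| = 1`, so `|κ f| ≥ 1`; hence `f = 0`. (`𝔤𝔭` is prime to `n` as `n ∉ 𝔓`.)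
-/

set_option autoImplicit false

noncomputable section

open NumberField Pool.Agent.StarkRQ
open scoped PeriodPair

namespace Pool.Agent.CMR

/-- the values form a finite set -/
private theorem gf_finite {k : Type} [Field k] [NumberField k] [Algebra k ℂ] (hk : IsIQ k) {n : ℕ}
    (hn : n ≠ 0) {F : Type} [Field F] (κ : F →+* ℂ) (X : Ideal (𝓞 k) → 𝓞 k → F)
    (hX : ∀ 𝔤 : Ideal (𝓞 k), 𝔤 ≠ ⊥ → Prm n 𝔤 → ∀ a : 𝓞 k, ¬ (n : 𝓞 k) ∣ a →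
      κ (X 𝔤 a) = crI n 𝔤 a) :
    {u : F | ∃ 𝔤 : Ideal (𝓞 k), 𝔤 ≠ ⊥ ∧ Prm n 𝔤 ∧ ∃ a : 𝓞 k, ¬ (n : 𝓞 k) ∣ a ∧
      u = X 𝔤 a}.Finite := by
  classical
  obtain ⟨G, hG⟩ := exists_isCls (k := k) hn
  have hn0 : Ideal.span {(n : 𝓞 k)} ≠ ⊥ := by
    rw [Ne, Ideal.span_singleton_eq_bot]
    exact_mod_cast hn
  have : Finite (𝓞 k ⧸ Ideal.span {(n : 𝓞 k)}) := Ideal.finiteQuotientOfFreeOfNeBot _ hn0
  have hfin : (Set.range fun z : G × (𝓞 k ⧸ Ideal.span {(n : 𝓞 k)}) =>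
      X (z.1 : Ideal (𝓞 k)) (Quotient.out z.2)).Finite := Set.finite_range _
  refine hfin.subset ?_
  rintro u ⟨𝔤, h0, hp, a, ha, rfl⟩
  obtain ⟨𝔥, h𝔥, hr⟩ := hG.ex 𝔤 h0 hp
  have hd : (n : 𝓞 k) ∣ a - Quotient.out (Ideal.Quotient.mk (Ideal.span {(n : 𝓞 k)}) a) := by
    rw [← Ideal.mem_span_singleton, ← Ideal.Quotient.eq]
    exact (Ideal.Quotient.mk_out _).symm
  have hd' : ¬ (n : 𝓞 k) ∣ Quotient.out (Ideal.Quotient.mk (Ideal.span {(n : 𝓞 k)}) a) := by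
    intro h
    apply ha
    have := dvd_add hd h
    rwa [sub_add_cancel] at this
  refine ⟨(⟨𝔥, h𝔥⟩, Ideal.Quotient.mk _ a), ?_⟩
  apply κ.injective
  show κ (X 𝔥 (Quotient.out (Ideal.Quotient.mk (Ideal.span {(n : 𝓞 k)}) a))) = κ (X 𝔤 a)
  rw [hX 𝔥 (hG.ne 𝔥 h𝔥) (hG.prm 𝔥 h𝔥) _ hd', hX 𝔤 h0 hp a ha,
    crI_congr_class hk hn h0 (hG.ne 𝔥 h𝔥) hp (hG.prm 𝔥 h𝔥) hr a,
    crI_congr_pt hk hn (hG.ne 𝔥 h𝔥) hd]

private theorem gf_frob {F : Type} [Field F] [NumberField F] (κ : F →+* ℂ)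
    {𝔓 : Ideal (𝓞 F)} (V : ValuationSubring ℂ) (hV1 : ∀ x : 𝓞 F, κ (x : F) ∈ V)
    (hV2 : ∀ x : 𝓞 F, x ∈ 𝔓 ↔ V.valuation (κ (x : F)) < 1)
    (hV3 : ∀ x : F, κ x ∈ V → ∃ a b : 𝓞 F, b ∉ 𝔓 ∧ x * (b : F) = (a : F)) (τ : F ≃+* F) {q : ℕ}
    (hτv : ∀ y : 𝓞 F, V.valuation (κ (τ (y : F)) - κ (y : F) ^ q) < 1) {u : F} (hu : κ u ∈ V) :
    V.valuation (κ (τ u) - κ u ^ q) < 1 := by
  obtain ⟨a, b, hb, hab⟩ := hV3 u hu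
  have hle : ∀ y : 𝓞 F, V.valuation (κ (y : F)) ≤ 1 := fun y =>
    (ValuationSubring.valuation_le_one_iff V _).2 (hV1 y)
  have hbv : V.valuation (κ (b : F)) = 1 :=
    le_antisymm (hle b) (not_lt.1 fun h => hb ((hV2 b).2 h))
  have hbq : V.valuation (κ (b : F) ^ q) = 1 := by
    rw [map_pow, hbv, one_pow]
  have hτb : V.valuation (κ (τ (b : F))) = 1 := by
    have h1 : κ (τ (b : F)) = (κ (τ (b : F)) - κ (b : F) ^ q) + κ (b : F) ^ q := by ring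
    rw [h1, Valuation.map_add_eq_of_lt_right _ (by rw [hbq]; exact hτv b), hbq]
  have e1 : κ u * κ (b : F) = κ (a : F) := by
    rw [← map_mul, hab]
  have e2 : κ (τ u) * κ (τ (b : F)) = κ (τ (a : F)) := by
    rw [← map_mul, ← map_mul, hab]
  have e3 : (κ (τ u) - κ u ^ q) * (κ (τ (b : F)) * κ (b : F) ^ q) =
      (κ (τ (a : F)) - κ (a : F) ^ q) * κ (b : F) ^ q -
        κ (a : F) ^ q * (κ (τ (b : F)) - κ (b : F) ^ q) := by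
    rw [← e1, ← e2]
    ring
  have h6 : V.valuation ((κ (τ u) - κ u ^ q) *
      (κ (τ (b : F)) * κ (b : F) ^ q)) < 1 := by
    rw [e3]
    refine Valuation.map_sub_lt _ ?_ ?_
    · rw [map_mul, hbq, mul_one]
      exact hτv a
    · rw [map_mul]
      have h7 : V.valuation (κ (a : F) ^ q) ≤ 1 := by
        rw [map_pow]
        exact pow_le_one' (hle a) q
      exact mul_lt_one_of_nonneg_of_lt_one_right h7 zero_le (hτv b)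
  rwa [map_mul, map_mul, hτb, hbq, mul_one, mul_one] at h6

/-- almost all Frobenius elements act on the values by multiplication of ideals -/
theorem frob_acts_almost {k : Type} [Field k] [NumberField k] [Algebra k ℂ] (hk : IsIQ k) {n : ℕ}
    (hn : 5 ≤ n) {F : Type} [Field F] [NumberField F] [Algebra k F] [IsGalois k F] (κ : F →+* ℂ)
    (hκ : ∀ x : k, κ (algebraMap k F x) = algebraMap k ℂ x) (X : Ideal (𝓞 k) → 𝓞 k → F)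
    (hX : ∀ 𝔤 : Ideal (𝓞 k), 𝔤 ≠ ⊥ → Prm n 𝔤 → ∀ a : 𝓞 k, ¬ (n : 𝓞 k) ∣ a →
      κ (X 𝔤 a) = crI n 𝔤 a) :
    ∃ B : ℕ, B ≠ 0 ∧ n ∣ B ∧ ∀ (𝔓 : Ideal (𝓞 F)) (φ : Gal(F/k)), 𝔓.IsPrime → 𝔓 ≠ ⊥ →
      (B : 𝓞 F) ∉ 𝔓 →
      (∀ x : 𝓞 F, φ • x - x ^ Ideal.absNorm (𝔓.comap (algebraMap (𝓞 k) (𝓞 F))) ∈ 𝔓) →
      ∀ 𝔤 : Ideal (𝓞 k), 𝔤 ≠ ⊥ → Prm n 𝔤 → ∀ a : 𝓞 k, ¬ (n : 𝓞 k) ∣ a →
        φ (X 𝔤 a) = X (𝔤 * 𝔓.comap (algebraMap (𝓞 k) (𝓞 F))) a := by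
  classical
  have hn0 : n ≠ 0 := by omega
  have hfin := gf_finite hk hn0 κ X hX
  set S : Set F := {u : F | ∃ 𝔤 : Ideal (𝓞 k), 𝔤 ≠ ⊥ ∧ Prm n 𝔤 ∧ ∃ a : 𝓞 k, ¬ (n : 𝓞 k) ∣ a ∧
      u = X 𝔤 a} with hS
  have hfinG : Finite Gal(F/k) := inferInstance
  have hT : {f : F | ∃ (φ : Gal(F/k)), ∃ u ∈ S, ∃ v ∈ S, f = (φ u - v)⁻¹}.Finite := by
    have h1 : (Set.univ ×ˢ (S ×ˢ S) : Set (Gal(F/k) × F × F)).Finite :=
      Set.finite_univ.prod (hfin.prod hfin)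
    refine (h1.image fun z => (z.1 z.2.1 - z.2.2)⁻¹).subset ?_
    rintro f ⟨φ, u, hu, v, hv, rfl⟩
    exact ⟨(φ, u, v), ⟨Set.mem_univ _, hu, hv⟩, rfl⟩
  have halg : Algebra.IsAlgebraic ℤ F :=
    (IsFractionRing.comap_isAlgebraic_iff (A := ℤ) (K := ℚ) (C := F)).2 inferInstance
  obtain ⟨y, hy0, hy⟩ := Algebra.IsAlgebraic.exists_integral_multiples ℤ hT.toFinset
  refine ⟨n * y.natAbs, mul_ne_zero hn0 (Int.natAbs_ne_zero.2 hy0), dvd_mul_right _ _, ?_⟩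
  intro 𝔓 φ h𝔓 h𝔓0 hB hφ 𝔤 h0 hp a ha
  obtain ⟨V, hV1, hV2, hV3⟩ := CMG.exists_valuationSubring κ 𝔓 h𝔓
  have hle : ∀ y : 𝓞 F, V.valuation (κ (y : F)) ≤ 1 := fun y =>
    (ValuationSubring.valuation_le_one_iff V _).2 (hV1 y)
  have hn𝔓 : (n : 𝓞 F) ∉ 𝔓 := by
    intro h
    apply hB
    push_cast
    exact Ideal.mul_mem_right _ _ h
  have hy𝔓 : ((y.natAbs : ℕ) : 𝓞 F) ∉ 𝔓 := by
    intro h
    apply hB
    push_cast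
    exact Ideal.mul_mem_left _ _ h
  have hval : ∀ m : ℕ, (m : 𝓞 F) ∉ 𝔓 → V.valuation (m : ℂ) = 1 := by
    intro m hm
    have h1 := hle (m : 𝓞 F)
    have h2 := mt (hV2 (m : 𝓞 F)).2 hm
    have e : κ (((m : 𝓞 F) : 𝓞 F) : F) = (m : ℂ) := by simp
    rw [e] at h1 h2
    exact le_antisymm h1 (not_lt.1 h2)
  have hVn := hval n hn𝔓
  have hVy : V.valuation (y : ℂ) = 1 := by
    have h1 := hval _ hy𝔓
    rcases Int.natAbs_eq y with h | h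
    · rw [h, Int.cast_natCast]
      exact h1
    · rw [h, Int.cast_neg, Int.cast_natCast, Valuation.map_neg]
      exact h1
  set 𝔭 := 𝔓.comap (algebraMap (𝓞 k) (𝓞 F)) with h𝔭def
  have h𝔭 : 𝔭.IsPrime := Ideal.comap_isPrime _ _
  have h𝔭0 : 𝔭 ≠ ⊥ := Ideal.IsIntegral.comap_ne_bot (R := 𝓞 k) h𝔓0
  have h𝔭V : ∀ x ∈ 𝔭, V.valuation (algebraMap k ℂ (x : k)) < 1 := by
    intro x hx
    have h1 : algebraMap (𝓞 k) (𝓞 F) x ∈ 𝔓 := hx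
    have h2 := (hV2 _).1 h1
    have h3 : ((algebraMap (𝓞 k) (𝓞 F) x : 𝓞 F) : F) = algebraMap k F (x : k) := rfl
    rwa [h3, hκ] at h2
  have hp𝔭 : Prm n 𝔭 := by
    have hmax : 𝔭.IsMaximal := h𝔭.isMaximal h𝔭0
    have hn𝔭 : (n : 𝓞 k) ∉ 𝔭 := by
      intro h
      apply hn𝔓
      have : algebraMap (𝓞 k) (𝓞 F) (n : 𝓞 k) ∈ 𝔓 := h
      rwa [map_natCast] at this
    unfold Prm
    rw [Ideal.isCoprime_iff_sup_eq]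
    refine hmax.out.2 _ (lt_of_le_of_ne le_sup_left ?_)
    intro h
    apply hn𝔭
    rw [h]
    exact Ideal.mem_sup_right (Ideal.mem_span_singleton_self _)
  have hp' : Prm n (𝔤 * 𝔭) := IsCoprime.mul_left hp hp𝔭
  have h0' : 𝔤 * 𝔭 ≠ ⊥ := mul_ne_zero h0 h𝔭0
  have hcf := crI_frob hk V hn hVn h0 hp h𝔭 h𝔭0 h𝔭V ha
  have hci := crI_integral hk V hn hVn h0 hp ha
  have hκu : κ (X 𝔤 a) ∈ V := by
    rw [hX 𝔤 h0 hp a ha]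
    exact (ValuationSubring.valuation_le_one_iff V _).1 hci
  have hτv : ∀ y : 𝓞 F, V.valuation (κ ((φ : F ≃+* F) (y : F)) -
      κ (y : F) ^ Ideal.absNorm 𝔭) < 1 := by
    intro y
    have h1 := (hV2 _).1 (hφ y)
    have h2 : (((φ • y - y ^ Ideal.absNorm 𝔭 : 𝓞 F)) : F) = φ (y : F) -
      (y : F) ^ Ideal.absNorm 𝔭 := rfl
    rw [h2, map_sub, map_pow] at h1
    exact h1
  have h5 := gf_frob κ V hV1 hV2 hV3 (φ : F ≃+* F) hτv hκu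
  have h6 : V.valuation (κ (φ (X 𝔤 a) - X (𝔤 * 𝔭) a)) < 1 := by
    have e : κ (φ (X 𝔤 a) - X (𝔤 * 𝔭) a) = (κ (φ (X 𝔤 a)) - κ (X 𝔤 a) ^ Ideal.absNorm 𝔭) -
        (crI n (𝔤 * 𝔭) a - crI n 𝔤 a ^ Ideal.absNorm 𝔭) := by
      rw [map_sub, hX _ h0' hp' a ha, hX 𝔤 h0 hp a ha]
      ring
    rw [e]
    exact Valuation.map_sub_lt _ h5 hcf
  by_contra hne
  have hf0 : φ (X 𝔤 a) - X (𝔤 * 𝔭) a ≠ 0 := sub_ne_zero.2 hne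
  have hint := hy (φ (X 𝔤 a) - X (𝔤 * 𝔭) a)⁻¹ (by
    rw [Set.Finite.mem_toFinset]
    exact ⟨φ, _, ⟨𝔤, h0, hp, a, ha, rfl⟩, _, ⟨_, h0', hp', a, ha, rfl⟩, rfl⟩)
  have h7 := hle ⟨_, hint⟩
  have e7 : κ (y • (φ (X 𝔤 a) - X (𝔤 * 𝔭) a)⁻¹) = (y : ℂ) *
      (κ (φ (X 𝔤 a) - X (𝔤 * 𝔭) a))⁻¹ := by
    rw [zsmul_eq_mul, map_mul, map_intCast, map_inv₀]
  have h8 : V.valuation (κ (y • (φ (X 𝔤 a) - X (𝔤 * 𝔭) a)⁻¹)) ≤ 1 := h7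
  rw [e7, map_mul, hVy, one_mul, map_inv₀] at h8
  have h9 : V.valuation (κ (φ (X 𝔤 a) - X (𝔤 * 𝔭) a)) ≠ 0 := by
    rw [Valuation.ne_zero_iff]
    exact (map_ne_zero κ).2 hf0
  exact absurd h8 (not_le.2 ((one_lt_inv₀ (zero_lt_iff.2 h9)).2 h6))

end Pool.Agent.CMR
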