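import Pool.Agent.CMR.IAA
import Pool.Agent.CMG.PDiff
import Pool.Agent.CMG.PInj
import Pool.Agent.CMG.PProd

/-!
# I-A2 explicit form of the constants AA 2 and AA 3

`2 card R = idx - 1`, so `2^{idx-1} = ∏_{s ∈ R} 4`, `3^{idx-1} = ∏_{s ∈ R} 9`, and `∏_{t ∈ T} DD(t) = ∏_{s ∈ R} ∏_{t ∈ T} (℘ t - ℘ s)`.
`m = 2`: `℘ t` (`t ∈ T`, three points, `2 t ∈ L`) are the three different roots of `4 X³ - g₂ X - g₃` (`℘' t = 0`, `CMG.P'_eq_zero_iff`,
`derivWeierstrassP_sq`), so `4 ∏_t (X - ℘ t) = 4 X³ - g₂ X - g₃` and `4 ∏_t (℘ t - ℘ s) = -℘'(s)²`.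
`m = 3`: for `t ∈ T` (eight points) `℘(2 t) = ℘(t)` and `CMG.P_dup` give `ψ(℘ t) = 0`, `ψ = 3 X⁴ - (3/2) g₂ X² - 3 g₃ X - g₂²/16`; the
eight points give four different values, each twice (`t` and `-t`), so `ψ = 3 ∏ (X - x_i)` and
`9 ∏_{t ∈ T} (℘ t - ℘ s) = ψ(℘ s)²`; by `P_dup` and `℘'² = 4℘³ - g₂℘ - g₃`: `ψ(℘ s) = ℘'(s)² (℘ s - ℘(2 s))` (`2 s ∉ L`).
`Psi_eq`: `AA 2³/(AA 3 · DD)`, cancel `℘'(s)⁴` (`℘' s ≠ 0` since `2 s ∉ L`).
-/

set_option autoImplicit false

noncomputable section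

open Filter Topology
open scoped PeriodPair

namespace Pool.Agent.CMR

open Pool.Agent.CMG.PInjAux in
private lemma ia_eq_of (L : PeriodPair) {u v : ℂ} (h : u - v ∈ L.lattice ∨ u + v ∈ L.lattice) :
    ℘[L] u = ℘[L] v := by
  rcases h with h | h
  · have h1 := P_add L h v
    rw [add_sub_cancel] at h1
    exact h1
  · have h1 := P_add L h (-v)
    rw [L.weierstrassP_neg, show -v + (u + v) = u by ring] at h1
    exact h1

private lemma ia_AA {L L' : PeriodPair} {R : Finset ℂ} (hR : IsHalf L L' R)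
    (ho : Odd (idx L L')) (m : ℕ) :
    AA m L L' = ∏ s ∈ R, ((m : ℂ) ^ 2 * ∏ t ∈ torT m L, (℘[L] t - ℘[L] s)) := by
  have h1 := hR.card ho
  have h2 : idx L L' - 1 = 2 * R.card := by omega
  unfold AA
  rw [h2, pow_mul, Finset.prod_mul_distrib, Finset.prod_const, Finset.prod_comm]
  congr 1
  exact Finset.prod_congr rfl fun t _ => DD_eq_prod hR t

private lemma ia_roots {p : Polynomial ℂ} {n : ℕ} {a : ℂ} (hn : p.natDegree = n)
    (ha : p.leadingCoeff = a) (ha0 : a ≠ 0) {V : Finset ℂ} (hV : V.card = n)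
    (hroot : ∀ v ∈ V, p.eval v = 0) (x : ℂ) : p.eval x = a * ∏ v ∈ V, (x - v) := by
  have hp : p ≠ 0 := by
    rintro rfl
    exact ha0 (by rw [← ha, Polynomial.leadingCoeff_zero])
  have h1 : p.roots = V.val := by
    refine Polynomial.roots_eq_of_degree_le_card_of_ne_zero hroot ?_ hp
    rw [Polynomial.degree_eq_natDegree hp, hn, hV]
  have h2 := Polynomial.C_leadingCoeff_mul_prod_multiset_X_sub_C (p := p)
    (by rw [h1, hn, ← hV]; rfl)
  rw [← h2, h1, ha, Polynomial.eval_mul, Polynomial.eval_C, Polynomial.eval_multiset_prod,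
    Multiset.map_map]
  simp only [Function.comp_def, Polynomial.eval_sub, Polynomial.eval_X, Polynomial.eval_C]
  rfl

private lemma ia_cubic {V : Finset ℂ} (hV : V.card = 3) {b c : ℂ}
    (h : ∀ v ∈ V, 4 * v ^ 3 - b * v - c = 0) (x : ℂ) :
    4 * x ^ 3 - b * x - c = 4 * ∏ v ∈ V, (x - v) := by
  have hev : ∀ y, (Polynomial.C 4 * Polynomial.X ^ 3 - Polynomial.C b * Polynomial.X -
    Polynomial.C c : Polynomial ℂ).eval y = 4 * y ^ 3 - b * y - c := by
    intro y
    simp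
  have hdeg : (Polynomial.C 4 * Polynomial.X ^ 3 - Polynomial.C b * Polynomial.X -
    Polynomial.C c : Polynomial ℂ).natDegree = 3 := by
    compute_degree!
  have hlead : (Polynomial.C 4 * Polynomial.X ^ 3 - Polynomial.C b * Polynomial.X -
    Polynomial.C c : Polynomial ℂ).leadingCoeff = 4 := by
    rw [Polynomial.leadingCoeff, hdeg]
    simp [Polynomial.coeff_X, Polynomial.coeff_C]
  have key := ia_roots hdeg hlead (by norm_num) hV (fun v hv => (hev v).trans (h v hv)) x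
  rwa [hev] at key

private lemma ia_quartic {V : Finset ℂ} (hV : V.card = 4) {b c d : ℂ}
    (h : ∀ v ∈ V, 3 * v ^ 4 - b * v ^ 2 - c * v - d = 0) (x : ℂ) :
    3 * x ^ 4 - b * x ^ 2 - c * x - d = 3 * ∏ v ∈ V, (x - v) := by
  have hev : ∀ y, (Polynomial.C 3 * Polynomial.X ^ 4 - Polynomial.C b * Polynomial.X ^ 2 -
    Polynomial.C c * Polynomial.X - Polynomial.C d : Polynomial ℂ).eval y =
      3 * y ^ 4 - b * y ^ 2 - c * y - d := by
    intro y
    simp
  have hdeg : (Polynomial.C 3 * Polynomial.X ^ 4 - Polynomial.C b * Polynomial.X ^ 2 -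
    Polynomial.C c * Polynomial.X - Polynomial.C d : Polynomial ℂ).natDegree = 4 := by
    compute_degree!
  have hlead : (Polynomial.C 3 * Polynomial.X ^ 4 - Polynomial.C b * Polynomial.X ^ 2 -
    Polynomial.C c * Polynomial.X - Polynomial.C d : Polynomial ℂ).leadingCoeff = 3 := by
    rw [Polynomial.leadingCoeff, hdeg]
    simp [Polynomial.coeff_X, Polynomial.coeff_C, Polynomial.coeff_X_pow]
  have key := ia_roots hdeg hlead (by norm_num) hV (fun v hv => (hev v).trans (h v hv)) x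
  rwa [hev] at key

private lemma ia_two (L : PeriodPair) (x : ℂ) :
    ((2 : ℕ) : ℂ) ^ 2 * ∏ t ∈ torT 2 L, (℘[L] t - x) = -(4 * x ^ 3 - L.g₂ * x - L.g₃) := by
  classical
  have hT := isTors_torT (m := 2) (by norm_num) L
  have hc := IsTors.card (by norm_num) hT
  have h2 : ∀ t ∈ torT 2 L, 2 * t ∈ L.lattice := fun t ht => by
    have := hT.mem t ht
    push_cast at this
    exact this
  have hinj : Set.InjOn ℘[L] (torT 2 L : Set ℂ) := by
    intro s hs t ht h
    rcases CMG.P_inj L (hT.notMem s hs) (hT.notMem t ht) h with h1 | h1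
    · exact hT.inj s hs t ht h1
    · refine hT.inj s hs t ht ?_
      have h3 := Submodule.sub_mem _ h1 (h2 t ht)
      rwa [show s + t - 2 * t = s - t by ring] at h3
  have hcard : ((torT 2 L).image ℘[L]).card = 3 := by
    rw [Finset.card_image_of_injOn hinj, hc]
    norm_num
  have key := ia_cubic hcard (b := L.g₂) (c := L.g₃) (fun v hv => by
    obtain ⟨t, ht, rfl⟩ := Finset.mem_image.1 hv
    rw [← L.derivWeierstrassP_sq t (hT.notMem t ht),
      (CMG.P'_eq_zero_iff L (hT.notMem t ht)).2 (h2 t ht)]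
    norm_num) x
  rw [Finset.prod_image hinj] at key
  rw [key]
  have h3 : ∏ t ∈ torT 2 L, (℘[L] t - x) = (-1) ^ 3 * ∏ t ∈ torT 2 L, (x - ℘[L] t) := by
    have h4 : (torT 2 L).card = 3 := by
      rw [hc]
      norm_num
    rw [← h4, ← Finset.prod_const, ← Finset.prod_mul_distrib]
    exact Finset.prod_congr rfl fun t _ => by ring
  rw [h3]
  push_cast
  ring

private lemma ia_three (L : PeriodPair) (x : ℂ) :
    ((3 : ℕ) : ℂ) ^ 2 * ∏ t ∈ torT 3 L, (℘[L] t - x) =
      (3 * x ^ 4 - 3 / 2 * L.g₂ * x ^ 2 - 3 * L.g₃ * x - L.g₂ ^ 2 / 16) ^ 2 := by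
  classical
  have hT := isTors_torT (m := 3) (by norm_num) L
  have hc := IsTors.card (by norm_num) hT
  have h3 : ∀ t ∈ torT 3 L, 3 * t ∈ L.lattice := fun t ht => by
    have := hT.mem t ht
    push_cast at this
    exact this
  have h2 : ∀ t ∈ torT 3 L, 2 * t ∉ L.lattice := fun t ht h => by
    have h4 := Submodule.sub_mem _ (h3 t ht) h
    rw [show 3 * t - 2 * t = t by ring] at h4
    exact hT.notMem t ht h4
  -- the fibres have two elements
  have hfib : ∀ v ∈ (torT 3 L).image ℘[L], ((torT 3 L).filter fun t => ℘[L] t = v).card = 2 := by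
    intro v hv
    obtain ⟨t, ht, rfl⟩ := Finset.mem_image.1 hv
    obtain ⟨t', ht', h5⟩ := hT.ex (-t) (by
      have h6 := Submodule.neg_mem _ (hT.mem t ht)
      rwa [← mul_neg] at h6) fun h => hT.notMem t ht (by simpa using Submodule.neg_mem _ h)
    have h6 : t' + t ∈ L.lattice := by
      have h7 := Submodule.neg_mem _ h5
      rwa [show -(-t - t') = t' + t by ring] at h7
    have hne : t ≠ t' := by
      rintro rfl
      apply h2 t ht
      rwa [two_mul]
    have h8 : ((torT 3 L).filter fun s => ℘[L] s = ℘[L] t) = {t, t'} := by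
      ext s
      rw [Finset.mem_filter, Finset.mem_insert, Finset.mem_singleton]
      constructor
      · rintro ⟨hs, h9⟩
        rcases CMG.P_inj L (hT.notMem s hs) (hT.notMem t ht) h9 with h10 | h10
        · exact Or.inl (hT.inj s hs t ht h10)
        · right
          refine hT.inj s hs t' ht' ?_
          have h11 := Submodule.sub_mem _ h10 h6
          rwa [show s + t - (t' + t) = s - t' by ring] at h11
      · rintro (rfl | rfl)
        · exact ⟨ht, rfl⟩
        · exact ⟨ht', ia_eq_of L (Or.inr h6)⟩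
    rw [h8, Finset.card_pair hne]
  have hcard : ((torT 3 L).image ℘[L]).card = 4 := by
    have h4 := Finset.card_eq_sum_card_image ℘[L] (torT 3 L)
    rw [Finset.sum_congr rfl hfib, Finset.sum_const, hc, smul_eq_mul] at h4
    omega
  have key := ia_quartic hcard (b := 3 / 2 * L.g₂) (c := 3 * L.g₃) (d := L.g₂ ^ 2 / 16)
    (fun v hv => by
      obtain ⟨t, ht, rfl⟩ := Finset.mem_image.1 hv
      have h5 := CMG.P_dup L (hT.notMem t ht) (h2 t ht)
      have h6 : ℘[L] (2 * t) = ℘[L] t := ia_eq_of L (Or.inr (by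
        have h7 := h3 t ht
        rwa [show 3 * t = 2 * t + t by ring] at h7))
      rw [h6, L.derivWeierstrassP_sq t (hT.notMem t ht)] at h5
      linear_combination h5) x
  rw [key]
  have h9 : ∏ t ∈ torT 3 L, (℘[L] t - x) = ∏ v ∈ (torT 3 L).image ℘[L], (v - x) ^ 2 := by
    rw [← Finset.prod_fiberwise_of_maps_to (s := torT 3 L) (t := (torT 3 L).image ℘[L])
      (g := ℘[L]) fun t ht => Finset.mem_image_of_mem _ ht]
    refine Finset.prod_congr rfl fun v hv => ?_
    rw [← hfib v hv, ← Finset.prod_const]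
    refine Finset.prod_congr rfl fun t ht => ?_
    rw [(Finset.mem_filter.1 ht).2]
  have h10 : ∏ v ∈ (torT 3 L).image ℘[L], (v - x) ^ 2 =
      (∏ v ∈ (torT 3 L).image ℘[L], (x - v)) ^ 2 := by
    rw [← Finset.prod_pow]
    exact Finset.prod_congr rfl fun v _ => by ring
  rw [h9, h10, mul_pow]
  push_cast
  ring

private lemma ia_odd {L L' : PeriodPair} (hc : (idx L L').Coprime 6) : Odd (idx L L') :=
  Nat.coprime_two_right.1 (hc.coprime_dvd_right (by norm_num))

theorem AA_two {L L' : PeriodPair} {R : Finset ℂ} (hR : IsHalf L L' R)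
    (hc : (idx L L').Coprime 6) : AA 2 L L' = ∏ s ∈ R, (-(℘'[L] s ^ 2)) := by
  rw [ia_AA hR (ia_odd hc)]
  refine Finset.prod_congr rfl fun s hs => ?_
  rw [ia_two, L.derivWeierstrassP_sq s (hR.notMem s hs)]

theorem AA_three {L L' : PeriodPair} {R : Finset ℂ} (hR : IsHalf L L' R)
    (hc : (idx L L').Coprime 6) :
    AA 3 L L' = ∏ s ∈ R, (℘'[L] s ^ 2 * (℘[L] s - ℘[L] (2 * s))) ^ 2 := by
  rw [ia_AA hR (ia_odd hc)]
  refine Finset.prod_congr rfl fun s hs => ?_
  rw [ia_three]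
  congr 1
  have h1 := CMG.P_dup L (hR.notMem s hs) (hR.two_mul_notMem (ia_odd hc) hs)
  rw [mul_sub, mul_comm (℘'[L] s ^ 2) (℘[L] (2 * s)), h1,
    L.derivWeierstrassP_sq s (hR.notMem s hs)]
  ring

theorem Psi_eq {L L' : PeriodPair} {R : Finset ℂ} (hR : IsHalf L L' R)
    (hc : (idx L L').Coprime 6) {z : ℂ} (hz : z ∉ L'.lattice) :
    Psi L L' z = ∏ s ∈ R, (-(℘'[L] s ^ 2) /
      ((℘[L] s - ℘[L] (2 * s)) ^ 2 * (℘[L] z - ℘[L] s))) := by
  unfold Psi
  rw [AA_two hR hc, AA_three hR hc, DD_eq_prod hR, ← Finset.prod_pow, ← Finset.prod_mul_distrib,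
    ← Finset.prod_div_distrib]
  refine Finset.prod_congr rfl fun s hs => ?_
  have h1 : ℘'[L] s ≠ 0 := fun h =>
    hR.two_mul_notMem (ia_odd hc) hs ((CMG.P'_eq_zero_iff L (hR.notMem s hs)).1 h)
  have h2 : (-(℘'[L] s ^ 2)) ^ 3 = (℘'[L] s ^ 4) * (-(℘'[L] s ^ 2)) := by ring
  have h3 : (℘'[L] s ^ 2 * (℘[L] s - ℘[L] (2 * s))) ^ 2 * (℘[L] z - ℘[L] s) =
      ℘'[L] s ^ 4 * ((℘[L] s - ℘[L] (2 * s)) ^ 2 * (℘[L] z - ℘[L] s)) := by ring
  rw [h2, h3, mul_div_mul_left _ _ (pow_ne_zero 4 h1)]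

end Pool.Agent.CMR
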