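import Pool.Agent.CMR.Defs

/-!
# I-REPS representatives, index, torsion points of lattices

`L'.lattice / L.lattice` is finite: both are free of rank `2` with `L ≤ L'` (`latticeBasis`; or: `L'` is finitely generated and
`L' ⊆ (1/D) L` for some `D`, as `L` spans the same `ℚ`-space... e.g. via discreteness and compactness; `AddSubgroup` index finite:
`ZLattice`/`Submodule.finiteQuotientOfFreeOfRankEq`). `idx_mul`: `AddSubgroup.relIndex_mul_relIndex`. `idx_congr`: multiplication by `c`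
is an isomorphism. `idx_mul_smul`: `L' = a⁻¹ L`; the index is the determinant of multiplication by `a` in the basis `ω₁, ω₂`, equal to
the real determinant `|a|²` (covolume: `ZLattice.covolume`, or `Matrix.det` of an integer matrix and
`Submodule.natAbs_det_equiv`/`AddSubgroup.index` of the range of an integer matrix). Representatives: choose from the finite quotient. The
group `L'/L` of odd order has no element of order `2`, so `s ↦ -s` has no fixed point `≠ 0`. `torT`: `m z ∈ L` iff `z = (i ω₁ + j ω₂)/m`,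
take `i, j` mod `m`. `of_le`: if `m t ∈ L`, `t ∈ L'`, then `n t ∈ L` with `n` the index prime to `m`, so `t ∈ L`; if `m z ∈ L'`, then
`n m z ∈ L`; with `u n ≡ 1` mod `m` (`u n = 1 + m v`) `z = u n z - m v z`; the point `u n z` is `m`-torsion mod `L`, and
`z - u n z = - v (m z) ∈ L'`.
-/

set_option autoImplicit false

noncomputable section

open Filter Topology
open scoped PeriodPair

namespace Pool.Agent.CMR

theorem idx_eq_covolume {L L' : PeriodPair} (h : L.lattice ≤ L'.lattice) :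
    (idx L L' : ℝ) = ZLattice.covolume L.lattice / ZLattice.covolume L'.lattice :=
  (ZLattice.covolume_div_covolume_eq_relIndex' L.lattice L'.lattice h).symm

theorem idx_pos {L L' : PeriodPair} (h : L.lattice ≤ L'.lattice) : 0 < idx L L' := by
  have h1 : (idx L L' : ℝ) ≠ 0 := by
    rw [idx_eq_covolume h]
    exact div_ne_zero (ZLattice.covolume_ne_zero _ _) (ZLattice.covolume_ne_zero _ _)
  exact Nat.pos_of_ne_zero fun h0 => h1 (by rw [h0, Nat.cast_zero])

theorem idx_mul {L L₁ L₂ : PeriodPair} (h : L.lattice ≤ L₁.lattice) (h₁ : L₁.lattice ≤ L₂.lattice) :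
    idx L L₂ = idx L L₁ * idx L₁ L₂ := by
  exact (AddSubgroup.relIndex_mul_relIndex _ _ _ h h₁).symm

theorem idx_congr {L L₁ M M₁ : PeriodPair} {c : ℂ} (hc : c ≠ 0)
    (h : ∀ z, c * z ∈ M.lattice ↔ z ∈ L.lattice) (h₁ : ∀ z, c * z ∈ M₁.lattice ↔ z ∈ L₁.lattice) :
    idx M M₁ = idx L L₁ := by
  have hM : L.lattice.toAddSubgroup = M.lattice.toAddSubgroup.comap (AddMonoidHom.mulLeft c) := by
    ext z
    exact (h z).symm
  have hM1 : L₁.lattice.toAddSubgroup = M₁.lattice.toAddSubgroup.comap (AddMonoidHom.mulLeft c) := by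
    ext z
    exact (h₁ z).symm
  have hsurj : Function.Surjective (AddMonoidHom.mulLeft c) := fun z =>
    ⟨c⁻¹ * z, by simp [hc]⟩
  unfold idx
  rw [hM, hM1, AddSubgroup.relIndex_comap, AddSubgroup.map_comap_eq_self_of_surjective hsurj]

theorem idx_smul_mem {L L' : PeriodPair} (h : L.lattice ≤ L'.lattice) {l : ℂ}
    (hl : l ∈ L'.lattice) : (idx L L' : ℂ) * l ∈ L.lattice := by
  have h1 := AddSubgroup.nsmul_relIndex_mem L.lattice.toAddSubgroup
    (K := L'.lattice.toAddSubgroup) (g := l) hl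
  rw [nsmul_eq_mul] at h1
  exact h1

/-- the lattice `c L` -/
def scaleP (L : PeriodPair) (c : ℂ) (hc : c ≠ 0) : PeriodPair where
  ω₁ := c * L.ω₁
  ω₂ := c * L.ω₂
  indep := by
    rw [LinearIndependent.pair_iff]
    intro s t h
    refine LinearIndependent.pair_iff.1 L.indep s t ?_
    have h1 : c * (s • L.ω₁ + t • L.ω₂) = 0 := by
      rw [← h]
      simp only [Complex.real_smul]
      ring
    exact (mul_eq_zero.1 h1).resolve_left hc

theorem mem_scaleP {L : PeriodPair} {c : ℂ} (hc : c ≠ 0) {z : ℂ} :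
    z ∈ (scaleP L c hc).lattice ↔ c⁻¹ * z ∈ L.lattice := by
  rw [PeriodPair.mem_lattice, PeriodPair.mem_lattice]
  refine exists_congr fun m => exists_congr fun n => ?_
  change (m : ℂ) * (c * L.ω₁) + n * (c * L.ω₂) = z ↔ _
  rw [eq_inv_mul_iff_mul_eq₀ hc]
  constructor <;> intro h <;> rw [← h] <;> ring

theorem covolume_eq (L : PeriodPair) : ZLattice.covolume L.lattice =
    |L.ω₁.re * L.ω₂.im - L.ω₂.re * L.ω₁.im| *
      MeasureTheory.volume.real (ZSpan.fundamentalDomain Complex.basisOneI) := by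
  rw [ZLattice.covolume_eq_det_mul_measureReal L.lattice MeasureTheory.volume L.latticeBasis
    Complex.basisOneI]
  congr 2
  rw [Module.Basis.det_apply, Matrix.det_fin_two]
  simp only [Module.Basis.toMatrix_apply, Function.comp_apply, Complex.coe_basisOneI_repr,
    PeriodPair.latticeBasis_zero, PeriodPair.latticeBasis_one]
  simp

theorem idx_mul_smul {L L' : PeriodPair} {a : ℂ} (ha : a ≠ 0)
    (h : ∀ z, z ∈ L'.lattice ↔ a * z ∈ L.lattice) (hle : L.lattice ≤ L'.lattice) :
    (idx L L' : ℝ) = ‖a‖ ^ 2 := by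
  rw [idx_eq_covolume hle]
  have hla : (scaleP L a⁻¹ (inv_ne_zero ha)).lattice = L'.lattice := by
    ext z
    rw [h z, mem_scaleP, inv_inv]
  rw [← hla, covolume_eq (scaleP L a⁻¹ (inv_ne_zero ha)), covolume_eq L]
  have h1 : ((scaleP L a⁻¹ (inv_ne_zero ha)).ω₁.re * (scaleP L a⁻¹ (inv_ne_zero ha)).ω₂.im -
      (scaleP L a⁻¹ (inv_ne_zero ha)).ω₂.re * (scaleP L a⁻¹ (inv_ne_zero ha)).ω₁.im) =
      (‖a‖ ^ 2)⁻¹ * (L.ω₁.re * L.ω₂.im - L.ω₂.re * L.ω₁.im) := by
    have h2 : (‖a‖ ^ 2)⁻¹ = a⁻¹.re * a⁻¹.re + a⁻¹.im * a⁻¹.im := by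
      have h3 := Complex.normSq_eq_norm_sq a⁻¹
      rw [norm_inv, inv_pow] at h3
      rw [← h3, Complex.normSq_apply]
    rw [h2]
    change (a⁻¹ * L.ω₁).re * (a⁻¹ * L.ω₂).im - (a⁻¹ * L.ω₂).re * (a⁻¹ * L.ω₁).im = _
    simp only [Complex.mul_re, Complex.mul_im]
    ring
  rw [h1, abs_mul, abs_inv, abs_of_nonneg (by positivity : (0 : ℝ) ≤ ‖a‖ ^ 2)]
  have h4 := ZLattice.covolume_ne_zero L.lattice
  rw [covolume_eq L] at h4
  have h5 : ‖a‖ ^ 2 ≠ 0 := pow_ne_zero 2 (norm_ne_zero_iff.2 ha)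
  obtain ⟨h6, h7⟩ := mul_ne_zero_iff.1 h4
  field_simp

theorem exists_reps {L L' : PeriodPair} (h : L.lattice ≤ L'.lattice) : ∃ R, IsReps L L' R := by
  classical
  have hne : (L.lattice.toAddSubgroup.addSubgroupOf L'.lattice.toAddSubgroup).index ≠ 0 :=
    (idx_pos h).ne'
  have : (L.lattice.toAddSubgroup.addSubgroupOf L'.lattice.toAddSubgroup).FiniteIndex := ⟨hne⟩
  let _ : Fintype (L'.lattice.toAddSubgroup ⧸
    (L.lattice.toAddSubgroup.addSubgroupOf L'.lattice.toAddSubgroup)) := Fintype.ofFinite _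
  let r : (L'.lattice.toAddSubgroup ⧸
    (L.lattice.toAddSubgroup.addSubgroupOf L'.lattice.toAddSubgroup)) → L'.lattice.toAddSubgroup :=
    fun q => if q = 0 then 0 else Quotient.out q
  have hr : ∀ q, (QuotientAddGroup.mk (r q) : L'.lattice.toAddSubgroup ⧸
    (L.lattice.toAddSubgroup.addSubgroupOf L'.lattice.toAddSubgroup)) = q := by
    intro q
    by_cases hq : q = 0
    · simp only [r, if_pos hq]
      rw [hq]
      rfl
    · simp only [r, if_neg hq]
      exact Quotient.out_eq q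
  refine ⟨Finset.univ.image fun q => ((r q : L'.lattice.toAddSubgroup) : ℂ), h, ?_, ?_, ?_, ?_⟩
  · refine Finset.mem_image.2 ⟨0, Finset.mem_univ _, ?_⟩
    simp only [r, if_pos]
    rfl
  · intro s hs
    obtain ⟨q, _, rfl⟩ := Finset.mem_image.1 hs
    exact (r q).2
  · intro l hl
    refine ⟨_, Finset.mem_image.2 ⟨QuotientAddGroup.mk ⟨l, hl⟩, Finset.mem_univ _, rfl⟩, ?_⟩
    have h1 := hr (QuotientAddGroup.mk ⟨l, hl⟩)
    have h2 := (QuotientAddGroup.eq.1 h1)
    rw [AddSubgroup.mem_addSubgroupOf] at h2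
    have h3 : (((-r (QuotientAddGroup.mk ⟨l, hl⟩) + ⟨l, hl⟩ : L'.lattice.toAddSubgroup)) : ℂ) =
        l - (r (QuotientAddGroup.mk ⟨l, hl⟩) : ℂ) := by
      rw [AddSubgroup.coe_add, AddSubgroup.coe_neg]
      ring
    rw [h3] at h2
    exact h2
  · intro s hs t ht hst
    obtain ⟨q, _, rfl⟩ := Finset.mem_image.1 hs
    obtain ⟨q', _, rfl⟩ := Finset.mem_image.1 ht
    have h1 : q' = q := by
      rw [← hr q, ← hr q']
      refine QuotientAddGroup.eq.2 ?_
      rw [AddSubgroup.mem_addSubgroupOf]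
      have h3 : (((-r q' + r q : L'.lattice.toAddSubgroup)) : ℂ) = (r q : ℂ) - (r q' : ℂ) := by
        rw [AddSubgroup.coe_add, AddSubgroup.coe_neg]
        ring
      rw [h3]
      exact hst
    rw [h1]

theorem IsReps.card {L L' : PeriodPair} {R : Finset ℂ} (hR : IsReps L L' R) : R.card = idx L L' := by
  have h1 : Nat.card R = Nat.card (L'.lattice.toAddSubgroup ⧸
      (L.lattice.toAddSubgroup.addSubgroupOf L'.lattice.toAddSubgroup)) := by
    refine Nat.card_eq_of_bijective (fun s : R => (QuotientAddGroup.mk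
      (⟨s.1, hR.mem s.1 s.2⟩ : L'.lattice.toAddSubgroup) : L'.lattice.toAddSubgroup ⧸
        (L.lattice.toAddSubgroup.addSubgroupOf L'.lattice.toAddSubgroup))) ⟨?_, ?_⟩
    · intro s t hst
      have h2 := QuotientAddGroup.eq.1 hst
      rw [AddSubgroup.mem_addSubgroupOf] at h2
      have h3 : (((-(⟨s.1, hR.mem s.1 s.2⟩ : L'.lattice.toAddSubgroup) + ⟨t.1, hR.mem t.1 t.2⟩ :
          L'.lattice.toAddSubgroup)) : ℂ) = (t : ℂ) - (s : ℂ) := by
        rw [AddSubgroup.coe_add, AddSubgroup.coe_neg]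
        ring
      rw [h3] at h2
      exact (Subtype.ext (hR.inj t.1 t.2 s.1 s.2 h2)).symm
    · intro q
      obtain ⟨⟨l, hl⟩, rfl⟩ := QuotientAddGroup.mk_surjective q
      obtain ⟨s, hs, h2⟩ := hR.ex l hl
      refine ⟨⟨s, hs⟩, ?_⟩
      refine QuotientAddGroup.eq.2 ?_
      rw [AddSubgroup.mem_addSubgroupOf]
      have h3 : (((-(⟨s, hR.mem s hs⟩ : L'.lattice.toAddSubgroup) + ⟨l, hl⟩ :
          L'.lattice.toAddSubgroup)) : ℂ) = l - s := by
        rw [AddSubgroup.coe_add, AddSubgroup.coe_neg]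
        ring
      rw [h3]
      exact h2
  rw [Nat.card_eq_fintype_card, Fintype.card_coe] at h1
  exact h1

/-- a product over `L'/L` does not depend on the representatives and is invariant under translation -/
theorem IsReps.prod_add {L L' : PeriodPair} {R R' : Finset ℂ} (hR : IsReps L L' R)
    (hR' : IsReps L L' R') {f : ℂ → ℂ} (hf : ∀ z, ∀ l ∈ L.lattice, f (z + l) = f z) {a : ℂ}
    (ha : a ∈ L'.lattice) : ∏ s ∈ R, f (s + a) = ∏ s ∈ R', f s := by
  have h1 : ∀ s ∈ R, ∃ t ∈ R', s + a - t ∈ L.lattice := fun s hs =>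
    hR'.ex _ (add_mem (hR.mem s hs) ha)
  choose! r hr1 hr2 using h1
  refine Finset.prod_bij (fun s _ => r s) (fun s hs => hr1 s hs) ?_ ?_ ?_
  · intro s hs t ht hst
    refine hR.inj s hs t ht ?_
    have h2 := sub_mem (hr2 s hs) (hr2 t ht)
    rw [hst] at h2
    have h3 : s + a - r t - (t + a - r t) = s - t := by ring
    rwa [h3] at h2
  · intro t ht
    obtain ⟨s, hs, h2⟩ := hR.ex (t - a) (sub_mem (hR'.mem t ht) ha)
    refine ⟨s, hs, hR'.inj _ (hr1 s hs) t ht ?_⟩
    have h3 := neg_mem (add_mem (hr2 s hs) h2)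
    have h4 : -(s + a - r s + (t - a - s)) = r s - t := by ring
    rwa [h4] at h3
  · intro s hs
    have h2 := hf (r s) _ (hr2 s hs)
    have h3 : r s + (s + a - r s) = s + a := by ring
    rw [← h2, h3]

theorem exists_half {L L' : PeriodPair} (h : L.lattice ≤ L'.lattice) : ∃ R, IsHalf L L' R := by
  classical
  obtain ⟨R, hR⟩ := exists_reps h
  let P : Finset ℂ → Prop := fun S => ∀ s ∈ S, ∀ t ∈ S,
    s - t ∈ L.lattice ∨ s + t ∈ L.lattice → s = t
  have hfin : ((R.erase 0).powerset.filter P).Nonempty :=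
    ⟨∅, Finset.mem_filter.2 ⟨Finset.empty_mem_powerset _, fun s hs => by simp at hs⟩⟩
  obtain ⟨S, hS, hmax⟩ := Finset.exists_max_image _ Finset.card hfin
  rw [Finset.mem_filter, Finset.mem_powerset] at hS
  obtain ⟨hS1, hS2⟩ := hS
  refine ⟨S, h, fun s hs => hR.mem s (Finset.mem_of_mem_erase (hS1 hs)), ?_, ?_, hS2⟩
  · intro s hs hcon
    have h1 := hS1 hs
    rw [Finset.mem_erase] at h1
    exact h1.1 (hR.inj s h1.2 0 hR.zero (by rwa [sub_zero]))
  · intro l hl hl'
    obtain ⟨s0, hs0, h1⟩ := hR.ex l hl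
    have hs00 : s0 ≠ 0 := by
      intro h0
      rw [h0, sub_zero] at h1
      exact hl' h1
    by_cases hmem : s0 ∈ S
    · exact ⟨s0, hmem, Or.inl h1⟩
    · by_contra hcon
      push Not at hcon
      have h2 : insert s0 S ∈ (R.erase 0).powerset.filter P := by
        rw [Finset.mem_filter, Finset.mem_powerset]
        refine ⟨Finset.insert_subset (Finset.mem_erase.2 ⟨hs00, hs0⟩) hS1, ?_⟩
        have h3 : ∀ t ∈ S, ¬ (s0 - t ∈ L.lattice) ∧ ¬ (s0 + t ∈ L.lattice) := by
          intro t ht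
          refine ⟨fun h4 => (hcon t ht).1 ?_, fun h4 => (hcon t ht).2 ?_⟩
          · have h5 := add_mem h1 h4
            have h6 : l - s0 + (s0 - t) = l - t := by ring
            rwa [h6] at h5
          · have h5 := add_mem h1 h4
            have h6 : l - s0 + (s0 + t) = l + t := by ring
            rwa [h6] at h5
        intro s hs t ht hst
        rcases Finset.mem_insert.1 hs with rfl | hs'
        · rcases Finset.mem_insert.1 ht with rfl | ht'
          · rfl
          · rcases hst with hst | hst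
            · exact absurd hst (h3 t ht').1
            · exact absurd hst (h3 t ht').2
        · rcases Finset.mem_insert.1 ht with rfl | ht'
          · rcases hst with hst | hst
            · refine absurd ?_ (h3 s hs').1
              have := neg_mem hst
              rwa [neg_sub] at this
            · refine absurd ?_ (h3 s hs').2
              rwa [add_comm] at hst
          · exact hS2 s hs' t ht' hst
      have h3 := hmax _ h2
      rw [Finset.card_insert_of_notMem hmem] at h3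
      omega

theorem IsHalf.two_mul_aux {L L' : PeriodPair} {R : Finset ℂ} (hR : IsHalf L L' R)
    (ho : Odd (idx L L')) {s : ℂ} (hs : s ∈ R) : 2 * s ∉ L.lattice := by
  intro h
  obtain ⟨k, hk⟩ := ho
  have h1 := idx_smul_mem hR.le (hR.mem s hs)
  rw [hk] at h1
  have h2 : (k : ℂ) * (2 * s) ∈ L.lattice := by
    have := L.lattice.smul_mem (k : ℤ) h
    rwa [zsmul_eq_mul, Int.cast_natCast] at this
  have h3 := sub_mem h1 h2
  have h4 : ((2 * k + 1 : ℕ) : ℂ) * s - (k : ℂ) * (2 * s) = s := by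
    push_cast
    ring
  rw [h4] at h3
  exact hR.notMem s hs h3

theorem IsHalf.card {L L' : PeriodPair} {R : Finset ℂ} (hR : IsHalf L L' R)
    (ho : Odd (idx L L')) : 2 * R.card + 1 = idx L L' := by
  classical
  have h0 : ∀ s ∈ R, s ≠ 0 := fun s hs h0 => hR.notMem s hs (by rw [h0]; exact zero_mem _)
  have hdis : Disjoint R (R.image fun s => -s) := by
    rw [Finset.disjoint_left]
    intro s hs hs'
    obtain ⟨t, ht, rfl⟩ := Finset.mem_image.1 hs'
    have h1 := hR.inj _ hs t ht (Or.inr (by rw [neg_add_cancel]; exact zero_mem _))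
    have h2 : t = 0 := by
      have h3 : (2 : ℂ) * t = 0 := by linear_combination -h1
      exact (mul_eq_zero.1 h3).resolve_left (by norm_num)
    exact h0 t ht h2
  have h0mem : (0 : ℂ) ∉ R ∪ R.image fun s => -s := by
    rw [Finset.mem_union]
    rintro (h | h)
    · exact h0 0 h rfl
    · obtain ⟨t, ht, h1⟩ := Finset.mem_image.1 h
      exact h0 t ht (neg_eq_zero.1 h1)
  have hreps : IsReps L L' (insert 0 (R ∪ R.image fun s => -s)) := by
    refine ⟨hR.le, Finset.mem_insert_self _ _, ?_, ?_, ?_⟩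
    · intro s hs
      rw [Finset.mem_insert, Finset.mem_union] at hs
      rcases hs with rfl | hs | hs
      · exact zero_mem _
      · exact hR.mem s hs
      · obtain ⟨t, ht, rfl⟩ := Finset.mem_image.1 hs
        exact neg_mem (hR.mem t ht)
    · intro l hl
      by_cases hl' : l ∈ L.lattice
      · exact ⟨0, Finset.mem_insert_self _ _, by rwa [sub_zero]⟩
      · obtain ⟨s, hs, h1 | h1⟩ := hR.ex l hl hl'
        · exact ⟨s, Finset.mem_insert_of_mem (Finset.mem_union_left _ hs), h1⟩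
        · refine ⟨-s, Finset.mem_insert_of_mem (Finset.mem_union_right _
            (Finset.mem_image_of_mem _ hs)), ?_⟩
          rwa [sub_neg_eq_add]
    · intro s hs t ht hst
      rw [Finset.mem_insert, Finset.mem_union] at hs ht
      rcases hs with rfl | hs | hs
      · rcases ht with rfl | ht | ht
        · rfl
        · rw [zero_sub] at hst
          have := neg_mem hst
          rw [neg_neg] at this
          exact absurd this (hR.notMem t ht)
        · obtain ⟨u, hu, rfl⟩ := Finset.mem_image.1 ht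
          rw [zero_sub, neg_neg] at hst
          exact absurd hst (hR.notMem u hu)
      · rcases ht with rfl | ht | ht
        · rw [sub_zero] at hst
          exact absurd hst (hR.notMem s hs)
        · exact hR.inj s hs t ht (Or.inl hst)
        · obtain ⟨u, hu, rfl⟩ := Finset.mem_image.1 ht
          rw [sub_neg_eq_add] at hst
          have h1 := hR.inj s hs u hu (Or.inr hst)
          rw [h1, ← two_mul] at hst
          exact absurd hst (hR.two_mul_aux ho hu)
      · obtain ⟨v, hv, rfl⟩ := Finset.mem_image.1 hs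
        rcases ht with rfl | ht | ht
        · rw [sub_zero] at hst
          have := neg_mem hst
          rw [neg_neg] at this
          exact absurd this (hR.notMem v hv)
        · have h2 := neg_mem hst
          have h3 : -(-v - t) = v + t := by ring
          rw [h3] at h2
          have h1 := hR.inj v hv t ht (Or.inr h2)
          rw [h1, ← two_mul] at h2
          exact absurd h2 (hR.two_mul_aux ho ht)
        · obtain ⟨u, hu, rfl⟩ := Finset.mem_image.1 ht
          have h2 := neg_mem hst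
          have h3 : -(-v - -u) = v - u := by ring
          rw [h3] at h2
          rw [hR.inj v hv u hu (Or.inl h2)]
  have h1 := hreps.card
  rw [Finset.card_insert_of_notMem h0mem, Finset.card_union_of_disjoint hdis,
    Finset.card_image_of_injective _ neg_injective] at h1
  omega

theorem IsHalf.two_mul_notMem {L L' : PeriodPair} {R : Finset ℂ} (hR : IsHalf L L' R)
    (ho : Odd (idx L L')) {s : ℂ} (hs : s ∈ R) : 2 * s ∉ L.lattice := by
  exact hR.two_mul_aux ho hs

theorem div_mem_iff {m : ℕ} (hm : 0 < m) {L : PeriodPair} (a b : ℤ) :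
    ((a : ℂ) * L.ω₁ + (b : ℂ) * L.ω₂) / (m : ℂ) ∈ L.lattice ↔ (m : ℤ) ∣ a ∧ (m : ℤ) ∣ b := by
  have hm0 : (m : ℂ) ≠ 0 := by exact_mod_cast hm.ne'
  rw [PeriodPair.mem_lattice]
  constructor
  · rintro ⟨c, d, h⟩
    rw [eq_div_iff hm0] at h
    have h1 := LinearIndependent.pair_iff.1 L.indep ((m : ℝ) * c - a) ((m : ℝ) * d - b) (by
      simp only [Complex.real_smul]
      push_cast
      linear_combination h)
    constructor
    · exact ⟨c, by have := h1.1; have h2 : (a : ℝ) = m * c := by linarith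
                   exact_mod_cast h2⟩
    · exact ⟨d, by have := h1.2; have h2 : (b : ℝ) = m * d := by linarith
                   exact_mod_cast h2⟩
  · rintro ⟨⟨c, rfl⟩, ⟨d, rfl⟩⟩
    refine ⟨c, d, ?_⟩
    push_cast
    field_simp

theorem mem_torT {m : ℕ} {L : PeriodPair} {t : ℂ} : t ∈ torT m L ↔
    t ≠ 0 ∧ ∃ i < m, ∃ j < m, ((i : ℂ) * L.ω₁ + (j : ℂ) * L.ω₂) / (m : ℂ) = t := by
  classical
  unfold torT
  rw [Finset.mem_erase, Finset.mem_image]
  refine and_congr_right fun _ => ⟨?_, ?_⟩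
  · rintro ⟨⟨i, j⟩, h1, h2⟩
    rw [Finset.mem_product, Finset.mem_range, Finset.mem_range] at h1
    exact ⟨i, h1.1, j, h1.2, h2⟩
  · rintro ⟨i, hi, j, hj, h⟩
    exact ⟨(i, j), Finset.mem_product.2 ⟨Finset.mem_range.2 hi, Finset.mem_range.2 hj⟩, h⟩

theorem eq_of_dvd_sub {m i i' : ℕ} (hi : i < m) (hi' : i' < m) (h : (m : ℤ) ∣ (i : ℤ) - i') :
    i = i' := by
  have h1 := Int.eq_zero_of_abs_lt_dvd h (by rw [abs_lt]; constructor <;> omega)
  omega

theorem isTors_torT {m : ℕ} (hm : 0 < m) (L : PeriodPair) : IsTors m L (torT m L) := by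
  have hm0 : (m : ℂ) ≠ 0 := by exact_mod_cast hm.ne'
  refine ⟨?_, ?_, ?_, ?_⟩
  · intro t ht
    obtain ⟨_, i, _, j, _, rfl⟩ := mem_torT.1 ht
    rw [mul_div_cancel₀ _ hm0]
    exact PeriodPair.mem_lattice.2 ⟨i, j, by push_cast; ring⟩
  · intro t ht hcon
    obtain ⟨h0, i, hi, j, hj, rfl⟩ := mem_torT.1 ht
    have h1 := (div_mem_iff (L := L) hm i j).1 (by exact_mod_cast hcon)
    have h2 : i = 0 := Nat.eq_zero_of_dvd_of_lt (by exact_mod_cast h1.1) hi
    have h3 : j = 0 := Nat.eq_zero_of_dvd_of_lt (by exact_mod_cast h1.2) hj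
    rw [h2, h3] at h0
    exact h0 (by simp)
  · intro z hz hz'
    obtain ⟨a, b, hab⟩ := PeriodPair.mem_lattice.1 hz
    have hmZ : (0 : ℤ) < m := by exact_mod_cast hm
    obtain ⟨i, hi⟩ := Int.eq_ofNat_of_zero_le (Int.emod_nonneg a hmZ.ne')
    obtain ⟨j, hj⟩ := Int.eq_ofNat_of_zero_le (Int.emod_nonneg b hmZ.ne')
    have hi1 : i < m := by
      have := Int.emod_lt_of_pos a hmZ
      omega
    have hj1 : j < m := by
      have := Int.emod_lt_of_pos b hmZ
      omega
    have h1 : z - ((i : ℂ) * L.ω₁ + (j : ℂ) * L.ω₂) / (m : ℂ) ∈ L.lattice := by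
      have h2 := (div_mem_iff (L := L) hm (a - i) (b - j)).2 ⟨by
        rw [← hi]; exact Int.dvd_self_sub_emod, by rw [← hj]; exact Int.dvd_self_sub_emod⟩
      have h3 : (((a - i : ℤ) : ℂ) * L.ω₁ + ((b - j : ℤ) : ℂ) * L.ω₂) / (m : ℂ) =
          z - ((i : ℂ) * L.ω₁ + (j : ℂ) * L.ω₂) / (m : ℂ) := by
        have h4 : z = ((a : ℂ) * L.ω₁ + b * L.ω₂) / m := by
          rw [hab, mul_div_cancel_left₀ _ hm0]
        rw [h4]
        push_cast
        ring
      rwa [h3] at h2
    refine ⟨_, mem_torT.2 ⟨?_, i, hi1, j, hj1, rfl⟩, h1⟩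
    intro h0
    rw [h0, sub_zero] at h1
    exact hz' h1
  · intro s hs t ht hst
    obtain ⟨_, i, hi, j, hj, rfl⟩ := mem_torT.1 hs
    obtain ⟨_, i', hi', j', hj', rfl⟩ := mem_torT.1 ht
    have h1 := (div_mem_iff (L := L) hm ((i : ℤ) - i') ((j : ℤ) - j')).1 (by
      have h3 : ((((i : ℤ) - i' : ℤ) : ℂ) * L.ω₁ + (((j : ℤ) - j' : ℤ) : ℂ) * L.ω₂) / (m : ℂ) =
          ((i : ℂ) * L.ω₁ + (j : ℂ) * L.ω₂) / (m : ℂ) -
            ((i' : ℂ) * L.ω₁ + (j' : ℂ) * L.ω₂) / (m : ℂ) := by
        push_cast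
        ring
      rw [h3]
      exact hst)
    have h2 := eq_of_dvd_sub hi hi' h1.1
    have h3 := eq_of_dvd_sub hj hj' h1.2
    rw [h2, h3]

theorem card_torT {m : ℕ} (hm : 0 < m) (L : PeriodPair) : (torT m L).card = m ^ 2 - 1 := by
  classical
  unfold torT
  rw [Finset.card_erase_of_mem, Finset.card_image_of_injOn, Finset.card_product,
    Finset.card_range, sq]
  · rintro ⟨i, j⟩ h1 ⟨i', j'⟩ h2 h
    simp only [Finset.coe_product, Finset.coe_range, Set.mem_prod, Set.mem_Iio] at h1 h2 h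
    have h3 := (div_mem_iff (L := L) hm ((i : ℤ) - i') ((j : ℤ) - j')).1 (by
      have h3 : ((((i : ℤ) - i' : ℤ) : ℂ) * L.ω₁ + (((j : ℤ) - j' : ℤ) : ℂ) * L.ω₂) / (m : ℂ) =
          0 := by
        have h4 := sub_eq_zero.2 h
        rw [← h4]
        push_cast
        ring
      rw [h3]
      exact zero_mem _)
    rw [eq_of_dvd_sub h1.1 h2.1 h3.1, eq_of_dvd_sub h1.2 h2.2 h3.2]
  · rw [Finset.mem_image]
    exact ⟨(0, 0), Finset.mem_product.2 ⟨Finset.mem_range.2 hm, Finset.mem_range.2 hm⟩, by simp⟩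

theorem IsTors.prod_eq_aux {m : ℕ} {L : PeriodPair} {T T' : Finset ℂ} (hT : IsTors m L T)
    (hT' : IsTors m L T') {f : ℂ → ℂ} (hf : ∀ z, ∀ l ∈ L.lattice, f (z + l) = f z) :
    ∏ t ∈ T, f t = ∏ t ∈ T', f t := by
  have h1 : ∀ s ∈ T, ∃ t ∈ T', s - t ∈ L.lattice := fun s hs =>
    hT'.ex s (hT.mem s hs) (hT.notMem s hs)
  choose! r hr1 hr2 using h1
  refine Finset.prod_bij (fun s _ => r s) (fun s hs => hr1 s hs) ?_ ?_ ?_
  · intro s hs t ht hst
    refine hT.inj s hs t ht ?_
    have h2 := sub_mem (hr2 s hs) (hr2 t ht)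
    rw [hst] at h2
    have h3 : s - r t - (t - r t) = s - t := by ring
    rwa [h3] at h2
  · intro t ht
    obtain ⟨s, hs, h2⟩ := hT.ex t (hT'.mem t ht) (hT'.notMem t ht)
    refine ⟨s, hs, hT'.inj _ (hr1 s hs) t ht ?_⟩
    have h3 := neg_mem (add_mem (hr2 s hs) h2)
    have h4 : -(s - r s + (t - s)) = r s - t := by ring
    rwa [h4] at h3
  · intro s hs
    have h2 := hf (r s) _ (hr2 s hs)
    have h3 : r s + (s - r s) = s := by ring
    rw [← h2, h3]

theorem IsTors.card {m : ℕ} (hm : 0 < m) {L : PeriodPair} {T : Finset ℂ} (hT : IsTors m L T) :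
    T.card = m ^ 2 - 1 := by
  rw [← card_torT hm L]
  have h1 := hT.prod_eq_aux (isTors_torT hm L) (f := fun _ => (2 : ℂ)) fun _ _ _ => rfl
  rw [Finset.prod_const, Finset.prod_const] at h1
  exact Nat.pow_right_injective le_rfl (by exact_mod_cast h1)

theorem IsTors.prod_eq {m : ℕ} {L : PeriodPair} {T T' : Finset ℂ} (hT : IsTors m L T)
    (hT' : IsTors m L T') {f : ℂ → ℂ} (hf : ∀ z, ∀ l ∈ L.lattice, f (z + l) = f z) :
    ∏ t ∈ T, f t = ∏ t ∈ T', f t := by
  exact hT.prod_eq_aux hT' hf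

/-- a system of `m`-torsion points of `L` is one of `L'` if the index is prime to `m` -/
theorem IsTors.of_le {m : ℕ} {L L' : PeriodPair} (h : L.lattice ≤ L'.lattice)
    (hc : (idx L L').Coprime m) {T : Finset ℂ} (hT : IsTors m L T) : IsTors m L' T := by
  obtain ⟨u, v, huv⟩ : ∃ u v : ℤ, ((idx L L' : ℕ) : ℂ) * u = 1 + m * v := by
    have h1 := Nat.gcd_eq_gcd_ab (idx L L') m
    have h0 : Nat.gcd (idx L L') m = 1 := hc
    rw [h0] at h1
    refine ⟨Nat.gcdA (idx L L') m, -Nat.gcdB (idx L L') m, ?_⟩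
    have h2 : ((idx L L' : ℕ) : ℤ) * Nat.gcdA (idx L L') m =
        1 + (m : ℤ) * (-Nat.gcdB (idx L L') m) := by
      push_cast at h1
      linarith
    exact_mod_cast h2
  have key : ∀ t : ℂ, (m : ℂ) * t ∈ L.lattice → t ∈ L'.lattice → t ∈ L.lattice := by
    intro t h1 h2
    have h3 := L.lattice.smul_mem u (idx_smul_mem h h2)
    have h4 := L.lattice.smul_mem v h1
    have h5 := sub_mem h3 h4
    have h6 : u • ((idx L L' : ℂ) * t) - v • ((m : ℂ) * t) = t := by
      rw [zsmul_eq_mul, zsmul_eq_mul]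
      linear_combination t * huv
    rwa [h6] at h5
  refine ⟨fun t ht => h (hT.mem t ht), fun t ht hcon => hT.notMem t ht (key t (hT.mem t ht) hcon),
    ?_, ?_⟩
  · intro z hz hz'
    have h1 : (m : ℂ) * ((u : ℂ) * ((idx L L' : ℂ) * z)) ∈ L.lattice := by
      have h2 := L.lattice.smul_mem u (idx_smul_mem h hz)
      rw [zsmul_eq_mul] at h2
      have h3 : (m : ℂ) * ((u : ℂ) * ((idx L L' : ℂ) * z)) =
          (u : ℂ) * ((idx L L' : ℂ) * ((m : ℂ) * z)) := by ring
      rwa [h3]
    have h4 : z - (u : ℂ) * ((idx L L' : ℂ) * z) ∈ L'.lattice := by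
      have h5 := L'.lattice.smul_mem (-v) hz
      rw [zsmul_eq_mul] at h5
      have h6 : ((-v : ℤ) : ℂ) * ((m : ℂ) * z) = z - (u : ℂ) * ((idx L L' : ℂ) * z) := by
        push_cast
        linear_combination z * huv
      rwa [h6] at h5
    obtain ⟨t, ht, h7⟩ := hT.ex _ h1 (fun hcon => hz' (by
      have h8 := add_mem h4 (h hcon)
      rwa [sub_add_cancel] at h8))
    refine ⟨t, ht, ?_⟩
    have h8 := add_mem h4 (h h7)
    have h9 : z - (u : ℂ) * ((idx L L' : ℂ) * z) + ((u : ℂ) * ((idx L L' : ℂ) * z) - t) = z - t := by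
      ring
    rwa [h9] at h8
  · intro s hs t ht hst
    refine hT.inj s hs t ht (key _ ?_ hst)
    rw [mul_sub]
    exact sub_mem (hT.mem s hs) (hT.mem t ht)

end Pool.Agent.CMR
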