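import Pool.Agent.CMR.LDefs
import Pool.Agent.CMR.IReps
import Pool.Agent.CMG.SMisc

/-!
# Z-LAT the lattices of inverse ideals

`mem_LatI`: `𝔤⁻¹` is the fractional ideal `(𝔤 : FractionalIdeal)⁻¹`; it has a `ℤ`-basis of two elements which is a `ℚ`-basis of `k`
(`NumberField.basisOfFractionalIdeal`, `fractionalIdealBasis`, or: `𝓞 k ⊆ 𝔤⁻¹ ⊆ (1/N) 𝓞 k`); their images in `ℂ` are independent over `ℝ` because
the quotient is not real (`k` is totally complex of degree `2`: an element of `k` with real image is rational). So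
a `PeriodPair` exists and `LatI` chooses it (`dif_pos`). `norm_eq`: `CMG.nrm_eq_of` (`SMisc`). `CMlat_LatI`: `a ∈ 𝓞 k` not rational. `idx_LatI`:
`(𝔤𝔠)⁻¹/𝔤⁻¹` has `N(𝔠)` elements (multiply by `n ∈ 𝔤𝔠` to get integral ideals `𝔟 ⊆ 𝔟𝔠⁻¹`, `absNorm` multiplicative; `𝔟 = n 𝔤⁻¹`). `LatI_homothety`:
`x 𝔤 ⊆ 𝓞` iff `(b/a) x 𝔥 ⊆ 𝓞`, since `(b/a) 𝔥 = 𝔤` as fractional ideals. `ptt_mem_iff`: `a 𝔤 ⊆ n 𝓞` and
`𝔤 + (n) = 1` give `n ∣ a`. `exists_ptt`: `n z = x ∈ 𝔤⁻¹`; `1 = g + n c` with `g ∈ 𝔤`: `x = g x + n c x`, `g x = a ∈ 𝓞`, `c x ∈ 𝔤⁻¹`, so `z = a/n + c x`.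
`exists_rect`: `k = ℚ(√-D)`, `√-D ∈ 𝓞 k`, its image is `± i√D`, `r = √D`; `1, √-D ∈ 𝓞 k ⊆ 𝔤⁻¹`. `exists_half_ptt`: half system of
`𝔠⁻¹/𝓞` (`exists_half` for `LatI ⊤`, `LatI 𝔠`); `𝔠⁻¹ ⊆ (1/n) 𝓞`, so its elements are `ptt n a`; for `𝔤` prime to `n` the map
`𝔠⁻¹/𝓞 → (𝔤𝔠)⁻¹/𝔤⁻¹` is bijective (`ptt_mem_iff`: `a/n ∈ 𝔤⁻¹` iff `a/n ∈ 𝓞`; surjective by `exists_ptt`: `z ∈ (𝔤𝔠)⁻¹`, `n z ∈ 𝔤⁻¹`, the `a/n` found is in
`(𝔤𝔠)⁻¹` and then in `𝔠⁻¹` because `𝔤` is prime to `n`). `exists_tors_ptt` is similar (`𝔠 = (m)`).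
-/

set_option autoImplicit false

noncomputable section

open NumberField
open scoped PeriodPair

namespace Pool.Agent.CMR

variable {k : Type} [Field k] [NumberField k] [Algebra k ℂ]

/-- an element with real image is rational -/
private theorem zl_rat (hk : IsIQ k) {x : k}
    (hx : (starRingEnd ℂ) (algebraMap k ℂ x) = algebraMap k ℂ x) : ∃ r : ℚ, (r : k) = x := by
  have h1 : Nat.Prime (Module.finrank ℚ k) := by
    rw [hk.finrank_eq]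
    exact Nat.prime_two
  let σ : k →ₐ[ℚ] ℂ := (algebraMap k ℂ).toRatAlgHom
  let τ : k →ₐ[ℚ] ℂ := ((starRingEnd ℂ).comp (algebraMap k ℂ)).toRatAlgHom
  have h2 := (Subalgebra.isSimpleOrder_of_finrank_prime ℚ k h1).eq_bot_or_eq_top
    (AlgHom.equalizer τ σ)
  have hx' : x ∈ AlgHom.equalizer τ σ := hx
  rcases h2 with h2 | h2
  · rw [h2, Algebra.mem_bot] at hx'
    obtain ⟨r, hr⟩ := hx'
    exact ⟨r, by rw [← hr]; exact (eq_ratCast (algebraMap ℚ k) r).symm⟩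
  · exfalso
    have h5 := InfinitePlace.not_isReal_of_mk_isComplex
      (hk.isComplex.isComplex (InfinitePlace.mk (algebraMap k ℂ)))
    apply h5
    rw [ComplexEmbedding.isReal_iff]
    ext y
    have h6 : y ∈ AlgHom.equalizer τ σ := by
      rw [h2]
      trivial
    exact h6

/-- two elements of `k` which are independent over `ℤ` have images which are independent
over `ℝ` -/
private theorem zl_indep (hk : IsIQ k) {x y : k}
    (h : ∀ s t : ℤ, (s : k) * x + t * y = 0 → s = 0 ∧ t = 0) :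
    LinearIndependent ℝ ![algebraMap k ℂ x, algebraMap k ℂ y] := by
  have hy : y ≠ 0 := by
    rintro rfl
    have := (h 0 1 (by simp)).2
    omega
  have hy' : algebraMap k ℂ y ≠ 0 := by
    rwa [Ne, map_eq_zero]
  rw [LinearIndependent.pair_iff]
  intro s t hst
  rw [Complex.real_smul, Complex.real_smul] at hst
  have hs : s = 0 := by
    by_contra hs
    have hs' : (s : ℂ) ≠ 0 := by exact_mod_cast hs
    have h1 : algebraMap k ℂ (x / y) = ((-t / s : ℝ) : ℂ) := by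
      rw [map_div₀, div_eq_iff hy']
      push_cast
      field_simp
      linear_combination hst
    obtain ⟨r, hr⟩ := zl_rat hk (x := x / y) (by rw [h1, Complex.conj_ofReal])
    have h2 : (r.den : k) * x + (-r.num : ℤ) * y = 0 := by
      have h3 : x = (r : k) * y := by rw [hr, div_mul_cancel₀ _ hy]
      have h4 : (r : k) * r.den = r.num := by exact_mod_cast Rat.mul_den_eq_num r
      rw [h3]
      push_cast
      linear_combination y * h4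
    have h3 := (h r.den (-r.num) (by exact_mod_cast h2)).1
    exact r.den_ne_zero (by exact_mod_cast h3)
  refine ⟨hs, ?_⟩
  rw [hs, Complex.ofReal_zero, zero_mul, zero_add] at hst
  rcases mul_eq_zero.1 hst with h1 | h1
  · exact_mod_cast h1
  · exact absurd h1 hy'

private theorem zl_exists_pair (hk : IsIQ k) {𝔟 : Ideal (𝓞 k)} (h𝔟 : 𝔟 ≠ ⊥) {n : ℕ}
    (hn : n ≠ 0) : ∃ L : PeriodPair, ∀ z, z ∈ L.lattice ↔ ∃ b ∈ 𝔟, z = ptt n b := by
  have hr : Module.finrank ℤ (𝓞 k) = 2 := by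
    rw [RingOfIntegers.rank, hk.finrank_eq]
  let B₀ : Module.Basis (Fin 2) ℤ (𝓞 k) := Module.finBasisOfFinrankEq ℤ (𝓞 k) hr
  let B : Module.Basis (Fin 2) ℤ 𝔟 := Ideal.selfBasis B₀ 𝔟 h𝔟
  have hnk : (n : k) ≠ 0 := by exact_mod_cast hn
  have hB : ∀ s t : ℤ, (s : 𝓞 k) * (B 0 : 𝓞 k) + t * (B 1 : 𝓞 k) = 0 → s = 0 ∧ t = 0 := by
    intro s t hst
    have h1 : s • B 0 + t • B 1 = 0 := by
      apply Subtype.ext
      simpa [zsmul_eq_mul] using hst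
    have h2 := (LinearIndependent.pair_iff (R := ℤ) (x := B 0) (y := B 1)).1 (by
      have h3 := B.linearIndependent
      have h4 : (B : Fin 2 → 𝔟) = ![B 0, B 1] := by
        ext i
        fin_cases i <;> rfl
      rwa [h4] at h3) s t h1
    exact h2
  have hind := zl_indep hk (x := ((B 0 : 𝓞 k) : k) / n) (y := ((B 1 : 𝓞 k) : k) / n) (by
    intro s t hst
    refine hB s t ?_
    have h1 : (s : k) * ((B 0 : 𝓞 k) : k) + t * ((B 1 : 𝓞 k) : k) = 0 := by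
      have h2 : (s : k) * ((B 0 : 𝓞 k) : k) + t * ((B 1 : 𝓞 k) : k) =
          n * ((s : k) * (((B 0 : 𝓞 k) : k) / n) + t * (((B 1 : 𝓞 k) : k) / n)) := by
        field_simp
      rw [h2, hst, mul_zero]
    apply RingOfIntegers.coe_injective
    simp only [RingOfIntegers.coe_eq_algebraMap] at h1
    rw [map_add, map_mul, map_mul, map_intCast, map_intCast, h1]
    exact (map_zero _).symm)
  refine ⟨⟨_, _, hind⟩, fun z => ?_⟩
  rw [PeriodPair.mem_lattice]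
  constructor
  · rintro ⟨s, t, rfl⟩
    refine ⟨((s • B 0 + t • B 1 : 𝔟) : 𝓞 k), Subtype.mem _, ?_⟩
    rw [ptt]
    simp only [Submodule.coe_add, Submodule.coe_smul_of_tower, zsmul_eq_mul, map_add, map_mul,
      map_div₀, map_natCast, map_intCast, RingOfIntegers.coe_eq_algebraMap]
    ring
  · rintro ⟨b, hb, rfl⟩
    have h1 := B.sum_repr ⟨b, hb⟩
    rw [Fin.sum_univ_two] at h1
    have h2 : b = (B.repr ⟨b, hb⟩ 0 : 𝓞 k) * (B 0 : 𝓞 k) + (B.repr ⟨b, hb⟩ 1 : 𝓞 k) *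
        (B 1 : 𝓞 k) := by
      have h3 := congrArg (Subtype.val) h1
      simpa [zsmul_eq_mul] using h3.symm
    refine ⟨B.repr ⟨b, hb⟩ 0, B.repr ⟨b, hb⟩ 1, ?_⟩
    rw [ptt]
    conv_rhs => rw [h2]
    simp only [map_add, map_mul, map_div₀, map_natCast, map_intCast,
      RingOfIntegers.coe_eq_algebraMap]
    ring

/-- `𝔤⁻¹ = (1/n) 𝔟` if `𝔤 𝔟 = (n)` -/
private theorem zl_memInv {𝔤 𝔟 : Ideal (𝓞 k)} (h𝔤 : 𝔤 ≠ ⊥) {n : ℕ} (hn : n ≠ 0)
    (h : 𝔤 * 𝔟 = Ideal.span {(n : 𝓞 k)}) (z : ℂ) : MemInv 𝔤 z ↔ ∃ b ∈ 𝔟, z = ptt n b := by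
  have hnk : (n : k) ≠ 0 := by exact_mod_cast hn
  have hn𝔤 : (n : 𝓞 k) ∈ 𝔤 := by
    have h1 : Ideal.span {(n : 𝓞 k)} ≤ 𝔤 := h ▸ Ideal.mul_le_left
    exact h1 (Ideal.mem_span_singleton_self _)
  constructor
  · rintro ⟨x, rfl, hx⟩
    obtain ⟨y, hy⟩ := hx _ hn𝔤
    refine ⟨y, ?_, ?_⟩
    · have h1 : 𝔤 * Ideal.span {y} ≤ 𝔤 * 𝔟 := by
        rw [h, mul_comm, Ideal.span_singleton_mul_le_iff]
        intro g hg
        obtain ⟨w, hw⟩ := hx g hg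
        rw [Ideal.mem_span_singleton]
        refine ⟨w, ?_⟩
        apply RingOfIntegers.coe_injective
        simp only [RingOfIntegers.coe_eq_algebraMap] at hy hw
        rw [map_mul, map_mul, ← hw, ← hy]
        ring
      have h2 : 𝔤 * 𝔟 ∣ 𝔤 * Ideal.span {y} := Ideal.dvd_iff_le.2 h1
      rw [mul_dvd_mul_iff_left (by rwa [← Ideal.zero_eq_bot] at h𝔤)] at h2
      exact (Ideal.dvd_span_singleton).1 h2
    · rw [ptt, ← hy, map_mul, RingOfIntegers.coe_eq_algebraMap, map_natCast, map_natCast,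
        mul_div_cancel_left₀]
      exact_mod_cast hn
  · rintro ⟨b, hb, rfl⟩
    refine ⟨(b : k) / n, by rw [ptt, map_div₀, map_natCast], fun g hg => ?_⟩
    have h1 : g * b ∈ Ideal.span {(n : 𝓞 k)} := h ▸ Ideal.mul_mem_mul hg hb
    obtain ⟨w, hw⟩ := Ideal.mem_span_singleton.1 h1
    refine ⟨w, ?_⟩
    have h2 := congrArg (fun t : 𝓞 k => (t : k)) hw
    simp only [map_mul, map_natCast] at h2
    rw [mul_div_assoc', h2, mul_div_cancel_left₀ _ hnk]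

omit [Algebra k ℂ] in
private theorem zl_exists_mul {𝔤 : Ideal (𝓞 k)} {n : ℕ} (hn : (n : 𝓞 k) ∈ 𝔤) :
    ∃ 𝔟 : Ideal (𝓞 k), 𝔤 * 𝔟 = Ideal.span {(n : 𝓞 k)} := by
  obtain ⟨𝔟, h⟩ := (Ideal.dvd_span_singleton).2 hn
  exact ⟨𝔟, h.symm⟩

omit [Algebra k ℂ] in
private theorem zl_span_ne {n : ℕ} (hn : n ≠ 0) : Ideal.span {(n : 𝓞 k)} ≠ ⊥ := by
  rw [Ne, Ideal.span_singleton_eq_bot]
  exact_mod_cast hn

theorem mem_LatI (hk : IsIQ k) {𝔤 : Ideal (𝓞 k)} (h𝔤 : 𝔤 ≠ ⊥) (z : ℂ) :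
    z ∈ (LatI 𝔤).lattice ↔ MemInv 𝔤 z := by
  classical
  have hn : Ideal.absNorm 𝔤 ≠ 0 := by
    rwa [Ne, Ideal.absNorm_eq_zero_iff]
  obtain ⟨𝔟, hb⟩ := zl_exists_mul (Ideal.absNorm_mem 𝔤)
  have hb0 : 𝔟 ≠ ⊥ := by
    rintro rfl
    rw [Ideal.mul_bot] at hb
    exact zl_span_ne hn hb.symm
  have h : ∃ L : PeriodPair, ∀ z, z ∈ L.lattice ↔ MemInv 𝔤 z := by
    obtain ⟨L, hL⟩ := zl_exists_pair hk hb0 hn
    exact ⟨L, fun z => by rw [hL, zl_memInv h𝔤 hn hb]⟩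
  rw [LatI, dif_pos h]
  exact h.choose_spec z

theorem norm_eq (hk : IsIQ k) (a : 𝓞 k) :
    (Ideal.absNorm (Ideal.span {a}) : ℝ) = ‖algebraMap k ℂ (a : k)‖ ^ 2 :=
  CMG.nrm_eq_of hk.finrank_eq hk.isComplex a

omit [NumberField k] in
private theorem zl_mul_memInv {𝔤 : Ideal (𝓞 k)} (a : 𝓞 k) {z : ℂ} (hz : MemInv 𝔤 z) :
    MemInv 𝔤 (algebraMap k ℂ (a : k) * z) := by
  obtain ⟨x, rfl, hx⟩ := hz
  refine ⟨(a : k) * x, map_mul _ _ _, fun g hg => ?_⟩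
  obtain ⟨y, hy⟩ := hx g hg
  refine ⟨a * y, ?_⟩
  rw [RingOfIntegers.coe_eq_algebraMap (a * y), map_mul, ← RingOfIntegers.coe_eq_algebraMap,
    ← RingOfIntegers.coe_eq_algebraMap, ← hy]
  ring

theorem mul_mem_LatI (hk : IsIQ k) {𝔤 : Ideal (𝓞 k)} (h𝔤 : 𝔤 ≠ ⊥) (a : 𝓞 k) {z : ℂ}
    (hz : z ∈ (LatI 𝔤).lattice) : algebraMap k ℂ (a : k) * z ∈ (LatI 𝔤).lattice := by
  rw [mem_LatI hk h𝔤] at hz ⊢
  exact zl_mul_memInv a hz

private theorem zl_exists_nonreal (hk : IsIQ k) : ∃ a : 𝓞 k, (algebraMap k ℂ (a : k)).im ≠ 0 := by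
  by_contra hcon
  push Not at hcon
  have h1 : ∀ x : k, (algebraMap k ℂ x).im = 0 := by
    intro x
    obtain ⟨a, b, hb, rfl⟩ := IsFractionRing.div_surjective (A := 𝓞 k) x
    rw [map_div₀]
    have h2 := hcon a
    have h3 := hcon b
    have h4 : algebraMap k ℂ (algebraMap (𝓞 k) k a) =
        (((algebraMap k ℂ (algebraMap (𝓞 k) k a)).re : ℝ) : ℂ) := by
      apply Complex.ext
      · simp
      · simpa using h2
    have h5 : algebraMap k ℂ (algebraMap (𝓞 k) k b) =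
        (((algebraMap k ℂ (algebraMap (𝓞 k) k b)).re : ℝ) : ℂ) := by
      apply Complex.ext
      · simp
      · simpa using h3
    rw [h4, h5, ← Complex.ofReal_div]
    exact Complex.ofReal_im _
  have h5 := InfinitePlace.not_isReal_of_mk_isComplex
    (hk.isComplex.isComplex (InfinitePlace.mk (algebraMap k ℂ)))
  apply h5
  rw [ComplexEmbedding.isReal_iff]
  ext y
  exact Complex.conj_eq_iff_im.2 (h1 y)

theorem CMlat_LatI (hk : IsIQ k) {𝔤 : Ideal (𝓞 k)} (h𝔤 : 𝔤 ≠ ⊥) : CMlat (LatI 𝔤) := by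
  obtain ⟨a, ha⟩ := zl_exists_nonreal hk
  exact ⟨_, ha, fun l hl => mul_mem_LatI hk h𝔤 a hl⟩

omit [NumberField k] [Algebra k ℂ] in
private theorem zl_mul_ne {𝔤 𝔠 : Ideal (𝓞 k)} (h𝔤 : 𝔤 ≠ ⊥) (h𝔠 : 𝔠 ≠ ⊥) : 𝔤 * 𝔠 ≠ ⊥ := by
  rw [← Ideal.zero_eq_bot] at *
  exact mul_ne_zero h𝔤 h𝔠

theorem LatI_le (hk : IsIQ k) {𝔤 𝔠 : Ideal (𝓞 k)} (h𝔤 : 𝔤 ≠ ⊥) (h𝔠 : 𝔠 ≠ ⊥) :
    (LatI 𝔤).lattice ≤ (LatI (𝔤 * 𝔠)).lattice := by
  intro z hz
  rw [mem_LatI hk h𝔤] at hz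
  rw [mem_LatI hk (zl_mul_ne h𝔤 h𝔠)]
  obtain ⟨x, h1, h2⟩ := hz
  exact ⟨x, h1, fun g hg => h2 g (Ideal.mul_le_left hg)⟩

/-- the map `a ↦ a / n` -/
private def zlMap (n : ℕ) : 𝓞 k →+ ℂ where
  toFun := ptt n
  map_zero' := by simp [ptt]
  map_add' a b := by simp [ptt, add_div]

omit [NumberField k] in
private theorem zlMap_inj {n : ℕ} (hn : n ≠ 0) : Function.Injective (ptt (k := k) n) := by
  intro a b h
  have hn' : (n : ℂ) ≠ 0 := by exact_mod_cast hn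
  rw [ptt, ptt, div_left_inj' hn'] at h
  exact RingOfIntegers.coe_injective ((algebraMap k ℂ).injective h)

theorem idx_LatI (hk : IsIQ k) {𝔤 𝔠 : Ideal (𝓞 k)} (h𝔤 : 𝔤 ≠ ⊥) (h𝔠 : 𝔠 ≠ ⊥) :
    idx (LatI 𝔤) (LatI (𝔤 * 𝔠)) = Ideal.absNorm 𝔠 := by
  have h𝔤𝔠 := zl_mul_ne h𝔤 h𝔠
  have hn : Ideal.absNorm (𝔤 * 𝔠) ≠ 0 := by
    rwa [Ne, Ideal.absNorm_eq_zero_iff]
  obtain ⟨𝔟, hb⟩ := zl_exists_mul (Ideal.absNorm_mem (𝔤 * 𝔠))
  set n := Ideal.absNorm (𝔤 * 𝔠)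
  have hb' : 𝔤 * (𝔠 * 𝔟) = Ideal.span {(n : 𝓞 k)} := by rw [← mul_assoc, hb]
  have hb0 : 𝔟 ≠ ⊥ := by
    rintro rfl
    rw [Ideal.mul_bot] at hb
    exact zl_span_ne hn hb.symm
  have e1 : (LatI 𝔤).lattice.toAddSubgroup = (𝔠 * 𝔟).toAddSubgroup.map (zlMap n) := by
    ext z
    rw [Submodule.mem_toAddSubgroup, mem_LatI hk h𝔤, zl_memInv h𝔤 hn hb', AddSubgroup.mem_map]
    constructor
    · rintro ⟨b, hb, rfl⟩
      exact ⟨b, hb, rfl⟩
    · rintro ⟨b, hb, rfl⟩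
      exact ⟨b, hb, rfl⟩
  have e2 : (LatI (𝔤 * 𝔠)).lattice.toAddSubgroup = 𝔟.toAddSubgroup.map (zlMap n) := by
    ext z
    rw [Submodule.mem_toAddSubgroup, mem_LatI hk h𝔤𝔠, zl_memInv h𝔤𝔠 hn hb, AddSubgroup.mem_map]
    constructor
    · rintro ⟨b, hb, rfl⟩
      exact ⟨b, hb, rfl⟩
    · rintro ⟨b, hb, rfl⟩
      exact ⟨b, hb, rfl⟩
  have hle : (𝔠 * 𝔟).toAddSubgroup ≤ 𝔟.toAddSubgroup := fun x hx => Ideal.mul_le_right hx
  rw [idx, e1, e2, AddSubgroup.relIndex_map_map_of_injective _ _ (zlMap_inj hn)]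
  have h1 := AddSubgroup.relIndex_mul_relIndex _ _ _ hle le_top
  rw [AddSubgroup.relIndex_top_right, AddSubgroup.relIndex_top_right,
    ← Ideal.absNorm_eq_index, ← Ideal.absNorm_eq_index, map_mul] at h1
  have h2 : Ideal.absNorm 𝔟 ≠ 0 := by rwa [Ne, Ideal.absNorm_eq_zero_iff]
  exact Nat.eq_of_mul_eq_mul_right (Nat.pos_of_ne_zero h2) h1

omit [NumberField k] in
private theorem zl_homo {𝔤 𝔥 : Ideal (𝓞 k)} {a b : 𝓞 k} (ha : a ≠ 0)
    (hb : b ≠ 0) (h : Ideal.span {a} * 𝔤 ≤ Ideal.span {b} * 𝔥) {z : ℂ}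
    (hz : MemInv 𝔥 (algebraMap k ℂ (b : k) / algebraMap k ℂ (a : k) * z)) : MemInv 𝔤 z := by
  have ha' : (a : k) ≠ 0 := by
    rwa [Ne, RingOfIntegers.coe_eq_zero_iff]
  have hb' : (b : k) ≠ 0 := by
    rwa [Ne, RingOfIntegers.coe_eq_zero_iff]
  have ha'' : algebraMap k ℂ (a : k) ≠ 0 := by rwa [Ne, map_eq_zero]
  have hb'' : algebraMap k ℂ (b : k) ≠ 0 := by rwa [Ne, map_eq_zero]
  obtain ⟨x, hx, h1⟩ := hz
  refine ⟨(a : k) / b * x, ?_, fun g hg => ?_⟩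
  · rw [map_mul, map_div₀, hx]
    field_simp
  · have h2 : a * g ∈ Ideal.span {b} * 𝔥 :=
      h (Ideal.mem_span_singleton_mul.2 ⟨g, hg, rfl⟩)
    obtain ⟨w, hw, h3⟩ := Ideal.mem_span_singleton_mul.1 h2
    obtain ⟨y, hy⟩ := h1 w hw
    refine ⟨y, ?_⟩
    have h4 := congrArg (fun t : 𝓞 k => (t : k)) h3
    simp only [map_mul] at h4
    rw [← hy]
    field_simp
    linear_combination -x * h4

/-- `a 𝔤 = b 𝔥` gives `𝔥⁻¹ = (b/a)⁻¹... ` precisely: `z ∈ 𝔤⁻¹` iff `(b/a) z ∈ 𝔥⁻¹` -/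
theorem LatI_homothety (hk : IsIQ k) {𝔤 𝔥 : Ideal (𝓞 k)} (h𝔤 : 𝔤 ≠ ⊥) {a b : 𝓞 k} (ha : a ≠ 0)
    (hb : b ≠ 0) (h : Ideal.span {a} * 𝔤 = Ideal.span {b} * 𝔥) (z : ℂ) :
    (algebraMap k ℂ (b : k) / algebraMap k ℂ (a : k)) * z ∈ (LatI 𝔥).lattice ↔
      z ∈ (LatI 𝔤).lattice := by
  have ha' : algebraMap k ℂ (a : k) ≠ 0 := by
    rw [Ne, map_eq_zero]
    rwa [RingOfIntegers.coe_eq_zero_iff]
  have hb' : algebraMap k ℂ (b : k) ≠ 0 := by
    rw [Ne, map_eq_zero]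
    rwa [RingOfIntegers.coe_eq_zero_iff]
  have h𝔥 : 𝔥 ≠ ⊥ := by
    rintro rfl
    rw [Ideal.mul_bot] at h
    refine zl_mul_ne ?_ h𝔤 h
    rwa [Ne, Ideal.span_singleton_eq_bot]
  rw [mem_LatI hk h𝔤, mem_LatI hk h𝔥]
  constructor
  · exact zl_homo ha hb h.le
  · intro hz
    refine zl_homo hb ha h.ge ?_
    convert hz using 1
    field_simp

private theorem zl_one_mem (hk : IsIQ k) {𝔤 : Ideal (𝓞 k)} (h𝔤 : 𝔤 ≠ ⊥) (a : 𝓞 k) :
    algebraMap k ℂ (a : k) ∈ (LatI 𝔤).lattice := by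
  rw [mem_LatI hk h𝔤]
  exact ⟨a, rfl, fun g _ => ⟨g * a, by
    rw [RingOfIntegers.coe_eq_algebraMap (g * a), map_mul]⟩⟩

theorem ptt_mem_iff (hk : IsIQ k) {n : ℕ} (hn : n ≠ 0) {𝔤 : Ideal (𝓞 k)} (h𝔤 : 𝔤 ≠ ⊥)
    (hc : Prm n 𝔤) (a : 𝓞 k) : ptt n a ∈ (LatI 𝔤).lattice ↔ (n : 𝓞 k) ∣ a := by
  have hn' : (n : ℂ) ≠ 0 := by exact_mod_cast hn
  have hnk : (n : k) ≠ 0 := by exact_mod_cast hn
  constructor
  · intro h
    rw [mem_LatI hk h𝔤] at h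
    obtain ⟨x, hx, h1⟩ := h
    have hx' : (a : k) = n * x := by
      apply (algebraMap k ℂ).injective
      rw [map_mul, hx, ptt, map_natCast, mul_div_cancel₀ _ hn']
    obtain ⟨g, hg, t, ht, hgt⟩ := Ideal.isCoprime_iff_exists.1 hc
    obtain ⟨c, rfl⟩ := Ideal.mem_span_singleton.1 ht
    obtain ⟨y, hy⟩ := h1 g hg
    refine ⟨y + c * a, ?_⟩
    apply RingOfIntegers.coe_injective
    have h2 := congrArg (fun t : 𝓞 k => (t : k)) hgt
    simp only [RingOfIntegers.coe_eq_algebraMap, map_add, map_mul, map_natCast, map_one]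
      at h2 hy hx'
    rw [map_mul, map_add, map_mul, map_natCast, ← hy]
    linear_combination -(algebraMap (𝓞 k) k a) * h2 + (algebraMap (𝓞 k) k g) * hx'
  · rintro ⟨c, rfl⟩
    have h1 : ptt n ((n : 𝓞 k) * c) = algebraMap k ℂ (c : k) := by
      rw [ptt, RingOfIntegers.coe_eq_algebraMap, map_mul, map_mul, map_natCast, map_natCast,
        mul_div_cancel_left₀ _ hn', RingOfIntegers.coe_eq_algebraMap]
    rw [h1]
    exact zl_one_mem hk h𝔤 c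

/-- `n z ∈ 𝔤⁻¹` iff `z` is congruent to some `a / n` modulo `𝔤⁻¹`, for `n` prime to `𝔤` -/
theorem exists_ptt (hk : IsIQ k) {n : ℕ} (hn : n ≠ 0) {𝔤 : Ideal (𝓞 k)} (h𝔤 : 𝔤 ≠ ⊥)
    (hc : Prm n 𝔤) {z : ℂ} (hz : (n : ℂ) * z ∈ (LatI 𝔤).lattice) :
    ∃ a : 𝓞 k, z - ptt n a ∈ (LatI 𝔤).lattice := by
  have hn' : (n : ℂ) ≠ 0 := by exact_mod_cast hn
  have hz0 := hz
  rw [mem_LatI hk h𝔤] at hz
  obtain ⟨x, hx, h1⟩ := hz
  obtain ⟨g, hg, t, ht, hgt⟩ := Ideal.isCoprime_iff_exists.1 hc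
  obtain ⟨c, rfl⟩ := Ideal.mem_span_singleton.1 ht
  obtain ⟨y, hy⟩ := h1 g hg
  refine ⟨y, ?_⟩
  have h2 := congrArg (fun t : 𝓞 k => algebraMap k ℂ (t : k)) hgt
  simp only [map_add, map_mul, map_natCast, map_one] at h2
  have h3 : z - ptt n y = algebraMap k ℂ (c : k) * (n * z) := by
    rw [ptt, ← hy, map_mul, hx, RingOfIntegers.coe_eq_algebraMap,
      RingOfIntegers.coe_eq_algebraMap]
    field_simp
    linear_combination -z * h2
  rw [h3]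
  exact mul_mem_LatI hk h𝔤 c hz0

/-- an integer of `k` whose image is purely imaginary and not zero -/
private theorem zl_exists_imag (hk : IsIQ k) : ∃ (δ : 𝓞 k) (r : ℝ), 0 < r ∧
    (algebraMap k ℂ (δ : k) = r * Complex.I) := by
  obtain ⟨a, ha⟩ := zl_exists_nonreal hk
  have hint : IsIntegral ℤ (a : k) := a.isIntegral_coe
  have hmon : (minpoly ℤ (a : k)).Monic := minpoly.monic hint
  have hdeg : (minpoly ℤ (a : k)).natDegree ≤ 2 := by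
    have h1 := minpoly.natDegree_le (A := ℚ) (a : k)
    rw [hk.finrank_eq, minpoly.isIntegrallyClosed_eq_field_fractions' ℚ hint] at h1
    rwa [hmon.natDegree_map] at h1
  have h0 := minpoly.aeval ℤ (a : k)
  rw [Polynomial.aeval_eq_sum_range] at h0
  set u := (minpoly ℤ (a : k)).coeff 1 with hu
  set v := (minpoly ℤ (a : k)).coeff 0 with hv
  set w := algebraMap k ℂ (a : k) with hw
  have hlead := hmon.coeff_natDegree
  have hneg : ∀ t : ℤ, w ≠ t := by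
    intro t ht
    apply ha
    rw [ht]
    exact Complex.intCast_im t
  obtain h2 | h2 | h2 : (minpoly ℤ (a : k)).natDegree = 0 ∨ (minpoly ℤ (a : k)).natDegree = 1 ∨
      (minpoly ℤ (a : k)).natDegree = 2 := by omega
  · exfalso
    have h3 := minpoly.natDegree_pos hint
    omega
  · exfalso
    rw [h2] at h0 hlead
    rw [Finset.sum_range_succ, Finset.sum_range_one, hlead, pow_zero, pow_one, one_smul] at h0
    refine hneg (-v) ?_
    have h3 := congrArg (algebraMap k ℂ) h0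
    rw [map_add, map_zero, zsmul_eq_mul, mul_one, map_intCast] at h3
    push_cast
    linear_combination h3
  · rw [h2] at h0 hlead
    rw [Finset.sum_range_succ, Finset.sum_range_succ, Finset.sum_range_one, hlead, pow_zero,
      pow_one, one_smul] at h0
    have h3 := congrArg (algebraMap k ℂ) h0
    simp only [map_add, map_zero, zsmul_eq_mul, mul_one, map_intCast, map_mul, map_pow] at h3
    rw [← hw] at h3
    have h4 : (2 * w + u) ^ 2 = ((u ^ 2 - 4 * v : ℤ) : ℂ) := by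
      push_cast
      linear_combination 4 * h3
    have him : (2 * w + u).im = 2 * w.im := by
      simp
    have him0 : (2 * w + u).im ≠ 0 := by
      rw [him]
      exact mul_ne_zero two_ne_zero ha
    have hre : (2 * w + u).re = 0 := by
      have h5 := congrArg Complex.im h4
      rw [Complex.intCast_im, pow_two, Complex.mul_im] at h5
      have h6 : (2 * w + u).re * (2 * w + u).im = 0 := by linarith
      rcases mul_eq_zero.1 h6 with h7 | h7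
      · exact h7
      · exact absurd h7 him0
    have hval : algebraMap k ℂ ((2 * a + (u : 𝓞 k) : 𝓞 k) : k) = 2 * w + u := by
      rw [RingOfIntegers.coe_eq_algebraMap, map_add, map_mul, map_add, map_mul, map_intCast,
        map_intCast, map_ofNat, map_ofNat]
    have hw' : 2 * w + u = ((2 * w + u).im : ℂ) * Complex.I := by
      apply Complex.ext
      · simp [hre]
      · simp
    rcases lt_or_gt_of_ne him0 with h5 | h5
    · refine ⟨-(2 * a + (u : 𝓞 k)), -(2 * w + u).im, by linarith, ?_⟩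
      have h6 : algebraMap k ℂ ((-(2 * a + (u : 𝓞 k)) : 𝓞 k) : k) =
          -algebraMap k ℂ ((2 * a + (u : 𝓞 k) : 𝓞 k) : k) := by
        rw [RingOfIntegers.coe_eq_algebraMap, map_neg, map_neg, RingOfIntegers.coe_eq_algebraMap]
      rw [h6, hval]
      push_cast
      rw [neg_mul, ← hw']
    · refine ⟨2 * a + (u : 𝓞 k), (2 * w + u).im, h5, ?_⟩
      rw [hval, ← hw']

/-- all these lattices contain the same rectangular lattice -/
theorem exists_rect (hk : IsIQ k) : ∃ (r : ℝ) (hr : 0 < r), ∀ 𝔤 : Ideal (𝓞 k), 𝔤 ≠ ⊥ →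
    (Lrec r hr).lattice ≤ (LatI 𝔤).lattice := by
  obtain ⟨δ, r, hr, hδ⟩ := zl_exists_imag hk
  refine ⟨r, hr, fun 𝔤 h𝔤 => ?_⟩
  rw [PeriodPair.lattice, Submodule.span_le]
  rintro z (rfl | hz)
  · have h1 := zl_one_mem hk h𝔤 1
    have h2 : algebraMap k ℂ ((1 : 𝓞 k) : k) = 1 := by
      rw [RingOfIntegers.coe_eq_algebraMap, map_one, map_one]
    rw [h2] at h1
    exact h1
  · rw [Set.mem_singleton_iff] at hz
    rw [hz]
    have h1 := zl_one_mem hk h𝔤 δ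
    rw [hδ] at h1
    exact h1

omit [NumberField k] [Algebra k ℂ] in
private theorem zl_top : (⊤ : Ideal (𝓞 k)) ≠ ⊥ := top_ne_bot

omit [NumberField k] [Algebra k ℂ] in
private theorem zl_prm_top (n : ℕ) : Prm n (⊤ : Ideal (𝓞 k)) := by
  rw [Prm, Ideal.isCoprime_iff_sup_eq]
  exact top_sup_eq _

/-- for a point `a / n` it is the same to be in `𝔤⁻¹` or in `𝓞` -/
private theorem zl_iff (hk : IsIQ k) {n : ℕ} (hn : n ≠ 0) {𝔤 : Ideal (𝓞 k)} (h𝔤 : 𝔤 ≠ ⊥)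
    (hc : Prm n 𝔤) (a : 𝓞 k) :
    ptt n a ∈ (LatI 𝔤).lattice ↔ ptt n a ∈ (LatI (⊤ : Ideal (𝓞 k))).lattice := by
  rw [ptt_mem_iff hk hn h𝔤 hc, ptt_mem_iff hk hn zl_top (zl_prm_top n)]

private theorem ptt_add (n : ℕ) (a b : 𝓞 k) : ptt n (a + b) = ptt n a + ptt n b :=
  map_add (zlMap n) a b

private theorem ptt_sub (n : ℕ) (a b : 𝓞 k) : ptt n (a - b) = ptt n a - ptt n b :=
  map_sub (zlMap n) a b

/-- `z` with `n z ∈ 𝓞` is some `a / n` -/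
private theorem zl_eq_ptt (hk : IsIQ k) {n : ℕ} (hn : n ≠ 0) {z : ℂ}
    (h : (n : ℂ) * z ∈ (LatI (⊤ : Ideal (𝓞 k))).lattice) : ∃ a : 𝓞 k, ptt n a = z := by
  have hn' : (n : ℂ) ≠ 0 := by exact_mod_cast hn
  rw [mem_LatI hk zl_top] at h
  obtain ⟨x, hx, h1⟩ := h
  obtain ⟨y, hy⟩ := h1 1 Submodule.mem_top
  refine ⟨y, ?_⟩
  rw [ptt, ← hy, map_mul, hx, RingOfIntegers.coe_eq_algebraMap, map_one, map_one, one_mul,
    mul_div_cancel_left₀ _ hn']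

private theorem zl_nat_mul_mem (hk : IsIQ k) {𝔤 𝔠 : Ideal (𝓞 k)} (h𝔤 : 𝔤 ≠ ⊥) (h𝔠 : 𝔠 ≠ ⊥)
    {n : ℕ} (hc : (n : 𝓞 k) ∈ 𝔠) {z : ℂ} (hz : z ∈ (LatI (𝔤 * 𝔠)).lattice) :
    (n : ℂ) * z ∈ (LatI 𝔤).lattice := by
  rw [mem_LatI hk (zl_mul_ne h𝔤 h𝔠)] at hz
  rw [mem_LatI hk h𝔤]
  obtain ⟨x, rfl, h1⟩ := hz
  refine ⟨(n : k) * x, by rw [map_mul, map_natCast], fun g hg => ?_⟩
  obtain ⟨y, hy⟩ := h1 (g * n) (Ideal.mul_mem_mul hg hc)
  refine ⟨y, ?_⟩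
  rw [← hy, RingOfIntegers.coe_eq_algebraMap (g * (n : 𝓞 k)), map_mul, map_natCast,
    RingOfIntegers.coe_eq_algebraMap]
  ring

/-- a system of representatives of `𝔠⁻¹ / 𝓞` consisting of points `a / n` is one of `(𝔤𝔠)⁻¹ / 𝔤⁻¹` for all `𝔤` prime to `n` -/
theorem exists_half_ptt (hk : IsIQ k) {n : ℕ} (hn : n ≠ 0) {𝔠 : Ideal (𝓞 k)} (h𝔠 : 𝔠 ≠ ⊥)
    (hc : (n : 𝓞 k) ∈ 𝔠) : ∃ R : Finset (𝓞 k), ∀ 𝔤 : Ideal (𝓞 k), 𝔤 ≠ ⊥ → Prm n 𝔤 →
      Set.InjOn (ptt n) (R : Set (𝓞 k)) ∧ open Classical in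
      IsHalf (LatI 𝔤) (LatI (𝔤 * 𝔠)) (R.image (ptt n)) := by
  classical
  have hle : (LatI (⊤ : Ideal (𝓞 k))).lattice ≤ (LatI 𝔠).lattice := by
    have h1 := LatI_le hk zl_top h𝔠
    rwa [Ideal.top_mul] at h1
  obtain ⟨H, hH⟩ := exists_half hle
  have h1 : ∀ s ∈ H, ∃ a : 𝓞 k, ptt n a = s := by
    intro s hs
    refine zl_eq_ptt hk hn (zl_nat_mul_mem hk zl_top h𝔠 hc ?_)
    rw [Ideal.top_mul]
    exact hH.mem s hs
  choose! α hα using h1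
  refine ⟨H.image α, fun 𝔤 h𝔤 hp => ⟨(zlMap_inj hn).injOn, ?_⟩⟩
  have h2 : (H.image α).image (ptt n) = H := by
    rw [Finset.image_image]
    ext s
    rw [Finset.mem_image]
    constructor
    · rintro ⟨t, ht, rfl⟩
      rw [Function.comp_apply, hα t ht]
      exact ht
    · intro hs
      exact ⟨s, hs, hα s hs⟩
  rw [h2]
  have hle' : (LatI 𝔠).lattice ≤ (LatI (𝔤 * 𝔠)).lattice := by
    rw [mul_comm]
    exact LatI_le hk h𝔠 h𝔤
  have htop : (LatI (⊤ : Ideal (𝓞 k))).lattice ≤ (LatI 𝔤).lattice := by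
    have h1 := LatI_le hk zl_top h𝔤
    rwa [Ideal.top_mul] at h1
  refine ⟨LatI_le hk h𝔤 h𝔠, fun s hs => hle' (hH.mem s hs), fun s hs h3 => ?_, ?_, ?_⟩
  · rw [← hα s hs, zl_iff hk hn h𝔤 hp, hα s hs] at h3
    exact hH.notMem s hs h3
  · intro l hl hl'
    obtain ⟨a, ha⟩ := exists_ptt hk hn h𝔤 hp (zl_nat_mul_mem hk h𝔤 h𝔠 hc hl)
    have h3 : ptt n a ∈ (LatI (𝔤 * 𝔠)).lattice := by
      have h4 := Submodule.sub_mem _ hl (LatI_le hk h𝔤 h𝔠 ha)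
      rwa [sub_sub_cancel] at h4
    have h4 : ptt n a ∈ (LatI 𝔠).lattice := by
      rw [mem_LatI hk h𝔠]
      refine ⟨(a : k) / n, by rw [ptt, map_div₀, map_natCast], fun c hcc => ?_⟩
      have h5 : ptt n (c * a) ∈ (LatI 𝔤).lattice := by
        rw [mem_LatI hk h𝔤]
        rw [mem_LatI hk (zl_mul_ne h𝔤 h𝔠)] at h3
        obtain ⟨x, hx, h6⟩ := h3
        refine ⟨(c : k) * x, ?_, fun g hg => ?_⟩
        · rw [map_mul, hx, ptt, ptt, RingOfIntegers.coe_eq_algebraMap (c * a), map_mul, map_mul,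
            RingOfIntegers.coe_eq_algebraMap, RingOfIntegers.coe_eq_algebraMap]
          ring
        · obtain ⟨y, hy⟩ := h6 (g * c) (Ideal.mul_mem_mul hg hcc)
          refine ⟨y, ?_⟩
          rw [← hy, RingOfIntegers.coe_eq_algebraMap (g * c), map_mul,
            RingOfIntegers.coe_eq_algebraMap, RingOfIntegers.coe_eq_algebraMap]
          ring
      rw [ptt_mem_iff hk hn h𝔤 hp] at h5
      obtain ⟨y, hy⟩ := h5
      refine ⟨y, ?_⟩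
      have h6 := congrArg (algebraMap (𝓞 k) k) hy
      rw [map_mul, map_mul, map_natCast] at h6
      have hnk : (n : k) ≠ 0 := by exact_mod_cast hn
      rw [RingOfIntegers.coe_eq_algebraMap, RingOfIntegers.coe_eq_algebraMap, mul_div_assoc', h6,
        mul_div_cancel_left₀ _ hnk, RingOfIntegers.coe_eq_algebraMap]
    have h5 : ptt n a ∉ (LatI (⊤ : Ideal (𝓞 k))).lattice := by
      intro h6
      apply hl'
      have h7 := Submodule.add_mem _ ha (htop h6)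
      rwa [sub_add_cancel] at h7
    obtain ⟨s, hs, h6⟩ := hH.ex _ h4 h5
    refine ⟨s, hs, ?_⟩
    rcases h6 with h6 | h6
    · left
      have h7 := Submodule.add_mem _ ha (htop h6)
      rwa [sub_add_sub_cancel] at h7
    · right
      have h7 := Submodule.add_mem _ ha (htop h6)
      have h8 : l - ptt n a + (ptt n a + s) = l + s := by ring
      rwa [h8] at h7
  · intro s hs t ht h3
    refine hH.inj s hs t ht ?_
    rw [← hα s hs, ← hα t ht, ← ptt_add, ← ptt_sub, zl_iff hk hn h𝔤 hp,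
      zl_iff hk hn h𝔤 hp] at h3
    rwa [ptt_add, ptt_sub, hα s hs, hα t ht] at h3

theorem exists_tors_ptt (hk : IsIQ k) {n m : ℕ} (hn : n ≠ 0) (hm : m ∣ n) :
    ∃ T : Finset (𝓞 k), ∀ 𝔤 : Ideal (𝓞 k), 𝔤 ≠ ⊥ → Prm n 𝔤 →
      Set.InjOn (ptt n) (T : Set (𝓞 k)) ∧ open Classical in
      IsTors m (LatI 𝔤) (T.image (ptt n)) := by
  classical
  have hm0 : 0 < m := Nat.pos_of_dvd_of_pos hm (Nat.pos_of_ne_zero hn)
  obtain ⟨j, hj⟩ := hm
  have hH := isTors_torT hm0 (LatI (⊤ : Ideal (𝓞 k)))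
  set H := torT m (LatI (⊤ : Ideal (𝓞 k)))
  have hmul : ∀ {L : PeriodPair} {z : ℂ}, (m : ℂ) * z ∈ L.lattice → (n : ℂ) * z ∈ L.lattice := by
    intro L z hz
    have h1 := L.lattice.smul_mem (j : ℤ) hz
    rw [zsmul_eq_mul] at h1
    have h2 : ((j : ℤ) : ℂ) * (m * z) = n * z := by
      rw [hj]
      push_cast
      ring
    rwa [h2] at h1
  have h1 : ∀ s ∈ H, ∃ a : 𝓞 k, ptt n a = s := fun s hs =>
    zl_eq_ptt hk hn (hmul (hH.mem s hs))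
  choose! α hα using h1
  refine ⟨H.image α, fun 𝔤 h𝔤 hp => ⟨(zlMap_inj hn).injOn, ?_⟩⟩
  have h2 : (H.image α).image (ptt n) = H := by
    rw [Finset.image_image]
    ext s
    rw [Finset.mem_image]
    constructor
    · rintro ⟨t, ht, rfl⟩
      rw [Function.comp_apply, hα t ht]
      exact ht
    · intro hs
      exact ⟨s, hs, hα s hs⟩
  rw [h2]
  have htop : (LatI (⊤ : Ideal (𝓞 k))).lattice ≤ (LatI 𝔤).lattice := by
    have h1 := LatI_le hk zl_top h𝔤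
    rwa [Ideal.top_mul] at h1
  refine ⟨fun s hs => htop (hH.mem s hs), fun s hs h3 => ?_, ?_, ?_⟩
  · rw [← hα s hs, zl_iff hk hn h𝔤 hp, hα s hs] at h3
    exact hH.notMem s hs h3
  · intro z hz hz'
    obtain ⟨a, ha⟩ := exists_ptt hk hn h𝔤 hp (hmul hz)
    have hma : ∀ L : PeriodPair, (m : ℂ) * ptt n a ∈ L.lattice ↔
        ptt n ((m : 𝓞 k) * a) ∈ L.lattice := by
      intro L
      have h3 : (m : ℂ) * ptt n a = ptt n ((m : 𝓞 k) * a) := by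
        rw [ptt, ptt, RingOfIntegers.coe_eq_algebraMap ((m : 𝓞 k) * a), map_mul, map_mul,
          map_natCast, map_natCast, RingOfIntegers.coe_eq_algebraMap]
        ring
      rw [h3]
    have h3 : (m : ℂ) * ptt n a ∈ (LatI 𝔤).lattice := by
      have h4 := (LatI 𝔤).lattice.smul_mem (m : ℤ) ha
      rw [zsmul_eq_mul] at h4
      have h5 := Submodule.sub_mem _ hz h4
      have h6 : (m : ℂ) * z - ((m : ℤ) : ℂ) * (z - ptt n a) = m * ptt n a := by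
        push_cast
        ring
      rwa [h6] at h5
    rw [hma, zl_iff hk hn h𝔤 hp, ← hma] at h3
    have h5 : ptt n a ∉ (LatI (⊤ : Ideal (𝓞 k))).lattice := by
      intro h6
      apply hz'
      have h7 := Submodule.add_mem _ ha (htop h6)
      rwa [sub_add_cancel] at h7
    obtain ⟨t, ht, h6⟩ := hH.ex _ h3 h5
    refine ⟨t, ht, ?_⟩
    have h7 := Submodule.add_mem _ ha (htop h6)
    rwa [sub_add_sub_cancel] at h7
  · intro s hs t ht h3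
    refine hH.inj s hs t ht ?_
    rw [← hα s hs, ← hα t ht, ← ptt_sub, zl_iff hk hn h𝔤 hp] at h3
    rwa [ptt_sub, hα s hs, hα t ht] at h3

end Pool.Agent.CMR
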