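import Pool.Agent.CMR.GVal
import Pool.Agent.CMR.IA2
import Pool.Agent.CMR.ZLat

/-!
# G-U elliptic units as elements of the field F

`R` (half system of `𝔠⁻¹/𝓞`, `exists_half_ptt`), `T₂`, `T₃` (torsion, `exists_tors_ptt`) are finite sets of elements of `𝓞 k`, giving systems for all `𝔤` prime to `n`. With `e(a) = ℘[LatI 𝔤](ptt n a)`,
`c = N(𝔠)`, `z = 1/N = ptt n (n/N)`: `UU N 𝔠 𝔤 = (2^{c-1} ∏_{t ∈ T₂} ∏_{s ∈ R} (e t - e s))³ / (3^{c-1} ∏_{t ∈ T₃} ∏_{s ∈ R} (e t - e s) · ∏_{s ∈ R} (e(n/N) - e s))`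
(`AA_eq`, `DD_eq_prod`, `idx_LatI`). `e a - e b = (e 2 - e 1)(crI a - crI b)`; the numbers of factors are `9 card R` (`card T₂ = 3`) and
`8 card R + card R`, so `e 2 - e 1 ≠ 0` cancels. Define `u 𝔤` by the same formula with `X 𝔤 a` instead of `crI n 𝔤 a` (all `a` occurring are not divisible by `n`). `τ` commutes with the
rational expression. (`𝔤𝔥` is prime to `n`.)
-/

set_option autoImplicit false

noncomputable section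

open NumberField Pool.Agent.StarkRQ
open scoped PeriodPair

namespace Pool.Agent.CMR

/-- the rational expression -/
private def guE {A K : Type} [Field K] (c : ℕ) (R T₂ T₃ : Finset A) (a₀ : A) (x : A → K) : K :=
  ((2 : K) ^ (c - 1) * ∏ t ∈ T₂, ∏ s ∈ R, (x t - x s)) ^ 3 /
    (((3 : K) ^ (c - 1) * ∏ t ∈ T₃, ∏ s ∈ R, (x t - x s)) * ∏ s ∈ R, (x a₀ - x s))

private lemma guE_map {A K K' : Type} [Field K] [Field K'] (f : K →+* K') (c : ℕ)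
    (R T₂ T₃ : Finset A) (a₀ : A) (x : A → K) (y : A → K') (hR : ∀ a ∈ R, f (x a) = y a)
    (h₂ : ∀ a ∈ T₂, f (x a) = y a) (h₃ : ∀ a ∈ T₃, f (x a) = y a) (h₀ : f (x a₀) = y a₀) :
    f (guE c R T₂ T₃ a₀ x) = guE c R T₂ T₃ a₀ y := by
  unfold guE
  rw [map_div₀, map_pow, map_mul, map_mul, map_mul, map_pow, map_pow, map_prod, map_prod, map_prod,
    map_ofNat, map_ofNat]
  have e1 : ∀ T : Finset A, (∀ a ∈ T, f (x a) = y a) →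
      ∏ t ∈ T, f (∏ s ∈ R, (x t - x s)) = ∏ t ∈ T, ∏ s ∈ R, (y t - y s) := by
    intro T hT
    refine Finset.prod_congr rfl fun t ht => ?_
    rw [map_prod]
    refine Finset.prod_congr rfl fun s hs => ?_
    rw [map_sub, hT t ht, hR s hs]
  have e2 : ∏ s ∈ R, f (x a₀ - x s) = ∏ s ∈ R, (y a₀ - y s) := by
    refine Finset.prod_congr rfl fun s hs => ?_
    rw [map_sub, h₀, hR s hs]
  rw [e1 T₂ h₂, e1 T₃ h₃, e2]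

private lemma guE_scale {A K : Type} [Field K] (c : ℕ) (R T₂ T₃ : Finset A) (a₀ : A)
    (h₂ : T₂.card = 3) (h₃ : T₃.card = 8) {d e : K} (hd : d ≠ 0) (x y : A → K)
    (h : ∀ a, y a = d * x a + e) : guE c R T₂ T₃ a₀ y = guE c R T₂ T₃ a₀ x := by
  unfold guE
  have e1 : ∀ t, ∏ s ∈ R, (y t - y s) = d ^ R.card * ∏ s ∈ R, (x t - x s) := by
    intro t
    rw [← Finset.prod_const, ← Finset.prod_mul_distrib]
    refine Finset.prod_congr rfl fun s _ => ?_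
    rw [h, h]
    ring
  have e2 : ∀ T : Finset A, ∏ t ∈ T, ∏ s ∈ R, (y t - y s) =
      (d ^ R.card) ^ T.card * ∏ t ∈ T, ∏ s ∈ R, (x t - x s) := by
    intro T
    rw [← Finset.prod_const, ← Finset.prod_mul_distrib]
    exact Finset.prod_congr rfl fun t _ => e1 t
  rw [e2, e2, e1, h₂, h₃]
  have hd' : d ^ R.card ≠ 0 := pow_ne_zero _ hd
  generalize d ^ R.card = D at hd'
  generalize ∏ t ∈ T₂, ∏ s ∈ R, (x t - x s) = P2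
  generalize ∏ t ∈ T₃, ∏ s ∈ R, (x t - x s) = P3
  generalize ∏ s ∈ R, (x a₀ - x s) = P1
  have e3 : ((2 : K) ^ (c - 1) * (D ^ 3 * P2)) ^ 3 = D ^ 9 * ((2 : K) ^ (c - 1) * P2) ^ 3 := by
    ring
  have e4 : (3 : K) ^ (c - 1) * (D ^ 8 * P3) * (D * P1) =
      D ^ 9 * ((3 : K) ^ (c - 1) * P3 * P1) := by
    ring
  rw [e3, e4, mul_div_mul_left _ _ (pow_ne_zero 9 hd')]

variable {k : Type} [Field k] [NumberField k] [Algebra k ℂ]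

omit [Algebra k ℂ] in
private lemma gu_ndvd {n b : ℕ} (hb : 0 < b) (hbn : b < n) : ¬ (n : 𝓞 k) ∣ (b : 𝓞 k) := by
  intro h
  have h1 := (Ideal.absNorm_dvd_absNorm_of_le
    (Ideal.span_singleton_le_span_singleton.2 h))
  have h2 : ∀ m : ℕ, Ideal.absNorm (Ideal.span {(m : 𝓞 k)}) = m ^ Module.finrank ℤ (𝓞 k) := by
    intro m
    rw [Ideal.absNorm_span_singleton]
    have h3 := Algebra.norm_algebraMap (S := 𝓞 k) (m : ℤ)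
    rw [map_natCast] at h3
    rw [h3, Int.natAbs_pow, Int.natAbs_natCast]
  rw [h2, h2] at h1
  have h3 : Module.finrank ℤ (𝓞 k) ≠ 0 := Module.finrank_pos.ne'
  have h4 := (Nat.pow_dvd_pow_iff h3).1 h1
  exact absurd (Nat.le_of_dvd hb h4) (by omega)

private lemma gu_UU (hk : IsIQ k) {n N : ℕ} (hn : 5 ≤ n) (hN : N ∣ n) (hN2 : 2 ≤ N)
    {𝔠 : Ideal (𝓞 k)} (hc0 : 𝔠 ≠ ⊥) (hc6 : (Ideal.absNorm 𝔠).Coprime 6)
    {R T₂ T₃ : Finset (𝓞 k)} {𝔤 : Ideal (𝓞 k)} (h0 : 𝔤 ≠ ⊥) (hp : Prm n 𝔤)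
    (hRi : Set.InjOn (ptt n) (R : Set (𝓞 k)))
    (hR : open Classical in IsHalf (LatI 𝔤) (LatI (𝔤 * 𝔠)) (R.image (ptt n)))
    (hT₂i : Set.InjOn (ptt n) (T₂ : Set (𝓞 k)))
    (hT₂ : open Classical in IsTors 2 (LatI 𝔤) (T₂.image (ptt n)))
    (hT₃i : Set.InjOn (ptt n) (T₃ : Set (𝓞 k)))
    (hT₃ : open Classical in IsTors 3 (LatI 𝔤) (T₃.image (ptt n))) :
    UU N 𝔠 𝔤 = guE (Ideal.absNorm 𝔠) R T₂ T₃ ((n / N : ℕ) : 𝓞 k) (crI n 𝔤) := by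
  classical
  have hn0 : n ≠ 0 := by omega
  set e : 𝓞 k → ℂ := fun a => ℘[LatI 𝔤] (ptt n a) with he
  have hone : ∀ a : 𝓞 k, ptt n a ∈ (LatI 𝔤).lattice ↔ (n : 𝓞 k) ∣ a := ptt_mem_iff hk hn0 h0 hp
  -- `e 2 ≠ e 1`
  have hd : e 2 - e 1 ≠ 0 := by
    rw [sub_ne_zero]
    intro h
    have h1 : ¬ (n : 𝓞 k) ∣ 1 := by
      have := gu_ndvd (k := k) (n := n) (b := 1) one_pos (by omega)
      rwa [Nat.cast_one] at this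
    have h2 : ¬ (n : 𝓞 k) ∣ 2 := by
      have := gu_ndvd (k := k) (n := n) (b := 2) two_pos (by omega)
      rwa [Nat.cast_ofNat] at this
    have h3 : ¬ (n : 𝓞 k) ∣ 3 := by
      have := gu_ndvd (k := k) (n := n) (b := 3) three_pos (by omega)
      rwa [Nat.cast_ofNat] at this
    have hsub : ptt n (2 : 𝓞 k) - ptt n (1 : 𝓞 k) = ptt n (1 : 𝓞 k) := by
      rw [ptt, ptt, RingOfIntegers.coe_eq_algebraMap, RingOfIntegers.coe_eq_algebraMap,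
        map_one, map_one, map_ofNat, map_ofNat]
      ring
    have hadd : ptt n (2 : 𝓞 k) + ptt n (1 : 𝓞 k) = ptt n (3 : 𝓞 k) := by
      rw [ptt, ptt, ptt, RingOfIntegers.coe_eq_algebraMap, RingOfIntegers.coe_eq_algebraMap,
        RingOfIntegers.coe_eq_algebraMap, map_one, map_one, map_ofNat, map_ofNat, map_ofNat,
        map_ofNat]
      ring
    rcases CMG.P_inj (LatI 𝔤) (fun h4 => h2 ((hone 2).1 h4)) (fun h4 => h1 ((hone 1).1 h4)) h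
      with h4 | h4
    · rw [hsub] at h4
      exact h1 ((hone _).1 h4)
    · rw [hadd] at h4
      exact h3 ((hone _).1 h4)
  -- the affine relation
  have hce : ∀ a, e a = (e 2 - e 1) * crI n 𝔤 a + e 1 := by
    intro a
    have h1 : crI n 𝔤 a = (e a - e 1) / (e 2 - e 1) := rfl
    rw [h1, mul_div_cancel₀ _ hd]
    ring
  have hidx := idx_LatI hk h0 hc0
  -- the products
  have hDD : ∀ z, DD (LatI 𝔤) (LatI (𝔤 * 𝔠)) z = ∏ s ∈ R, (℘[LatI 𝔤] z - e s) := by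
    intro z
    rw [DD_eq_prod hR, Finset.prod_image hRi]
  have hAA : ∀ (m : ℕ) (T : Finset (𝓞 k)), 0 < m → Set.InjOn (ptt n) (T : Set (𝓞 k)) →
      IsTors m (LatI 𝔤) (T.image (ptt n)) →
      AA m (LatI 𝔤) (LatI (𝔤 * 𝔠)) =
        (m : ℂ) ^ (Ideal.absNorm 𝔠 - 1) * ∏ t ∈ T, ∏ s ∈ R, (e t - e s) := by
    intro m T hm hTi hT
    rw [AA_eq hm hT, hidx, Finset.prod_image hTi]
    congr 1
    exact Finset.prod_congr rfl fun t _ => hDD _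
  have hcard₂ : T₂.card = 3 := by
    have h1 := IsTors.card two_pos hT₂
    rw [Finset.card_image_of_injOn hT₂i] at h1
    rw [h1]
    norm_num
  have hcard₃ : T₃.card = 8 := by
    have h1 := IsTors.card three_pos hT₃
    rw [Finset.card_image_of_injOn hT₃i] at h1
    rw [h1]
    norm_num
  have hz : ptt N (1 : 𝓞 k) = ptt n ((n / N : ℕ) : 𝓞 k) := by
    obtain ⟨j, rfl⟩ := hN
    have hN0 : N ≠ 0 := by omega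
    have hj0 : j ≠ 0 := by
      rintro rfl
      omega
    rw [Nat.mul_div_cancel_left _ (by omega : 0 < N), ptt, ptt, RingOfIntegers.coe_eq_algebraMap,
      RingOfIntegers.coe_eq_algebraMap, map_one, map_one, map_natCast, map_natCast]
    have hN0' : (N : ℂ) ≠ 0 := by exact_mod_cast hN0
    have hj0' : (j : ℂ) ≠ 0 := by exact_mod_cast hj0
    push_cast
    field_simp
  have hUU : UU N 𝔠 𝔤 = guE (Ideal.absNorm 𝔠) R T₂ T₃ ((n / N : ℕ) : 𝓞 k) e := by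
    rw [UU, Psi, hAA 2 T₂ two_pos hT₂i hT₂, hAA 3 T₃ three_pos hT₃i hT₃, hDD, hz, guE,
      Nat.cast_ofNat, Nat.cast_ofNat]
  rw [hUU]
  exact guE_scale _ R T₂ T₃ _ hcard₂ hcard₃ hd _ _ hce

/-- the elliptic units as elements of `F`, and the Galois action on them -/
theorem exists_u {k : Type} [Field k] [NumberField k] [Algebra k ℂ] (hk : IsIQ k) {n N : ℕ}
    (hn : 5 ≤ n) (hN : N ∣ n) (hN2 : 2 ≤ N) (h6 : 6 ∣ n) {𝔠 : Ideal (𝓞 k)} (hc0 : 𝔠 ≠ ⊥)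
    (hc6 : (Ideal.absNorm 𝔠).Coprime 6) (hcN : Prm N 𝔠) (hcn : (n : 𝓞 k) ∈ 𝔠) {F : Type} [Field F]
    [NumberField F] [Algebra k F] (κ : F →+* ℂ) (X : Ideal (𝓞 k) → 𝓞 k → F)
    (hX : ∀ 𝔤 : Ideal (𝓞 k), 𝔤 ≠ ⊥ → Prm n 𝔤 → ∀ a : 𝓞 k, ¬ (n : 𝓞 k) ∣ a →
      κ (X 𝔤 a) = crI n 𝔤 a) :
    ∃ u : Ideal (𝓞 k) → F, (∀ 𝔤 : Ideal (𝓞 k), 𝔤 ≠ ⊥ → Prm n 𝔤 → κ (u 𝔤) = UU N 𝔠 𝔤) ∧
      ∀ (τ : Gal(F/k)) (𝔥 : Ideal (𝓞 k)), 𝔥 ≠ ⊥ → Prm n 𝔥 →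
        (∀ 𝔤 : Ideal (𝓞 k), 𝔤 ≠ ⊥ → Prm n 𝔤 → ∀ a : 𝓞 k, ¬ (n : 𝓞 k) ∣ a →
          τ (X 𝔤 a) = X (𝔤 * 𝔥) a) →
        ∀ 𝔤 : Ideal (𝓞 k), 𝔤 ≠ ⊥ → Prm n 𝔤 → τ (u 𝔤) = u (𝔤 * 𝔥) := by
  classical
  have hn0 : n ≠ 0 := by omega
  obtain ⟨R, hR⟩ := exists_half_ptt hk hn0 hc0 hcn
  obtain ⟨T₂, hT₂⟩ := exists_tors_ptt hk hn0 (m := 2) ((by norm_num : 2 ∣ 6).trans h6)
  obtain ⟨T₃, hT₃⟩ := exists_tors_ptt hk hn0 (m := 3) ((by norm_num : 3 ∣ 6).trans h6)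
  have hndR : ∀ {𝔤 : Ideal (𝓞 k)}, 𝔤 ≠ ⊥ → Prm n 𝔤 → ∀ a ∈ R, ¬ (n : 𝓞 k) ∣ a := by
    intro 𝔤 h0 hp a ha hd
    refine (hR 𝔤 h0 hp).2.notMem (ptt n a) ?_ ((ptt_mem_iff hk hn0 h0 hp a).2 hd)
    exact Finset.mem_image_of_mem _ ha
  have hndT₂ : ∀ {𝔤 : Ideal (𝓞 k)}, 𝔤 ≠ ⊥ → Prm n 𝔤 → ∀ a ∈ T₂, ¬ (n : 𝓞 k) ∣ a := by
    intro 𝔤 h0 hp a ha hd
    refine (hT₂ 𝔤 h0 hp).2.notMem (ptt n a) ?_ ((ptt_mem_iff hk hn0 h0 hp a).2 hd)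
    exact Finset.mem_image_of_mem _ ha
  have hndT₃ : ∀ {𝔤 : Ideal (𝓞 k)}, 𝔤 ≠ ⊥ → Prm n 𝔤 → ∀ a ∈ T₃, ¬ (n : 𝓞 k) ∣ a := by
    intro 𝔤 h0 hp a ha hd
    refine (hT₃ 𝔤 h0 hp).2.notMem (ptt n a) ?_ ((ptt_mem_iff hk hn0 h0 hp a).2 hd)
    exact Finset.mem_image_of_mem _ ha
  have hnd0 : ¬ (n : 𝓞 k) ∣ ((n / N : ℕ) : 𝓞 k) := by
    refine gu_ndvd ?_ ?_
    · exact Nat.div_pos (Nat.le_of_dvd (by omega) hN) (by omega)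
    · exact Nat.div_lt_self (by omega) (by omega)
  refine ⟨fun 𝔤 => guE (Ideal.absNorm 𝔠) R T₂ T₃ ((n / N : ℕ) : 𝓞 k) (X 𝔤), ?_, ?_⟩
  · intro 𝔤 h0 hp
    rw [gu_UU hk hn hN hN2 hc0 hc6 h0 hp (hR 𝔤 h0 hp).1 (hR 𝔤 h0 hp).2 (hT₂ 𝔤 h0 hp).1
      (hT₂ 𝔤 h0 hp).2 (hT₃ 𝔤 h0 hp).1 (hT₃ 𝔤 h0 hp).2]
    exact guE_map κ _ R T₂ T₃ _ _ _ (fun a ha => hX 𝔤 h0 hp a (hndR h0 hp a ha))
      (fun a ha => hX 𝔤 h0 hp a (hndT₂ h0 hp a ha)) (fun a ha => hX 𝔤 h0 hp a (hndT₃ h0 hp a ha))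
      (hX 𝔤 h0 hp _ hnd0)
  · intro τ 𝔥 h𝔥0 h𝔥p hτ 𝔤 h0 hp
    exact guE_map (τ : F →+* F) _ R T₂ T₃ _ _ _ (fun a ha => hτ 𝔤 h0 hp a (hndR h0 hp a ha))
      (fun a ha => hτ 𝔤 h0 hp a (hndT₂ h0 hp a ha)) (fun a ha => hτ 𝔤 h0 hp a (hndT₃ h0 hp a ha))
      (hτ 𝔤 h0 hp _ hnd0)

end Pool.Agent.CMR
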