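import Pool.Agent.CMR.LKer

/-!
# L-KRON Kronecker congruence

`cr_integral`: `exists_good`, `notInE_of_tors`; `|℘ z - ℘ w₀| ≤ |d|` and `|℘ w₁ - ℘ w₀| = |d|` (`unit_diff` or `val_P_sub`).
`kronecker_congr`: `L = 𝔤⁻¹ ⊆ L' = (𝔤𝔭)⁻¹`, index `q = N(𝔭)` a power of the residue characteristic of `V`, prime to `n`; so `w₀, w₁, z, w₁ ± w₀, 2w₀` are not in
`L'` either. `R` a system of representatives; `P_isog` with `w = w₀` at `z` and at `w₁`, divided: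
`cr L' z = ∏_{s ∈ R} (℘[L](z+s) - ℘[L] w₀)/(℘[L](w₁+s) - ℘[L] w₀)`. `Good V L e d`; every `s ∈ R` is in `InE` (`inE_of_prime`), so by `xx_shift`
`xx(z+s) ≡ xx z`, `xx(w₁+s) ≡ xx w₁`, and `|xx w₁ - xx w₀| = 1`; every factor is `≡ (xx z - xx w₀)/(xx w₁ - xx w₀) = cr L z` modulo the maximal ideal,
both integral, and `card R = q` (`IsReps.card`, `idx_LatI`).
-/

set_option autoImplicit false

noncomputable section

open NumberField
open scoped PeriodPair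

namespace Pool.Agent.CMR

variable {V : ValuationSubring ℂ} {k : Type} [Field k] [NumberField k] [Algebra k ℂ]

/-- the normalized coordinate -/
def cr (L : PeriodPair) (w₀ w₁ z : ℂ) : ℂ := (℘[L] z - ℘[L] w₀) / (℘[L] w₁ - ℘[L] w₀)

private theorem kr_P_sub {L : PeriodPair} {e d : ℂ} (hd : d ≠ 0) (z w : ℂ) :
    ℘[L] z - ℘[L] w = d * (xx L e d z - xx L e d w) := by
  unfold xx
  field_simp
  ring

/-- products of congruent integral elements are congruent -/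
private theorem kr_prod {ι : Type} (R : Finset ι) (f g : ι → ℂ)
    (hf : ∀ s ∈ R, V.valuation (f s) ≤ 1) (hg : ∀ s ∈ R, V.valuation (g s) ≤ 1)
    (h : ∀ s ∈ R, V.valuation (f s - g s) < 1) :
    V.valuation (∏ s ∈ R, f s - ∏ s ∈ R, g s) < 1 := by
  classical
  induction R using Finset.induction_on with
  | empty =>
    rw [Finset.prod_empty, Finset.prod_empty, sub_self, map_zero]
    exact zero_lt_one
  | insert a s ha ih =>
    rw [Finset.prod_insert ha, Finset.prod_insert ha]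
    have h1 := ih (fun t ht => hf t (Finset.mem_insert_of_mem ht))
      (fun t ht => hg t (Finset.mem_insert_of_mem ht))
      (fun t ht => h t (Finset.mem_insert_of_mem ht))
    have h2 : V.valuation (∏ t ∈ s, f t) ≤ 1 := by
      rw [map_prod]
      exact Finset.prod_le_one' (fun t ht => hf t (Finset.mem_insert_of_mem ht))
    have h3 : f a * ∏ t ∈ s, f t - g a * ∏ t ∈ s, g t =
        (f a - g a) * ∏ t ∈ s, f t + g a * (∏ t ∈ s, f t - ∏ t ∈ s, g t) := by ring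
    rw [h3]
    refine lt_of_le_of_lt (V.valuation.map_add _ _) (max_lt ?_ ?_)
    · rw [map_mul]
      exact mul_lt_one_of_lt_of_le (h a (Finset.mem_insert_self _ _)) h2
    · rw [map_mul]
      rw [mul_comm]
      exact mul_lt_one_of_lt_of_le h1 (hg a (Finset.mem_insert_self _ _))

private theorem kr_not {L : PeriodPair} (hL : CMlat L) {e d : ℂ} (hg : Good V L e d) {n : ℕ}
    (hn : V.valuation (n : ℂ) = 1) {w₀ w₁ : ℂ} (h0 : (n : ℂ) * w₀ ∈ L.lattice)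
    (h1 : (n : ℂ) * w₁ ∈ L.lattice) (h0' : w₀ ∉ L.lattice) (h1' : w₁ ∉ L.lattice)
    (ha : w₁ - w₀ ∉ L.lattice) (hb : w₁ + w₀ ∉ L.lattice) :
    ¬ InE V L e d w₀ ∧ ¬ InE V L e d w₁ ∧ V.valuation (℘[L] w₁ - ℘[L] w₀) = V.valuation d := by
  have e0 := notInE_of_tors hL hg hn h0 h0'
  have e1 := notInE_of_tors hL hg hn h1 h1'
  refine ⟨e0, e1, ?_⟩
  refine val_P_sub hg e1 e0 ?_ ?_
  · refine notInE_of_tors hL hg hn ?_ ha
    rw [mul_sub]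
    exact sub_mem h1 h0
  · refine notInE_of_tors hL hg hn ?_ hb
    rw [mul_add]
    exact add_mem h1 h0

theorem cr_integral {L : PeriodPair} (hL : CMlat L) {n : ℕ} (hn : V.valuation (n : ℂ) = 1)
    {w₀ w₁ z : ℂ} (h0 : (n : ℂ) * w₀ ∈ L.lattice) (h1 : (n : ℂ) * w₁ ∈ L.lattice)
    (hz : (n : ℂ) * z ∈ L.lattice) (h0' : w₀ ∉ L.lattice) (h1' : w₁ ∉ L.lattice)
    (hz' : z ∉ L.lattice) (ha : w₁ - w₀ ∉ L.lattice) (hb : w₁ + w₀ ∉ L.lattice) :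
    V.valuation (cr L w₀ w₁ z) ≤ 1 := by
  obtain ⟨e, d, hg⟩ := exists_good V hL
  obtain ⟨e0, e1, hv⟩ := kr_not hL hg hn h0 h1 h0' h1' ha hb
  have ez := notInE_of_tors hL hg hn hz hz'
  have hd0 : V.valuation d ≠ 0 := (Valuation.ne_zero_iff _).2 hg.ne
  unfold cr
  rw [map_div₀, hv, kr_P_sub hg.ne (e := e) z w₀, map_mul, mul_div_assoc, mul_comm, div_mul_cancel₀ _ hd0]
  exact (V.valuation.map_sub _ _).trans (max_le (val_xx_le ez) (val_xx_le e0))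

/-- points of `(𝔤𝔭)⁻¹` of order prime to `𝔭` are in `𝔤⁻¹` -/
private theorem kr_mem (hk : IsIQ k) {𝔤 𝔭 : Ideal (𝓞 k)} (h𝔤 : 𝔤 ≠ ⊥) (hp : 𝔭.IsPrime)
    (hp0 : 𝔭 ≠ ⊥) (hV : ∀ x ∈ 𝔭, V.valuation (algebraMap k ℂ (x : k)) < 1) {n : ℕ}
    (hn : V.valuation (n : ℂ) = 1) {x : ℂ} (hx : x ∈ (LatI (𝔤 * 𝔭)).lattice)
    (hnx : (n : ℂ) * x ∈ (LatI 𝔤).lattice) : x ∈ (LatI 𝔤).lattice := by
  have hnp : (n : 𝓞 k) ∉ 𝔭 := by
    intro h
    have h1 := hV _ h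
    have h2 : algebraMap k ℂ (((n : 𝓞 k) : 𝓞 k) : k) = (n : ℂ) := by
      simp
    rw [h2, hn] at h1
    exact lt_irrefl _ h1
  have hmax : 𝔭.IsMaximal := hp.isMaximal hp0
  obtain ⟨b, a, ha, hab⟩ : ∃ b : 𝓞 k, ∃ a ∈ 𝔭, (n : 𝓞 k) * b + a = 1 := by
    obtain ⟨y, hy⟩ := Ideal.IsMaximal.exists_inv hmax hnp
    obtain ⟨i, hi, h⟩ := hy
    exact ⟨y, i, hi, by rw [mul_comm]; exact h⟩
  have hgp : 𝔤 * 𝔭 ≠ ⊥ := mul_ne_zero h𝔤 hp0
  have hxk := hx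
  rw [mem_LatI hk hgp] at hxk
  obtain ⟨x', hx', hx''⟩ := hxk
  have h1 : algebraMap k ℂ (a : k) * x ∈ (LatI 𝔤).lattice := by
    rw [mem_LatI hk h𝔤]
    refine ⟨(a : k) * x', ?_, ?_⟩
    · rw [map_mul, hx']
    · intro g hg
      obtain ⟨y, hy⟩ := hx'' (g * a) (Ideal.mul_mem_mul hg ha)
      refine ⟨y, ?_⟩
      rw [← hy]
      push_cast
      ring
  have h2 := mul_mem_LatI hk h𝔤 b hnx
  have h3 : x = algebraMap k ℂ (b : k) * ((n : ℂ) * x) + algebraMap k ℂ (a : k) * x := by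
    have h4 : algebraMap k ℂ (((n : 𝓞 k) * b + a : 𝓞 k) : k) = 1 := by
      rw [hab]
      simp
    have h5 : algebraMap k ℂ (((n : 𝓞 k) * b + a : 𝓞 k) : k) =
        (n : ℂ) * algebraMap k ℂ (b : k) + algebraMap k ℂ (a : k) := by
      simp
    rw [h5] at h4
    linear_combination (-x) * h4
  rw [h3]
  exact add_mem h2 h1

/-- Kronecker's congruence -/
theorem kronecker_congr (hk : IsIQ k) {𝔤 𝔭 : Ideal (𝓞 k)} (h𝔤 : 𝔤 ≠ ⊥) (hp : 𝔭.IsPrime)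
    (hp0 : 𝔭 ≠ ⊥) (hV : ∀ x ∈ 𝔭, V.valuation (algebraMap k ℂ (x : k)) < 1) {n : ℕ}
    (hn : V.valuation (n : ℂ) = 1) {w₀ w₁ z : ℂ} (h0 : (n : ℂ) * w₀ ∈ (LatI 𝔤).lattice)
    (h1 : (n : ℂ) * w₁ ∈ (LatI 𝔤).lattice) (hz : (n : ℂ) * z ∈ (LatI 𝔤).lattice)
    (h0' : 2 * w₀ ∉ (LatI 𝔤).lattice) (h1' : w₁ ∉ (LatI 𝔤).lattice) (hz' : z ∉ (LatI 𝔤).lattice)
    (ha : w₁ - w₀ ∉ (LatI 𝔤).lattice) (hb : w₁ + w₀ ∉ (LatI 𝔤).lattice) :
    V.valuation (cr (LatI (𝔤 * 𝔭)) w₀ w₁ z - cr (LatI 𝔤) w₀ w₁ z ^ Ideal.absNorm 𝔭) < 1 := by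
  have hL : CMlat (LatI 𝔤) := CMlat_LatI hk h𝔤
  have hle := LatI_le hk h𝔤 hp0
  obtain ⟨R, hR⟩ := exists_reps hle
  obtain ⟨e, d, hg⟩ := exists_good V hL
  have h00 : w₀ ∉ (LatI 𝔤).lattice := by
    intro h
    apply h0'
    have : 2 * w₀ = w₀ + w₀ := by ring
    rw [this]
    exact add_mem h h
  obtain ⟨e0, e1, hv⟩ := kr_not hL hg hn h0 h1 h00 h1' ha hb
  have ez := notInE_of_tors hL hg hn hz hz'
  have hd0 : V.valuation d ≠ 0 := (Valuation.ne_zero_iff _).2 hg.ne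
  -- not in the larger lattice
  have hz2 : z ∉ (LatI (𝔤 * 𝔭)).lattice := fun h => hz' (kr_mem hk h𝔤 hp hp0 hV hn h hz)
  have h12 : w₁ ∉ (LatI (𝔤 * 𝔭)).lattice := fun h => h1' (kr_mem hk h𝔤 hp hp0 hV hn h h1)
  have h02 : 2 * w₀ ∉ (LatI (𝔤 * 𝔭)).lattice := fun h =>
    h0' (kr_mem hk h𝔤 hp hp0 hV hn h (by
      have : (n : ℂ) * (2 * w₀) = (n : ℂ) * w₀ + (n : ℂ) * w₀ := by ring
      rw [this]
      exact add_mem h0 h0))
  have h03 : w₀ ∉ (LatI (𝔤 * 𝔭)).lattice := fun h => h00 (kr_mem hk h𝔤 hp hp0 hV hn h h0)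
  have iz := P_isog hR h02 hz2
  have i1 := P_isog hR h02 h12
  have hc := P_sub_ne hR h03
  -- notation
  set A : ℂ := xx (LatI 𝔤) e d z - xx (LatI 𝔤) e d w₀ with hA
  set B : ℂ := xx (LatI 𝔤) e d w₁ - xx (LatI 𝔤) e d w₀ with hB
  have hvA : V.valuation A ≤ 1 :=
    (V.valuation.map_sub _ _).trans (max_le (val_xx_le ez) (val_xx_le e0))
  have hvB : V.valuation B = 1 := by
    rw [kr_P_sub hg.ne (e := e) w₁ w₀, map_mul] at hv
    exact (mul_eq_left₀ hd0).1 hv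
  have hB0 : B ≠ 0 := by
    intro h
    rw [h, map_zero] at hvB
    exact zero_ne_one hvB
  have hs : ∀ s ∈ R, V.valuation ((xx (LatI 𝔤) e d (z + s) - xx (LatI 𝔤) e d w₀) - A) < 1 ∧
      V.valuation ((xx (LatI 𝔤) e d (w₁ + s) - xx (LatI 𝔤) e d w₀) - B) < 1 := by
    intro s hs
    have hin := inE_of_prime hk h𝔤 hp hp0 hV hg (hR.mem s hs)
    constructor
    · have h2 := (xx_shift hg ez hin).2
      have h3 : (xx (LatI 𝔤) e d (z + s) - xx (LatI 𝔤) e d w₀) - A =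
          xx (LatI 𝔤) e d (z + s) - xx (LatI 𝔤) e d z := by
        rw [hA]
        ring
      rw [h3]
      exact h2
    · have h2 := (xx_shift hg e1 hin).2
      have h3 : (xx (LatI 𝔤) e d (w₁ + s) - xx (LatI 𝔤) e d w₀) - B =
          xx (LatI 𝔤) e d (w₁ + s) - xx (LatI 𝔤) e d w₁ := by
        rw [hB]
        ring
      rw [h3]
      exact h2
  have hsB : ∀ s ∈ R, V.valuation (xx (LatI 𝔤) e d (w₁ + s) - xx (LatI 𝔤) e d w₀) = 1 := by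
    intro s hs'
    have h2 := (hs s hs').2
    have h3 := Valuation.map_add_eq_of_lt_right V.valuation (x := (xx (LatI 𝔤) e d (w₁ + s) -
      xx (LatI 𝔤) e d w₀) - B) (y := B) (by rw [hvB]; exact h2)
    rw [sub_add_cancel, hvB] at h3
    exact h3
  have hsB0 : ∀ s ∈ R, xx (LatI 𝔤) e d (w₁ + s) - xx (LatI 𝔤) e d w₀ ≠ 0 := by
    intro s hs' h
    have h2 := hsB s hs'
    rw [h, map_zero] at h2
    exact zero_ne_one h2
  have hcr : cr (LatI 𝔤) w₀ w₁ z = A / B := by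
    unfold cr
    rw [kr_P_sub hg.ne (e := e) z w₀, kr_P_sub hg.ne (e := e) w₁ w₀, mul_div_mul_left _ _ hg.ne]
  have hcr' : cr (LatI (𝔤 * 𝔭)) w₀ w₁ z = ∏ s ∈ R,
      ((xx (LatI 𝔤) e d (z + s) - xx (LatI 𝔤) e d w₀) /
        (xx (LatI 𝔤) e d (w₁ + s) - xx (LatI 𝔤) e d w₀)) := by
    unfold cr
    rw [← mul_div_mul_right _ _ hc, iz, i1, ← Finset.prod_div_distrib]
    refine Finset.prod_congr rfl fun s _ => ?_
    rw [kr_P_sub hg.ne (e := e) (z + s) w₀, kr_P_sub hg.ne (e := e) (w₁ + s) w₀,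
      mul_div_mul_left _ _ hg.ne]
  have hcard : ∏ _s ∈ R, (A / B) = (A / B) ^ Ideal.absNorm 𝔭 := by
    rw [Finset.prod_const, hR.card, idx_LatI hk h𝔤 hp0]
  rw [hcr, hcr', ← hcard]
  refine kr_prod R _ _ ?_ ?_ ?_
  · intro s hs'
    rw [map_div₀, hsB s hs', div_one]
    have h2 := (hs s hs').1
    have h3 : xx (LatI 𝔤) e d (z + s) - xx (LatI 𝔤) e d w₀ =
        ((xx (LatI 𝔤) e d (z + s) - xx (LatI 𝔤) e d w₀) - A) + A := by ring
    rw [h3]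
    exact (V.valuation.map_add _ _).trans (max_le h2.le hvA)
  · intro s _
    rw [map_div₀, hvB, div_one]
    exact hvA
  · intro s hs'
    have h2 := hs s hs'
    have h3 := hsB0 s hs'
    have h4 : (xx (LatI 𝔤) e d (z + s) - xx (LatI 𝔤) e d w₀) /
        (xx (LatI 𝔤) e d (w₁ + s) - xx (LatI 𝔤) e d w₀) - A / B =
        (((xx (LatI 𝔤) e d (z + s) - xx (LatI 𝔤) e d w₀) - A) * B -
          A * ((xx (LatI 𝔤) e d (w₁ + s) - xx (LatI 𝔤) e d w₀) - B)) /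
        ((xx (LatI 𝔤) e d (w₁ + s) - xx (LatI 𝔤) e d w₀) * B) := by
      rw [div_sub_div _ _ h3 hB0]
      congr 1
      ring
    rw [h4, map_div₀, map_mul (V.valuation) _ B, hsB s hs', hvB, one_mul, div_one]
    refine lt_of_le_of_lt (V.valuation.map_sub _ _) (max_lt ?_ ?_)
    · rw [map_mul, hvB, mul_one]
      exact h2.1
    · rw [map_mul]
      rw [mul_comm]
      exact mul_lt_one_of_lt_of_le h2.2 hvA

end Pool.Agent.CMR
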