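import Pool.Agent.CMR.ADefs
import Pool.Agent.CMR.LKron
import Pool.Agent.CMR.ZCls
import Pool.Agent.CMR.GAlg
import Pool.Agent.CMR.IAA

/-!
# G-VAL properties of the normalized torsion values and of the elliptic units UU

`crI_congr_pt`: `a/n - b/n ∈ 𝓞 ⊆ 𝔤⁻¹`. `crI_congr_class`: `a₀ 𝔤 = b₀ 𝔥`, `c = b₀/a₀`: `c 𝔤⁻¹ = 𝔥⁻¹` (`LatI_homothety`), `P_homothety` gives
`℘[LatI 𝔥](c z) = c^{-2} ℘[LatI 𝔤](z)`, and `c z - z ∈ 𝔥⁻¹` for `z = a/n`: `(c - 1) a/n · h ∈ 𝓞` for `h ∈ 𝔥`: `y = (c - 1) h = c h - h ∈ 𝓞` (`c 𝔥 = 𝔤`), `a₀ y = (b₀ - a₀) h ∈ n 𝓞`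
and `a₀` is a unit modulo `n`, so `n ∣ y`. `UU_congr_class`: the same with `Psi_homothety`, `Psi_add` (`a₀ (𝔤𝔠) = b₀ (𝔥𝔠)`). `UU_ne_zero`: `Psi_ne_zero`,
`ptt_mem_iff` for `𝔤𝔠` (prime to `N`). `UU_mul`: `Psi_cocycle` for `𝔤⁻¹ ⊆ (𝔤𝔠)⁻¹ ⊆ (𝔤𝔠𝔡)⁻¹` and for `𝔤⁻¹ ⊆ (𝔤𝔡)⁻¹ ⊆ (𝔤𝔡𝔠)⁻¹` (`idx_LatI`; `𝔠𝔡 = 𝔡𝔠`).
`crI_integral`: `cr_integral` with `w₀ = 1/n`, `w₁ = 2/n` (`crI` is `cr`; `1, 2, 3` are not divisible by `n ≥ 5`). `crI_algebraic`: `isAlgebraic_of_valuation`. `crI_frob`: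
`kronecker_congr`.
-/

set_option autoImplicit false

noncomputable section

open NumberField Pool.Agent.StarkRQ
open scoped PeriodPair

namespace Pool.Agent.CMR

variable {k : Type} [Field k] [NumberField k] [Algebra k ℂ]

private theorem gv_one_mem (hk : IsIQ k) {𝔤 : Ideal (𝓞 k)} (h𝔤 : 𝔤 ≠ ⊥) (a : 𝓞 k) :
    algebraMap k ℂ (a : k) ∈ (LatI 𝔤).lattice := by
  rw [mem_LatI hk h𝔤]
  exact ⟨a, rfl, fun g _ => ⟨g * a, by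
    rw [RingOfIntegers.coe_eq_algebraMap (g * a), map_mul]⟩⟩

omit [NumberField k] in
private theorem gv_ptt_add (n : ℕ) (a b : 𝓞 k) : ptt n (a + b) = ptt n a + ptt n b := by
  rw [ptt, ptt, ptt, RingOfIntegers.coe_eq_algebraMap (a + b), map_add, map_add, add_div,
    RingOfIntegers.coe_eq_algebraMap, RingOfIntegers.coe_eq_algebraMap]

omit [NumberField k] in
private theorem gv_ptt_mul {n : ℕ} (hn : n ≠ 0) (a : 𝓞 k) :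
    (n : ℂ) * ptt n a = algebraMap k ℂ (a : k) := by
  have hn' : (n : ℂ) ≠ 0 := by exact_mod_cast hn
  rw [ptt, mul_div_cancel₀ _ hn']

omit [NumberField k] in
private theorem gv_ptt_n {n : ℕ} (hn : n ≠ 0) (a : 𝓞 k) :
    ptt n ((n : 𝓞 k) * a) = algebraMap k ℂ (a : k) := by
  have hn' : (n : ℂ) ≠ 0 := by exact_mod_cast hn
  rw [ptt, RingOfIntegers.coe_eq_algebraMap, map_mul, map_mul, map_natCast, map_natCast,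
    mul_div_cancel_left₀ _ hn', RingOfIntegers.coe_eq_algebraMap]

theorem crI_congr_pt (hk : IsIQ k) {n : ℕ} (hn : n ≠ 0) {𝔤 : Ideal (𝓞 k)} (h0 : 𝔤 ≠ ⊥)
    {a b : 𝓞 k} (h : (n : 𝓞 k) ∣ a - b) : crI n 𝔤 a = crI n 𝔤 b := by
  obtain ⟨c, hc⟩ := h
  have h1 : ptt n a = ptt n b + algebraMap k ℂ (c : k) := by
    rw [← gv_ptt_n hn c, ← gv_ptt_add, ← hc, add_sub_cancel]
  have h2 : ℘[LatI 𝔤] (ptt n a) = ℘[LatI 𝔤] (ptt n b) := by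
    rw [h1]
    exact (LatI 𝔤).weierstrassP_add_coe _ ⟨_, gv_one_mem hk h0 c⟩
  unfold crI
  rw [h2]

/-- the constant of the homothety -/
private def gvC (a b : 𝓞 k) : ℂ := algebraMap k ℂ (b : k) / algebraMap k ℂ (a : k)

omit [NumberField k] in
private theorem gvC_ne {a b : 𝓞 k} (ha : a ≠ 0) (hb : b ≠ 0) : gvC a b ≠ 0 := by
  refine div_ne_zero ?_ ?_ <;> rw [Ne, map_eq_zero, RingOfIntegers.coe_eq_zero_iff] <;> assumption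

/-- `c z - z ∈ 𝔥⁻¹` for `z = x/n` -/
private theorem gv_shift (hk : IsIQ k) {n : ℕ} (hn : n ≠ 0) {𝔤 𝔥 : Ideal (𝓞 k)} (h0' : 𝔥 ≠ ⊥)
    {a b : 𝓞 k} (ha : a ≠ 0) (han : (n : 𝓞 k) ∣ a - 1) (hbn : (n : 𝓞 k) ∣ b - 1)
    (h : Ideal.span {a} * 𝔤 = Ideal.span {b} * 𝔥) (x : 𝓞 k) :
    gvC a b * ptt n x - ptt n x ∈ (LatI 𝔥).lattice := by
  obtain ⟨s, hs⟩ := han
  obtain ⟨s', hs'⟩ := hbn
  have ha' : (a : k) ≠ 0 := by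
    rwa [Ne, RingOfIntegers.coe_eq_zero_iff]
  have ha'' : algebraMap k ℂ (a : k) ≠ 0 := by rwa [Ne, map_eq_zero]
  have hn' : (n : ℂ) ≠ 0 := by exact_mod_cast hn
  have hba : b - a = n * (s' - s) := by linear_combination hs' - hs
  have hbaC : algebraMap k ℂ (b : k) - algebraMap k ℂ (a : k) =
      n * algebraMap k ℂ ((s' - s : 𝓞 k) : k) := by
    have := congrArg (fun t : 𝓞 k => algebraMap k ℂ (t : k)) hba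
    simpa only [map_sub, map_mul, map_natCast, RingOfIntegers.coe_eq_algebraMap] using this
  rw [mem_LatI hk h0']
  refine ⟨((s' - s : 𝓞 k) : k) * x / a, ?_, fun w hw => ?_⟩
  · rw [map_div₀, map_mul, gvC, ptt]
    field_simp
    linear_combination -(algebraMap k ℂ (x : k)) * hbaC
  · have h1 : b * w ∈ Ideal.span {a} * 𝔤 := by
      rw [h]
      exact Ideal.mem_span_singleton_mul.2 ⟨w, hw, rfl⟩
    obtain ⟨g, hg, h2⟩ := Ideal.mem_span_singleton_mul.1 h1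
    refine ⟨x * ((s' - s) * w - s * (g - w)), ?_⟩
    have e1 : a * ((s' - s) * w - s * (g - w)) = (s' - s) * w := by
      linear_combination ((s' - s) * w) * hs - s * h2 - (s * w) * hba
    have e2 := congrArg (fun t : 𝓞 k => (t : k)) e1
    have e3 : ((x * ((s' - s) * w - s * (g - w)) : 𝓞 k) : k) =
        (x : k) * (((s' - s) * w - s * (g - w) : 𝓞 k) : k) := by
      rw [RingOfIntegers.coe_eq_algebraMap, map_mul, RingOfIntegers.coe_eq_algebraMap,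
        RingOfIntegers.coe_eq_algebraMap]
    have e4 : (((s' - s) * w : 𝓞 k) : k) = ((s' - s : 𝓞 k) : k) * (w : k) := by
      rw [RingOfIntegers.coe_eq_algebraMap, map_mul, RingOfIntegers.coe_eq_algebraMap,
        RingOfIntegers.coe_eq_algebraMap]
    have e5 : ((a * ((s' - s) * w - s * (g - w)) : 𝓞 k) : k) =
        (a : k) * (((s' - s) * w - s * (g - w) : 𝓞 k) : k) := by
      rw [RingOfIntegers.coe_eq_algebraMap, map_mul, RingOfIntegers.coe_eq_algebraMap,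
        RingOfIntegers.coe_eq_algebraMap]
    simp only [e5, e4] at e2
    rw [e3]
    field_simp
    linear_combination -(x : k) * e2

theorem crI_congr_class (hk : IsIQ k) {n : ℕ} (hn : n ≠ 0) {𝔤 𝔥 : Ideal (𝓞 k)} (h0 : 𝔤 ≠ ⊥)
    (h0' : 𝔥 ≠ ⊥) (hp : Prm n 𝔤) (hp' : Prm n 𝔥) (h : REq n 𝔤 𝔥) (a : 𝓞 k) :
    crI n 𝔤 a = crI n 𝔥 a := by
  obtain ⟨a₀, b₀, ha, hb, han, hbn, h⟩ := h
  have hc := gvC_ne (k := k) ha hb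
  have key : ∀ x : 𝓞 k, ℘[LatI 𝔥] (ptt n x) = ℘[LatI 𝔤] (ptt n x) / gvC a₀ b₀ ^ 2 := by
    intro x
    rw [← P_homothety (LatI 𝔤) (LatI 𝔥) hc (LatI_homothety hk h0 ha hb h) (ptt n x)]
    have h1 := (LatI 𝔥).weierstrassP_add_coe (ptt n x) ⟨_, gv_shift hk hn h0' ha han hbn h x⟩
    rw [← h1]
    congr 1
    simp
  unfold crI
  rw [key, key, key, ← sub_div, ← sub_div, div_div_div_cancel_right₀ (pow_ne_zero 2 hc)]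

theorem UU_congr_class (hk : IsIQ k) {N : ℕ} (hN : N ≠ 0) {𝔠 𝔤 𝔥 : Ideal (𝓞 k)} (hc : 𝔠 ≠ ⊥)
    (h6 : (Ideal.absNorm 𝔠).Coprime 6) (h0 : 𝔤 ≠ ⊥) (h0' : 𝔥 ≠ ⊥) (hp : Prm N 𝔤)
    (hp' : Prm N 𝔥) (h : REq N 𝔤 𝔥) : UU N 𝔠 𝔤 = UU N 𝔠 𝔥 := by
  obtain ⟨a₀, b₀, ha, hb, han, hbn, h⟩ := h
  have hcn := gvC_ne (k := k) ha hb
  have h' : Ideal.span {a₀} * (𝔤 * 𝔠) = Ideal.span {b₀} * (𝔥 * 𝔠) := by
    rw [← mul_assoc, h, mul_assoc]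
  have h1 := Psi_homothety (M := LatI 𝔥) (M' := LatI (𝔥 * 𝔠)) hcn
    (LatI_homothety hk h0 ha hb h) (LatI_homothety hk (mul_ne_zero h0 hc) ha hb h')
    (LatI_le hk h0 hc) (by rw [idx_LatI hk h0 hc]; exact h6) (ptt N (1 : 𝓞 k))
  unfold UU
  rw [← h1]
  have h2 := Psi_add (L := LatI 𝔥) (L' := LatI (𝔥 * 𝔠)) (ptt N (1 : 𝓞 k))
    (gv_shift hk hN h0' ha han hbn h 1)
  rw [← h2]
  congr 1
  ring

omit [Algebra k ℂ] in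
private theorem gv_dvd {n m : ℕ} (h : (n : 𝓞 k) ∣ (m : 𝓞 k)) : n ∣ m := by
  rcases Nat.eq_zero_or_pos n with rfl | hn
  · obtain ⟨c, hc⟩ := h
    rw [Nat.cast_zero, zero_mul] at hc
    have : m = 0 := by exact_mod_cast hc
    rw [this]
  obtain ⟨c, hc⟩ := h
  have hnk : (n : k) ≠ 0 := by exact_mod_cast hn.ne'
  have h1 : (algebraMap ℚ k ((m : ℚ) / n)) = (c : k) := by
    have h2 := congrArg (fun t : 𝓞 k => (t : k)) hc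
    simp only [map_mul, map_natCast, RingOfIntegers.coe_eq_algebraMap] at h2
    rw [map_div₀, map_natCast, map_natCast, h2, mul_div_cancel_left₀ _ hnk,
      RingOfIntegers.coe_eq_algebraMap]
  have h2 : IsIntegral ℤ (algebraMap ℚ k ((m : ℚ) / n)) := by
    rw [h1]
    exact RingOfIntegers.isIntegral_coe c
  rw [isIntegral_algebraMap_iff (algebraMap ℚ k).injective, IsIntegrallyClosed.isIntegral_iff] at h2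
  obtain ⟨y, hy⟩ := h2
  have hnq : (n : ℚ) ≠ 0 := by exact_mod_cast hn.ne'
  have h3 : (y : ℚ) * n = m := by
    have h4 : (y : ℚ) = (m : ℚ) / n := by simpa using hy
    rw [h4, div_mul_cancel₀ _ hnq]
  have h4 : y * (n : ℤ) = (m : ℤ) := by exact_mod_cast h3
  have h5 : (n : ℤ) ∣ (m : ℤ) := ⟨y, by rw [← h4, mul_comm]⟩
  exact_mod_cast h5

omit [Algebra k ℂ] in
private theorem gv_not_dvd {n m : ℕ} (hm : 0 < m) (h : m < n) : ¬ (n : 𝓞 k) ∣ (m : 𝓞 k) :=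
  fun h1 => absurd (Nat.le_of_dvd hm (gv_dvd h1)) (by omega)

omit [Algebra k ℂ] in
private theorem gv_not_dvd_one {n : ℕ} (h : 2 ≤ n) : ¬ (n : 𝓞 k) ∣ 1 := by
  have := gv_not_dvd (k := k) (n := n) (m := 1) one_pos (by omega)
  rwa [Nat.cast_one] at this

omit [Algebra k ℂ] in
private theorem gv_prm_mul {n : ℕ} {𝔤 𝔠 : Ideal (𝓞 k)} (h : Prm n 𝔤) (h' : Prm n 𝔠) :
    Prm n (𝔤 * 𝔠) := IsCoprime.mul_left h h'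

private theorem gv_notMem (hk : IsIQ k) {N : ℕ} (hN : 2 ≤ N) {𝔤 : Ideal (𝓞 k)} (h0 : 𝔤 ≠ ⊥)
    (hp : Prm N 𝔤) : ptt N (1 : 𝓞 k) ∉ (LatI 𝔤).lattice := by
  rw [ptt_mem_iff hk (by omega) h0 hp]
  exact gv_not_dvd_one hN

theorem UU_ne_zero (hk : IsIQ k) {N : ℕ} (hN : 2 ≤ N) {𝔠 𝔤 : Ideal (𝓞 k)} (hc : 𝔠 ≠ ⊥)
    (h6 : (Ideal.absNorm 𝔠).Coprime 6) (hc' : Prm N 𝔠) (h0 : 𝔤 ≠ ⊥) (hp : Prm N 𝔤) :
    UU N 𝔠 𝔤 ≠ 0 := by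
  refine Psi_ne_zero (LatI_le hk h0 hc) (by rw [idx_LatI hk h0 hc]; exact h6) ?_
  exact gv_notMem hk hN (mul_ne_zero h0 hc) (gv_prm_mul hp hc')

/-- the cocycle relation of the elliptic units -/
theorem UU_mul (hk : IsIQ k) {N : ℕ} (hN : 2 ≤ N) {𝔠 𝔡 𝔤 : Ideal (𝓞 k)} (hc : 𝔠 ≠ ⊥)
    (h6 : (Ideal.absNorm 𝔠).Coprime 6) (hc' : Prm N 𝔠) (hd : 𝔡 ≠ ⊥)
    (h6' : (Ideal.absNorm 𝔡).Coprime 6) (hd' : Prm N 𝔡) (h0 : 𝔤 ≠ ⊥) (hp : Prm N 𝔤) :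
    UU N 𝔠 𝔤 ^ Ideal.absNorm 𝔡 * UU N 𝔡 (𝔤 * 𝔠) =
      UU N 𝔡 𝔤 ^ Ideal.absNorm 𝔠 * UU N 𝔠 (𝔤 * 𝔡) := by
  have key : ∀ 𝔠 𝔡 : Ideal (𝓞 k), 𝔠 ≠ ⊥ → (Ideal.absNorm 𝔠).Coprime 6 → Prm N 𝔠 → 𝔡 ≠ ⊥ →
      (Ideal.absNorm 𝔡).Coprime 6 → Prm N 𝔡 →
      Psi (LatI 𝔤) (LatI (𝔤 * (𝔠 * 𝔡))) (ptt N (1 : 𝓞 k)) =
        UU N 𝔠 𝔤 ^ Ideal.absNorm 𝔡 * UU N 𝔡 (𝔤 * 𝔠) := by
    intro 𝔠 𝔡 hc h6 hc' hd h6' hd'
    have hcd : 𝔠 * 𝔡 ≠ ⊥ := mul_ne_zero hc hd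
    have hgc : 𝔤 * 𝔠 ≠ ⊥ := mul_ne_zero h0 hc
    have h1 := Psi_cocycle (LatI_le hk h0 hc) (LatI_le hk hgc hd) (by
      rw [mul_assoc, idx_LatI hk h0 hcd, map_mul]
      exact Nat.Coprime.mul_left h6 h6') (z := ptt N (1 : 𝓞 k))
      (gv_notMem hk hN (mul_ne_zero hgc hd) (gv_prm_mul (gv_prm_mul hp hc') hd'))
    rw [idx_LatI hk hgc hd, mul_assoc] at h1
    unfold UU
    rw [mul_assoc]
    exact h1
  rw [← key 𝔠 𝔡 hc h6 hc' hd h6' hd', ← key 𝔡 𝔠 hd h6' hd' hc h6 hc', mul_comm 𝔠 𝔡]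

private theorem gv_two (n : ℕ) : ptt n (2 : 𝓞 k) = 2 * ptt n (1 : 𝓞 k) := by
  have : (2 : 𝓞 k) = 1 + 1 := by norm_num
  rw [this, gv_ptt_add]
  ring

private theorem gv_three (n : ℕ) : ptt n (3 : 𝓞 k) = 3 * ptt n (1 : 𝓞 k) := by
  have : (3 : 𝓞 k) = 1 + 1 + 1 := by norm_num
  rw [this, gv_ptt_add, gv_ptt_add]
  ring

private theorem gv_pts (hk : IsIQ k) {n : ℕ} (hn : 5 ≤ n) {𝔤 : Ideal (𝓞 k)} (h0 : 𝔤 ≠ ⊥)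
    (hp : Prm n 𝔤) : ptt n (1 : 𝓞 k) ∉ (LatI 𝔤).lattice ∧ ptt n (2 : 𝓞 k) ∉ (LatI 𝔤).lattice ∧
      ptt n (2 : 𝓞 k) - ptt n (1 : 𝓞 k) ∉ (LatI 𝔤).lattice ∧
      ptt n (2 : 𝓞 k) + ptt n (1 : 𝓞 k) ∉ (LatI 𝔤).lattice := by
  have h1 := gv_notMem hk (by omega : 2 ≤ n) h0 hp
  refine ⟨h1, ?_, ?_, ?_⟩
  · rw [ptt_mem_iff hk (by omega) h0 hp]
    have := gv_not_dvd (k := k) (n := n) (m := 2) (by norm_num) (by omega)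
    exact_mod_cast this
  · rw [gv_two, show 2 * ptt n (1 : 𝓞 k) - ptt n (1 : 𝓞 k) = ptt n (1 : 𝓞 k) by ring]
    exact h1
  · rw [gv_two, show 2 * ptt n (1 : 𝓞 k) + ptt n (1 : 𝓞 k) = 3 * ptt n (1 : 𝓞 k) by ring,
      ← gv_three, ptt_mem_iff hk (by omega) h0 hp]
    have := gv_not_dvd (k := k) (n := n) (m := 3) (by norm_num) (by omega)
    exact_mod_cast this

theorem crI_integral (hk : IsIQ k) (V : ValuationSubring ℂ) {n : ℕ} (hn : 5 ≤ n)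
    (hV : V.valuation (n : ℂ) = 1) {𝔤 : Ideal (𝓞 k)} (h0 : 𝔤 ≠ ⊥) (hp : Prm n 𝔤) {a : 𝓞 k}
    (ha : ¬ (n : 𝓞 k) ∣ a) : V.valuation (crI n 𝔤 a) ≤ 1 := by
  have hn0 : n ≠ 0 := by omega
  obtain ⟨h1, h2, h3, h4⟩ := gv_pts hk hn h0 hp
  have hm : ∀ x : 𝓞 k, (n : ℂ) * ptt n x ∈ (LatI 𝔤).lattice := fun x => by
    rw [gv_ptt_mul hn0]
    exact gv_one_mem hk h0 x
  exact cr_integral (CMlat_LatI hk h0) hV (hm 1) (hm 2) (hm a) h1 h2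
    (by rwa [ptt_mem_iff hk hn0 h0 hp]) h3 h4

theorem crI_algebraic (hk : IsIQ k) {n : ℕ} (hn : 5 ≤ n) {𝔤 : Ideal (𝓞 k)} (h0 : 𝔤 ≠ ⊥)
    (hp : Prm n 𝔤) {a : 𝓞 k} (ha : ¬ (n : 𝓞 k) ∣ a) : IsAlgebraic ℚ (crI n 𝔤 a) :=
  isAlgebraic_of_valuation fun V hV => crI_integral hk V hn (hV n (by omega)) h0 hp ha

theorem crI_frob (hk : IsIQ k) (V : ValuationSubring ℂ) {n : ℕ} (hn : 5 ≤ n)
    (hV : V.valuation (n : ℂ) = 1) {𝔤 𝔭 : Ideal (𝓞 k)} (h0 : 𝔤 ≠ ⊥) (hp : Prm n 𝔤)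
    (h𝔭 : 𝔭.IsPrime) (h𝔭0 : 𝔭 ≠ ⊥) (h𝔭V : ∀ x ∈ 𝔭, V.valuation (algebraMap k ℂ (x : k)) < 1)
    {a : 𝓞 k} (ha : ¬ (n : 𝓞 k) ∣ a) :
    V.valuation (crI n (𝔤 * 𝔭) a - crI n 𝔤 a ^ Ideal.absNorm 𝔭) < 1 := by
  have hn0 : n ≠ 0 := by omega
  obtain ⟨h1, h2, h3, h4⟩ := gv_pts hk hn h0 hp
  have hm : ∀ x : 𝓞 k, (n : ℂ) * ptt n x ∈ (LatI 𝔤).lattice := fun x => by
    rw [gv_ptt_mul hn0]
    exact gv_one_mem hk h0 x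
  exact kronecker_congr hk h0 h𝔭 h𝔭0 h𝔭V hV (hm 1) (hm 2) (hm a) (by rw [← gv_two]; exact h2) h2
    (by rwa [ptt_mem_iff hk hn0 h0 hp]) h3 h4

end Pool.Agent.CMR
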