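import Pool.Agent.CMR.IDD
import Pool.Agent.CMG.Liou

/-!
# I-COC cocycle relation of DD

Both sides are `L`-periodic with the same order everywhere (`DD_order`; `n = n₁ n₂`, `idx_mul`): on `L`: `1 - n = n₂ (1 - n₁) + (1 - n₂)`;
on `L₁ ∖ L`: `1 = n₂ · 1 + (1 - n₂)`; on `L₂ ∖ L₁`: `1 = 0 + 1`. So the quotient is constant off a discrete set
(`CMG.liouville`), the constant is `1` by `DD_tendsto` (`z^{n-1} = (z^{n₁-1})^{n₂} z^{n₂-1}`), and by continuity
(both sides are analytic and not zero off `L₂`) the identity holds at every `z ∉ L₂`.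
-/

set_option autoImplicit false

noncomputable section

open Filter Topology
open scoped PeriodPair

namespace Pool.Agent.CMR

theorem DD_cocycle {L L₁ L₂ : PeriodPair} (h : L.lattice ≤ L₁.lattice) (h₁ : L₁.lattice ≤ L₂.lattice)
    (ho : Odd (idx L L₂)) {z : ℂ} (hz : z ∉ L₂.lattice) :
    DD L L₂ z = DD L L₁ z ^ idx L₁ L₂ * DD L₁ L₂ z := by
  classical
  have hn := idx_mul h h₁
  have h2 : L.lattice ≤ L₂.lattice := h.trans h₁
  have ho' := ho
  rw [hn, Nat.odd_mul] at ho'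
  obtain ⟨o1, o2⟩ := ho'
  have p1 := idx_pos h
  have p2 := idx_pos h₁
  have p3 := idx_pos h2
  set n₁ := idx L L₁ with hn₁
  set n₂ := idx L₁ L₂ with hn₂
  set n := idx L L₂ with hnn
  have hnZ : (n : ℤ) = n₁ * n₂ := by exact_mod_cast hn
  have m1 := DD_meromorphic L L₂ h2
  have m2 := DD_meromorphic L L₁ h
  have m3 := DD_meromorphic L₁ L₂ h₁
  have mg : ∀ w, MeromorphicAt (DD L L₁ ^ n₂ * DD L₁ L₂) w := fun w =>
    ((m2 w).pow n₂).mul (m3 w)
  have og : ∀ w, meromorphicOrderAt (DD L L₁ ^ n₂ * DD L₁ L₂) w =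
      meromorphicOrderAt (DD L L₂) w := by
    intro w
    rw [meromorphicOrderAt_mul ((m2 w).pow n₂) (m3 w), meromorphicOrderAt_pow (m2 w),
      DD_order h o1, DD_order h₁ o2, DD_order h2 ho]
    rw [← hn₁, ← hn₂, ← hnn]
    by_cases c1 : w ∈ L.lattice
    · rw [if_pos c1, if_pos (h c1), if_pos c1]
      norm_cast
      rw [Int.subNatNat_eq_coe, Int.subNatNat_eq_coe, Int.subNatNat_eq_coe]
      push_cast
      rw [hnZ]
      ring
    · rw [if_neg c1, if_neg c1]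
      by_cases c2 : w ∈ L₁.lattice
      · rw [if_pos c2, if_pos c2, if_pos (h₁ c2)]
        norm_cast
        rw [Int.subNatNat_eq_coe]
        push_cast
        ring
      · rw [if_neg c2, if_neg c2]
        by_cases c3 : w ∈ L₂.lattice
        · rw [if_pos c3]
          norm_cast
        · rw [if_neg c3]
          norm_cast
  have fin : ∀ w, meromorphicOrderAt (DD L L₂) w ≠ ⊤ := by
    intro w
    rw [DD_order h2 ho]
    exact WithTop.coe_ne_top
  set F : ℂ → ℂ := DD L L₂ * (DD L L₁ ^ n₂ * DD L₁ L₂)⁻¹ with hF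
  have mF : ∀ w, MeromorphicAt F w := fun w => (m1 w).mul (mg w).inv
  have oF : ∀ w, 0 ≤ meromorphicOrderAt F w := by
    intro w
    rw [hF, meromorphicOrderAt_mul (m1 w) (mg w).inv, meromorphicOrderAt_inv, og w]
    obtain ⟨k, hk⟩ := WithTop.ne_top_iff_exists.1 (fin w)
    rw [← hk]
    norm_cast
    simp
  obtain ⟨c, hc⟩ := CMG.liouville L mF oF (by
    intro l hl
    refine Filter.Eventually.of_forall fun w => ?_
    simp only [hF, Pi.mul_apply, Pi.inv_apply, Pi.pow_apply]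
    rw [DD_add w hl, DD_add w hl, DD_add w (h hl)])
  have hc' : ∀ w, ∀ᶠ y in 𝓝[≠] w, F y = c := by
    intro w
    have h3 := mem_codiscrete.mp hc w
    rwa [Filter.disjoint_principal_right, compl_compl] at h3
  -- the constant is one
  have t1 := DD_tendsto h2 ho
  have t2 := DD_tendsto h o1
  have t3 := DD_tendsto h₁ o2
  have t4 := (t2.pow n₂).mul t3
  have t5 := t1.div t4 (by simp)
  have hc1 : c = 1 := by
    have h4 : Tendsto F (𝓝[≠] (0 : ℂ)) (𝓝 c) :=
      tendsto_const_nhds.congr' ((hc' 0).mono fun w hw => hw.symm)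
    have h5 : Tendsto F (𝓝[≠] (0 : ℂ)) (𝓝 (1 / (1 ^ n₂ * 1))) := by
      refine t5.congr' ?_
      filter_upwards [self_mem_nhdsWithin] with w hw
      have hw0 : w ≠ 0 := hw
      have h6 : (w ^ (n₁ - 1)) ^ n₂ * w ^ (n₂ - 1) = w ^ (n - 1) := by
        rw [← pow_mul, ← pow_add]
        congr 1
        rw [hn]
        obtain ⟨a, ha⟩ := Nat.exists_eq_add_of_lt p1
        obtain ⟨b, hb⟩ := Nat.exists_eq_add_of_lt p2
        rw [ha, hb]
        simp only [zero_add, Nat.add_sub_cancel]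
        rw [show (a + 1) * (b + 1) = a * (b + 1) + b + 1 by ring, Nat.add_sub_cancel]
      have h7 : (DD L L₁ w * w ^ (n₁ - 1)) ^ n₂ * (DD L₁ L₂ w * w ^ (n₂ - 1)) =
          (DD L L₁ w ^ n₂ * DD L₁ L₂ w) * w ^ (n - 1) := by
        rw [mul_pow, ← h6]
        ring
      simp only [hF, Pi.mul_apply, Pi.inv_apply, Pi.pow_apply, Pi.div_apply]
      rw [h7, mul_div_mul_right _ _ (pow_ne_zero _ hw0), div_eq_mul_inv]
    have h8 := tendsto_nhds_unique h4 h5
    simpa using h8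
  -- continuity
  have hz1 : z ∉ L₁.lattice := fun hh => hz (h₁ hh)
  have hz0 : z ∉ L.lattice := fun hh => hz1 (h hh)
  have a1 := (DD_analytic L L₂ h2 hz0).continuousAt
  have a2 := (DD_analytic L L₁ h hz0).continuousAt
  have a3 := (DD_analytic L₁ L₂ h₁ hz1).continuousAt
  have a4 : ContinuousAt (fun w => DD L L₁ w ^ n₂ * DD L₁ L₂ w) z := (a2.pow n₂).mul a3
  have e1 : ∀ᶠ w in 𝓝[≠] z, DD L L₂ w = DD L L₁ w ^ n₂ * DD L₁ L₂ w := by
    have e2 : ∀ᶠ w in 𝓝[≠] z, w ∉ L₂.lattice :=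
      mem_nhdsWithin_of_mem_nhds (L₂.isClosed_lattice.isOpen_compl.mem_nhds hz)
    filter_upwards [hc' z, e2] with w hw hw2
    have hw1 : w ∉ L₁.lattice := fun hh => hw2 (h₁ hh)
    simp only [hF, Pi.mul_apply, Pi.inv_apply, Pi.pow_apply] at hw
    have hne : DD L L₁ w ^ n₂ * DD L₁ L₂ w ≠ 0 :=
      mul_ne_zero (pow_ne_zero _ (DD_ne_zero h hw1)) (DD_ne_zero h₁ hw2)
    rw [hc1, mul_inv_eq_one₀ hne] at hw
    exact hw
  have u1 : Tendsto (DD L L₂) (𝓝[≠] z) (𝓝 (DD L L₂ z)) := a1.tendsto.mono_left nhdsWithin_le_nhds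
  have u2 : Tendsto (fun w => DD L L₁ w ^ n₂ * DD L₁ L₂ w) (𝓝[≠] z)
      (𝓝 (DD L L₁ z ^ n₂ * DD L₁ L₂ z)) := a4.tendsto.mono_left nhdsWithin_le_nhds
  exact tendsto_nhds_unique u1 (u2.congr' (e1.mono fun w hw => hw.symm))

end Pool.Agent.CMR
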