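import Pool.Agent.CMR.MDefs
import Pool.Agent.CMG.PInj

/-!
# M-ACT homothety and the action of SL(2,Z) on torsion values

The first statements: multiplication by `c` is a bijection of the lattices (`Equiv.tsum_eq` in the definitions of `℘`, `℘'`, `G`).
`g₂ = 60 G 4`, `g₃ = 140 G 6`. `exists_Ltau`: `τ = ± ω₂/ω₁` (the sign with positive imaginary part; the quotient is not real by `L.indep`),
`c = 1/ω₁`. `pw_smul`: `L_{γτ} = (cτ+d)^{-1} L_τ` and `(v₁ γτ + v₂)/n = (cτ+d)^{-1} ((v₁a + v₂c)τ + (v₁b+v₂d))/n`. `pw_ne`: `℘(z) = ℘(w)` iff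
`z ± w ∈ L` (`Pool.Agent.CMG`, file `PInj`, theorem `P_eq_iff` or similar).
-/

set_option autoImplicit false

noncomputable section

open UpperHalfPlane ModularForm MatrixGroups EisensteinSeries
open scoped PeriodPair

namespace Pool.Agent.CMR

/-- multiplication by `c` as a bijection of lattices -/
private def homEquiv (L L' : PeriodPair) {c : ℂ} (hc : c ≠ 0)
    (h : ∀ z, c * z ∈ L'.lattice ↔ z ∈ L.lattice) : L.lattice ≃ L'.lattice where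
  toFun l := ⟨c * l, (h l).2 l.2⟩
  invFun l := ⟨l / c, (h _).1 (by rw [mul_div_cancel₀ _ hc]; exact l.2)⟩
  left_inv l := Subtype.ext (by simp [hc])
  right_inv l := Subtype.ext (by simp [mul_div_cancel₀ _ hc])

private theorem homEquiv_coe (L L' : PeriodPair) {c : ℂ} (hc : c ≠ 0)
    (h : ∀ z, c * z ∈ L'.lattice ↔ z ∈ L.lattice) (l : L.lattice) :
    ((homEquiv L L' hc h l : L'.lattice) : ℂ) = c * l := rfl

/-- homothetic lattices -/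
theorem P_homothety (L L' : PeriodPair) {c : ℂ} (hc : c ≠ 0)
    (h : ∀ z, c * z ∈ L'.lattice ↔ z ∈ L.lattice) (z : ℂ) : ℘[L'] (c * z) = ℘[L] z / c ^ 2 := by
  have h1 := (homEquiv L L' hc h).hasSum_iff.2 (L'.hasSum_weierstrassP (c * z))
  have h2 := (L.hasSum_weierstrassP z).div_const (c ^ 2)
  have h3 : ((fun l : L'.lattice => 1 / (c * z - l) ^ 2 - 1 / (l : ℂ) ^ 2) ∘ homEquiv L L' hc h) =
      fun l : L.lattice => (1 / (z - l) ^ 2 - 1 / (l : ℂ) ^ 2) / c ^ 2 := by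
    funext l
    show 1 / (c * z - c * l) ^ 2 - 1 / (c * (l : ℂ)) ^ 2 = _
    rw [← mul_sub, mul_pow, mul_pow, sub_div, div_div, div_div, mul_comm (c ^ 2), mul_comm (c ^ 2)]
  rw [h3] at h1
  exact h1.unique h2

theorem dP_homothety (L L' : PeriodPair) {c : ℂ} (hc : c ≠ 0)
    (h : ∀ z, c * z ∈ L'.lattice ↔ z ∈ L.lattice) (z : ℂ) : ℘'[L'] (c * z) = ℘'[L] z / c ^ 3 := by
  have h1 := (homEquiv L L' hc h).hasSum_iff.2 (L'.hasSum_derivWeierstrassP (c * z))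
  have h2 := (L.hasSum_derivWeierstrassP z).div_const (c ^ 3)
  have h3 : ((fun l : L'.lattice => -2 / (c * z - l) ^ 3) ∘ homEquiv L L' hc h) =
      fun l : L.lattice => (-2 / (z - l) ^ 3) / c ^ 3 := by
    funext l
    show -2 / (c * z - c * l) ^ 3 = _
    rw [← mul_sub, mul_pow, div_div, mul_comm (c ^ 3)]
  rw [h3] at h1
  exact h1.unique h2

theorem G_homothety (L L' : PeriodPair) {c : ℂ} (hc : c ≠ 0)
    (h : ∀ z, c * z ∈ L'.lattice ↔ z ∈ L.lattice) (k : ℕ) : L'.G k = L.G k / c ^ k := by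
  unfold PeriodPair.G
  rw [← (homEquiv L L' hc h).tsum_eq, div_eq_mul_inv, ← tsum_mul_right]
  refine tsum_congr fun l => ?_
  show ((c * (l : ℂ)) ^ k)⁻¹ = _
  rw [mul_pow, mul_inv, mul_comm]

theorem dsc_homothety (L L' : PeriodPair) {c : ℂ} (hc : c ≠ 0)
    (h : ∀ z, c * z ∈ L'.lattice ↔ z ∈ L.lattice) : dsc L' = dsc L / c ^ 12 := by
  unfold dsc PeriodPair.g₂ PeriodPair.g₃
  rw [G_homothety L L' hc h, G_homothety L L' hc h]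
  field_simp

private theorem omega1_ne (L : PeriodPair) : L.ω₁ ≠ 0 := by
  have h := L.indep.ne_zero (0 : Fin 2)
  exact h

private theorem ratio_im_ne (L : PeriodPair) : (L.ω₂ / L.ω₁).im ≠ 0 := by
  intro h
  have h1 := omega1_ne L
  have h2 : L.ω₂ / L.ω₁ = (((L.ω₂ / L.ω₁).re : ℝ) : ℂ) := Complex.ext rfl (by simpa using h)
  have h3 := LinearIndependent.pair_iff.1 L.indep ((L.ω₂ / L.ω₁).re) (-1) (by
    rw [Complex.real_smul, ← h2, div_mul_cancel₀ _ h1]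
    simp)
  exact absurd h3.2 (by norm_num)

/-- every lattice is homothetic to some `ℤ + ℤ τ` -/
theorem exists_Ltau (L : PeriodPair) : ∃ (τ : ℍ) (c : ℂ), c ≠ 0 ∧
    ∀ z, c * z ∈ (Ltau τ).lattice ↔ z ∈ L.lattice := by
  have h1 := omega1_ne L
  rcases lt_or_gt_of_ne (ratio_im_ne L) with h2 | h2
  · refine ⟨⟨-(L.ω₂ / L.ω₁), by simpa using h2⟩, L.ω₁⁻¹, inv_ne_zero h1, fun z => ?_⟩
    rw [PeriodPair.mem_lattice, PeriodPair.mem_lattice]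
    constructor
    · rintro ⟨m, n, h⟩
      refine ⟨m, -n, ?_⟩
      have h3 : (m : ℂ) * 1 + n * (-(L.ω₂ / L.ω₁)) = L.ω₁⁻¹ * z := h
      field_simp at h3
      push_cast
      linear_combination h3
    · rintro ⟨m, n, h⟩
      refine ⟨m, -n, ?_⟩
      show (m : ℂ) * 1 + ((-n : ℤ) : ℂ) * (-(L.ω₂ / L.ω₁)) = L.ω₁⁻¹ * z
      rw [← h]
      push_cast
      field_simp
  · refine ⟨⟨L.ω₂ / L.ω₁, h2⟩, L.ω₁⁻¹, inv_ne_zero h1, fun z => ?_⟩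
    rw [PeriodPair.mem_lattice, PeriodPair.mem_lattice]
    constructor
    · rintro ⟨m, n, h⟩
      refine ⟨m, n, ?_⟩
      have h3 : (m : ℂ) * 1 + n * (L.ω₂ / L.ω₁) = L.ω₁⁻¹ * z := h
      field_simp at h3
      linear_combination h3
    · rintro ⟨m, n, h⟩
      refine ⟨m, n, ?_⟩
      show (m : ℂ) * 1 + (n : ℂ) * (L.ω₂ / L.ω₁) = L.ω₁⁻¹ * z
      rw [← h]
      field_simp

theorem CMlat_of_homothety (L L' : PeriodPair) {c : ℂ} (hc : c ≠ 0)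
    (h : ∀ z, c * z ∈ L'.lattice ↔ z ∈ L.lattice) (hL : CMlat L) : CMlat L' := by
  obtain ⟨α, hα, hm⟩ := hL
  refine ⟨α, hα, fun l hl => ?_⟩
  have h1 : l / c ∈ L.lattice := (h _).1 (by rw [mul_div_cancel₀ _ hc]; exact hl)
  have h2 := (h _).2 (hm _ h1)
  have h3 : c * (α * (l / c)) = α * l := by field_simp
  rwa [h3] at h2

private theorem cd_ne (γ : SL(2, ℤ)) (τ : ℍ) : (γ.1 1 0 : ℂ) * τ + (γ.1 1 1 : ℂ) ≠ 0 := by
  have h := UpperHalfPlane.denom_ne_zero (γ : GL (Fin 2) ℝ) τ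
  have h2 : UpperHalfPlane.denom (γ : GL (Fin 2) ℝ) τ = (γ.1 1 0 : ℂ) * τ + (γ.1 1 1 : ℂ) := by
    simp [UpperHalfPlane.denom]
  rwa [h2] at h

private theorem smul_coe (γ : SL(2, ℤ)) (τ : ℍ) : ((γ • τ : ℍ) : ℂ) =
    ((γ.1 0 0 : ℂ) * τ + (γ.1 0 1 : ℂ)) / ((γ.1 1 0 : ℂ) * τ + (γ.1 1 1 : ℂ)) := by
  rw [UpperHalfPlane.coe_specialLinearGroup_apply]
  simp

private theorem det_eq (γ : SL(2, ℤ)) : (γ.1 0 0 : ℂ) * γ.1 1 1 - γ.1 0 1 * γ.1 1 0 = 1 := by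
  have h := γ.2
  rw [Matrix.det_fin_two] at h
  exact_mod_cast congrArg (fun z : ℤ => (z : ℂ)) h

private theorem mem_smul (γ : SL(2, ℤ)) (τ : ℍ) (z : ℂ) :
    ((γ.1 1 0 : ℂ) * τ + (γ.1 1 1 : ℂ))⁻¹ * z ∈ (Ltau (γ • τ)).lattice ↔ z ∈ (Ltau τ).lattice := by
  have h0 := cd_ne γ τ
  have hd := det_eq γ
  have hs := smul_coe γ τ
  rw [PeriodPair.mem_lattice, PeriodPair.mem_lattice]
  constructor
  · rintro ⟨m, n, h⟩
    have h1 : (m : ℂ) * 1 + n * ((γ • τ : ℍ) : ℂ) = ((γ.1 1 0 : ℂ) * τ + (γ.1 1 1 : ℂ))⁻¹ * z := h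
    rw [hs, inv_mul_eq_div, eq_div_iff h0, add_mul, mul_assoc (n : ℂ), div_mul_cancel₀ _ h0] at h1
    refine ⟨m * γ.1 1 1 + n * γ.1 0 1, m * γ.1 1 0 + n * γ.1 0 0, ?_⟩
    show ((m * γ.1 1 1 + n * γ.1 0 1 : ℤ) : ℂ) * 1 + ((m * γ.1 1 0 + n * γ.1 0 0 : ℤ) : ℂ) * τ = z
    push_cast
    linear_combination h1
  · rintro ⟨m, n, h⟩
    have h1 : (m : ℂ) * 1 + n * (τ : ℂ) = z := h
    refine ⟨m * γ.1 0 0 - n * γ.1 0 1, n * γ.1 1 1 - m * γ.1 1 0, ?_⟩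
    show ((m * γ.1 0 0 - n * γ.1 0 1 : ℤ) : ℂ) * 1 + ((n * γ.1 1 1 - m * γ.1 1 0 : ℤ) : ℂ) *
      ((γ • τ : ℍ) : ℂ) = _
    rw [hs, ← h1]
    push_cast
    field_simp
    linear_combination ((m : ℂ) + n * τ) * hd

theorem pw_smul (n : ℕ) (v : ℤ × ℤ) (γ : SL(2, ℤ)) (τ : ℍ) :
    pw n v (γ • τ) = ((γ.1 1 0 : ℂ) * τ + (γ.1 1 1 : ℂ)) ^ 2 *
      pw n (v.1 * γ.1 0 0 + v.2 * γ.1 1 0, v.1 * γ.1 0 1 + v.2 * γ.1 1 1) τ := by
  have h0 := cd_ne γ τ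
  have h1 := P_homothety (Ltau τ) (Ltau (γ • τ)) (inv_ne_zero h0) (mem_smul γ τ)
    (pz n (v.1 * γ.1 0 0 + v.2 * γ.1 1 0, v.1 * γ.1 0 1 + v.2 * γ.1 1 1) τ)
  have h2 : ((γ.1 1 0 : ℂ) * τ + (γ.1 1 1 : ℂ))⁻¹ *
      pz n (v.1 * γ.1 0 0 + v.2 * γ.1 1 0, v.1 * γ.1 0 1 + v.2 * γ.1 1 1) τ = pz n v (γ • τ) := by
    unfold pz
    rw [smul_coe]
    push_cast
    rw [inv_mul_eq_div, div_div, mul_comm (n : ℂ), ← div_div]
    congr 1
    field_simp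
    ring
  rw [h2] at h1
  unfold pw
  rw [h1]
  field_simp

theorem pw_congr {n : ℕ} (hn : n ≠ 0) {v w : ℤ × ℤ} (h1 : (n : ℤ) ∣ v.1 - w.1)
    (h2 : (n : ℤ) ∣ v.2 - w.2) (τ : ℍ) : pw n v τ = pw n w τ := by
  obtain ⟨a, ha⟩ := h1
  obtain ⟨b, hb⟩ := h2
  have hn' : (n : ℂ) ≠ 0 := Nat.cast_ne_zero.2 hn
  have hl : (b : ℂ) * 1 + a * τ ∈ (Ltau τ).lattice := PeriodPair.mem_lattice.2 ⟨b, a, rfl⟩
  have ha' : (v.1 : ℂ) = w.1 + n * a := by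
    have := congrArg (fun z : ℤ => (z : ℂ)) ha
    push_cast at this
    linear_combination this
  have hb' : (v.2 : ℂ) = w.2 + n * b := by
    have := congrArg (fun z : ℤ => (z : ℂ)) hb
    push_cast at this
    linear_combination this
  have h3 : pz n v τ = pz n w τ + (b * 1 + a * τ) := by
    unfold pz
    rw [ha', hb']
    field_simp
    ring
  unfold pw
  rw [h3]
  congr 1
  exact (Ltau τ).weierstrassP_add_coe (pz n w τ) ⟨_, hl⟩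

theorem pw_neg (n : ℕ) (v : ℤ × ℤ) (τ : ℍ) : pw n (-v.1, -v.2) τ = pw n v τ := by
  have h : pz n (-v.1, -v.2) τ = -pz n v τ := by
    unfold pz
    push_cast
    ring
  unfold pw
  rw [h, PeriodPair.weierstrassP_neg]

theorem pz_mem_iff {n : ℕ} (hn : n ≠ 0) (v : ℤ × ℤ) (τ : ℍ) :
    pz n v τ ∈ (Ltau τ).lattice ↔ (n : ℤ) ∣ v.1 ∧ (n : ℤ) ∣ v.2 := by
  have hn' : (n : ℂ) ≠ 0 := Nat.cast_ne_zero.2 hn
  rw [PeriodPair.mem_lattice]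
  constructor
  · rintro ⟨a, b, h⟩
    have h1 : (a : ℂ) * 1 + b * (τ : ℂ) = ((v.1 : ℂ) * τ + (v.2 : ℂ)) / n := h
    rw [eq_div_iff hn'] at h1
    have h2 := LinearIndependent.pair_iff.1 (Ltau τ).indep ((a : ℝ) * n - v.2) ((b : ℝ) * n - v.1)
      (by
        show (((a : ℝ) * n - v.2 : ℝ) : ℝ) • (1 : ℂ) + (((b : ℝ) * n - v.1 : ℝ) : ℝ) • (τ : ℂ) = 0
        rw [Complex.real_smul, Complex.real_smul]
        push_cast
        linear_combination h1)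
    refine ⟨⟨b, ?_⟩, ⟨a, ?_⟩⟩
    · have h3 : (v.1 : ℝ) = n * b := by linarith [h2.2]
      exact_mod_cast h3
    · have h3 : (v.2 : ℝ) = n * a := by linarith [h2.1]
      exact_mod_cast h3
  · rintro ⟨⟨a, ha⟩, ⟨b, hb⟩⟩
    refine ⟨b, a, ?_⟩
    show (b : ℂ) * 1 + a * (τ : ℂ) = ((v.1 : ℂ) * τ + (v.2 : ℂ)) / n
    rw [ha, hb]
    push_cast
    field_simp
    ring

theorem pw_ne {n : ℕ} (hn : n ≠ 0) {v w : ℤ × ℤ} (hv : ¬ ((n : ℤ) ∣ v.1 ∧ (n : ℤ) ∣ v.2))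
    (hw : ¬ ((n : ℤ) ∣ w.1 ∧ (n : ℤ) ∣ w.2))
    (h1 : ¬ ((n : ℤ) ∣ v.1 - w.1 ∧ (n : ℤ) ∣ v.2 - w.2))
    (h2 : ¬ ((n : ℤ) ∣ v.1 + w.1 ∧ (n : ℤ) ∣ v.2 + w.2)) (τ : ℍ) : pw n v τ ≠ pw n w τ := by
  intro h
  have hpi : (2 * Real.pi * Complex.I : ℂ) ^ 2 ≠ 0 := by
    simp [Real.pi_ne_zero]
  have h3 : ℘[Ltau τ] (pz n v τ) = ℘[Ltau τ] (pz n w τ) := (div_left_inj' hpi).1 h
  rcases CMG.P_inj (Ltau τ) (fun h => hv ((pz_mem_iff hn v τ).1 h))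
    (fun h => hw ((pz_mem_iff hn w τ).1 h)) h3 with h4 | h4
  · apply h1
    have h5 : pz n v τ - pz n w τ = pz n (v.1 - w.1, v.2 - w.2) τ := by
      unfold pz
      push_cast
      ring
    rw [h5] at h4
    exact (pz_mem_iff hn _ τ).1 h4
  · apply h2
    have h5 : pz n v τ + pz n w τ = pz n (v.1 + w.1, v.2 + w.2) τ := by
      unfold pz
      push_cast
      ring
    rw [h5] at h4
    exact (pz_mem_iff hn _ τ).1 h4

end Pool.Agent.CMR
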