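import Pool.Agent.CMR.IReps
import Pool.Agent.CMG.PInj
import Pool.Agent.CMG.PProd
import Pool.Agent.CMR.MAct

/-!
# I-DD the functions DD: divisor, leading term, homogeneity

`DD_eq_prod`: `℘[L]` maps `R` bijectively onto `℘[L] '' (L' ∖ L)` (`℘` is even, `L`-periodic, and `℘ s = ℘ t` iff `s ± t ∈ L` for
`s, t ∉ L`, `CMG.P_eq_iff`; `IsHalf.inj`), then `finprod` over the image of a finite set (`finprod_mem_coe_finset`). `exists_half` gives `R`. Everything
else follows: orders from `CMG.P_order_sub` (`2 s ∉ L`, `IsHalf.two_mul_notMem`; `2 card R + 1 = idx`), `z² ℘(z) → 1`. `DD_homothety`: the image of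
`R` under `c` is a half system of `M, M'` (`P_homothety`), `c^{-2 card R}`.
-/

set_option autoImplicit false

noncomputable section

open Filter Topology
open scoped PeriodPair

namespace Pool.Agent.CMR

private theorem P_eq_of {L : PeriodPair} {u v : ℂ} (h : u - v ∈ L.lattice ∨ u + v ∈ L.lattice) :
    ℘[L] u = ℘[L] v := by
  rcases h with h | h
  · have h1 := L.weierstrassP_add_coe v ⟨u - v, h⟩
    have h2 : v + ((⟨u - v, h⟩ : L.lattice) : ℂ) = u := by
      show v + (u - v) = u
      ring
    rw [h2] at h1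
    exact h1
  · have h1 := L.weierstrassP_add_coe (-v) ⟨u + v, h⟩
    have h2 : -v + ((⟨u + v, h⟩ : L.lattice) : ℂ) = u := by
      show -v + (u + v) = u
      ring
    rw [h2, L.weierstrassP_neg] at h1
    exact h1

theorem DD_eq_prod {L L' : PeriodPair} {R : Finset ℂ} (hR : IsHalf L L' R) (z : ℂ) :
    DD L L' z = ∏ s ∈ R, (℘[L] z - ℘[L] s) := by
  classical
  have h1 : ℘[L] '' {s : ℂ | s ∈ L'.lattice ∧ s ∉ L.lattice} = ((R.image ℘[L] : Finset ℂ) : Set ℂ) := by
    ext t
    rw [Finset.coe_image]
    constructor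
    · rintro ⟨s, ⟨h2, h3⟩, rfl⟩
      obtain ⟨r, hr, h4⟩ := hR.ex s h2 h3
      exact ⟨r, hr, (P_eq_of h4).symm⟩
    · rintro ⟨r, hr, rfl⟩
      exact ⟨r, ⟨hR.mem r hr, hR.notMem r hr⟩, rfl⟩
  unfold DD
  rw [h1, finprod_mem_coe_finset, Finset.prod_image]
  intro s hs t ht hst
  exact hR.inj s hs t ht (CMG.P_inj L (hR.notMem s hs) (hR.notMem t ht) hst)

private theorem DD_fun {L L' : PeriodPair} {R : Finset ℂ} (hR : IsHalf L L' R) :
    DD L L' = fun z => ∏ s ∈ R, (℘[L] z - ℘[L] s) := funext (DD_eq_prod hR)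

private theorem sub_mero (L : PeriodPair) (s z : ℂ) :
    MeromorphicAt (fun z => ℘[L] z - ℘[L] s) z :=
  (L.meromorphic_weierstrassP z).sub (MeromorphicAt.const _ z)

theorem DD_meromorphic (L L' : PeriodPair) (h : L.lattice ≤ L'.lattice) (z : ℂ) :
    MeromorphicAt (DD L L') z := by
  obtain ⟨R, hR⟩ := exists_half h
  rw [DD_fun hR]
  exact MeromorphicAt.fun_prod fun s _ => sub_mero L s z

theorem DD_analytic (L L' : PeriodPair) (h : L.lattice ≤ L'.lattice) {z : ℂ} (hz : z ∉ L.lattice) :
    AnalyticAt ℂ (DD L L') z := by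
  obtain ⟨R, hR⟩ := exists_half h
  rw [DD_fun hR]
  exact Finset.analyticAt_fun_prod _ fun s _ =>
    (L.analyticOnNhd_weierstrassP z hz).sub analyticAt_const

theorem DD_order {L L' : PeriodPair} (h : L.lattice ≤ L'.lattice) (ho : Odd (idx L L')) (z : ℂ) :
    open Classical in meromorphicOrderAt (DD L L') z =
      ((if z ∈ L.lattice then 1 - (idx L L' : ℤ) else if z ∈ L'.lattice then 1 else 0 : ℤ) :
        WithTop ℤ) := by
  classical
  obtain ⟨R, hR⟩ := exists_half h
  have hcard := hR.card ho
  rw [DD_fun hR, meromorphicOrderAt_fun_prod fun s _ => sub_mero L s z]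
  have h1 : ∀ s ∈ R, meromorphicOrderAt (fun z => ℘[L] z - ℘[L] s) z =
      ((if z ∈ L.lattice then -2 else if z - s ∈ L.lattice ∨ z + s ∈ L.lattice then 1 else 0 : ℤ) :
        WithTop ℤ) := by
    intro s hs
    have h2 := CMG.P_order_sub L (hR.notMem s hs) z
    rw [if_neg (hR.two_mul_notMem ho hs)] at h2
    convert h2
  rw [Finset.sum_congr rfl h1]
  by_cases hz : z ∈ L.lattice
  · simp only [if_pos hz]
    rw [Finset.sum_const, ← hcard]
    have h3 : (1 - ((2 * R.card + 1 : ℕ) : ℤ)) = (R.card : ℤ) * (-2) := by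
      push_cast
      ring
    rw [h3, ← WithTop.coe_nsmul, nsmul_eq_mul]
  · simp only [if_neg hz]
    by_cases hz' : z ∈ L'.lattice
    · rw [if_pos hz']
      obtain ⟨r, hr, hzr⟩ := hR.ex z hz' hz
      rw [Finset.sum_eq_single r]
      · rw [if_pos hzr]
      · intro s hs hsr
        rw [if_neg]
        · rfl
        · intro hzs
          apply hsr
          refine hR.inj s hs r hr ?_
          rcases hzr with h4 | h4 <;> rcases hzs with h5 | h5
          · left
            have := L.lattice.sub_mem h4 h5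
            rwa [show z - r - (z - s) = s - r by ring] at this
          · right
            have := L.lattice.sub_mem h5 h4
            rwa [show z + s - (z - r) = s + r by ring] at this
          · right
            have := L.lattice.sub_mem h4 h5
            rwa [show z + r - (z - s) = s + r by ring] at this
          · left
            have := L.lattice.sub_mem h5 h4
            rwa [show z + s - (z + r) = s - r by ring] at this
      · intro h4
        exact absurd hr h4
    · rw [if_neg hz']
      rw [Finset.sum_eq_zero]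
      · rfl
      · intro s hs
        rw [if_neg]
        · rfl
        · rintro (h4 | h4)
          · apply hz'
            have := L'.lattice.add_mem (h h4) (hR.mem s hs)
            rwa [sub_add_cancel] at this
          · apply hz'
            have := L'.lattice.sub_mem (h h4) (hR.mem s hs)
            rwa [add_sub_cancel_right] at this

theorem DD_add {L L' : PeriodPair} (z : ℂ) {l : ℂ} (hl : l ∈ L.lattice) :
    DD L L' (z + l) = DD L L' z := by
  have h1 : ℘[L] (z + l) = ℘[L] z := L.weierstrassP_add_coe z ⟨l, hl⟩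
  unfold DD
  rw [h1]

theorem DD_neg (L L' : PeriodPair) (z : ℂ) : DD L L' (-z) = DD L L' z := by
  unfold DD
  rw [L.weierstrassP_neg]

theorem DD_ne_zero {L L' : PeriodPair} (h : L.lattice ≤ L'.lattice) {z : ℂ}
    (hz : z ∉ L'.lattice) : DD L L' z ≠ 0 := by
  obtain ⟨R, hR⟩ := exists_half h
  rw [DD_eq_prod hR]
  refine Finset.prod_ne_zero_iff.2 fun s hs => ?_
  rw [sub_ne_zero]
  intro h1
  rcases CMG.P_inj L (fun h2 => hz (h h2)) (hR.notMem s hs) h1 with h4 | h4
  · apply hz
    have := L'.lattice.add_mem (h h4) (hR.mem s hs)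
    rwa [sub_add_cancel] at this
  · apply hz
    have := L'.lattice.sub_mem (h h4) (hR.mem s hs)
    rwa [add_sub_cancel_right] at this

/-- `℘(z) z ^ 2` tends to `1`. -/
private theorem dd_tendsto_mul_sq (L : PeriodPair) :
    Tendsto (fun h : ℂ => ℘[L] h * h ^ 2) (𝓝[≠] 0) (𝓝 1) := by
  have hA : AnalyticAt ℂ (L.weierstrassPExcept 0) 0 := L.analyticAt_weierstrassPExcept 0
  have h1 : Tendsto (fun h : ℂ => h ^ 2 * L.weierstrassPExcept 0 h + 1) (𝓝[≠] 0) (𝓝 1) := by
    have h2 : ContinuousAt (fun h : ℂ => h ^ 2 * L.weierstrassPExcept 0 h + 1) 0 := by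
      have := hA.continuousAt
      fun_prop
    have h3 := h2.tendsto.mono_left (nhdsWithin_le_nhds (s := {0}ᶜ))
    simpa using h3
  refine h1.congr' ?_
  filter_upwards [self_mem_nhdsWithin] with h hh
  have hh0 : h ≠ 0 := hh
  have h4 := L.ite_eq_one_sub_sq_mul_weierstrassP 0 L.lattice.zero_mem h
  rw [if_neg hh0] at h4
  simp only [sub_zero] at h4
  rw [mul_comm (℘[L] h), h4]
  simp

theorem DD_tendsto {L L' : PeriodPair} (h : L.lattice ≤ L'.lattice) (ho : Odd (idx L L')) :
    Tendsto (fun z => DD L L' z * z ^ (idx L L' - 1)) (𝓝[≠] 0) (𝓝 1) := by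
  obtain ⟨R, hR⟩ := exists_half h
  have hcard := hR.card ho
  have h1 : idx L L' - 1 = 2 * R.card := by omega
  have h2 : (fun z => DD L L' z * z ^ (idx L L' - 1)) =
      fun z => ∏ s ∈ R, (℘[L] z * z ^ 2 - ℘[L] s * z ^ 2) := by
    funext z
    rw [h1, DD_eq_prod hR, pow_mul, ← Finset.prod_const, ← Finset.prod_mul_distrib]
    refine Finset.prod_congr rfl fun s _ => ?_
    ring
  rw [h2]
  have h3 : ∀ s ∈ R, Tendsto (fun z => ℘[L] z * z ^ 2 - ℘[L] s * z ^ 2) (𝓝[≠] 0) (𝓝 1) := by
    intro s _
    have h4 : Tendsto (fun z : ℂ => ℘[L] s * z ^ 2) (𝓝[≠] 0) (𝓝 0) := by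
      have h5 : ContinuousAt (fun z : ℂ => ℘[L] s * z ^ 2) 0 := by fun_prop
      have h6 := h5.tendsto.mono_left (nhdsWithin_le_nhds (s := {0}ᶜ))
      simpa using h6
    have h7 := (dd_tendsto_mul_sq L).sub h4
    rwa [sub_zero] at h7
  have h8 := tendsto_finsetProd R h3
  rwa [Finset.prod_const_one] at h8

theorem DD_homothety {L L' M M' : PeriodPair} {c : ℂ} (hc : c ≠ 0)
    (h : ∀ z, c * z ∈ M.lattice ↔ z ∈ L.lattice) (h' : ∀ z, c * z ∈ M'.lattice ↔ z ∈ L'.lattice)
    (hle : L.lattice ≤ L'.lattice) (ho : Odd (idx L L')) (z : ℂ) :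
    DD M M' (c * z) = DD L L' z / c ^ (idx L L' - 1) := by
  classical
  obtain ⟨R, hR⟩ := exists_half hle
  have hcard := hR.card ho
  have h1 : idx L L' - 1 = 2 * R.card := by omega
  have hdiv : ∀ m : ℂ, c * (m / c) = m := fun m => mul_div_cancel₀ m hc
  have hR' : IsHalf M M' (R.image fun s => c * s) :=
    { le := by
        intro m hm
        have h2 : m / c ∈ L.lattice := by
          rw [← h, hdiv]
          exact hm
        have h3 := (h' _).2 (hle h2)
        rwa [hdiv] at h3
      mem := by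
        intro t ht
        obtain ⟨s, hs, rfl⟩ := Finset.mem_image.1 ht
        exact (h' s).2 (hR.mem s hs)
      notMem := by
        intro t ht
        obtain ⟨s, hs, rfl⟩ := Finset.mem_image.1 ht
        exact fun h2 => hR.notMem s hs ((h s).1 h2)
      ex := by
        intro l hl hl'
        have h2 : l / c ∈ L'.lattice := by
          rw [← h', hdiv]
          exact hl
        have h3 : l / c ∉ L.lattice := by
          rw [← h, hdiv]
          exact hl'
        obtain ⟨s, hs, h4⟩ := hR.ex _ h2 h3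
        refine ⟨c * s, Finset.mem_image.2 ⟨s, hs, rfl⟩, ?_⟩
        rcases h4 with h4 | h4
        · left
          have h5 := (h _).2 h4
          rwa [mul_sub, hdiv] at h5
        · right
          have h5 := (h _).2 h4
          rwa [mul_add, hdiv] at h5
      inj := by
        intro s hs t ht hst
        obtain ⟨s, hs', rfl⟩ := Finset.mem_image.1 hs
        obtain ⟨t, ht', rfl⟩ := Finset.mem_image.1 ht
        have h2 : s = t := by
          refine hR.inj s hs' t ht' ?_
          rw [← mul_sub, ← mul_add, h, h] at hst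
          exact hst
        rw [h2] }
  rw [DD_eq_prod hR', DD_eq_prod hR, Finset.prod_image (fun s _ t _ hst => mul_left_cancel₀ hc hst),
    h1, pow_mul, ← Finset.prod_const, ← Finset.prod_div_distrib]
  refine Finset.prod_congr rfl fun s _ => ?_
  rw [P_homothety L M hc h, P_homothety L M hc h, sub_div]

end Pool.Agent.CMR
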