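import Pool.Agent.CMR.IReps
import Pool.Agent.CMG.PInj
import Pool.Agent.CMG.PProd
import Pool.Agent.CMG.Liou

/-!
# I-PROD product formula for the isogeny L in L prime

`A(z) = ℘[L'] z - ℘[L'] w`, `B(z) = ∏_{s ∈ R} (℘[L] (z+s) - ℘[L] w)`. `B` is `L'`-periodic (`IsReps.prod_add`). Orders
(`CMG.P_order_sub`): `A` has order `-2` on `L'`, `1` on `± w + L'` (as `2 w ∉ L'`), else `0`. `B`: at `z ∈ L'` exactly one
`s ∈ R` has `z + s ∈ L` (order `-2`), the other factors have order `0` (`s' ± w ∉ L` as `w ∉ L'`); at `z ∈ w + L'` exactly one `s` with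
`z + s - w ∈ L`, none with `z + s + w ∈ L`, no `z + s ∈ L`: order `1`; same for `-w`; else `0`. So `B/A` has order `0` everywhere and is
`L'`-periodic: constant by `CMG.liouville` (applied to `L'`). Near `z = 0`: `z² A → 1`, `z² B → ∏_{s ≠ 0} (℘[L] s - ℘[L] w)` (factor of
`s = 0`: `z² (℘[L] z - ℘[L] w) → 1`). `P_sub_ne`: `℘[L] s = ℘[L] w` iff `s ± w ∈ L` (`CMG.P_eq_iff`), impossible as `w ∉ L'`, and `s ∉ L`.
-/

set_option autoImplicit false

noncomputable section

open Filter Topology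
open scoped PeriodPair

namespace Pool.Agent.CMR

/-- `h ^ 2 * ℘(h)` tends to `1`. -/
private theorem ip_sq_mul (L : PeriodPair) :
    Tendsto (fun h : ℂ => h ^ 2 * ℘[L] h) (𝓝[≠] 0) (𝓝 1) := by
  have hA : AnalyticAt ℂ (L.weierstrassPExcept 0) 0 := L.analyticAt_weierstrassPExcept 0
  have h1 : Tendsto (fun h : ℂ => h ^ 2 * L.weierstrassPExcept 0 h + 1) (𝓝[≠] 0) (𝓝 1) := by
    have h2 : ContinuousAt (fun h : ℂ => h ^ 2 * L.weierstrassPExcept 0 h + 1) 0 := by
      have := hA.continuousAt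
      fun_prop
    have h3 := h2.tendsto.mono_left (nhdsWithin_le_nhds (s := {0}ᶜ))
    simpa using h3
  refine h1.congr' ?_
  filter_upwards [self_mem_nhdsWithin] with h hh
  have hh0 : h ≠ 0 := hh
  have h4 := L.ite_eq_one_sub_sq_mul_weierstrassP 0 L.lattice.zero_mem h
  rw [if_neg hh0] at h4
  simp only [sub_zero] at h4
  rw [h4]
  simp

private theorem ip_sq_sub (L : PeriodPair) (c : ℂ) :
    Tendsto (fun h : ℂ => h ^ 2 * (℘[L] h - c)) (𝓝[≠] 0) (𝓝 1) := by
  have h1 : Tendsto (fun h : ℂ => h ^ 2 * c) (𝓝[≠] 0) (𝓝 0) := by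
    have h2 : ContinuousAt (fun h : ℂ => h ^ 2 * c) 0 := by fun_prop
    have h3 := h2.tendsto.mono_left (nhdsWithin_le_nhds (s := {0}ᶜ))
    simpa using h3
  have h2 := (ip_sq_mul L).sub h1
  rw [sub_zero] at h2
  refine h2.congr fun h => ?_
  ring

private theorem ip_mer (L : PeriodPair) (c s z : ℂ) :
    MeromorphicAt (fun z => ℘[L] (z + s) - c) z := by
  have := L.meromorphic_weierstrassP
  fun_prop

open scoped Classical in
private theorem ip_ord (L : PeriodPair) {v : ℂ} (hv : v ∉ L.lattice) (s z : ℂ) :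
    meromorphicOrderAt (fun z => ℘[L] (z + s) - ℘[L] v) z =
      ((if z + s ∈ L.lattice then -2 else if z + s - v ∈ L.lattice ∨ z + s + v ∈ L.lattice then
        (if 2 * v ∈ L.lattice then 2 else 1) else 0 : ℤ) : WithTop ℤ) := by
  have h0 := meromorphicOrderAt_comp_add_const_eq_meromorphicOrderAt (c := s)
    (f := fun z => ℘[L] z - ℘[L] v) (x := z)
  exact h0.trans (CMG.P_order_sub L hv (z + s))

private theorem ip_nhdsNE {P : ℂ → Prop} (h : ∀ᶠ z in codiscrete ℂ, P z) (z : ℂ) :
    ∀ᶠ y in 𝓝[≠] z, P y := by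
  have h1 : {y | P y} ∈ codiscrete ℂ := h
  rw [mem_codiscrete] at h1
  have h2 := h1 z
  rw [disjoint_principal_right, compl_compl] at h2
  exact h2

open scoped Classical in
/-- the orders of the product -/
private theorem ip_sum {L L' : PeriodPair} {R : Finset ℂ} (hR : IsReps L L' R) {w : ℂ}
    (hw : 2 * w ∉ L'.lattice) (hw1 : w ∉ L'.lattice) (z : ℂ) :
    (∑ s ∈ R, (if z + s ∈ L.lattice then -2 else
      if z + s - w ∈ L.lattice ∨ z + s + w ∈ L.lattice then 1 else 0 : ℤ)) =
      if z ∈ L'.lattice then -2 else if z - w ∈ L'.lattice ∨ z + w ∈ L'.lattice then 1 else 0 := by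
  classical
  have hneg : ∀ x ∈ L'.lattice, -x ∈ L'.lattice := fun x hx => L'.lattice.neg_mem hx
  -- the unique representative with a given property
  have key : ∀ u ∈ L'.lattice, ∃ s₀ ∈ R, ∀ s ∈ R, (u + s ∈ L.lattice ↔ s = s₀) := by
    intro u hu
    obtain ⟨s₀, hs₀, h1⟩ := hR.ex (-u) (hneg u hu)
    refine ⟨s₀, hs₀, fun s hs => ⟨fun h => ?_, ?_⟩⟩
    · refine hR.inj s hs s₀ hs₀ ?_
      have := L.lattice.add_mem h h1
      rwa [show u + s + (-u - s₀) = s - s₀ by ring] at this
    · rintro rfl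
      have := L.lattice.neg_mem h1
      rwa [show -(-u - s) = u + s by ring] at this
  have hin : ∀ u, ∀ s ∈ R, u + s ∈ L.lattice → u ∈ L'.lattice := by
    intro u s hs h
    have := L'.lattice.sub_mem (hR.le h) (hR.mem s hs)
    rwa [add_sub_cancel_right] at this
  by_cases hz : z ∈ L'.lattice
  · rw [if_pos hz]
    obtain ⟨s₀, hs₀, h1⟩ := key z hz
    rw [Finset.sum_eq_single_of_mem s₀ hs₀ ?_]
    · rw [if_pos ((h1 s₀ hs₀).2 rfl)]
    · intro s hs hne
      rw [if_neg fun h => hne ((h1 s hs).1 h), if_neg]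
      rintro (h | h)
      · rw [show z + s - w = (z - w) + s by ring] at h
        have h2 := L'.lattice.sub_mem hz (hin _ s hs h)
        rw [sub_sub_cancel] at h2
        exact hw1 h2
      · rw [show z + s + w = (z + w) + s by ring] at h
        have h2 := L'.lattice.sub_mem (hin _ s hs h) hz
        rw [add_sub_cancel_left] at h2
        exact hw1 h2
  · rw [if_neg hz]
    have h0 : ∀ s ∈ R, z + s ∉ L.lattice := fun s hs h => hz (hin z s hs h)
    by_cases h1 : z - w ∈ L'.lattice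
    · rw [if_pos (Or.inl h1)]
      have h2 : z + w ∉ L'.lattice := by
        intro h
        have := L'.lattice.sub_mem h h1
        rw [show z + w - (z - w) = 2 * w by ring] at this
        exact hw this
      obtain ⟨s₀, hs₀, h3⟩ := key (z - w) h1
      rw [Finset.sum_eq_single_of_mem s₀ hs₀ ?_]
      · rw [if_neg (h0 s₀ hs₀), if_pos]
        left
        rw [show z + s₀ - w = (z - w) + s₀ by ring]
        exact (h3 s₀ hs₀).2 rfl
      · intro s hs hne
        rw [if_neg (h0 s hs), if_neg]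
        rintro (h | h)
        · rw [show z + s - w = (z - w) + s by ring] at h
          exact hne ((h3 s hs).1 h)
        · rw [show z + s + w = (z + w) + s by ring] at h
          exact h2 (hin _ s hs h)
    · by_cases h2 : z + w ∈ L'.lattice
      · rw [if_pos (Or.inr h2)]
        obtain ⟨s₀, hs₀, h3⟩ := key (z + w) h2
        rw [Finset.sum_eq_single_of_mem s₀ hs₀ ?_]
        · rw [if_neg (h0 s₀ hs₀), if_pos]
          right
          rw [show z + s₀ + w = (z + w) + s₀ by ring]
          exact (h3 s₀ hs₀).2 rfl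
        · intro s hs hne
          rw [if_neg (h0 s hs), if_neg]
          rintro (h | h)
          · rw [show z + s - w = (z - w) + s by ring] at h
            exact h1 (hin _ s hs h)
          · rw [show z + s + w = (z + w) + s by ring] at h
            exact hne ((h3 s hs).1 h)
      · rw [if_neg (not_or.2 ⟨h1, h2⟩)]
        refine Finset.sum_eq_zero fun s hs => ?_
        rw [if_neg (h0 s hs), if_neg]
        rintro (h | h)
        · rw [show z + s - w = (z - w) + s by ring] at h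
          exact h1 (hin _ s hs h)
        · rw [show z + s + w = (z + w) + s by ring] at h
          exact h2 (hin _ s hs h)

/-- the isogeny `ℂ/L → ℂ/L'` in terms of `℘` -/
theorem P_isog {L L' : PeriodPair} {R : Finset ℂ} (hR : IsReps L L' R) {w z : ℂ}
    (hw : 2 * w ∉ L'.lattice) (hz : z ∉ L'.lattice) :
    (℘[L'] z - ℘[L'] w) * ∏ s ∈ R.erase 0, (℘[L] s - ℘[L] w) =
      ∏ s ∈ R, (℘[L] (z + s) - ℘[L] w) := by
  classical
  have hw1 : w ∉ L'.lattice := fun h => hw (by
    rw [two_mul]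
    exact L'.lattice.add_mem h h)
  have hwL : w ∉ L.lattice := fun h => hw1 (hR.le h)
  have hw2 : 2 * w ∉ L.lattice := fun h => hw (hR.le h)
  obtain ⟨A, hA⟩ : ∃ A : ℂ → ℂ, A = fun z => ℘[L'] z - ℘[L'] w := ⟨_, rfl⟩
  obtain ⟨B, hB⟩ : ∃ B : ℂ → ℂ, B = fun z => ∏ s ∈ R, (℘[L] (z + s) - ℘[L] w) := ⟨_, rfl⟩
  obtain ⟨C, hC⟩ : ∃ C : ℂ, C = ∏ s ∈ R.erase 0, (℘[L] s - ℘[L] w) := ⟨_, rfl⟩
  have hAm : ∀ z, MeromorphicAt A z := by
    intro z
    rw [hA]
    have := L'.meromorphic_weierstrassP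
    fun_prop
  have hBm : ∀ z, MeromorphicAt B z := by
    intro z
    rw [hB]
    exact MeromorphicAt.fun_prod fun s _ => ip_mer L _ s z
  have hAo : ∀ z, meromorphicOrderAt A z = ((if z ∈ L'.lattice then -2 else
      if z - w ∈ L'.lattice ∨ z + w ∈ L'.lattice then 1 else 0 : ℤ) : WithTop ℤ) := by
    intro z
    rw [hA, CMG.P_order_sub L' hw1 z, if_neg hw]
  have hBo : ∀ z, meromorphicOrderAt B z = ((if z ∈ L'.lattice then -2 else
      if z - w ∈ L'.lattice ∨ z + w ∈ L'.lattice then 1 else 0 : ℤ) : WithTop ℤ) := by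
    intro z
    have hprod : B = ∏ s ∈ R, fun z : ℂ => ℘[L] (z + s) - ℘[L] w := by
      rw [hB]
      funext z
      rw [Finset.prod_apply]
    rw [← ip_sum hR hw hw1 z, hprod, meromorphicOrderAt_prod fun s _ => ip_mer L _ s z,
      WithTop.coe_sum]
    refine Finset.sum_congr rfl fun s _ => ?_
    rw [ip_ord L hwL, if_neg hw2]
  obtain ⟨F, hF⟩ : ∃ F : ℂ → ℂ, F = B * A⁻¹ := ⟨_, rfl⟩
  have hFm : ∀ z, MeromorphicAt F z := by
    intro z
    rw [hF]
    exact (hBm z).mul (hAm z).inv
  have hFo : ∀ z, meromorphicOrderAt F z = 0 := by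
    intro z
    rw [hF, meromorphicOrderAt_mul (hBm z) (hAm z).inv, meromorphicOrderAt_inv, hAo, hBo]
    norm_cast
    rw [add_neg_cancel]
  have hFp : ∀ l ∈ L'.lattice, ∀ z, F (z + l) = F z := by
    intro l hl z
    have h1 : B (z + l) = B z := by
      have h2 := hR.prod_add hR (f := fun y => ℘[L] (z + y) - ℘[L] w) (by
        intro y m hm
        have h3 := L.weierstrassP_add_coe (z + y) ⟨m, hm⟩
        change ℘[L] (z + (y + m)) - ℘[L] w = ℘[L] (z + y) - ℘[L] w
        rw [← add_assoc]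
        exact congrArg (fun x => x - ℘[L] w) h3) hl
      rw [hB]
      change ∏ s ∈ R, (℘[L] (z + l + s) - ℘[L] w) = ∏ s ∈ R, (℘[L] (z + s) - ℘[L] w)
      rw [← h2]
      refine Finset.prod_congr rfl fun s _ => ?_
      rw [add_right_comm, add_assoc]
    have h2 : A (z + l) = A z := by
      rw [hA]
      exact congrArg (fun x => x - ℘[L'] w) (L'.weierstrassP_add_coe z ⟨l, hl⟩)
    rw [hF, Pi.mul_apply, Pi.mul_apply, Pi.inv_apply, Pi.inv_apply, h1, h2]
  obtain ⟨d, hd⟩ := CMG.liouville L' hFm (fun z => (hFo z).ge) (fun l hl =>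
    Filter.Eventually.of_forall fun z => by rw [hFp l hl])
  have hd' := ip_nhdsNE hd
  -- the constant
  have hBlim : Tendsto (fun z => z ^ 2 * B z) (𝓝[≠] 0) (𝓝 C) := by
    have h1 : Tendsto (fun z : ℂ => ∏ s ∈ R.erase 0, (℘[L] (z + s) - ℘[L] w)) (𝓝[≠] 0)
        (𝓝 C) := by
      rw [hC]
      refine tendsto_finsetProd _ fun s hs => ?_
      have hsL : s ∉ L.lattice := by
        intro h
        apply (Finset.mem_erase.1 hs).1
        refine hR.inj s (Finset.mem_erase.1 hs).2 0 hR.zero ?_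
        rwa [sub_zero]
      have h2 : ContinuousAt (fun z : ℂ => ℘[L] (z + s) - ℘[L] w) 0 := by
        have h3 : ContinuousAt ℘[L] ((0 : ℂ) + s) := by
          rw [zero_add]
          exact (L.analyticOnNhd_weierstrassP s hsL).continuousAt
        exact (ContinuousAt.comp (f := fun z : ℂ => z + s) h3 (by fun_prop)).sub
          continuousAt_const
      have h4 := h2.tendsto.mono_left (nhdsWithin_le_nhds (s := {0}ᶜ))
      rwa [zero_add] at h4
    have h2 := (ip_sq_sub L (℘[L] w)).mul h1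
    rw [one_mul] at h2
    refine h2.congr fun z => ?_
    rw [hB]
    simp only
    rw [← Finset.mul_prod_erase R _ hR.zero, add_zero, mul_assoc]
  have hAlim : Tendsto (fun z => z ^ 2 * A z) (𝓝[≠] 0) (𝓝 1) := by
    rw [hA]
    exact ip_sq_sub L' _
  have hFlim : Tendsto F (𝓝[≠] 0) (𝓝 C) := by
    have h1 := hBlim.mul (hAlim.inv₀ one_ne_zero)
    rw [inv_one, mul_one] at h1
    refine h1.congr' ?_
    filter_upwards [self_mem_nhdsWithin] with z hz
    have hz0 : z ≠ 0 := hz
    rw [hF, Pi.mul_apply, Pi.inv_apply, mul_inv]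
    field_simp
  have hdC : d = C := by
    refine tendsto_nhds_unique (tendsto_const_nhds.congr' ?_) hFlim
    filter_upwards [hd' 0] with z hz
    exact hz.symm
  -- the identity
  have hcA : ContinuousAt A z := by
    rw [hA]
    exact (L'.analyticOnNhd_weierstrassP z hz).continuousAt.sub continuousAt_const
  have hcB : ContinuousAt B z := by
    rw [hB]
    refine tendsto_finsetProd _ fun s hs => ?_
    have hsL : z + s ∉ L.lattice := by
      intro h
      apply hz
      have := L'.lattice.sub_mem (hR.le h) (hR.mem s hs)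
      rwa [add_sub_cancel_right] at this
    have h3 : ContinuousAt ℘[L] (z + s) := (L.analyticOnNhd_weierstrassP _ hsL).continuousAt
    exact (ContinuousAt.comp (f := fun z : ℂ => z + s) h3 (by fun_prop)).sub
      continuousAt_const
  have hev : ∀ᶠ y in 𝓝[≠] z, A y * C = B y := by
    have h1 : ∀ᶠ y in 𝓝[≠] z, A y ≠ 0 := by
      refine (meromorphicOrderAt_ne_top_iff_eventually_ne_zero (hAm z)).1 ?_
      rw [hAo]
      exact WithTop.coe_ne_top
    filter_upwards [h1, hd' z] with y hy1 hy2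
    rw [hdC, hF, Pi.mul_apply, Pi.inv_apply] at hy2
    rw [← hy2]
    field_simp
  have h1 : Tendsto (fun y => A y * C) (𝓝[≠] z) (𝓝 (A z * C)) :=
    (hcA.mul continuousAt_const).tendsto.mono_left nhdsWithin_le_nhds
  have h2 : Tendsto B (𝓝[≠] z) (𝓝 (B z)) := hcB.tendsto.mono_left nhdsWithin_le_nhds
  have h3 := tendsto_nhds_unique (h1.congr' hev) h2
  rw [hA, hB, hC] at h3
  exact h3

theorem P_sub_ne {L L' : PeriodPair} {R : Finset ℂ} (hR : IsReps L L' R) {w : ℂ}
    (hw : w ∉ L'.lattice) : ∏ s ∈ R.erase 0, (℘[L] s - ℘[L] w) ≠ 0 := by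
  refine Finset.prod_ne_zero_iff.2 fun s hs h => ?_
  have hsR := (Finset.mem_erase.1 hs).2
  have hsL : s ∉ L.lattice := by
    intro h
    apply (Finset.mem_erase.1 hs).1
    refine hR.inj s hsR 0 hR.zero ?_
    rwa [sub_zero]
  have hwL : w ∉ L.lattice := fun h => hw (hR.le h)
  rcases CMG.P_inj L hsL hwL (sub_eq_zero.1 h) with h1 | h1
  · have h2 := L'.lattice.sub_mem (hR.mem s hsR) (hR.le h1)
    rw [sub_sub_cancel] at h2
    exact hw h2
  · have h2 := L'.lattice.sub_mem (hR.le h1) (hR.mem s hsR)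
    rw [add_sub_cancel_left] at h2
    exact hw h2

end Pool.Agent.CMR
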