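import Pool.Agent.CMR.IDD
import Pool.Agent.CMG.AnBB
import Pool.Agent.CMG.AnPP
import Pool.Agent.CMG.Liou
import Pool.Agent.CMR.KEps

/-!
# K-HARM Kronecker limit formula up to a constant

Model: `CMG/KConst.lean`. `n = idx L L'`, `n card Q = card Q'` (`idx_mul`, `IsReps.card`). `BB r w = -2 log |PP r w| + 2πr (y² - y + 1/6)`,
`y = Im w / r`. In `n ∑_Q - ∑_{Q'}` the terms `y²` cancel, the rest is the real part of an affine function `a z + b`
(`Im z = Re(-i z)`). So the expression is `-2 log |F(z)|` with `F(z) = exp(a' z + b') ∏_{q ∈ Q} PP(z+q)^n / ∏_{q ∈ Q'} PP(z+q)`. `PP r` is entire with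
simple zeros exactly on `Lrec` (`PP_eq_zero_iff`, `deriv_PP_zero_ne`, quasi-periodicity `PP_add_one`, `PP_add_rI`), so `F` has order
`n [z ∈ L] - [z ∈ L']`: `n - 1` on `L`, `-1` on `L' ∖ L`, that is minus the order of `DD` (`DD_order`). `|F|` is `L`-periodic off `L'`:
the left side is, by periodicity of `BB r` under `Lrec` (`AnBB`) and translation invariance of sums over `L/Lrec`, `L'/Lrec`
(reindex `Q`). So `F · DD` has order `0` everywhere and `L`-periodic absolute value: constant by `CMG.liouville`, not `0`. `C = -2 log |F DD|`.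
-/

set_option autoImplicit false

noncomputable section

open Filter Topology
open scoped PeriodPair

namespace Pool.Agent.CMR

private lemma kh_mem {r : ℝ} (hr : 0 < r) {z : ℂ} :
    z ∈ (Lrec r hr).lattice ↔ ∃ m n : ℤ, z = m + n * r * Complex.I := by
  rw [PeriodPair.mem_lattice]
  constructor
  · rintro ⟨m, n, h⟩
    refine ⟨m, n, ?_⟩
    rw [← h]
    show (m : ℂ) * 1 + n * ((r : ℂ) * Complex.I) = _
    ring
  · rintro ⟨m, n, rfl⟩
    refine ⟨m, n, ?_⟩
    show (m : ℂ) * 1 + n * ((r : ℂ) * Complex.I) = _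
    ring

private lemma kh_zero {r : ℝ} (hr : 0 < r) (z : ℂ) :
    CMG.PP r z = 0 ↔ z ∈ (Lrec r hr).lattice := by
  rw [CMG.PP_eq_zero_iff hr, kh_mem hr]

private lemma kh_an {r : ℝ} (hr : 0 < r) (z : ℂ) : AnalyticAt ℂ (CMG.PP r) z :=
  (CMG.differentiable_PP hr).analyticAt z

private lemma kh_ord_add_one (r : ℝ) (z : ℂ) :
    meromorphicOrderAt (CMG.PP r) (z + 1) = meromorphicOrderAt (CMG.PP r) z := by
  rw [← meromorphicOrderAt_comp_add_const_eq_meromorphicOrderAt]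
  congr 1
  funext w
  exact CMG.PP_add_one r w

private lemma kh_ord_add_rI {r : ℝ} (hr : 0 < r) (z : ℂ) :
    meromorphicOrderAt (CMG.PP r) (z + r * Complex.I) = meromorphicOrderAt (CMG.PP r) z := by
  rw [← meromorphicOrderAt_comp_add_const_eq_meromorphicOrderAt]
  have h : (CMG.PP r) ∘ (· + r * Complex.I) = (fun w => - CMG.ee (-w)) * CMG.PP r := by
    funext w
    exact CMG.PP_add_rI hr w
  rw [h, meromorphicOrderAt_mul_of_ne_zero]
  · unfold CMG.ee
    fun_prop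
  · unfold CMG.ee
    simp [Complex.exp_ne_zero]

private lemma kh_ord {r : ℝ} (hr : 0 < r) (z : ℂ) : open Classical in
    meromorphicOrderAt (CMG.PP r) z =
      ((if z ∈ (Lrec r hr).lattice then 1 else 0 : ℤ) : WithTop ℤ) := by
  split_ifs with h
  · obtain ⟨m, n, rfl⟩ := (kh_mem hr).1 h
    have h1 : Function.Periodic (fun z => meromorphicOrderAt (CMG.PP r) z) 1 := kh_ord_add_one r
    have h2 : Function.Periodic (fun z => meromorphicOrderAt (CMG.PP r) z) (r * Complex.I) :=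
      kh_ord_add_rI hr
    have h3 := h1.int_mul m 0
    have h4 := h2.int_mul n (m : ℂ)
    simp only [mul_one, zero_add] at h3 h4
    rw [← mul_assoc] at h4
    rw [h4, h3, (kh_an hr 0).meromorphicOrderAt_eq,
      (kh_an hr 0).analyticOrderAt_eq_one_of_zero_deriv_ne_zero
        ((kh_zero hr 0).2 (Submodule.zero_mem _)) (CMG.deriv_PP_zero_ne hr)]
    rfl
  · rw [(kh_an hr z).meromorphicOrderAt_eq, (kh_an hr z).analyticOrderAt_eq_zero.2
      (fun h1 => h ((kh_zero hr z).1 h1))]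
    rfl

/-- the product of the translates -/
private def kP (r : ℝ) (Q : Finset ℂ) (z : ℂ) : ℂ := ∏ q ∈ Q, CMG.PP r (z + q)

private lemma kP_an {r : ℝ} (hr : 0 < r) (Q : Finset ℂ) (z : ℂ) : AnalyticAt ℂ (kP r Q) z := by
  unfold kP
  refine Finset.analyticAt_fun_prod _ fun q _ => ?_
  have h : AnalyticAt ℂ (fun w : ℂ => w + q) z := by fun_prop
  exact AnalyticAt.fun_comp (f := fun w : ℂ => w + q) (kh_an hr (z + q)) h

private lemma kP_ord {r : ℝ} (hr : 0 < r) {L : PeriodPair} {Q : Finset ℂ}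
    (hQ : IsReps (Lrec r hr) L Q) (z : ℂ) : open Classical in
    meromorphicOrderAt (kP r Q) z = ((if z ∈ L.lattice then 1 else 0 : ℤ) : WithTop ℤ) := by
  classical
  have h1 : ∀ q : ℂ, meromorphicOrderAt (fun w => CMG.PP r (w + q)) z =
      ((if z + q ∈ (Lrec r hr).lattice then 1 else 0 : ℤ) : WithTop ℤ) := by
    intro q
    have h := meromorphicOrderAt_comp_add_const_eq_meromorphicOrderAt (x := z) (c := q)
      (f := CMG.PP r)
    rw [kh_ord hr] at h
    exact h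
  have h2 : meromorphicOrderAt (kP r Q) z =
      ∑ q ∈ Q, ((if z + q ∈ (Lrec r hr).lattice then 1 else 0 : ℤ) : WithTop ℤ) := by
    unfold kP
    rw [meromorphicOrderAt_fun_prod fun q _ =>
      (AnalyticAt.fun_comp (f := fun w : ℂ => w + q) (kh_an hr (z + q))
        (by fun_prop)).meromorphicAt]
    exact Finset.sum_congr rfl fun q _ => h1 q
  rw [h2]
  by_cases hz : z ∈ L.lattice
  · rw [if_pos hz]
    obtain ⟨s, hs, hs2⟩ := hQ.ex (-z) (neg_mem hz)
    have hs3 : z + s ∈ (Lrec r hr).lattice := by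
      have := neg_mem hs2
      rwa [show -(-z - s) = z + s by ring] at this
    rw [Finset.sum_eq_single s]
    · rw [if_pos hs3]
    · intro t ht hts
      rw [if_neg]
      · rfl
      · intro h
        apply hts
        have := sub_mem h hs3
        rw [show z + t - (z + s) = t - s by ring] at this
        exact hQ.inj t ht s hs this
    · intro h
      exact absurd hs h
  · rw [if_neg hz]
    refine (Finset.sum_eq_zero fun q hq => ?_).trans (by rfl)
    rw [if_neg]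
    · rfl
    · intro h
      apply hz
      have := sub_mem (hQ.le h) (hQ.mem q hq)
      rwa [add_sub_cancel_right] at this

private lemma kP_ne {r : ℝ} (hr : 0 < r) {L : PeriodPair} {Q : Finset ℂ}
    (hQ : IsReps (Lrec r hr) L Q) {z : ℂ} (hz : z ∉ L.lattice) {q : ℂ} (hq : q ∈ Q) :
    CMG.PP r (z + q) ≠ 0 := by
  intro h
  apply hz
  have := sub_mem (hQ.le ((kh_zero hr _).1 h)) (hQ.mem q hq)
  rwa [add_sub_cancel_right] at this

private lemma kP_log {r : ℝ} {Q : Finset ℂ} {z : ℂ} (h : ∀ q ∈ Q, CMG.PP r (z + q) ≠ 0) :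
    Real.log ‖kP r Q z‖ = ∑ q ∈ Q, Real.log ‖CMG.PP r (z + q)‖ := by
  unfold kP
  rw [norm_prod, Real.log_prod fun q hq => norm_ne_zero_iff.2 (h q hq)]

/-- the quadratic terms cancel -/
private lemma kh_affine (r : ℝ) (Q Q' : Finset ℂ) (n : ℕ) (hn : n * Q.card = Q'.card) :
    ∃ A B : ℝ, ∀ z : ℂ,
      n * ∑ q ∈ Q, (((z + q).im / r) ^ 2 - (z + q).im / r + 1 / 6) -
        ∑ q ∈ Q', (((z + q).im / r) ^ 2 - (z + q).im / r + 1 / 6) = A * z.im + B := by
  have key : ∀ (R : Finset ℂ) (z : ℂ),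
      ∑ q ∈ R, (((z + q).im / r) ^ 2 - (z + q).im / r + 1 / 6) =
        R.card * (z.im / r) ^ 2 + (∑ q ∈ R, (2 * q.im / r ^ 2 - 1 / r)) * z.im +
          ∑ q ∈ R, ((q.im / r) ^ 2 - q.im / r + 1 / 6) := by
    intro R z
    rw [← nsmul_eq_mul, ← Finset.sum_const, Finset.sum_mul, ← Finset.sum_add_distrib,
      ← Finset.sum_add_distrib]
    refine Finset.sum_congr rfl fun q _ => ?_
    rw [Complex.add_im]
    ring
  refine ⟨n * (∑ q ∈ Q, (2 * q.im / r ^ 2 - 1 / r)) - ∑ q ∈ Q', (2 * q.im / r ^ 2 - 1 / r),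
    n * (∑ q ∈ Q, ((q.im / r) ^ 2 - q.im / r + 1 / 6)) -
      ∑ q ∈ Q', ((q.im / r) ^ 2 - q.im / r + 1 / 6), fun z => ?_⟩
  rw [key, key, ← hn]
  push_cast
  ring

/-- the exponent -/
private def kE (r A B : ℝ) (z : ℂ) : ℂ :=
  ((Real.pi * r : ℝ) : ℂ) * ((A : ℂ) * (-(Complex.I * z)) + B)

private lemma kE_re (r A B : ℝ) (z : ℂ) : (kE r A B z).re = Real.pi * r * (A * z.im + B) := by
  unfold kE
  rw [Complex.re_ofReal_mul, Complex.add_re, Complex.re_ofReal_mul, Complex.neg_re,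
    Complex.ofReal_re]
  simp

private lemma kE_an (r A B : ℝ) (z : ℂ) : AnalyticAt ℂ (kE r A B) z := by
  unfold kE
  fun_prop

private def kF (r A B : ℝ) (Q Q' : Finset ℂ) (n : ℕ) : ℂ → ℂ :=
  (fun z => Complex.exp (-kE r A B z)) * ((kP r Q) ^ n * (kP r Q')⁻¹)

private lemma kF_mer {r : ℝ} (hr : 0 < r) (A B : ℝ) (Q Q' : Finset ℂ) (n : ℕ) (z : ℂ) :
    MeromorphicAt (kF r A B Q Q' n) z := by
  unfold kF
  exact ((kE_an r A B z).neg.cexp).meromorphicAt.mul
    (((kP_an hr Q z).meromorphicAt.pow _).mul (kP_an hr Q' z).meromorphicAt.inv)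

private lemma kF_ord {r : ℝ} (hr : 0 < r) (A B : ℝ) {L L' : PeriodPair} {Q Q' : Finset ℂ}
    (hQ : IsReps (Lrec r hr) L Q) (hQ' : IsReps (Lrec r hr) L' Q') (h : L.lattice ≤ L'.lattice)
    (n : ℕ) (z : ℂ) : open Classical in
    meromorphicOrderAt (kF r A B Q Q' n) z =
      ((if z ∈ L.lattice then (n : ℤ) - 1 else if z ∈ L'.lattice then -1 else 0 : ℤ) :
        WithTop ℤ) := by
  classical
  have h0 : AnalyticAt ℂ (fun z => Complex.exp (-kE r A B z)) z := (kE_an r A B z).neg.cexp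
  have h1 : meromorphicOrderAt (kF r A B Q Q' n) z =
      meromorphicOrderAt ((kP r Q) ^ n * (kP r Q')⁻¹) z := by
    unfold kF
    rw [meromorphicOrderAt_mul_of_ne_zero h0 (Complex.exp_ne_zero _)]
  rw [h1, meromorphicOrderAt_mul ((kP_an hr Q z).meromorphicAt.pow _)
    (kP_an hr Q' z).meromorphicAt.inv, meromorphicOrderAt_pow (kP_an hr Q z).meromorphicAt,
    meromorphicOrderAt_inv, kP_ord hr hQ, kP_ord hr hQ']
  by_cases h2 : z ∈ L.lattice
  · rw [if_pos h2, if_pos (h h2), if_pos h2]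
    norm_cast
    simp [Int.subNatNat_eq_coe, sub_eq_add_neg]
  · rw [if_neg h2, if_neg h2]
    split_ifs
    · norm_cast
    · norm_cast

private lemma kF_ne {r : ℝ} (hr : 0 < r) (A B : ℝ) {L L' : PeriodPair} {Q Q' : Finset ℂ}
    (hQ : IsReps (Lrec r hr) L Q) (hQ' : IsReps (Lrec r hr) L' Q') (h : L.lattice ≤ L'.lattice)
    (n : ℕ) {z : ℂ} (hz : z ∉ L'.lattice) : kF r A B Q Q' n z ≠ 0 := by
  unfold kF
  refine mul_ne_zero (Complex.exp_ne_zero _) (mul_ne_zero (pow_ne_zero _ ?_) (inv_ne_zero ?_))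
  · exact Finset.prod_ne_zero_iff.2 fun q hq => kP_ne hr hQ (fun h' => hz (h h')) hq
  · exact Finset.prod_ne_zero_iff.2 fun q hq => kP_ne hr hQ' hz hq

private lemma kF_an {r : ℝ} (hr : 0 < r) (A B : ℝ) {L' : PeriodPair} {Q Q' : Finset ℂ}
    (hQ' : IsReps (Lrec r hr) L' Q') (n : ℕ) {z : ℂ} (hz : z ∉ L'.lattice) :
    AnalyticAt ℂ (kF r A B Q Q' n) z := by
  unfold kF
  refine ((kE_an r A B z).neg.cexp).mul (((kP_an hr Q z).pow _).mul ((kP_an hr Q' z).inv ?_))
  exact Finset.prod_ne_zero_iff.2 fun q hq => kP_ne hr hQ' hz hq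

private lemma kF_log {r : ℝ} (hr : 0 < r) {A B : ℝ} {L L' : PeriodPair} {Q Q' : Finset ℂ}
    (hQ : IsReps (Lrec r hr) L Q) (hQ' : IsReps (Lrec r hr) L' Q') (h : L.lattice ≤ L'.lattice)
    {n : ℕ} (hAB : ∀ z : ℂ,
      n * ∑ q ∈ Q, (((z + q).im / r) ^ 2 - (z + q).im / r + 1 / 6) -
        ∑ q ∈ Q', (((z + q).im / r) ^ 2 - (z + q).im / r + 1 / 6) = A * z.im + B)
    {z : ℂ} (hz : z ∉ L'.lattice) :
    n * ∑ q ∈ Q, CMG.BB r (z + q) - ∑ q ∈ Q', CMG.BB r (z + q) =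
      -2 * Real.log ‖kF r A B Q Q' n z‖ := by
  have hn : ∀ q ∈ Q, CMG.PP r (z + q) ≠ 0 := fun q hq => kP_ne hr hQ (fun h' => hz (h h')) hq
  have hn' : ∀ q ∈ Q', CMG.PP r (z + q) ≠ 0 := fun q hq => kP_ne hr hQ' hz hq
  have h2 : ‖kP r Q z‖ ≠ 0 := norm_ne_zero_iff.2 (Finset.prod_ne_zero_iff.2 hn)
  have h3 : ‖kP r Q' z‖ ≠ 0 := norm_ne_zero_iff.2 (Finset.prod_ne_zero_iff.2 hn')
  have h4 : ‖kF r A B Q Q' n z‖ =
      Real.exp (-(kE r A B z).re) * (‖kP r Q z‖ ^ n * ‖kP r Q' z‖⁻¹) := by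
    unfold kF
    simp only [Pi.mul_apply, Pi.pow_apply, Pi.inv_apply, norm_mul, norm_pow,
      norm_inv, Complex.norm_exp, Complex.neg_re]
  have h5 : ∀ R : Finset ℂ, ∑ q ∈ R, CMG.BB r (z + q) =
      -2 * ∑ q ∈ R, Real.log ‖CMG.PP r (z + q)‖ +
        2 * Real.pi * r * ∑ q ∈ R, (((z + q).im / r) ^ 2 - (z + q).im / r + 1 / 6) := by
    intro R
    rw [Finset.mul_sum, Finset.mul_sum, ← Finset.sum_add_distrib]
    rfl
  rw [h4, Real.log_mul (Real.exp_pos _).ne' (mul_ne_zero (pow_ne_zero _ h2) (inv_ne_zero h3)),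
    Real.log_mul (pow_ne_zero _ h2) (inv_ne_zero h3), Real.log_pow, Real.log_inv, Real.log_exp,
    kE_re, kP_log hn, kP_log hn', h5, h5, ← hAB z]
  ring

private lemma kh_BB {r : ℝ} (hr : 0 < r) {w m : ℂ} (hw : w ∉ (Lrec r hr).lattice)
    (hm : m ∈ (Lrec r hr).lattice) : CMG.BB r (w + m) = CMG.BB r w := by
  obtain ⟨a, b, rfl⟩ := (kh_mem hr).1 hm
  have := CMG.BB_periodic hr (z := w) (fun h => hw ((kh_zero hr w).1 h)) a b
  rw [← this, add_assoc]

private lemma kh_sum {r : ℝ} (hr : 0 < r) {L : PeriodPair} {Q : Finset ℂ}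
    (hQ : IsReps (Lrec r hr) L Q) {z l : ℂ} (hz : z ∉ L.lattice) (hl : l ∈ L.lattice) :
    ∑ q ∈ Q, CMG.BB r (z + l + q) = ∑ q ∈ Q, CMG.BB r (z + q) := by
  classical
  set f : ℂ → ℂ := fun w => if z + w ∈ (Lrec r hr).lattice then 0 else
    ((Real.exp (CMG.BB r (z + w)) : ℝ) : ℂ) with hf
  have hper : ∀ w, ∀ m ∈ (Lrec r hr).lattice, f (w + m) = f w := by
    intro w m hm
    simp only [hf]
    by_cases hw : z + w ∈ (Lrec r hr).lattice
    · rw [if_pos hw, if_pos (by rw [← add_assoc]; exact add_mem hw hm)]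
    · rw [if_neg hw, if_neg, ← add_assoc, kh_BB hr hw hm]
      intro h
      apply hw
      have := sub_mem h hm
      rwa [← add_assoc, add_sub_cancel_right] at this
  have h1 := hQ.prod_add hQ hper hl
  have hnot : ∀ w ∈ L.lattice, z + w ∉ (Lrec r hr).lattice := by
    intro w hw h
    apply hz
    have := sub_mem (hQ.le h) hw
    rwa [add_sub_cancel_right] at this
  have h2 : ∏ s ∈ Q, f (s + l) = ((Real.exp (∑ q ∈ Q, CMG.BB r (z + l + q)) : ℝ) : ℂ) := by
    rw [Real.exp_sum, Complex.ofReal_prod]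
    refine Finset.prod_congr rfl fun s hs => ?_
    simp only [hf]
    rw [if_neg (hnot _ (add_mem (hQ.mem s hs) hl)), show z + (s + l) = z + l + s by ring]
  have h3 : ∏ s ∈ Q, f s = ((Real.exp (∑ q ∈ Q, CMG.BB r (z + q)) : ℝ) : ℂ) := by
    rw [Real.exp_sum, Complex.ofReal_prod]
    refine Finset.prod_congr rfl fun s hs => ?_
    simp only [hf]
    rw [if_neg (hnot _ (hQ.mem s hs))]
  rw [h2, h3] at h1
  exact Real.exp_injective (Complex.ofReal_injective h1)

private lemma kF_per {r : ℝ} (hr : 0 < r) {A B : ℝ} {L L' : PeriodPair} {Q Q' : Finset ℂ}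
    (hQ : IsReps (Lrec r hr) L Q) (hQ' : IsReps (Lrec r hr) L' Q') (h : L.lattice ≤ L'.lattice)
    {n : ℕ} (hAB : ∀ z : ℂ,
      n * ∑ q ∈ Q, (((z + q).im / r) ^ 2 - (z + q).im / r + 1 / 6) -
        ∑ q ∈ Q', (((z + q).im / r) ^ 2 - (z + q).im / r + 1 / 6) = A * z.im + B)
    {z l : ℂ} (hz : z ∉ L'.lattice) (hl : l ∈ L.lattice) :
    ‖kF r A B Q Q' n (z + l)‖ = ‖kF r A B Q Q' n z‖ := by
  have h0 : z + l ∉ L'.lattice := by
    intro h'
    apply hz
    have := sub_mem h' (h hl)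
    rwa [add_sub_cancel_right] at this
  have h1 := kF_log hr hQ hQ' h hAB hz
  have h2 := kF_log hr hQ hQ' h hAB h0
  rw [kh_sum hr hQ (fun h' => hz (h h')) hl, kh_sum hr hQ' hz (h hl), h1] at h2
  have h3 : Real.log ‖kF r A B Q Q' n (z + l)‖ = Real.log ‖kF r A B Q Q' n z‖ := by linarith
  exact Real.log_injOn_pos (norm_pos_iff.2 (kF_ne hr A B hQ hQ' h n h0))
    (norm_pos_iff.2 (kF_ne hr A B hQ hQ' h n hz)) h3

private lemma kh_codiscrete {r : ℝ} (hr : 0 < r) {L' : PeriodPair} {Q' : Finset ℂ}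
    (hQ' : IsReps (Lrec r hr) L' Q') : ∀ᶠ z in codiscrete ℂ, z ∉ L'.lattice := by
  classical
  have h1 : {z : ℂ | z ∉ L'.lattice} ∈ codiscrete ℂ := by
    rw [mem_codiscrete]
    intro z
    rw [disjoint_principal_right, compl_compl]
    have h2 : meromorphicOrderAt (kP r Q') z ≠ ⊤ := by
      rw [kP_ord hr hQ']
      exact WithTop.coe_ne_top
    have h3 := (meromorphicOrderAt_ne_top_iff_eventually_ne_zero
      (kP_an hr Q' z).meromorphicAt).1 h2
    filter_upwards [h3] with y hy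
    intro h
    apply hy
    obtain ⟨s, hs, hs2⟩ := hQ'.ex (-y) (neg_mem h)
    have hs3 : y + s ∈ (Lrec r hr).lattice := by
      have := neg_mem hs2
      rwa [show -(-y - s) = y + s by ring] at this
    exact Finset.prod_eq_zero hs ((kh_zero hr _).2 hs3)
  exact h1

private lemma kh_nhdsNE {P : ℂ → Prop} (h : ∀ᶠ z in codiscrete ℂ, P z) (z : ℂ) :
    ∀ᶠ y in 𝓝[≠] z, P y := by
  have h1 : {y | P y} ∈ codiscrete ℂ := h
  rw [mem_codiscrete] at h1
  have h2 := h1 z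
  rw [disjoint_principal_right, compl_compl] at h2
  exact h2

/-- Kronecker's limit formula up to a constant -/
theorem kron_const {r : ℝ} (hr : 0 < r) {L L' : PeriodPair} {Q Q' : Finset ℂ}
    (hQ : IsReps (Lrec r hr) L Q) (hQ' : IsReps (Lrec r hr) L' Q') (h : L.lattice ≤ L'.lattice)
    (ho : Odd (idx L L')) : ∃ C : ℝ, ∀ z, z ∉ L'.lattice →
      idx L L' * ∑ q ∈ Q, CMG.BB r (z + q) - ∑ q ∈ Q', CMG.BB r (z + q)
        - 2 * Real.log ‖DD L L' z‖ = C := by
  classical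
  have hcard : idx L L' * Q.card = Q'.card := by
    rw [hQ.card, hQ'.card, idx_mul hQ.le h, mul_comm]
  obtain ⟨A, B, hAB⟩ := kh_affine r Q Q' (idx L L') hcard
  set F := kF r A B Q Q' (idx L L') with hF
  have hm : ∀ z, MeromorphicAt (F * DD L L') z := fun z =>
    (kF_mer hr A B Q Q' _ z).mul (DD_meromorphic L L' h z)
  have hord : ∀ z, 0 ≤ meromorphicOrderAt (F * DD L L') z := by
    intro z
    rw [meromorphicOrderAt_mul (kF_mer hr A B Q Q' _ z) (DD_meromorphic L L' h z),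
      kF_ord hr A B hQ hQ' h, DD_order h ho]
    by_cases h2 : z ∈ L.lattice
    · rw [if_pos h2, if_pos h2]
      have h3 : ((idx L L' : ℤ) - 1) + (1 - (idx L L' : ℤ)) = 0 := by ring
      exact_mod_cast h3.ge
    · rw [if_neg h2, if_neg h2]
      split_ifs
      · norm_cast
      · norm_cast
  have hp : ∀ l ∈ L.lattice, ∀ᶠ z in codiscrete ℂ,
      ‖(F * DD L L') (z + l)‖ = ‖(F * DD L L') z‖ := by
    intro l hl
    filter_upwards [kh_codiscrete hr hQ'] with z hz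
    simp only [Pi.mul_apply, norm_mul]
    rw [hF, kF_per hr hQ hQ' h hAB hz hl, DD_add z hl]
  obtain ⟨c, hc⟩ := CMG.liouville L hm hord hp
  refine ⟨-2 * Real.log ‖c‖, fun z hz => ?_⟩
  have hcont : ContinuousAt (F * DD L L') z :=
    ((kF_an hr A B hQ' _ hz).mul (DD_analytic L L' h fun h' => hz (h h'))).continuousAt
  have h1 : (F * DD L L') z = c := by
    have h2 : Tendsto (F * DD L L') (𝓝[≠] z) (𝓝 ((F * DD L L') z)) :=
      hcont.tendsto.mono_left nhdsWithin_le_nhds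
    have h3 : Tendsto (F * DD L L') (𝓝[≠] z) (𝓝 c) :=
      tendsto_const_nhds.congr' ((kh_nhdsNE hc z).mono fun y hy => hy.symm)
    exact tendsto_nhds_unique h2 h3
  rw [kF_log hr hQ hQ' h hAB hz, ← h1]
  simp only [Pi.mul_apply, norm_mul]
  rw [Real.log_mul (norm_ne_zero_iff.2 (kF_ne hr A B hQ hQ' h _ hz))
    (norm_ne_zero_iff.2 (DD_ne_zero h hz))]
  ring

end Pool.Agent.CMR
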