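import Pool.Agent.CMR.Defs

/-!
# Block L (good reduction at a valuation ring `V` of `ℂ`) and lattices `𝔤⁻¹`: definitions
-/

set_option autoImplicit false

noncomputable section

open NumberField
open scoped PeriodPair

namespace Pool.Agent.CMR

/-- the coordinate `x = (℘ - e) / d` -/
def xx (L : PeriodPair) (e d z : ℂ) : ℂ := (℘[L] z - e) / d

/-! The coefficients of the equation `(℘'²)/d³ = 4 x³ + b₂ x² + 2 b₄ x + b₆`. -/

def bb2 (e d : ℂ) : ℂ := 12 * e / d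

def bb4 (L : PeriodPair) (e d : ℂ) : ℂ := (6 * e ^ 2 - L.g₂ / 2) / d ^ 2

def bb6 (L : PeriodPair) (e d : ℂ) : ℂ := (4 * e ^ 3 - L.g₂ * e - L.g₃) / d ^ 3

def bb8 (L : PeriodPair) (e d : ℂ) : ℂ := (bb2 e d * bb6 L e d - bb4 L e d ^ 2) / 4

/-- `x = (℘ - e) / d` is a coordinate with good reduction at `V`. -/
structure Good (V : ValuationSubring ℂ) (L : PeriodPair) (e d : ℂ) : Prop where
  ne : d ≠ 0
  disc : V.valuation d ^ 6 = V.valuation (dsc L)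
  h2 : bb2 e d ∈ V
  h4 : bb4 L e d ∈ V
  h6 : bb6 L e d ∈ V
  h8 : bb8 L e d ∈ V

/-- `z` is in the kernel of reduction. -/
def InE (V : ValuationSubring ℂ) (L : PeriodPair) (e d z : ℂ) : Prop :=
  z ∈ L.lattice ∨ 1 < V.valuation (xx L e d z)

section

variable {k : Type} [Field k] [NumberField k] [Algebra k ℂ]

/-- `z` is in the image of the fractional ideal `𝔤⁻¹`. -/
def MemInv (𝔤 : Ideal (𝓞 k)) (z : ℂ) : Prop :=
  ∃ x : k, algebraMap k ℂ x = z ∧ ∀ g ∈ 𝔤, ∃ y : 𝓞 k, (g : k) * x = (y : k)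

/-- the lattice `𝔤⁻¹` -/
def LatI (𝔤 : Ideal (𝓞 k)) : PeriodPair := open Classical in
  if h : ∃ L : PeriodPair, ∀ z, z ∈ L.lattice ↔ MemInv 𝔤 z then h.choose else Lrec 1 one_pos

/-- `k` is an imaginary quadratic field -/
structure IsIQ (k : Type) [Field k] [NumberField k] : Prop where
  finrank_eq : Module.finrank ℚ k = 2
  isComplex : IsTotallyComplex k

/-- the point `a / n` -/
def ptt (n : ℕ) (a : 𝓞 k) : ℂ := algebraMap k ℂ (a : k) / (n : ℂ)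

/-- `a 𝔞 = b 𝔟` with `a, b ≡ 1` modulo `N`: the ideals `𝔞`, `𝔟` (prime to `N`) are in the same ray class modulo `N`. -/
def REq (N : ℕ) (𝔞 𝔟 : Ideal (𝓞 k)) : Prop :=
  ∃ a b : 𝓞 k, a ≠ 0 ∧ b ≠ 0 ∧ (N : 𝓞 k) ∣ a - 1 ∧ (N : 𝓞 k) ∣ b - 1 ∧
    Ideal.span {a} * 𝔞 = Ideal.span {b} * 𝔟

/-- the ideal `𝔞` is prime to `n` -/
def Prm (n : ℕ) (𝔞 : Ideal (𝓞 k)) : Prop := IsCoprime 𝔞 (Ideal.span {(n : 𝓞 k)})

end

end Pool.Agent.CMR
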