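import Pool.Agent.CMR.MDefs

/-!
# M-ALG power series in q_n: algebra of IsQExp and IntV

`IsQExp`: termwise (`HasSum.add`, `HasSum.mul_left`, ...). For the product: `‖qn n τ‖ < 1` (`n > 0`, `Im τ > 0`) and
both series converge for every `τ`, hence absolutely at `qn n τ` (in `ℂ` summable = absolutely summable,
`Summable.norm`), so the Cauchy product `summable_norm_sum_mul_antidiagonal_of_summable_norm`,
`tsum_mul_tsum_eq_tsum_sum_antidiagonal_of_summable_norm` and `PowerSeries.coeff_mul` give it. `prod`, `pow`, `sum`: induction.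
`level`: `qn n τ = qn (n*m) τ ^ m`; sum over the injective map `j ↦ m j` (`Function.Injective.hasSum_iff`).
`IntV V φ` says that `φ` is in the subring of power series with coefficients in the subring `V` of `ℂ`: sums,
products (`PowerSeries.coeff_mul`, finite sums), or `φ ∈ (PowerSeries.map V.subtype).range`. `inv`: coefficients of the inverse
recursively (`PowerSeries.coeff_inv`, strong induction), or: `φ = map ψ` with `ψ : PowerSeries V`, `ψ.coeff 0` a unit of `V`
(`ValuationSubring.valuation_eq_one_iff`), so `ψ` is a unit of `PowerSeries V`. `of_mul`: `ψ = φ⁻¹ * (φ * ψ)`.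
-/

set_option autoImplicit false

noncomputable section

open UpperHalfPlane ModularForm MatrixGroups EisensteinSeries
open scoped PeriodPair

namespace Pool.Agent.CMR

theorem IsQExp.add {n : ℕ} {φ ψ : PowerSeries ℂ} {f g : ℍ → ℂ} (hf : IsQExp n φ f)
    (hg : IsQExp n ψ g) : IsQExp n (φ + ψ) (fun τ => f τ + g τ) := by
  intro τ
  have h := (hf τ).add (hg τ)
  simpa only [map_add, add_mul] using h

theorem IsQExp.smul {n : ℕ} {φ : PowerSeries ℂ} {f : ℍ → ℂ} (c : ℂ) (hf : IsQExp n φ f) :
    IsQExp n (PowerSeries.C c * φ) (fun τ => c * f τ) := by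
  intro τ
  have h := (hf τ).mul_left c
  simpa only [PowerSeries.coeff_C_mul, mul_assoc] using h

theorem IsQExp.sub {n : ℕ} {φ ψ : PowerSeries ℂ} {f g : ℍ → ℂ} (hf : IsQExp n φ f)
    (hg : IsQExp n ψ g) : IsQExp n (φ - ψ) (fun τ => f τ - g τ) := by
  intro τ
  have h := (hf τ).sub (hg τ)
  simpa only [map_sub, sub_mul] using h

theorem IsQExp.const (n : ℕ) (c : ℂ) : IsQExp n (PowerSeries.C c) (fun _ => c) := by
  intro τ
  have h := hasSum_single (f := fun j : ℕ => (PowerSeries.C c).coeff j * qn n τ ^ j) 0 (by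
    intro j hj
    rw [PowerSeries.coeff_C, if_neg hj, zero_mul])
  simpa [PowerSeries.coeff_C] using h

theorem IsQExp.mul {n : ℕ} (hn : 0 < n) {φ ψ : PowerSeries ℂ} {f g : ℍ → ℂ} (hf : IsQExp n φ f)
    (hg : IsQExp n ψ g) : IsQExp n (φ * ψ) (fun τ => f τ * g τ) := by
  intro τ
  have h1 : Summable fun j : ℕ => ‖φ.coeff j * qn n τ ^ j‖ := (hf τ).summable.norm
  have h2 : Summable fun j : ℕ => ‖ψ.coeff j * qn n τ ^ j‖ := (hg τ).summable.norm
  have h3 := tsum_mul_tsum_eq_tsum_sum_antidiagonal_of_summable_norm h1 h2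
  have h4 := (summable_norm_sum_mul_antidiagonal_of_summable_norm h1 h2).of_norm.hasSum
  rw [← h3, (hf τ).tsum_eq, (hg τ).tsum_eq] at h4
  refine h4.congr_fun ?_
  intro j
  rw [PowerSeries.coeff_mul, Finset.sum_mul]
  refine Finset.sum_congr rfl fun p hp => ?_
  rw [← Finset.HasAntidiagonal.mem_antidiagonal.1 hp, pow_add]
  ring

theorem IsQExp.pow {n : ℕ} (hn : 0 < n) {φ : PowerSeries ℂ} {f : ℍ → ℂ} (hf : IsQExp n φ f)
    (m : ℕ) : IsQExp n (φ ^ m) (fun τ => f τ ^ m) := by
  induction m with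
  | zero => simpa using IsQExp.const n (1 : ℂ)
  | succ m ih =>
    simp only [pow_succ]
    exact ih.mul hn hf

theorem IsQExp.prod {n : ℕ} (hn : 0 < n) {ι : Type} (s : Finset ι) {φ : ι → PowerSeries ℂ}
    {f : ι → ℍ → ℂ} (hf : ∀ i ∈ s, IsQExp n (φ i) (f i)) :
    IsQExp n (∏ i ∈ s, φ i) (fun τ => ∏ i ∈ s, f i τ) := by
  classical
  induction s using Finset.induction_on with
  | empty => simpa using IsQExp.const n (1 : ℂ)
  | insert a s ha ih =>
    simp only [Finset.prod_insert ha]
    exact (hf a (Finset.mem_insert_self a s)).mul hn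
      (ih fun i hi => hf i (Finset.mem_insert_of_mem hi))

theorem IsQExp.sum {n : ℕ} {ι : Type} (s : Finset ι) {φ : ι → PowerSeries ℂ}
    {f : ι → ℍ → ℂ} (hf : ∀ i ∈ s, IsQExp n (φ i) (f i)) :
    IsQExp n (∑ i ∈ s, φ i) (fun τ => ∑ i ∈ s, f i τ) := by
  classical
  induction s using Finset.induction_on with
  | empty => simpa using IsQExp.const n (0 : ℂ)
  | insert a s ha ih =>
    simp only [Finset.sum_insert ha]
    exact (hf a (Finset.mem_insert_self a s)).add
      (ih fun i hi => hf i (Finset.mem_insert_of_mem hi))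

/-- change of level: `q_n = q_{nm} ^ m` -/
theorem IsQExp.level {n m : ℕ} (hn : 0 < n) (hm : 0 < m) {φ : PowerSeries ℂ} {f : ℍ → ℂ}
    (hf : IsQExp n φ f) :
    IsQExp (n * m) (PowerSeries.mk fun j => if m ∣ j then φ.coeff (j / m) else 0) f := by
  intro τ
  have hq : qn n τ = qn (n * m) τ ^ m := by
    unfold qn
    rw [← Complex.exp_nat_mul]
    congr 1
    have h1 : (n : ℂ) ≠ 0 := by exact_mod_cast hn.ne'
    have h2 : (m : ℂ) ≠ 0 := by exact_mod_cast hm.ne'
    push_cast
    field_simp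
  have hinj : Function.Injective fun j : ℕ => m * j := fun a b h => by
    exact Nat.eq_of_mul_eq_mul_left hm h
  rw [← hinj.hasSum_iff]
  · refine (hf τ).congr_fun ?_
    intro j
    simp only [Function.comp_apply, PowerSeries.coeff_mk]
    rw [if_pos (Dvd.intro j rfl), Nat.mul_div_cancel_left j hm, hq, ← pow_mul]
  · intro j hj
    rw [PowerSeries.coeff_mk, if_neg, zero_mul]
    rintro ⟨c, rfl⟩
    exact hj ⟨c, rfl⟩

theorem IntV.add {V : ValuationSubring ℂ} {φ ψ : PowerSeries ℂ} (h : IntV V φ) (h' : IntV V ψ) :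
    IntV V (φ + ψ) := by
  intro j
  rw [map_add]
  exact V.add_mem _ _ (h j) (h' j)

theorem IntV.neg {V : ValuationSubring ℂ} {φ : PowerSeries ℂ} (h : IntV V φ) : IntV V (-φ) := by
  intro j
  rw [map_neg]
  exact V.neg_mem _ (h j)

theorem IntV.sub {V : ValuationSubring ℂ} {φ ψ : PowerSeries ℂ} (h : IntV V φ) (h' : IntV V ψ) :
    IntV V (φ - ψ) := by
  rw [sub_eq_add_neg]
  exact h.add h'.neg

theorem IntV.mul {V : ValuationSubring ℂ} {φ ψ : PowerSeries ℂ} (h : IntV V φ) (h' : IntV V ψ) :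
    IntV V (φ * ψ) := by
  intro j
  rw [PowerSeries.coeff_mul]
  exact sum_mem fun p _ => V.mul_mem _ _ (h p.1) (h' p.2)

theorem IntV.pow {V : ValuationSubring ℂ} {φ : PowerSeries ℂ} (h : IntV V φ) (m : ℕ) :
    IntV V (φ ^ m) := by
  induction m with
  | zero =>
    rw [pow_zero]
    intro j
    rw [PowerSeries.coeff_one]
    split_ifs
    · exact V.one_mem
    · exact V.zero_mem
  | succ m ih =>
    rw [pow_succ]
    exact ih.mul h

theorem IntV.C {V : ValuationSubring ℂ} {c : ℂ} (hc : c ∈ V) : IntV V (PowerSeries.C c) := by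
  intro j
  rw [PowerSeries.coeff_C]
  split_ifs
  · exact hc
  · exact V.zero_mem

theorem IntV.X_pow (V : ValuationSubring ℂ) (r : ℕ) : IntV V ((PowerSeries.X : PowerSeries ℂ) ^ r) := by
  intro j
  rw [PowerSeries.coeff_X_pow]
  split_ifs
  · exact V.one_mem
  · exact V.zero_mem

theorem IntV.prod {V : ValuationSubring ℂ} {ι : Type} (s : Finset ι) {φ : ι → PowerSeries ℂ}
    (h : ∀ i ∈ s, IntV V (φ i)) : IntV V (∏ i ∈ s, φ i) := by
  classical
  induction s using Finset.induction_on with
  | empty =>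
    rw [Finset.prod_empty]
    intro j
    rw [PowerSeries.coeff_one]
    split_ifs
    · exact V.one_mem
    · exact V.zero_mem
  | insert a s ha ih =>
    rw [Finset.prod_insert ha]
    exact (h a (Finset.mem_insert_self a s)).mul
      (ih fun i hi => h i (Finset.mem_insert_of_mem hi))

theorem IntV.sum {V : ValuationSubring ℂ} {ι : Type} (s : Finset ι) {φ : ι → PowerSeries ℂ}
    (h : ∀ i ∈ s, IntV V (φ i)) : IntV V (∑ i ∈ s, φ i) := by
  intro j
  rw [map_sum]
  exact sum_mem fun i hi => h i hi j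

/-- the inverse of a power series whose constant coefficient is a unit of `V` -/
theorem IntV.inv {V : ValuationSubring ℂ} {φ : PowerSeries ℂ} (h : IntV V φ)
    (h0 : V.valuation (φ.coeff 0) = 1) : IntV V φ⁻¹ := by
  have h1 : (PowerSeries.constantCoeff φ)⁻¹ ∈ V := by
    rw [← V.valuation_le_one_iff, map_inv₀, ← PowerSeries.coeff_zero_eq_constantCoeff_apply, h0,
      inv_one]
  intro j
  induction j using Nat.strong_induction_on with
  | _ j ih =>
    rw [PowerSeries.coeff_inv]
    split_ifs with hj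
    · exact h1
    · refine V.mul_mem _ _ (V.neg_mem _ h1) (sum_mem fun p _ => ?_)
      split_ifs with hp
      · exact V.mul_mem _ _ (h p.1) (ih p.2 hp)
      · exact V.zero_mem

/-- division by a power series with leading coefficient a unit of `V` -/
theorem IntV.of_mul {V : ValuationSubring ℂ} {φ ψ : PowerSeries ℂ} (h : IntV V φ)
    (h0 : V.valuation (φ.coeff 0) = 1) (hm : IntV V (φ * ψ)) : IntV V ψ := by
  have h1 : PowerSeries.constantCoeff φ ≠ 0 := by
    intro hc
    rw [← PowerSeries.coeff_zero_eq_constantCoeff_apply] at hc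
    rw [hc, map_zero] at h0
    exact zero_ne_one h0
  have h2 : ψ = φ⁻¹ * (φ * ψ) := by
    rw [← mul_assoc, PowerSeries.inv_mul_cancel φ h1, one_mul]
  rw [h2]
  exact (h.inv h0).mul hm

end Pool.Agent.CMR
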