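import Pool.Agent.CMR.MPw
import Pool.Agent.CMR.MAlg

/-!
# M-EXP q_n-expansion of wp(z) - wp(w) at torsion points, leading coefficient a unit

`val_root_sub`: `∏_{ζ^n = 1, ζ ≠ 1} (1 - ζ) = n` (Mathlib: `IsPrimitiveRoot`/`Polynomial`), every factor is in `V`, so every factor is a unit.
`pw_sub_qExp`: `pw` depends only on `±v` mod `n` (`℘` is even and periodic), so we may assume `0 ≤ v.1, 2 v.1 ≤ n`, same for `w`.
With `x = e(z) = ζ^{v₂} q_n^{v₁}` (`ζ = exp (2πi/n)`) and `Q(x) = Q(1/x) = ∑_{k ≥ 1} k x^k` for `|x| < 1`, `P_sub_eq` gives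
`pw v = const + Q(x) + ∑_{m ≥ 1} ∑_{k ≥ 1} k (ζ^{k v₂} q_n^{(m n + v₁) k} + ζ^{-k v₂} q_n^{(m n - v₁) k})`, `Q(x) = ∑ k ζ^{k v₂} q_n^{v₁ k}` if
`v₁ > 0`, `Q(x) = ζ^{v₂}/(1 - ζ^{v₂})² ∈ V` if `v₁ = 0`, with the same constant for `w`. All exponents are `≥ 0`, only finitely many
terms have a given exponent (a lemma: `∑_i c_i q^{e_i}` absolutely convergent with finite fibres of `e` is the power series with
coefficients `∑_{e_i = j} c_i`), the coefficients are in `V`. Leading term (assume `v₁ ≤ w₁`): `v₁ = w₁ = 0`: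
`Q(x) - Q(y) = (x - y)(1 - x y)/((1-x)²(1-y)²)` for `x = ζ^{v₂}`, `y = ζ^{w₂}`, a unit by `val_root_sub` (`x ≠ y`, `x y ≠ 1`);
`v₁ = 0 < w₁`: `Q(ζ^{v₂})`, a unit; `0 < v₁ < w₁`: `ζ^{v₂} q_n^{v₁}`; `0 < v₁ = w₁ < n/2`: `(ζ^{v₂} - ζ^{w₂}) q_n^{v₁}`, different;
`v₁ = w₁ = n/2`: `(x + 1/x - y - 1/y) q_n^{n/2}` with `x + 1/x - y - 1/y = (x - y)(1 - 1/(x y))`, `x = ζ^{v₂}`, `y = ζ^{w₂}`, where
`v₂ ≠ ± w₂` mod `n` by `h1`, `h2`. So `r = min(v₁, w₁)`, `2 r ≤ n`.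
-/

set_option autoImplicit false

noncomputable section

open UpperHalfPlane ModularForm MatrixGroups EisensteinSeries
open scoped PeriodPair

namespace Pool.Agent.CMR

private theorem val_root (V : ValuationSubring ℂ) {n : ℕ} (hn0 : n ≠ 0) {x : ℂ} (hx : x ^ n = 1) :
    V.valuation x = 1 := by
  have h : V.valuation x ^ n = 1 := by rw [← map_pow, hx, map_one]
  exact (pow_eq_one_iff.1 h).resolve_right hn0

private theorem val_le_mul {V : ValuationSubring ℂ} {x y : ℂ} (hx : V.valuation x ≤ 1)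
    (hy : V.valuation y ≤ 1) (h : V.valuation (x * y) = 1) : V.valuation x = 1 := by
  rw [map_mul] at h
  refine le_antisymm hx ?_
  rw [← h]
  exact mul_le_of_le_one_right' hy

/-- a root of unity of order dividing `n` with `|n| = 1`: differences of different ones are units of `V` -/
theorem val_root_sub (V : ValuationSubring ℂ) {n : ℕ} (hn : V.valuation (n : ℂ) = 1) {x y : ℂ}
    (hx : x ^ n = 1) (hy : y ^ n = 1) (hxy : x ≠ y) : V.valuation (x - y) = 1 := by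
  have hn0 : n ≠ 0 := by
    rintro rfl
    simp at hn
  have hx0 : x ≠ 0 := by
    rintro rfl
    rw [zero_pow hn0] at hx
    exact zero_ne_one hx
  obtain ⟨u, hu⟩ : ∃ u, u = y / x := ⟨_, rfl⟩
  have hun : u ^ n = 1 := by rw [hu, div_pow, hx, hy, div_one]
  have hu1 : u ≠ 1 := by
    intro h
    rw [hu, div_eq_one_iff_eq hx0] at h
    exact hxy h.symm
  have hgeom : ∑ k ∈ Finset.range n, u ^ k = 0 := by
    have h2 := mul_geom_sum u n
    rw [hun, sub_self] at h2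
    rcases mul_eq_zero.1 h2 with h3 | h3
    · exact absurd (sub_eq_zero.1 h3) hu1
    · exact h3
  have key : (n : ℂ) = (1 - u) * ∑ k ∈ Finset.range n, ∑ i ∈ Finset.range k, u ^ i := by
    rw [Finset.mul_sum]
    have h2 : ∀ k ∈ Finset.range n, (1 - u) * ∑ i ∈ Finset.range k, u ^ i = 1 - u ^ k :=
      fun k _ => mul_neg_geom_sum u k
    rw [Finset.sum_congr rfl h2, Finset.sum_sub_distrib, hgeom]
    simp
  have huV : u ∈ V := by
    rw [← V.valuation_le_one_iff, val_root V hn0 hun]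
  have h3 : V.valuation (1 - u) = 1 := by
    rw [key] at hn
    refine val_le_mul ?_ ?_ hn
    · rw [V.valuation_le_one_iff]
      exact sub_mem (one_mem V) huV
    · rw [V.valuation_le_one_iff]
      exact sum_mem fun k _ => sum_mem fun i _ => pow_mem huV i
  have h4 : x - y = x * (1 - u) := by
    rw [hu]
    field_simp
  rw [h4, map_mul, h3, val_root V hn0 hx, one_mul]

/-! ### Double series -/

/-- the coefficients of `∑ (k + 1) c ^ (k + 1) q ^ (E m (k + 1))` -/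
private def cf (E : ℕ → ℕ) (c : ℂ) (j : ℕ) : ℂ :=
  ∑ p ∈ (Finset.range j ×ˢ Finset.range j).filter (fun p : ℕ × ℕ => E p.1 * (p.2 + 1) = j),
    ((p.2 : ℂ) + 1) * c ^ (p.2 + 1)

private theorem cf_zero (E : ℕ → ℕ) (c : ℂ) : cf E c 0 = 0 := by
  simp [cf]

private theorem cf_of_lt {E : ℕ → ℕ} (c : ℂ) {j : ℕ} (h : ∀ m, j < E m) : cf E c j = 0 := by
  rw [cf, Finset.sum_eq_zero]
  intro p hp
  exfalso
  have h1 := (Finset.mem_filter.1 hp).2
  have h2 : E p.1 ≤ E p.1 * (p.2 + 1) := Nat.le_mul_of_pos_right _ (Nat.succ_pos _)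
  have h3 := h p.1
  omega

private theorem cf_self {E : ℕ → ℕ} (c : ℂ) {j : ℕ} (hj : 0 < j) (h0 : E 0 = j)
    (h : ∀ m, j < E (m + 1)) : cf E c j = c := by
  rw [cf, Finset.sum_eq_single (0, 0)]
  · simp
  · rintro ⟨m, k⟩ hp hne
    exfalso
    have h1 : E m * (k + 1) = j := (Finset.mem_filter.1 hp).2
    rcases m with _ | m
    · rw [h0] at h1
      have h2 : k = 0 := by
        have h3 : j * (k + 1) = j * 1 := by rw [h1, mul_one]
        have h4 := Nat.eq_of_mul_eq_mul_left hj h3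
        omega
      exact hne (by rw [h2])
    · have h2 : E (m + 1) ≤ E (m + 1) * (k + 1) := Nat.le_mul_of_pos_right _ (Nat.succ_pos _)
      have h3 := h m
      omega
  · intro h1
    exfalso
    apply h1
    rw [Finset.mem_filter, Finset.mem_product, Finset.mem_range]
    refine ⟨⟨hj, hj⟩, ?_⟩
    simp [h0]

private theorem cf_mem {V : ValuationSubring ℂ} (E : ℕ → ℕ) {c : ℂ} (hc : c ∈ V) (j : ℕ) :
    cf E c j ∈ V := by
  refine sum_mem fun p _ => mul_mem ?_ (pow_mem hc _)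
  exact add_mem (natCast_mem V p.2) (one_mem V)

/-- the double series -/
private theorem double {E : ℕ → ℕ} (hE : ∀ m, m + 1 ≤ E m) {c q : ℂ} (hc : ‖c‖ = 1)
    (hq : ‖q‖ < 1) : ∃ S : ℂ, HasSum (fun m => QQx (c * q ^ E m)) S ∧
      HasSum (fun j => cf E c j * q ^ j) S := by
  set f : ℕ × ℕ → ℂ := fun p => ((p.2 : ℂ) + 1) * c ^ (p.2 + 1) * q ^ (E p.1 * (p.2 + 1)) with hf
  have hq0 : 0 ≤ ‖q‖ := norm_nonneg q
  have hgs : Summable fun k : ℕ => ((k : ℝ) + 1) * ‖q‖ ^ k := by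
    have hq' : ‖(‖q‖ : ℝ)‖ < 1 := by rwa [norm_norm]
    have h1 := (hasSum_coe_mul_geometric_of_norm_lt_one hq').summable
    have h2 := summable_geometric_of_lt_one hq0 hq
    refine (h1.add h2).congr fun k => ?_
    ring
  have hgs' : Summable fun k : ℕ => ‖q‖ ^ k := summable_geometric_of_lt_one hq0 hq
  have hsum : Summable f := by
    have h1 : Summable fun p : ℕ × ℕ => ‖q‖ ^ p.1 * (((p.2 : ℝ) + 1) * ‖q‖ ^ p.2) :=
      hgs'.mul_of_nonneg hgs (fun k => pow_nonneg hq0 k) (fun k => by positivity)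
    refine Summable.of_norm_bounded h1 fun p => ?_
    rw [hf]
    simp only [norm_mul, norm_pow, hc, one_pow, mul_one]
    have h2 : ‖((p.2 : ℂ) + 1)‖ = (p.2 : ℝ) + 1 := by
      have : ((p.2 : ℂ) + 1) = ((p.2 + 1 : ℕ) : ℂ) := by push_cast; ring
      rw [this, Complex.norm_natCast]
      push_cast
      ring
    rw [h2]
    have h3 : p.1 + p.2 ≤ E p.1 * (p.2 + 1) := by
      have h4 : (p.1 + 1) * (p.2 + 1) ≤ E p.1 * (p.2 + 1) := Nat.mul_le_mul_right _ (hE p.1)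
      have h5 : (p.1 + 1) * (p.2 + 1) = p.1 * p.2 + p.1 + p.2 + 1 := by ring
      omega
    have h4 : ‖q‖ ^ (E p.1 * (p.2 + 1)) ≤ ‖q‖ ^ (p.1 + p.2) := pow_le_pow_of_le_one hq0 hq.le h3
    calc ((p.2 : ℝ) + 1) * ‖q‖ ^ (E p.1 * (p.2 + 1)) ≤ ((p.2 : ℝ) + 1) * ‖q‖ ^ (p.1 + p.2) := by
          gcongr
      _ = ‖q‖ ^ p.1 * (((p.2 : ℝ) + 1) * ‖q‖ ^ p.2) := by rw [pow_add]; ring
  refine ⟨∑' p, f p, ?_, ?_⟩
  · refine hsum.hasSum.prod_fiberwise fun m => ?_
    have hr : ‖c * q ^ E m‖ < 1 := by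
      rw [norm_mul, hc, one_mul, norm_pow]
      have := hE m
      exact pow_lt_one₀ hq0 hq (by omega)
    have h1 := hasSum_coe_mul_geometric_of_norm_lt_one hr
    have h2 := (hasSum_nat_add_iff' 1).2 h1
    simp only [Finset.range_one, Finset.sum_singleton, Nat.cast_zero, zero_mul, sub_zero] at h2
    have h3 : (fun k : ℕ => f (m, k)) =
        fun k : ℕ => ((k + 1 : ℕ) : ℂ) * (c * q ^ E m) ^ (k + 1) := by
      funext k
      rw [hf]
      simp only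
      rw [mul_pow, ← pow_mul]
      push_cast
      ring
    rw [h3]
    exact h2
  · have h1 : HasSum (f ∘ Equiv.sigmaFiberEquiv (fun p : ℕ × ℕ => E p.1 * (p.2 + 1)))
        (∑' p, f p) := (Equiv.hasSum_iff _).2 hsum.hasSum
    refine h1.sigma fun j => ?_
    have h2 : HasSum (f ∘ ((↑) : {p : ℕ × ℕ | E p.1 * (p.2 + 1) = j} → ℕ × ℕ))
        (cf E c j * q ^ j) := by
      rw [hasSum_subtype_iff_indicator]
      have h3 : cf E c j * q ^ j = ∑ p ∈ (Finset.range j ×ˢ Finset.range j).filter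
          (fun p : ℕ × ℕ => E p.1 * (p.2 + 1) = j),
          Set.indicator {p : ℕ × ℕ | E p.1 * (p.2 + 1) = j} f p := by
        rw [cf, Finset.sum_mul]
        refine Finset.sum_congr rfl fun p hp => ?_
        have h4 := (Finset.mem_filter.1 hp).2
        rw [Set.indicator_of_mem (by exact h4), hf]
        simp only
        rw [h4]
      rw [h3]
      refine hasSum_sum_of_ne_finset_zero fun p hp => ?_
      refine Set.indicator_of_notMem ?_ _
      intro h4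
      apply hp
      have h4 : E p.1 * (p.2 + 1) = j := h4
      rw [Finset.mem_filter, Finset.mem_product, Finset.mem_range, Finset.mem_range]
      have h5 : (p.1 + 1) * (p.2 + 1) ≤ E p.1 * (p.2 + 1) := Nat.mul_le_mul_right _ (hE p.1)
      have h6 : (p.1 + 1) * (p.2 + 1) = p.1 * p.2 + p.1 + p.2 + 1 := by ring
      exact ⟨⟨by omega, by omega⟩, h4⟩
    exact h2

private theorem double_exp {E : ℕ → ℕ} (hE : ∀ m, m + 1 ≤ E m) {c : ℂ} (hc : ‖c‖ = 1) {n : ℕ}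
    (hn : 0 < n) : ∃ S : ℍ → ℂ, (∀ τ, HasSum (fun m => QQx (c * qn n τ ^ E m)) (S τ)) ∧
      IsQExp n (PowerSeries.mk (cf E c)) S := by
  have h := fun τ : ℍ => double hE hc (norm_qn_lt hn τ)
  choose S h1 h2 using h
  refine ⟨S, h1, fun τ => ?_⟩
  simp only [PowerSeries.coeff_mk]
  exact h2 τ

/-! ### The functions `e` and `Q` -/

private theorem ex_add (z w : ℂ) : ex (z + w) = ex z * ex w := by
  rw [ex, ex, ex, ← Complex.exp_add]
  ring_nf

private theorem ex_neg (z : ℂ) : ex (-z) = (ex z)⁻¹ := by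
  rw [ex, ex, ← Complex.exp_neg]
  ring_nf

private theorem ex_ne (z : ℂ) : ex z ≠ 0 := Complex.exp_ne_zero _

private theorem QQx_inv (x : ℂ) : QQx x⁻¹ = QQx x := by
  rcases eq_or_ne x 0 with rfl | h0
  · rw [inv_zero]
  · rcases eq_or_ne x 1 with rfl | h1
    · rw [inv_one]
    · have h2 : 1 - x ≠ 0 := sub_ne_zero.2 (Ne.symm h1)
      have h3 : x - 1 ≠ 0 := sub_ne_zero.2 h1
      have h4 : 1 - x⁻¹ = (x - 1) / x := by field_simp
      rw [QQx, QQx, h4]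
      field_simp
      ring

private theorem ex_pow_n {n : ℕ} (hn0 : n ≠ 0) (k : ℤ) : ex ((k : ℂ) / n) ^ n = 1 := by
  have hn : (n : ℂ) ≠ 0 := by exact_mod_cast hn0
  rw [ex, ← Complex.exp_nat_mul, Complex.exp_eq_one_iff]
  refine ⟨k, ?_⟩
  field_simp

private theorem ex_eq_one {n : ℕ} (hn0 : n ≠ 0) {k : ℤ} (h : ex ((k : ℂ) / n) = 1) :
    (n : ℤ) ∣ k := by
  have hn : (n : ℂ) ≠ 0 := by exact_mod_cast hn0
  rw [ex, Complex.exp_eq_one_iff] at h
  obtain ⟨m, hm⟩ := h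
  have hpi : (Real.pi : ℂ) ≠ 0 := by exact_mod_cast Real.pi_ne_zero
  refine ⟨m, ?_⟩
  have h1 : 2 * (Real.pi : ℂ) * Complex.I ≠ 0 :=
    mul_ne_zero (mul_ne_zero two_ne_zero hpi) Complex.I_ne_zero
  have h2 : 2 * (Real.pi : ℂ) * Complex.I * ((k : ℂ) / n) = 2 * Real.pi * Complex.I * m := by
    rw [hm]; ring
  have h3 := mul_left_cancel₀ h1 h2
  rw [div_eq_iff hn] at h3
  have h4 : (k : ℂ) = ((n * m : ℤ) : ℂ) := by
    rw [h3]; push_cast; ring
  exact_mod_cast h4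

private theorem norm_ex {n : ℕ} (hn0 : n ≠ 0) (k : ℤ) : ‖ex ((k : ℂ) / n)‖ = 1 := by
  have h := congrArg norm (ex_pow_n hn0 k)
  rw [norm_pow, norm_one] at h
  exact (pow_eq_one_iff_of_nonneg (norm_nonneg _) hn0).1 h

private theorem ex_pz {n : ℕ} (hn0 : n ≠ 0) {v : ℤ × ℤ} {a : ℕ} (ha : v.1 = a) (τ : ℍ) (m : ℕ) :
    ex (pz n v τ + ((m : ℤ) : ℂ) * τ) = ex ((v.2 : ℂ) / n) * qn n τ ^ (m * n + a) := by
  have hn : (n : ℂ) ≠ 0 := by exact_mod_cast hn0
  have h1 : pz n v τ + ((m : ℤ) : ℂ) * τ = (v.2 : ℂ) / n + ((m * n + a : ℕ) : ℂ) * (τ / n) := by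
    rw [pz, ha]
    push_cast
    field_simp
    ring
  rw [h1, ex_add]
  congr 1
  rw [qn, ← Complex.exp_nat_mul, ex]
  ring_nf

private theorem ex_pz_neg {n : ℕ} (hn0 : n ≠ 0) {v : ℤ × ℤ} {a : ℕ} (ha : v.1 = a) (han : a ≤ n)
    (τ : ℍ) (m : ℕ) : ex (pz n v τ + ((-((m : ℤ) + 1) : ℤ) : ℂ) * τ) =
      ((ex ((v.2 : ℂ) / n))⁻¹ * qn n τ ^ ((m + 1) * n - a))⁻¹ := by
  have hn : (n : ℂ) ≠ 0 := by exact_mod_cast hn0
  have hle : a ≤ (m + 1) * n := by nlinarith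
  have h1 : pz n v τ + ((-((m : ℤ) + 1) : ℤ) : ℂ) * τ =
      -(-((v.2 : ℂ) / n) + (((m + 1) * n - a : ℕ) : ℂ) * (τ / n)) := by
    rw [pz, ha, Nat.cast_sub hle]
    push_cast
    field_simp
    ring
  rw [h1, ex_neg, ex_add, ex_neg]
  congr 2
  rw [qn, ← Complex.exp_nat_mul, ex]
  ring_nf

/-! ### The expansion of one value -/

/-- the leading coefficient -/
private def lead (n a : ℕ) (c : ℂ) : ℂ :=
  if a = 0 then QQx c else if 2 * a = n then c + c⁻¹ else c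

private theorem val_QQx (V : ValuationSubring ℂ) {n : ℕ} (hn : V.valuation (n : ℂ) = 1)
    (hn0 : n ≠ 0) {c : ℂ} (hc : c ^ n = 1) (hc1 : c ≠ 1) : V.valuation (QQx c) = 1 := by
  rw [QQx, map_div₀, map_pow, val_root_sub V hn (one_pow n) hc (Ne.symm hc1), val_root V hn0 hc]
  simp

private theorem expand (V : ValuationSubring ℂ) {n : ℕ} (hn : V.valuation (n : ℂ) = 1)
    (hn2 : 2 ≤ n) {v : ℤ × ℤ} {a : ℕ} (ha : v.1 = a) (h2 : 2 * a ≤ n)
    (hv : a = 0 → ¬ (n : ℤ) ∣ v.2) :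
    ∃ (Ψ : PowerSeries ℂ) (S : ℍ → ℂ),
      (∀ τ : ℍ, HasSum (fun m : ℤ => QQx (ex (pz n v τ + m * τ))) (S τ)) ∧
      IsQExp n Ψ S ∧ IntV V Ψ ∧ (∀ j < a, Ψ.coeff j = 0) ∧
      Ψ.coeff a = lead n a (ex ((v.2 : ℂ) / n)) := by
  have hn0 : n ≠ 0 := by omega
  set c := ex ((v.2 : ℂ) / n) with hc
  have hcn : c ^ n = 1 := ex_pow_n hn0 v.2
  have hc1 : ‖c‖ = 1 := norm_ex hn0 v.2
  have hc1' : ‖c⁻¹‖ = 1 := by rw [norm_inv, hc1, inv_one]
  have hcV : c ∈ V := by rw [← V.valuation_le_one_iff, val_root V hn0 hcn]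
  have hcn' : c⁻¹ ^ n = 1 := by rw [inv_pow, hcn, inv_one]
  have hcV' : c⁻¹ ∈ V := by rw [← V.valuation_le_one_iff, val_root V hn0 hcn']
  -- the second part
  have hE2 : ∀ m, m + 1 ≤ (m + 1) * n - a := by
    intro m
    have h3 : (m + 1) * 2 ≤ (m + 1) * n := Nat.mul_le_mul_left _ hn2
    have h4 : 1 * n ≤ (m + 1) * n := Nat.mul_le_mul_right _ (by omega)
    omega
  obtain ⟨S₂, hS₂, hX₂⟩ := double_exp hE2 hc1' (n := n) (by omega)
  have hneg : ∀ τ : ℍ, HasSum (fun m : ℕ => QQx (ex (pz n v τ + ((-((m : ℤ) + 1) : ℤ) : ℂ) * τ)))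
      (S₂ τ) := by
    intro τ
    have h3 := hS₂ τ
    have h4 : (fun m : ℕ => QQx (ex (pz n v τ + ((-((m : ℤ) + 1) : ℤ) : ℂ) * τ))) =
        fun m : ℕ => QQx (c⁻¹ * qn n τ ^ ((m + 1) * n - a)) := by
      funext m
      rw [ex_pz_neg hn0 ha (by omega) τ m, QQx_inv]
    rw [h4]
    exact h3
  rcases Nat.eq_zero_or_pos a with h0 | h0
  · subst h0
    have hc1n : c ≠ 1 := fun h => hv rfl (ex_eq_one hn0 h)
    have hE1 : ∀ m, m + 1 ≤ (m + 1) * n := fun m => Nat.le_mul_of_pos_right _ (by omega)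
    obtain ⟨S₁, hS₁, hX₁⟩ := double_exp hE1 hc1 (n := n) (by omega)
    refine ⟨PowerSeries.C (QQx c) + PowerSeries.mk (cf (fun m => (m + 1) * n) c) +
      PowerSeries.mk (cf (fun m => (m + 1) * n - 0) c⁻¹), fun τ => QQx c + S₁ τ + S₂ τ, ?_, ?_, ?_,
      ?_, ?_⟩
    · intro τ
      refine HasSum.of_nat_of_neg_add_one ?_ (hneg τ)
      have h3 : HasSum (fun m : ℕ => QQx (ex (pz n v τ + (((m + 1 : ℕ) : ℤ) : ℂ) * τ))) (S₁ τ) := by
        have h4 : (fun m : ℕ => QQx (ex (pz n v τ + (((m + 1 : ℕ) : ℤ) : ℂ) * τ))) =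
            fun m : ℕ => QQx (c * qn n τ ^ ((m + 1) * n)) := by
          funext m
          rw [ex_pz hn0 ha τ (m + 1), add_zero]
        rw [h4]
        exact hS₁ τ
      have h4 := HasSum.zero_add (f := fun m : ℕ => QQx (ex (pz n v τ + ((m : ℤ) : ℂ) * τ))) h3
      have h5 : QQx (ex (pz n v τ + (((0 : ℕ) : ℤ) : ℂ) * τ)) = QQx c := by
        rw [ex_pz hn0 ha τ 0]
        simp [hc]
      rw [h5] at h4
      exact h4
    · exact ((IsQExp.const n (QQx c)).add hX₁).add hX₂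
    · refine ((IntV.C ?_).add fun j => ?_).add fun j => ?_
      · rw [← V.valuation_le_one_iff, val_QQx V hn hn0 hcn hc1n]
      · rw [PowerSeries.coeff_mk]
        exact cf_mem _ hcV j
      · rw [PowerSeries.coeff_mk]
        exact cf_mem _ hcV' j
    · intro j hj
      exact absurd hj (Nat.not_lt_zero j)
    · rw [map_add, map_add, PowerSeries.coeff_mk, PowerSeries.coeff_mk, cf_zero, cf_zero,
        add_zero, add_zero, lead, if_pos rfl]
      simp
  · have hE1 : ∀ m, m + 1 ≤ m * n + a := by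
      intro m
      have : m * 1 ≤ m * n := Nat.mul_le_mul_left _ (by omega)
      omega
    obtain ⟨S₁, hS₁, hX₁⟩ := double_exp hE1 hc1 (n := n) (by omega)
    refine ⟨PowerSeries.mk (cf (fun m => m * n + a) c) +
      PowerSeries.mk (cf (fun m => (m + 1) * n - a) c⁻¹), fun τ => S₁ τ + S₂ τ, ?_, ?_, ?_,
      ?_, ?_⟩
    · intro τ
      refine HasSum.of_nat_of_neg_add_one ?_ (hneg τ)
      have h4 : (fun m : ℕ => QQx (ex (pz n v τ + ((m : ℤ) : ℂ) * τ))) =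
          fun m : ℕ => QQx (c * qn n τ ^ (m * n + a)) := by
        funext m
        rw [ex_pz hn0 ha τ m]
      rw [h4]
      exact hS₁ τ
    · exact hX₁.add hX₂
    · refine IntV.add (fun j => ?_) fun j => ?_
      · rw [PowerSeries.coeff_mk]
        exact cf_mem _ hcV j
      · rw [PowerSeries.coeff_mk]
        exact cf_mem _ hcV' j
    · intro j hj
      rw [map_add, PowerSeries.coeff_mk, PowerSeries.coeff_mk, cf_of_lt, cf_of_lt, add_zero]
      · intro m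
        have h4 : 1 * n ≤ (m + 1) * n := Nat.mul_le_mul_right _ (by omega)
        show j < (m + 1) * n - a
        omega
      · intro m
        show j < m * n + a
        omega
    · rw [map_add, PowerSeries.coeff_mk, PowerSeries.coeff_mk, lead, if_neg (by omega),
        cf_self c h0 (E := fun m => m * n + a) (by simp) (fun m => by
          have h4 : 1 * n ≤ (m + 1) * n := Nat.mul_le_mul_right _ (by omega)
          show a < (m + 1) * n + a
          omega)]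
      split_ifs with h3
      · rw [cf_self c⁻¹ h0 (E := fun m => (m + 1) * n - a) (by simp only [zero_add, one_mul]; omega)
          (fun m => by
            have h4 : 2 * n ≤ (m + 1 + 1) * n := Nat.mul_le_mul_right _ (by omega)
            show a < (m + 1 + 1) * n - a
            omega)]
      · rw [cf_of_lt, add_zero]
        intro m
        have h4 : 1 * n ≤ (m + 1) * n := Nat.mul_le_mul_right _ (by omega)
        show a < (m + 1) * n - a
        omega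

/-! ### The leading coefficients -/

private theorem val_lead (V : ValuationSubring ℂ) {n : ℕ} (hn : V.valuation (n : ℂ) = 1)
    (hn0 : n ≠ 0) {a : ℕ} (ha : 2 * a < n) {c : ℂ} (hc : c ^ n = 1) (h : a = 0 → c ≠ 1) :
    V.valuation (lead n a c) = 1 := by
  unfold lead
  split_ifs with h1 h2
  · exact val_QQx V hn hn0 hc (h h1)
  · omega
  · exact val_root V hn0 hc

private theorem val_lead_sub (V : ValuationSubring ℂ) {n : ℕ} (hn : V.valuation (n : ℂ) = 1)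
    (hn0 : n ≠ 0) {a : ℕ} {c d : ℂ} (hc : c ^ n = 1) (hd : d ^ n = 1) (hcd : c ≠ d)
    (h : a = 0 → c ≠ 1 ∧ d ≠ 1) (h' : a = 0 ∨ 2 * a = n → c * d ≠ 1) :
    V.valuation (lead n a c - lead n a d) = 1 := by
  have hc0 : c ≠ 0 := by
    rintro rfl
    rw [zero_pow hn0] at hc
    exact zero_ne_one hc
  have hd0 : d ≠ 0 := by
    rintro rfl
    rw [zero_pow hn0] at hd
    exact zero_ne_one hd
  have hcdn : (c * d) ^ n = 1 := by rw [mul_pow, hc, hd, one_mul]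
  have v1 := val_root_sub V hn hc hd hcd
  unfold lead
  split_ifs with h1 h2
  · obtain ⟨h3, h4⟩ := h h1
    have h5 : 1 - c ≠ 0 := sub_ne_zero.2 (Ne.symm h3)
    have h6 : 1 - d ≠ 0 := sub_ne_zero.2 (Ne.symm h4)
    have e : QQx c - QQx d = (c - d) * (1 - c * d) / ((1 - c) ^ 2 * (1 - d) ^ 2) := by
      rw [QQx, QQx]
      field_simp
      ring
    rw [e, map_div₀, map_mul, map_mul, map_pow, map_pow, v1,
      val_root_sub V hn (one_pow n) hcdn (Ne.symm (h' (Or.inl h1))),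
      val_root_sub V hn (one_pow n) hc (Ne.symm h3), val_root_sub V hn (one_pow n) hd (Ne.symm h4)]
    simp
  · have e : c + c⁻¹ - (d + d⁻¹) = (c - d) * (c * d - 1) / (c * d) := by
      field_simp
      ring
    rw [e, map_div₀, map_mul, v1, val_root_sub V hn hcdn (one_pow n) (h' (Or.inr h2)),
      val_root V hn0 hcdn]
    simp
  · exact v1

/-! ### Reduction of the torsion points -/

private theorem pz_notMem {n : ℕ} (hn0 : n ≠ 0) {v : ℤ × ℤ}
    (hv : ¬ ((n : ℤ) ∣ v.1 ∧ (n : ℤ) ∣ v.2)) (τ : ℍ) : pz n v τ ∉ (Ltau τ).lattice := by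
  intro h
  rw [PeriodPair.mem_lattice] at h
  obtain ⟨x, y, h⟩ := h
  have hn : (n : ℂ) ≠ 0 := by exact_mod_cast hn0
  have h1 : (x : ℂ) * 1 + (y : ℂ) * τ = pz n v τ := h
  rw [pz, eq_div_iff hn] at h1
  have h2 := congrArg Complex.im h1
  have h3 := congrArg Complex.re h1
  simp only [mul_one, Complex.mul_im, Complex.add_im, Complex.add_re, Complex.mul_re,
    Complex.intCast_re, Complex.intCast_im, Complex.natCast_re, Complex.natCast_im, zero_mul,
    zero_add, mul_zero, add_zero, sub_zero] at h2 h3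
  have h4 : (τ : ℂ).im ≠ 0 := τ.im_ne_zero
  have h5 : (v.1 : ℝ) = n * y := by
    have : ((v.1 : ℝ) - n * y) * (τ : ℂ).im = 0 := by linear_combination -h2
    rcases mul_eq_zero.1 this with h6 | h6
    · linear_combination h6
    · exact absurd h6 h4
  have h6 : (v.2 : ℝ) = n * x := by
    rw [h5] at h3
    linear_combination -h3
  exact hv ⟨⟨y, by exact_mod_cast h5⟩, ⟨x, by exact_mod_cast h6⟩⟩

private theorem pw_add (n : ℕ) (hn0 : n ≠ 0) (v u : ℤ × ℤ) (τ : ℍ) :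
    pw n (v.1 + n * u.1, v.2 + n * u.2) τ = pw n v τ := by
  have hn : (n : ℂ) ≠ 0 := by exact_mod_cast hn0
  have hmem : (u.2 : ℂ) * 1 + (u.1 : ℂ) * τ ∈ (Ltau τ).lattice := by
    rw [PeriodPair.mem_lattice]
    exact ⟨u.2, u.1, rfl⟩
  have h1 : pz n (v.1 + n * u.1, v.2 + n * u.2) τ =
      pz n v τ + ((⟨_, hmem⟩ : (Ltau τ).lattice) : ℂ) := by
    simp only [pz]
    push_cast
    field_simp
    ring
  rw [pw, pw, h1, PeriodPair.weierstrassP_add_coe]

private theorem pw_neg (n : ℕ) (v : ℤ × ℤ) (τ : ℍ) : pw n (-v) τ = pw n v τ := by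
  have h1 : pz n (-v) τ = -pz n v τ := by
    simp only [pz, Prod.fst_neg, Prod.snd_neg]
    push_cast
    ring
  rw [pw, pw, h1, PeriodPair.weierstrassP_neg]

/-- `v'` is congruent to `v` or to `-v` -/
private def Cong (n : ℕ) (v' v : ℤ × ℤ) : Prop :=
  ∃ x y : ℤ, (v'.1 = v.1 + n * x ∧ v'.2 = v.2 + n * y) ∨
    (v'.1 = -v.1 + n * x ∧ v'.2 = -v.2 + n * y)

private theorem Cong.pw {n : ℕ} (hn0 : n ≠ 0) {v' v : ℤ × ℤ} (h : Cong n v' v) (τ : ℍ) :
    pw n v' τ = pw n v τ := by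
  obtain ⟨x, y, h | h⟩ := h
  · rw [← pw_add n hn0 v (x, y) τ]
    congr 1
    exact Prod.ext h.1 h.2
  · rw [← pw_neg n v τ, ← pw_add n hn0 (-v) (x, y) τ]
    congr 1
    exact Prod.ext h.1 h.2

private def Sep (n : ℕ) (v w : ℤ × ℤ) : Prop :=
  ¬ ((n : ℤ) ∣ v.1 - w.1 ∧ (n : ℤ) ∣ v.2 - w.2) ∧ ¬ ((n : ℤ) ∣ v.1 + w.1 ∧ (n : ℤ) ∣ v.2 + w.2)

private theorem Sep.symm {n : ℕ} {v w : ℤ × ℤ} (h : Sep n v w) : Sep n w v := by
  obtain ⟨h1, h2⟩ := h
  refine ⟨fun ⟨⟨x, hx⟩, y, hy⟩ => h1 ⟨⟨-x, by linear_combination -hx⟩, -y,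
    by linear_combination -hy⟩, fun ⟨⟨x, hx⟩, y, hy⟩ => h2 ⟨⟨x, by linear_combination hx⟩, y,
    by linear_combination hy⟩⟩

private theorem Sep.cong {n : ℕ} {v v' w : ℤ × ℤ} (h : Sep n v w) (hc : Cong n v' v) :
    Sep n v' w := by
  obtain ⟨h1, h2⟩ := h
  obtain ⟨x, y, ⟨e1, e2⟩ | ⟨e1, e2⟩⟩ := hc
  · refine ⟨fun ⟨⟨s, hs⟩, t, ht⟩ => h1 ⟨⟨s - x, by linear_combination hs - e1⟩, t - y,
      by linear_combination ht - e2⟩, fun ⟨⟨s, hs⟩, t, ht⟩ => h2 ⟨⟨s - x,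
      by linear_combination hs - e1⟩, t - y, by linear_combination ht - e2⟩⟩
  · refine ⟨fun ⟨⟨s, hs⟩, t, ht⟩ => h2 ⟨⟨x - s, by linear_combination e1 - hs⟩, y - t,
      by linear_combination e2 - ht⟩, fun ⟨⟨s, hs⟩, t, ht⟩ => h1 ⟨⟨x - s,
      by linear_combination e1 - hs⟩, y - t, by linear_combination e2 - ht⟩⟩

private theorem Cong.ndvd {n : ℕ} {v' v : ℤ × ℤ} (h : Cong n v' v)
    (hv : ¬ ((n : ℤ) ∣ v.1 ∧ (n : ℤ) ∣ v.2)) : ¬ ((n : ℤ) ∣ v'.1 ∧ (n : ℤ) ∣ v'.2) := by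
  obtain ⟨x, y, ⟨e1, e2⟩ | ⟨e1, e2⟩⟩ := h
  · exact fun ⟨⟨s, hs⟩, t, ht⟩ => hv ⟨⟨s - x, by linear_combination hs - e1⟩, t - y,
      by linear_combination ht - e2⟩
  · exact fun ⟨⟨s, hs⟩, t, ht⟩ => hv ⟨⟨x - s, by linear_combination e1 - hs⟩, y - t,
      by linear_combination e2 - ht⟩

private theorem exists_red {n : ℕ} (hn0 : n ≠ 0) (v : ℤ × ℤ) :
    ∃ (v' : ℤ × ℤ) (a : ℕ), v'.1 = a ∧ 2 * a ≤ n ∧ Cong n v' v := by
  have hn : (0 : ℤ) < n := by
    have := Nat.pos_of_ne_zero hn0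
    exact_mod_cast this
  have h0 := Int.emod_nonneg v.1 hn.ne'
  have h1 := Int.emod_lt_of_pos v.1 hn
  have h2 := Int.emod_add_mul_ediv v.1 n
  obtain ⟨r, hr⟩ := Int.eq_ofNat_of_zero_le h0
  by_cases h3 : 2 * r ≤ n
  · refine ⟨(v.1 % n, v.2), r, hr, h3, -(v.1 / n), 0, Or.inl ⟨?_, ?_⟩⟩
    · simp only
      linear_combination h2
    · simp
  · have hrn : r ≤ n := by omega
    refine ⟨(n - v.1 % n, -v.2), n - r, ?_, by omega, v.1 / n + 1, 0, Or.inr ⟨?_, ?_⟩⟩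
    · simp only
      rw [hr, Nat.cast_sub hrn]
    · simp only
      linear_combination -h2
    · simp

private theorem main_red (V : ValuationSubring ℂ) {n : ℕ} (hn : V.valuation (n : ℂ) = 1)
    (hn2 : 2 ≤ n) {v w : ℤ × ℤ} {a b : ℕ} (ha : v.1 = a) (hb : w.1 = b) (ha2 : 2 * a ≤ n)
    (hb2 : 2 * b ≤ n) (hab : a ≤ b) (hv : ¬ ((n : ℤ) ∣ v.1 ∧ (n : ℤ) ∣ v.2))
    (hw : ¬ ((n : ℤ) ∣ w.1 ∧ (n : ℤ) ∣ w.2)) (h : Sep n v w) :
    ∃ (r : ℕ) (φ : PowerSeries ℂ), 2 * r ≤ n ∧ IntV V φ ∧ V.valuation (φ.coeff 0) = 1 ∧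
      IsQExp n (PowerSeries.X ^ r * φ) (fun τ => pw n v τ - pw n w τ) := by
  have hn0 : n ≠ 0 := by omega
  have hva : a = 0 → ¬ (n : ℤ) ∣ v.2 := by
    intro h0 h1
    apply hv
    rw [ha, h0]
    exact ⟨by simp, h1⟩
  have hwb : b = 0 → ¬ (n : ℤ) ∣ w.2 := by
    intro h0 h1
    apply hw
    rw [hb, h0]
    exact ⟨by simp, h1⟩
  obtain ⟨Ψ, S, hS, hX, hI, hlow, hlead⟩ := expand V hn hn2 ha ha2 hva
  obtain ⟨Ψ', S', hS', hX', hI', hlow', hlead'⟩ := expand V hn hn2 hb hb2 hwb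
  set c := ex ((v.2 : ℂ) / n) with hc
  set d := ex ((w.2 : ℂ) / n) with hd
  have hcn : c ^ n = 1 := ex_pow_n hn0 v.2
  have hdn : d ^ n = 1 := ex_pow_n hn0 w.2
  have hpw : ∀ τ, pw n v τ - pw n w τ = S τ - S' τ := by
    intro τ
    have h1 := P_sub_eq τ (pz_notMem hn0 hv τ) (pz_notMem hn0 hw τ)
    have h2 := (hS τ).sub (hS' τ)
    rw [pw, pw, ← sub_div]
    exact h1.unique h2
  have hXX : IsQExp n (Ψ - Ψ') (fun τ => pw n v τ - pw n w τ) := by
    have h1 : (fun τ => pw n v τ - pw n w τ) = fun τ => S τ - S' τ := funext hpw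
    rw [h1]
    exact hX.sub hX'
  refine ⟨a, PowerSeries.mk fun j => (Ψ - Ψ').coeff (j + a), ha2, ?_, ?_, ?_⟩
  · intro j
    rw [PowerSeries.coeff_mk]
    exact (hI.sub hI') _
  · rw [PowerSeries.coeff_mk, zero_add, map_sub, hlead]
    rcases Nat.lt_or_eq_of_le hab with hlt | heq
    · rw [hlow' a hlt, sub_zero]
      exact val_lead V hn hn0 (by omega) hcn (fun h0 h1 => hva h0 (ex_eq_one hn0 h1))
    · subst heq
      rw [hlead']
      refine val_lead_sub V hn hn0 hcn hdn ?_ ?_ ?_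
      · intro h1
        apply h.1
        rw [ha, hb, sub_self]
        refine ⟨dvd_zero _, ex_eq_one hn0 ?_⟩
        have h2 : (((v.2 - w.2 : ℤ)) : ℂ) / n = (v.2 : ℂ) / n + -((w.2 : ℂ) / n) := by
          push_cast
          ring
        rw [h2, ex_add, ex_neg, ← hc, ← hd, h1, mul_inv_cancel₀ (ex_ne _)]
      · intro h0
        exact ⟨fun h1 => hva h0 (ex_eq_one hn0 h1), fun h1 => hwb h0 (ex_eq_one hn0 h1)⟩
      · intro h0 h1
        apply h.2
        rw [ha, hb]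
        constructor
        · rcases h0 with h0 | h0
          · rw [h0]
            simp
          · refine ⟨1, ?_⟩
            rw [mul_one, ← h0]
            push_cast
            ring
        · apply ex_eq_one hn0
          have h2 : (((v.2 + w.2 : ℤ)) : ℂ) / n = (v.2 : ℂ) / n + (w.2 : ℂ) / n := by
            push_cast
            ring
          rw [h2, ex_add]
          exact h1
  · have h1 : PowerSeries.X ^ a * (PowerSeries.mk fun j => (Ψ - Ψ').coeff (j + a)) = Ψ - Ψ' := by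
      ext j
      rw [PowerSeries.coeff_X_pow_mul']
      split_ifs with h2
      · rw [PowerSeries.coeff_mk, Nat.sub_add_cancel h2]
      · rw [map_sub, hlow j (by omega), hlow' j (by omega), sub_zero]
    rw [h1]
    exact hXX

/-- the expansion of a difference of values at torsion points -/
theorem pw_sub_qExp (V : ValuationSubring ℂ) {n : ℕ} (hn : V.valuation (n : ℂ) = 1) (hn0 : n ≠ 0)
    (v w : ℤ × ℤ) (hv : ¬ ((n : ℤ) ∣ v.1 ∧ (n : ℤ) ∣ v.2)) (hw : ¬ ((n : ℤ) ∣ w.1 ∧ (n : ℤ) ∣ w.2))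
    (h1 : ¬ ((n : ℤ) ∣ v.1 - w.1 ∧ (n : ℤ) ∣ v.2 - w.2))
    (h2 : ¬ ((n : ℤ) ∣ v.1 + w.1 ∧ (n : ℤ) ∣ v.2 + w.2)) :
    ∃ (r : ℕ) (φ : PowerSeries ℂ), 2 * r ≤ n ∧ IntV V φ ∧ V.valuation (φ.coeff 0) = 1 ∧
      IsQExp n (PowerSeries.X ^ r * φ) (fun τ => pw n v τ - pw n w τ) := by
  have hn2 : 2 ≤ n := by
    by_contra hcon
    have : n = 1 := by omega
    subst this
    exact hv ⟨by simp, by simp⟩
  obtain ⟨v', a, ha, ha2, hcv⟩ := exists_red hn0 v
  obtain ⟨w', b, hb, hb2, hcw⟩ := exists_red hn0 w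
  have hsep : Sep n v' w' := ((Sep.cong ⟨h1, h2⟩ hcv).symm.cong hcw).symm
  have hv' := hcv.ndvd hv
  have hw' := hcw.ndvd hw
  have hfun : (fun τ => pw n v τ - pw n w τ) = fun τ => pw n v' τ - pw n w' τ := by
    funext τ
    rw [hcv.pw hn0, hcw.pw hn0]
  rw [hfun]
  rcases le_total a b with hab | hab
  · exact main_red V hn hn2 ha hb ha2 hb2 hab hv' hw' hsep
  · obtain ⟨r, φ, h3, h4, h5, h6⟩ := main_red V hn hn2 hb ha hb2 ha2 hab hw' hv' hsep.symm
    refine ⟨r, -φ, h3, h4.neg, ?_, ?_⟩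
    · rw [map_neg, Valuation.map_neg]
      exact h5
    · intro τ
      have h7 := (h6 τ).neg
      rw [neg_sub] at h7
      have h8 : (fun j : ℕ => (PowerSeries.X ^ r * -φ).coeff j * qn n τ ^ j) =
          fun j : ℕ => -((PowerSeries.X ^ r * φ).coeff j * qn n τ ^ j) := by
        funext j
        rw [mul_neg, map_neg, neg_mul]
      rw [h8]
      exact h7

end Pool.Agent.CMR
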