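import Pool.Agent.CMR.MInt

/-!
# M-POLY level one forms as polynomials in j over V

`exists_poly`: induction on `m`. `m = 0`: `ModularFormClass.levelOne_weight_zero_const` (the constant is coefficient `0`).
Step `m + 1`: `c` = coefficient `0`, `g = f - c E₄^{3 (m+1)}` (`ModularForm.pow`, `mcast`) has coefficient `0` equal to `0`, so
it is a cusp form and `g = Δ h` with `h` a modular form of weight `12 m` (`CuspForm.discriminantEquiv`, `toCuspForm`,
`qExpansion_eq_qExpansion_discriminant_mul`). `qExpansion h` is in `V`: `qExpansion Δ = X u`, `u` integral with constant term `1`,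
`IntV.of_mul`. `f = c E₄^{3(m+1)} + Δ h`, so `p = c X^{m+1} + p_h`.
`exists_poly_ord`: induction on `r` (generalize `m`, `f`): if the coefficients `< r+1` vanish then `f = Δ h`, `h` of weight `12 (m-1)`,
coefficients `< r` of `h` vanish, `coeff r` of `h` is `coeff (r+1)` of `f`; the same `p`.
-/

set_option autoImplicit false

noncomputable section

open UpperHalfPlane ModularForm MatrixGroups EisensteinSeries
open scoped PeriodPair

namespace Pool.Agent.CMR

private lemma int_mem (V : ValuationSubring ℂ) (z : ℤ) : (z : ℂ) ∈ V := intCast_mem V z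

/-- the power series `Δ / q` -/
private def uu : PowerSeries ℂ := PowerSeries.mk fun i => (qExpansion 1 discriminant).coeff (i + 1)

private lemma X_mul_uu : PowerSeries.X * uu = qExpansion 1 discriminant := by
  ext i
  cases i with
  | zero => rw [disc_coeff_zero]; simp
  | succ i => rw [PowerSeries.coeff_succ_X_mul, uu, PowerSeries.coeff_mk]

private lemma uu_zero : uu.coeff 0 = 1 := by
  rw [uu, PowerSeries.coeff_mk]
  exact disc_coeff_one

private lemma uu_int (V : ValuationSubring ℂ) : IntV V uu := by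
  intro i
  obtain ⟨z, hz⟩ := disc_coeff_int (i + 1)
  rw [uu, PowerSeries.coeff_mk, hz]
  exact int_mem V z

private lemma uu_isUnit : IsUnit uu := by
  rw [PowerSeries.isUnit_iff_constantCoeff, ← PowerSeries.coeff_zero_eq_constantCoeff_apply,
    uu_zero]
  exact isUnit_one

/-- Division of a form without constant coefficient by `Δ`. -/
private lemma descend (V : ValuationSubring ℂ) (m : ℕ)
    (f : ModularForm 𝒮ℒ ((12 * (m + 1) : ℕ) : ℤ)) (hf : IntV V (qExpansion 1 f))
    (h0 : (qExpansion 1 f).coeff 0 = 0) :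
    ∃ h : ModularForm 𝒮ℒ ((12 * m : ℕ) : ℤ), IntV V (qExpansion 1 h) ∧
      (∀ τ : ℍ, f τ = discriminant τ * h τ) ∧
      ∀ r, (∀ i < r + 1, (qExpansion 1 f).coeff i = 0) →
        (∀ i < r, (qExpansion 1 h).coeff i = 0) ∧
        (qExpansion 1 h).coeff r = (qExpansion 1 f).coeff (r + 1) := by
  have hw : ((12 * (m + 1) : ℕ) : ℤ) - 12 = ((12 * m : ℕ) : ℤ) := by push_cast; ring
  set h' := CuspForm.discriminantEquiv (toCuspForm f h0) with hh'
  refine ⟨ModularForm.mcast hw h', ?_, ?_, ?_⟩
  · -- integrality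
    have h1 : qExpansion 1 f = PowerSeries.X * (uu * qExpansion 1 h') := by
      rw [← mul_assoc, X_mul_uu]
      exact qExpansion_eq_qExpansion_discriminant_mul f h0
    have h2 : IntV V (uu * qExpansion 1 h') := by
      intro i
      have := hf (i + 1)
      rwa [h1, PowerSeries.coeff_succ_X_mul] at this
    have h3 : IntV V (qExpansion 1 h') :=
      IntV.of_mul (uu_int V) (by rw [uu_zero, map_one]) h2
    exact h3
  · intro τ
    exact (discriminant_mul_discriminantEquiv_apply (toCuspForm f h0) τ).symm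
  · intro r hr
    have h1 : qExpansion 1 f = PowerSeries.X * (uu * qExpansion 1 h') := by
      rw [← mul_assoc, X_mul_uu]
      exact qExpansion_eq_qExpansion_discriminant_mul f h0
    have h2 : ∀ i, (uu * qExpansion 1 h').coeff i = (qExpansion 1 f).coeff (i + 1) := by
      intro i
      rw [h1, PowerSeries.coeff_succ_X_mul]
    have h3 : (PowerSeries.X : PowerSeries ℂ) ^ r ∣ uu * qExpansion 1 h' := by
      rw [PowerSeries.X_pow_dvd_iff]
      intro i hi
      rw [h2]
      exact hr (i + 1) (by omega)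
    have h4 : (PowerSeries.X : PowerSeries ℂ) ^ r ∣ qExpansion 1 h' :=
      (IsUnit.dvd_mul_left uu_isUnit).1 h3
    have h5 : (∀ i < r, (qExpansion 1 h').coeff i = 0) ∧
        (qExpansion 1 h').coeff r = (qExpansion 1 f).coeff (r + 1) := by
      refine ⟨fun i hi => (PowerSeries.X_pow_dvd_iff.1 h4) i hi, ?_⟩
      obtain ⟨w, hw⟩ := h4
      rw [← h2, hw]
      have e1 : uu * (PowerSeries.X ^ r * w) = PowerSeries.X ^ r * (uu * w) := by ring
      rw [e1]
      have e2 : ∀ φ : PowerSeries ℂ, (PowerSeries.X ^ r * φ).coeff r = φ.coeff 0 := by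
        intro φ
        have := PowerSeries.coeff_X_pow_mul φ r 0
        rwa [zero_add] at this
      have e3 : (uu * w).coeff 0 = uu.coeff 0 * w.coeff 0 := by
        rw [PowerSeries.coeff_mul, Finset.Nat.antidiagonal_zero, Finset.sum_singleton]
      rw [e2, e2, e3, uu_zero, one_mul]
    exact h5

/-- a modular form of level one and weight `12 m` with coefficients in `V` is `Δ^m` times a polynomial in `j`
with coefficients in `V` -/
theorem exists_poly (V : ValuationSubring ℂ) (m : ℕ) (f : ModularForm 𝒮ℒ ((12 * m : ℕ) : ℤ))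
    (hf : IntV V (qExpansion 1 f)) :
    ∃ p : Polynomial ℂ, (∀ i, p.coeff i ∈ V) ∧ p.natDegree ≤ m ∧
      p.coeff m = (qExpansion 1 f).coeff 0 ∧
      ∀ τ : ℍ, f τ = discriminant τ ^ m * p.eval (jj τ) := by
  induction m with
  | zero =>
    have hw : ((12 * 0 : ℕ) : ℤ) = 0 := by simp
    obtain ⟨c, hc⟩ := ModularFormClass.levelOne_weight_zero_const (ModularForm.mcast hw f)
    have hc' : (f : ℍ → ℂ) = Function.const _ c := hc
    have h1 : (f : ℍ → ℂ) = c • ((1 : ModularForm 𝒮ℒ 0) : ℍ → ℂ) := by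
      rw [hc']
      funext τ
      simp
    have h2 : (qExpansion 1 f).coeff 0 = c := by
      rw [h1, ModularForm.qExpansion_smul one_pos one_mem_strictPeriods_SL,
        ModularForm.qExpansion_one]
      simp
    refine ⟨Polynomial.C c, ?_, ?_, ?_, ?_⟩
    · intro i
      rw [Polynomial.coeff_C]
      split_ifs
      · rw [← h2]; exact hf 0
      · exact V.toSubring.zero_mem
    · simp
    · rw [h2, Polynomial.coeff_C_zero]
    · intro τ
      rw [hc']
      simp
  | succ m ih =>
    set c := (qExpansion 1 f).coeff 0 with hc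
    have hw : (((3 * (m + 1) : ℕ) : ℤ)) * (4 : ℕ) = ((12 * (m + 1) : ℕ) : ℤ) := by
      push_cast; ring
    set E : ModularForm 𝒮ℒ ((12 * (m + 1) : ℕ) : ℤ) :=
      ModularForm.mcast hw (E₄.pow (3 * (m + 1))) with hE
    have hEq : qExpansion 1 E = (qExpansion 1 E₄) ^ (3 * (m + 1)) :=
      ModularForm.qExpansion_pow one_pos one_mem_strictPeriods_SL E₄ (3 * (m + 1))
    have hEτ : ∀ τ : ℍ, E τ = E₄ τ ^ (3 * (m + 1)) := by
      intro τ
      have : (E₄.pow (3 * (m + 1)) : ℍ → ℂ) τ = E₄ τ ^ (3 * (m + 1)) := by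
        rw [ModularForm.coe_pow]; rfl
      exact this
    have hE0 : (qExpansion 1 E).coeff 0 = 1 := by
      rw [hEq, PowerSeries.coeff_zero_eq_constantCoeff_apply, map_pow,
        ← PowerSeries.coeff_zero_eq_constantCoeff_apply, E4_coeff_zero, one_pow]
    have hEV : IntV V (qExpansion 1 E) := by
      rw [hEq]
      refine IntV.pow (fun i => ?_) _
      obtain ⟨z, hz⟩ := E4_coeff_int i
      rw [hz]
      exact int_mem V z
    set g : ModularForm 𝒮ℒ ((12 * (m + 1) : ℕ) : ℤ) := f - c • E with hg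
    have hgq : qExpansion 1 g = qExpansion 1 f - c • qExpansion 1 E := by
      have e1 : (g : ℍ → ℂ) = (f : ℍ → ℂ) - ((c • E : ModularForm 𝒮ℒ _) : ℍ → ℂ) := rfl
      have e2 : ((c • E : ModularForm 𝒮ℒ ((12 * (m + 1) : ℕ) : ℤ)) : ℍ → ℂ) = c • (E : ℍ → ℂ) := rfl
      rw [e1, ModularForm.qExpansion_sub one_pos one_mem_strictPeriods_SL, e2,
        ModularForm.qExpansion_smul one_pos one_mem_strictPeriods_SL]
    have hg0 : (qExpansion 1 g).coeff 0 = 0 := by
      rw [hgq, map_sub, PowerSeries.coeff_smul, hE0, smul_eq_mul, mul_one, hc, sub_self]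
    have hcV : c ∈ V := hf 0
    have hgV : IntV V (qExpansion 1 g) := by
      rw [hgq, PowerSeries.smul_eq_C_mul]
      exact IntV.sub hf (IntV.mul (IntV.C hcV) hEV)
    obtain ⟨h, h1, h2, -⟩ := descend V m g hgV hg0
    obtain ⟨p, hp1, hp2, hp3, hp4⟩ := ih h h1
    refine ⟨Polynomial.C c * Polynomial.X ^ (m + 1) + p, ?_, ?_, ?_, ?_⟩
    · intro i
      rw [Polynomial.coeff_add, Polynomial.coeff_C_mul_X_pow]
      refine V.toSubring.add_mem ?_ (hp1 i)
      split_ifs
      · exact hcV
      · exact V.toSubring.zero_mem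
    · refine (Polynomial.natDegree_add_le _ _).trans (max_le ?_ (by omega))
      exact Polynomial.natDegree_C_mul_X_pow_le c (m + 1)
    · rw [Polynomial.coeff_add, Polynomial.coeff_C_mul_X_pow, if_pos rfl,
        Polynomial.coeff_eq_zero_of_natDegree_lt (by omega), add_zero]
    · intro τ
      have e1 : f τ = c * E τ + g τ := by
        have : g τ = f τ - c * E τ := rfl
        rw [this]; ring
      have hΔ : discriminant τ ≠ 0 := discriminant_ne_zero τ
      rw [e1, hEτ, h2, hp4, Polynomial.eval_add, Polynomial.eval_mul, Polynomial.eval_C,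
        Polynomial.eval_pow, Polynomial.eval_X]
      have e2 : E₄ τ ^ (3 * (m + 1)) = discriminant τ ^ (m + 1) * jj τ ^ (m + 1) := by
        rw [← mul_pow, jj, mul_div_cancel₀ _ hΔ, ← pow_mul]
      rw [e2]
      ring

theorem exists_poly_ord (V : ValuationSubring ℂ) (m r : ℕ) (f : ModularForm 𝒮ℒ ((12 * m : ℕ) : ℤ))
    (hf : IntV V (qExpansion 1 f)) (hr : ∀ i < r, (qExpansion 1 f).coeff i = 0) (hrm : r ≤ m) :
    ∃ p : Polynomial ℂ, (∀ i, p.coeff i ∈ V) ∧ p.natDegree ≤ m - r ∧
      p.coeff (m - r) = (qExpansion 1 f).coeff r ∧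
      ∀ τ : ℍ, f τ = discriminant τ ^ m * p.eval (jj τ) := by
  induction r generalizing m with
  | zero => exact exists_poly V m f hf
  | succ r ih =>
    obtain ⟨m, rfl⟩ : ∃ m', m = m' + 1 := ⟨m - 1, by omega⟩
    obtain ⟨h, h1, h2, h3⟩ := descend V m f hf (hr 0 (by omega))
    obtain ⟨h4, h5⟩ := h3 r hr
    obtain ⟨p, hp1, hp2, hp3, hp4⟩ := ih m h h1 h4 (by omega)
    have e : m + 1 - (r + 1) = m - r := by omega
    rw [e]
    refine ⟨p, hp1, hp2, by rw [hp3, h5], fun τ => ?_⟩
    rw [h2, hp4]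
    ring

end Pool.Agent.CMR
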