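import Pool.Agent.CMR.MTri
import Pool.Agent.CMR.MPoly

/-!
# M-J the j-invariant of a CM lattice is in every valuation ring

`jj_mem_of_fixed`: `R` from `exists_orbits`, `P τ = ∏_{A ∈ R} d_A^{12} phiA`, `IsQExp n (X^{Σ r} ∏ φ) P` with integral coefficients and
leading coefficient of valuation `1`; invariant of weight `24 card R = 12 · (2 card R)`: `exists_form` gives a modular form `F` with
coefficients `φ_{n i}`; the leading index `Σ r` is divisible by `n` (its coefficient is not `0`), `Σ r = n s`, `s ≤ card R` as all `r ≤ n`.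
`exists_poly_ord` with `m = 2 card R`, `r = s`: `P(τ) = Δ^m p(j(τ))`, `p` of degree exactly `m - s ≥ card R ≥ 1` with leading coefficient of
valuation `1`. At the fixed point `P = 0`, so `p(j) = 0` and `j ∈ V` (if `|j| > 1` the leading term dominates).
`jj_mem`: `α` with `α · 1 = c τ + d`, `α τ = a τ + b`, `c ≠ 0` as `α` is not real. The matrix `A = (a b; c d)` fixes `τ`, `det A = |α|² > 0`
(`(a b; c d)` acts by multiplication by `α` on the real basis `1, τ`). Replace `α` by `α + m`: `det = m² + t m + n₀`, `t = a + d`,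
`D = 4 n₀ - t² = 4 (Im α)² > 0`. For `m` with `2 (2m + t) + 1 > D`, `2 m + t > 0`: `(2m+t)² < 4 det < (2m+t+1)²`, so `4 det` and hence
`det` is not a square.
-/

set_option autoImplicit false

noncomputable section

open UpperHalfPlane ModularForm MatrixGroups EisensteinSeries
open scoped PeriodPair

namespace Pool.Agent.CMR

private theorem mj_root (V : ValuationSubring ℂ) (p : Polynomial ℂ) (N : ℕ)
    (hp : ∀ i, p.coeff i ∈ V) (hdeg : p.natDegree ≤ N) (hlead : V.valuation (p.coeff N) = 1)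
    (x : ℂ) (hx : p.eval x = 0) : x ∈ V := by
  rw [← ValuationSubring.valuation_le_one_iff]
  by_contra hcon
  push Not at hcon
  have h1 : p.eval x = ∑ i ∈ Finset.range N, p.coeff i * x ^ i + p.coeff N * x ^ N := by
    rw [Polynomial.eval_eq_sum_range' (Nat.lt_succ_of_le hdeg), Finset.sum_range_succ]
  rw [h1] at hx
  have h2 : V.valuation (∑ i ∈ Finset.range N, p.coeff i * x ^ i) < V.valuation x ^ N := by
    apply Valuation.map_sum_lt
    · exact pow_ne_zero _ (ne_of_gt (lt_trans zero_lt_one hcon))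
    · intro i hi
      rw [map_mul, map_pow]
      have h3 : V.valuation (p.coeff i) ≤ 1 := (V.valuation_le_one_iff _).mpr (hp i)
      calc V.valuation (p.coeff i) * V.valuation x ^ i ≤ 1 * V.valuation x ^ i :=
            mul_le_mul_left h3 _
        _ = V.valuation x ^ i := one_mul _
        _ < V.valuation x ^ N := pow_lt_pow_right₀ hcon (Finset.mem_range.mp hi)
  have h3 : ∑ i ∈ Finset.range N, p.coeff i * x ^ i = -(p.coeff N * x ^ N) :=
    eq_neg_of_add_eq_zero_left hx
  rw [h3, Valuation.map_neg, map_mul, map_pow, hlead, one_mul] at h2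
  exact lt_irrefl _ h2

/-- `j(τ) ∈ V` if `τ` is a fixed point of a matrix whose determinant is not a square -/
theorem jj_mem_of_fixed (V : ValuationSubring ℂ) {n : ℕ} (hn : 0 < n) (hsq : ¬ IsSquare n) (A : DM n)
    {τ : ℍ} (h : act hn A τ = τ) : jj τ ∈ V := by
  classical
  obtain ⟨R, hRne, hRtri, hRinv, hRzero⟩ := exists_orbits hn
  have hq : ∀ A : DM n, ∃ q : ℕ × PowerSeries ℂ, A ∈ R → q.1 ≤ n ∧ IntV V q.2 ∧
      V.valuation (q.2.coeff 0) = 1 ∧
      IsQExp n (PowerSeries.X ^ q.1 * q.2) (fun τ => (A.1 1 1 : ℂ) ^ 12 * phiA hn A τ) := by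
    intro A
    by_cases hA : A ∈ R
    · obtain ⟨t1, t2, t3⟩ := hRtri A hA
      obtain ⟨r, φ, h1, h2, h3, h4⟩ := phiA_qExp V hn hsq A t1 t2 t3
      exact ⟨(r, φ), fun _ => ⟨h1, h2, h3, h4⟩⟩
    · exact ⟨(0, 0), fun h => absurd h hA⟩
  choose q hq using hq
  set S : ℕ := ∑ A ∈ R, (q A).1 with hS
  set Φ : PowerSeries ℂ := ∏ A ∈ R, (q A).2 with hΦ
  set P : ℍ → ℂ := fun τ => ∏ A ∈ R, ((A.1 1 1 : ℂ) ^ 12 * phiA hn A τ) with hP
  have hexp : IsQExp n (PowerSeries.X ^ S * Φ) P := by
    have h1 := IsQExp.prod hn R (φ := fun A => PowerSeries.X ^ (q A).1 * (q A).2)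
      (f := fun A τ => (A.1 1 1 : ℂ) ^ 12 * phiA hn A τ) (fun A hA => (hq A hA).2.2.2)
    rw [Finset.prod_mul_distrib, Finset.prod_pow_eq_pow_sum] at h1
    exact h1
  have hΦint : IntV V Φ := IntV.prod R fun A hA => (hq A hA).2.1
  have hΦ0 : V.valuation (Φ.coeff 0) = 1 := by
    rw [hΦ, PowerSeries.coeff_zero_eq_constantCoeff_apply, map_prod, map_prod]
    apply Finset.prod_eq_one
    intro A hA
    have := (hq A hA).2.2.1
    rwa [PowerSeries.coeff_zero_eq_constantCoeff_apply] at this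
  have hinv : IsInvt (12 * (2 * R.card)) P := by
    have e : 12 * (2 * R.card) = 24 * R.card := by ring
    rw [e]
    intro γ τ
    have h1 := hRinv γ τ
    simp only [hP, Finset.prod_mul_distrib]
    simp only at h1
    rw [h1]
    ring
  obtain ⟨F, hF1, hF2, hF3⟩ := exists_form hn hexp hinv
  have hcoeff : ∀ j, (PowerSeries.X ^ S * Φ).coeff j = if S ≤ j then Φ.coeff (j - S) else 0 :=
    fun j => PowerSeries.coeff_X_pow_mul' Φ S j
  have hint : IntV V (PowerSeries.X ^ S * Φ) := (IntV.X_pow V S).mul hΦint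
  have hΦne : Φ.coeff 0 ≠ 0 := by
    intro h0
    rw [h0, map_zero] at hΦ0
    exact zero_ne_one hΦ0
  obtain ⟨s, hs⟩ : n ∣ S := by
    by_contra hcon
    have h1 := hF3 S hcon
    rw [hcoeff, if_pos le_rfl, Nat.sub_self] at h1
    exact hΦne h1
  have hsle : s ≤ R.card := by
    have h1 : S ≤ R.card * n := by
      rw [hS]
      calc ∑ A ∈ R, (q A).1 ≤ ∑ A ∈ R, n := Finset.sum_le_sum fun A hA => (hq A hA).1
        _ = R.card * n := by rw [Finset.sum_const, smul_eq_mul]
    rw [hs, mul_comm] at h1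
    exact Nat.le_of_mul_le_mul_right h1 hn
  have hcard : 0 < R.card := hRne.card_pos
  obtain ⟨p, hp1, hp2, hp3, hp4⟩ := exists_poly_ord V (2 * R.card) s F
    (fun i => by rw [hF2]; exact hint _)
    (fun i hi => by
      rw [hF2, hcoeff, if_neg]
      rw [hs, not_le]
      exact Nat.mul_lt_mul_of_pos_left hi hn)
    (by omega)
  have hlead : V.valuation (p.coeff (2 * R.card - s)) = 1 := by
    rw [hp3, hF2, hcoeff, hs, if_pos le_rfl, Nat.sub_self]
    exact hΦ0
  have hFτ : F τ = 0 := by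
    rw [hF1]
    simp only [hP, Finset.prod_mul_distrib]
    rw [hRzero A τ h, mul_zero]
  have hpτ : p.eval (jj τ) = 0 := by
    rw [hp4] at hFτ
    exact (mul_eq_zero.mp hFτ).resolve_left (pow_ne_zero _ (discriminant_ne_zero τ))
  exact mj_root V p (2 * R.card - s) hp1 hp2 hlead _ hpτ

/-- `j(τ) ∈ V` for all valuation rings `V` of `ℂ` if `ℤ + ℤ τ` has complex multiplication -/
theorem jj_mem (V : ValuationSubring ℂ) (τ : ℍ) (h : CMlat (Ltau τ)) : jj τ ∈ V := by
  obtain ⟨α, hα, hL⟩ := h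
  obtain ⟨d, c, h1⟩ := PeriodPair.mem_lattice.mp (hL _ (PeriodPair.ω₁_mem_lattice (L := Ltau τ)))
  obtain ⟨b, a, h2⟩ := PeriodPair.mem_lattice.mp (hL _ (PeriodPair.ω₂_mem_lattice (L := Ltau τ)))
  have e1 : (d : ℂ) + c * τ = α := by
    have : (d : ℂ) * 1 + c * τ = α * 1 := h1
    rwa [mul_one, mul_one] at this
  have e2 : (b : ℂ) + a * τ = α * τ := by
    have : (b : ℂ) * 1 + a * τ = α * τ := h2
    rwa [mul_one] at this
  have him : (τ : ℂ).im ≠ 0 := τ.im_ne_zero
  have hc : c ≠ 0 := by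
    rintro rfl
    apply hα
    rw [← e1]
    simp
  -- the quadratic equation
  have hquad : (c : ℂ) * τ ^ 2 + (d - a) * τ - b = 0 := by
    have : ((d : ℂ) + c * τ) * τ = b + a * τ := by rw [e1, e2]
    linear_combination this
  have hD : 0 < 4 * (a * d - b * c) - (a + d) ^ 2 := by
    set x : ℝ := (τ : ℂ).re with hx
    set y : ℝ := (τ : ℂ).im with hy
    have hτ : (τ : ℂ) = x + y * Complex.I := (Complex.re_add_im _).symm
    rw [hτ] at hquad
    have hre := congrArg Complex.re hquad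
    have him' := congrArg Complex.im hquad
    simp [pow_two] at hre him'
    have h3 : y * (2 * c * x + (d - a)) = 0 := by linarith
    have h4 : 2 * (c : ℝ) * x + (d - a) = 0 := (mul_eq_zero.mp h3).resolve_left him
    have h5 : (0 : ℝ) < 4 * (a * d - b * c) - (a + d) ^ 2 := by
      have h6 : (4 * (a * d - b * c) - (a + d) ^ 2 : ℝ) = 4 * c ^ 2 * y ^ 2 := by
        have h7 : (d : ℝ) - a = -(2 * c * x) := by linarith
        have h8 : (c : ℝ) * b = c * (c * (x * x - y * y) + (d - a) * x) := by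
          rw [← sub_eq_zero]
          have : (c : ℝ) * (x * x - y * y) + (d - a) * x - b = 0 := by linarith
          linear_combination (-(c : ℝ)) * this
        have h9 : (4 * (a * d - b * c) - (a + d) ^ 2 : ℝ) = -((d - a) ^ 2) - 4 * (c * b) := by
          ring
        rw [h9, h8, h7]
        ring
      rw [h6]
      have : (c : ℝ) ≠ 0 := by exact_mod_cast hc
      positivity
    exact_mod_cast h5
  -- the shift
  set D : ℤ := 4 * (a * d - b * c) - (a + d) ^ 2 with hDdef
  set m : ℤ := D + |a + d| with hm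
  have habs : -(a + d) ≤ |a + d| := neg_le_abs _
  have habs0 : 0 ≤ |a + d| := abs_nonneg _
  set u : ℤ := 2 * m + (a + d) with hu
  have hu1 : D ≤ u := by omega
  set δ : ℤ := (a + m) * (d + m) - b * c with hδ
  have h4δ : 4 * δ = u ^ 2 + D := by
    rw [hδ, hu, hDdef]
    ring
  have hδpos : 0 < δ := by nlinarith
  obtain ⟨n, hn⟩ : ∃ n : ℕ, (n : ℤ) = δ := ⟨δ.toNat, Int.toNat_of_nonneg hδpos.le⟩
  have hn0 : 0 < n := by omega
  have hsq : ¬ IsSquare n := by
    rintro ⟨r, hr⟩
    have h3 : (4 : ℤ) * δ = (2 * r) ^ 2 := by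
      rw [← hn, hr]
      push_cast
      ring
    have h5 : u ^ 2 < (2 * (r : ℤ)) ^ 2 := by rw [← h3, h4δ]; linarith
    have h6 : (2 * (r : ℤ)) ^ 2 < (u + 1) ^ 2 := by
      rw [← h3, h4δ]
      nlinarith
    have h7 : u < 2 * r := lt_of_pow_lt_pow_left₀ 2 (by positivity) h5
    have h8 : 2 * (r : ℤ) < u + 1 := lt_of_pow_lt_pow_left₀ 2 (by linarith) h6
    omega
  let A : DM n := ⟨!![a + m, b; c, d + m], by
    rw [Matrix.det_fin_two_of, hn, hδ]⟩
  apply jj_mem_of_fixed V hn0 hsq A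
  apply UpperHalfPlane.ext
  show (((a + m : ℤ) : ℂ) * τ + (b : ℂ)) / ((c : ℂ) * τ + ((d + m : ℤ) : ℂ)) = τ
  have hne : (c : ℂ) * τ + ((d + m : ℤ) : ℂ) ≠ 0 := by
    intro h0
    have h3 := congrArg Complex.im h0
    simp at h3
    rcases h3 with h3 | h3
    · exact hc h3
    · exact him h3
  rw [div_eq_iff hne]
  push_cast
  linear_combination (-1 : ℂ) * hquad

end Pool.Agent.CMR
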