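import Pool.Agent.CMR.MPoly

/-!
# M-SYM integrality of families permuted by SL(2,Z)

Let `e_j` be the elementary symmetric functions of the family: `∏_i (T - F i τ) = ∑_j (-1)^j e_j(τ) T^{N-j}`, `N = card ι`
(`Finset.prod_X_sub_C_coeff`, `Multiset.esymm`, or define `e_j = ∑_{s ⊆ univ, card s = j} ∏_{i ∈ s} F i`). `e_j` has a `V`-integral
`q_n`-expansion (`IsQExp.prod`, `IsQExp.sum`) and is invariant of weight `12 m j` (the permutation `σ` permutes the subsets), so by
`exists_form` and `exists_poly` `e_j(τ) / Δ(τ)^{m j} ∈ V` when `j(τ) ∈ V`. Therefore `x = F i τ / Δ(τ)^m` is a root of the monic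
polynomial `∏_i (T - F i τ/Δ^m)`, all of whose coefficients are in `V`; `V` is integrally closed
(`ValuationSubring` is a `ValuationRing`, `IsIntegrallyClosed`, or directly with the valuation: if `|x| > 1` then
`|x^N| > |lower terms|`).
-/

set_option autoImplicit false

noncomputable section

open UpperHalfPlane ModularForm MatrixGroups EisensteinSeries
open scoped PeriodPair

namespace Pool.Agent.CMR

/-- an element of `ℂ` which is a root of a monic polynomial with coefficients in `V` is in `V` -/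
theorem mem_of_root (V : ValuationSubring ℂ) (P : Polynomial ℂ) (hP : P.Monic)
    (hc : ∀ j, P.coeff j ∈ V) {x : ℂ} (hx : P.eval x = 0) : x ∈ V := by
  have hl : P ∈ Polynomial.lifts (algebraMap V ℂ) := by
    rw [Polynomial.lifts_iff_coeff_lifts]
    intro j
    exact ⟨⟨P.coeff j, hc j⟩, rfl⟩
  obtain ⟨Q, hQ, -, hQm⟩ := Polynomial.lifts_and_degree_eq_and_monic hl hP
  have hint : IsIntegral V x := by
    refine ⟨Q, hQm, ?_⟩
    rw [← Polynomial.eval_map, hQ, hx]
  obtain ⟨y, hy⟩ := IsIntegrallyClosed.isIntegral_iff.1 hint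
  rw [← hy]
  exact y.2

/-- the elementary symmetric functions of the family -/
theorem esymm_mem (V : ValuationSubring ℂ) {ι : Type} [Fintype ι] {n : ℕ} (hn : 0 < n) (m : ℕ)
    (F : ι → ℍ → ℂ)
    (perm : ∀ γ : SL(2, ℤ), ∃ σ : Equiv.Perm ι, ∀ (i : ι) (τ : ℍ),
      F i (γ • τ) = ((γ.1 1 0 : ℂ) * τ + (γ.1 1 1 : ℂ)) ^ (12 * m) * F (σ i) τ)
    (φ : ι → PowerSeries ℂ) (hφ : ∀ i, IntV V (φ i)) (hF : ∀ i, IsQExp n (φ i) (F i))
    {τ : ℍ} (hj : jj τ ∈ V) (r : ℕ) :
    (Finset.univ.val.map fun i => F i τ).esymm r / (discriminant τ ^ m) ^ r ∈ V := by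
  classical
  set f : ℍ → ℂ := fun τ => ∑ s ∈ Finset.powersetCard r (Finset.univ : Finset ι),
    ∏ i ∈ s, F i τ with hf
  set ψ : PowerSeries ℂ := ∑ s ∈ Finset.powersetCard r (Finset.univ : Finset ι),
    ∏ i ∈ s, φ i with hψ
  have hfe : ∀ τ, (Finset.univ.val.map fun i => F i τ).esymm r = f τ := fun τ =>
    Finset.esymm_map_val _ _ _
  have hq : IsQExp n ψ f :=
    IsQExp.sum _ fun s _ => IsQExp.prod hn _ fun i _ => hF i
  have hint : IntV V ψ := IntV.sum _ fun s _ => IntV.prod _ fun i _ => hφ i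
  have hinv : IsInvt (12 * (m * r)) f := by
    intro γ τ
    obtain ⟨σ, hσ⟩ := perm γ
    set u : ℂ := ((γ.1 1 0 : ℂ) * τ + (γ.1 1 1 : ℂ)) with hu
    have h1 : f (γ • τ) = (u ^ (12 * m)) ^ r *
        ∑ s ∈ Finset.powersetCard r (Finset.univ : Finset ι), ∏ i ∈ s, F (σ i) τ := by
      rw [hf, Finset.mul_sum]
      refine Finset.sum_congr rfl fun s hs => ?_
      rw [Finset.mem_powersetCard] at hs
      rw [← hs.2, ← Finset.prod_const, ← Finset.prod_mul_distrib]
      exact Finset.prod_congr rfl fun i _ => hσ i τ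
    have h2 : ∑ s ∈ Finset.powersetCard r (Finset.univ : Finset ι), ∏ i ∈ s, F (σ i) τ = f τ := by
      rw [← Finset.esymm_map_val (σ := ι) (fun i => F (σ i) τ), ← hfe τ]
      congr 1
      have h3 : (Finset.univ : Finset ι).val.map (fun i => F (σ i) τ) =
          ((Finset.univ : Finset ι).val.map σ).map (fun i => F i τ) := by
        rw [Multiset.map_map]; rfl
      rw [h3, Multiset.map_univ_val_equiv]
    rw [h1, h2, ← pow_mul, mul_assoc]
  obtain ⟨G, hG, hGc, -⟩ := exists_form hn hq hinv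
  obtain ⟨p, hp, -, -, hpe⟩ := exists_poly V (m * r) G (fun i => by rw [hGc]; exact hint _)
  have hΔ : discriminant τ ≠ 0 := discriminant_ne_zero τ
  have h3 : (Finset.univ.val.map fun i => F i τ).esymm r / (discriminant τ ^ m) ^ r =
      p.eval (jj τ) := by
    rw [hfe, ← hG, hpe, ← pow_mul, mul_div_cancel_left₀ _ (pow_ne_zero _ hΔ)]
  rw [h3, Polynomial.eval_eq_sum_range]
  exact sum_mem fun i _ => mul_mem (hp i) (pow_mem hj i)

/-- Symmetric functions: a finite family of functions with `V`-integral `q_n`-expansions which is permuted by `SL(2, ℤ)` with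
weight `12 m` has values in `Δ^m V` at every `τ` with `j(τ) ∈ V`. -/
theorem sym_mem (V : ValuationSubring ℂ) {ι : Type} [Fintype ι] {n : ℕ} (hn : 0 < n) (m : ℕ)
    (F : ι → ℍ → ℂ)
    (perm : ∀ γ : SL(2, ℤ), ∃ σ : Equiv.Perm ι, ∀ (i : ι) (τ : ℍ),
      F i (γ • τ) = ((γ.1 1 0 : ℂ) * τ + (γ.1 1 1 : ℂ)) ^ (12 * m) * F (σ i) τ)
    (φ : ι → PowerSeries ℂ) (hφ : ∀ i, IntV V (φ i)) (hF : ∀ i, IsQExp n (φ i) (F i))
    {τ : ℍ} (hj : jj τ ∈ V) (i : ι) : F i τ / discriminant τ ^ m ∈ V := by
  classical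
  set D : ℂ := discriminant τ ^ m with hD
  set x : ι → ℂ := fun i => F i τ / D with hx
  set P : Polynomial ℂ := ((Finset.univ.val.map x).map fun t => Polynomial.X - Polynomial.C t).prod
    with hP
  have hmonic : P.Monic := by
    rw [hP]
    apply Polynomial.monic_multiset_prod_of_monic
    intro t _
    exact Polynomial.monic_X_sub_C t
  have hroot : P.eval (x i) = 0 := by
    rw [hP, Multiset.map_map]
    have h1 : (Finset.univ.val.map ((fun t => Polynomial.X - Polynomial.C t) ∘ x)).prod =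
        ∏ i : ι, (Polynomial.X - Polynomial.C (x i)) := rfl
    rw [h1, Polynomial.eval_prod]
    exact Finset.prod_eq_zero (Finset.mem_univ i) (by simp)
  have hes : ∀ r, (Finset.univ.val.map x).esymm r ∈ V := by
    intro r
    have h1 : (Finset.univ.val.map x).esymm r =
        (Finset.univ.val.map fun i => F i τ).esymm r / D ^ r := by
      rw [Finset.esymm_map_val, Finset.esymm_map_val, Finset.sum_div]
      refine Finset.sum_congr rfl fun s hs => ?_
      rw [Finset.mem_powersetCard] at hs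
      rw [← hs.2, ← Finset.prod_const, ← Finset.prod_div_distrib]
    rw [h1]
    exact esymm_mem V hn m F perm φ hφ hF hj r
  have hcoeff : ∀ j, P.coeff j ∈ V := by
    intro j
    by_cases h : j ≤ Multiset.card (Finset.univ.val.map x)
    · rw [hP, Multiset.prod_X_sub_C_coeff _ h]
      exact mul_mem (pow_mem (neg_mem (one_mem V)) _) (hes _)
    · rw [Polynomial.coeff_eq_zero_of_natDegree_lt]
      · exact zero_mem V
      · rw [hP, Polynomial.natDegree_multiset_prod_X_sub_C_eq_card]
        omega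
  exact mem_of_root V P hmonic hcoeff hroot

end Pool.Agent.CMR
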