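import Pool.Agent.CMR.MDsc
import Pool.Agent.CMR.MExp
import Pool.Agent.CMR.MSym
import Pool.Agent.CMR.MJ

/-!
# M-UNIT differences of torsion values of CM lattices are units relative to Delta

`unit_Ltau`: let `ι` be the type of pairs `(v, w)` of elements of `(ZMod n)²` with `v ≠ 0`, `w ≠ 0`, `v ≠ ± w` (`Fintype`), use
representatives in `ℤ²`. `F_{v,w} = (pw v - pw w)^6` has weight `12` and is permuted by `SL(2, ℤ)` (`pw_smul`, `pw_congr`;
`(v, w) ↦ (v γ, w γ)` is a permutation of `ι`), expansion `X^{6 r} φ^6`, integral: `sym_mem` with `m = 1` gives `F/Δ ∈ V`.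
`G_{v,w} = Δ³ / F_{v,w}` has weight `24` and is permuted as well; its expansion is `X^{3 n - 6 r} δ^3 (φ^6)⁻¹`, integral, where
`Δ = q + … = X^n δ` in `q_n` (`IsQExp.level`, `disc_isQExp`), `6 r ≤ 3 n`; uses `IsQExp.inv` for `φ^6` (the function
`F/q_n^{6r}` has no zero: `pw_ne`) and `IntV.inv`. `sym_mem` with `m = 2`: `G/Δ² = Δ/F ∈ V`. So `F/Δ` is a unit of `V`.
`unit_diff`: `exists_Ltau`, homothety (the ratio `(℘(z)-℘(w))^6/dsc` is invariant), `jj_mem`, `dsc_Ltau`; the factor `(2πi)^{12}` cancels.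
`n z ∈ L` gives `c z = pz n v τ` for some `v`. (`hn` implies `n ≠ 0`.)
-/

set_option autoImplicit false

noncomputable section

open UpperHalfPlane ModularForm MatrixGroups EisensteinSeries
open scoped PeriodPair

namespace Pool.Agent.CMR

/-- pairs of torsion points with different values -/
private abbrev Idx (n : ℕ) : Type := {p : (ZMod n × ZMod n) × (ZMod n × ZMod n) //
  p.1 ≠ 0 ∧ p.2 ≠ 0 ∧ p.1 ≠ p.2 ∧ p.1 ≠ -p.2}

/-- representatives -/
private def rep {n : ℕ} (x : ZMod n × ZMod n) : ℤ × ℤ := (x.1.cast, x.2.cast)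

private def red (n : ℕ) (v : ℤ × ℤ) : ZMod n × ZMod n := ((v.1 : ZMod n), (v.2 : ZMod n))

private lemma red_rep {n : ℕ} (x : ZMod n × ZMod n) : red n (rep x) = x :=
  Prod.ext (ZMod.intCast_zmod_cast x.1) (ZMod.intCast_zmod_cast x.2)

private lemma red_eq_zero {n : ℕ} (v : ℤ × ℤ) :
    red n v = 0 ↔ (n : ℤ) ∣ v.1 ∧ (n : ℤ) ∣ v.2 := by
  rw [← ZMod.intCast_zmod_eq_zero_iff_dvd, ← ZMod.intCast_zmod_eq_zero_iff_dvd]
  exact Prod.ext_iff

private lemma red_eq {n : ℕ} (v w : ℤ × ℤ) :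
    red n v = red n w ↔ (n : ℤ) ∣ v.1 - w.1 ∧ (n : ℤ) ∣ v.2 - w.2 := by
  rw [← ZMod.intCast_zmod_eq_zero_iff_dvd, ← ZMod.intCast_zmod_eq_zero_iff_dvd, Prod.ext_iff]
  push_cast
  rw [sub_eq_zero, sub_eq_zero]
  rfl

private lemma red_eq_neg {n : ℕ} (v w : ℤ × ℤ) :
    red n v = -red n w ↔ (n : ℤ) ∣ v.1 + w.1 ∧ (n : ℤ) ∣ v.2 + w.2 := by
  rw [← ZMod.intCast_zmod_eq_zero_iff_dvd, ← ZMod.intCast_zmod_eq_zero_iff_dvd, Prod.ext_iff]
  push_cast
  rw [← eq_neg_iff_add_eq_zero, ← eq_neg_iff_add_eq_zero]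
  rfl

/-- the action of a matrix on torsion points -/
private def mv (n : ℕ) (γ : SL(2, ℤ)) (x : ZMod n × ZMod n) : ZMod n × ZMod n :=
  (x.1 * (γ.1 0 0 : ZMod n) + x.2 * (γ.1 1 0 : ZMod n),
    x.1 * (γ.1 0 1 : ZMod n) + x.2 * (γ.1 1 1 : ZMod n))

private lemma mv_zero (n : ℕ) (γ : SL(2, ℤ)) : mv n γ 0 = 0 := by
  unfold mv
  simp

private lemma mv_neg (n : ℕ) (γ : SL(2, ℤ)) (x : ZMod n × ZMod n) : mv n γ (-x) = -mv n γ x := by
  unfold mv
  refine Prod.ext ?_ ?_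
  · show -x.1 * _ + -x.2 * _ = -(x.1 * _ + x.2 * _)
    ring
  · show -x.1 * _ + -x.2 * _ = -(x.1 * _ + x.2 * _)
    ring

private lemma mv_inj (n : ℕ) (γ : SL(2, ℤ)) : Function.Injective (mv n γ) := by
  have hdet : ((γ.1 0 0 : ℤ) : ZMod n) * (γ.1 1 1 : ℤ) - (γ.1 0 1 : ℤ) * (γ.1 1 0 : ℤ) = 1 := by
    have h := γ.2
    rw [Matrix.det_fin_two] at h
    have h2 := congrArg (fun z : ℤ => (z : ZMod n)) h
    push_cast at h2
    exact h2
  have key : ∀ x : ZMod n × ZMod n, x =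
      ((mv n γ x).1 * (γ.1 1 1 : ℤ) - (mv n γ x).2 * (γ.1 1 0 : ℤ),
        (mv n γ x).2 * (γ.1 0 0 : ℤ) - (mv n γ x).1 * (γ.1 0 1 : ℤ)) := by
    intro x
    unfold mv
    refine Prod.ext ?_ ?_
    · simp only
      linear_combination -x.1 * hdet
    · simp only
      linear_combination -x.2 * hdet
  intro x y h
  rw [key x, key y, h]

private lemma mv_red {n : ℕ} (γ : SL(2, ℤ)) (v : ℤ × ℤ) : mv n γ (red n v) =
    red n (v.1 * γ.1 0 0 + v.2 * γ.1 1 0, v.1 * γ.1 0 1 + v.2 * γ.1 1 1) := by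
  unfold mv red
  push_cast
  rfl

private lemma pw_of_red {n : ℕ} (hn : n ≠ 0) {v w : ℤ × ℤ} (h : red n v = red n w) (τ : ℍ) :
    pw n v τ = pw n w τ := by
  rw [red_eq] at h
  exact pw_congr hn h.1 h.2 τ

/-- the permutation of the pairs -/
private lemma exists_perm {n : ℕ} (hn : n ≠ 0) (γ : SL(2, ℤ)) : ∃ σ : Equiv.Perm (Idx n),
    ∀ i : Idx n, (σ i).1 = (mv n γ i.1.1, mv n γ i.1.2) := by
  haveI : NeZero n := ⟨hn⟩
  have hg : ∀ i : Idx n, mv n γ i.1.1 ≠ 0 ∧ mv n γ i.1.2 ≠ 0 ∧ mv n γ i.1.1 ≠ mv n γ i.1.2 ∧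
      mv n γ i.1.1 ≠ -mv n γ i.1.2 := by
    intro i
    obtain ⟨h1, h2, h3, h4⟩ := i.2
    refine ⟨fun h => h1 (mv_inj n γ (h.trans (mv_zero n γ).symm)),
      fun h => h2 (mv_inj n γ (h.trans (mv_zero n γ).symm)), fun h => h3 (mv_inj n γ h),
      fun h => h4 (mv_inj n γ (h.trans (mv_neg n γ _).symm))⟩
  have hinj : Function.Injective (fun i : Idx n => (⟨(mv n γ i.1.1, mv n γ i.1.2), hg i⟩ : Idx n)) := by
    intro i j h
    have h1 := congrArg Subtype.val h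
    have h2 : mv n γ i.1.1 = mv n γ j.1.1 := congrArg Prod.fst h1
    have h3 : mv n γ i.1.2 = mv n γ j.1.2 := congrArg Prod.snd h1
    exact Subtype.ext (Prod.ext (mv_inj n γ h2) (mv_inj n γ h3))
  exact ⟨Equiv.ofBijective _ (Finite.injective_iff_bijective.1 hinj), fun i => rfl⟩

private lemma coeff_zero_pow' (φ : PowerSeries ℂ) (m : ℕ) :
    (φ ^ m).coeff 0 = φ.coeff 0 ^ m := by
  simp only [PowerSeries.coeff_zero_eq_constantCoeff_apply, map_pow]

/-- the expansion of the discriminant at level `n` -/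
private lemma disc_level (V : ValuationSubring ℂ) {n : ℕ} (hn : 0 < n) : ∃ δ : PowerSeries ℂ,
    IntV V δ ∧ IsQExp n δ (fun τ => discriminant τ / qn n τ ^ n) := by
  have h1 := disc_isQExp.level (m := n) Nat.one_pos hn
  rw [one_mul] at h1
  set ψ : PowerSeries ℂ := PowerSeries.mk fun j =>
    if n ∣ j then (qExpansion 1 discriminant).coeff (j / n) else 0 with hψ
  have hint : IntV V ψ := by
    intro j
    rw [hψ, PowerSeries.coeff_mk]
    split_ifs
    · obtain ⟨z, hz⟩ := disc_coeff_int (j / n)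
      rw [hz]
      exact intCast_mem V z
    · exact V.zero_mem
  have hd : (PowerSeries.X : PowerSeries ℂ) ^ n ∣ ψ := by
    rw [PowerSeries.X_pow_dvd_iff]
    intro m hm
    rw [hψ, PowerSeries.coeff_mk]
    split_ifs with hdv
    · have : m = 0 := Nat.eq_zero_of_dvd_of_lt hdv hm
      rw [this, Nat.zero_div, disc_coeff_zero]
    · rfl
  obtain ⟨u, hu⟩ := hd
  refine ⟨u, fun j => ?_, ?_⟩
  · have : u.coeff j = ψ.coeff (j + n) := by rw [hu, PowerSeries.coeff_X_pow_mul]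
    rw [this]
    exact hint _
  · rw [hu] at h1
    exact h1.of_X_mul

/-- For a CM lattice and torsion points of order prime to the residue characteristic the differences of the values of `℘` have the
same valuation, namely that of `Δ^{1/6}`. -/
theorem unit_Ltau (V : ValuationSubring ℂ) {n : ℕ} (hn : V.valuation (n : ℂ) = 1) (hn0 : n ≠ 0)
    (v w : ℤ × ℤ) (hv : ¬ ((n : ℤ) ∣ v.1 ∧ (n : ℤ) ∣ v.2)) (hw : ¬ ((n : ℤ) ∣ w.1 ∧ (n : ℤ) ∣ w.2))
    (h1 : ¬ ((n : ℤ) ∣ v.1 - w.1 ∧ (n : ℤ) ∣ v.2 - w.2))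
    (h2 : ¬ ((n : ℤ) ∣ v.1 + w.1 ∧ (n : ℤ) ∣ v.2 + w.2)) {τ : ℍ} (hj : jj τ ∈ V) :
    V.valuation (pw n v τ - pw n w τ) ^ 6 = V.valuation (discriminant τ) := by
  haveI : NeZero n := ⟨hn0⟩
  have hnp : 0 < n := Nat.pos_of_ne_zero hn0
  have hex : ∀ i : Idx n, ∃ (r : ℕ) (φ : PowerSeries ℂ), 2 * r ≤ n ∧ IntV V φ ∧
      V.valuation (φ.coeff 0) = 1 ∧
      IsQExp n (PowerSeries.X ^ r * φ) (fun τ => pw n (rep i.1.1) τ - pw n (rep i.1.2) τ) := by
    intro i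
    obtain ⟨k1, k2, k3, k4⟩ := i.2
    refine pw_sub_qExp V hn hn0 (rep i.1.1) (rep i.1.2) ?_ ?_ ?_ ?_
    · rw [← red_eq_zero, red_rep]
      exact k1
    · rw [← red_eq_zero, red_rep]
      exact k2
    · rw [← red_eq, red_rep, red_rep]
      exact k3
    · rw [← red_eq_neg, red_rep, red_rep]
      exact k4
  choose r φ hr hφV hφ0 hφe using hex
  have hne : ∀ (i : Idx n) (τ : ℍ), pw n (rep i.1.1) τ - pw n (rep i.1.2) τ ≠ 0 := by
    intro i τ
    obtain ⟨k1, k2, k3, k4⟩ := i.2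
    rw [sub_ne_zero]
    refine pw_ne hn0 ?_ ?_ ?_ ?_ τ
    · rw [← red_eq_zero, red_rep]
      exact k1
    · rw [← red_eq_zero, red_rep]
      exact k2
    · rw [← red_eq, red_rep, red_rep]
      exact k3
    · rw [← red_eq_neg, red_rep, red_rep]
      exact k4
  -- the transformation
  have htr : ∀ γ : SL(2, ℤ), ∃ σ : Equiv.Perm (Idx n), ∀ (i : Idx n) (τ : ℍ),
      pw n (rep i.1.1) (γ • τ) - pw n (rep i.1.2) (γ • τ) =
        ((γ.1 1 0 : ℂ) * τ + (γ.1 1 1 : ℂ)) ^ 2 *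
          (pw n (rep (σ i).1.1) τ - pw n (rep (σ i).1.2) τ) := by
    intro γ
    obtain ⟨σ, hσ⟩ := exists_perm hn0 γ
    refine ⟨σ, fun i τ => ?_⟩
    rw [pw_smul, pw_smul, ← mul_sub, hσ]
    congr 2
    · refine pw_of_red hn0 ?_ τ
      rw [red_rep, ← mv_red, red_rep]
    · refine pw_of_red hn0 ?_ τ
      rw [red_rep, ← mv_red, red_rep]
  have hden : ∀ (γ : SL(2, ℤ)) (τ : ℍ), ((γ.1 1 0 : ℂ) * τ + (γ.1 1 1 : ℂ)) ≠ 0 := by
    intro γ τ h0
    have h1 := disc_smul γ τ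
    rw [h0, zero_pow (by norm_num), zero_mul] at h1
    exact ModularForm.discriminant_ne_zero _ h1
  obtain ⟨δ, hδV, hδe⟩ := disc_level V hnp
  -- the two families
  have hF := fun i : Idx n => sym_mem V hnp 1
    (fun (i : Idx n) τ => (pw n (rep i.1.1) τ - pw n (rep i.1.2) τ) ^ 6)
    (by
      intro γ
      obtain ⟨σ, hσ⟩ := htr γ
      refine ⟨σ, fun i τ => ?_⟩
      show (pw n (rep i.1.1) (γ • τ) - pw n (rep i.1.2) (γ • τ)) ^ 6 = _
      rw [hσ]
      ring)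
    (fun i => (PowerSeries.X ^ r i * φ i) ^ 6)
    (fun i => ((IntV.X_pow V _).mul (hφV i)).pow 6)
    (fun i => (hφe i).pow hnp 6) hj i
  have hG := fun i : Idx n => sym_mem V hnp 2
    (fun (i : Idx n) τ => discriminant τ ^ 3 / (pw n (rep i.1.1) τ - pw n (rep i.1.2) τ) ^ 6)
    (by
      intro γ
      obtain ⟨σ, hσ⟩ := htr γ
      refine ⟨σ, fun i τ => ?_⟩
      show discriminant (γ • τ) ^ 3 / (pw n (rep i.1.1) (γ • τ) - pw n (rep i.1.2) (γ • τ)) ^ 6 = _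
      rw [hσ, disc_smul]
      have h1 := hden γ τ
      have h2 := hne (σ i) τ
      have e : ∀ x d f : ℂ, x ≠ 0 → f ≠ 0 →
          (x ^ 12 * d) ^ 3 / (x ^ 2 * f) ^ 6 = x ^ (12 * 2) * (d ^ 3 / f ^ 6) := by
        intro x d f hx hf
        rw [← mul_div_assoc, div_eq_div_iff (pow_ne_zero _ (mul_ne_zero (pow_ne_zero _ hx) hf))
          (pow_ne_zero _ hf)]
        ring
      exact e _ _ _ h1 h2)
    (fun i => PowerSeries.X ^ (3 * n - 6 * r i) * (δ ^ 3 * (φ i ^ 6)⁻¹))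
    (fun i => (IntV.X_pow V _).mul ((hδV.pow 3).mul (((hφV i).pow 6).inv (by
      rw [coeff_zero_pow', map_pow, hφ0, one_pow]))))
    (fun i => by
      have e1 := (hφe i).of_X_mul.pow hnp 6
      have e2 := e1.inv hnp (by
        rw [coeff_zero_pow']
        refine pow_ne_zero _ fun h0 => ?_
        have h1 := hφ0 i
        rw [h0, map_zero] at h1
        exact zero_ne_one h1) (fun τ => pow_ne_zero _ (div_ne_zero (hne i τ)
          (pow_ne_zero _ (qn_ne_zero n τ))))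
      have e3 := ((hδe.pow hnp 3).mul hnp e2).X_mul (r := 3 * n - 6 * r i)
      have e4 : (fun τ => discriminant τ ^ 3 /
          (pw n (rep i.1.1) τ - pw n (rep i.1.2) τ) ^ 6) = fun τ =>
          qn n τ ^ (3 * n - 6 * r i) * ((discriminant τ / qn n τ ^ n) ^ 3 *
            (((pw n (rep i.1.1) τ - pw n (rep i.1.2) τ) / qn n τ ^ r i) ^ 6)⁻¹) := by
        funext τ
        have h1 := qn_ne_zero n τ
        have h2 := hne i τ
        have h3 : qn n τ ^ (3 * n - 6 * r i) * (qn n τ ^ r i) ^ 6 = (qn n τ ^ n) ^ 3 := by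
          rw [← pow_mul, ← pow_mul, ← pow_add]
          congr 1
          have := hr i
          omega
        rw [div_pow, div_pow, inv_div, div_mul_div_comm, ← mul_div_assoc,
          div_eq_div_iff (pow_ne_zero _ h2) (mul_ne_zero (pow_ne_zero _ (pow_ne_zero _ h1))
            (pow_ne_zero _ h2)), ← h3]
        ring
      show IsQExp n _ (fun τ => discriminant τ ^ 3 /
          (pw n (rep i.1.1) τ - pw n (rep i.1.2) τ) ^ 6)
      rw [e4]
      exact e3) hj i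
  -- the given pair
  set i0 : Idx n := ⟨(red n v, red n w), by
    refine ⟨?_, ?_, ?_, ?_⟩
    · show red n v ≠ 0
      rw [Ne, red_eq_zero]
      exact hv
    · show red n w ≠ 0
      rw [Ne, red_eq_zero]
      exact hw
    · show red n v ≠ red n w
      rw [Ne, red_eq]
      exact h1
    · show red n v ≠ -red n w
      rw [Ne, red_eq_neg]
      exact h2⟩ with hi0
  have g1 : pw n (rep i0.1.1) τ = pw n v τ := pw_of_red hn0 (red_rep _) τ
  have g2 : pw n (rep i0.1.2) τ = pw n w τ := pw_of_red hn0 (red_rep _) τ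
  have hΔ : discriminant τ ≠ 0 := ModularForm.discriminant_ne_zero τ
  have hf0 := hne i0 τ
  have k1 := hF i0
  have k2 := hG i0
  rw [g1, g2] at k1 k2 hf0
  rw [pow_one] at k1
  have hf6 : (pw n v τ - pw n w τ) ^ 6 ≠ 0 := pow_ne_zero _ hf0
  have k3 : discriminant τ ^ 3 / (pw n v τ - pw n w τ) ^ 6 / discriminant τ ^ 2
      = ((pw n v τ - pw n w τ) ^ 6 / discriminant τ)⁻¹ := by
    field_simp
  rw [k3] at k2
  set x := (pw n v τ - pw n w τ) ^ 6 / discriminant τ with hx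
  have hx0 : x ≠ 0 := div_ne_zero hf6 hΔ
  have l1 := (V.valuation_le_one_iff _).2 k1
  have l2 := (V.valuation_le_one_iff _).2 k2
  have l3 : V.valuation x = 1 := by
    refine le_antisymm l1 ?_
    rw [map_inv₀] at l2
    have h0 : V.valuation x ≠ 0 := (Valuation.ne_zero_iff _).2 hx0
    exact (inv_le_one₀ (zero_lt_iff.2 h0)).1 l2
  rw [hx, map_div₀, map_pow] at l3
  have hΔ' : V.valuation (discriminant τ) ≠ 0 := (Valuation.ne_zero_iff _).2 hΔ
  exact (div_eq_one_iff_eq hΔ').1 l3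

theorem unit_diff (L : PeriodPair) (hL : CMlat L) (V : ValuationSubring ℂ) {n : ℕ}
    (hn : V.valuation (n : ℂ) = 1) {z w : ℂ} (hz : (n : ℂ) * z ∈ L.lattice)
    (hw : (n : ℂ) * w ∈ L.lattice) (hz0 : z ∉ L.lattice) (hw0 : w ∉ L.lattice)
    (h1 : z - w ∉ L.lattice) (h2 : z + w ∉ L.lattice) :
    V.valuation (℘[L] z - ℘[L] w) ^ 6 = V.valuation (dsc L) := by
  have hn0 : n ≠ 0 := by
    rintro rfl
    rw [Nat.cast_zero, map_zero] at hn
    exact zero_ne_one hn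
  obtain ⟨τ, c, hc, hc'⟩ := exists_Ltau L
  have hj : jj τ ∈ V := jj_mem V τ (CMlat_of_homothety L (Ltau τ) hc hc' hL)
  have hnC : (n : ℂ) ≠ 0 := by exact_mod_cast hn0
  have htor : ∀ z : ℂ, (n : ℂ) * z ∈ L.lattice → ∃ v : ℤ × ℤ, c * z = pz n v τ := by
    intro z hz
    have h3 : c * ((n : ℂ) * z) ∈ (Ltau τ).lattice := (hc' _).2 hz
    rw [PeriodPair.mem_lattice] at h3
    obtain ⟨m, k, h4⟩ := h3
    refine ⟨(k, m), ?_⟩
    have h5 : (m : ℂ) * 1 + (k : ℂ) * τ = c * ((n : ℂ) * z) := h4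
    unfold pz
    rw [eq_div_iff hnC]
    linear_combination -h5
  obtain ⟨v, hv⟩ := htor z hz
  obtain ⟨v', hv'⟩ := htor w hw
  have hsub : ∀ a b : ℤ × ℤ, pz n a τ - pz n b τ = pz n (a.1 - b.1, a.2 - b.2) τ := by
    intro a b
    unfold pz
    push_cast
    ring
  have hadd : ∀ a b : ℤ × ℤ, pz n a τ + pz n b τ = pz n (a.1 + b.1, a.2 + b.2) τ := by
    intro a b
    unfold pz
    push_cast
    ring
  have key := unit_Ltau V hn hn0 v v'
    (by
      rw [← pz_mem_iff hn0 v τ, ← hv, hc']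
      exact hz0)
    (by
      rw [← pz_mem_iff hn0 v' τ, ← hv', hc']
      exact hw0)
    (by
      rw [← pz_mem_iff hn0 (v.1 - v'.1, v.2 - v'.2) τ, ← hsub, ← hv, ← hv', ← mul_sub, hc']
      exact h1)
    (by
      rw [← pz_mem_iff hn0 (v.1 + v'.1, v.2 + v'.2) τ, ← hadd, ← hv, ← hv', ← mul_add, hc']
      exact h2) hj
  have hpi : (2 * Real.pi * Complex.I : ℂ) ≠ 0 := Complex.two_pi_I_ne_zero
  have e1 : ∀ (z : ℂ) (v : ℤ × ℤ), c * z = pz n v τ →
      ℘[L] z = c ^ 2 * (2 * Real.pi * Complex.I) ^ 2 * pw n v τ := by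
    intro z v hv
    have h3 := P_homothety L (Ltau τ) hc hc' z
    unfold pw
    rw [← hv, h3]
    field_simp
  have e2 : ℘[L] z - ℘[L] w = c ^ 2 * (2 * Real.pi * Complex.I) ^ 2 * (pw n v τ - pw n v' τ) := by
    rw [e1 z v hv, e1 w v' hv']
    ring
  have e3 : dsc L = (c ^ 2 * (2 * Real.pi * Complex.I) ^ 2) ^ 6 * discriminant τ := by
    have h3 := dsc_homothety L (Ltau τ) hc hc'
    rw [dsc_Ltau] at h3
    have h4 : dsc L = c ^ 12 * ((2 * Real.pi) ^ 12 * discriminant τ) := by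
      rw [h3]
      field_simp
    rw [h4]
    have h5 : Complex.I ^ 12 = 1 := by
      have : (12 : ℕ) = 4 * 3 := rfl
      rw [this, pow_mul, Complex.I_pow_four, one_pow]
    have h6 : (c ^ 2 * (2 * Real.pi * Complex.I) ^ 2) ^ 6
        = c ^ 12 * (2 * Real.pi) ^ 12 * Complex.I ^ 12 := by ring
    rw [h6, h5]
    ring
  rw [e2, e3]
  generalize c ^ 2 * (2 * (Real.pi : ℂ) * Complex.I) ^ 2 = C
  rw [map_mul, map_mul, mul_pow, key, map_pow]

end Pool.Agent.CMR
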