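import Pool.Agent.CMR.LIn
import Pool.Agent.CMR.MUnit
import Pool.Agent.CMG.PDiff

/-!
# L-GOOD existence of a coordinate with good reduction

`exists_good`: `n = 11` or `13` with `|n| = 1` (`6 · 11 - 5 · 13 = 1`), `u = ω₁/n`, `e = ℘ u`, `d = ℘(2u) - ℘ u`. By `unit_diff` all differences
`℘(iu) - ℘(ju)`, `1 ≤ i < j ≤ 5`, satisfy `|·|⁶ = |dsc|`, so they all have the same valuation `|d|` (the value group is linearly ordered: sixth
roots are unique). `CMG.P_diff` (`(℘(a+b) - ℘(a-b))(℘ a - ℘ b)² = -℘'a ℘'b`) for `(a,b) = (2u,u), (3u,u), (3u,2u)` gives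
`|℘'u ℘'2u| = |℘'u ℘'3u| = |℘'2u ℘'3u| = |d|³`, so `|℘'u|² = |d|³` and `|b₆| = 1` (`bb6 = ℘'(u)²/d³`). With `x_i = xx(iu)`: `x_1 = 0`,
`x_2 = 1`, `|x_i| ≤ 1`, `|x_3| = 1`. `xx_dup` at `u`: `b₈ = -x_2 b₆ = -b₆ ∈ V`. `xx_mul` with `(2u, 3u)`: `xx(5u) xx(-u) = 0`, so
`b₄ = (x_2² x_3² - b₆ (x_2 + x_3) - b₈)/(x_2 x_3) ∈ V`; `b₂ = (b₄² + 4 b₈)/b₆ ∈ V`.
`notInE_of_tors`: suppose `R = |xx z| > 1`. Take a prime `q ∈ {5, 7, 11}` (or similar) with `|q| = 1`, and `v` a point of order `q` with `z ± v`, `2z`... such that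
`z, v, z + v, z - v` are not in `L` and pairwise not equal up to sign (if `z` has order `2` or `3` etc. choose `v` suitably, e.g. of order `q` not dividing `n`,
or `v = jω₁/q` not a multiple); all are torsion of order dividing `n q`, `|n q| = 1`, so by `unit_diff` their `℘`-differences have valuation `|d|`,
and `xx`-differences have valuation `1`, so `|xx v| = |xx(z ± v)| = R`. But `xx_mul`: `|xx(z+v) xx(z-v)| · 1 = |x²y² - …| = R⁴`, contradiction with `R²`.
(`z + v` and `z - v` differ up to sign: `2v ∉ L`, `2z ∉ L`; if `2 z ∈ L` then `xx(z+v) = xx(z-v)` and the argument is the same.)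
-/

set_option autoImplicit false

noncomputable section

open NumberField
open scoped PeriodPair

namespace Pool.Agent.CMR

private lemma val_nat_le (V : ValuationSubring ℂ) (n : ℕ) : V.valuation (n : ℂ) ≤ 1 :=
  (V.valuation_le_one_iff _).2 (natCast_mem V n)

/-- one of `11`, `13` is a unit of `V` -/
private lemma exists_q (V : ValuationSubring ℂ) : ∃ q : ℕ, 11 ≤ q ∧ V.valuation (q : ℂ) = 1 := by
  by_contra h
  push Not at h
  have h11 : V.valuation ((11 : ℕ) : ℂ) < 1 := lt_of_le_of_ne (val_nat_le V 11) (h 11 le_rfl)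
  have h13 : V.valuation ((13 : ℕ) : ℂ) < 1 := lt_of_le_of_ne (val_nat_le V 13)
    (h 13 (by norm_num))
  have h1 : V.valuation ((6 : ℕ) * (11 : ℕ) - (5 : ℕ) * (13 : ℕ) : ℂ) < 1 := by
    refine (V.valuation.map_sub _ _).trans_lt (max_lt ?_ ?_)
    · rw [map_mul]
      exact mul_lt_one_of_nonneg_of_lt_one_right (val_nat_le V 6) zero_le h11
    · rw [map_mul]
      exact mul_lt_one_of_nonneg_of_lt_one_right (val_nat_le V 5) zero_le h13
  have h2 : ((6 : ℕ) * (11 : ℕ) - (5 : ℕ) * (13 : ℕ) : ℂ) = 1 := by norm_num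
  rw [h2, map_one] at h1
  exact lt_irrefl _ h1

/-- `j ω₁ / q` is in the lattice iff `q ∣ j` -/
private lemma mul_div_mem (L : PeriodPair) {q : ℕ} (hq : q ≠ 0) {j : ℤ}
    (h : (j : ℂ) * (L.ω₁ / (q : ℂ)) ∈ L.lattice) : (q : ℤ) ∣ j := by
  rw [PeriodPair.mem_lattice] at h
  obtain ⟨m, k, h⟩ := h
  have hqC : (q : ℂ) ≠ 0 := by exact_mod_cast hq
  have h2 : ((m * q - j : ℤ) : ℝ) • L.ω₁ + ((k * q : ℤ) : ℝ) • L.ω₂ = 0 := by
    rw [Complex.real_smul, Complex.real_smul]
    push_cast
    have h3 : (j : ℂ) * L.ω₁ = ((m : ℂ) * L.ω₁ + (k : ℂ) * L.ω₂) * q := by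
      rw [h]
      field_simp
    linear_combination -h3
  have h4 := (LinearIndependent.pair_iff.1 L.indep) _ _ h2
  have h5 : m * q - j = 0 := by exact_mod_cast h4.1
  exact ⟨m, by linarith⟩

private lemma sixth {G : Type*} [LinearOrderedCommGroupWithZero G] {a b : G} (h : a ^ 6 = b ^ 6) :
    a = b := (pow_left_inj₀ zero_le zero_le (by norm_num)).1 h

private lemma cube_sq {G : Type*} [LinearOrderedCommGroupWithZero G] {a b c t : G}
    (hb : b ≠ 0) (hc : c ≠ 0) (h1 : a * b = t) (h2 : a * c = t) (h3 : b * c = t) :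
    a ^ 2 = t := by
  have h4 : a ^ 2 * (b * c) = t * (b * c) := by
    calc a ^ 2 * (b * c) = (a * b) * (a * c) := by rw [sq, mul_mul_mul_comm]
      _ = t * (b * c) := by rw [h1, h2, h3]
  exact mul_right_cancel₀ (mul_ne_zero hb hc) h4

/-- CM lattices have good reduction everywhere. -/
theorem exists_good (V : ValuationSubring ℂ) {L : PeriodPair} (hL : CMlat L) :
    ∃ e d : ℂ, Good V L e d := by
  obtain ⟨q, hq, hqv⟩ := exists_q V
  have hq0 : q ≠ 0 := by omega
  have hqC : (q : ℂ) ≠ 0 := by exact_mod_cast hq0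
  set u : ℂ := L.ω₁ / (q : ℂ) with hu
  have htor : ∀ j : ℤ, (q : ℂ) * ((j : ℂ) * u) ∈ L.lattice := by
    intro j
    rw [PeriodPair.mem_lattice]
    refine ⟨j, 0, ?_⟩
    rw [hu]
    field_simp
    simp
  have hnot : ∀ j : ℤ, j ≠ 0 → -11 < j → j < 11 → (j : ℂ) * u ∉ L.lattice := by
    intro j h0 h1 h2 h3
    have h4 := mul_div_mem L hq0 h3
    have h5 := Int.le_of_dvd (abs_pos.2 h0) ((dvd_abs _ _).2 h4)
    have h6 : |j| < 11 := abs_lt.2 ⟨h1, h2⟩
    have h7 : (11 : ℤ) ≤ q := by exact_mod_cast hq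
    omega
  have hval : ∀ i j : ℤ, 0 < i → i ≤ 5 → 0 < j → j ≤ 5 → i ≠ j →
      V.valuation (℘[L] ((i : ℂ) * u) - ℘[L] ((j : ℂ) * u)) ^ 6 = V.valuation (dsc L) := by
    intro i j hi hi' hj hj' hij
    refine unit_diff L hL V hqv (htor i) (htor j) (hnot i (by omega) (by omega) (by omega))
      (hnot j (by omega) (by omega) (by omega)) ?_ ?_
    · have := hnot (i - j) (by omega) (by omega) (by omega)
      push_cast at this
      rw [sub_mul] at this
      exact this
    · have := hnot (i + j) (by omega) (by omega) (by omega)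
      push_cast at this
      rw [add_mul] at this
      exact this
  have hdsc : V.valuation (dsc L) ≠ 0 := (Valuation.ne_zero_iff _).2 (dsc_ne_zero L)
  set d : ℂ := ℘[L] (2 * u) - ℘[L] u with hd
  have hd6 : V.valuation d ^ 6 = V.valuation (dsc L) := by
    have h := hval 2 1 (by norm_num) (by norm_num) (by norm_num) (by norm_num) (by norm_num)
    push_cast at h
    rw [one_mul] at h
    exact h
  have hd0 : d ≠ 0 := by
    intro h
    rw [h, map_zero, zero_pow (by norm_num)] at hd6
    exact hdsc hd6.symm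
  have hdv0 : V.valuation d ≠ 0 := (Valuation.ne_zero_iff _).2 hd0
  have hW : ∀ i j : ℤ, 0 < i → i ≤ 5 → 0 < j → j ≤ 5 → i ≠ j →
      V.valuation (℘[L] ((i : ℂ) * u) - ℘[L] ((j : ℂ) * u)) = V.valuation d := by
    intro i j hi hi' hj hj' hij
    exact sixth ((hval i j hi hi' hj hj' hij).trans hd6.symm)
  have n1 := hnot 1 (by norm_num) (by norm_num) (by norm_num)
  have n2 := hnot 2 (by norm_num) (by norm_num) (by norm_num)
  have n3 := hnot 3 (by norm_num) (by norm_num) (by norm_num)
  have n4 := hnot 4 (by norm_num) (by norm_num) (by norm_num)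
  have n5 := hnot 5 (by norm_num) (by norm_num) (by norm_num)
  have nm1 := hnot (-1) (by norm_num) (by norm_num) (by norm_num)
  have w31 := hW 3 1 (by norm_num) (by norm_num) (by norm_num) (by norm_num) (by norm_num)
  have w42 := hW 4 2 (by norm_num) (by norm_num) (by norm_num) (by norm_num) (by norm_num)
  have w51 := hW 5 1 (by norm_num) (by norm_num) (by norm_num) (by norm_num) (by norm_num)
  have w32 := hW 3 2 (by norm_num) (by norm_num) (by norm_num) (by norm_num) (by norm_num)
  push_cast at n1 n2 n3 n4 n5 nm1 w31 w42 w51 w32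
  rw [one_mul] at n1 w31 w51
  rw [neg_one_mul] at nm1
  -- the valuation of the derivatives
  have p1 := CMG.P_diff L n2 n1 (by rw [show 2 * u + u = 3 * u by ring]; exact n3)
    (by rw [show 2 * u - u = u by ring]; exact n1)
  have p2 := CMG.P_diff L n3 n1 (by rw [show 3 * u + u = 4 * u by ring]; exact n4)
    (by rw [show 3 * u - u = 2 * u by ring]; exact n2)
  have p3 := CMG.P_diff L n3 n2 (by rw [show 3 * u + 2 * u = 5 * u by ring]; exact n5)
    (by rw [show 3 * u - 2 * u = u by ring]; exact n1)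
  rw [show 2 * u + u = 3 * u by ring, show 2 * u - u = u by ring] at p1
  rw [show 3 * u + u = 4 * u by ring, show 3 * u - u = 2 * u by ring] at p2
  rw [show 3 * u + 2 * u = 5 * u by ring, show 3 * u - 2 * u = u by ring] at p3
  have v1 := congrArg V.valuation p1
  have v2 := congrArg V.valuation p2
  have v3 := congrArg V.valuation p3
  rw [map_mul, map_pow, Valuation.map_neg, map_mul, w31, ← hd] at v1
  rw [map_mul, map_pow, Valuation.map_neg, map_mul, w42, w31] at v2
  rw [map_mul, map_pow, Valuation.map_neg, map_mul, w51, w32] at v3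
  have hD0 : V.valuation d * V.valuation d ^ 2 ≠ 0 := mul_ne_zero hdv0 (pow_ne_zero _ hdv0)
  have hb : V.valuation (℘'[L] (2 * u)) ≠ 0 := by
    intro h
    rw [h, zero_mul] at v1
    exact hD0 v1
  have hc : V.valuation (℘'[L] (3 * u)) ≠ 0 := by
    intro h
    rw [h, zero_mul] at v2
    exact hD0 v2
  have hder : V.valuation (℘'[L] u) ^ 2 = V.valuation d * V.valuation d ^ 2 := by
    refine cube_sq hb hc ?_ ?_ ?_
    · rw [mul_comm]
      exact v1.symm
    · rw [mul_comm]
      exact v2.symm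
    · rw [mul_comm]
      exact v3.symm
  -- the coordinates
  set e : ℂ := ℘[L] u with he
  have x1 : xx L e d u = 0 := by
    unfold xx
    rw [he, sub_self, zero_div]
  have x1' : xx L e d (-u) = 0 := by
    unfold xx
    rw [L.weierstrassP_neg, he, sub_self, zero_div]
  have x2 : xx L e d (2 * u) = 1 := by
    unfold xx
    rw [← hd, div_self hd0]
  have x3 : V.valuation (xx L e d (3 * u)) = 1 := by
    unfold xx
    rw [map_div₀, he, w31, div_self hdv0]
  have b6eq : bb6 L e d = ℘'[L] u ^ 2 / d ^ 3 := by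
    have h := xx_dP (L := L) (e := e) hd0 n1
    rw [x1] at h
    rw [h]
    ring
  have b6v : V.valuation (bb6 L e d) = 1 := by
    rw [b6eq, map_div₀, map_pow, map_pow, hder, div_eq_one_iff_eq (pow_ne_zero _ hdv0), ← pow_succ']
  have b6m : bb6 L e d ∈ V := (V.valuation_le_one_iff _).1 b6v.le
  have b60 : bb6 L e d ≠ 0 := by
    intro h
    rw [h, map_zero] at b6v
    exact zero_ne_one b6v
  have b8eq : bb8 L e d = -bb6 L e d := by
    have h := xx_dup (L := L) (e := e) hd0 n1 n2
    rw [x1, x2] at h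
    linear_combination h
  have b8m : bb8 L e d ∈ V := by
    rw [b8eq]
    exact neg_mem b6m
  have x3m : xx L e d (3 * u) ∈ V := (V.valuation_le_one_iff _).1 x3.le
  have x30 : xx L e d (3 * u) ≠ 0 := by
    intro h
    rw [h, map_zero] at x3
    exact zero_ne_one x3
  have x3im : (xx L e d (3 * u))⁻¹ ∈ V := by
    refine (V.valuation_le_one_iff _).1 ?_
    rw [map_inv₀, x3, inv_one]
  have b6im : (bb6 L e d)⁻¹ ∈ V := by
    refine (V.valuation_le_one_iff _).1 ?_
    rw [map_inv₀, b6v, inv_one]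
  have b4eq : bb4 L e d = (xx L e d (3 * u) ^ 2 - bb6 L e d * (1 + xx L e d (3 * u)) -
      bb8 L e d) * (xx L e d (3 * u))⁻¹ := by
    have h := xx_mul (L := L) (e := e) hd0 n2 n3 (by
      rw [show 2 * u + 3 * u = 5 * u by ring]
      exact n5) (by
      rw [show 2 * u - 3 * u = -u by ring]
      exact nm1)
    rw [show 2 * u - 3 * u = -u by ring, x1', x2] at h
    rw [eq_mul_inv_iff_mul_eq₀ x30]
    linear_combination h
  have b4m : bb4 L e d ∈ V := by
    rw [b4eq]
    exact mul_mem (sub_mem (sub_mem (pow_mem x3m 2) (mul_mem b6m (add_mem (one_mem V) x3m))) b8m)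
      x3im
  have b2eq : bb2 e d = (4 * bb8 L e d + bb4 L e d ^ 2) * (bb6 L e d)⁻¹ := by
    rw [eq_mul_inv_iff_mul_eq₀ b60]
    unfold bb8
    ring
  have b2m : bb2 e d ∈ V := by
    rw [b2eq]
    refine mul_mem (add_mem (mul_mem ?_ b8m) (pow_mem b4m 2)) b6im
    exact_mod_cast natCast_mem V 4
  exact ⟨e, d, hd0, hd6, b2m, b4m, b6m, b8m⟩

/-- torsion points of order prime to `V` are not in the kernel of reduction -/
theorem notInE_of_tors {V : ValuationSubring ℂ} {L : PeriodPair} (hL : CMlat L) {e d : ℂ}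
    (hg : Good V L e d) {n : ℕ} (hn : V.valuation (n : ℂ) = 1) {z : ℂ}
    (hz : (n : ℂ) * z ∈ L.lattice) (hz0 : z ∉ L.lattice) : ¬ InE V L e d z := by
  intro hE
  have hR : 1 < V.valuation (xx L e d z) := hE.resolve_left hz0
  obtain ⟨q, hq, hqv⟩ := exists_q V
  have hq0 : q ≠ 0 := by omega
  have hqC : (q : ℂ) ≠ 0 := by exact_mod_cast hq0
  set u : ℂ := L.ω₁ / (q : ℂ) with hu
  have htor : ∀ j : ℤ, (q : ℂ) * ((j : ℂ) * u) ∈ L.lattice := by
    intro j
    rw [PeriodPair.mem_lattice]
    refine ⟨j, 0, ?_⟩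
    rw [hu]
    field_simp
    simp
  have hnot : ∀ j : ℤ, j ≠ 0 → -11 < j → j < 11 → (j : ℂ) * u ∉ L.lattice := by
    intro j h0 h1 h2 h3
    have h4 := mul_div_mem L hq0 h3
    have h5 := Int.le_of_dvd (abs_pos.2 h0) ((dvd_abs _ _).2 h4)
    have h6 : |j| < 11 := abs_lt.2 ⟨h1, h2⟩
    have h7 : (11 : ℤ) ≤ q := by exact_mod_cast hq
    omega
  -- at most one multiple is congruent to `± y`
  have huniq : ∀ (y : ℂ) (i j : ℤ), 0 < i → i ≤ 3 → 0 < j → j ≤ 3 → i ≠ j →
      ((i : ℂ) * u - y ∈ L.lattice ∨ (i : ℂ) * u + y ∈ L.lattice) →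
      ((j : ℂ) * u - y ∈ L.lattice ∨ (j : ℂ) * u + y ∈ L.lattice) → False := by
    intro y i j hi hi' hj hj' hij h1 h2
    have ka := hnot (i - j) (by omega) (by omega) (by omega)
    have kb := hnot (i + j) (by omega) (by omega) (by omega)
    push_cast at ka kb
    rcases h1 with h1 | h1 <;> rcases h2 with h2 | h2
    · apply ka
      have := sub_mem h1 h2
      convert this using 1
      ring
    · apply kb
      have := add_mem h1 h2
      convert this using 1
      ring
    · apply kb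
      have := add_mem h1 h2
      convert this using 1
      ring
    · apply ka
      have := sub_mem h1 h2
      convert this using 1
      ring
  obtain ⟨v, hv, hv0, a1, a2, a3, a4⟩ : ∃ v : ℂ, (q : ℂ) * v ∈ L.lattice ∧ v ∉ L.lattice ∧
      v - z ∉ L.lattice ∧ v + z ∉ L.lattice ∧ v - 2 * z ∉ L.lattice ∧
      v + 2 * z ∉ L.lattice := by
    by_contra hcon
    have hbad : ∀ j : ℤ, 0 < j → j ≤ 3 →
        ((j : ℂ) * u - z ∈ L.lattice ∨ (j : ℂ) * u + z ∈ L.lattice) ∨
        ((j : ℂ) * u - 2 * z ∈ L.lattice ∨ (j : ℂ) * u + 2 * z ∈ L.lattice) := by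
      intro j hj hj'
      by_contra h
      push Not at h
      exact hcon ⟨(j : ℂ) * u, htor j, hnot j (by omega) (by omega) (by omega), h.1.1, h.1.2,
        h.2.1, h.2.2⟩
    rcases hbad 1 (by norm_num) (by norm_num) with b1 | b1 <;>
    rcases hbad 2 (by norm_num) (by norm_num) with b2 | b2 <;>
    rcases hbad 3 (by norm_num) (by norm_num) with b3 | b3
    · exact huniq z 1 2 (by norm_num) (by norm_num) (by norm_num) (by norm_num) (by norm_num) b1 b2
    · exact huniq z 1 2 (by norm_num) (by norm_num) (by norm_num) (by norm_num) (by norm_num) b1 b2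
    · exact huniq z 1 3 (by norm_num) (by norm_num) (by norm_num) (by norm_num) (by norm_num) b1 b3
    · exact huniq (2 * z) 2 3 (by norm_num) (by norm_num) (by norm_num) (by norm_num)
        (by norm_num) b2 b3
    · exact huniq z 2 3 (by norm_num) (by norm_num) (by norm_num) (by norm_num) (by norm_num) b2 b3
    · exact huniq (2 * z) 1 3 (by norm_num) (by norm_num) (by norm_num) (by norm_num)
        (by norm_num) b1 b3
    · exact huniq (2 * z) 1 2 (by norm_num) (by norm_num) (by norm_num) (by norm_num)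
        (by norm_num) b1 b2
    · exact huniq (2 * z) 1 2 (by norm_num) (by norm_num) (by norm_num) (by norm_num)
        (by norm_num) b1 b2
  have hd0 := hg.ne
  have hdv0 : V.valuation d ≠ 0 := (Valuation.ne_zero_iff _).2 hd0
  have hnq : V.valuation ((n * q : ℕ) : ℂ) = 1 := by
    rw [Nat.cast_mul, map_mul, hn, hqv, mul_one]
  have hzn : ((n * q : ℕ) : ℂ) * z ∈ L.lattice := by
    have h := L.lattice.smul_mem (q : ℤ) hz
    rw [zsmul_eq_mul] at h
    convert h using 1
    push_cast
    ring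
  have hvn : ((n * q : ℕ) : ℂ) * v ∈ L.lattice := by
    have h := L.lattice.smul_mem (n : ℤ) hv
    rw [zsmul_eq_mul] at h
    convert h using 1
    push_cast
    ring
  have hpn : ((n * q : ℕ) : ℂ) * (z + v) ∈ L.lattice := by
    rw [mul_add]
    exact add_mem hzn hvn
  have hmn : ((n * q : ℕ) : ℂ) * (z - v) ∈ L.lattice := by
    rw [mul_sub]
    exact sub_mem hzn hvn
  have hneg : ∀ x : ℂ, -x ∉ L.lattice → x ∉ L.lattice := fun x h h' => h (neg_mem h')
  have hp0 : z + v ∉ L.lattice := by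
    rw [add_comm]
    exact a2
  have hm0 : z - v ∉ L.lattice := by
    apply hneg
    rw [neg_sub]
    exact a1
  have hdiff : ∀ w : ℂ, ((n * q : ℕ) : ℂ) * w ∈ L.lattice → w ∉ L.lattice → z - w ∉ L.lattice →
      z + w ∉ L.lattice → V.valuation (xx L e d w) = V.valuation (xx L e d z) := by
    intro w hw hw0 h1 h2
    have h3 := unit_diff L hL V hnq hzn hw hz0 hw0 h1 h2
    rw [← hg.disc] at h3
    have h4 := sixth h3
    have h5 : xx L e d z - xx L e d w = (℘[L] z - ℘[L] w) / d := by
      unfold xx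
      ring
    have h6 : V.valuation (xx L e d z - xx L e d w) = 1 := by
      rw [h5, map_div₀, h4, div_self hdv0]
    have h7 : V.valuation (xx L e d z - xx L e d w) < V.valuation (xx L e d z) := by
      rw [h6]
      exact hR
    have h8 := Valuation.map_sub_eq_of_lt_left V.valuation h7
    rw [sub_sub_cancel] at h8
    exact h8
  have rv := hdiff v hvn hv0 hm0 hp0
  have rp := hdiff (z + v) hpn hp0 (by
    rw [show z - (z + v) = -v by ring]
    exact fun h => hv0 (by simpa using neg_mem h)) (by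
    rw [show z + (z + v) = v + 2 * z by ring]
    exact a4)
  have rm := hdiff (z - v) hmn hm0 (by
    rw [show z - (z - v) = v by ring]
    exact hv0) (by
    apply hneg
    rw [show -(z + (z - v)) = v - 2 * z by ring]
    exact a3)
  have hxy : V.valuation (xx L e d z - xx L e d v) = 1 := by
    have h3 := unit_diff L hL V hnq hzn hvn hz0 hv0 hm0 hp0
    rw [← hg.disc] at h3
    have h4 := sixth h3
    have h5 : xx L e d z - xx L e d v = (℘[L] z - ℘[L] v) / d := by
      unfold xx
      ring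
    rw [h5, map_div₀, h4, div_self hdv0]
  have key := congrArg V.valuation (xx_mul (e := e) hd0 hz0 hv0 hp0 hm0)
  rw [map_mul, map_mul, map_pow, rp, rm, hxy, one_pow, mul_one] at key
  set R := V.valuation (xx L e d z) with hRdef
  have l4 := (V.valuation_le_one_iff _).2 hg.h4
  have l6 := (V.valuation_le_one_iff _).2 hg.h6
  have l8 := (V.valuation_le_one_iff _).2 hg.h8
  have m1 : V.valuation (xx L e d z ^ 2 * xx L e d v ^ 2) = R ^ 4 := by
    rw [map_mul, map_pow, map_pow, rv, ← pow_add]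
  have m2 : V.valuation (bb4 L e d * xx L e d z * xx L e d v) < R ^ 4 := by
    rw [map_mul, map_mul, rv, mul_assoc, ← sq]
    exact (mul_le_of_le_one_left' l4).trans_lt (pow_lt_pow_right₀ hR (by norm_num))
  have m3 : V.valuation (bb6 L e d * (xx L e d z + xx L e d v)) < R ^ 4 := by
    rw [map_mul]
    refine (mul_le_of_le_one_left' l6).trans_lt ?_
    refine (V.valuation.map_add _ _).trans_lt ?_
    rw [rv, max_self]
    exact lt_self_pow₀ hR (by norm_num)
  have m4 : V.valuation (bb8 L e d) < R ^ 4 := l8.trans_lt (one_lt_pow₀ hR (by norm_num))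
  have s1 := Valuation.map_sub_eq_of_lt_left V.valuation (m2.trans_eq m1.symm)
  rw [m1] at s1
  have s2 := Valuation.map_sub_eq_of_lt_left V.valuation (m3.trans_eq s1.symm)
  rw [s1] at s2
  have s3 := Valuation.map_sub_eq_of_lt_left V.valuation (m4.trans_eq s2.symm)
  rw [s2] at s3
  rw [s3, ← sq] at key
  exact (pow_lt_pow_right₀ hR (by norm_num : 2 < 4)).ne key

end Pool.Agent.CMR
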