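import Pool.Agent.CMR.MForm

/-!
# M-INT integrality of the q-expansions of E4 and Delta

`E_qExpansion_coeff` (Mathlib): `E₄ = 1 + 240 ∑ σ₃(n) qⁿ`, `E₆ = 1 - 504 ∑ σ₅(n) qⁿ`. With `A = ∑ σ₃ qⁿ`, `B = ∑ σ₅ qⁿ`:
`E₄³ - E₆² = 144 (5 A + 7 B) + 1728 (100 A² + 8000 A³ - 147 B²)` and `5 σ₃(n) + 7 σ₅(n) = ∑_{d ∣ n} d³ (5 + 7 d²)` is divisible
by `12`; `discriminant_eq_E₄_cube_sub_E₆_sq` gives integrality of the coefficients of `Δ` (`qExpansion_mul` etc.).
(Alternatively from the product.) `disc_coeff_one` is `discriminant_qExpansion_coeff_one`. `IsQExp` with `n = 1` is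
`ModularFormClass.hasSum_qExpansion` (`qn 1 τ = 𝕢 1 τ`). The transformation formulas: modularity of `E₄` and of
`CuspForm.discriminant` (`SlashInvariantForm.slash_action_eqn''`, `denom`).
-/

set_option autoImplicit false

noncomputable section

open UpperHalfPlane ModularForm MatrixGroups EisensteinSeries
open scoped PeriodPair

namespace Pool.Agent.CMR

/-- `∑ σ_k(n) qⁿ` -/
private def sg (k : ℕ) : PowerSeries ℤ :=
  PowerSeries.mk fun n => ((ArithmeticFunction.sigma k n : ℕ) : ℤ)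


private theorem E4_eq : qExpansion 1 E₄ =
    PowerSeries.map (Int.castRingHom ℂ) (1 + 240 * sg 3) := by
  ext m
  have h240 : (240 : PowerSeries ℤ) = PowerSeries.C 240 := by
    simp
  rw [E_qExpansion_coeff _ ⟨2, rfl⟩, PowerSeries.coeff_map, h240, map_add,
    PowerSeries.coeff_C_mul, sg, PowerSeries.coeff_mk, PowerSeries.coeff_one]
  by_cases hm : m = 0
  · subst hm
    simp
  · simp only [hm, if_false]
    norm_num [show bernoulli 4 = -1 / 30 by decide +kernel]

private theorem E6_eq : qExpansion 1 E₆ =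
    PowerSeries.map (Int.castRingHom ℂ) (1 - 504 * sg 5) := by
  ext m
  have h504 : (504 : PowerSeries ℤ) = PowerSeries.C 504 := by
    simp
  rw [E_qExpansion_coeff _ ⟨3, rfl⟩, PowerSeries.coeff_map, h504, map_sub,
    PowerSeries.coeff_C_mul, sg, PowerSeries.coeff_mk, PowerSeries.coeff_one]
  by_cases hm : m = 0
  · subst hm
    simp
  · simp only [hm, if_false]
    norm_num [show bernoulli 6 = 1 / 42 by decide +kernel]

private theorem twelve_dvd (n : ℕ) : (12 : ℤ) ∣
    5 * ((ArithmeticFunction.sigma 3 n : ℕ) : ℤ) + 7 * ((ArithmeticFunction.sigma 5 n : ℕ) : ℤ) := by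
  rw [ArithmeticFunction.sigma_apply, ArithmeticFunction.sigma_apply]
  push_cast
  rw [Finset.mul_sum, Finset.mul_sum, ← Finset.sum_add_distrib]
  refine Finset.dvd_sum fun d _ => ?_
  rw [Int.dvd_iff_emod_eq_zero]
  have h : ∀ x : ZMod 12, 5 * x ^ 3 + 7 * x ^ 5 = 0 := by decide
  have h2 := h ((d : ℤ) : ZMod 12)
  have h3 : (((5 * (d : ℤ) ^ 3 + 7 * (d : ℤ) ^ 5 : ℤ)) : ZMod 12) = 0 := by
    push_cast
    push_cast at h2
    exact h2
  rw [ZMod.intCast_zmod_eq_zero_iff_dvd] at h3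
  exact Int.emod_eq_zero_of_dvd (by exact_mod_cast h3)

private def cg : PowerSeries ℤ :=
  PowerSeries.mk fun n => (5 * ((ArithmeticFunction.sigma 3 n : ℕ) : ℤ) +
    7 * ((ArithmeticFunction.sigma 5 n : ℕ) : ℤ)) / 12

private theorem cg_eq : 5 * sg 3 + 7 * sg 5 = 12 * cg := by
  have h5 : (5 : PowerSeries ℤ) = PowerSeries.C 5 := by simp
  have h7 : (7 : PowerSeries ℤ) = PowerSeries.C 7 := by simp
  have h12 : (12 : PowerSeries ℤ) = PowerSeries.C 12 := by simp
  ext n
  rw [h5, h7, h12, map_add, PowerSeries.coeff_C_mul, PowerSeries.coeff_C_mul,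
    PowerSeries.coeff_C_mul, sg, sg, cg, PowerSeries.coeff_mk, PowerSeries.coeff_mk,
    PowerSeries.coeff_mk]
  exact (Int.mul_ediv_cancel' (twelve_dvd n)).symm

private theorem cube_sub : (1 + 240 * sg 3) ^ 3 - (1 - 504 * sg 5) ^ 2 =
    1728 * (cg + 100 * sg 3 ^ 2 + 8000 * sg 3 ^ 3 - 147 * sg 5 ^ 2) := by
  linear_combination 144 * cg_eq

private def f12 : ModularForm 𝒮ℒ 12 :=
  ModularForm.mcast (by decide) (E₄.pow 3) - ModularForm.mcast (by decide) (E₆.pow 2)

private theorem f12_apply (z : ℍ) : f12 z = E₄ z ^ 3 - E₆ z ^ 2 := by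
  simp only [f12, coe_mcast, coe_pow, sub_apply, Pi.pow_apply]

private theorem f12_q : qExpansion 1 f12 = qExpansion 1 E₄ ^ 3 - qExpansion 1 E₆ ^ 2 := by
  simp only [f12, FunLike.coe_sub, coe_mcast,
    ModularForm.qExpansion_sub one_pos one_mem_strictPeriods_SL,
    ModularForm.qExpansion_pow one_pos one_mem_strictPeriods_SL]

private theorem disc_eq : (1728 : ℂ) • qExpansion 1 discriminant =
    qExpansion 1 E₄ ^ 3 - qExpansion 1 E₆ ^ 2 := by
  have h := ModularForm.qExpansion_smul (h := 1) one_pos one_mem_strictPeriods_SL (1728 : ℂ)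
      CuspForm.discriminant
  have h2 : ((1728 : ℂ) • ⇑CuspForm.discriminant : ℍ → ℂ) = f12 := by
    funext z
    rw [f12_apply, Pi.smul_apply, CuspForm.coe_discriminant, discriminant_eq_E₄_cube_sub_E₆_sq,
      smul_eq_mul]
    ring
  rw [h2, f12_q, CuspForm.coe_discriminant] at h
  exact h.symm

private theorem disc_eq' : qExpansion 1 discriminant =
    PowerSeries.map (Int.castRingHom ℂ)
      (cg + 100 * sg 3 ^ 2 + 8000 * sg 3 ^ 3 - 147 * sg 5 ^ 2) := by
  have h := disc_eq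
  rw [E4_eq, E6_eq, ← map_pow, ← map_pow, ← map_sub, cube_sub, map_mul] at h
  have h1 : (1728 : ℂ) • qExpansion 1 discriminant =
      (1728 : PowerSeries ℂ) * qExpansion 1 discriminant := by
    rw [PowerSeries.smul_eq_C_mul]
    congr 1
  have h2 : PowerSeries.map (Int.castRingHom ℂ) (1728 : PowerSeries ℤ) =
      (1728 : PowerSeries ℂ) := map_ofNat _ 1728
  rw [h1, h2] at h
  have h3 : (1728 : PowerSeries ℂ) ≠ 0 := by
    rw [← map_ofNat PowerSeries.C 1728]
    intro h4
    have h5 := congrArg (PowerSeries.coeff 0) h4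
    simp at h5
  exact mul_left_cancel₀ h3 h

theorem E4_coeff_int (i : ℕ) : ∃ z : ℤ, (qExpansion 1 E₄).coeff i = z := by
  rw [E4_eq, PowerSeries.coeff_map]
  exact ⟨_, rfl⟩

theorem E4_coeff_zero : (qExpansion 1 E₄).coeff 0 = 1 :=
  E_qExpansion_coeff_zero _ ⟨2, rfl⟩

theorem disc_coeff_int (i : ℕ) : ∃ z : ℤ, (qExpansion 1 discriminant).coeff i = z := by
  rw [disc_eq', PowerSeries.coeff_map]
  exact ⟨_, rfl⟩

theorem disc_coeff_zero : (qExpansion 1 discriminant).coeff 0 = 0 := by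
  have h : (⇑CuspForm.discriminant : ℍ → ℂ) = discriminant := CuspForm.coe_discriminant
  rw [← h]
  exact CuspFormClass.qExpansion_coeff_zero CuspForm.discriminant one_pos
    one_mem_strictPeriods_SL

theorem disc_coeff_one : (qExpansion 1 discriminant).coeff 1 = 1 :=
  discriminant_qExpansion_coeff_one

private theorem qn_one (τ : ℍ) : qn 1 τ = Function.Periodic.qParam 1 τ := by
  simp [qn, Function.Periodic.qParam]

theorem E4_isQExp : IsQExp 1 (qExpansion 1 E₄) E₄ := by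
  intro τ
  rw [qn_one]
  exact ModularForm.hasSum_qExpansion E₄ one_pos one_mem_strictPeriods_SL τ

theorem disc_isQExp : IsQExp 1 (qExpansion 1 discriminant) discriminant := by
  intro τ
  rw [qn_one]
  exact ModularForm.hasSum_qExpansion CuspForm.discriminant one_pos one_mem_strictPeriods_SL τ

theorem E4_smul : IsInvt 4 E₄ := by
  intro γ τ
  have h := SlashInvariantForm.slash_action_eqn' E₄
    (γ := (Matrix.SpecialLinearGroup.mapGL ℝ γ)) (Γ := 𝒮ℒ) (MonoidHom.mem_range.2 ⟨γ, rfl⟩) τ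
  simp only [Matrix.SpecialLinearGroup.mapGL_coe_matrix, algebraMap_int_eq] at h
  exact h

theorem disc_smul : IsInvt 12 discriminant := by
  intro γ τ
  have h := SlashInvariantForm.slash_action_eqn' CuspForm.discriminant
    (γ := (Matrix.SpecialLinearGroup.mapGL ℝ γ)) (Γ := 𝒮ℒ) (MonoidHom.mem_range.2 ⟨γ, rfl⟩) τ
  simp only [Matrix.SpecialLinearGroup.mapGL_coe_matrix, algebraMap_int_eq] at h
  exact h

theorem jj_smul (γ : SL(2, ℤ)) (τ : ℍ) : jj (γ • τ) = jj τ := by
  have h1 := E4_smul γ τ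
  have h2 := disc_smul γ τ
  have h0 : ((γ.1 1 0 : ℂ) * τ + (γ.1 1 1 : ℂ)) ≠ 0 := by
    intro h
    rw [h] at h2
    rw [zero_pow (by norm_num), zero_mul] at h2
    exact discriminant_ne_zero _ h2
  rw [jj, jj, h1, h2, mul_pow, ← pow_mul]
  exact mul_div_mul_left _ _ (pow_ne_zero _ h0)

end Pool.Agent.CMR
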