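import Pool.Agent.CMR.MAct
import Pool.Agent.CMR.MInt

/-!
# M-DSC the discriminant of a lattice is (2 pi)^12 Delta

`g₂ = 60 ∑' (m τ + k)^{-4} = 60 · 2 ζ(4) E₄ = (4/3) π⁴ E₄(τ)`, `g₃ = 140 · 2 ζ(6) E₆ = (8/27) π⁶ E₆(τ)`:
`EisensteinSeries.tsum_eisSummand_eq_riemannZeta_mul_eisensteinSeries` (`eisSummand k v z = (v 0 z + v 1)^{-k}`) and
`E = (1/2) · eisensteinSeries`, `latticeEquivProd` for the lattice `ℤ + ℤτ`, `riemannZeta_four`, `riemannZeta_six` (or via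
Bernoulli numbers `riemannZeta_two_mul_nat`). Then `(64/27) π^{12} (E₄³ - E₆²) = (64/27) π^{12} 1728 Δ = (2π)^{12} Δ`
by `discriminant_eq_E₄_cube_sub_E₆_sq`. `dsc_ne_zero`: `exists_Ltau`, `dsc_homothety`, `discriminant_ne_zero`.
-/

set_option autoImplicit false

noncomputable section

open UpperHalfPlane ModularForm MatrixGroups EisensteinSeries
open scoped PeriodPair

namespace Pool.Agent.CMR

/-- `Fin 2 → ℤ` and the lattice `ℤ + ℤ τ` -/
private def latEquiv (τ : ℍ) : (Fin 2 → ℤ) ≃ (Ltau τ).lattice :=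
  ((piFinTwoEquiv fun _ => ℤ).trans (Equiv.prodComm ℤ ℤ)).trans
    (Ltau τ).latticeEquivProd.symm.toEquiv

private theorem latEquiv_coe (τ : ℍ) (v : Fin 2 → ℤ) :
    ((latEquiv τ v : (Ltau τ).lattice) : ℂ) = (v 0 : ℂ) * τ + v 1 := by
  have h : ((latEquiv τ v : (Ltau τ).lattice) : ℂ) = (v 1 : ℂ) * 1 + (v 0 : ℂ) * τ :=
    (Ltau τ).latticeEquiv_symm_apply (v 1, v 0)
  rw [h]
  ring

private theorem G_Ltau (τ : ℍ) {k : ℕ} (hk : 3 ≤ k) :
    (Ltau τ).G k = 2 * riemannZeta k * E hk τ := by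
  have h1 : (Ltau τ).G k = ∑' v : Fin 2 → ℤ, eisSummand k v τ := by
    unfold PeriodPair.G
    rw [← (latEquiv τ).tsum_eq]
    refine tsum_congr fun v => ?_
    rw [latEquiv_coe, eisSummand, zpow_neg, zpow_natCast]
  have h2 : E hk τ = 1 / 2 * eisensteinSeries (N := 1) 0 k τ := by
    rw [show E hk τ = (1 / 2 : ℂ) • eisensteinSeriesSIF (N := 1) 0 k τ from rfl,
      eisensteinSeriesSIF_apply 0 k τ, smul_eq_mul]
  rw [h1, tsum_eisSummand_eq_riemannZeta_mul_eisensteinSeries hk, h2]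
  ring

private theorem zeta_six : riemannZeta 6 = (Real.pi : ℂ) ^ 6 / 945 := by
  have h := riemannZeta_two_mul_nat (k := 3) (by norm_num)
  have h1 : (2 : ℂ) * ((3 : ℕ) : ℂ) = 6 := by norm_num
  rw [h1] at h
  rw [h]
  have h2 : bernoulli (2 * 3) = 1 / 42 := by decide +kernel
  rw [h2]
  have h3 : (Nat.factorial (2 * 3) : ℂ) = 720 := by
    norm_num [Nat.factorial]
  rw [h3]
  push_cast
  ring

/-- `g₂³ - 27 g₃² = (2π)^{12} Δ(τ)` -/
theorem dsc_Ltau (τ : ℍ) : dsc (Ltau τ) = (2 * Real.pi) ^ 12 * discriminant τ := by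
  have h4 := G_Ltau τ (k := 4) (by norm_num)
  have h6 := G_Ltau τ (k := 6) (by norm_num)
  rw [show ((4 : ℕ) : ℂ) = 4 by norm_num, riemannZeta_four] at h4
  rw [show ((6 : ℕ) : ℂ) = 6 by norm_num, zeta_six] at h6
  have hd := discriminant_eq_E₄_cube_sub_E₆_sq τ
  unfold dsc PeriodPair.g₂ PeriodPair.g₃
  rw [h4, h6, hd]
  ring

theorem dsc_ne_zero (L : PeriodPair) : dsc L ≠ 0 := by
  obtain ⟨τ, c, hc, h⟩ := exists_Ltau L
  have h1 := dsc_homothety L (Ltau τ) hc h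
  intro h0
  rw [h0, zero_div, dsc_Ltau] at h1
  rcases mul_eq_zero.1 h1 with h2 | h2
  · have h3 : (2 * Real.pi : ℂ) ≠ 0 := by
      simp [Real.pi_ne_zero]
    exact pow_ne_zero 12 h3 h2
  · exact discriminant_ne_zero τ h2

end Pool.Agent.CMR
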