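import Pool.Agent.CMR.LRel
import Pool.Agent.CMR.MDsc

/-!
# L-IN the kernel of reduction is a subgroup; reduction of the coordinate

Write `x = xx z`, `y = xx w`, `b_i = bb_i`, `f(x) = x⁴ - b₄x² - 2b₆x - b₈`, `g(x) = 4x³ + b₂x² + 2b₄x + b₆`; all `b_i ∈ V`.
`InE.add`: `z, w, z + w ∉ L`. If `z - w ∈ L`: `xx(2z) g(x) = f(x)`, `|f| = |x|⁴`, `|g| ≤ |x|³`. Else with `t₁, t₂ = xx(z ± w)`:
`(x-y)² t₁² - S t₁ + P = 0` (`xx_add`, `xx_mul`), `|P| = |xy|²`, `|S|`, `|(x-y)²| < |xy|²` for `|x|, |y| > 1`, so `|t₁| > 1`.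
`xx_shift`: `z ∉ L` w.l.o.g.; `|y| ≤ 1 < |x|`. `w ± z ∉ L` (else `xx w = xx z`). With `a, b = xx(w ± z) - y`: `a b (x-y)² = f(y) - x g(y)`
and `(a + b)(x-y)² = -2y³ + 6y²x + b₂xy + b₄(x+y) + b₆`, hence `|ab| < 1`, `|a + b| < 1`, so `|a| < 1`: if `|a| ≥ 1`
then `|a|² = |a(a+b) - ab| < |a|²`. `¬ InE (w+z)`: `InE.add` with `-z`. `red_inj`: suppose `z ± w` are not in `InE` (so not in `L`): `t₁, t₂` integral,
`(x-y)² t₁ t₂ = P`, `(x-y)²(t₁+t₂) = S`, so `|P|, |S| < 1`; since `x ≡ y`: `P ≡ f(x)`, `S ≡ g(x)`, so `|f(x)|, |g(x)| < 1`, contradiction with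
`res_identity`, `bb_disc` and `|dsc L| = |d|⁶ ≠ 0` (`dsc_ne_zero` in `MDsc`). `val_P_sub`: `℘ z - ℘ w = d (x - y)`, `|x - y| ≤ 1` and not `< 1` by `red_inj`.
`val_dP`: `℘'²/d³ = g(x)`, `|g(x)| ≤ 1`; if `|g(x)| < 1` then `|f(x)| = 1` by `res_identity`, and `xx(2z) g(x) = f(x)` gives `|xx(2z)| > 1`.
-/

set_option autoImplicit false

noncomputable section

open NumberField
open scoped PeriodPair

namespace Pool.Agent.CMR

variable {V : ValuationSubring ℂ} {L : PeriodPair} {e d : ℂ}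

/-! ### Valuations -/

private theorem vlt_mem {a : ℂ} (h : V.valuation a < 1) : a ∈ V :=
  (V.valuation_le_one_iff a).1 h.le

private theorem vlt_add {a b : ℂ} (ha : V.valuation a < 1) (hb : V.valuation b < 1) :
    V.valuation (a + b) < 1 := V.valuation.map_add_lt ha hb

private theorem vlt_sub {a b : ℂ} (ha : V.valuation a < 1) (hb : V.valuation b < 1) :
    V.valuation (a - b) < 1 := V.valuation.map_sub_lt ha hb

private theorem vlt_mul {a b : ℂ} (ha : V.valuation a < 1) (hb : b ∈ V) :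
    V.valuation (a * b) < 1 := by
  rw [map_mul]
  exact mul_lt_one_of_lt_of_le ha ((V.valuation_le_one_iff b).2 hb)

private theorem vlt_mul' {a b : ℂ} (ha : a ∈ V) (hb : V.valuation b < 1) :
    V.valuation (a * b) < 1 := by
  rw [mul_comm]
  exact vlt_mul hb ha

private theorem not_vlt_one : ¬ V.valuation (1 : ℂ) < 1 := by
  rw [map_one]
  exact lt_irrefl _

private theorem num_mem (n : ℕ) [n.AtLeastTwo] : (OfNat.ofNat n : ℂ) ∈ V := by
  have h : ((n : ℕ) : ℂ) ∈ V := natCast_mem V n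
  exact_mod_cast h

private theorem inv_vlt {x : ℂ} (hx : 1 < V.valuation x) : V.valuation x⁻¹ < 1 := by
  rw [map_inv₀]
  exact inv_lt_one_of_one_lt₀ hx

private theorem ne_of_one_lt {x : ℂ} (hx : 1 < V.valuation x) : x ≠ 0 := by
  rintro rfl
  rw [map_zero] at hx
  exact absurd hx (not_lt.2 zero_le_one)

private theorem exists_inv {x : ℂ} (hx : 1 < V.valuation x) :
    ∃ a : ℂ, a ≠ 0 ∧ V.valuation a < 1 ∧ x = a⁻¹ :=
  ⟨x⁻¹, inv_ne_zero (ne_of_one_lt hx), inv_vlt hx, (inv_inv x).symm⟩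

/-- if `c a b` and `c (a + b)` are small, and `c` is a unit, then `a` is small -/
private theorem vlt_of_sum_prod {a b c : ℂ} (hc : V.valuation (c - 1) < 1)
    (h1 : V.valuation (a * b * c) < 1) (h2 : V.valuation ((a + b) * c) < 1) :
    V.valuation a < 1 := by
  have hc1 : V.valuation c = 1 := by
    have h3 := V.valuation.map_add_eq_of_lt_left (x := 1) (y := c - 1) (by rwa [map_one])
    rw [add_sub_cancel, map_one] at h3
    exact h3
  rw [map_mul, hc1, mul_one] at h1 h2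
  by_contra hcon
  have hge : 1 ≤ V.valuation a := not_lt.1 hcon
  have h0 : 0 < V.valuation a := lt_of_lt_of_le zero_lt_one hge
  have h4 : V.valuation (a * a) < V.valuation a * V.valuation a := by
    have e : a * a = a * (a + b) - a * b := by ring
    nth_rewrite 1 [e]
    refine V.valuation.map_sub_lt ?_ ?_
    · rw [map_mul]
      calc V.valuation a * V.valuation (a + b) < V.valuation a * 1 :=
            mul_lt_mul_of_pos_left h2 h0
        _ ≤ V.valuation a * V.valuation a := mul_le_mul_right hge _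
    · calc V.valuation (a * b) < 1 := h1
        _ ≤ V.valuation a * V.valuation a := one_le_mul hge hge
  rw [map_mul] at h4
  exact lt_irrefl _ h4

/-! ### The coordinate -/

private theorem xx_neg (z : ℂ) : xx L e d (-z) = xx L e d z := by
  unfold xx
  rw [L.weierstrassP_neg]

private theorem xx_add_coe (z : ℂ) {l : ℂ} (hl : l ∈ L.lattice) :
    xx L e d (z + l) = xx L e d z := by
  unfold xx
  rw [L.weierstrassP_add_coe z ⟨l, hl⟩]

private theorem InE.congr {z w : ℂ} (h : InE V L e d z) (hl : w - z ∈ L.lattice) :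
    InE V L e d w := by
  rcases h with h | h
  · left
    have := add_mem h hl
    rwa [add_sub_cancel] at this
  · right
    have h1 := xx_add_coe (e := e) (d := d) z hl
    rw [add_sub_cancel] at h1
    rwa [h1]

theorem InE.neg (hg : Good V L e d) {z : ℂ} (h : InE V L e d z) : InE V L e d (-z) := by
  rcases h with h | h
  · exact Or.inl (neg_mem h)
  · right
    rwa [xx_neg]

private theorem dup_aux {b2 b4 b6 b8 a t : ℂ} (ha0 : a ≠ 0) (ha : V.valuation a < 1)
    (h2 : b2 ∈ V) (h4 : b4 ∈ V) (h6 : b6 ∈ V) (h8 : b8 ∈ V)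
    (h : t * (4 * a⁻¹ ^ 3 + b2 * a⁻¹ ^ 2 + 2 * b4 * a⁻¹ + b6) =
      a⁻¹ ^ 4 - b4 * a⁻¹ ^ 2 - 2 * b6 * a⁻¹ - b8) : t ∉ V := by
  intro ht
  have e1 : (1 : ℂ) = a * (t * (4 + b2 * a + 2 * b4 * a ^ 2 + b6 * a ^ 3)) +
      a * (b4 * a + 2 * b6 * a ^ 2 + b8 * a ^ 3) := by
    field_simp at h
    linear_combination -h
  have haV := vlt_mem ha
  have h2V : (2 : ℂ) ∈ V := num_mem 2
  have h4V : (4 : ℂ) ∈ V := num_mem 4
  apply not_vlt_one (V := V)
  nth_rewrite 1 [e1]
  refine vlt_add (vlt_mul ha (mul_mem ht ?_)) (vlt_mul ha ?_)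
  · exact add_mem (add_mem (add_mem h4V (mul_mem h2 haV))
      (mul_mem (mul_mem h2V h4) (pow_mem haV 2))) (mul_mem h6 (pow_mem haV 3))
  · exact add_mem (add_mem (mul_mem h4 haV) (mul_mem (mul_mem h2V h6) (pow_mem haV 2)))
      (mul_mem h8 (pow_mem haV 3))

private theorem add_aux {b2 b4 b6 b8 a b s t : ℂ} (ha0 : a ≠ 0) (hb0 : b ≠ 0)
    (ha : V.valuation a < 1) (hb : V.valuation b < 1)
    (h2 : b2 ∈ V) (h4 : b4 ∈ V) (h6 : b6 ∈ V) (h8 : b8 ∈ V)
    (hS : (s + t) * (a⁻¹ - b⁻¹) ^ 2 = 2 * a⁻¹ * b⁻¹ * (a⁻¹ + b⁻¹) + b2 * a⁻¹ * b⁻¹ +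
      b4 * (a⁻¹ + b⁻¹) + b6)
    (hP : s * t * (a⁻¹ - b⁻¹) ^ 2 = a⁻¹ ^ 2 * b⁻¹ ^ 2 - b4 * a⁻¹ * b⁻¹ -
      b6 * (a⁻¹ + b⁻¹) - b8) : s ∉ V := by
  intro hs
  have e1 : (s + t) * (b - a) ^ 2 = a * (2 + b2 * b + b4 * (b ^ 2 + a * b) + b6 * (a * b ^ 2)) +
      b * 2 := by
    field_simp at hS
    linear_combination hS
  have e2 : s * t * (b - a) ^ 2 = 1 - a * (b4 * b + b6 * (b ^ 2 + a * b) + b8 * (a * b ^ 2)) := by
    field_simp at hP
    linear_combination hP
  have e3 : (1 : ℂ) = s * (a * (2 + b2 * b + b4 * (b ^ 2 + a * b) + b6 * (a * b ^ 2)) + b * 2) -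
      s ^ 2 * ((b - a) * (b - a)) +
      a * (b4 * b + b6 * (b ^ 2 + a * b) + b8 * (a * b ^ 2)) := by
    linear_combination -e2 + s * e1
  have haV := vlt_mem ha
  have hbV := vlt_mem hb
  have h2V : (2 : ℂ) ∈ V := num_mem 2
  have hm1 : b ^ 2 + a * b ∈ V := add_mem (pow_mem hbV 2) (mul_mem haV hbV)
  have hm2 : a * b ^ 2 ∈ V := mul_mem haV (pow_mem hbV 2)
  apply not_vlt_one (V := V)
  nth_rewrite 1 [e3]
  refine vlt_add (vlt_sub (vlt_mul' hs (vlt_add (vlt_mul ha ?_) (vlt_mul hb h2V)))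
    (vlt_mul' (pow_mem hs 2) (vlt_mul (vlt_sub hb ha) (sub_mem hbV haV)))) (vlt_mul ha ?_)
  · exact add_mem (add_mem (add_mem h2V (mul_mem h2 hbV)) (mul_mem h4 hm1)) (mul_mem h6 hm2)
  · exact add_mem (add_mem (mul_mem h4 hbV) (mul_mem h6 hm1)) (mul_mem h8 hm2)

theorem InE.add (hg : Good V L e d) {z w : ℂ} (h : InE V L e d z) (h' : InE V L e d w) :
    InE V L e d (z + w) := by
  by_cases hz : z ∈ L.lattice
  · exact h'.congr (by rwa [add_sub_cancel_right])
  by_cases hw : w ∈ L.lattice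
  · exact h.congr (by rwa [add_sub_cancel_left])
  by_cases hzw : z + w ∈ L.lattice
  · exact Or.inl hzw
  have hx := h.resolve_left hz
  have hy := h'.resolve_left hw
  obtain ⟨a, ha0, ha, hxa⟩ := exists_inv hx
  obtain ⟨b, hb0, hb, hyb⟩ := exists_inv hy
  right
  rw [← not_le, V.valuation_le_one_iff]
  by_cases hd : z - w ∈ L.lattice
  · have h2z : 2 * z ∉ L.lattice := by
      intro h3
      apply hzw
      have h4 := sub_mem h3 hd
      have e1 : 2 * z - (z - w) = z + w := by ring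
      rwa [e1] at h4
    have e1 : xx L e d (z + w) = xx L e d (2 * z) := by
      have h3 := xx_add_coe (e := e) (d := d) (z + w) hd
      rw [← h3]
      congr 1
      ring
    have h3 := xx_dup (e := e) hg.ne hz h2z
    rw [← e1, hxa] at h3
    exact dup_aux ha0 ha hg.h2 hg.h4 hg.h6 hg.h8 h3
  · have h3 := xx_add (e := e) hg.ne hz hw hzw hd
    have h4 := xx_mul (e := e) hg.ne hz hw hzw hd
    rw [hxa, hyb] at h3 h4
    exact add_aux ha0 hb0 ha hb hg.h2 hg.h4 hg.h6 hg.h8 h3 h4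

theorem InE.nsmul (hg : Good V L e d) {z : ℂ} (h : InE V L e d z) (n : ℕ) :
    InE V L e d (n * z) := by
  induction n with
  | zero =>
    left
    rw [Nat.cast_zero, zero_mul]
    exact zero_mem _
  | succ n ih =>
    have e1 : ((n + 1 : ℕ) : ℂ) * z = n * z + z := by
      push_cast
      ring
    rw [e1]
    exact ih.add hg h

private theorem not_inE_mem {z : ℂ} (hz : ¬ InE V L e d z) : xx L e d z ∈ V := by
  rw [← V.valuation_le_one_iff]
  exact not_lt.1 fun h => hz (Or.inr h)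

private theorem shift_aux {b2 b4 b6 b8 a y s t : ℂ} (ha0 : a ≠ 0) (ha : V.valuation a < 1)
    (hy : y ∈ V) (h2 : b2 ∈ V) (h4 : b4 ∈ V) (h6 : b6 ∈ V) (h8 : b8 ∈ V)
    (hS : (s + t) * (y - a⁻¹) ^ 2 = 2 * y * a⁻¹ * (y + a⁻¹) + b2 * y * a⁻¹ +
      b4 * (y + a⁻¹) + b6)
    (hP : s * t * (y - a⁻¹) ^ 2 = y ^ 2 * a⁻¹ ^ 2 - b4 * y * a⁻¹ - b6 * (y + a⁻¹) - b8) :
    V.valuation (s - y) < 1 := by
  have haV := vlt_mem ha
  have h2V : (2 : ℂ) ∈ V := num_mem 2
  have h4V : (4 : ℂ) ∈ V := num_mem 4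
  have h6V : (6 : ℂ) ∈ V := num_mem 6
  have e1 : (s + t) * (1 - a * y) ^ 2 = 2 * y * (a * y + 1) + b2 * y * a +
      b4 * (y * a ^ 2 + a) + b6 * a ^ 2 := by
    field_simp at hS
    linear_combination hS
  have e2 : s * t * (1 - a * y) ^ 2 = y ^ 2 - b4 * y * a - b6 * (y * a ^ 2 + a) - b8 * a ^ 2 := by
    field_simp at hP
    linear_combination hP
  refine vlt_of_sum_prod (a := s - y) (b := t - y) (c := (1 - a * y) ^ 2) ?_ ?_ ?_
  · have e3 : (1 - a * y) ^ 2 - 1 = a * (y * (a * y - 2)) := by ring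
    rw [e3]
    exact vlt_mul ha (mul_mem hy (sub_mem (mul_mem haV hy) h2V))
  · have e3 : (s - y) * (t - y) * (1 - a * y) ^ 2 = a * (a * (y ^ 4 - b4 * y ^ 2 -
        2 * b6 * y - b8) - (4 * y ^ 3 + b2 * y ^ 2 + 2 * b4 * y + b6)) := by
      linear_combination e2 - y * e1
    rw [e3]
    refine vlt_mul ha (sub_mem (mul_mem haV ?_) ?_)
    · exact sub_mem (sub_mem (sub_mem (pow_mem hy 4) (mul_mem h4 (pow_mem hy 2)))
        (mul_mem (mul_mem h2V h6) hy)) h8
    · exact add_mem (add_mem (add_mem (mul_mem h4V (pow_mem hy 3)) (mul_mem h2 (pow_mem hy 2)))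
        (mul_mem (mul_mem h2V h4) hy)) h6
  · have e3 : (s - y + (t - y)) * (1 - a * y) ^ 2 = a * (6 * y ^ 2 - 2 * y ^ 3 * a + b2 * y +
        b4 * (y * a + 1) + b6 * a) := by
      linear_combination e1
    rw [e3]
    refine vlt_mul ha ?_
    exact add_mem (add_mem (add_mem (sub_mem (mul_mem h6V (pow_mem hy 2))
      (mul_mem (mul_mem h2V (pow_mem hy 3)) haV)) (mul_mem h2 hy))
      (mul_mem h4 (add_mem (mul_mem hy haV) (one_mem _)))) (mul_mem h6 haV)

/-- the coordinate modulo `V` is invariant under translation by the kernel of reduction -/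
theorem xx_shift (hg : Good V L e d) {z w : ℂ} (hw : ¬ InE V L e d w) (hz : InE V L e d z) :
    ¬ InE V L e d (w + z) ∧ V.valuation (xx L e d (w + z) - xx L e d w) < 1 := by
  have h1 : ¬ InE V L e d (w + z) := by
    intro h
    apply hw
    have h2 := h.add hg (hz.neg hg)
    rwa [add_neg_cancel_right] at h2
  have h1' : ¬ InE V L e d (w - z) := by
    intro h
    apply hw
    have h2 := h.add hg hz
    rwa [sub_add_cancel] at h2
  refine ⟨h1, ?_⟩
  by_cases hzl : z ∈ L.lattice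
  · rw [xx_add_coe w hzl, sub_self, map_zero]
    exact zero_lt_one
  · have hx := hz.resolve_left hzl
    obtain ⟨a, ha0, ha, hxa⟩ := exists_inv hx
    have hwl : w ∉ L.lattice := fun h => hw (Or.inl h)
    have h3 := xx_add (e := e) hg.ne hwl hzl (fun h => h1 (Or.inl h)) (fun h => h1' (Or.inl h))
    have h4 := xx_mul (e := e) hg.ne hwl hzl (fun h => h1 (Or.inl h)) (fun h => h1' (Or.inl h))
    rw [hxa] at h3 h4
    exact shift_aux ha0 ha (not_inE_mem hw) hg.h2 hg.h4 hg.h6 hg.h8 h3 h4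

/-- the polynomials of the duplication formula have no common zero modulo `V` -/
private theorem res_aux (hg : Good V L e d) {x : ℂ} (hx : x ∈ V)
    (hG : V.valuation (4 * x ^ 3 + bb2 e d * x ^ 2 + 2 * bb4 L e d * x + bb6 L e d) < 1)
    (hF : V.valuation (x ^ 4 - bb4 L e d * x ^ 2 - 2 * bb6 L e d * x - bb8 L e d) < 1) :
    False := by
  have h8 : 4 * bb8 L e d = bb2 e d * bb6 L e d - bb4 L e d ^ 2 := by
    unfold bb8
    ring
  have h1 := res_identity (x := x) h8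
  rw [bb_disc L hg.ne] at h1
  have h2 : V.valuation (dsc L / d ^ 6) = 1 := by
    rw [map_div₀, map_pow, hg.disc, div_self]
    rw [← hg.disc]
    exact pow_ne_zero _ ((Valuation.ne_zero_iff _).2 hg.ne)
  rw [← h1] at h2
  have n (m : ℕ) [m.AtLeastTwo] : (OfNat.ofNat m : ℂ) ∈ V := num_mem m
  have h3 : 12 * x ^ 3 - bb2 e d * x ^ 2 - 10 * bb4 L e d * x +
      (bb2 e d * bb4 L e d - 27 * bb6 L e d) ∈ V :=
    add_mem (sub_mem (sub_mem (mul_mem (n 12) (pow_mem hx 3)) (mul_mem hg.h2 (pow_mem hx 2)))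
      (mul_mem (mul_mem (n 10) hg.h4) hx)) (sub_mem (mul_mem hg.h2 hg.h4) (mul_mem (n 27) hg.h6))
  have h4 : 48 * x ^ 2 + 8 * bb2 e d * x + (32 * bb4 L e d - bb2 e d ^ 2) ∈ V :=
    add_mem (add_mem (mul_mem (n 48) (pow_mem hx 2)) (mul_mem (mul_mem (n 8) hg.h2) hx))
      (sub_mem (mul_mem (n 32) hg.h4) (pow_mem hg.h2 2))
  exact absurd h2 (vlt_sub (vlt_mul' h3 hG) (vlt_mul' h4 hF)).ne

/-- points with congruent coordinates are equal up to sign modulo the kernel of reduction -/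
theorem red_inj (hg : Good V L e d) {z w : ℂ} (hz : ¬ InE V L e d z) (hw : ¬ InE V L e d w)
    (h : V.valuation (xx L e d z - xx L e d w) < 1) : InE V L e d (z - w) ∨ InE V L e d (z + w) := by
  by_contra hcon
  rw [not_or] at hcon
  obtain ⟨h1, h2⟩ := hcon
  have hx := not_inE_mem hz
  have hy := not_inE_mem hw
  have hs := not_inE_mem h2
  have ht := not_inE_mem h1
  have hzl : z ∉ L.lattice := fun h => hz (Or.inl h)
  have hwl : w ∉ L.lattice := fun h => hw (Or.inl h)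
  have h3 := xx_add (e := e) hg.ne hzl hwl (fun h => h2 (Or.inl h)) (fun h => h1 (Or.inl h))
  have h4 := xx_mul (e := e) hg.ne hzl hwl (fun h => h2 (Or.inl h)) (fun h => h1 (Or.inl h))
  generalize xx L e d z = x at *
  generalize xx L e d w = y at *
  generalize xx L e d (z + w) = s at *
  generalize xx L e d (z - w) = t at *
  have n (m : ℕ) [m.AtLeastTwo] : (OfNat.ofNat m : ℂ) ∈ V := num_mem m
  have hxy : x - y ∈ V := sub_mem hx hy
  refine res_aux hg hx ?_ ?_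
  · have e1 : 4 * x ^ 3 + bb2 e d * x ^ 2 + 2 * bb4 L e d * x + bb6 L e d =
        (x - y) * ((x - y) * (s + t)) + (x - y) * (4 * x ^ 2 + 2 * x * y + bb2 e d * x +
          bb4 L e d) := by
      linear_combination -h3
    rw [e1]
    refine vlt_add (vlt_mul h (mul_mem hxy (add_mem hs ht))) (vlt_mul h ?_)
    exact add_mem (add_mem (add_mem (mul_mem (n 4) (pow_mem hx 2)) (mul_mem (mul_mem (n 2) hx) hy))
      (mul_mem hg.h2 hx)) hg.h4
  · have e1 : x ^ 4 - bb4 L e d * x ^ 2 - 2 * bb6 L e d * x - bb8 L e d =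
        (x - y) * ((x - y) * (s * t)) + (x - y) * (x ^ 2 * (x + y) - bb4 L e d * x -
          bb6 L e d) := by
      linear_combination -h4
    rw [e1]
    refine vlt_add (vlt_mul h (mul_mem hxy (mul_mem hs ht))) (vlt_mul h ?_)
    exact sub_mem (sub_mem (mul_mem (pow_mem hx 2) (add_mem hx hy)) (mul_mem hg.h4 hx)) hg.h6

private theorem P_sub (hd : d ≠ 0) (z w : ℂ) :
    ℘[L] z - ℘[L] w = d * (xx L e d z - xx L e d w) := by
  unfold xx
  field_simp
  ring

theorem val_P_sub (hg : Good V L e d) {z w : ℂ} (hz : ¬ InE V L e d z) (hw : ¬ InE V L e d w)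
    (h1 : ¬ InE V L e d (z - w)) (h2 : ¬ InE V L e d (z + w)) :
    V.valuation (℘[L] z - ℘[L] w) = V.valuation d := by
  rw [P_sub hg.ne z w (e := e), map_mul]
  have h3 : V.valuation (xx L e d z - xx L e d w) = 1 := by
    refine le_antisymm ?_ (not_lt.1 fun h => ?_)
    · rw [V.valuation_le_one_iff]
      exact sub_mem (not_inE_mem hz) (not_inE_mem hw)
    · rcases red_inj hg hz hw h with h4 | h4
      · exact h1 h4
      · exact h2 h4
  rw [h3, mul_one]

theorem val_P_sub_of_in (hg : Good V L e d) {z w : ℂ} (hz : InE V L e d z) (hz0 : z ∉ L.lattice)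
    (hw : ¬ InE V L e d w) :
    V.valuation (℘[L] z - ℘[L] w) = V.valuation d * V.valuation (xx L e d z) := by
  rw [P_sub hg.ne z w (e := e), map_mul]
  congr 1
  apply Valuation.map_sub_eq_of_lt_left
  exact lt_of_le_of_lt ((V.valuation_le_one_iff _).2 (not_inE_mem hw)) (hz.resolve_left hz0)

theorem val_dP (hg : Good V L e d) {z : ℂ} (hz : ¬ InE V L e d z) (h2 : ¬ InE V L e d (2 * z)) :
    V.valuation (℘'[L] z) ^ 2 = V.valuation d ^ 3 := by
  have hzl : z ∉ L.lattice := fun h => hz (Or.inl h)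
  have h2l : 2 * z ∉ L.lattice := fun h => h2 (Or.inl h)
  have hx := not_inE_mem hz
  have ht := not_inE_mem h2
  have h3 := xx_dP (e := e) hg.ne hzl
  have h4 := xx_dup (e := e) hg.ne hzl h2l
  have hd0 : V.valuation d ≠ 0 := (Valuation.ne_zero_iff _).2 hg.ne
  have n (m : ℕ) [m.AtLeastTwo] : (OfNat.ofNat m : ℂ) ∈ V := num_mem m
  have h5 : V.valuation (4 * xx L e d z ^ 3 + bb2 e d * xx L e d z ^ 2 +
      2 * bb4 L e d * xx L e d z + bb6 L e d) = 1 := by
    refine le_antisymm ?_ (not_lt.1 fun h => ?_)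
    · rw [V.valuation_le_one_iff]
      exact add_mem (add_mem (add_mem (mul_mem (n 4) (pow_mem hx 3))
        (mul_mem hg.h2 (pow_mem hx 2))) (mul_mem (mul_mem (n 2) hg.h4) hx)) hg.h6
    · refine res_aux hg hx h ?_
      rw [← h4]
      exact vlt_mul' ht h
  rw [← h3, map_div₀, map_pow, map_pow] at h5
  exact (div_eq_one_iff_eq (pow_ne_zero 3 hd0)).1 h5

/-- the coordinate of a point which is not in the kernel of reduction is integral -/
theorem val_xx_le {z : ℂ} (hz : ¬ InE V L e d z) : V.valuation (xx L e d z) ≤ 1 :=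
  not_lt.1 fun h => hz (Or.inr h)

end Pool.Agent.CMR
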