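import Pool.Agent.CMR.LGood
import Pool.Agent.CMR.IProd

/-!
# L-ISO isogenies and the kernel of reduction

Let `n = idx L L'`, `q ≥ 5` a prime with `q ∤ n`, `|q| = 1`; `w = ω₁/q` (for `L`; it has order `q`
also modulo `L'`). All multiples `jw`, `q ∤ j`, are not in `InE` (`notInE_of_tors`), for `L` and for
`L'`; for `s ∈ L'`: `s + jw ∉ InE` (multiply by `n`: `InE.nsmul`; `n s ∈ L`).
So `|℘[L] s - ℘[L] w| = |d| max(1, |xx s|)` for `s ∈ R`, `s ≠ 0` (`val_P_sub`, `val_P_sub_of_in`).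
`val_disc_isog`: `P_isog` with `z = 2w`: `|℘[L'](2w) - ℘[L'] w| = |d'|`, all
`|℘[L](2w+s) - ℘[L] w| = |d|`. So `|d'| |d|^{n-1} ∏ max = |d|^n`.
`val_xx_isog`: `P_isog` at `z`: `|℘[L'] z - ℘[L'] w| |d|^{n-1} ∏ max(1,|xx s|) =
∏_{s ∈ R} |℘[L](z+s) - ℘[L] w|`, each factor is `|d| max(1, |xx(z+s)|)`; divide by
`val_disc_isog`: `|xx' z - xx' w| = |xx z| ∏_{s≠0} max(1,|xx(z+s)|) > 1`, `|xx' w| ≤ 1`.
`InE.isog`: from it (`exists_reps`). `val_xx_eq`: if `|n| = 1`: `s ∈ L' ∖ L` is torsion of order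
dividing `n`, so `s ∉ InE` and `z + s ∉ InE`; all `max` are `1`.
`InE.mul`: `a = 0` trivial; `L' = a⁻¹L` (a period pair with `ω_i/a`), `Good.homothety`
(`c = a⁻¹`) and `InE.isog`. `val_mul_isog`: `val_disc_isog` with `d' = d a²`.
-/

set_option autoImplicit false

noncomputable section

open NumberField
open scoped PeriodPair

namespace Pool.Agent.CMR

variable {V : ValuationSubring ℂ} {L L' : PeriodPair} {e d e' d' : ℂ} {R : Finset ℂ}

private lemma liso_int_le (V : ValuationSubring ℂ) (m : ℤ) : V.valuation (m : ℂ) ≤ 1 :=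
  (V.valuation_le_one_iff _).2 (intCast_mem V m)

private lemma liso_prime (V : ValuationSubring ℂ) (n : ℕ) (hn : 0 < n) :
    ∃ q : ℕ, q.Prime ∧ 5 ≤ q ∧ ¬ q ∣ n ∧ V.valuation (q : ℂ) = 1 := by
  obtain ⟨q1, h1, hq1⟩ := Nat.exists_infinite_primes (n + 5)
  obtain ⟨q2, h2, hq2⟩ := Nat.exists_infinite_primes (q1 + 1)
  have hd : ∀ q : ℕ, n + 5 ≤ q → ¬ q ∣ n := fun q hq h => by
    have := Nat.le_of_dvd hn h
    omega
  by_cases hv : V.valuation (q1 : ℂ) = 1
  · exact ⟨q1, hq1, by omega, hd q1 h1, hv⟩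
  refine ⟨q2, hq2, by omega, hd q2 (by omega), ?_⟩
  by_contra hv2
  have l1 : V.valuation (q1 : ℂ) < 1 :=
    lt_of_le_of_ne (by exact_mod_cast liso_int_le V q1) hv
  have l2 : V.valuation (q2 : ℂ) < 1 :=
    lt_of_le_of_ne (by exact_mod_cast liso_int_le V q2) hv2
  have hc : IsCoprime (q1 : ℤ) (q2 : ℤ) :=
    Nat.isCoprime_iff_coprime.2 ((Nat.coprime_primes hq1 hq2).2 (by omega))
  obtain ⟨u, v, huv⟩ := hc
  have e1 : ((u : ℂ) * q1 + v * q2) = 1 := by exact_mod_cast huv
  have e2 : V.valuation ((u : ℂ) * q1 + v * q2) < 1 := by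
    refine (V.valuation.map_add _ _).trans_lt (max_lt ?_ ?_)
    · rw [map_mul]
      refine (mul_le_mul_left (liso_int_le V u) _).trans_lt ?_
      rwa [one_mul]
    · rw [map_mul]
      refine (mul_le_mul_left (liso_int_le V v) _).trans_lt ?_
      rwa [one_mul]
  rw [e1, map_one] at e2
  exact lt_irrefl _ e2

/-- the auxiliary point -/
private structure Aux (V : ValuationSubring ℂ) (L L' : PeriodPair) (e d e' d' w : ℂ) : Prop where
  j1 : ∀ j : ℕ, j = 1 ∨ j = 2 ∨ j = 3 → (j : ℂ) * w ∉ L'.lattice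
  j2 : ∀ j : ℕ, j = 1 ∨ j = 2 ∨ j = 3 → ¬ InE V L' e' d' (j * w)
  j3 : ∀ j : ℕ, j = 1 ∨ j = 2 ∨ j = 3 → ∀ s ∈ L'.lattice, ¬ InE V L e d (s + j * w)
  j4 : ∀ s ∈ L'.lattice, ¬ InE V L e d (s - w)

private lemma liso_aux (hL : CMlat L) (hL' : CMlat L') (hg : Good V L e d)
    (hg' : Good V L' e' d') (hle : L.lattice ≤ L'.lattice) :
    ∃ w, Aux V L L' e d e' d' w := by
  obtain ⟨q, hq, hq5, hqn, hqv⟩ := liso_prime V (idx L L') (idx_pos hle)
  have hq0 : (q : ℂ) ≠ 0 := Nat.cast_ne_zero.2 hq.ne_zero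
  set w : ℂ := L.ω₁ / q with hw
  have hqw : ∀ j : ℤ, (q : ℂ) * (j * w) ∈ L.lattice := by
    intro j
    have h1 : (q : ℂ) * (j * w) = j • L.ω₁ := by
      rw [hw, zsmul_eq_mul]
      field_simp
    rw [h1]
    exact L.lattice.smul_mem j L.ω₁_mem_lattice
  have hjL : ∀ j : ℤ, ¬ (q : ℤ) ∣ j → (j : ℂ) * w ∉ L.lattice := by
    intro j hj hmem
    have h1 : (j : ℂ) * w = ((j / q : ℚ) : ℂ) * L.ω₁ + ((0 : ℚ) : ℂ) * L.ω₂ := by
      rw [hw]
      push_cast
      field_simp
      ring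
    rw [h1, PeriodPair.mul_ω₁_add_mul_ω₂_mem_lattice] at hmem
    apply hj
    have h2 := (Rat.den_eq_one_iff _).1 hmem.1
    have h3 : (j : ℚ) = q * ((j / q : ℚ).num : ℚ) := by
      rw [h2]
      have : (q : ℚ) ≠ 0 := Nat.cast_ne_zero.2 hq.ne_zero
      field_simp
    exact ⟨_, by exact_mod_cast h3⟩
  have hjE : ∀ j : ℤ, ¬ (q : ℤ) ∣ j → ¬ InE V L e d (j * w) := fun j hj =>
    notInE_of_tors hL hg hqv (hqw j) (hjL j hj)
  have hjn : ∀ j : ℤ, ¬ (q : ℤ) ∣ j → ¬ (q : ℤ) ∣ (idx L L' : ℤ) * j := by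
    intro j hj h
    rcases (Nat.prime_iff_prime_int.1 hq).dvd_or_dvd h with h | h
    · exact hqn (by exact_mod_cast h)
    · exact hj h
  have hjL' : ∀ j : ℤ, ¬ (q : ℤ) ∣ j → (j : ℂ) * w ∉ L'.lattice := by
    intro j hj hmem
    have h1 := idx_smul_mem hle hmem
    apply hjL _ (hjn j hj)
    have h2 : (((idx L L' : ℤ) * j : ℤ) : ℂ) * w = (idx L L' : ℂ) * (j * w) := by
      push_cast
      ring
    rw [h2]
    exact h1
  have hjE' : ∀ j : ℤ, ¬ (q : ℤ) ∣ j → ¬ InE V L' e' d' (j * w) := fun j hj =>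
    notInE_of_tors hL' hg' hqv (hle (hqw j)) (hjL' j hj)
  have hs : ∀ j : ℤ, ¬ (q : ℤ) ∣ j → ∀ s ∈ L'.lattice, ¬ InE V L e d (s + j * w) := by
    intro j hj s hs hin
    have h1 := InE.nsmul hg hin (idx L L')
    have h2 : InE V L e d (-((idx L L' : ℂ) * s)) :=
      Or.inl (L.lattice.neg_mem (idx_smul_mem hle hs))
    have h3 := InE.add hg h1 h2
    apply hjE _ (hjn j hj)
    have h4 : (((idx L L' : ℤ) * j : ℤ) : ℂ) * w =
        (idx L L' : ℂ) * (s + j * w) + -((idx L L' : ℂ) * s) := by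
      push_cast
      ring
    rw [h4]
    exact h3
  have hj : ∀ j : ℕ, j = 1 ∨ j = 2 ∨ j = 3 → ¬ (q : ℤ) ∣ (j : ℤ) := by
    intro j hj h
    have h1 : q ∣ j := by exact_mod_cast h
    have h2 := Nat.le_of_dvd (by omega) h1
    omega
  refine ⟨w, ⟨fun j h => ?_, fun j h => ?_, fun j h s hs' => ?_, fun s hs' => ?_⟩⟩
  · have := hjL' j (hj j h)
    exact_mod_cast this
  · have := hjE' j (hj j h)
    exact_mod_cast this
  · have := hs j (hj j h) s hs'
    exact_mod_cast this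
  · have h1 : ¬ (q : ℤ) ∣ (-1 : ℤ) := by
      rw [Int.dvd_neg]
      exact_mod_cast hj 1 (Or.inl rfl)
    have := hs (-1) h1 s hs'
    rw [Int.cast_neg, Int.cast_one, neg_one_mul, ← sub_eq_add_neg] at this
    exact this

/-- the valuation of `℘ t - ℘ w` -/
private lemma liso_P (hg : Good V L e d) {t w : ℂ} (ht : t ∉ L.lattice) (hw : ¬ InE V L e d w)
    (h1 : ¬ InE V L e d (t - w)) (h2 : ¬ InE V L e d (t + w)) :
    V.valuation (℘[L] t - ℘[L] w) = V.valuation d * max 1 (V.valuation (xx L e d t)) := by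
  by_cases hin : InE V L e d t
  · rw [val_P_sub_of_in hg hin ht hw, max_eq_right]
    exact (hin.resolve_left ht).le
  · rw [val_P_sub hg hin hw h1 h2, max_eq_left (val_xx_le hin), mul_one]

private lemma liso_card (hR : IsReps L L' R) : R.card = (R.erase 0).card + 1 :=
  (Finset.card_erase_add_one hR.zero).symm

private lemma liso_notMem (hR : IsReps L L' R) {s : ℂ} (hs : s ∈ R.erase 0) : s ∉ L.lattice := by
  intro h
  exact Finset.ne_of_mem_erase hs (hR.inj s (Finset.mem_of_mem_erase hs) 0 hR.zero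
    (by rwa [sub_zero]))

private lemma liso_prod (hg : Good V L e d) (hR : IsReps L L' R) {w : ℂ}
    (ha : Aux V L L' e d e' d' w) :
    V.valuation (∏ s ∈ R.erase 0, (℘[L] s - ℘[L] w)) =
      V.valuation d ^ (R.erase 0).card *
        ∏ s ∈ R.erase 0, max 1 (V.valuation (xx L e d s)) := by
  have hw : ¬ InE V L e d w := by
    have := ha.j3 1 (Or.inl rfl) 0 L'.lattice.zero_mem
    simpa using this
  rw [map_prod, ← Finset.prod_const, ← Finset.prod_mul_distrib]
  refine Finset.prod_congr rfl fun s hs => ?_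
  have hsL' := hR.mem s (Finset.mem_of_mem_erase hs)
  refine liso_P hg (liso_notMem hR hs) hw (ha.j4 s hsL') ?_
  have := ha.j3 1 (Or.inl rfl) s hsL'
  simpa using this

/-- comparison of the discriminants of `L ⊆ L'` -/
theorem val_disc_isog (hL : CMlat L) (hL' : CMlat L') (hg : Good V L e d) (hg' : Good V L' e' d')
    (hR : IsReps L L' R) :
    V.valuation d' * ∏ s ∈ R.erase 0, max 1 (V.valuation (xx L e d s)) = V.valuation d := by
  obtain ⟨w, ha⟩ := liso_aux hL hL' hg hg' hR.le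
  have hd0 : V.valuation d ≠ 0 := (Valuation.ne_zero_iff _).2 hg.ne
  have hw : ¬ InE V L e d w := by
    have := ha.j3 1 (Or.inl rfl) 0 L'.lattice.zero_mem
    simpa using this
  have h2w : 2 * w ∉ L'.lattice := by
    have := ha.j1 2 (Or.inr (Or.inl rfl))
    exact_mod_cast this
  have hP := congrArg V.valuation (P_isog hR (w := w) (z := 2 * w) h2w h2w)
  rw [map_mul, liso_prod hg hR ha, map_prod] at hP
  have hl : V.valuation (℘[L'] (2 * w) - ℘[L'] w) = V.valuation d' := by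
    refine val_P_sub hg' ?_ ?_ ?_ ?_
    · have := ha.j2 2 (Or.inr (Or.inl rfl))
      exact_mod_cast this
    · have := ha.j2 1 (Or.inl rfl)
      simpa using this
    · have := ha.j2 1 (Or.inl rfl)
      have e1 : 2 * w - w = w := by ring
      rw [e1]
      simpa using this
    · have := ha.j2 3 (Or.inr (Or.inr rfl))
      have e1 : 2 * w + w = ((3 : ℕ) : ℂ) * w := by
        push_cast
        ring
      rw [e1]
      exact this
  have hr : ∏ s ∈ R, V.valuation (℘[L] (2 * w + s) - ℘[L] w) = V.valuation d ^ R.card := by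
    rw [← Finset.prod_const]
    refine Finset.prod_congr rfl fun s hs => ?_
    have hsL' := hR.mem s hs
    refine val_P_sub hg ?_ hw ?_ ?_
    · have := ha.j3 2 (Or.inr (Or.inl rfl)) s hsL'
      rw [add_comm]
      exact_mod_cast this
    · have := ha.j3 1 (Or.inl rfl) s hsL'
      have e1 : 2 * w + s - w = s + ((1 : ℕ) : ℂ) * w := by
        push_cast
        ring
      rw [e1]
      exact this
    · have := ha.j3 3 (Or.inr (Or.inr rfl)) s hsL'
      have e1 : 2 * w + s + w = s + ((3 : ℕ) : ℂ) * w := by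
        push_cast
        ring
      rw [e1]
      exact this
  rw [hl, hr, liso_card hR, pow_succ] at hP
  have h3 : V.valuation d ^ (R.erase 0).card ≠ 0 := pow_ne_zero _ hd0
  apply mul_left_cancel₀ h3
  rw [← hP]
  ac_rfl

/-- comparison of the coordinates of a point of the kernel of reduction -/
theorem val_xx_isog (hL : CMlat L) (hL' : CMlat L') (hg : Good V L e d) (hg' : Good V L' e' d')
    (hR : IsReps L L' R) {z : ℂ} (hz : InE V L e d z) (hz' : z ∉ L'.lattice) :
    V.valuation (xx L' e' d' z) =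
      V.valuation (xx L e d z) * ∏ s ∈ R.erase 0, max 1 (V.valuation (xx L e d (z + s))) := by
  obtain ⟨w, ha⟩ := liso_aux hL hL' hg hg' hR.le
  have hd0 : V.valuation d ≠ 0 := (Valuation.ne_zero_iff _).2 hg.ne
  have hd0' : V.valuation d' ≠ 0 := (Valuation.ne_zero_iff _).2 hg'.ne
  have hw : ¬ InE V L e d w := by
    have := ha.j3 1 (Or.inl rfl) 0 L'.lattice.zero_mem
    simpa using this
  have h2w : 2 * w ∉ L'.lattice := by
    have := ha.j1 2 (Or.inr (Or.inl rfl))
    exact_mod_cast this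
  have hzL : z ∉ L.lattice := fun h => hz' (hR.le h)
  have hz1 : 1 < V.valuation (xx L e d z) := hz.resolve_left hzL
  have hdisc := val_disc_isog hL hL' hg hg' hR
  have hP := congrArg V.valuation (P_isog hR (w := w) (z := z) h2w hz')
  rw [map_mul, liso_prod hg hR ha, map_prod] at hP
  have hr : ∏ s ∈ R, V.valuation (℘[L] (z + s) - ℘[L] w) =
      V.valuation d ^ R.card * ∏ s ∈ R, max 1 (V.valuation (xx L e d (z + s))) := by
    rw [← Finset.prod_const, ← Finset.prod_mul_distrib]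
    refine Finset.prod_congr rfl fun s hs => ?_
    have hsL' := hR.mem s hs
    refine liso_P hg (fun h => hz' ?_) hw (fun h => ?_) (fun h => ?_)
    · simpa using L'.lattice.sub_mem (hR.le h) hsL'
    · apply ha.j4 s hsL'
      have h1 := InE.add hg h (InE.neg hg hz)
      have e1 : z + s - w + -z = s - w := by ring
      rwa [e1] at h1
    · apply ha.j3 1 (Or.inl rfl) s hsL'
      have h1 := InE.add hg h (InE.neg hg hz)
      have e1 : z + s + w + -z = s + ((1 : ℕ) : ℂ) * w := by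
        push_cast
        ring
      rwa [e1] at h1
  have hr0 : ∏ s ∈ R, max 1 (V.valuation (xx L e d (z + s))) = V.valuation (xx L e d z) *
      ∏ s ∈ R.erase 0, max 1 (V.valuation (xx L e d (z + s))) := by
    rw [← Finset.mul_prod_erase R _ hR.zero, add_zero, max_eq_right hz1.le]
  rw [hr, hr0, liso_card hR, pow_succ] at hP
  set m := (R.erase 0).card
  set P := ∏ s ∈ R.erase 0, max 1 (V.valuation (xx L e d s)) with hPdef
  set Q := ∏ s ∈ R.erase 0, max 1 (V.valuation (xx L e d (z + s))) with hQdef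
  set X := V.valuation (xx L e d z) with hX
  have hP0 : P ≠ 0 := by
    intro h
    rw [h, mul_zero] at hdisc
    exact hd0 hdisc.symm
  have h3 : V.valuation d ^ m ≠ 0 := pow_ne_zero _ hd0
  have h4 : V.valuation (℘[L'] z - ℘[L'] w) = V.valuation d' * (X * Q) := by
    apply mul_left_cancel₀ (mul_ne_zero h3 hP0)
    calc V.valuation d ^ m * P * V.valuation (℘[L'] z - ℘[L'] w)
        = V.valuation (℘[L'] z - ℘[L'] w) * (V.valuation d ^ m * P) := by ac_rfl
      _ = V.valuation d ^ m * V.valuation d * (X * Q) := hP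
      _ = V.valuation d ^ m * (V.valuation d' * P) * (X * Q) := by rw [hdisc]
      _ = _ := by ac_rfl
  have h5 : xx L' e' d' z - xx L' e' d' w = (℘[L'] z - ℘[L'] w) / d' := by
    rw [xx, xx]
    ring
  have h6 : V.valuation (xx L' e' d' z - xx L' e' d' w) = X * Q := by
    rw [h5, map_div₀, h4, mul_div_cancel_left₀ _ hd0']
  have hQ1 : 1 ≤ Q := by
    rw [hQdef]
    exact Finset.one_le_prod' fun s _ => le_max_left _ _
  have hXQ : 1 < X * Q := by
    calc 1 < X := hz1
      _ = X * 1 := (mul_one X).symm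
      _ ≤ X * Q := mul_le_mul_right hQ1 X
  have hw' : V.valuation (xx L' e' d' w) ≤ 1 := by
    apply val_xx_le
    have := ha.j2 1 (Or.inl rfl)
    simpa using this
  have h7 : V.valuation (xx L' e' d' z) =
      V.valuation (xx L' e' d' z - xx L' e' d' w + xx L' e' d' w) := by
    rw [sub_add_cancel]
  rw [h7, Valuation.map_add_eq_of_lt_left _ (by rw [h6]; exact hw'.trans_lt hXQ), h6]

theorem InE.isog (hL : CMlat L) (hL' : CMlat L') (hg : Good V L e d) (hg' : Good V L' e' d')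
    (hle : L.lattice ≤ L'.lattice) {z : ℂ} (hz : InE V L e d z) : InE V L' e' d' z := by
  by_cases hz' : z ∈ L'.lattice
  · exact Or.inl hz'
  · obtain ⟨R, hR⟩ := exists_reps hle
    right
    rw [val_xx_isog hL hL' hg hg' hR hz hz']
    have hz1 : 1 < V.valuation (xx L e d z) := hz.resolve_left fun h => hz' (hle h)
    have hQ1 : 1 ≤ ∏ s ∈ R.erase 0, max 1 (V.valuation (xx L e d (z + s))) :=
      Finset.one_le_prod' fun s _ => le_max_left _ _
    calc 1 < V.valuation (xx L e d z) := hz1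
      _ = V.valuation (xx L e d z) * 1 := (mul_one _).symm
      _ ≤ _ := mul_le_mul_right hQ1 _

/-- isogenies of degree prime to `V` do not change the valuation on the kernel of reduction -/
theorem val_xx_eq (hL : CMlat L) (hL' : CMlat L') (hg : Good V L e d) (hg' : Good V L' e' d')
    (hle : L.lattice ≤ L'.lattice) (hi : V.valuation (idx L L' : ℂ) = 1) {z : ℂ}
    (hz : InE V L e d z) (hz0 : z ∉ L.lattice) :
    z ∉ L'.lattice ∧ V.valuation (xx L' e' d' z) = V.valuation (xx L e d z) := by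
  have hk : ∀ s ∈ L'.lattice, s ∉ L.lattice → ¬ InE V L e d s := fun s hs hs0 =>
    notInE_of_tors hL hg hi (idx_smul_mem hle hs) hs0
  have hz' : z ∉ L'.lattice := fun h => hk z h hz0 hz
  refine ⟨hz', ?_⟩
  obtain ⟨R, hR⟩ := exists_reps hle
  rw [val_xx_isog hL hL' hg hg' hR hz hz', Finset.prod_eq_one, mul_one]
  intro s hs
  apply max_eq_left
  apply val_xx_le
  intro h
  apply hk s (hR.mem s (Finset.mem_of_mem_erase hs)) (liso_notMem hR hs)
  have h1 := InE.add hg h (InE.neg hg hz)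
  have e1 : z + s + -z = s := by ring
  rwa [e1] at h1

/-- the period pair divided by `a` -/
private def divP (L : PeriodPair) {a : ℂ} (ha : a ≠ 0) : PeriodPair where
  ω₁ := a⁻¹ * L.ω₁
  ω₂ := a⁻¹ * L.ω₂
  indep := by
    rw [LinearIndependent.pair_iff]
    intro s t h
    have h1 := LinearIndependent.pair_iff.1 L.indep s t
    apply h1
    have h2 : a * (s • (a⁻¹ * L.ω₁) + t • (a⁻¹ * L.ω₂)) = 0 := by rw [h, mul_zero]
    rw [Complex.real_smul, Complex.real_smul] at h2 ⊢
    rw [← h2]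
    field_simp

private lemma divP_mem (L : PeriodPair) {a : ℂ} (ha : a ≠ 0) (z : ℂ) :
    z ∈ (divP L ha).lattice ↔ a * z ∈ L.lattice := by
  rw [PeriodPair.mem_lattice, PeriodPair.mem_lattice]
  constructor
  · rintro ⟨m, n, h⟩
    refine ⟨m, n, ?_⟩
    rw [← h]
    show _ = a * (m * (a⁻¹ * L.ω₁) + n * (a⁻¹ * L.ω₂))
    field_simp
  · rintro ⟨m, n, h⟩
    refine ⟨m, n, ?_⟩
    apply mul_left_cancel₀ ha
    rw [← h]
    show a * (m * (a⁻¹ * L.ω₁) + n * (a⁻¹ * L.ω₂)) = _
    field_simp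

private lemma liso_cm {a : ℂ} (h : ∀ z, z ∈ L'.lattice ↔ a * z ∈ L.lattice)
    (hL : CMlat L) : CMlat L' := by
  obtain ⟨α, hα, hl⟩ := hL
  refine ⟨α, hα, fun l hl' => ?_⟩
  rw [h] at hl' ⊢
  have h1 := hl _ hl'
  have e1 : a * (α * l) = α * (a * l) := by ring
  rw [e1]
  exact h1

private lemma liso_hom {a : ℂ} (ha : a ≠ 0) (h : ∀ z, z ∈ L'.lattice ↔ a * z ∈ L.lattice) (z : ℂ) :
    a⁻¹ * z ∈ L'.lattice ↔ z ∈ L.lattice := by
  rw [h, mul_inv_cancel_left₀ ha]

/-- the kernel of reduction is stable under complex multiplication -/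
theorem InE.mul (hL : CMlat L) (hg : Good V L e d) {a : ℂ} (ha : ∀ l ∈ L.lattice, a * l ∈ L.lattice)
    {z : ℂ} (hz : InE V L e d z) : InE V L e d (a * z) := by
  rcases eq_or_ne a 0 with h0 | h0
  · rw [h0, zero_mul]
    exact Or.inl L.lattice.zero_mem
  have hmem := divP_mem L h0
  have hhom := liso_hom h0 hmem
  have hc : a⁻¹ ≠ 0 := inv_ne_zero h0
  have h1 := InE.isog hL (liso_cm hmem hL) hg (Good.homothety hc hhom hg)
    (fun l hl => (hmem l).2 (ha l hl)) hz
  rcases h1 with h1 | h1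
  · exact Or.inl ((hmem z).1 h1)
  · right
    have h2 := xx_homothety hc hhom e d (a * z)
    rw [inv_mul_cancel_left₀ h0] at h2
    rwa [h2] at h1

/-- the case of multiplication by `a` -/
theorem val_mul_isog (hL : CMlat L) (hg : Good V L e d) {a : ℂ} (ha0 : a ≠ 0)
    (h : ∀ z, z ∈ L'.lattice ↔ a * z ∈ L.lattice) (hR : IsReps L L' R) :
    V.valuation a ^ 2 * ∏ s ∈ R.erase 0, max 1 (V.valuation (xx L e d s)) = 1 := by
  have hhom := liso_hom ha0 h
  have hc : a⁻¹ ≠ 0 := inv_ne_zero ha0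
  have h1 := val_disc_isog hL (liso_cm h hL) hg (Good.homothety hc hhom hg) hR
  have hd0 : V.valuation d ≠ 0 := (Valuation.ne_zero_iff _).2 hg.ne
  apply mul_left_cancel₀ hd0
  rw [mul_one]
  conv_rhs => rw [← h1]
  have e1 : d / a⁻¹ ^ 2 = d * a ^ 2 := by field_simp
  rw [e1, map_mul, map_pow]
  ac_rfl

end Pool.Agent.CMR
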