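import Pool.Agent.CMR.LIso
import Pool.Agent.CMR.ZLat

/-!
# L-KER the kernel of reduction contains the torsion of the prime under V

`𝓞 k` is in every `V` (integral elements). Let `h ≥ 1` with `𝔭^h = (α)` (class number). `|α| < 1`. `L = 𝔤⁻¹`, `L' = α⁻¹ L = LatI (𝔤 𝔭^h)`; by
`val_mul_isog`: `|α|² ∏_{s ∈ R, s ≠ 0} max(1, |xx s|) = 1`, so some `s ∈ L' ∖ L` has `|xx s| > 1`, `s ∈ InE`. Let `J` be the `𝓞 k`-module generated by
`L` and `s` (inside `k`): a fractional ideal with `𝔤⁻¹ ⊊ J ⊆ (𝔤 𝔭^h)⁻¹`, so `J⁻¹ = 𝔤 𝔭^j` with `1 ≤ j ≤ h` (`J⁻¹ 𝔤⁻¹` divides `𝔭^h`, i.e. `J⁻¹ = 𝔤 𝔟`, `𝔟 ∣ 𝔭^h`,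
`𝔟 ≠ 1`; prime powers), hence `(𝔤𝔭)⁻¹ ⊆ J`. `J ⊆ InE` because `InE` is a subgroup (`InE.add`) containing `L` stable under `𝓞 k` (`InE.mul`).
`notInE_of_prime`: `𝔮^{m h} = (β)` with `h` the class number (`m ≥ 1`); `|β| = 1`: otherwise the prime ideal `{x : |x| < 1}` of `𝓞 k` contains `β`, so it contains `𝔮`, contradiction
with `hV`. `s ∈ β⁻¹ L ∖ L`; by `val_mul_isog` with a system of representatives, `∏ max(1, |xx s'|) = 1`, so all factors are `1`; `s` is congruent to a representative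
modulo `L` (`InE` and `xx` are `L`-periodic).
-/

set_option autoImplicit false

noncomputable section

open NumberField
open scoped PeriodPair

namespace Pool.Agent.CMR

open scoped nonZeroDivisors

section Alg

variable {A K : Type} [CommRing A] [IsDedekindDomain A] [Field K] [Algebra A K]
  [IsFractionRing A K]

/-- `x 𝔤 ⊆ A` -/
private def MI (K : Type) {A : Type} [CommRing A] [IsDedekindDomain A] [Field K] [Algebra A K]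
    [IsFractionRing A K] (𝔤 : Ideal A) (x : K) : Prop :=
  FractionalIdeal.spanSingleton A⁰ x * (𝔤 : FractionalIdeal A⁰ K) ≤ 1

private lemma mi_iff (𝔤 : Ideal A) (x : K) :
    MI K 𝔤 x ↔ ∀ g ∈ 𝔤, ∃ y : A, algebraMap A K g * x = algebraMap A K y := by
  unfold MI
  rw [FractionalIdeal.spanSingleton_mul_le_iff]
  constructor
  · intro h g hg
    obtain ⟨y, hy⟩ := (FractionalIdeal.mem_one_iff A⁰).1
      (h (algebraMap A K g) (FractionalIdeal.mem_coeIdeal_of_mem A⁰ hg))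
    exact ⟨y, by rw [hy, mul_comm]⟩
  · intro h z hz
    obtain ⟨g, hg, rfl⟩ := (FractionalIdeal.mem_coeIdeal A⁰).1 hz
    obtain ⟨y, hy⟩ := h g hg
    exact (FractionalIdeal.mem_one_iff A⁰).2 ⟨y, by rw [← hy, mul_comm]⟩

private lemma mi_main {𝔤 𝔭 : Ideal A} (h𝔤 : 𝔤 ≠ ⊥) (hp : 𝔭.IsPrime) (hp0 : 𝔭 ≠ ⊥) {h : ℕ}
    {x : K} (hx : MI K (𝔤 * 𝔭 ^ h) x) (hx0 : ¬ MI K 𝔤 x) {y : K} (hy : MI K (𝔤 * 𝔭) y) :
    ∃ (a : A) (l : K), MI K 𝔤 l ∧ y = algebraMap A K a * x + l := by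
  have hpP : Prime 𝔭 := Ideal.prime_of_isPrime hp0 hp
  unfold MI at hx hx0 hy
  rw [FractionalIdeal.coeIdeal_mul, FractionalIdeal.coeIdeal_pow, ← mul_assoc] at hx
  rw [FractionalIdeal.coeIdeal_mul, ← mul_assoc] at hy
  have hg0 : (𝔤 : FractionalIdeal A⁰ K) ≠ 0 := FractionalIdeal.coeIdeal_ne_zero.2 h𝔤
  have hpp0 : (𝔭 : FractionalIdeal A⁰ K) ≠ 0 := FractionalIdeal.coeIdeal_ne_zero.2 hp0
  obtain ⟨𝔞, h𝔞⟩ := FractionalIdeal.le_one_iff_exists_coeIdeal.1 hx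
  have hdvd : 𝔞 ⊔ 𝔭 ^ h ∣ 𝔭 ^ h := Ideal.dvd_iff_le.2 le_sup_right
  obtain ⟨i, hi, hass⟩ := (dvd_prime_pow hpP h).1 hdvd
  rw [associated_iff_eq] at hass
  have hih : i < h := by
    refine lt_of_le_of_ne hi fun hc => hx0 ?_
    rw [hc] at hass
    have h1 : 𝔞 ≤ 𝔭 ^ h := le_sup_left.trans hass.le
    have h2 : (𝔞 : FractionalIdeal A⁰ K) ≤ ((𝔭 ^ h : Ideal A) : FractionalIdeal A⁰ K) :=
      (FractionalIdeal.coeIdeal_le_coeIdeal K).2 h1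
    rw [h𝔞, FractionalIdeal.coeIdeal_pow] at h2
    have h3 := mul_le_mul_left h2 ((𝔭 : FractionalIdeal A⁰ K) ^ h)⁻¹
    rw [mul_assoc, mul_inv_cancel₀ (pow_ne_zero _ hpp0), mul_one] at h3
    exact h3
  obtain ⟨h', rfl⟩ : ∃ h', h = h' + 1 := ⟨h - 1, by omega⟩
  set G : FractionalIdeal A⁰ K := (𝔤 : FractionalIdeal A⁰ K) with hG
  set P : FractionalIdeal A⁰ K := (𝔭 : FractionalIdeal A⁰ K) with hP
  have hle : P ^ h' ≤ FractionalIdeal.spanSingleton A⁰ x * G * P ^ (h' + 1) + P ^ (h' + 1) := by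
    have h1 : 𝔭 ^ h' ≤ 𝔞 ⊔ 𝔭 ^ (h' + 1) := by
      rw [hass]
      exact Ideal.pow_le_pow_right (by omega)
    have h2 : ((𝔭 ^ h' : Ideal A) : FractionalIdeal A⁰ K) ≤
        ((𝔞 ⊔ 𝔭 ^ (h' + 1) : Ideal A) : FractionalIdeal A⁰ K) :=
      (FractionalIdeal.coeIdeal_le_coeIdeal K).2 h1
    rw [FractionalIdeal.coeIdeal_sup, h𝔞, FractionalIdeal.coeIdeal_pow,
      FractionalIdeal.coeIdeal_pow] at h2
    exact h2
  have h5 : FractionalIdeal.spanSingleton A⁰ y * G * P ^ (h' + 1) ≤ P ^ h' := by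
    have h6 := mul_le_mul_left hy (P ^ h')
    rw [one_mul, mul_assoc (FractionalIdeal.spanSingleton A⁰ y * G) P (P ^ h'), ← pow_succ'] at h6
    exact h6
  have h7 := h5.trans hle
  have h8 : FractionalIdeal.spanSingleton A⁰ x * G * P ^ (h' + 1) + P ^ (h' + 1) =
      (FractionalIdeal.spanSingleton A⁰ x + G⁻¹) * (G * P ^ (h' + 1)) := by
    rw [add_mul, ← mul_assoc G⁻¹, inv_mul_cancel₀ hg0, one_mul, mul_assoc]
  rw [h8, mul_assoc] at h7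
  have h9 := mul_le_mul_left h7 (G * P ^ (h' + 1))⁻¹
  have hGP : G * P ^ (h' + 1) ≠ 0 := mul_ne_zero hg0 (pow_ne_zero _ hpp0)
  rw [mul_assoc, mul_inv_cancel₀ hGP, mul_one, mul_assoc, mul_inv_cancel₀ hGP, mul_one] at h9
  have h10 := (FractionalIdeal.spanSingleton_le_iff_mem).1 h9
  obtain ⟨u, hu, l, hl, hul⟩ := (FractionalIdeal.mem_add _ _ _).1 h10
  obtain ⟨a, rfl⟩ := (FractionalIdeal.mem_spanSingleton A⁰).1 hu
  refine ⟨a, l, ?_, ?_⟩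
  · unfold MI
    have h11 := mul_le_mul_left ((FractionalIdeal.spanSingleton_le_iff_mem).2 hl) G
    rw [inv_mul_cancel₀ hg0] at h11
    exact h11
  · rw [← hul, Algebra.smul_def]

private lemma exists_pow_principal [Finite (ClassGroup A)] {I : Ideal A} (hI : I ≠ ⊥) :
    ∃ (h : ℕ) (α : A), 0 < h ∧ α ≠ 0 ∧ I ^ h = Ideal.span {α} := by
  obtain ⟨n, hn, h1⟩ := isOfFinOrder_iff_pow_eq_one.1
    (isOfFinOrder_of_finite (ClassGroup.mk0 ⟨I, mem_nonZeroDivisors_of_ne_zero hI⟩))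
  rw [← map_pow, SubmonoidClass.mk_pow, ClassGroup.mk0_eq_one_iff] at h1
  obtain ⟨α, hα⟩ := h1
  rw [Ideal.submodule_span_eq] at hα
  refine ⟨n, α, hn, ?_, hα⟩
  rintro rfl
  rw [Ideal.span_singleton_eq_bot.2 rfl] at hα
  exact hI (eq_bot_iff.2 (by
    have := pow_eq_zero_iff (n := n) (a := I) (by omega)
    exact (this.1 hα).le))

end Alg

variable {V : ValuationSubring ℂ} {k : Type} [Field k] [NumberField k] [Algebra k ℂ]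

private lemma memInv_iff (𝔤 : Ideal (𝓞 k)) (z : ℂ) :
    MemInv 𝔤 z ↔ ∃ x : k, algebraMap k ℂ x = z ∧ MI k 𝔤 x := by
  unfold MemInv
  constructor
  · rintro ⟨x, h1, h2⟩
    exact ⟨x, h1, (mi_iff 𝔤 x).2 h2⟩
  · rintro ⟨x, h1, h2⟩
    exact ⟨x, h1, (mi_iff 𝔤 x).1 h2⟩

private lemma mem_mul_iff (hk : IsIQ k) {𝔤 𝔠 : Ideal (𝓞 k)} (h𝔤 : 𝔤 ≠ ⊥) (h𝔠 : 𝔠 ≠ ⊥) {α : 𝓞 k}
    (hα0 : α ≠ 0) (hα : 𝔠 = Ideal.span {α}) (z : ℂ) :
    z ∈ (LatI (𝔤 * 𝔠)).lattice ↔ algebraMap k ℂ (α : k) * z ∈ (LatI 𝔤).lattice := by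
  have h := LatI_homothety hk (𝔤 := 𝔤 * 𝔠) (𝔥 := 𝔤) (mul_ne_zero h𝔤 h𝔠) (a := 1) (b := α)
    one_ne_zero hα0 (by rw [Ideal.span_singleton_one, Ideal.top_mul, hα, mul_comm]) z
  rw [← h]
  simp

private lemma alg_ne {α : 𝓞 k} (h : α ≠ 0) : algebraMap k ℂ (α : k) ≠ 0 := by
  rw [Ne, map_eq_zero]
  exact fun h0 => h (by exact_mod_cast h0)

/-- the kernel of reduction contains the `𝔭`-torsion, for the prime `𝔭` under `V` -/
theorem inE_of_prime (hk : IsIQ k) {𝔤 𝔭 : Ideal (𝓞 k)} (h𝔤 : 𝔤 ≠ ⊥) (hp : 𝔭.IsPrime) (hp0 : 𝔭 ≠ ⊥)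
    (hV : ∀ x ∈ 𝔭, V.valuation (algebraMap k ℂ (x : k)) < 1) {e d : ℂ}
    (hg : Good V (LatI 𝔤) e d) {s : ℂ} (hs : s ∈ (LatI (𝔤 * 𝔭)).lattice) :
    InE V (LatI 𝔤) e d s := by
  obtain ⟨h, α, hh, hα0, hα⟩ := exists_pow_principal hp0
  have hph : 𝔭 ^ h ≠ ⊥ := pow_ne_zero h hp0
  have hαV : V.valuation (algebraMap k ℂ (α : k)) < 1 := by
    refine hV α (Ideal.pow_le_self (by omega) (I := 𝔭) (n := h) ?_)
    rw [hα]
    exact Ideal.mem_span_singleton_self α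
  have hle := LatI_le hk h𝔤 hph
  have hCM := CMlat_LatI hk h𝔤
  obtain ⟨R, hR⟩ := exists_reps hle
  have hprod := val_mul_isog hCM hg (alg_ne hα0) (mem_mul_iff hk h𝔤 hph hα0 hα) hR
  obtain ⟨s₀, hs₀R, hs₀⟩ : ∃ s₀ ∈ R.erase 0, 1 < V.valuation (xx (LatI 𝔤) e d s₀) := by
    by_contra hcon
    push Not at hcon
    rw [Finset.prod_eq_one (fun s hs => max_eq_left (hcon s hs)), mul_one] at hprod
    exact (pow_lt_one₀ zero_le hαV (by norm_num)).ne hprod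
  rw [Finset.mem_erase] at hs₀R
  have hs₀L' := hR.mem s₀ hs₀R.2
  have hs₀L : s₀ ∉ (LatI 𝔤).lattice := by
    intro hc
    exact hs₀R.1 (hR.inj s₀ hs₀R.2 0 hR.zero (by rw [sub_zero]; exact hc))
  rw [mem_LatI hk (mul_ne_zero h𝔤 hph), memInv_iff] at hs₀L'
  obtain ⟨x₀, hx₀, hx₀I⟩ := hs₀L'
  have hx₀N : ¬ MI k 𝔤 x₀ := by
    intro hc
    exact hs₀L ((mem_LatI hk h𝔤 s₀).2 ((memInv_iff 𝔤 s₀).2 ⟨x₀, hx₀, hc⟩))
  rw [mem_LatI hk (mul_ne_zero h𝔤 hp0), memInv_iff] at hs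
  obtain ⟨y, hy, hyI⟩ := hs
  obtain ⟨a, l, hl, hyal⟩ := mi_main h𝔤 hp hp0 hx₀I hx₀N hyI
  have h1 : InE V (LatI 𝔤) e d (algebraMap k ℂ (a : k) * s₀) :=
    InE.mul hCM hg (fun l hl => mul_mem_LatI hk h𝔤 a hl) (Or.inr hs₀)
  have h2 : InE V (LatI 𝔤) e d (algebraMap k ℂ l) :=
    Or.inl ((mem_LatI hk h𝔤 _).2 ((memInv_iff 𝔤 _).2 ⟨l, rfl, hl⟩))
  have h3 := InE.add hg h1 h2
  rw [← hx₀, ← map_mul, ← map_add] at h3
  rw [← hy, hyal]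
  exact h3

/-- it contains no point of order a power of another prime -/
theorem notInE_of_prime (hk : IsIQ k) {𝔤 𝔮 : Ideal (𝓞 k)} (h𝔤 : 𝔤 ≠ ⊥) (hq : 𝔮.IsPrime)
    (hq0 : 𝔮 ≠ ⊥) (hV : ∃ x ∈ 𝔮, V.valuation (algebraMap k ℂ (x : k)) = 1)
    (hV' : ∀ x : 𝓞 k, V.valuation (algebraMap k ℂ (x : k)) ≤ 1) {e d : ℂ}
    (hg : Good V (LatI 𝔤) e d) {m : ℕ} {s : ℂ} (hs : s ∈ (LatI (𝔤 * 𝔮 ^ m)).lattice)
    (hs0 : s ∉ (LatI 𝔤).lattice) : ¬ InE V (LatI 𝔤) e d s := by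
  obtain ⟨h, β₀, hh, hβ₀0, hβ₀⟩ := exists_pow_principal hq0
  obtain ⟨x, hx, hxV⟩ := hV
  -- the generator is a unit of `V`
  have hβ₀V : V.valuation (algebraMap k ℂ (β₀ : k)) = 1 := by
    have h1 : x ^ h ∈ Ideal.span {β₀} := by
      rw [← hβ₀]
      exact Ideal.pow_mem_pow hx h
    obtain ⟨c, hc⟩ := Ideal.mem_span_singleton.1 h1
    have h2 := congrArg (fun t : 𝓞 k => V.valuation (algebraMap k ℂ (t : k))) hc
    simp only [map_pow, map_mul, hxV, one_pow] at h2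
    refine le_antisymm (hV' β₀) ?_
    rw [h2]
    exact mul_le_of_le_one_right' (hV' c)
  set β : 𝓞 k := β₀ ^ m with hβdef
  have hβ0 : β ≠ 0 := pow_ne_zero m hβ₀0
  have hβ : 𝔮 ^ m * 𝔮 ^ (m * (h - 1)) = Ideal.span {β} := by
    rw [← pow_add, hβdef, ← Ideal.span_singleton_pow, ← hβ₀, ← pow_mul]
    congr 1
    obtain ⟨h', rfl⟩ : ∃ h', h = h' + 1 := ⟨h - 1, by omega⟩
    rw [Nat.add_sub_cancel]
    ring
  have hβV : V.valuation (algebraMap k ℂ (β : k)) = 1 := by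
    have : ((β : 𝓞 k) : k) = (β₀ : k) ^ m := by
      rw [hβdef]
      push_cast
      rfl
    rw [this, map_pow, map_pow, hβ₀V, one_pow]
  have hq1 : 𝔮 ^ m ≠ ⊥ := pow_ne_zero _ hq0
  have hq2 : 𝔮 ^ (m * (h - 1)) ≠ ⊥ := pow_ne_zero _ hq0
  have hq3 : 𝔮 ^ m * 𝔮 ^ (m * (h - 1)) ≠ ⊥ := mul_ne_zero hq1 hq2
  have hle := LatI_le hk h𝔤 hq3
  have hCM := CMlat_LatI hk h𝔤
  obtain ⟨R, hR⟩ := exists_reps hle
  have hprod := val_mul_isog hCM hg (alg_ne hβ0) (mem_mul_iff hk h𝔤 hq3 hβ0 hβ) hR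
  rw [hβV, one_pow, one_mul] at hprod
  have hs' : s ∈ (LatI (𝔤 * (𝔮 ^ m * 𝔮 ^ (m * (h - 1))))).lattice := by
    have := LatI_le hk (𝔤 := 𝔤 * 𝔮 ^ m) (𝔠 := 𝔮 ^ (m * (h - 1))) (mul_ne_zero h𝔤 hq1) hq2 hs
    rw [mul_assoc] at this
    exact this
  obtain ⟨t, htR, ht⟩ := hR.ex s hs'
  have ht0 : t ≠ 0 := by
    rintro rfl
    rw [sub_zero] at ht
    exact hs0 ht
  have hmax : max 1 (V.valuation (xx (LatI 𝔤) e d t)) = 1 := by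
    refine le_antisymm ?_ (le_max_left _ _)
    have h1 := Finset.single_le_prod' (f := fun s => max 1 (V.valuation (xx (LatI 𝔤) e d s)))
      (s := R.erase 0) (fun i _ => le_max_left _ _) (Finset.mem_erase.2 ⟨ht0, htR⟩)
    rw [hprod] at h1
    exact h1
  have hxx : xx (LatI 𝔤) e d s = xx (LatI 𝔤) e d t := by
    unfold xx
    have h1 : ℘[LatI 𝔤] s = ℘[LatI 𝔤] t := by
      have := (LatI 𝔤).weierstrassP_add_coe t ⟨s - t, ht⟩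
      simp only [add_sub_cancel] at this
      exact this
    rw [h1]
  rintro (hE | hE)
  · exact hs0 hE
  · rw [hxx] at hE
    exact absurd (le_max_right 1 (V.valuation (xx (LatI 𝔤) e d t))) (not_le.2 (by
      rw [hmax]
      exact hE))

end Pool.Agent.CMR
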