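import Pool.Agent.CMR.LIso
import Pool.Agent.CMR.IA2

/-!
# L-PSI valuations of Psi

`Psi_eq`: `Psi L L' z = ∏_{s ∈ R} -℘'(s)²/((℘ s - ℘ 2s)² (℘ z - ℘ s))`, `R` a half system, `card R = (idx - 1)/2`. Every `s ∈ R` is torsion of order dividing
`n = idx L L'` with `|n| = 1`, `n` prime to `6`: `s, 2s, 3s ∉ L`, so they are not in `InE` (`notInE_of_tors`): `|℘'(s)|² = |d|³` (`val_dP`),
`|℘ s - ℘ 2s| = |d|` (`val_P_sub`: `s - 2s = -s`, `s + 2s = 3s`). `|℘ z - ℘ s| = |d|` in the first case (`z ± s ∉ InE`, `s ∈ L'`), and `|d| |xx z|`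
in the second (`val_P_sub_of_in`). (In the second case `z ∉ L'`: otherwise `z` would be torsion of order dividing `n`.)
-/

set_option autoImplicit false

noncomputable section

open NumberField
open scoped PeriodPair

namespace Pool.Agent.CMR

variable {V : ValuationSubring ℂ} {L L' : PeriodPair} {e d : ℂ}

private lemma odd_of_coprime {n : ℕ} (hc : n.Coprime 6) : Odd n := by
  rcases Nat.even_or_odd n with h | h
  · exfalso
    have h2 : 2 ∣ Nat.gcd n 6 := Nat.dvd_gcd h.two_dvd (by norm_num)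
    rw [Nat.Coprime.gcd_eq_one hc] at h2
    omega
  · exact h

private lemma mul_mem_lattice' {L : PeriodPair} {z : ℂ} (m : ℤ) (h : z ∈ L.lattice) :
    (m : ℂ) * z ∈ L.lattice := by
  have := L.lattice.smul_mem m h
  rwa [zsmul_eq_mul] at this

/-- the points of a half system are far from the kernel of reduction -/
private lemma half_facts (hL : CMlat L) (hg : Good V L e d) (hle : L.lattice ≤ L'.lattice)
    (hc : (idx L L').Coprime 6) (hi : V.valuation (idx L L' : ℂ) = 1) {R : Finset ℂ}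
    (hR : IsHalf L L' R) {s : ℂ} (hs : s ∈ R) :
    ¬ InE V L e d s ∧ ¬ InE V L e d (2 * s) ∧ ¬ InE V L e d (s + 2 * s) := by
  have hsn : (idx L L' : ℂ) * s ∈ L.lattice := idx_smul_mem hle (hR.mem s hs)
  have h1 : s ∉ L.lattice := hR.notMem s hs
  have h2 : 2 * s ∉ L.lattice := hR.two_mul_notMem (odd_of_coprime hc) hs
  have h3 : s + 2 * s ∉ L.lattice := by
    intro h
    have hcop : (idx L L').Coprime 3 := Nat.Coprime.coprime_dvd_right (by norm_num) hc
    have hb := Nat.gcd_eq_gcd_ab (idx L L') 3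
    rw [Nat.Coprime.gcd_eq_one hcop] at hb
    apply h1
    have h4 := L.lattice.add_mem (mul_mem_lattice' (Nat.gcdA (idx L L') 3) hsn)
      (mul_mem_lattice' (Nat.gcdB (idx L L') 3) h)
    have h5 : (1 : ℂ) = (idx L L' : ℂ) * (Nat.gcdA (idx L L') 3 : ℤ) +
        3 * (Nat.gcdB (idx L L') 3 : ℤ) := by
      exact_mod_cast hb
    have e : ((Nat.gcdA (idx L L') 3 : ℤ) : ℂ) * ((idx L L' : ℂ) * s) +
        ((Nat.gcdB (idx L L') 3 : ℤ) : ℂ) * (s + 2 * s) = s := by
      linear_combination -s * h5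
    rwa [e] at h4
  refine ⟨notInE_of_tors hL hg hi hsn h1, notInE_of_tors hL hg hi ?_ h2,
    notInE_of_tors hL hg hi ?_ h3⟩
  · have := mul_mem_lattice' 2 hsn
    have e : ((2 : ℤ) : ℂ) * ((idx L L' : ℂ) * s) = (idx L L' : ℂ) * (2 * s) := by
      push_cast
      ring
    rwa [e] at this
  · have := mul_mem_lattice' 3 hsn
    have e : ((3 : ℤ) : ℂ) * ((idx L L' : ℂ) * s) = (idx L L' : ℂ) * (s + 2 * s) := by
      push_cast
      ring
    rwa [e] at this

/-- the factor of a point of a half system -/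
private lemma val_factor (hL : CMlat L) (hg : Good V L e d) (hle : L.lattice ≤ L'.lattice)
    (hc : (idx L L').Coprime 6) (hi : V.valuation (idx L L' : ℂ) = 1) {R : Finset ℂ}
    (hR : IsHalf L L' R) {s : ℂ} (hs : s ∈ R) {z : ℂ} {x : V.ValueGroup} (hx : x ≠ 0)
    (h : V.valuation (℘[L] z - ℘[L] s) = V.valuation d * x) :
    V.valuation (-(℘'[L] s ^ 2) / ((℘[L] s - ℘[L] (2 * s)) ^ 2 * (℘[L] z - ℘[L] s))) = x⁻¹ := by
  obtain ⟨k1, k2, k3⟩ := half_facts hL hg hle hc hi hR hs
  have k4 : ¬ InE V L e d (s - 2 * s) := by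
    intro h4
    have h5 := h4.neg hg
    have e : -(s - 2 * s) = s := by ring
    rw [e] at h5
    exact k1 h5
  have e1 := val_dP hg k1 k2
  have e2 := val_P_sub hg k1 k2 k4 k3
  have hd : V.valuation d ≠ 0 := (Valuation.ne_zero_iff _).2 hg.ne
  rw [map_div₀, Valuation.map_neg, map_pow, map_mul, map_pow, e1, e2, h]
  generalize V.valuation d = D at hd
  have e3 : D ^ 2 * (D * x) = D ^ 3 * x := by
    rw [← mul_assoc, ← pow_succ]
  rw [e3, div_mul_eq_div_div, div_self (pow_ne_zero _ hd), one_div]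

/-- `Psi` is a unit at points not in the kernel of reduction, for isogenies of degree prime to `V` -/
theorem val_Psi (hL : CMlat L) (hg : Good V L e d) (hle : L.lattice ≤ L'.lattice)
    (hc : (idx L L').Coprime 6) (hi : V.valuation (idx L L' : ℂ) = 1) {z : ℂ}
    (hz : ∀ s ∈ L'.lattice, ¬ InE V L e d (z + s)) : V.valuation (Psi L L' z) = 1 := by
  obtain ⟨R, hR⟩ := exists_half hle
  have hz0 : z ∉ L'.lattice := by
    intro h
    apply hz (-z) (L'.lattice.neg_mem h)
    left
    rw [add_neg_cancel]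
    exact L.lattice.zero_mem
  rw [Psi_eq hR hc hz0, map_prod]
  refine Finset.prod_eq_one fun s hs => ?_
  obtain ⟨k1, k2, k3⟩ := half_facts hL hg hle hc hi hR hs
  have h1 : ¬ InE V L e d z := by
    have := hz 0 L'.lattice.zero_mem
    rwa [add_zero] at this
  have h2 : ¬ InE V L e d (z - s) := by
    rw [sub_eq_add_neg]
    exact hz _ (L'.lattice.neg_mem (hR.mem s hs))
  have h3 := val_P_sub hg h1 k1 h2 (hz s (hR.mem s hs))
  rw [val_factor hL hg hle hc hi hR hs one_ne_zero (by rw [h3, mul_one]), inv_one]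

/-- the valuation of `Psi` at points of the kernel of reduction -/
theorem val_Psi_in (hL : CMlat L) (hg : Good V L e d) (hle : L.lattice ≤ L'.lattice)
    (hc : (idx L L').Coprime 6) (hi : V.valuation (idx L L' : ℂ) = 1) {z : ℂ}
    (hz : InE V L e d z) (hz0 : z ∉ L.lattice) :
    V.valuation (Psi L L' z) * V.valuation (xx L e d z) ^ ((idx L L' - 1) / 2) = 1 := by
  obtain ⟨R, hR⟩ := exists_half hle
  have hz1 : z ∉ L'.lattice := fun h =>
    notInE_of_tors hL hg hi (idx_smul_mem hle h) hz0 hz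
  have hx : V.valuation (xx L e d z) ≠ 0 := by
    rcases hz with h | h
    · exact absurd h hz0
    · exact (lt_trans zero_lt_one h).ne'
  have hcard := hR.card (odd_of_coprime hc)
  have hcard' : (idx L L' - 1) / 2 = R.card := by omega
  rw [Psi_eq hR hc hz1, map_prod, hcard']
  rw [Finset.prod_congr rfl fun s hs => val_factor hL hg hle hc hi hR hs hx
    (val_P_sub_of_in hg hz hz0 (half_facts hL hg hle hc hi hR hs).1)]
  rw [Finset.prod_const, inv_pow, inv_mul_cancel₀ (pow_ne_zero _ hx)]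

end Pool.Agent.CMR
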