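import Pool.Agent.CMR.LDefs
import Pool.Agent.CMR.MAct
import Pool.Agent.CMG.PSum
import Pool.Agent.CMG.PProd
import Pool.Agent.CMG.PInj

/-!
# L-REL addition formulas in the coordinate x = (wp - e)/d

`CMG.P_sum`, `CMG.P_prod`, `CMG.P_dup`, `derivWeierstrassP_sq` with `℘ = d x + e`; everything else is `field_simp`, `ring`/`linear_combination`
(these are the usual formulas for the equation `y² = 4x³ + b₂x² + 2b₄x + b₆`). Homothety: `MAct` (`P_homothety`,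
`G_homothety`, `dsc_homothety`).
-/

set_option autoImplicit false

noncomputable section

open NumberField
open scoped PeriodPair

namespace Pool.Agent.CMR

theorem xx_add {L : PeriodPair} {e d : ℂ} (hd : d ≠ 0) {u v : ℂ} (hu : u ∉ L.lattice)
    (hv : v ∉ L.lattice) (h1 : u + v ∉ L.lattice) (h2 : u - v ∉ L.lattice) :
    (xx L e d (u + v) + xx L e d (u - v)) * (xx L e d u - xx L e d v) ^ 2 =
      2 * xx L e d u * xx L e d v * (xx L e d u + xx L e d v) + bb2 e d * xx L e d u * xx L e d v +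
        bb4 L e d * (xx L e d u + xx L e d v) + bb6 L e d := by
  have h := CMG.P_sum L hu hv h1 h2
  unfold xx bb2 bb4 bb6
  field_simp
  linear_combination 2 * h

theorem xx_mul {L : PeriodPair} {e d : ℂ} (hd : d ≠ 0) {u v : ℂ} (hu : u ∉ L.lattice)
    (hv : v ∉ L.lattice) (h1 : u + v ∉ L.lattice) (h2 : u - v ∉ L.lattice) :
    xx L e d (u + v) * xx L e d (u - v) * (xx L e d u - xx L e d v) ^ 2 =
      xx L e d u ^ 2 * xx L e d v ^ 2 - bb4 L e d * xx L e d u * xx L e d v -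
        bb6 L e d * (xx L e d u + xx L e d v) - bb8 L e d := by
  have h := CMG.P_sum L hu hv h1 h2
  have h' := CMG.P_prod L hu hv h1 h2
  unfold xx bb8 bb2 bb4 bb6
  field_simp
  linear_combination 16 * h' - 16 * e * h

theorem xx_dP {L : PeriodPair} {e d : ℂ} (hd : d ≠ 0) {u : ℂ} (hu : u ∉ L.lattice) :
    ℘'[L] u ^ 2 / d ^ 3 = 4 * xx L e d u ^ 3 + bb2 e d * xx L e d u ^ 2 +
      2 * bb4 L e d * xx L e d u + bb6 L e d := by
  have h := L.derivWeierstrassP_sq u hu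
  unfold xx bb2 bb4 bb6
  field_simp
  linear_combination h

theorem xx_dup {L : PeriodPair} {e d : ℂ} (hd : d ≠ 0) {u : ℂ} (hu : u ∉ L.lattice)
    (h2 : 2 * u ∉ L.lattice) :
    xx L e d (2 * u) * (4 * xx L e d u ^ 3 + bb2 e d * xx L e d u ^ 2 +
      2 * bb4 L e d * xx L e d u + bb6 L e d) =
      xx L e d u ^ 4 - bb4 L e d * xx L e d u ^ 2 - 2 * bb6 L e d * xx L e d u - bb8 L e d := by
  have h := CMG.P_dup L hu h2
  have h' := L.derivWeierstrassP_sq u hu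
  rw [← xx_dP hd hu]
  unfold xx bb8 bb2 bb4 bb6
  field_simp
  linear_combination 16 * h - 16 * e * h'

theorem bb_disc (L : PeriodPair) {e d : ℂ} (hd : d ≠ 0) :
    -(bb2 e d ^ 2 * bb8 L e d) - 8 * bb4 L e d ^ 3 - 27 * bb6 L e d ^ 2 +
      9 * bb2 e d * bb4 L e d * bb6 L e d = dsc L / d ^ 6 := by
  unfold bb8 bb2 bb4 bb6 dsc
  field_simp
  ring

/-- `Δ` is a combination of the two polynomials of the duplication formula. -/
theorem res_identity {b2 b4 b6 b8 x : ℂ} (h : 4 * b8 = b2 * b6 - b4 ^ 2) :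
    (12 * x ^ 3 - b2 * x ^ 2 - 10 * b4 * x + (b2 * b4 - 27 * b6)) *
        (4 * x ^ 3 + b2 * x ^ 2 + 2 * b4 * x + b6) -
      (48 * x ^ 2 + 8 * b2 * x + (32 * b4 - b2 ^ 2)) *
        (x ^ 4 - b4 * x ^ 2 - 2 * b6 * x - b8) =
      -(b2 ^ 2 * b8) - 8 * b4 ^ 3 - 27 * b6 ^ 2 + 9 * b2 * b4 * b6 := by
  linear_combination (12 * x ^ 2 + 2 * b2 * x + 8 * b4) * h

/-- homothety -/
theorem xx_homothety {L L' : PeriodPair} {c : ℂ} (hc : c ≠ 0)
    (h : ∀ z, c * z ∈ L'.lattice ↔ z ∈ L.lattice) (e d z : ℂ) :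
    xx L' (e / c ^ 2) (d / c ^ 2) (c * z) = xx L e d z := by
  unfold xx
  rw [P_homothety L L' hc h, ← sub_div, div_div_div_cancel_right₀ (pow_ne_zero 2 hc)]

theorem bb_homothety {L L' : PeriodPair} {c : ℂ} (hc : c ≠ 0)
    (h : ∀ z, c * z ∈ L'.lattice ↔ z ∈ L.lattice) {e d : ℂ} (hd : d ≠ 0) :
    bb2 (e / c ^ 2) (d / c ^ 2) = bb2 e d ∧ bb4 L' (e / c ^ 2) (d / c ^ 2) = bb4 L e d ∧
      bb6 L' (e / c ^ 2) (d / c ^ 2) = bb6 L e d := by
  have hg2 : L'.g₂ = L.g₂ / c ^ 4 := by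
    unfold PeriodPair.g₂
    rw [G_homothety L L' hc h, mul_div_assoc]
  have hg3 : L'.g₃ = L.g₃ / c ^ 6 := by
    unfold PeriodPair.g₃
    rw [G_homothety L L' hc h, mul_div_assoc]
  refine ⟨?_, ?_, ?_⟩
  · unfold bb2
    field_simp
  · unfold bb4
    rw [hg2]
    field_simp
  · unfold bb6
    rw [hg2, hg3]
    field_simp

theorem Good.homothety {V : ValuationSubring ℂ} {L L' : PeriodPair} {c : ℂ} (hc : c ≠ 0)
    (h : ∀ z, c * z ∈ L'.lattice ↔ z ∈ L.lattice) {e d : ℂ} (hg : Good V L e d) :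
    Good V L' (e / c ^ 2) (d / c ^ 2) := by
  obtain ⟨e2, e4, e6⟩ := bb_homothety (L := L) (L' := L') hc h (e := e) hg.ne
  have e8 : bb8 L' (e / c ^ 2) (d / c ^ 2) = bb8 L e d := by
    unfold bb8
    rw [e2, e4, e6]
  refine ⟨div_ne_zero hg.ne (pow_ne_zero 2 hc), ?_, ?_, ?_, ?_, ?_⟩
  · rw [dsc_homothety L L' hc h, map_div₀, map_div₀, map_pow, map_pow, div_pow, hg.disc, ← pow_mul]
  · rw [e2]; exact hg.h2
  · rw [e4]; exact hg.h4
  · rw [e6]; exact hg.h6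
  · rw [e8]; exact hg.h8

end Pool.Agent.CMR
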