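import Mathlib

/-!
# Block M (modular forms of level one and valuations of `ℂ`): definitions
-/

set_option autoImplicit false

noncomputable section

open UpperHalfPlane ModularForm MatrixGroups EisensteinSeries
open scoped PeriodPair

namespace Pool.Agent.CMR

/-- the modular function `j(τ) = E₄(τ)³ / Δ(τ)` -/
def jj (τ : ℍ) : ℂ := E₄ τ ^ 3 / discriminant τ

/-- `q_n = exp (2 π i τ / n)` -/
def qn (n : ℕ) (τ : ℍ) : ℂ := Complex.exp (2 * Real.pi * Complex.I * τ / n)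

/-- `f` is given on `ℍ` by the power series `φ` in `q_n = exp (2 π i τ / n)`. -/
def IsQExp (n : ℕ) (φ : PowerSeries ℂ) (f : ℍ → ℂ) : Prop :=
  ∀ τ : ℍ, HasSum (fun j : ℕ => φ.coeff j * qn n τ ^ j) (f τ)

/-- the coefficients of `φ` are in the valuation ring `V` -/
def IntV (V : ValuationSubring ℂ) (φ : PowerSeries ℂ) : Prop := ∀ j, φ.coeff j ∈ V

/-- `f (γ τ) = (c τ + d) ^ k f τ` for `γ ∈ SL(2, ℤ)` -/
def IsInvt (k : ℕ) (f : ℍ → ℂ) : Prop :=
  ∀ (γ : SL(2, ℤ)) (τ : ℍ), f (γ • τ) = ((γ.1 1 0 : ℂ) * τ + (γ.1 1 1 : ℂ)) ^ k * f τ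

/-- the lattice `ℤ + ℤ τ` -/
def Ltau (τ : ℍ) : PeriodPair where
  ω₁ := 1
  ω₂ := τ
  indep := by
    rw [LinearIndependent.pair_iff]
    intro s t h
    have h1 := congrArg Complex.im h
    have h2 := congrArg Complex.re h
    simp only [Complex.real_smul, mul_one, Complex.add_im, Complex.ofReal_im, Complex.mul_im,
      Complex.ofReal_re, zero_mul, zero_add, Complex.zero_im, Complex.add_re, Complex.mul_re,
      Complex.zero_re, add_zero] at h1 h2
    have h3 : (τ : ℂ).im ≠ 0 := τ.im_ne_zero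
    have ht : t = 0 := by
      rcases mul_eq_zero.1 h1 with h | h
      · exact h
      · exact absurd h h3
    rw [ht] at h2
    simp at h2
    exact ⟨h2, ht⟩

/-- the torsion point `(v₁ τ + v₂) / n` -/
def pz (n : ℕ) (v : ℤ × ℤ) (τ : ℍ) : ℂ := ((v.1 : ℂ) * τ + (v.2 : ℂ)) / n

/-- the value of `℘ / (2 π i)²` at this point -/
def pw (n : ℕ) (v : ℤ × ℤ) (τ : ℍ) : ℂ :=
  ℘[Ltau τ] (pz n v τ) / (2 * Real.pi * Complex.I) ^ 2

/-- the discriminant of a lattice -/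
def dsc (L : PeriodPair) : ℂ := L.g₂ ^ 3 - 27 * L.g₃ ^ 2

/-- the lattice has complex multiplication -/
def CMlat (L : PeriodPair) : Prop := ∃ α : ℂ, α.im ≠ 0 ∧ ∀ l ∈ L.lattice, α * l ∈ L.lattice

end Pool.Agent.CMR
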