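import Pool.Agent.CMR.MAlg

/-!
# M-FORM functions with q_n-expansion and SL(2,Z)-invariance are modular forms; inverse of an expansion

`qn n τ` is `𝕢 n τ` = `Function.Periodic.qParam (n : ℝ) τ`. `unique`: the difference series vanishes at all `q` with
`0 < ‖q‖ < 1` (every such `q` is `qn n τ`, `Function.Periodic.invQParam`), so its coefficients vanish
(`UpperHalfPlane.qExpansion_coeff_unique` or `HasFPowerSeriesOnBall` uniqueness).
`exists_form`: `f τ = g (qn n τ)`, `g q = ∑ φ_j q^j` is analytic in the unit disc (converges there, since every `q ≠ 0`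
of the disc is some `qn n τ`), so `f` is holomorphic; bounded at `i∞`: `UpperHalfPlane.isBoundedAtImInfty_of_hasSum_qExpansion`
with `h = n`. Slash invariance under `γ ∈ SL(2, ℤ)` is `IsInvt` (`ModularForm.slash_def`, `denom`); `ModularForm` structure as in
Mathlib `LevelOne/DimensionFormula.lean` (`discriminantEquiv`): bounded at all cusps from boundedness at infinity of all slashes.
The `q`-expansion: `f (τ + 1) = f τ` gives with `unique` `φ_j ζ^j = φ_j` with `ζ = exp (2 π i/n)`, so `φ_j = 0` unless `n ∣ j`;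
then `f τ = ∑ φ_{n i} q^i` and uniqueness of the `q`-expansion.
`inv`: `g` has no zero in the unit disc, so `1/g` is analytic there, its Taylor series at `0` converges in the whole disc
(`DifferentiableOn.hasFPowerSeriesOnBall` / `Complex.hasSum_taylorSeries_on_ball`), and as a power series it is the inverse of `φ`
(the product has the sum `1`; `unique` and `PowerSeries.mul_inv_cancel`).
`of_X_mul`, `X_mul`: shift the index.
-/

set_option autoImplicit false

noncomputable section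

open UpperHalfPlane ModularForm MatrixGroups EisensteinSeries
open scoped PeriodPair

namespace Pool.Agent.CMR

private theorem qn_eq (n : ℕ) (τ : ℍ) : qn n τ = Function.Periodic.qParam (n : ℝ) (τ : ℂ) := by
  unfold qn Function.Periodic.qParam
  simp

theorem norm_qn_lt {n : ℕ} (hn : 0 < n) (τ : ℍ) : ‖qn n τ‖ < 1 := by
  rw [qn_eq]
  exact Function.Periodic.norm_qParam_lt_one (by exact_mod_cast hn) τ.im_pos

theorem qn_ne_zero (n : ℕ) (τ : ℍ) : qn n τ ≠ 0 := by
  exact Complex.exp_ne_zero _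

/-- every point of the punctured unit disc is a value of `qn` -/
private theorem exists_qn {n : ℕ} (hn : 0 < n) {q : ℂ} (hq : ‖q‖ < 1) (h0 : q ≠ 0) :
    ∃ τ : ℍ, qn n τ = q := by
  have hn' : (0 : ℝ) < n := by exact_mod_cast hn
  refine ⟨⟨Function.Periodic.invQParam (n : ℝ) q,
    Function.Periodic.im_invQParam_pos_of_norm_lt_one hn' hq h0⟩, ?_⟩
  rw [qn_eq]
  exact Function.Periodic.qParam_right_inv hn'.ne' h0

/-- the series as a function of `q` -/
private def Gq (φ : PowerSeries ℂ) (q : ℂ) : ℂ := ∑' j : ℕ, φ.coeff j * q ^ j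

private theorem Gq_zero (φ : PowerSeries ℂ) :
    HasSum (fun j : ℕ => φ.coeff j * (0 : ℂ) ^ j) (φ.coeff 0) := by
  have h := hasSum_single (f := fun j : ℕ => φ.coeff j * (0 : ℂ) ^ j) 0 (fun j hj => by
    rw [zero_pow hj, mul_zero])
  simpa using h

private theorem hasSum_Gq {n : ℕ} (hn : 0 < n) {φ : PowerSeries ℂ} {f : ℍ → ℂ}
    (hf : IsQExp n φ f) {q : ℂ} (hq : ‖q‖ < 1) :
    HasSum (fun j : ℕ => φ.coeff j * q ^ j) (Gq φ q) := by
  apply Summable.hasSum
  rcases eq_or_ne q 0 with rfl | h0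
  · exact (Gq_zero φ).summable
  · obtain ⟨τ, rfl⟩ := exists_qn hn hq h0
    exact (hf τ).summable

private theorem Gq_qn {n : ℕ} (hn : 0 < n) {φ : PowerSeries ℂ} {f : ℍ → ℂ}
    (hf : IsQExp n φ f) (τ : ℍ) : Gq φ (qn n τ) = f τ :=
  (hasSum_Gq hn hf (norm_qn_lt hn τ)).unique (hf τ)

private theorem hasFPS {n : ℕ} (hn : 0 < n) {φ : PowerSeries ℂ} {f : ℍ → ℂ}
    (hf : IsQExp n φ f) :
    HasFPowerSeriesOnBall (Gq φ) (FormalMultilinearSeries.ofScalars ℂ fun j => φ.coeff j) 0 1 := by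
  constructor
  · refine le_of_forall_lt_imp_le_of_dense fun r hr => ?_
    lift r to NNReal using hr.ne_top
    apply FormalMultilinearSeries.le_radius_of_summable
    have h1 := (hasSum_Gq hn hf (q := (r : ℝ)) (by
      rw [Complex.norm_real, Real.norm_eq_abs, NNReal.abs_eq]
      exact_mod_cast hr)).summable.norm
    simpa [norm_mul, mul_comm] using h1
  · simp
  · intro y hy
    rw [← ENNReal.coe_one, Metric.eball_coe, NNReal.coe_one, mem_ball_zero_iff] at hy
    have h1 := hasSum_Gq hn hf hy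
    simpa [mul_comm] using h1

/-- a power series in `q_n` is determined by the function -/
theorem IsQExp.unique {n : ℕ} (hn : 0 < n) {φ ψ : PowerSeries ℂ} {f : ℍ → ℂ} (hf : IsQExp n φ f)
    (hg : IsQExp n ψ f) : φ = ψ := by
  have h1 := (hasFPS hn hf).hasFPowerSeriesAt
  have h2 := (hasFPS hn hg).hasFPowerSeriesAt
  have h3 : Gq φ =ᶠ[nhds 0] Gq ψ := by
    rw [← (h1.continuousAt).eventuallyEq_nhds_iff_eventuallyEq_nhdsNE h2.continuousAt]
    have h4 : Metric.ball (0 : ℂ) 1 ∈ nhdsWithin (0 : ℂ) {0}ᶜ :=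
      mem_nhdsWithin_of_mem_nhds (Metric.ball_mem_nhds 0 one_pos)
    filter_upwards [self_mem_nhdsWithin, h4] with q hq hq1
    obtain ⟨τ, rfl⟩ := exists_qn hn (mem_ball_zero_iff.1 hq1) hq
    rw [Gq_qn hn hf, Gq_qn hn hg]
  have h5 := h1.eq_formalMultilinearSeries_of_eventually h2 h3
  ext j
  have h6 := congrArg (fun p : FormalMultilinearSeries ℂ ℂ ℂ => p.coeff j) h5
  simpa [FormalMultilinearSeries.coeff_ofScalars] using h6

private theorem diff_Gq {n : ℕ} (hn : 0 < n) {φ : PowerSeries ℂ} {f : ℍ → ℂ}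
    (hf : IsQExp n φ f) : DifferentiableOn ℂ (Gq φ) (Metric.ball 0 1) := by
  have h1 := (hasFPS hn hf).differentiableOn
  rwa [← ENNReal.coe_one, Metric.eball_coe, NNReal.coe_one] at h1

private theorem hol {n : ℕ} (hn : 0 < n) {φ : PowerSeries ℂ} {f : ℍ → ℂ}
    (hf : IsQExp n φ f) :
    MDifferentiable (modelWithCornersSelf ℂ ℂ) (modelWithCornersSelf ℂ ℂ) f := by
  rw [UpperHalfPlane.mdifferentiable_iff]
  have h1 : ∀ z ∈ {z : ℂ | 0 < z.im}, (f ∘ UpperHalfPlane.ofComplex) z =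
      Gq φ (Complex.exp (2 * Real.pi * Complex.I * z / n)) := by
    intro z hz
    rw [Function.comp_apply, ← Gq_qn hn hf, UpperHalfPlane.ofComplex_apply_of_im_pos hz]
    rfl
  refine DifferentiableOn.congr ?_ h1
  refine (diff_Gq hn hf).comp (Differentiable.differentiableOn (by fun_prop)) ?_
  intro z hz
  rw [mem_ball_zero_iff]
  exact norm_qn_lt hn ⟨z, hz⟩

/-- the coefficients with index not divisible by `n` -/
private theorem coeff_zero_of {n : ℕ} (hn : 0 < n) {k : ℕ} {φ : PowerSeries ℂ} {f : ℍ → ℂ}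
    (hf : IsQExp n φ f) (hk : IsInvt k f) {j : ℕ} (hj : ¬ n ∣ j) : φ.coeff j = 0 := by
  have hprim := Complex.isPrimitiveRoot_exp n hn.ne'
  set ζ := Complex.exp (2 * Real.pi * Complex.I / n) with hζ
  have h1 : IsQExp n (PowerSeries.mk fun i => φ.coeff i * ζ ^ i) f := by
    intro τ
    have h2 := hf (ModularGroup.T • τ)
    have h3 : f (ModularGroup.T • τ) = f τ := by
      rw [hk]
      simp [ModularGroup.T]
    have h4 : qn n (ModularGroup.T • τ) = ζ * qn n τ := by
      rw [UpperHalfPlane.modular_T_smul]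
      unfold qn
      rw [hζ, ← Complex.exp_add]
      congr 1
      rw [UpperHalfPlane.coe_vadd]
      push_cast
      ring
    rw [h3, h4] at h2
    have h5 : (fun j : ℕ => (PowerSeries.mk fun i => φ.coeff i * ζ ^ i).coeff j * qn n τ ^ j) =
        fun j : ℕ => φ.coeff j * (ζ * qn n τ) ^ j := by
      funext j
      rw [PowerSeries.coeff_mk, mul_pow, mul_assoc]
    rw [h5]
    exact h2
  have h5 := congrArg (PowerSeries.coeff j) (h1.unique hn hf)
  rw [PowerSeries.coeff_mk] at h5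
  by_contra h6
  have h7 : ζ ^ j = 1 := by
    have h8 : φ.coeff j * (ζ ^ j - 1) = 0 := by rw [mul_sub, h5]; ring
    rcases mul_eq_zero.1 h8 with h9 | h9
    · exact absurd h9 h6
    · exact sub_eq_zero.1 h9
  exact hj ((hprim.pow_eq_one_iff_dvd j).1 h7)

/-- A function with a `q_n`-expansion which transforms like a modular form of weight `k` is a modular form of level one;
its `q`-expansion consists of the coefficients with index divisible by `n`, the others are `0`. -/
theorem exists_form {n : ℕ} (hn : 0 < n) {k : ℕ} {φ : PowerSeries ℂ} {f : ℍ → ℂ} (hf : IsQExp n φ f)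
    (hk : IsInvt k f) : ∃ F : ModularForm 𝒮ℒ (k : ℤ), (∀ τ, F τ = f τ) ∧
      (∀ i, (qExpansion 1 F).coeff i = φ.coeff (n * i)) ∧ ∀ j, ¬ n ∣ j → φ.coeff j = 0 := by
  have hcz := fun j (hj : ¬ n ∣ j) => coeff_zero_of hn hf hk hj
  have hn' : (0 : ℝ) < n := by exact_mod_cast hn
  have hbd : UpperHalfPlane.IsBoundedAtImInfty f :=
    UpperHalfPlane.isBoundedAtImInfty_of_hasSum_qExpansion (c := fun j => φ.coeff j) hn'
      (fun τ => by
        have h1 := hf τ
        rw [qn_eq] at h1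
        simpa using h1)
  have hsl : ∀ γ : SL(2, ℤ), f ∣[(k : ℤ)] γ = f := by
    intro γ
    funext τ
    rw [ModularForm.slash_action_eq'_iff]
    rw [hk]
    simp
  let F : ModularForm 𝒮ℒ (k : ℤ) :=
    { toFun := f
      slash_action_eq' := by
        rintro _ ⟨γ, rfl⟩
        exact hsl γ
      holo' := hol hn hf
      bdd_at_cusps' := by
        intro c hc
        rw [Subgroup.IsArithmetic.isCusp_iff_isCusp_SL2Z] at hc
        rw [OnePoint.isBoundedAt_iff_forall_SL2Z hc]
        intro γ _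
        rw [hsl γ]
        exact hbd }
  refine ⟨F, fun τ => rfl, fun i => ?_, hcz⟩
  symm
  refine ModularFormClass.qExpansion_coeff_unique (f := F) (c := fun i => φ.coeff (n * i)) one_pos
    one_mem_strictPeriods_SL ?_ i
  intro τ
  have h1 := hf τ
  have hinj : Function.Injective fun i : ℕ => n * i := fun a b h =>
    Nat.eq_of_mul_eq_mul_left hn h
  have h2 := (hinj.hasSum_iff (f := fun j : ℕ => φ.coeff j * qn n τ ^ j) (a := f τ) (by
    intro j hj
    rw [hcz j (fun ⟨i, hi⟩ => hj ⟨i, hi.symm⟩), zero_mul])).2 h1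
  have h3 : qn n τ ^ n = Function.Periodic.qParam 1 (τ : ℂ) := by
    unfold qn Function.Periodic.qParam
    rw [← Complex.exp_nat_mul]
    congr 1
    have : (n : ℂ) ≠ 0 := by exact_mod_cast hn.ne'
    push_cast
    field_simp
  have h4 : ((fun j : ℕ => φ.coeff j * qn n τ ^ j) ∘ fun i : ℕ => n * i) =
      fun i : ℕ => φ.coeff (n * i) • Function.Periodic.qParam 1 (τ : ℂ) ^ i := by
    funext i
    rw [Function.comp_apply, pow_mul, h3, smul_eq_mul]
  rw [h4] at h2
  exact h2

/-- the expansion of `1 / f` -/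
theorem IsQExp.inv {n : ℕ} (hn : 0 < n) {φ : PowerSeries ℂ} {f : ℍ → ℂ} (hf : IsQExp n φ f)
    (h0 : φ.coeff 0 ≠ 0) (hne : ∀ τ, f τ ≠ 0) : IsQExp n φ⁻¹ (fun τ => (f τ)⁻¹) := by
  have hG0 : Gq φ 0 = φ.coeff 0 := by
    have h1 := (hasSum_Gq hn hf (q := 0) (by simp)).unique (Gq_zero φ)
    exact h1
  have hGne : ∀ q ∈ Metric.ball (0 : ℂ) 1, Gq φ q ≠ 0 := by
    intro q hq
    rcases eq_or_ne q 0 with rfl | h1
    · rwa [hG0]
    · obtain ⟨τ, rfl⟩ := exists_qn hn (mem_ball_zero_iff.1 hq) h1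
      rw [Gq_qn hn hf]
      exact hne τ
  have hd : DifferentiableOn ℂ (fun q => (Gq φ q)⁻¹) (Metric.ball 0 1) :=
    (diff_Gq hn hf).inv hGne
  have hψ : IsQExp n (PowerSeries.mk fun j => ((j.factorial : ℂ))⁻¹ *
      iteratedDeriv j (fun q => (Gq φ q)⁻¹) 0) (fun τ => (f τ)⁻¹) := by
    intro τ
    have h1 := Complex.hasSum_taylorSeries_on_ball (c := 0) (r := 1) hd
      (z := qn n τ) (by simpa using norm_qn_lt hn τ)
    rw [Gq_qn hn hf] at h1
    have h2 : (fun j : ℕ => (PowerSeries.mk fun j => ((j.factorial : ℂ))⁻¹ *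
        iteratedDeriv j (fun q => (Gq φ q)⁻¹) 0).coeff j * qn n τ ^ j) =
        fun j : ℕ => ((j.factorial : ℂ))⁻¹ • (qn n τ - 0) ^ j •
          iteratedDeriv j (fun q => (Gq φ q)⁻¹) 0 := by
      funext j
      rw [PowerSeries.coeff_mk, sub_zero, smul_eq_mul, smul_eq_mul]
      ring
    rw [h2]
    exact h1
  have h1 := hf.mul hn hψ
  have h2 : IsQExp n (PowerSeries.C 1) (fun τ => f τ * (f τ)⁻¹) := by
    have h3 := IsQExp.const n 1
    have h4 : (fun τ => f τ * (f τ)⁻¹) = fun _ => (1 : ℂ) := by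
      funext τ
      exact mul_inv_cancel₀ (hne τ)
    rw [h4]
    exact h3
  have h3 := h1.unique hn h2
  have h4 : φ⁻¹ = PowerSeries.mk fun j => ((j.factorial : ℂ))⁻¹ *
      iteratedDeriv j (fun q => (Gq φ q)⁻¹) 0 := by
    symm
    rw [PowerSeries.eq_inv_iff_mul_eq_one (by simpa using h0), mul_comm, h3, map_one]
  rw [h4]
  exact hψ

/-- the shift of the index -/
private theorem shift {r : ℕ} {φ : PowerSeries ℂ} {q a : ℂ} :
    HasSum (fun j : ℕ => q ^ r * (φ.coeff j * q ^ j)) a ↔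
      HasSum (fun j : ℕ => (PowerSeries.X ^ r * φ).coeff j * q ^ j) a := by
  have h2 : ∑ i ∈ Finset.range r, (PowerSeries.X ^ r * φ).coeff i * q ^ i = 0 := by
    refine Finset.sum_eq_zero fun i hi => ?_
    rw [PowerSeries.coeff_X_pow_mul', if_neg (by simpa using hi), zero_mul]
  have h1 := hasSum_nat_add_iff' (f := fun j : ℕ => (PowerSeries.X ^ r * φ).coeff j * q ^ j)
    (g := a) r
  rw [h2, sub_zero] at h1
  rw [← h1]
  have h3 : (fun j : ℕ => q ^ r * (φ.coeff j * q ^ j)) =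
      fun j : ℕ => (PowerSeries.X ^ r * φ).coeff (j + r) * q ^ (j + r) := by
    funext j
    rw [PowerSeries.coeff_X_pow_mul, pow_add]
    ring
  rw [h3]

/-- removing a power of `q_n` -/
theorem IsQExp.of_X_mul {n r : ℕ} {φ : PowerSeries ℂ} {f : ℍ → ℂ}
    (hf : IsQExp n (PowerSeries.X ^ r * φ) f) :
    IsQExp n φ (fun τ => f τ / qn n τ ^ r) := by
  intro τ
  have h0 : qn n τ ^ r ≠ 0 := pow_ne_zero _ (qn_ne_zero n τ)
  have h1 := (shift.2 (hf τ)).mul_left (qn n τ ^ r)⁻¹
  have h2 : (fun j : ℕ => φ.coeff j * qn n τ ^ j) =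
      fun j : ℕ => (qn n τ ^ r)⁻¹ * (qn n τ ^ r * (φ.coeff j * qn n τ ^ j)) := by
    funext j
    rw [inv_mul_cancel_left₀ h0]
  rw [h2]
  change HasSum _ (f τ / qn n τ ^ r)
  rw [div_eq_inv_mul]
  exact h1

theorem IsQExp.X_mul {n r : ℕ} {φ : PowerSeries ℂ} {f : ℍ → ℂ} (hf : IsQExp n φ f) :
    IsQExp n (PowerSeries.X ^ r * φ) (fun τ => qn n τ ^ r * f τ) := fun τ =>
  shift.1 ((hf τ).mul_left (qn n τ ^ r))

end Pool.Agent.CMR
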