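import Pool.Agent.CMR.MInt
import Pool.Agent.CMR.MForm

/-!
# M-ORB the product over the matrices of determinant n

`act`: `Im (A τ) = n Im τ / |c τ + d|²` (elementary computation; `c τ + d ≠ 0` since `det ≠ 0`). Prove: `act (γ • A) τ = γ • act A τ`
and `phiA (γ • A) = phiA A` for `γ ∈ SL(2, ℤ)` (modularity of `E₄³`, `Δ` of weight `12` and the cocycle relation of `c τ + d`);
`phiA A (γ • τ) = (c_γ τ + d_γ)^{24} phiA (A γ) τ` where `A γ` is the matrix product. `SL(2, ℤ)` acts from the left on `DM n`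
(Mathlib `FixedDetMatrices`), there are finitely many orbits with upper triangular representatives with positive diagonal
(`FixedDetMatrices.reduce_mem_reps`, `reps`, finiteness `reps` is finite). Choose one representative
in `reps` for every orbit (`Quotient` of `MulAction.orbitRel`): `R`. Right multiplication by `γ` permutes the orbits, so the product over `R` of the
function `phiA` (which depends only on the orbit) is invariant. If `act A τ = τ` then `phiA A τ = 0`, hence the factor of the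
orbit of `A` vanishes.
-/

set_option autoImplicit false

noncomputable section

open UpperHalfPlane ModularForm MatrixGroups EisensteinSeries
open scoped PeriodPair

namespace Pool.Agent.CMR

/-- integral matrices of determinant `n` -/
abbrev DM (n : ℕ) := FixedDetMatrix (Fin 2) ℤ (n : ℤ)

lemma MOrb_det {n : ℕ} (A : DM n) : A.1 0 0 * A.1 1 1 - A.1 0 1 * A.1 1 0 = n := by
  have h := A.2
  rwa [Matrix.det_fin_two] at h

lemma MOrb_im_num (a b c d : ℤ) (z : ℂ) :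
    (((a : ℂ) * z + b) * (starRingEnd ℂ) ((c : ℂ) * z + d)).im = ((a * d - b * c : ℤ) : ℝ) * z.im := by
  simp only [Complex.mul_im, Complex.add_im, Complex.add_re, Complex.mul_re, Complex.conj_re,
    Complex.conj_im, Complex.intCast_re, Complex.intCast_im]
  push_cast
  ring

lemma MOrb_den_ne {n : ℕ} (hn : 0 < n) (A : DM n) (τ : ℍ) :
    (A.1 1 0 : ℂ) * τ + (A.1 1 1 : ℂ) ≠ 0 := by
  intro h
  have hdet := MOrb_det A
  have h1 := congrArg Complex.im h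
  have h2 := congrArg Complex.re h
  simp only [Complex.mul_im, Complex.add_im, Complex.add_re, Complex.mul_re,
    Complex.intCast_re, Complex.intCast_im, zero_mul, add_zero, sub_zero, Complex.zero_im,
    Complex.zero_re] at h1 h2
  have h3 : (A.1 1 0 : ℝ) = 0 := by
    rcases mul_eq_zero.1 h1 with h | h
    · exact h
    · exact absurd h τ.im_ne_zero
  rw [h3, zero_mul, zero_add] at h2
  have h4 : A.1 1 0 = 0 := by exact_mod_cast h3
  have h5 : A.1 1 1 = 0 := by exact_mod_cast h2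
  rw [h4, h5] at hdet
  simp at hdet
  omega

lemma MOrb_im_pos {n : ℕ} (hn : 0 < n) (A : DM n) (τ : ℍ) :
    0 < (((A.1 0 0 : ℂ) * τ + (A.1 0 1 : ℂ)) / ((A.1 1 0 : ℂ) * τ + (A.1 1 1 : ℂ))).im := by
  have hne := MOrb_den_ne hn A τ
  have hdet := MOrb_det A
  set w : ℂ := (A.1 1 0 : ℂ) * τ + (A.1 1 1 : ℂ) with hw
  have hns : 0 < Complex.normSq w := Complex.normSq_pos.2 hne
  rw [div_eq_mul_inv, Complex.inv_def, ← mul_assoc, Complex.im_mul_ofReal, hw, MOrb_im_num, hdet]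
  have hn' : (0 : ℝ) < ((n : ℤ) : ℝ) := by exact_mod_cast hn
  exact mul_pos (mul_pos hn' τ.im_pos) (inv_pos.2 hns)

/-- the point `A τ` for `A` with `det A = n > 0` -/
def act {n : ℕ} (hn : 0 < n) (A : DM n) (τ : ℍ) : ℍ :=
  ⟨((A.1 0 0 : ℂ) * τ + (A.1 0 1 : ℂ)) / ((A.1 1 0 : ℂ) * τ + (A.1 1 1 : ℂ)), MOrb_im_pos hn A τ⟩

/-- `E₄(τ)³ (Δ|A)(τ) - (E₄³|A)(τ) Δ(τ)` with `(f|A)(τ) = (c τ + d)^{-12} f(A τ)` -/
def phiA {n : ℕ} (hn : 0 < n) (A : DM n) (τ : ℍ) : ℂ :=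
  (E₄ τ ^ 3 * discriminant (act hn A τ) - E₄ (act hn A τ) ^ 3 * discriminant τ) /
    ((A.1 1 0 : ℂ) * τ + (A.1 1 1 : ℂ)) ^ 12

lemma MOrb_smul_entry {n : ℕ} (γ : SL(2, ℤ)) (A : DM n) (i j : Fin 2) :
    (γ • A).1 i j = γ.1 i 0 * A.1 0 j + γ.1 i 1 * A.1 1 j := by
  rw [FixedDetMatrices.smul_coe, Matrix.mul_apply, Fin.sum_univ_two]

/-- right multiplication by an element of `SL(2, ℤ)` -/
def MOrb_rm {n : ℕ} (A : DM n) (γ : SL(2, ℤ)) : DM n :=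
  ⟨A.1 * γ.1, by rw [Matrix.det_mul, A.2, γ.2, mul_one]⟩

lemma MOrb_rm_entry {n : ℕ} (γ : SL(2, ℤ)) (A : DM n) (i j : Fin 2) :
    (MOrb_rm A γ).1 i j = A.1 i 0 * γ.1 0 j + A.1 i 1 * γ.1 1 j := by
  show (A.1 * γ.1) i j = _
  rw [Matrix.mul_apply, Fin.sum_univ_two]

lemma MOrb_coe_act {n : ℕ} (hn : 0 < n) (A : DM n) (τ : ℍ) : (act hn A τ : ℂ) =
    ((A.1 0 0 : ℂ) * τ + (A.1 0 1 : ℂ)) / ((A.1 1 0 : ℂ) * τ + (A.1 1 1 : ℂ)) := rfl

lemma MOrb_coe_smul (γ : SL(2, ℤ)) (τ : ℍ) : ((γ • τ : ℍ) : ℂ) =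
    ((γ.1 0 0 : ℂ) * τ + (γ.1 0 1 : ℂ)) / ((γ.1 1 0 : ℂ) * τ + (γ.1 1 1 : ℂ)) := by
  rw [UpperHalfPlane.coe_specialLinearGroup_apply]
  simp

lemma MOrb_den_sl_ne (γ : SL(2, ℤ)) (τ : ℍ) : (γ.1 1 0 : ℂ) * τ + (γ.1 1 1 : ℂ) ≠ 0 :=
  MOrb_den_ne (n := 1) one_pos ⟨γ.1, by rw [γ.2]; rfl⟩ τ

lemma MOrb_den_smul {n : ℕ} (hn : 0 < n) (γ : SL(2, ℤ)) (A : DM n) (τ : ℍ) :
    ((γ • A).1 1 0 : ℂ) * τ + ((γ • A).1 1 1 : ℂ) =
      ((γ.1 1 0 : ℂ) * (act hn A τ : ℂ) + (γ.1 1 1 : ℂ)) *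
        ((A.1 1 0 : ℂ) * τ + (A.1 1 1 : ℂ)) := by
  have h := MOrb_den_ne hn A τ
  rw [MOrb_smul_entry, MOrb_smul_entry, MOrb_coe_act]
  push_cast
  field_simp
  ring

lemma MOrb_num_smul {n : ℕ} (hn : 0 < n) (γ : SL(2, ℤ)) (A : DM n) (τ : ℍ) :
    ((γ • A).1 0 0 : ℂ) * τ + ((γ • A).1 0 1 : ℂ) =
      ((γ.1 0 0 : ℂ) * (act hn A τ : ℂ) + (γ.1 0 1 : ℂ)) *
        ((A.1 1 0 : ℂ) * τ + (A.1 1 1 : ℂ)) := by
  have h := MOrb_den_ne hn A τ
  rw [MOrb_smul_entry, MOrb_smul_entry, MOrb_coe_act]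
  push_cast
  field_simp
  ring

lemma MOrb_act_smul {n : ℕ} (hn : 0 < n) (γ : SL(2, ℤ)) (A : DM n) (τ : ℍ) :
    act hn (γ • A) τ = γ • act hn A τ := by
  apply UpperHalfPlane.ext
  rw [MOrb_coe_act, MOrb_coe_smul, MOrb_den_smul hn, MOrb_num_smul hn]
  have h := MOrb_den_ne hn A τ
  exact mul_div_mul_right _ _ h

lemma MOrb_phi_smul {n : ℕ} (hn : 0 < n) (γ : SL(2, ℤ)) (A : DM n) (τ : ℍ) :
    phiA hn (γ • A) τ = phiA hn A τ := by
  have h1 := MOrb_den_ne hn A τ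
  have h2 := MOrb_den_sl_ne γ (act hn A τ)
  unfold phiA
  rw [MOrb_act_smul, MOrb_den_smul hn, E4_smul γ, disc_smul γ]
  field_simp

lemma MOrb_den_rm {n : ℕ} (γ : SL(2, ℤ)) (A : DM n) (τ : ℍ) :
    ((MOrb_rm A γ).1 1 0 : ℂ) * τ + ((MOrb_rm A γ).1 1 1 : ℂ) =
      ((A.1 1 0 : ℂ) * ((γ • τ : ℍ) : ℂ) + (A.1 1 1 : ℂ)) *
        ((γ.1 1 0 : ℂ) * τ + (γ.1 1 1 : ℂ)) := by
  have h := MOrb_den_sl_ne γ τ
  rw [MOrb_rm_entry, MOrb_rm_entry, MOrb_coe_smul]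
  push_cast
  field_simp
  ring

lemma MOrb_num_rm {n : ℕ} (γ : SL(2, ℤ)) (A : DM n) (τ : ℍ) :
    ((MOrb_rm A γ).1 0 0 : ℂ) * τ + ((MOrb_rm A γ).1 0 1 : ℂ) =
      ((A.1 0 0 : ℂ) * ((γ • τ : ℍ) : ℂ) + (A.1 0 1 : ℂ)) *
        ((γ.1 1 0 : ℂ) * τ + (γ.1 1 1 : ℂ)) := by
  have h := MOrb_den_sl_ne γ τ
  rw [MOrb_rm_entry, MOrb_rm_entry, MOrb_coe_smul]
  push_cast
  field_simp
  ring

lemma MOrb_act_rm {n : ℕ} (hn : 0 < n) (γ : SL(2, ℤ)) (A : DM n) (τ : ℍ) :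
    act hn (MOrb_rm A γ) τ = act hn A (γ • τ) := by
  apply UpperHalfPlane.ext
  rw [MOrb_coe_act, MOrb_coe_act, MOrb_den_rm, MOrb_num_rm]
  exact mul_div_mul_right _ _ (MOrb_den_sl_ne γ τ)

lemma MOrb_phi_rm {n : ℕ} (hn : 0 < n) (γ : SL(2, ℤ)) (A : DM n) (τ : ℍ) :
    phiA hn A (γ • τ) = ((γ.1 1 0 : ℂ) * τ + (γ.1 1 1 : ℂ)) ^ 24 * phiA hn (MOrb_rm A γ) τ := by
  have h1 := MOrb_den_ne hn A (γ • τ)
  have h2 := MOrb_den_sl_ne γ τ
  unfold phiA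
  rw [MOrb_act_rm, MOrb_den_rm, E4_smul γ τ, disc_smul γ τ]
  field_simp

lemma MOrb_exists_rep {n : ℕ} (hn : 0 < n) (A : DM n) :
    ∃ B ∈ FixedDetMatrices.reps (n : ℤ), ∃ γ : SL(2, ℤ), A = γ • B := by
  have hm : (n : ℤ) ≠ 0 := by omega
  refine FixedDetMatrices.induction_on (C := fun A : DM n =>
    ∃ B ∈ FixedDetMatrices.reps (n : ℤ), ∃ γ : SL(2, ℤ), A = γ • B) (A := A) hm ?_ ?_ ?_
  · intro A h1 h2 h3 h4
    exact ⟨A, ⟨h1, h2, h3, h4⟩, 1, (one_smul _ _).symm⟩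
  · rintro B ⟨C, hC, γ, rfl⟩
    exact ⟨C, hC, ModularGroup.S * γ, (mul_smul _ _ _).symm⟩
  · rintro B ⟨C, hC, γ, rfl⟩
    exact ⟨C, hC, ModularGroup.T * γ, (mul_smul _ _ _).symm⟩

lemma MOrb_rm_smul {n : ℕ} (γ δ : SL(2, ℤ)) (A : DM n) : MOrb_rm (γ • A) δ = γ • MOrb_rm A δ := by
  apply Subtype.ext
  show (γ • A).1 * δ.1 = (γ • MOrb_rm A δ).1
  rw [FixedDetMatrices.smul_coe, FixedDetMatrices.smul_coe, Matrix.mul_assoc]
  rfl

lemma MOrb_rm_rm {n : ℕ} (γ δ : SL(2, ℤ)) (A : DM n) :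
    MOrb_rm (MOrb_rm A γ) δ = MOrb_rm A (γ * δ) := by
  apply Subtype.ext
  show (A.1 * γ.1) * δ.1 = A.1 * (γ * δ).1
  rw [Matrix.mul_assoc]
  rfl

lemma MOrb_rm_one {n : ℕ} (A : DM n) : MOrb_rm A 1 = A := by
  apply Subtype.ext
  show A.1 * (1 : SL(2, ℤ)).1 = A.1
  rw [Matrix.SpecialLinearGroup.coe_one, Matrix.mul_one]

/-- the product over the orbits of `SL(2, ℤ)` on the matrices of determinant `n`: there is a finite set of upper triangular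
representatives, and the product of the `phiA` over it is invariant of weight `24 · card` and vanishes at every `τ`
fixed by a matrix of determinant `n`. -/
theorem exists_orbits {n : ℕ} (hn : 0 < n) : ∃ R : Finset (DM n),
    R.Nonempty ∧ (∀ A ∈ R, A.1 1 0 = 0 ∧ 0 < A.1 0 0 ∧ 0 < A.1 1 1) ∧
    IsInvt (24 * R.card) (fun τ => ∏ A ∈ R, phiA hn A τ) ∧
    ∀ (A : DM n) (τ : ℍ), act hn A τ = τ → ∏ B ∈ R, phiA hn B τ = 0 := by
  classical
  let Q := MulAction.orbitRel.Quotient SL(2, ℤ) (DM n)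
  let mk : DM n → Q := fun A => Quotient.mk (MulAction.orbitRel SL(2, ℤ) (DM n)) A
  have hmk : ∀ A B : DM n, mk A = mk B ↔ ∃ γ : SL(2, ℤ), A = γ • B := by
    intro A B
    constructor
    · intro h
      have h1 : (MulAction.orbitRel SL(2, ℤ) (DM n)) A B := Quotient.exact h
      rw [MulAction.orbitRel_apply] at h1
      obtain ⟨γ, hγ⟩ := h1
      exact ⟨γ, hγ.symm⟩
    · rintro ⟨γ, hγ⟩
      apply Quotient.sound
      show (MulAction.orbitRel SL(2, ℤ) (DM n)) A B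
      rw [MulAction.orbitRel_apply]
      exact ⟨γ, hγ.symm⟩
  have hrep : ∀ q : Q, ∃ B : DM n, B ∈ FixedDetMatrices.reps (n : ℤ) ∧ mk B = q := by
    intro q
    obtain ⟨A, rfl⟩ := Quotient.exists_rep q
    obtain ⟨B, hB, γ, hγ⟩ := MOrb_exists_rep hn A
    exact ⟨B, hB, ((hmk A B).2 ⟨γ, hγ⟩).symm⟩
  choose f hf1 hf2 using hrep
  have hfin : Finite Q := by
    have : Function.Injective (fun q : Q => (⟨f q, hf1 q⟩ : FixedDetMatrices.reps (n : ℤ))) := by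
      intro q r h
      have h1 : f q = f r := congrArg Subtype.val h
      rw [← hf2 q, ← hf2 r, h1]
    exact Finite.of_injective _ this
  have : Fintype Q := Fintype.ofFinite Q
  have hfinj : Function.Injective f := fun q r h => by rw [← hf2 q, ← hf2 r, h]
  have hphi : ∀ (A B : DM n) (τ : ℍ), mk A = mk B → phiA hn A τ = phiA hn B τ := by
    intro A B τ h
    obtain ⟨γ, hγ⟩ := (hmk A B).1 h
    rw [hγ, MOrb_phi_smul]
  have hprod : ∀ τ : ℍ, ∏ A ∈ Finset.univ.image f, phiA hn A τ = ∏ q : Q, phiA hn (f q) τ := by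
    intro τ
    exact Finset.prod_image fun q _ r _ h => hfinj h
  refine ⟨Finset.univ.image f, ?_, ?_, ?_, ?_⟩
  · have hA : (Matrix.det !![(n : ℤ), 0; 0, 1]) = n := by
      rw [Matrix.det_fin_two_of]
      ring
    exact ⟨f (mk ⟨_, hA⟩), Finset.mem_image_of_mem f (Finset.mem_univ _)⟩
  · intro A hA
    obtain ⟨q, -, rfl⟩ := Finset.mem_image.1 hA
    obtain ⟨h1, h2, -, -⟩ := hf1 q
    refine ⟨h1, h2, ?_⟩
    have hdet := MOrb_det (f q)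
    rw [h1, mul_zero, sub_zero] at hdet
    by_contra h3
    push Not at h3
    have h4 : (f q).1 0 0 * (f q).1 1 1 ≤ 0 := mul_nonpos_of_nonneg_of_nonpos h2.le h3
    omega
  · intro γ τ
    show ∏ A ∈ Finset.univ.image f, phiA hn A (γ • τ) = _ * ∏ A ∈ Finset.univ.image f, phiA hn A τ
    rw [hprod, hprod, Finset.card_image_of_injective _ hfinj]
    -- right multiplication as a permutation of the orbits
    let σ : Q → Q := fun q => mk (MOrb_rm (f q) γ)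
    let σ' : Q → Q := fun q => mk (MOrb_rm (f q) γ⁻¹)
    have hgen : ∀ (δ : SL(2, ℤ)) (A : DM n), mk (MOrb_rm (f (mk A)) δ) = mk (MOrb_rm A δ) := by
      intro δ A
      obtain ⟨κ, hκ⟩ := (hmk _ _).1 (hf2 (mk A))
      rw [hκ, MOrb_rm_smul]
      exact (hmk _ _).2 ⟨κ, rfl⟩
    have hl : Function.LeftInverse σ' σ := by
      intro q
      show mk (MOrb_rm (f (mk (MOrb_rm (f q) γ))) γ⁻¹) = q
      rw [hgen, MOrb_rm_rm, mul_inv_cancel, MOrb_rm_one, hf2]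
    have hr : Function.RightInverse σ' σ := by
      intro q
      show mk (MOrb_rm (f (mk (MOrb_rm (f q) γ⁻¹))) γ) = q
      rw [hgen, MOrb_rm_rm, inv_mul_cancel, MOrb_rm_one, hf2]
    obtain ⟨e, he⟩ : ∃ e : Q ≃ Q, ∀ q, e q = mk (MOrb_rm (f q) γ) :=
      ⟨⟨σ, σ', hl, hr⟩, fun q => rfl⟩
    have e1 : ∏ q : Q, phiA hn (f q) (γ • τ)
        = ∏ q : Q, (((γ.1 1 0 : ℂ) * τ + (γ.1 1 1 : ℂ)) ^ 24 * phiA hn (f (e q)) τ) := by
      refine Finset.prod_congr rfl fun q _ => ?_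
      have h3 : mk (MOrb_rm (f q) γ) = mk (f (e q)) := by rw [hf2, he]
      rw [MOrb_phi_rm, hphi _ _ τ h3]
    have e2 : ∏ q : Q, phiA hn (f (e q)) τ = ∏ q : Q, phiA hn (f q) τ :=
      Equiv.prod_comp e (fun q => phiA hn (f q) τ)
    rw [e1, Finset.prod_mul_distrib, e2, Finset.prod_const, pow_mul]
  · intro A τ hA
    rw [hprod]
    apply Finset.prod_eq_zero (Finset.mem_univ (mk A))
    rw [hphi (f (mk A)) A τ (hf2 (mk A))]
    unfold phiA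
    rw [hA, sub_self, zero_div]

end Pool.Agent.CMR
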