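import Pool.Agent.CMR.MForm

/-!
# M-PW differences of Weierstrass functions as sums over e(z + m tau)

`sum_inv_sq`: `∑_m 1/(z-m)² = π²/sin²(πz)` for all `z ∉ ℤ` (differentiate `cot_series_rep` of Mathlib, or: true for `Im z > 0` by
`EisensteinSeries.qExpansion_identity` (`k = 1`), for `Im z < 0` by `z ↦ -z`, for real `z` by continuity of both sides), and
`sin(πz)² = -(1-x)²/(4x)`, `x = e(z)`.
`P_sub_eq`: subtract the absolutely convergent sums `hasSum_weierstrassP` at `z` and `w`: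
`℘(z) - ℘(w) = ∑_{l ∈ L} (1/(z-l)² - 1/(w-l)²)`; write `l = k + m τ` (`latticeEquivProd`), sum first over `k` (Fubini for
summable families, `HasSum.prod_fiberwise` / `HasSum.sigma`), each inner sum splits by `sum_inv_sq` (with `z - mτ`), then `m ↦ -m`.
-/

set_option autoImplicit false

noncomputable section

open UpperHalfPlane ModularForm MatrixGroups EisensteinSeries
open scoped PeriodPair

namespace Pool.Agent.CMR

/-- `Q(x) = x / (1 - x)²` -/
def QQx (x : ℂ) : ℂ := x / (1 - x) ^ 2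

/-- `e(z) = exp (2 π i z)` -/
def ex (z : ℂ) : ℂ := Complex.exp (2 * Real.pi * Complex.I * z)

private theorem ex_ne_one {z : ℂ} (hz : ∀ m : ℤ, z ≠ m) : 1 - ex z ≠ 0 := by
  intro h
  have h1 : ex z = 1 := (sub_eq_zero.1 h).symm
  rw [ex, Complex.exp_eq_one_iff] at h1
  obtain ⟨n, hn⟩ := h1
  refine hz n ?_
  have h2 : (2 * Real.pi * Complex.I : ℂ) ≠ 0 := Complex.two_pi_I_ne_zero
  apply mul_left_cancel₀ h2
  rw [hn]
  ring

private theorem summable_inv_sq (z : ℂ) : Summable fun m : ℤ => 1 / (z - m) ^ 2 := by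
  have h1 := linear_right_summable z 1 (k := 2) le_rfl
  have h2 := (Equiv.neg ℤ).summable_iff.2 h1
  refine h2.congr fun m => ?_
  simp only [Function.comp_apply, Equiv.neg_apply, Int.cast_neg, Int.cast_one, one_mul,
    one_div]
  rw [← sub_eq_add_neg]
  norm_cast

private theorem differentiableOn_inv_sq :
    DifferentiableOn ℂ (fun z : ℂ => ∑' m : ℤ, 1 / (z - m) ^ 2)
      (Set.range ((↑) : ℤ → ℂ))ᶜ := by
  intro z₀ hz₀
  obtain ⟨ε, hε, hball⟩ := Metric.isOpen_iff.1 Complex.isOpen_compl_range_intCast z₀ hz₀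
  have hd : ∀ m : ℤ, ε ≤ ‖z₀ - m‖ := by
    intro m
    by_contra hlt
    rw [not_le] at hlt
    have h1 : (m : ℂ) ∈ Metric.ball z₀ ε := by
      rw [Metric.mem_ball, dist_comm, dist_eq_norm]
      exact hlt
    exact hball h1 ⟨m, rfl⟩
  have hu : Summable fun m : ℤ => 4 * ‖1 / (z₀ - m) ^ 2‖ :=
    (summable_inv_sq z₀).norm.mul_left 4
  have hlow : ∀ (m : ℤ) (w : ℂ), w ∈ Metric.ball z₀ (ε / 2) → ‖z₀ - m‖ / 2 ≤ ‖w - m‖ := by
    intro m w hw
    rw [Metric.mem_ball, dist_eq_norm] at hw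
    have h1 : ‖z₀ - m‖ ≤ ‖w - z₀‖ + ‖w - m‖ := by
      have h2 : z₀ - m = -(w - z₀) + (w - m) := by ring
      rw [h2]
      refine (norm_add_le _ _).trans ?_
      rw [norm_neg]
    have h3 := hd m
    linarith
  have h := Complex.differentiableOn_tsum_of_summable_norm (F := fun (m : ℤ) (w : ℂ) => 1 / (w - m) ^ 2)
    (U := Metric.ball z₀ (ε / 2)) hu ?_ Metric.isOpen_ball ?_
  · exact ((h z₀ (Metric.mem_ball_self (by positivity))).differentiableAt
      (Metric.isOpen_ball.mem_nhds (Metric.mem_ball_self (by positivity)))).differentiableWithinAt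
  · intro m w hw
    have h1 := hlow m w hw
    have h2 := hd m
    have h3 : w - m ≠ 0 := by
      intro h
      rw [h, norm_zero] at h1
      linarith
    refine DifferentiableAt.differentiableWithinAt ?_
    exact DifferentiableAt.div (differentiableAt_const _) (by fun_prop) (pow_ne_zero 2 h3)
  · intro m w hw
    have h1 := hlow m w hw
    have h2 := hd m
    have h3 : 0 < ‖z₀ - m‖ := by linarith
    have h4 : 0 < ‖w - m‖ := by linarith
    rw [norm_div, norm_one, norm_pow, norm_div, norm_one, norm_pow, mul_one_div,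
      div_le_div_iff₀ (by positivity) (by positivity)]
    nlinarith

private theorem tsum_upper (z : ℍ) : ∑' m : ℤ, 1 / ((z : ℂ) - m) ^ 2 =
    (2 * Real.pi * Complex.I) ^ 2 * QQx (ex z) := by
  have h1 := qExpansion_identity (k := 1) le_rfl z
  have h2 : ‖Complex.exp (2 * Real.pi * Complex.I * z)‖ < 1 :=
    UpperHalfPlane.norm_exp_two_pi_I_lt_one z
  have h3 := tsum_coe_mul_geometric_of_norm_lt_one h2
  have h4 : ∑' m : ℤ, 1 / ((z : ℂ) - m) ^ 2 = ∑' m : ℤ, 1 / ((z : ℂ) + m) ^ (1 + 1) := by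
    rw [← (Equiv.neg ℤ).tsum_eq]
    refine tsum_congr fun m => ?_
    rw [Equiv.neg_apply, Int.cast_neg, sub_neg_eq_add]
  rw [h4, h1]
  have h5 : ∑' n : ℕ, (n : ℂ) ^ 1 * Complex.exp (2 * Real.pi * Complex.I * z) ^ n =
      QQx (ex z) := by
    rw [QQx, ex, ← h3]
    exact tsum_congr fun n => by rw [pow_one]
  rw [h5]
  simp only [Nat.factorial_one, Nat.cast_one, div_one]
  ring

theorem sum_inv_sq (z : ℂ) (hz : ∀ m : ℤ, z ≠ m) :
    HasSum (fun m : ℤ => 1 / (z - m) ^ 2) ((2 * Real.pi * Complex.I) ^ 2 * QQx (ex z)) := by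
  have hopen : IsOpen (Set.range ((↑) : ℤ → ℂ))ᶜ := Complex.isOpen_compl_range_intCast
  have hne : ∀ w ∈ (Set.range ((↑) : ℤ → ℂ))ᶜ, 1 - ex w ≠ 0 := fun w hw =>
    ex_ne_one fun m h => hw ⟨m, h.symm⟩
  have h1 : AnalyticOnNhd ℂ (fun z : ℂ => ∑' m : ℤ, 1 / (z - m) ^ 2)
      (Set.range ((↑) : ℤ → ℂ))ᶜ := differentiableOn_inv_sq.analyticOnNhd hopen
  have h2 : AnalyticOnNhd ℂ (fun z : ℂ => (2 * Real.pi * Complex.I) ^ 2 * QQx (ex z))
      (Set.range ((↑) : ℤ → ℂ))ᶜ := by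
    refine DifferentiableOn.analyticOnNhd ?_ hopen
    intro w hw
    refine DifferentiableAt.differentiableWithinAt ?_
    refine DifferentiableAt.const_mul ?_ _
    have h3 : DifferentiableAt ℂ ex w := by
      unfold ex
      fun_prop
    unfold QQx
    exact h3.div ((h3.const_sub 1).pow 2) (pow_ne_zero 2 (hne w hw))
  have hconn : IsPreconnected (Set.range ((↑) : ℤ → ℂ))ᶜ := by
    refine (Set.Countable.isConnected_compl_of_one_lt_rank ?_
      (Set.countable_range _)).isPreconnected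
    rw [Complex.rank_real_complex]
    norm_num
  have hI : Complex.I ∈ (Set.range ((↑) : ℤ → ℂ))ᶜ := by
    rintro ⟨m, hm⟩
    have := congrArg Complex.im hm
    simp at this
  have hev : (fun z : ℂ => ∑' m : ℤ, 1 / (z - m) ^ 2) =ᶠ[nhds Complex.I]
      fun z : ℂ => (2 * Real.pi * Complex.I) ^ 2 * QQx (ex z) := by
    have h3 : ∀ᶠ w : ℂ in nhds Complex.I, 0 < w.im :=
      (isOpen_lt continuous_const Complex.continuous_im).mem_nhds (by simp)
    filter_upwards [h3] with w hw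
    exact tsum_upper ⟨w, hw⟩
  have h4 := h1.eqOn_of_preconnected_of_eventuallyEq h2 hconn hI hev
  have hz' : z ∈ (Set.range ((↑) : ℤ → ℂ))ᶜ := by
    rintro ⟨m, hm⟩
    exact hz m hm.symm
  have h5 : ∑' m : ℤ, 1 / (z - m) ^ 2 = (2 * Real.pi * Complex.I) ^ 2 * QQx (ex z) := h4 hz'
  rw [← h5]
  exact (summable_inv_sq z).hasSum

private theorem not_int_of_not_mem (τ : ℍ) {z : ℂ} (hz : z ∉ (Ltau τ).lattice) (m k : ℤ) :
    z - m * τ ≠ k := by
  intro h
  apply hz
  have h1 : z = k * (Ltau τ).ω₁ + m * (Ltau τ).ω₂ := by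
    change z = k * 1 + m * (τ : ℂ)
    rw [← h]
    ring
  rw [h1, ← (Ltau τ).latticeEquiv_symm_apply (k, m)]
  exact ((Ltau τ).latticeEquivProd.symm (k, m)).2

theorem P_sub_eq (τ : ℍ) {z w : ℂ} (hz : z ∉ (Ltau τ).lattice) (hw : w ∉ (Ltau τ).lattice) :
    HasSum (fun m : ℤ => QQx (ex (z + m * τ)) - QQx (ex (w + m * τ)))
      ((℘[Ltau τ] z - ℘[Ltau τ] w) / (2 * Real.pi * Complex.I) ^ 2) := by
  have h2pi : ((2 * Real.pi * Complex.I : ℂ)) ^ 2 ≠ 0 := pow_ne_zero 2 Complex.two_pi_I_ne_zero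
  have h1 : HasSum (fun l : (Ltau τ).lattice => 1 / (z - l) ^ 2 - 1 / (w - l) ^ 2)
      (℘[Ltau τ] z - ℘[Ltau τ] w) := by
    refine (((Ltau τ).hasSum_weierstrassP z).sub ((Ltau τ).hasSum_weierstrassP w)).congr_fun ?_
    intro l
    ring
  have h2 : HasSum (fun x : ℤ × ℤ => 1 / (z - x.2 - x.1 * τ) ^ 2 - 1 / (w - x.2 - x.1 * τ) ^ 2)
      (℘[Ltau τ] z - ℘[Ltau τ] w) := by
    have e := ((Ltau τ).latticeEquivProd.toEquiv.trans (Equiv.prodComm ℤ ℤ)).symm
    rw [← ((Ltau τ).latticeEquivProd.toEquiv.trans (Equiv.prodComm ℤ ℤ)).symm.hasSum_iff] at h1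
    convert h1 using 2 with x
    have h3 : ((((Ltau τ).latticeEquivProd.toEquiv.trans (Equiv.prodComm ℤ ℤ)).symm x :
        (Ltau τ).lattice) : ℂ) = x.2 * 1 + x.1 * τ :=
      (Ltau τ).latticeEquiv_symm_apply (x.2, x.1)
    rw [Function.comp_apply, h3]
    congr 3 <;> ring
  have h3 : ∀ m : ℤ, HasSum (fun k : ℤ => 1 / (z - k - m * τ) ^ 2 - 1 / (w - k - m * τ) ^ 2)
      ((2 * Real.pi * Complex.I) ^ 2 * (QQx (ex (z - m * τ)) - QQx (ex (w - m * τ)))) := by
    intro m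
    have h4 := (sum_inv_sq (z - m * τ) (not_int_of_not_mem τ hz m)).sub
      (sum_inv_sq (w - m * τ) (not_int_of_not_mem τ hw m))
    rw [← mul_sub] at h4
    refine h4.congr_fun fun k => ?_
    rw [sub_right_comm z, sub_right_comm w]
  have h4 := h2.prod_fiberwise h3
  have h5 := h4.div_const ((2 * Real.pi * Complex.I) ^ 2)
  rw [← (Equiv.neg ℤ).hasSum_iff]
  refine h5.congr_fun fun m => ?_
  rw [Function.comp_apply, Equiv.neg_apply, mul_div_cancel_left₀ _ h2pi, Int.cast_neg, neg_mul,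
    ← sub_eq_add_neg, ← sub_eq_add_neg]

end Pool.Agent.CMR
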