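import Pool.Agent.CMR.MInt
import Pool.Agent.CMR.MForm
import Pool.Agent.CMR.MOrb

/-!
# M-TRI q-expansion of the factors of the modular product

`A = (a b; 0 d)`, `a d = n`, `a ≠ d` since `n` is not a square. `d^{12} phiA = E₄(τ)³ Δ((aτ+b)/d) - E₄((aτ+b)/d)³ Δ(τ)`. With
`q_n = qn n τ`: `q = q_n^n` and `exp (2 π i (aτ+b)/d) = ζ q_n^{a²}`, `ζ = exp (2 π i b/d)`, since `a/d = a²/n`. So if
`f = ∑ c_j q^j` then `f((aτ+b)/d) = ∑ c_j ζ^j q_n^{a² j}`: integral expansions in `q_n` (roots of unity are in `V`, valuation `1`; the coefficients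
of `E₄`, `Δ` are integers). `E₄³ = 1 + …`, `Δ = q + …`: the first term is `ζ q_n^{a²} (1 + …)`, the second `q_n^n (1 + …)`, `a² ≠ n`,
so `r = min (a², n)` and the leading coefficient is `ζ` or `-1`. (A lemma: if `IsQExp n φ f` and `φ` is integral with
coefficients `0` below `r` and coefficient `r` of valuation `1`, then `φ = X^r ψ`.)
-/

set_option autoImplicit false

noncomputable section

open UpperHalfPlane ModularForm MatrixGroups EisensteinSeries
open scoped PeriodPair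

namespace Pool.Agent.CMR

/-- substitution of `ζ X^s` for `X` -/
private def scl (s : ℕ) (ζ : ℂ) (ψ : PowerSeries ℂ) : PowerSeries ℂ :=
  PowerSeries.mk fun j => if s ∣ j then ζ ^ (j / s) * ψ.coeff (j / s) else 0

private lemma scl_coeff (s : ℕ) (ζ : ℂ) (ψ : PowerSeries ℂ) (j : ℕ) :
    (scl s ζ ψ).coeff j = if s ∣ j then ζ ^ (j / s) * ψ.coeff (j / s) else 0 :=
  PowerSeries.coeff_mk _ _

private lemma scl_coeff_zero (s : ℕ) (ζ : ℂ) (ψ : PowerSeries ℂ) :
    (scl s ζ ψ).coeff 0 = ψ.coeff 0 := by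
  rw [scl_coeff, if_pos (dvd_zero s), Nat.zero_div, pow_zero, one_mul]

private lemma scl_int {V : ValuationSubring ℂ} (s : ℕ) {ζ : ℂ} (hζ : ζ ∈ V) {ψ : PowerSeries ℂ}
    (h : IntV V ψ) : IntV V (scl s ζ ψ) := by
  intro j
  rw [scl_coeff]
  split_ifs
  · exact V.mul_mem _ _ (V.toSubring.pow_mem hζ _) (h _)
  · exact V.zero_mem

/-- the expansion of `f ∘ A` -/
private lemma scl_isQExp {n : ℕ} {s : ℕ} (hs : 0 < s) {ζ : ℂ} {g : ℍ → ℍ}
    (hg : ∀ τ, qn 1 (g τ) = ζ * qn n τ ^ s) {ψ : PowerSeries ℂ} {f : ℍ → ℂ}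
    (hf : IsQExp 1 ψ f) : IsQExp n (scl s ζ ψ) (fun τ => f (g τ)) := by
  intro τ
  have h1 := hf (g τ)
  have hinj : Function.Injective (fun j : ℕ => s * j) := fun i j h =>
    Nat.eq_of_mul_eq_mul_left hs h
  have h2 : HasSum (fun j : ℕ => (scl s ζ ψ).coeff (s * j) * qn n τ ^ (s * j)) (f (g τ)) := by
    have h4 : (fun j : ℕ => (scl s ζ ψ).coeff (s * j) * qn n τ ^ (s * j))
        = fun j => ψ.coeff j * qn 1 (g τ) ^ j := by
      funext j
      rw [scl_coeff, if_pos (Dvd.intro _ rfl), Nat.mul_div_cancel_left _ hs, hg, mul_pow,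
        ← pow_mul]
      ring
    rw [h4]
    exact h1
  have h3 := (hinj.hasSum_iff (f := fun j => (scl s ζ ψ).coeff j * qn n τ ^ j) ?_).1 h2
  · exact h3
  · intro j hj
    rw [scl_coeff, if_neg, zero_mul]
    rintro ⟨k, rfl⟩
    exact hj ⟨k, rfl⟩

/-- splitting off the leading power -/
private lemma scl_lead {V : ValuationSubring ℂ} {s : ℕ} (hs : 0 < s) {ζ : ℂ} (hζ : ζ ∈ V)
    {ψ : PowerSeries ℂ} (h : IntV V ψ) (h0 : ψ.coeff 0 = 0) (h1 : ψ.coeff 1 = 1) :
    ∃ u : PowerSeries ℂ, scl s ζ ψ = PowerSeries.X ^ s * u ∧ IntV V u ∧ u.coeff 0 = ζ := by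
  have hd : (PowerSeries.X : PowerSeries ℂ) ^ s ∣ scl s ζ ψ := by
    rw [PowerSeries.X_pow_dvd_iff]
    intro m hm
    rw [scl_coeff]
    split_ifs with hdv
    · have : m = 0 := Nat.eq_zero_of_dvd_of_lt hdv hm
      rw [this, Nat.zero_div, h0, mul_zero]
    · rfl
  obtain ⟨u, hu⟩ := hd
  have hc : ∀ j, u.coeff j = (scl s ζ ψ).coeff (j + s) := by
    intro j
    rw [hu, PowerSeries.coeff_X_pow_mul]
  refine ⟨u, hu, fun j => ?_, ?_⟩
  · rw [hc]
    exact scl_int s hζ h _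
  · rw [hc, zero_add, scl_coeff, if_pos (dvd_refl s), Nat.div_self hs, h1, pow_one, mul_one]

private lemma coeff_zero_mul' (φ ψ : PowerSeries ℂ) :
    (φ * ψ).coeff 0 = φ.coeff 0 * ψ.coeff 0 := by
  simp only [PowerSeries.coeff_zero_eq_constantCoeff_apply, map_mul]

private lemma coeff_zero_X_pow' {m : ℕ} (hm : m ≠ 0) :
    ((PowerSeries.X : PowerSeries ℂ) ^ m).coeff 0 = 0 := by
  simp only [PowerSeries.coeff_zero_eq_constantCoeff_apply, map_pow, PowerSeries.constantCoeff_X]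
  exact zero_pow hm

private lemma intV_qExp {V : ValuationSubring ℂ} {φ : PowerSeries ℂ}
    (h : ∀ i, ∃ z : ℤ, φ.coeff i = z) : IntV V φ := by
  intro i
  obtain ⟨z, hz⟩ := h i
  rw [hz]
  exact intCast_mem V z

/-- the expansion of the factor of an upper triangular matrix -/
theorem phiA_qExp (V : ValuationSubring ℂ) {n : ℕ} (hn : 0 < n) (hsq : ¬ IsSquare n) (A : DM n)
    (hc : A.1 1 0 = 0) (ha : 0 < A.1 0 0) (hd : 0 < A.1 1 1) :
    ∃ (r : ℕ) (φ : PowerSeries ℂ), r ≤ n ∧ IntV V φ ∧ V.valuation (φ.coeff 0) = 1 ∧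
      IsQExp n (PowerSeries.X ^ r * φ) (fun τ => (A.1 1 1 : ℂ) ^ 12 * phiA hn A τ) := by
  obtain ⟨a, ha'⟩ := Int.eq_ofNat_of_zero_le ha.le
  obtain ⟨d, hd'⟩ := Int.eq_ofNat_of_zero_le hd.le
  have ha0 : 0 < a := by omega
  have hd0 : 0 < d := by omega
  have hdet : a * d = n := by
    have h := A.2
    rw [Matrix.det_fin_two, hc, ha', hd'] at h
    have h2 : ((a : ℤ)) * d = n := by linarith
    exact_mod_cast h2
  have hdC : (d : ℂ) ≠ 0 := by exact_mod_cast hd0.ne'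
  have haC : (a : ℂ) ≠ 0 := by exact_mod_cast ha0.ne'
  set b : ℤ := A.1 0 1 with hb
  set ζ : ℂ := Complex.exp (2 * Real.pi * Complex.I * b / d) with hζ
  have hζd : ζ ^ d = 1 := by
    rw [hζ, ← Complex.exp_nat_mul]
    have e : (d : ℂ) * (2 * Real.pi * Complex.I * b / d) = b * (2 * Real.pi * Complex.I) := by
      field_simp
    rw [e]
    exact Complex.exp_int_mul_two_pi_mul_I b
  have hζv : V.valuation ζ = 1 := by
    have h := congrArg V.valuation hζd
    rw [map_pow, map_one] at h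
    exact (pow_eq_one_iff_of_nonneg zero_le hd0.ne').1 h
  have hζV : ζ ∈ V := (V.valuation_le_one_iff ζ).1 hζv.le
  have hone : (1 : ℂ) ∈ V := V.one_mem
  have hact : ∀ τ, qn 1 (act hn A τ) = ζ * qn n τ ^ (a ^ 2) := by
    intro τ
    have h1 : ((act hn A τ : ℍ) : ℂ) = ((a : ℂ) * τ + b) / d := by
      show ((A.1 0 0 : ℂ) * τ + (A.1 0 1 : ℂ)) / ((A.1 1 0 : ℂ) * τ + (A.1 1 1 : ℂ)) = _
      rw [ha', hd', hc]
      push_cast
      rw [zero_mul, zero_add]
    unfold qn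
    rw [h1, hζ, ← Complex.exp_nat_mul, ← Complex.exp_add]
    congr 1
    rw [← hdet]
    push_cast
    field_simp
    ring
  have hid : ∀ τ : ℍ, qn 1 τ = 1 * qn n τ ^ n := by
    intro τ
    unfold qn
    rw [one_mul, ← Complex.exp_nat_mul]
    congr 1
    have hnC : (n : ℂ) ≠ 0 := by exact_mod_cast hn.ne'
    push_cast
    field_simp
  set ε := qExpansion 1 E₄ with hε
  set δ := qExpansion 1 discriminant with hδ
  have hεV : IntV V ε := intV_qExp E4_coeff_int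
  have hδV : IntV V δ := intV_qExp disc_coeff_int
  have ha2 : 0 < a ^ 2 := by positivity
  -- the four expansions
  have q1 : IsQExp n (scl n 1 ε ^ 3) (fun τ => E₄ τ ^ 3) :=
    (scl_isQExp (g := id) hn hid E4_isQExp).pow hn 3
  have q2 : IsQExp n (scl (a ^ 2) ζ δ) (fun τ => discriminant (act hn A τ)) :=
    scl_isQExp ha2 hact disc_isQExp
  have q3 : IsQExp n (scl (a ^ 2) ζ ε ^ 3) (fun τ => E₄ (act hn A τ) ^ 3) :=
    (scl_isQExp ha2 hact E4_isQExp).pow hn 3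
  have q4 : IsQExp n (scl n 1 δ) (fun τ => discriminant τ) :=
    scl_isQExp (g := id) hn hid disc_isQExp
  obtain ⟨u, hu, huV, hu0⟩ := scl_lead (V := V) ha2 hζV hδV disc_coeff_zero disc_coeff_one
  obtain ⟨v, hv, hvV, hv0⟩ := scl_lead (V := V) hn hone hδV disc_coeff_zero disc_coeff_one
  have q5 := (q1.mul hn q2).sub (q3.mul hn q4)
  have hfun : (fun τ => (A.1 1 1 : ℂ) ^ 12 * phiA hn A τ) = fun τ =>
      E₄ τ ^ 3 * discriminant (act hn A τ) - E₄ (act hn A τ) ^ 3 * discriminant τ := by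
    funext τ
    unfold phiA
    rw [hc, hd']
    push_cast
    rw [zero_mul, zero_add]
    field_simp
  rw [hfun]
  have c1 : (scl n 1 ε ^ 3).coeff 0 = 1 := by
    rw [PowerSeries.coeff_zero_eq_constantCoeff_apply, map_pow,
      ← PowerSeries.coeff_zero_eq_constantCoeff_apply, scl_coeff_zero, E4_coeff_zero, one_pow]
  have c3 : (scl (a ^ 2) ζ ε ^ 3).coeff 0 = 1 := by
    rw [PowerSeries.coeff_zero_eq_constantCoeff_apply, map_pow,
      ← PowerSeries.coeff_zero_eq_constantCoeff_apply, scl_coeff_zero, E4_coeff_zero, one_pow]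
  have i1 : IntV V (scl n 1 ε ^ 3) := (scl_int n hone hεV).pow 3
  have i3 : IntV V (scl (a ^ 2) ζ ε ^ 3) := (scl_int (a ^ 2) hζV hεV).pow 3
  have hne : a ^ 2 ≠ n := by
    intro h
    exact hsq ⟨a, by rw [← h, sq]⟩
  rcases lt_or_gt_of_ne hne with hlt | hgt
  · refine ⟨a ^ 2, scl n 1 ε ^ 3 * u - scl (a ^ 2) ζ ε ^ 3 * (PowerSeries.X ^ (n - a ^ 2) * v),
      hlt.le, (i1.mul huV).sub (i3.mul ((IntV.X_pow V _).mul hvV)), ?_, ?_⟩
    · have e : (scl n 1 ε ^ 3 * u -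
          scl (a ^ 2) ζ ε ^ 3 * (PowerSeries.X ^ (n - a ^ 2) * v)).coeff 0 = ζ := by
        rw [map_sub, coeff_zero_mul', coeff_zero_mul', coeff_zero_mul', c1, hu0,
          coeff_zero_X_pow' (by omega)]
        ring
      rw [e, hζv]
    · have e : PowerSeries.X ^ (a ^ 2) * (scl n 1 ε ^ 3 * u -
          scl (a ^ 2) ζ ε ^ 3 * (PowerSeries.X ^ (n - a ^ 2) * v))
          = scl n 1 ε ^ 3 * scl (a ^ 2) ζ δ - scl (a ^ 2) ζ ε ^ 3 * scl n 1 δ := by
        rw [hu, hv]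
        have e2 : (PowerSeries.X : PowerSeries ℂ) ^ n
            = PowerSeries.X ^ (a ^ 2) * PowerSeries.X ^ (n - a ^ 2) := by
          rw [← pow_add]
          congr 1
          omega
        rw [e2]
        ring
      rw [e]
      exact q5
  · refine ⟨n, scl n 1 ε ^ 3 * (PowerSeries.X ^ (a ^ 2 - n) * u) - scl (a ^ 2) ζ ε ^ 3 * v,
      le_refl _, (i1.mul ((IntV.X_pow V _).mul huV)).sub (i3.mul hvV), ?_, ?_⟩
    · have e : (scl n 1 ε ^ 3 * (PowerSeries.X ^ (a ^ 2 - n) * u) -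
          scl (a ^ 2) ζ ε ^ 3 * v).coeff 0 = -1 := by
        rw [map_sub, coeff_zero_mul', coeff_zero_mul', coeff_zero_mul', c3, hv0,
          coeff_zero_X_pow' (by omega)]
        ring
      rw [e, Valuation.map_neg, map_one]
    · have e : PowerSeries.X ^ n * (scl n 1 ε ^ 3 * (PowerSeries.X ^ (a ^ 2 - n) * u) -
          scl (a ^ 2) ζ ε ^ 3 * v)
          = scl n 1 ε ^ 3 * scl (a ^ 2) ζ δ - scl (a ^ 2) ζ ε ^ 3 * scl n 1 δ := by
        rw [hu, hv]
        have e2 : (PowerSeries.X : PowerSeries ℂ) ^ (a ^ 2)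
            = PowerSeries.X ^ n * PowerSeries.X ^ (a ^ 2 - n) := by
          rw [← pow_add]
          congr 1
          omega
        rw [e2]
        ring
      rw [e]
      exact q5

end Pool.Agent.CMR
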