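import Pool.Agent.CMR.ZArt
import Pool.Agent.CMG.ArtRoot
import Pool.Agent.CMG.LRam
import Pool.Agent.CMG.SAux

/-!
# Moduli of subextensions, composita and cyclotomic extensions

`IsMod.mono`, `IsMod.of_le` (subextensions), `IsMod.of_two` (composita), `IsMod.cyclotomic`
(`M(ζ_m)` for `k` totally complex); `IsStarkUnit` only depends on the prime divisors of `N`.
-/

set_option autoImplicit false

noncomputable section

open NumberField Pool.Agent.StarkRQ

namespace Pool.Agent.CMR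

/-! ## Stark units and the prime divisors of the level -/

theorem coprime_congr {N N' : ℕ} (h : ∀ p : ℕ, p.Prime → (p ∣ N ↔ p ∣ N')) (n : ℕ) :
    n.Coprime N ↔ n.Coprime N' := by
  have key : ∀ {N N' : ℕ}, (∀ p : ℕ, p.Prime → (p ∣ N ↔ p ∣ N')) → n.Coprime N →
      n.Coprime N' := by
    intro N N' h hc
    refine Nat.coprime_of_dvd fun p hp h1 h2 => ?_
    exact Nat.Prime.not_coprime_iff_dvd.2 ⟨p, hp, h1, (h p hp).2 h2⟩ hc
  exact ⟨key h, key fun p hp => (h p hp).symm⟩

section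

variable {F L : Type} [Field F] [NumberField F] [Field L] [NumberField L] [Algebra F L]

omit [NumberField L] in
theorem isPartialZeta_congr {N N' : ℕ} (h : ∀ p : ℕ, p.Prime → (p ∣ N ↔ p ∣ N')) {σ : Gal(L/F)}
    {Z : ℂ → ℂ} (hZ : IsPartialZeta N σ Z) : IsPartialZeta N' σ Z := by
  refine ⟨hZ.1, fun s hs => ?_⟩
  have h1 : (fun n => (zcoeff N σ n : ℂ)) = fun n => (zcoeff N' σ n : ℂ) := by
    funext n
    simp only [zcoeff, coprime_congr h]
  rw [hZ.2 s hs, h1]

/-- the property to be a Stark unit only depends on the prime divisors of `N` -/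
theorem isStarkUnit_congr {N N' : ℕ} (h : ∀ p : ℕ, p.Prime → (p ∣ N ↔ p ∣ N')) {ι : L →+* ℂ}
    {η : L} (hη : IsStarkUnit F ι N η) : IsStarkUnit F ι N' η := by
  refine ⟨hη.ne_zero, hη.isIntegral, fun σ => ?_, hη.abelian⟩
  obtain ⟨Z, hZ, hd⟩ := hη.deriv_zeta σ
  exact ⟨Z, isPartialZeta_congr h hZ, hd⟩

end

/-! ## Norms of elements congruent to one -/

/-- the norm of `a ≡ 1` modulo `m` is `≡ 1` modulo `m` -/
theorem norm_congr_one {k : Type} [Field k] [NumberField k] {m : ℕ} {a : 𝓞 k}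
    (h : (m : 𝓞 k) ∣ a - 1) : (m : ℤ) ∣ Algebra.norm ℤ a - 1 := by
  classical
  obtain ⟨c, hc⟩ := h
  have ha : a = 1 + (m : 𝓞 k) * c := by rw [← hc]; ring
  set b := RingOfIntegers.basis k
  have h1 : Int.castRingHom (ZMod m) (Algebra.norm ℤ a) = 1 := by
    rw [Algebra.norm_eq_matrix_det b, RingHom.map_det]
    have h2 : (Int.castRingHom (ZMod m)).mapMatrix (Algebra.leftMulMatrix b a) = 1 := by
      rw [ha, map_add, map_one, map_mul, map_natCast, map_add, map_one, map_mul, map_natCast]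
      have h3 : ((m : ℕ) : Matrix _ _ (ZMod m)) =
          (0 : Matrix (Module.Free.ChooseBasisIndex ℤ (𝓞 k))
            (Module.Free.ChooseBasisIndex ℤ (𝓞 k)) (ZMod m)) := by
        rw [← map_natCast (Matrix.scalar (Module.Free.ChooseBasisIndex ℤ (𝓞 k))) m,
          ZMod.natCast_self, map_zero]
      rw [h3, zero_mul, add_zero]
    rw [h2, Matrix.det_one]
  rw [eq_intCast] at h1
  rw [← ZMod.intCast_zmod_eq_zero_iff_dvd, Int.cast_sub, h1, Int.cast_one, sub_self]

/-- norms from totally complex fields are positive -/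
theorem norm_pos_of_complex {k : Type} [Field k] [NumberField k] [IsTotallyComplex k] {x : k}
    (hx : x ≠ 0) : 0 < Algebra.norm ℚ x := by
  classical
  have h1 : ((Algebra.norm ℚ x : ℚ) : ℂ) = ∏ φ : k →+* ℂ, φ x := by
    have h2 := Algebra.norm_eq_prod_embeddings ℚ ℂ (L := k) x
    rw [← Fintype.prod_equiv (RingHom.equivRatAlgHom k ℂ) (fun f => f x)
      (fun f => f x) fun _ => by simp [RingHom.equivRatAlgHom_apply]] at h2
    exact h2
  have h3 : ∏ φ : k →+* ℂ, φ x = ((∏ w : InfinitePlace k, (w x) ^ 2 : ℝ) : ℂ) := by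
    rw [← Finset.prod_fiberwise Finset.univ InfinitePlace.mk (fun φ : k →+* ℂ => φ x)]
    push_cast
    refine Finset.prod_congr rfl fun w _ => ?_
    have hne : w.embedding ≠ ComplexEmbedding.conjugate w.embedding := by
      intro h
      have h4 : w.IsComplex := IsTotallyComplex.isComplex w
      have h5 := InfinitePlace.isComplex_iff.1 h4
      exact h5 h.symm
    have h4 : (Finset.univ.filter fun φ : k →+* ℂ => InfinitePlace.mk φ = w) =
        {w.embedding, ComplexEmbedding.conjugate w.embedding} := by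
      ext φ
      rw [Finset.mem_filter, Finset.mem_insert, Finset.mem_singleton]
      constructor
      · rintro ⟨-, h⟩
        rw [← InfinitePlace.mk_embedding w, InfinitePlace.mk_eq_iff] at h
        rcases h with h | h
        · exact Or.inl h
        · right
          rw [← h]
          exact (star_star φ).symm
      · rintro (h | h)
        · exact ⟨Finset.mem_univ _, by rw [h, InfinitePlace.mk_embedding]⟩
        · exact ⟨Finset.mem_univ _, by
            rw [h, InfinitePlace.mk_conjugate_eq, InfinitePlace.mk_embedding]⟩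
    rw [h4, Finset.prod_pair hne, ComplexEmbedding.conjugate_coe_eq, Complex.mul_conj,
      Complex.normSq_eq_norm_sq, InfinitePlace.norm_embedding_eq]
    push_cast
    rfl
  have h4 : (Algebra.norm ℚ x : ℝ) = ∏ w : InfinitePlace k, (w x) ^ 2 := by
    have h5 := h1.trans h3
    exact_mod_cast h5
  have h5 : 0 < ∏ w : InfinitePlace k, (w x) ^ 2 :=
    Finset.prod_pos fun w _ => pow_pos (InfinitePlace.pos_iff.2 hx) 2
  rw [← h4] at h5
  exact_mod_cast h5

/-- the norm of the ideal `(a)`, `a ≡ 1` modulo `m`, is `≡ 1` modulo `m` -/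
theorem absNorm_congr_one {k : Type} [Field k] [NumberField k] [IsTotallyComplex k] {m : ℕ}
    {a : 𝓞 k} (ha : a ≠ 0) (h : (m : 𝓞 k) ∣ a - 1) :
    (m : ℤ) ∣ (Ideal.absNorm (Ideal.span {a}) : ℤ) - 1 := by
  have h1 : 0 < Algebra.norm ℚ (a : k) :=
    norm_pos_of_complex ((RingOfIntegers.coe_ne_zero_iff).2 ha)
  rw [← Algebra.coe_norm_int] at h1
  have h2 : 0 < Algebra.norm ℤ a := by exact_mod_cast h1
  rw [Ideal.absNorm_span_singleton, Int.natAbs_of_nonneg h2.le]
  exact norm_congr_one h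

/-! ## Moduli -/

section

variable {k : Type} [Field k] [NumberField k]

theorem IsMod.mono {M : Type} [Field M] [NumberField M] [Algebra k M] {N N' : ℕ}
    (h : IsMod k M N) (hN : N ∣ N') : IsMod k M N' :=
  ⟨fun p hp h1 => (h.ram p hp h1).trans hN,
    fun a ha h1 => h.artin a ha (dvd_trans (Nat.cast_dvd_cast hN) h1)⟩

section tower

variable {M L : Type} [Field M] [NumberField M] [Field L] [NumberField L] [Algebra k M]
  [Algebra k L] [Algebra M L] [IsScalarTower k M L]

omit [NumberField k] [NumberField M] [NumberField L] in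
private theorem mod_smul [Normal k M] (ψ : Gal(L/k)) (x : 𝓞 M) :
    algebraMap (𝓞 M) (𝓞 L) (AlgEquiv.restrictNormalHom M ψ • x) =
      ψ • algebraMap (𝓞 M) (𝓞 L) x := by
  apply NumberField.RingOfIntegers.ext
  change algebraMap M L ((AlgEquiv.restrictNormalHom M ψ) (x : M)) = ψ (algebraMap M L (x : M))
  exact AlgEquiv.restrictNormal_commutes ψ M (x : M)

omit [NumberField k] [NumberField M] [NumberField L] in
private theorem mod_algebraMap :
    algebraMap (𝓞 k) (𝓞 L) = (algebraMap (𝓞 M) (𝓞 L)).comp (algebraMap (𝓞 k) (𝓞 M)) := by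
  ext x
  change algebraMap k L (x : k) = algebraMap M L (algebraMap k M (x : k))
  rw [← IsScalarTower.algebraMap_apply k M L]

theorem isFrob_restrict [Normal k M] {𝔮 : Ideal (𝓞 k)} {ψ : Gal(L/k)} (h : IsFrob 𝔮 ψ) :
    IsFrob 𝔮 (AlgEquiv.restrictNormalHom M ψ) := by
  obtain ⟨Q, hQ, hQ𝔮, hx⟩ := h
  refine ⟨Q.comap (algebraMap (𝓞 M) (𝓞 L)), Ideal.comap_isPrime _ _, ?_, fun x => ?_⟩
  · rw [Ideal.comap_comap, ← mod_algebraMap, hQ𝔮]
  · rw [Ideal.mem_comap, map_sub, map_pow, mod_smul]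
    exact hx _

/-- Artin symbols and restriction -/
theorem hasArtin_restrict [Normal k M] {𝔞 : Ideal (𝓞 k)} {σ : Gal(L/k)}
    (h : HasArtinSymbol 𝔞 σ) : HasArtinSymbol 𝔞 (AlgEquiv.restrictNormalHom M σ) := by
  obtain ⟨l, hl, hp, hs⟩ := h
  refine ⟨l.map fun x => (x.1, AlgEquiv.restrictNormalHom M x.2), ?_, ?_, ?_⟩
  · intro x hx
    obtain ⟨y, hy, rfl⟩ := List.mem_map.1 hx
    obtain ⟨h1, h2, h3⟩ := hl y hy
    exact ⟨h1, h2, isFrob_restrict h3⟩
  · rw [List.map_map]
    exact hp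
  · rw [List.map_map, ← hs, map_list_prod, List.map_map]
    rfl

/-- subextensions -/
theorem IsMod.of_le [Normal k M] {N : ℕ} (h : IsMod k L N) : IsMod k M N := by
  refine ⟨fun p hp h1 => h.ram p hp (h1.trans (discr_dvd_discr M L)), fun a ha h1 => ?_⟩
  have h2 := hasArtin_restrict (M := M) (h.artin a ha h1)
  rwa [map_one] at h2

/-- the Artin symbol of `(a)`, `a ≡ 1`, is trivial on `M` -/
private theorem mod_trivial [IsGalois ℚ M] [IsAbelianGalois k M] {N : ℕ} (h : IsMod k M N)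
    {a : 𝓞 k} (ha : a ≠ 0) (h1 : (N : 𝓞 k) ∣ a - 1) {σ : Gal(L/k)}
    (hσ : HasArtinSymbol (Ideal.span {a}) σ) (x : M) :
    σ (algebraMap M L x) = algebraMap M L x := by
  have h0 : Ideal.span {a} ≠ ⊥ := by
    rw [Ne, Ideal.span_singleton_eq_bot]
    exact ha
  have hp : Prm N (Ideal.span {a}) := prm_span h1
  have h2 := (art_iff h h0 hp _).1 (hasArtin_restrict (M := M) hσ)
  have h3 := (art_iff h h0 hp _).1 (h.artin a ha h1)
  have h4 : AlgEquiv.restrictNormalHom M σ = 1 := h2.trans h3.symm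
  have h5 := AlgEquiv.restrictNormal_commutes σ M x
  have h6 : σ.restrictNormal M = 1 := h4
  rw [h6] at h5
  exact h5.symm

end tower

private theorem mod_exists_artin {L : Type} [Field L] [NumberField L] [Algebra k L]
    [IsGalois ℚ L] [IsAbelianGalois k L] {N : ℕ}
    (hram : ∀ p : ℕ, p.Prime → (p : ℤ) ∣ discr L → p ∣ N) {a : 𝓞 k} (ha : a ≠ 0)
    (h : (N : 𝓞 k) ∣ a - 1) : ∃ σ : Gal(L/k), HasArtinSymbol (Ideal.span {a}) σ := by
  have h0 : Ideal.span {a} ≠ ⊥ := by
    rw [Ne, Ideal.span_singleton_eq_bot]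
    exact ha
  exact ⟨_, (art_spec (fun σ τ => IsMulCommutative.is_comm.comm σ τ) hram h0
    ((prm_iff _).1 (prm_span h)) (art (Ideal.span {a}))).2 rfl⟩

/-- composita: an automorphism which is trivial on `M₁` and `M₂` is trivial -/
theorem IsMod.of_two {M₁ M₂ L : Type} [Field M₁] [NumberField M₁] [Field M₂] [NumberField M₂]
    [Field L] [NumberField L] [Algebra k M₁] [Algebra k M₂] [Algebra k L] [Algebra M₁ L]
    [Algebra M₂ L] [IsScalarTower k M₁ L] [IsScalarTower k M₂ L] [IsGalois ℚ M₁] [IsGalois ℚ M₂]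
    [IsGalois ℚ L] [IsAbelianGalois k M₁] [IsAbelianGalois k M₂] [IsAbelianGalois k L] {N : ℕ}
    (h₁ : IsMod k M₁ N) (h₂ : IsMod k M₂ N)
    (hram : ∀ p : ℕ, p.Prime → (p : ℤ) ∣ discr L → p ∣ N)
    (hgen : ∀ σ : Gal(L/k), (∀ x : M₁, σ (algebraMap M₁ L x) = algebraMap M₁ L x) →
      (∀ x : M₂, σ (algebraMap M₂ L x) = algebraMap M₂ L x) → σ = 1) : IsMod k L N := by
  refine ⟨hram, fun a ha h1 => ?_⟩
  obtain ⟨σ, hσ⟩ := mod_exists_artin (L := L) hram ha h1
  rwa [hgen σ (mod_trivial h₁ ha h1 hσ) (mod_trivial h₂ ha h1 hσ)] at hσ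

/-- cyclotomic extensions -/
theorem IsMod.cyclotomic [IsTotallyComplex k] {M L : Type} [Field M] [NumberField M] [Field L]
    [NumberField L] [Algebra k M] [Algebra k L] [Algebra M L] [IsScalarTower k M L]
    [IsGalois ℚ M] [IsAbelianGalois k M] [IsAbelianGalois k L] {N m : ℕ} (hm : m ≠ 0)
    [IsCyclotomicExtension {m} M L] (h : IsMod k M N) : IsMod k L (N * m) := by
  have hG : IsGalois ℚ L := CMG.isGalois_cyclotomic (M := M) hm
  have hram : ∀ p : ℕ, p.Prime → (p : ℤ) ∣ discr L → p ∣ N * m := by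
    intro p hp h1
    rcases CMG.ram_cyclotomic (M := M) hm hp h1 with h2 | h2
    · exact (h.ram p hp h2).mul_right m
    · exact h2.mul_left N
  refine ⟨hram, fun a ha h1 => ?_⟩
  obtain ⟨σ, hσ⟩ := mod_exists_artin (L := L) hram ha h1
  have hN1 : (N : 𝓞 k) ∣ a - 1 := dvd_trans (Nat.cast_dvd_cast (Dvd.intro m rfl)) h1
  have hm1 : (m : 𝓞 k) ∣ a - 1 := dvd_trans (Nat.cast_dvd_cast (Dvd.intro_left N rfl)) h1
  have : NeZero m := ⟨hm⟩
  obtain ⟨ζ, hζ⟩ := IsCyclotomicExtension.exists_isPrimitiveRoot M L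
    (Set.mem_singleton m) hm
  have h2 : σ ζ = ζ := by
    rw [CMG.artin_root hσ hm ((prm_iff _).1 (prm_span hm1)) hζ.pow_eq_one]
    obtain ⟨c, hc⟩ := absNorm_congr_one ha hm1
    have hpos : 1 ≤ Ideal.absNorm (Ideal.span {a}) := by
      rw [Nat.one_le_iff_ne_zero, Ne, Ideal.absNorm_eq_zero_iff, Ideal.span_singleton_eq_bot]
      exact ha
    obtain ⟨d, hd⟩ : m ∣ Ideal.absNorm (Ideal.span {a}) - 1 := by
      have h3 : (m : ℤ) ∣ ((Ideal.absNorm (Ideal.span {a}) - 1 : ℕ) : ℤ) := by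
        rw [Nat.cast_sub hpos]
        exact ⟨c, by exact_mod_cast hc⟩
      exact_mod_cast h3
    have h3 : Ideal.absNorm (Ideal.span {a}) = m * d + 1 := by omega
    rw [h3, pow_succ, pow_mul, hζ.pow_eq_one, one_pow, one_mul]
  have h3 : ∀ x : M, σ (algebraMap M L x) = algebraMap M L x := mod_trivial h ha hN1 hσ
  -- `σ` is trivial
  let τ : Gal(L/M) := AlgEquiv.ofRingEquiv (f := σ.toRingEquiv) h3
  have h4 : τ = 1 := by
    have h8 := IsCyclotomicExtension.adjoin_primitive_root_eq_top (A := M) (B := L) hζ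
    have h9 : (τ : L →ₐ[M] L) = AlgHom.id M L := by
      apply AlgHom.ext_of_adjoin_eq_top h8
      intro x hx
      rw [Set.mem_singleton_iff] at hx
      rw [hx]
      exact h2
    ext x
    exact DFunLike.congr_fun h9 x
  have h5 : σ = 1 := by
    ext x
    exact congrArg (fun f : Gal(L/M) => f x) h4
  rwa [h5] at hσ

end

end Pool.Agent.CMR
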