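import Pool.Agent.CMR.RDefs
import Pool.Agent.CMR.ZCls
import Pool.Agent.StarkRQ.FrobF

/-!
# R-ACTA lifting of Artin symbols

`art_iff'`, `art_mul'`: as in `ZArt` (`StarkRQ.art_spec`, `art_mul`; `IsMod` was only used through `ram`). `art_top`: `HasArtinSymbol ⊤ 1` (empty list). `art_of_frob`: see `GGen.lean` (the proof that a Frobenius element is in `GA`): `φ` restricts to `M` (normal over `k`), it is a Frobenius element at `𝔓 ∩ M`, so the Artin symbol of `𝔓 ∩ k`.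
`exists_acts`: induction on the factorization of `𝔟`: for a prime `𝔭` (prime to `B`) choose `𝔓` of `F` over `𝔭` and a Frobenius element `φ ∈ Gal(F/k)` (exists, `exists_cong_over` or as in `GGen`); `hX.frob`, `art_of_frob`; products: `Acts.mul`, `art_mul'`.
-/

set_option autoImplicit false

noncomputable section

open NumberField Pool.Agent.StarkRQ
open scoped Pointwise

namespace Pool.Agent.CMR

set_option linter.unusedSectionVars false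

variable {k : Type} [Field k] [NumberField k]

theorem Acts.one {F : Type} [Field F] [NumberField F] [Algebra k F] {n : ℕ}
    {X : Ideal (𝓞 k) → 𝓞 k → F} : Acts n X ⊤ (1 : Gal(F/k)) := by
  intro 𝔤 _ _ a _
  rw [Ideal.mul_top]
  rfl

theorem Acts.mul {F : Type} [Field F] [NumberField F] [Algebra k F] {n : ℕ}
    {X : Ideal (𝓞 k) → 𝓞 k → F} {𝔥 𝔥' : Ideal (𝓞 k)} {τ τ' : Gal(F/k)} (h0 : 𝔥' ≠ ⊥)
    (hp : Prm n 𝔥') (h : Acts n X 𝔥 τ) (h' : Acts n X 𝔥' τ') : Acts n X (𝔥 * 𝔥') (τ * τ') := by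
  intro 𝔤 h𝔤 h𝔤' a ha
  rw [AlgEquiv.mul_apply, h' 𝔤 h𝔤 h𝔤' a ha,
    h _ (mul_ne_zero h𝔤 h0) ((prm_mul_iff _ _).2 ⟨h𝔤', hp⟩) a ha]
  congr 1
  rw [mul_assoc, mul_comm 𝔥' 𝔥]

variable {M : Type} [Field M] [NumberField M] [Algebra k M] [IsGalois ℚ M] [IsAbelianGalois k M]
  {N : ℕ}

omit [NumberField k] [NumberField M] [IsGalois ℚ M] in
private theorem racta_comm (σ τ : Gal(M/k)) : σ * τ = τ * σ :=
  IsMulCommutative.is_comm.comm σ τ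

theorem art_iff' (hr : ∀ p : ℕ, p.Prime → (p : ℤ) ∣ discr M → p ∣ N) {𝔞 : Ideal (𝓞 k)}
    (h0 : 𝔞 ≠ ⊥) (hp : Prm N 𝔞) (σ : Gal(M/k)) : HasArtinSymbol 𝔞 σ ↔ σ = art 𝔞 := by
  exact art_spec racta_comm hr h0 ((prm_iff 𝔞).1 hp) σ

theorem art_mul' (hr : ∀ p : ℕ, p.Prime → (p : ℤ) ∣ discr M → p ∣ N) {𝔞 𝔟 : Ideal (𝓞 k)}
    (h0 : 𝔞 ≠ ⊥) (h0' : 𝔟 ≠ ⊥) (hp : Prm N 𝔞) (hp' : Prm N 𝔟) :
    art (𝔞 * 𝔟) = (art 𝔞 * art 𝔟 : Gal(M/k)) := by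
  exact art_mul racta_comm hr 𝔞 𝔟 h0 h0' ((prm_iff 𝔞).1 hp) ((prm_iff 𝔟).1 hp')

theorem art_top (hr : ∀ p : ℕ, p.Prime → (p : ℤ) ∣ discr M → p ∣ N) :
    art (⊤ : Ideal (𝓞 k)) = (1 : Gal(M/k)) := by
  have hp : Prm N (⊤ : Ideal (𝓞 k)) := by
    rw [← Ideal.one_eq_top]
    exact isCoprime_one_left
  exact ((art_iff' hr top_ne_bot hp 1).1 ⟨[], by simp, by simp, by simp⟩).symm

private theorem racta_comap_ne {E : Type} [Field E] [NumberField E] [Algebra k E]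
    {𝔮 : Ideal (𝓞 E)} (h0 : 𝔮 ≠ ⊥) : 𝔮.comap (algebraMap (𝓞 k) (𝓞 E)) ≠ ⊥ := by
  intro h
  exact h0 (Ideal.eq_bot_of_comap_eq_bot h)

private theorem racta_prm {m : ℕ} {𝔭 : Ideal (𝓞 k)} (hp : 𝔭.IsPrime) (hp0 : 𝔭 ≠ ⊥)
    (hn : (m : 𝓞 k) ∉ 𝔭) : Prm m 𝔭 := by
  have hmax : 𝔭.IsMaximal := hp.isMaximal hp0
  unfold Prm
  rw [Ideal.isCoprime_iff_sup_eq]
  by_contra hcon
  have h1 := hmax.eq_of_le hcon le_sup_left
  apply hn
  rw [h1]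
  exact Ideal.mem_sup_right (Ideal.mem_span_singleton_self _)

private theorem racta_notMem {m : ℕ} {𝔭 : Ideal (𝓞 k)} (hp : 𝔭.IsPrime) (h : Prm m 𝔭) :
    (m : 𝓞 k) ∉ 𝔭 := by
  intro hm
  unfold Prm at h
  rw [Ideal.isCoprime_iff_sup_eq] at h
  apply hp.ne_top
  rw [← h]
  exact (sup_eq_left.2 ((Ideal.span_singleton_le_iff_mem _).2 hm)).symm

/-- Frobenius elements and Artin symbols -/
theorem art_of_frob (hr : ∀ p : ℕ, p.Prime → (p : ℤ) ∣ discr M → p ∣ N) {F : Type} [Field F]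
    [NumberField F] [Algebra k F] [Algebra M F] [IsScalarTower k M F] {𝔓 : Ideal (𝓞 F)}
    (hP : 𝔓.IsPrime) (h0 : 𝔓 ≠ ⊥) (hN : (N : 𝓞 F) ∉ 𝔓) {φ : Gal(F/k)}
    (hφ : ∀ x : 𝓞 F, φ • x - x ^ Ideal.absNorm (𝔓.comap (algebraMap (𝓞 k) (𝓞 F))) ∈ 𝔓) (x : M) :
    φ (algebraMap M F x) =
      algebraMap M F ((art (𝔓.comap (algebraMap (𝓞 k) (𝓞 F))) : Gal(M/k)) x) := by
  set 𝔭 := 𝔓.comap (algebraMap (𝓞 k) (𝓞 F)) with h𝔭
  have hp : 𝔭.IsPrime := Ideal.comap_isPrime _ _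
  have hp0 : 𝔭 ≠ ⊥ := racta_comap_ne h0
  have hn : (N : 𝓞 k) ∉ 𝔭 := by
    intro h
    rw [h𝔭, Ideal.mem_comap, map_natCast] at h
    exact hN h
  have hprm : Prm N 𝔭 := racta_prm hp hp0 hn
  have hnorm : Normal k M := IsGalois.to_normal
  set ψ : Gal(M/k) := φ.restrictNormal M with hψ
  have hcomm : ∀ x : M, algebraMap M F (ψ x) = φ (algebraMap M F x) := fun x =>
    AlgEquiv.restrictNormal_commutes φ M x
  have hart : ψ = art 𝔭 := by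
    rw [← art_iff' hr hp0 hprm]
    refine ⟨[(𝔭, ψ)], ?_, by simp, by simp⟩
    intro x hx
    rw [List.mem_singleton] at hx
    rw [hx]
    refine ⟨hp, hp0, 𝔓.comap (algebraMap (𝓞 M) (𝓞 F)), Ideal.comap_isPrime _ _, ?_, ?_⟩
    · show Ideal.comap (algebraMap (𝓞 k) (𝓞 M)) (Ideal.comap (algebraMap (𝓞 M) (𝓞 F)) 𝔓) = 𝔭
      rw [Ideal.comap_comap, h𝔭]
      congr 1
      ext y
      show ((algebraMap M F (algebraMap k M y)) : F) = algebraMap k F y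
      rw [← IsScalarTower.algebraMap_apply]
    · intro y
      rw [Ideal.mem_comap]
      have h1 := hφ (algebraMap (𝓞 M) (𝓞 F) y)
      have h2 : algebraMap (𝓞 M) (𝓞 F) (ψ • y - y ^ Ideal.absNorm 𝔭) =
          φ • (algebraMap (𝓞 M) (𝓞 F) y) - (algebraMap (𝓞 M) (𝓞 F) y) ^ Ideal.absNorm 𝔭 := by
        rw [map_sub, map_pow]
        congr 1
        ext
        exact hcomm y
      rw [h2]
      exact h1
  rw [← hart, hcomm]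

/-- lifting of Artin symbols to elements of the Galois group of the big field -/
theorem exists_acts (hr : ∀ p : ℕ, p.Prime → (p : ℤ) ∣ discr M → p ∣ N) {F : Type} [Field F]
    [NumberField F] [Algebra k F] [Algebra M F] [IsScalarTower k M F] [IsGalois k F] {n B : ℕ}
    {X : Ideal (𝓞 k) → 𝓞 k → F} (hX : RD n B X) (hB : N ∣ B) {𝔟 : Ideal (𝓞 k)} (h0 : 𝔟 ≠ ⊥)
    (hp : Prm B 𝔟) : ∃ τ : Gal(F/k), Acts n X 𝔟 τ ∧
      ∀ x : M, τ (algebraMap M F x) = algebraMap M F ((art 𝔟 : Gal(M/k)) x) := by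
  revert h0 hp
  refine UniqueFactorizationMonoid.induction_on_prime 𝔟 ?_ ?_ ?_
  · intro h0
    exact absurd rfl h0
  · intro 𝔞 h𝔞 _ _
    rw [Ideal.isUnit_iff] at h𝔞
    subst h𝔞
    refine ⟨1, Acts.one, fun x => ?_⟩
    rw [art_top hr]
    rfl
  · intro 𝔞 𝔭 h𝔞 h𝔭 ih _ hprm
    obtain ⟨hprm𝔭, hprm𝔞⟩ := (prm_mul_iff 𝔭 𝔞).1 hprm
    obtain ⟨τ, hτ, hτM⟩ := ih h𝔞 hprm𝔞
    have hp : 𝔭.IsPrime := Ideal.isPrime_of_prime h𝔭
    have hp0 : 𝔭 ≠ ⊥ := h𝔭.ne_zero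
    obtain ⟨𝔓, h𝔓, hc⟩ := exists_over (F := k) (M := F) 𝔭
    have h𝔓0 : 𝔓 ≠ ⊥ := by
      rintro rfl
      apply hp0
      rw [← hc, Ideal.comap_bot_of_injective _ (FaithfulSMul.algebraMap_injective (𝓞 k) (𝓞 F))]
    have hB𝔓 : (B : 𝓞 F) ∉ 𝔓 := by
      intro h
      apply racta_notMem hp hprm𝔭
      rw [← hc, Ideal.mem_comap, map_natCast]
      exact h
    have hN𝔓 : (N : 𝓞 F) ∉ 𝔓 := by
      intro h
      apply hB𝔓
      obtain ⟨c, rfl⟩ := hB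
      rw [Nat.cast_mul]
      exact 𝔓.mul_mem_right _ h
    obtain ⟨φ, hφ⟩ := exists_cong_over (F := k) (M := F) hp0 hc
    have hφ' : ∀ x : 𝓞 F,
        φ • x - x ^ Ideal.absNorm (𝔓.comap (algebraMap (𝓞 k) (𝓞 F))) ∈ 𝔓 := by
      intro x
      rw [hc]
      exact hφ x
    have h1 := hX.frob 𝔓 φ h𝔓 h𝔓0 hB𝔓 hφ'
    have h2 := art_of_frob (M := M) hr h𝔓 h𝔓0 hN𝔓 hφ'
    rw [hc] at h1 h2
    refine ⟨φ * τ, h1.mul h𝔞 (hprm𝔞.of_dvd hX.dvd) hτ, fun x => ?_⟩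
    rw [AlgEquiv.mul_apply, hτM, h2,
      art_mul' hr hp0 h𝔞 (hprm𝔭.of_dvd hB) (hprm𝔞.of_dvd hB)]
    rfl

end Pool.Agent.CMR
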