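import Pool.Agent.CMG.SplitTriv

/-!
# R-DENS degree one primes suffice in the splitting criterion

Copy of `CMG/SplitTriv.lean` (its private lemmas may be copied or made public) with one change. As there: if `[E : L] ≥ 2`, over every prime `𝔭` of `L` outside a finite set `T` which has degree one over `k` (`N𝔭 = N(𝔭 ∩ k)`) there are two different primes of `E` of norm `N𝔭` (`exists_two`). Let `Z₁(s)` be the sum of `N I^{-s}` over the ideals `I` of `L`
all of whose prime factors are outside `T` and of degree one over `k`; the injection of pairs gives `Z₁(s)² ≤ ζ_E(s)`. Let `Z₂(s)` be the sum over the ideals all of whose prime factors are not of degree one over `k` (and outside `T`): `ZZ_T(s) = Z₁(s) Z₂(s)` (unique factorization; `≤` is enough). `Z₂(s) ≤ C < ∞` for `s ≥ 1`: a prime `𝔮` of `L` which is not of degree one has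
`N𝔮 ≥ p²`, `p` the prime number below it, and over `p` there are at most `d = [L : ℚ]` primes; so `Z₂(s) ≤ Z₂(1) ≤ ∏_𝔮 (1 - N𝔮^{-1})^{-1} ≤ ∏_p (1 - p^{-2})^{-d} ≤ (∑ m^{-2})^d`, e.g. by the injection of these ideals into `d`-tuples `(m_1, …, m_d)` of positive integers: `I ↦` for every `p` order the primes over `p` as
`𝔮_1, …, 𝔮_r`, `r ≤ d`, `m_j = ∏_p p^{v_{𝔮_j}(I)}`, `N I ≥ ∏ m_j²`. (Or: `Z₂(s) ≤ exp(2 ∑_𝔮 N𝔮^{-s})`, or bound the finite partial products.) So `Z₁(s) ≥ ZZ_T(s)/C`, and `(s-1)² Z₁(s)² ≤ (s-1) (s-1) ζ_E(s) → 0`, but `(s-1) ZZ_T(s)` has a positive limit.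
-/

set_option autoImplicit false

noncomputable section

open NumberField Filter Topology UniqueFactorizationMonoid
open scoped ENNReal

namespace Pool.Agent.CMR

section

variable {K : Type} [Field K] [NumberField K]

/-- the summand of the zeta function -/
private def swt (s : ℝ) (I : Ideal (𝓞 K)) : ℝ≥0∞ := ENNReal.ofReal ((Ideal.absNorm I : ℝ) ^ (-s))

private lemma swt_mul (s : ℝ) (I J : Ideal (𝓞 K)) : swt s (I * J) = swt s I * swt s J := by
  rw [swt, swt, swt, map_mul, Nat.cast_mul, Real.mul_rpow (Nat.cast_nonneg _) (Nat.cast_nonneg _),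
    ENNReal.ofReal_mul (by positivity)]

open Classical in
/-- the sum over the nonzero ideals which are prime to `T` -/
private def ZZ (T : Finset (Ideal (𝓞 K))) (s : ℝ) : ℝ≥0∞ :=
  ∑' I : Ideal (𝓞 K), if I ≠ ⊥ ∧ ∀ p ∈ T, ¬ p ∣ I then swt s I else 0

variable (K) in
/-- the coefficients of the zeta function -/
private def cf (s : ℝ) (n : ℕ) : ℝ :=
  if n = 0 then 0 else (Nat.card {I : Ideal (𝓞 K) // Ideal.absNorm I = n} : ℝ) * (n : ℝ) ^ (-s)

private lemma cf_nonneg (s : ℝ) (n : ℕ) : 0 ≤ cf K s n := by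
  rw [cf]
  split_ifs
  · exact le_rfl
  · positivity

private lemma zz_empty (s : ℝ) : ZZ (∅ : Finset (Ideal (𝓞 K))) s =
    ∑' n : ℕ, ENNReal.ofReal (cf K s n) := by
  classical
  rw [ZZ, ← (Equiv.sigmaFiberEquiv (fun I : Ideal (𝓞 K) => Ideal.absNorm I)).tsum_eq,
    ENNReal.tsum_sigma']
  refine tsum_congr fun n => ?_
  rw [cf]
  split_ifs with hn
  · rw [ENNReal.ofReal_zero, ENNReal.tsum_eq_zero]
    rintro ⟨I, hI⟩
    have h1 : I = ⊥ := Ideal.absNorm_eq_zero_iff.1 (hI.trans hn)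
    simp [Equiv.sigmaFiberEquiv, h1]
  · have hfin : Finite {I : Ideal (𝓞 K) // Ideal.absNorm I = n} :=
      Ideal.finite_setOfPred_absNorm_eq n
    have h2 : ∀ I : {I : Ideal (𝓞 K) // Ideal.absNorm I = n},
        (if (Equiv.sigmaFiberEquiv (fun I : Ideal (𝓞 K) => Ideal.absNorm I) ⟨n, I⟩) ≠ ⊥ ∧
          ∀ p ∈ (∅ : Finset (Ideal (𝓞 K))),
            ¬ p ∣ (Equiv.sigmaFiberEquiv (fun I : Ideal (𝓞 K) => Ideal.absNorm I) ⟨n, I⟩)
        then swt s (Equiv.sigmaFiberEquiv (fun I : Ideal (𝓞 K) => Ideal.absNorm I) ⟨n, I⟩)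
        else 0) = ENNReal.ofReal ((n : ℝ) ^ (-s)) := by
      rintro ⟨I, hI⟩
      have h1 : I ≠ ⊥ := by
        rintro rfl
        rw [Ideal.absNorm_bot] at hI
        exact hn hI.symm
      simp [Equiv.sigmaFiberEquiv, h1, swt, hI]
    rw [tsum_congr h2]
    have := Fintype.ofFinite {I : Ideal (𝓞 K) // Ideal.absNorm I = n}
    rw [tsum_fintype, Finset.sum_const, Finset.card_univ, nsmul_eq_mul, Nat.card_eq_fintype_card,
      ENNReal.ofReal_mul (Nat.cast_nonneg _), ENNReal.ofReal_natCast]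

private lemma zeta_eq_tsum (s : ℝ) :
    dedekindZeta K s = ((∑' n : ℕ, cf K s n : ℝ) : ℂ) := by
  rw [dedekindZeta, LSeries, Complex.ofReal_tsum]
  refine tsum_congr fun n => ?_
  rw [LSeries.term_def, cf]
  split_ifs with hn
  · simp
  · rw [Complex.ofReal_mul, Complex.ofReal_cpow (Nat.cast_nonneg n), Complex.ofReal_neg,
      Complex.ofReal_natCast, Complex.ofReal_natCast, Complex.cpow_neg, div_eq_mul_inv]

/-- the pole -/
private lemma zz_empty_lim : ∃ κ : ℝ, 0 < κ ∧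
    (∀ᶠ s in 𝓝[>] (1 : ℝ), ZZ (∅ : Finset (Ideal (𝓞 K))) s ≠ ⊤) ∧
    Tendsto (fun s : ℝ => (s - 1) * (ZZ (∅ : Finset (Ideal (𝓞 K))) s).toReal) (𝓝[>] 1) (𝓝 κ) := by
  have h1 := tendsto_sub_one_mul_dedekindZeta_nhdsGT K
  have h2 : Tendsto (fun s : ℝ => (s - 1) * ∑' n : ℕ, cf K s n) (𝓝[>] 1)
      (𝓝 (dedekindZeta_residue K)) := by
    have h3 := (Complex.continuous_re.tendsto _).comp h1
    refine (h3.congr fun s => ?_)
    rw [Function.comp_apply, zeta_eq_tsum, ← Complex.ofReal_one, ← Complex.ofReal_sub,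
      ← Complex.ofReal_mul, Complex.ofReal_re]
  have h3 : ∀ᶠ s in 𝓝[>] (1 : ℝ), Summable (cf K s) := by
    filter_upwards [h2.eventually (eventually_gt_nhds (dedekindZeta_residue_pos K))] with s hs
    by_contra h
    rw [tsum_eq_zero_of_not_summable h, mul_zero] at hs
    exact lt_irrefl _ hs
  refine ⟨dedekindZeta_residue K, dedekindZeta_residue_pos K, ?_, ?_⟩
  · filter_upwards [h3] with s hs
    rw [zz_empty, ← ENNReal.ofReal_tsum_of_nonneg (cf_nonneg s) hs]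
    exact ENNReal.ofReal_ne_top
  · refine h2.congr' ?_
    filter_upwards [h3] with s hs
    rw [zz_empty, ← ENNReal.ofReal_tsum_of_nonneg (cf_nonneg s) hs,
      ENNReal.toReal_ofReal (tsum_nonneg (cf_nonneg s))]

/-- one more prime -/
private lemma zz_insert {T : Finset (Ideal (𝓞 K))} (hT : ∀ p ∈ T, Prime p) {q : Ideal (𝓞 K)}
    (hq : Prime q) (hqT : q ∉ T) (s : ℝ) :
    ZZ T s = ZZ (insert q T) s + swt s q * ZZ T s := by
  classical
  conv_lhs => rw [ZZ]
  conv_rhs => rw [ZZ, ZZ]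
  have h1 : ∀ I : Ideal (𝓞 K), (if I ≠ ⊥ ∧ ∀ p ∈ T, ¬ p ∣ I then swt s I else 0) =
      (if I ≠ ⊥ ∧ ∀ p ∈ insert q T, ¬ p ∣ I then swt s I else 0) +
        (if (I ≠ ⊥ ∧ ∀ p ∈ T, ¬ p ∣ I) ∧ q ∣ I then swt s I else 0) := by
    intro I
    by_cases h2 : I ≠ ⊥ ∧ ∀ p ∈ T, ¬ p ∣ I
    · by_cases h3 : q ∣ I
      · rw [if_pos h2, if_neg, if_pos ⟨h2, h3⟩, zero_add]
        intro h4
        exact h4.2 q (Finset.mem_insert_self q T) h3
      · rw [if_pos h2, if_pos, if_neg fun h4 => h3 h4.2, add_zero]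
        refine ⟨h2.1, fun p hp => ?_⟩
        rcases Finset.mem_insert.1 hp with rfl | hp
        · exact h3
        · exact h2.2 p hp
    · rw [if_neg h2, if_neg, if_neg fun h4 => h2 h4.1, add_zero]
      intro h4
      exact h2 ⟨h4.1, fun p hp => h4.2 p (Finset.mem_insert_of_mem hp)⟩
  conv_lhs => rw [tsum_congr h1, ENNReal.tsum_add]
  congr 1
  rw [← ENNReal.tsum_mul_left]
  have hinj : Function.Injective fun J : Ideal (𝓞 K) => q * J := fun I J h =>
    mul_left_cancel₀ hq.ne_zero h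
  rw [← hinj.tsum_eq]
  · refine tsum_congr fun J => ?_
    have h2 : ((q * J ≠ ⊥ ∧ ∀ p ∈ T, ¬ p ∣ q * J) ∧ q ∣ q * J) ↔ (J ≠ ⊥ ∧ ∀ p ∈ T, ¬ p ∣ J) := by
      constructor
      · rintro ⟨⟨h3, h4⟩, -⟩
        refine ⟨?_, fun p hp h5 => h4 p hp (h5.mul_left q)⟩
        rintro rfl
        apply h3
        rw [← Ideal.zero_eq_bot, mul_zero]
      · rintro ⟨h3, h4⟩
        refine ⟨⟨?_, fun p hp h5 => ?_⟩, dvd_mul_right q J⟩
        · rw [← Ideal.zero_eq_bot] at h3 ⊢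
          exact mul_ne_zero hq.ne_zero h3
        · rcases (hT p hp).dvd_or_dvd h5 with h6 | h6
          · apply hqT
            have h7 := ((hT p hp).dvd_prime_iff_associated hq).1 h6
            rw [← associated_iff_eq.1 h7]
            exact hp
          · exact h4 p hp h6
    simp only [h2]
    split_ifs
    · rw [swt_mul]
    · rw [mul_zero]
  · intro I hI
    rw [Function.mem_support] at hI
    have h2 : (I ≠ ⊥ ∧ ∀ p ∈ T, ¬ p ∣ I) ∧ q ∣ I := by
      by_contra h3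
      rw [if_neg h3] at hI
      exact hI rfl
    obtain ⟨J, rfl⟩ := h2.2
    exact ⟨J, rfl⟩

private lemma zz_lim (T : Finset (Ideal (𝓞 K))) (hT : ∀ p ∈ T, Prime p) : ∃ κ : ℝ, 0 < κ ∧
    (∀ᶠ s in 𝓝[>] (1 : ℝ), ZZ T s ≠ ⊤) ∧
    Tendsto (fun s : ℝ => (s - 1) * (ZZ T s).toReal) (𝓝[>] 1) (𝓝 κ) := by
  classical
  induction T using Finset.induction_on with
  | empty => exact zz_empty_lim
  | insert q T hqT ih =>
    obtain ⟨κ, hκ, h1, h2⟩ := ih fun p hp => hT p (Finset.mem_insert_of_mem hp)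
    have hq := hT q (Finset.mem_insert_self q T)
    have hT' : ∀ p ∈ T, Prime p := fun p hp => hT p (Finset.mem_insert_of_mem hp)
    have hN : (1 : ℝ) < (Ideal.absNorm q : ℝ) := by
      have h3 : Ideal.absNorm q ≠ 0 := fun h => hq.ne_zero (Ideal.absNorm_eq_zero_iff.1 h)
      have h4 : Ideal.absNorm q ≠ 1 := fun h => hq.not_isUnit (by
        rw [Ideal.isUnit_iff]
        exact Ideal.absNorm_eq_one_iff.1 h)
      exact_mod_cast (by omega : 1 < Ideal.absNorm q)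
    have hlt : ((Ideal.absNorm q : ℝ)) ^ (-(1 : ℝ)) < 1 :=
      Real.rpow_lt_one_of_one_lt_of_neg hN (by norm_num)
    refine ⟨κ * (1 - (Ideal.absNorm q : ℝ) ^ (-(1 : ℝ))), mul_pos hκ (sub_pos.2 hlt), ?_, ?_⟩
    · filter_upwards [h1] with s hs
      intro h3
      apply hs
      rw [zz_insert hT' hq hqT, h3, top_add]
    · have h3 : Tendsto (fun s : ℝ => 1 - (Ideal.absNorm q : ℝ) ^ (-s)) (𝓝[>] 1)
          (𝓝 (1 - (Ideal.absNorm q : ℝ) ^ (-(1 : ℝ)))) := by
        apply Tendsto.mono_left _ nhdsWithin_le_nhds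
        apply ContinuousAt.tendsto (f := fun s : ℝ => 1 - (Ideal.absNorm q : ℝ) ^ (-s))
        have : ContinuousAt (fun s : ℝ => (Ideal.absNorm q : ℝ) ^ (-s)) 1 :=
          (Real.continuousAt_const_rpow (by linarith)).comp continuousAt_neg
        exact continuousAt_const.sub this
      refine (h2.mul h3).congr' ?_
      filter_upwards [h1] with s hs
      have h4 := zz_insert hT' hq hqT s
      have h5 : ZZ (insert q T) s ≠ ⊤ := fun h => hs (by rw [h4, h, top_add])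
      have h6 : swt s q * ZZ T s ≠ ⊤ := ENNReal.mul_ne_top ENNReal.ofReal_ne_top hs
      have h7 := congrArg ENNReal.toReal h4
      rw [ENNReal.toReal_add h5 h6, ENNReal.toReal_mul, swt,
        ENNReal.toReal_ofReal (by positivity)] at h7
      have h8 : (ZZ (insert q T) s).toReal =
          (ZZ T s).toReal * (1 - (Ideal.absNorm q : ℝ) ^ (-s)) := by
        rw [mul_sub, mul_one]
        nth_rw 1 [h7]
        ring
      rw [h8]
      ring

/-! ### Sums over ideals whose prime factors have a given property -/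

/-- the sum over the ideals whose prime factors satisfy `A` -/
private def ZA (A : Ideal (𝓞 K) → Prop) (s : ℝ) : ℝ≥0∞ :=
  ∑' I : {I : Ideal (𝓞 K) // I ≠ ⊥ ∧ ∀ p ∈ normalizedFactors I, A p}, swt s I.1

private lemma za_nf {m : Multiset (Ideal (𝓞 K))} (hm : ∀ p ∈ m, Prime p) :
    m.prod ≠ ⊥ ∧ normalizedFactors m.prod = m := by
  refine ⟨?_, normalizedFactors_prod_of_prime hm⟩
  intro h0
  have h1 : (0 : Ideal (𝓞 K)) ∈ m := Multiset.prod_eq_zero_iff.1 h0
  exact (hm 0 h1).ne_zero rfl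

private lemma za_mono {A A' : Ideal (𝓞 K) → Prop} (h : ∀ p, Prime p → A p → A' p) (s : ℝ) :
    ZA A s ≤ ZA A' s := by
  let e : {I : Ideal (𝓞 K) // I ≠ ⊥ ∧ ∀ p ∈ normalizedFactors I, A p} →
      {I : Ideal (𝓞 K) // I ≠ ⊥ ∧ ∀ p ∈ normalizedFactors I, A' p} := fun I =>
    ⟨I.1, I.2.1, fun p hp => h p (prime_of_normalized_factor p hp) (I.2.2 p hp)⟩
  have he : Function.Injective e := by
    intro I J hIJ
    have h1 : (e I).1 = (e J).1 := congrArg Subtype.val hIJ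
    exact Subtype.ext h1
  exact ENNReal.tsum_comp_le_tsum_of_injective he fun I => swt s I.1

private lemma za_split (A B : Ideal (𝓞 K) → Prop) (s : ℝ) :
    ZA A s ≤ ZA (fun p => A p ∧ B p) s * ZA (fun p => A p ∧ ¬ B p) s := by
  classical
  have h1 : ∀ I : Ideal (𝓞 K), ∀ p ∈ (normalizedFactors I).filter B, Prime p := fun I p hp =>
    prime_of_normalized_factor p (Multiset.mem_of_mem_filter hp)
  have h2 : ∀ I : Ideal (𝓞 K), ∀ p ∈ (normalizedFactors I).filter (fun p => ¬ B p), Prime p :=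
    fun I p hp => prime_of_normalized_factor p (Multiset.mem_of_mem_filter hp)
  let F : {I : Ideal (𝓞 K) // I ≠ ⊥ ∧ ∀ p ∈ normalizedFactors I, A p} →
      {I : Ideal (𝓞 K) // I ≠ ⊥ ∧ ∀ p ∈ normalizedFactors I, A p ∧ B p} ×
      {I : Ideal (𝓞 K) // I ≠ ⊥ ∧ ∀ p ∈ normalizedFactors I, A p ∧ ¬ B p} := fun I =>
    (⟨((normalizedFactors I.1).filter B).prod, (za_nf (h1 I.1)).1, fun p hp => by
      rw [(za_nf (h1 I.1)).2] at hp
      exact ⟨I.2.2 p (Multiset.mem_filter.1 hp).1, (Multiset.mem_filter.1 hp).2⟩⟩,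
    ⟨((normalizedFactors I.1).filter (fun p => ¬ B p)).prod, (za_nf (h2 I.1)).1, fun p hp => by
      rw [(za_nf (h2 I.1)).2] at hp
      exact ⟨I.2.2 p (Multiset.mem_filter.1 hp).1, (Multiset.mem_filter.1 hp).2⟩⟩)
  have hF : ∀ I, (F I).1.1 * (F I).2.1 = I.1 := by
    intro I
    show ((normalizedFactors I.1).filter B).prod *
      ((normalizedFactors I.1).filter (fun p => ¬ B p)).prod = I.1
    rw [← Multiset.prod_add, Multiset.filter_add_not, Ideal.prod_normalizedFactors_eq_self I.2.1]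
  have hinj : Function.Injective F := by
    intro I J h
    apply Subtype.ext
    rw [← hF I, ← hF J, h]
  have h3 : ZA A s = ∑' I : {I : Ideal (𝓞 K) // I ≠ ⊥ ∧ ∀ p ∈ normalizedFactors I, A p},
      swt s (F I).1.1 * swt s (F I).2.1 := by
    rw [ZA]
    refine tsum_congr fun I => ?_
    rw [← swt_mul, hF]
  rw [h3, ZA, ZA, ← ENNReal.tsum_mul_right]
  simp only [← ENNReal.tsum_mul_left]
  rw [← ENNReal.tsum_prod (f := fun (I : {I : Ideal (𝓞 K) // I ≠ ⊥ ∧ ∀ p ∈ normalizedFactors I,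
    A p ∧ B p}) (J : {I : Ideal (𝓞 K) // I ≠ ⊥ ∧ ∀ p ∈ normalizedFactors I, A p ∧ ¬ B p}) =>
    swt s I.1 * swt s J.1)]
  exact ENNReal.tsum_comp_le_tsum_of_injective hinj fun x => swt s x.1.1 * swt s x.2.1

private lemma zz_le_za (T : Finset (Ideal (𝓞 K))) (s : ℝ) : ZZ T s ≤ ZA (fun p => p ∉ T) s := by
  classical
  have hsub : ZZ T s = ∑' I : {I : Ideal (𝓞 K) // I ≠ ⊥ ∧ ∀ p ∈ T, ¬ p ∣ I}, swt s I.1 := by
    rw [ZZ]
    have h1 := tsum_subtype {I : Ideal (𝓞 K) | I ≠ ⊥ ∧ ∀ p ∈ T, ¬ p ∣ I} (swt s)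
    refine Eq.trans ?_ h1.symm
    refine tsum_congr fun I => ?_
    rw [Set.indicator_apply]
    rfl
  rw [hsub]
  let e : {I : Ideal (𝓞 K) // I ≠ ⊥ ∧ ∀ p ∈ T, ¬ p ∣ I} →
      {I : Ideal (𝓞 K) // I ≠ ⊥ ∧ ∀ p ∈ normalizedFactors I, p ∉ T} := fun I =>
    ⟨I.1, I.2.1, fun p hp hpT => I.2.2 p hpT (dvd_of_mem_normalizedFactors hp)⟩
  have he : Function.Injective e := by
    intro I J hIJ
    have h1 : (e I).1 = (e J).1 := congrArg Subtype.val hIJ
    exact Subtype.ext h1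
  exact ENNReal.tsum_comp_le_tsum_of_injective he fun I => swt s I.1

/-! ### Primes of higher degree -/

/-- the prime number below a prime ideal -/
private def pb (q : Ideal (𝓞 K)) : ℕ := (Ideal.absNorm q).minFac

private lemma pb_spec {q : Ideal (𝓞 K)} (hq : Prime q) :
    (pb q).Prime ∧ ((pb q : ℕ) : 𝓞 K) ∈ q ∧ ∃ a, 0 < a ∧ Ideal.absNorm q = pb q ^ a := by
  have hM : q.IsMaximal := (Ideal.isPrime_of_prime hq).isMaximal hq.ne_zero
  obtain ⟨p, n, hn, hpq, hp, hN⟩ := Ideal.exists_prime_and_absNorm_eq_pow q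
  have h1 : pb q = p := by
    unfold pb
    rw [hN]
    exact hp.pow_minFac hn.ne'
  rw [h1]
  exact ⟨hp, hpq, n, hn, hN⟩

private lemma norm_ge {p : ℕ} (hp : p.Prime) {q : Ideal (𝓞 K)} (hq : q ≠ ⊤)
    (hpq : ((p : ℕ) : 𝓞 K) ∈ q) : p ≤ Ideal.absNorm q := by
  have h1 : Ideal.absNorm q ∣ p ^ Module.finrank ℤ (𝓞 K) := by
    rw [← Ideal.absNorm_span_natCast]
    exact Ideal.absNorm_dvd_absNorm_of_le ((Ideal.span_singleton_le_iff_mem _).2 hpq)
  obtain ⟨m, -, hm⟩ := (Nat.dvd_prime_pow hp).1 h1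
  rw [hm]
  refine Nat.le_self_pow ?_ p
  rintro rfl
  rw [pow_zero] at hm
  exact hq (Ideal.absNorm_eq_one_iff.1 hm)

open Classical in
/-- the primes over `p` -/
private def sp (K : Type) [Field K] [NumberField K] (p : ℕ) : List (Ideal (𝓞 K)) :=
  (normalizedFactors (Ideal.span {((p : ℕ) : 𝓞 K)})).toFinset.toList

open Classical in
/-- the number of a prime among the primes over the same prime number -/
private def jj (q : Ideal (𝓞 K)) : ℕ := (sp K (pb q)).idxOf q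

private lemma span_ne {p : ℕ} (hp : p.Prime) : Ideal.span {((p : ℕ) : 𝓞 K)} ≠ ⊥ := by
  rw [Ne, Ideal.span_singleton_eq_bot, Nat.cast_eq_zero]
  exact hp.ne_zero

private lemma sp_length {p : ℕ} (hp : p.Prime) :
    (sp K p).length ≤ Module.finrank ℤ (𝓞 K) := by
  classical
  unfold sp
  rw [Finset.length_toList]
  refine (Multiset.toFinset_card_le _).trans ?_
  have h1 : p ^ Multiset.card (normalizedFactors (Ideal.span {((p : ℕ) : 𝓞 K)})) ≤
      p ^ Module.finrank ℤ (𝓞 K) := by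
    have h2 : Ideal.absNorm (Ideal.span {((p : ℕ) : 𝓞 K)}) =
        ((normalizedFactors (Ideal.span {((p : ℕ) : 𝓞 K)})).map Ideal.absNorm).prod := by
      conv_lhs => rw [← Ideal.prod_normalizedFactors_eq_self (span_ne hp)]
      rw [map_multiset_prod]
    rw [← Ideal.absNorm_span_natCast (S := 𝓞 K), h2]
    have h3 := Multiset.pow_card_le_prod
      (s := (normalizedFactors (Ideal.span {((p : ℕ) : 𝓞 K)})).map Ideal.absNorm) (a := p) ?_
    · rwa [Multiset.card_map] at h3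
    · intro x hx
      obtain ⟨q, hq, rfl⟩ := Multiset.mem_map.1 hx
      refine norm_ge hp (Ideal.isPrime_of_prime (prime_of_normalized_factor q hq)).ne_top ?_
      have h4 := Ideal.dvd_iff_le.1 (dvd_of_mem_normalizedFactors hq)
      exact h4 (Ideal.mem_span_singleton_self _)
  exact (Nat.pow_le_pow_iff_right hp.one_lt).1 h1

private lemma mem_sp {q : Ideal (𝓞 K)} (hq : Prime q) : q ∈ sp K (pb q) := by
  classical
  obtain ⟨hp, hpq, -⟩ := pb_spec hq
  unfold sp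
  rw [Finset.mem_toList, Multiset.mem_toFinset, Ideal.mem_normalizedFactors_iff (span_ne hp)]
  exact ⟨Ideal.isPrime_of_prime hq, (Ideal.span_singleton_le_iff_mem _).2 hpq⟩

private lemma jj_lt {q : Ideal (𝓞 K)} (hq : Prime q) : jj q < Module.finrank ℤ (𝓞 K) := by
  classical
  obtain ⟨hp, -⟩ := pb_spec hq
  exact (List.idxOf_lt_length_iff.2 (mem_sp hq)).trans_le (sp_length hp)

private lemma jj_inj {q q' : Ideal (𝓞 K)} (hq : Prime q) (h1 : pb q = pb q')
    (h2 : jj q = jj q') : q = q' := by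
  classical
  unfold jj at h2
  rw [← h1] at h2
  exact (List.idxOf_inj (mem_sp hq)).1 h2

/-- `∑ n ^ (-2)` -/
private def C0 : ℝ≥0∞ := ∑' n : ℕ, ENNReal.ofReal ((n : ℝ) ^ (-(2 : ℝ)))

private lemma c0_ne_top : C0 ≠ ⊤ := by
  unfold C0
  have h1 : Summable fun n : ℕ => (n : ℝ) ^ (-(2 : ℝ)) :=
    Real.summable_nat_rpow.2 (by norm_num)
  rw [← ENNReal.ofReal_tsum_of_nonneg (fun n => by positivity) h1]
  exact ENNReal.ofReal_ne_top

private lemma za_color (m : ℕ) {s : ℝ} (hs : 1 ≤ s) :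
    ZA (fun q : Ideal (𝓞 K) => pb q ^ 2 ≤ Ideal.absNorm q ∧ jj q = m) s ≤ C0 := by
  classical
  let φ : {I : Ideal (𝓞 K) // I ≠ ⊥ ∧ ∀ q ∈ normalizedFactors I,
      pb q ^ 2 ≤ Ideal.absNorm q ∧ jj q = m} → ℕ := fun I =>
    ((normalizedFactors I.1).map pb).prod
  have hpr : ∀ I : Ideal (𝓞 K), ∀ p ∈ (normalizedFactors I).map pb, Prime p := by
    intro I p hp
    obtain ⟨q, hq, rfl⟩ := Multiset.mem_map.1 hp
    exact Nat.prime_iff.1 (pb_spec (prime_of_normalized_factor q hq)).1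
  have hinj : Function.Injective φ := by
    intro I J h
    have h1 : (normalizedFactors I.1).map pb = (normalizedFactors J.1).map pb := by
      rw [← normalizedFactors_prod_of_prime (hpr I.1), ← normalizedFactors_prod_of_prime (hpr J.1)]
      exact congrArg _ h
    have h2 : Set.InjOn (pb (K := K)) {q | Prime q ∧ jj q = m} := fun q hq q' hq' h =>
      jj_inj hq.1 h (hq.2.trans hq'.2.symm)
    have h3 : ∀ I : {I : Ideal (𝓞 K) // I ≠ ⊥ ∧ ∀ q ∈ normalizedFactors I,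
        pb q ^ 2 ≤ Ideal.absNorm q ∧ jj q = m},
        ((normalizedFactors I.1).map pb).map
          (Function.invFunOn pb {q : Ideal (𝓞 K) | Prime q ∧ jj q = m}) =
        normalizedFactors I.1 := by
      intro I
      rw [Multiset.map_map]
      conv_rhs => rw [← Multiset.map_id (normalizedFactors I.1)]
      refine Multiset.map_congr rfl fun q hq => ?_
      exact h2.leftInvOn_invFunOn ⟨prime_of_normalized_factor q hq, (I.2.2 q hq).2⟩
    have h4 : normalizedFactors I.1 = normalizedFactors J.1 := by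
      rw [← h3 I, ← h3 J, h1]
    apply Subtype.ext
    rw [← Ideal.prod_normalizedFactors_eq_self I.2.1, ← Ideal.prod_normalizedFactors_eq_self J.2.1,
      h4]
  rw [ZA, C0]
  refine le_trans (ENNReal.tsum_le_tsum fun I => ?_)
    (ENNReal.tsum_comp_le_tsum_of_injective hinj
      fun n : ℕ => ENNReal.ofReal ((n : ℝ) ^ (-(2 : ℝ))))
  show ENNReal.ofReal ((Ideal.absNorm I.1 : ℝ) ^ (-s)) ≤
    ENNReal.ofReal (((φ I : ℕ) : ℝ) ^ (-(2 : ℝ)))
  apply ENNReal.ofReal_le_ofReal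
  have h1 : φ I ^ 2 ≤ Ideal.absNorm I.1 := by
    have h2 : Ideal.absNorm I.1 = ((normalizedFactors I.1).map Ideal.absNorm).prod := by
      conv_lhs => rw [← Ideal.prod_normalizedFactors_eq_self I.2.1]
      rw [map_multiset_prod]
    rw [h2]
    show ((normalizedFactors I.1).map pb).prod ^ 2 ≤ _
    rw [← Multiset.prod_map_pow]
    exact Multiset.prod_map_le_prod_map _ _ fun q hq => (I.2.2 q hq).1
  have h2 : 1 ≤ φ I := by
    have h3 : φ I ≠ 0 := by
      intro h0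
      have h4 : (0 : ℕ) ∈ (normalizedFactors I.1).map pb := Multiset.prod_eq_zero_iff.1 h0
      exact (hpr I.1 0 h4).ne_zero rfl
    omega
  have h3 : (1 : ℝ) ≤ (φ I : ℝ) := by exact_mod_cast h2
  have h4 : ((φ I : ℝ)) ^ 2 ≤ (Ideal.absNorm I.1 : ℝ) := by exact_mod_cast h1
  have h5 : (1 : ℝ) ≤ (Ideal.absNorm I.1 : ℝ) := le_trans (by nlinarith) h4
  calc ((Ideal.absNorm I.1 : ℝ)) ^ (-s) ≤ ((Ideal.absNorm I.1 : ℝ)) ^ (-(1 : ℝ)) :=
        Real.rpow_le_rpow_of_exponent_le h5 (by linarith)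
    _ ≤ (((φ I : ℝ)) ^ 2) ^ (-(1 : ℝ)) :=
        Real.rpow_le_rpow_of_nonpos (by positivity) h4 (by norm_num)
    _ = ((φ I : ℕ) : ℝ) ^ (-(2 : ℝ)) := by
        rw [← Real.rpow_natCast, ← Real.rpow_mul (by positivity)]
        norm_num

private lemma za_small (m : ℕ) {s : ℝ} (hs : 1 ≤ s) :
    ZA (fun q : Ideal (𝓞 K) => pb q ^ 2 ≤ Ideal.absNorm q ∧ jj q < m) s ≤ C0 ^ m := by
  induction m with
  | zero =>
    rw [pow_zero]
    have h1 : ∀ I : {I : Ideal (𝓞 K) // I ≠ ⊥ ∧ ∀ q ∈ normalizedFactors I,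
        pb q ^ 2 ≤ Ideal.absNorm q ∧ jj q < 0}, I.1 = ⊤ := by
      intro I
      have h2 : normalizedFactors I.1 = 0 := by
        rw [Multiset.eq_zero_iff_forall_notMem]
        intro q hq
        exact absurd (I.2.2 q hq).2 (Nat.not_lt_zero _)
      rw [← Ideal.prod_normalizedFactors_eq_self I.2.1, h2, Multiset.prod_zero, Ideal.one_eq_top]
    have hsub : Subsingleton {I : Ideal (𝓞 K) // I ≠ ⊥ ∧ ∀ q ∈ normalizedFactors I,
        pb q ^ 2 ≤ Ideal.absNorm q ∧ jj q < 0} :=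
      ⟨fun I J => Subtype.ext ((h1 I).trans (h1 J).symm)⟩
    rw [ZA]
    rcases isEmpty_or_nonempty {I : Ideal (𝓞 K) // I ≠ ⊥ ∧ ∀ q ∈ normalizedFactors I,
        pb q ^ 2 ≤ Ideal.absNorm q ∧ jj q < 0} with he | ⟨⟨I⟩⟩
    · rw [tsum_empty]
      exact zero_le
    · rw [tsum_eq_single I fun J hJ => absurd (Subsingleton.elim J I) hJ, h1 I, swt,
        Ideal.absNorm_top, Nat.cast_one, Real.one_rpow, ENNReal.ofReal_one]
  | succ m ih =>
    rw [pow_succ]
    refine (za_split _ (fun q => jj q < m) s).trans (mul_le_mul' ?_ ?_)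
    · exact (za_mono (fun _ _ h => ⟨h.1.1, h.2⟩) s).trans ih
    · exact (za_mono (fun _ _ h => ⟨h.1.1, by have := h.1.2; have := h.2; omega⟩) s).trans
        (za_color m hs)

private lemma za_bad {s : ℝ} (hs : 1 ≤ s) :
    ZA (fun q : Ideal (𝓞 K) => pb q ^ 2 ≤ Ideal.absNorm q) s ≤
      C0 ^ Module.finrank ℤ (𝓞 K) :=
  (za_mono (fun _ hq h => ⟨h, jj_lt hq⟩) s).trans (za_small _ hs)

end

section

variable {M M' : Type} [Field M] [NumberField M] [Field M'] [NumberField M'] [Algebra M M']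

/-- an injective map from pairs of ideals of `M` to ideals of `M'` -/
private lemma za_sq_le {A : Ideal (𝓞 M) → Prop} {q₁ q₂ : Ideal (𝓞 M) → Ideal (𝓞 M')}
    (hq₁ : ∀ p, Prime p → A p → Prime (q₁ p) ∧ (q₁ p).comap (algebraMap (𝓞 M) (𝓞 M')) = p ∧
      Ideal.absNorm (q₁ p) = Ideal.absNorm p)
    (hq₂ : ∀ p, Prime p → A p → Prime (q₂ p) ∧ (q₂ p).comap (algebraMap (𝓞 M) (𝓞 M')) = p ∧
      Ideal.absNorm (q₂ p) = Ideal.absNorm p)
    (hne : ∀ p, Prime p → A p → q₁ p ≠ q₂ p) (s : ℝ) :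
    ZA A s * ZA A s ≤ ZZ (∅ : Finset (Ideal (𝓞 M'))) s := by
  classical
  have hmem : ∀ I : Ideal (𝓞 M), (I ≠ ⊥ ∧ ∀ p ∈ normalizedFactors I, A p) →
      ∀ p ∈ normalizedFactors I, Prime p ∧ A p := fun I hI p hp =>
    ⟨prime_of_normalized_factor p hp, hI.2 p hp⟩
  let F : {I : Ideal (𝓞 M) // I ≠ ⊥ ∧ ∀ p ∈ normalizedFactors I, A p} ×
      {I : Ideal (𝓞 M) // I ≠ ⊥ ∧ ∀ p ∈ normalizedFactors I, A p} → Ideal (𝓞 M') := fun x =>
    ((normalizedFactors x.1.1).map q₁ + (normalizedFactors x.2.1).map q₂).prod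
  have hprime : ∀ x : {I : Ideal (𝓞 M) // I ≠ ⊥ ∧ ∀ p ∈ normalizedFactors I, A p} ×
      {I : Ideal (𝓞 M) // I ≠ ⊥ ∧ ∀ p ∈ normalizedFactors I, A p},
      ∀ q ∈ (normalizedFactors x.1.1).map q₁ + (normalizedFactors x.2.1).map q₂, Prime q := by
    intro x q hq
    rcases Multiset.mem_add.1 hq with h | h
    · obtain ⟨p, hp, rfl⟩ := Multiset.mem_map.1 h
      have := hmem _ x.1.2 p hp
      exact (hq₁ p this.1 this.2).1
    · obtain ⟨p, hp, rfl⟩ := Multiset.mem_map.1 h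
      have := hmem _ x.2.2 p hp
      exact (hq₂ p this.1 this.2).1
  have hnf : ∀ x, normalizedFactors (F x) =
      (normalizedFactors x.1.1).map q₁ + (normalizedFactors x.2.1).map q₂ := fun x =>
    normalizedFactors_prod_of_prime (hprime x)
  have hF0 : ∀ x, F x ≠ ⊥ := by
    intro x h0
    have h1 : (0 : Ideal (𝓞 M')) ∈
        (normalizedFactors x.1.1).map q₁ + (normalizedFactors x.2.1).map q₂ :=
      Multiset.prod_eq_zero_iff.1 h0
    exact (hprime x 0 h1).ne_zero rfl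
  -- the parts of the factorisation
  have hcomap₁ : ∀ I : Ideal (𝓞 M), (I ≠ ⊥ ∧ ∀ p ∈ normalizedFactors I, A p) →
      ((normalizedFactors I).map q₁).map (Ideal.comap (algebraMap (𝓞 M) (𝓞 M'))) =
        normalizedFactors I := by
    intro I hI
    rw [Multiset.map_map]
    conv_rhs => rw [← Multiset.map_id (normalizedFactors I)]
    refine Multiset.map_congr rfl fun p hp => ?_
    have := hmem _ hI p hp
    exact (hq₁ p this.1 this.2).2.1
  have hcomap₂ : ∀ I : Ideal (𝓞 M), (I ≠ ⊥ ∧ ∀ p ∈ normalizedFactors I, A p) →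
      ((normalizedFactors I).map q₂).map (Ideal.comap (algebraMap (𝓞 M) (𝓞 M'))) =
        normalizedFactors I := by
    intro I hI
    rw [Multiset.map_map]
    conv_rhs => rw [← Multiset.map_id (normalizedFactors I)]
    refine Multiset.map_congr rfl fun p hp => ?_
    have := hmem _ hI p hp
    exact (hq₂ p this.1 this.2).2.1
  have hfil₁ : ∀ x, (normalizedFactors (F x)).filter
      (fun q => q = q₁ (q.comap (algebraMap (𝓞 M) (𝓞 M')))) =
        (normalizedFactors x.1.1).map q₁ := by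
    intro x
    rw [hnf, Multiset.filter_add, Multiset.filter_eq_self.2, Multiset.filter_eq_nil.2, add_zero]
    · intro q hq
      obtain ⟨p, hp, rfl⟩ := Multiset.mem_map.1 hq
      have := hmem _ x.2.2 p hp
      rw [(hq₂ p this.1 this.2).2.1]
      exact fun h => hne p this.1 this.2 h.symm
    · intro q hq
      obtain ⟨p, hp, rfl⟩ := Multiset.mem_map.1 hq
      have := hmem _ x.1.2 p hp
      rw [(hq₁ p this.1 this.2).2.1]
  have hinj : Function.Injective F := by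
    intro x y hxy
    have h1 : (normalizedFactors x.1.1).map q₁ = (normalizedFactors y.1.1).map q₁ := by
      rw [← hfil₁ x, ← hfil₁ y, hxy]
    have h2 : (normalizedFactors x.2.1).map q₂ = (normalizedFactors y.2.1).map q₂ := by
      have h3 := hnf x
      rw [hxy, hnf y, h1] at h3
      exact (add_left_cancel h3).symm
    have h3 : normalizedFactors x.1.1 = normalizedFactors y.1.1 := by
      rw [← hcomap₁ _ x.1.2, ← hcomap₁ _ y.1.2, h1]
    have h4 : normalizedFactors x.2.1 = normalizedFactors y.2.1 := by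
      rw [← hcomap₂ _ x.2.2, ← hcomap₂ _ y.2.2, h2]
    refine Prod.ext (Subtype.ext ?_) (Subtype.ext ?_)
    · rw [← Ideal.prod_normalizedFactors_eq_self x.1.2.1,
        ← Ideal.prod_normalizedFactors_eq_self y.1.2.1, h3]
    · rw [← Ideal.prod_normalizedFactors_eq_self x.2.2.1,
        ← Ideal.prod_normalizedFactors_eq_self y.2.2.1, h4]
  have hnorm : ∀ (q : Ideal (𝓞 M) → Ideal (𝓞 M')), (∀ p, Prime p → A p →
      Ideal.absNorm (q p) = Ideal.absNorm p) →
      ∀ I : Ideal (𝓞 M), (I ≠ ⊥ ∧ ∀ p ∈ normalizedFactors I, A p) →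
      Ideal.absNorm ((normalizedFactors I).map q).prod = Ideal.absNorm I := by
    intro q hq I hI
    conv_rhs => rw [← Ideal.prod_normalizedFactors_eq_self hI.1]
    rw [map_multiset_prod, map_multiset_prod, Multiset.map_map]
    congr 1
    refine Multiset.map_congr rfl fun p hp => ?_
    have := hmem _ hI p hp
    exact hq p this.1 this.2
  have hswt : ∀ x, swt s (F x) = swt s x.1.1 * swt s x.2.1 := by
    intro x
    simp only [F]
    rw [Multiset.prod_add, swt_mul]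
    congr 1
    · rw [swt, swt, hnorm q₁ (fun p hp hpT => (hq₁ p hp hpT).2.2) _ x.1.2]
    · rw [swt, swt, hnorm q₂ (fun p hp hpT => (hq₂ p hp hpT).2.2) _ x.2.2]
  rw [ZA, ← ENNReal.tsum_mul_right]
  simp only [← ENNReal.tsum_mul_left]
  rw [← ENNReal.tsum_prod (f := fun I J : {I : Ideal (𝓞 M) // I ≠ ⊥ ∧
    ∀ p ∈ normalizedFactors I, A p} => swt s I.1 * swt s J.1)]
  simp only [← hswt]
  rw [ZZ]
  refine le_trans (le_of_eq ?_) (ENNReal.tsum_comp_le_tsum_of_injective hinj _)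
  refine tsum_congr fun x => ?_
  rw [if_pos]
  exact ⟨hF0 x, by simp⟩

open Classical in
/-- the exceptional primes -/
private def bad (M' : Type) [Field M'] [NumberField M'] [Algebra M M']
    {S : Set (Ideal (𝓞 M))} (hS : S.Finite) : Finset (Ideal (𝓞 M)) :=
  hS.toFinset.filter Prime ∪ ((normalizedFactors (differentIdeal (𝓞 M) (𝓞 M'))).toFinset.image
    (Ideal.comap (algebraMap (𝓞 M) (𝓞 M')))).filter Prime

private lemma exists_two {S : Set (Ideal (𝓞 M))} (hS : S.Finite) {D : Ideal (𝓞 M) → Prop}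
    (h : ∀ 𝔮 : Ideal (𝓞 M'), 𝔮.IsPrime → 𝔮 ≠ ⊥ →
      𝔮.comap (algebraMap (𝓞 M) (𝓞 M')) ∉ S → D (𝔮.comap (algebraMap (𝓞 M) (𝓞 M'))) →
      Ideal.absNorm 𝔮 = Ideal.absNorm (𝔮.comap (algebraMap (𝓞 M) (𝓞 M'))))
    (hm : Module.finrank M M' ≠ 1) {p : Ideal (𝓞 M)} (hp : Prime p) (hpT : p ∉ bad M' hS)
    (hD : D p) :
    ∃ q₁ q₂ : Ideal (𝓞 M'), (Prime q₁ ∧ q₁.comap (algebraMap (𝓞 M) (𝓞 M')) = p ∧
      Ideal.absNorm q₁ = Ideal.absNorm p) ∧ (Prime q₂ ∧
        q₂.comap (algebraMap (𝓞 M) (𝓞 M')) = p ∧ Ideal.absNorm q₂ = Ideal.absNorm p) ∧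
      q₁ ≠ q₂ := by
  classical
  have hm1 : 1 < Module.finrank M M' := by
    have := Module.finrank_pos (R := M) (M := M')
    omega
  have hp0 : p ≠ ⊥ := hp.ne_zero
  have hpP : p.IsPrime := Ideal.isPrime_of_prime hp
  have hpM : p.IsMaximal := hpP.isMaximal hp0
  have hpS : p ∉ S := by
    intro h1
    apply hpT
    rw [bad, Finset.mem_union, Finset.mem_filter]
    exact Or.inl ⟨hS.mem_toFinset.2 h1, hp⟩
  have hN : 1 < Ideal.absNorm p := by
    have h3 : Ideal.absNorm p ≠ 0 := fun h => hp0 (Ideal.absNorm_eq_zero_iff.1 h)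
    have h4 : Ideal.absNorm p ≠ 1 := fun h => hpP.ne_top (Ideal.absNorm_eq_one_iff.1 h)
    omega
  set P := p.map (algebraMap (𝓞 M) (𝓞 M')) with hP
  have hPN : Ideal.absNorm P = Ideal.absNorm p ^ Module.finrank M M' := by
    rw [hP, Ideal.absNorm_algebraMap, IsFractionRing.finrank_eq (𝓞 M) M (𝓞 M') M']
  have hP0 : P ≠ ⊥ := by
    intro h0
    rw [h0, Ideal.absNorm_bot] at hPN
    exact pow_ne_zero _ (by omega) hPN.symm
  -- primes containing `P`
  have key : ∀ q : Ideal (𝓞 M'), q.IsMaximal → P ≤ q →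
      Prime q ∧ q.comap (algebraMap (𝓞 M) (𝓞 M')) = p ∧ Ideal.absNorm q = Ideal.absNorm p := by
    intro q hq hPq
    have hq0 : q ≠ ⊥ := by
      rintro rfl
      exact hP0 (le_bot_iff.1 hPq)
    have h1 : q.comap (algebraMap (𝓞 M) (𝓞 M')) = p :=
      (hpM.eq_of_le (Ideal.comap_ne_top _ hq.ne_top) (Ideal.map_le_iff_le_comap.1 hPq)).symm
    refine ⟨Ideal.prime_of_isPrime hq0 hq.isPrime, h1, ?_⟩
    rw [h q hq.isPrime hq0 (by rw [h1]; exact hpS) (by rw [h1]; exact hD), h1]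
  have hPtop : P ≠ ⊤ := by
    intro h1
    rw [h1, Ideal.absNorm_top] at hPN
    exact (Nat.one_lt_pow (by omega) hN).ne hPN
  obtain ⟨q₁, hq₁, hPq₁⟩ := Ideal.exists_le_maximal P hPtop
  obtain ⟨J, hJ⟩ := Ideal.dvd_iff_le.2 hPq₁
  have h1 := key q₁ hq₁ hPq₁
  have hJtop : J ≠ ⊤ := by
    intro h2
    rw [hJ, h2, map_mul, Ideal.absNorm_top, mul_one, h1.2.2] at hPN
    have h3 := Nat.pow_lt_pow_right hN hm1
    rw [pow_one] at h3
    omega
  obtain ⟨q₂, hq₂, hJq₂⟩ := Ideal.exists_le_maximal J hJtop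
  have hPq₂ : P ≤ q₂ := by
    rw [hJ]
    exact Ideal.mul_le_right.trans hJq₂
  refine ⟨q₁, q₂, h1, key q₂ hq₂ hPq₂, ?_⟩
  rintro rfl
  have h2 : q₁ ^ 2 ∣ p.map (algebraMap (𝓞 M) (𝓞 M')) := by
    rw [← hP, hJ, pow_two]
    exact mul_dvd_mul_left _ (Ideal.dvd_iff_le.2 hJq₂)
  have h3 := pow_sub_one_dvd_differentIdeal (𝓞 M) (p := p) q₁ 2 hp0 h2
  rw [show 2 - 1 = 1 from rfl, pow_one] at h3
  apply hpT
  rw [bad, Finset.mem_union, Finset.mem_filter]
  refine Or.inr ?_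
  rw [Finset.mem_filter]
  refine ⟨Finset.mem_image.2 ⟨q₁, ?_, h1.2.1⟩, hp⟩
  rw [Multiset.mem_toFinset, Ideal.mem_normalizedFactors_iff differentIdeal_ne_bot]
  exact ⟨hq₁.isPrime, Ideal.dvd_iff_le.1 h3⟩

end

section

variable {k L : Type} [Field k] [NumberField k] [Field L] [NumberField L] [Algebra k L]

/-- a prime of `L` which is not of degree one over `k` has large norm -/
private lemma sq_le_norm {q : Ideal (𝓞 L)} (hq : Prime q) (hD : Ideal.absNorm q ≠
    Ideal.absNorm (q.comap (algebraMap (𝓞 k) (𝓞 L)))) : pb q ^ 2 ≤ Ideal.absNorm q := by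
  obtain ⟨hp, hpq, a, ha, hN⟩ := pb_spec hq
  have hqP := Ideal.isPrime_of_prime hq
  by_cases ha1 : a = 1
  · exfalso
    rw [ha1, pow_one] at hN
    apply hD
    have h1 : ((pb q : ℕ) : 𝓞 k) ∈ q.comap (algebraMap (𝓞 k) (𝓞 L)) := by
      rw [Ideal.mem_comap, map_natCast]
      exact hpq
    have h2 := norm_ge hp (Ideal.comap_ne_top (algebraMap (𝓞 k) (𝓞 L)) hqP.ne_top) h1
    have h3 : Ideal.absNorm (q.comap (algebraMap (𝓞 k) (𝓞 L))) ≤ Ideal.absNorm q := by
      have : Finite (𝓞 L ⧸ q) := Ideal.finiteQuotientOfFreeOfNeBot q hq.ne_zero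
      have h4 : Function.Injective (Ideal.quotientMap q (algebraMap (𝓞 k) (𝓞 L)) le_rfl) :=
        Ideal.quotientMap_injective
      have h5 : Nat.card (𝓞 k ⧸ q.comap (algebraMap (𝓞 k) (𝓞 L))) ≤ Nat.card (𝓞 L ⧸ q) :=
        Nat.card_le_card_of_injective _ h4
      exact h5
    rw [← hN] at h2
    exact le_antisymm h2 h3
  · rw [hN]
    exact Nat.pow_le_pow_right hp.pos (by omega)

end

/-- if almost all primes of degree one over `k` of `L` split completely in `E` then `E = L` -/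
theorem split_trivial_deg {k L E : Type} [Field k] [NumberField k] [Field L] [NumberField L]
    [Field E] [NumberField E] [Algebra k L] [Algebra L E] {S : Set (Ideal (𝓞 L))} (hS : S.Finite)
    (h : ∀ 𝔮 : Ideal (𝓞 E), 𝔮.IsPrime → 𝔮 ≠ ⊥ →
      𝔮.comap (algebraMap (𝓞 L) (𝓞 E)) ∉ S →
      Ideal.absNorm (𝔮.comap (algebraMap (𝓞 L) (𝓞 E))) =
        Ideal.absNorm ((𝔮.comap (algebraMap (𝓞 L) (𝓞 E))).comap (algebraMap (𝓞 k) (𝓞 L))) →
      Ideal.absNorm 𝔮 = Ideal.absNorm (𝔮.comap (algebraMap (𝓞 L) (𝓞 E)))) :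
    Module.finrank L E = 1 := by
  classical
  by_contra hm
  set D : Ideal (𝓞 L) → Prop := fun p =>
    Ideal.absNorm p = Ideal.absNorm (p.comap (algebraMap (𝓞 k) (𝓞 L))) with hDdef
  have h2 : ∀ p : Ideal (𝓞 L), ∃ q : Ideal (𝓞 E) × Ideal (𝓞 E), Prime p →
      (p ∉ bad E hS ∧ D p) →
      (Prime q.1 ∧ q.1.comap (algebraMap (𝓞 L) (𝓞 E)) = p ∧
        Ideal.absNorm q.1 = Ideal.absNorm p) ∧ (Prime q.2 ∧
        q.2.comap (algebraMap (𝓞 L) (𝓞 E)) = p ∧ Ideal.absNorm q.2 = Ideal.absNorm p) ∧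
      q.1 ≠ q.2 := by
    intro p
    by_cases hp : Prime p ∧ (p ∉ bad E hS ∧ D p)
    · obtain ⟨q₁, q₂, h3⟩ := exists_two hS (D := D) h hm hp.1 hp.2.1 hp.2.2
      exact ⟨(q₁, q₂), fun _ _ => h3⟩
    · exact ⟨(⊥, ⊥), fun h3 h4 => absurd ⟨h3, h4⟩ hp⟩
  choose q hq using h2
  set A : Ideal (𝓞 L) → Prop := fun p => p ∉ bad E hS ∧ D p with hA
  have hle : ∀ s : ℝ, ZA A s * ZA A s ≤ ZZ (∅ : Finset (Ideal (𝓞 E))) s :=
    fun s => za_sq_le (A := A) (q₁ := fun p => (q p).1) (q₂ := fun p => (q p).2)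
      (fun p hp hpT => (hq p hp hpT).1) (fun p hp hpT => (hq p hp hpT).2.1)
      (fun p hp hpT => (hq p hp hpT).2.2) s
  set C : ℝ≥0∞ := C0 ^ Module.finrank ℤ (𝓞 L) with hC
  have hCt : C ≠ ⊤ := ENNReal.pow_ne_top c0_ne_top
  have hle2 : ∀ s : ℝ, 1 ≤ s → ZZ (bad E hS) s ≤ ZA A s * C := by
    intro s hs
    refine (zz_le_za _ s).trans ((za_split _ D s).trans (mul_le_mul' le_rfl ?_))
    exact (za_mono (fun p hp h => sq_le_norm hp h.2) s).trans (za_bad hs)
  have hle3 : ∀ s : ℝ, 1 ≤ s → ZZ (bad E hS) s * ZZ (bad E hS) s ≤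
      (C * C) * ZZ (∅ : Finset (Ideal (𝓞 E))) s := by
    intro s hs
    calc ZZ (bad E hS) s * ZZ (bad E hS) s ≤ (ZA A s * C) * (ZA A s * C) :=
          mul_le_mul' (hle2 s hs) (hle2 s hs)
      _ = (C * C) * (ZA A s * ZA A s) := by ring
      _ ≤ _ := mul_le_mul' le_rfl (hle s)
  have hbad : ∀ p ∈ bad E hS, Prime p := by
    intro p hp
    rw [bad, Finset.mem_union, Finset.mem_filter, Finset.mem_filter] at hp
    rcases hp with hp | hp
    · exact hp.2
    · exact hp.2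
  obtain ⟨κ, hκ, hκ1, hκ2⟩ := zz_lim (bad E hS) hbad
  obtain ⟨κ', hκ', hκ1', hκ2'⟩ := zz_empty_lim (K := E)
  have h3 : Tendsto (fun s : ℝ => ((s - 1) * (ZZ (bad E hS) s).toReal) *
      ((s - 1) * (ZZ (bad E hS) s).toReal)) (𝓝[>] 1) (𝓝 (κ * κ)) := hκ2.mul hκ2
  have h4 : Tendsto (fun s : ℝ => ((s - 1) * (C * C).toReal) * ((s - 1) *
      (ZZ (∅ : Finset (Ideal (𝓞 E))) s).toReal)) (𝓝[>] 1)
      (𝓝 (((1 - 1) * (C * C).toReal) * κ')) := by
    refine Tendsto.mul ?_ hκ2'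
    exact ((tendsto_id.sub_const 1).mono_left nhdsWithin_le_nhds).mul_const _
  have h5 : κ * κ ≤ ((1 - 1) * (C * C).toReal) * κ' := by
    refine le_of_tendsto_of_tendsto h3 h4 ?_
    filter_upwards [hκ1, hκ1', self_mem_nhdsWithin] with s hs hs' hs1
    have hs2 : (0 : ℝ) < s - 1 := sub_pos.2 hs1
    have h6 := ENNReal.toReal_mono (ENNReal.mul_ne_top (ENNReal.mul_ne_top hCt hCt) hs')
      (hle3 s (le_of_lt hs1))
    rw [ENNReal.toReal_mul, ENNReal.toReal_mul (a := C * C)] at h6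
    calc ((s - 1) * (ZZ (bad E hS) s).toReal) * ((s - 1) * (ZZ (bad E hS) s).toReal)
        = ((s - 1) * (s - 1)) * ((ZZ (bad E hS) s).toReal * (ZZ (bad E hS) s).toReal) := by ring
      _ ≤ ((s - 1) * (s - 1)) *
          ((C * C).toReal * (ZZ (∅ : Finset (Ideal (𝓞 E))) s).toReal) := by gcongr
      _ = _ := by ring
  have h6 : 0 < κ * κ := mul_pos hκ hκ
  rw [sub_self, zero_mul, zero_mul] at h5
  linarith

end Pool.Agent.CMR
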