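import Pool.Agent.CMR.RActA
import Pool.Agent.CMR.RDens
import Pool.Agent.StarkRQ.FrobF

/-!
# R-ACTB elements of the Galois group which fix L

Let `𝒟` be the set of the `τ ∈ Gal(F/L)` such that the conclusion holds for `τ` (as an element of `Gal(F/k)`): it contains `1` (`𝔥 = ⊤`, empty list) and is closed under products (`Acts.mul`, append the lists), so it is a subgroup of the finite group `Gal(F/L)` (`F/L` is Galois). Let `E = fixedField 𝒟 ⊆ F`. `split_trivial_deg` for `k, L, E`, `S` = the primes of `L` containing `B`: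
let `𝔮` be a prime of `E` with `𝔮_L = 𝔮 ∩ L` not containing `B` and of degree one over `k`: `N𝔮_L = N𝔭`, `𝔭 = 𝔮_L ∩ k`. Choose `𝔓` of `F` over `𝔮` and a Frobenius element `φ ∈ Gal(F/L)` at `𝔓`: `φ x ≡ x^{N𝔮_L} = x^{N𝔭}` mod `𝔓`, so `hX.frob` applies: `φ` acts by `𝔭`, and `𝔭` is in `IsNm L N` (`𝔮_L`, prime to `N` since `N ∣ B`), `𝔭` is prime to `B`. So `φ ∈ 𝒟` fixes `E`, and
`x ≡ x^{N𝔮_L}` mod `𝔮` for `x ∈ 𝓞 E`, so `N𝔮 ≤ N𝔮_L`, `N𝔮 = N𝔮_L` (private lemma in `GGen.lean`). Hence `[E : L] = 1`, `𝒟 = Gal(F/L)` (Galois correspondence). See `GGen.lean` (same proof with `L = k`). A `τ ∈ Gal(F/k)` with `hτ` defines an element of `Gal(F/L)`.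
-/

set_option autoImplicit false

noncomputable section

open NumberField Pool.Agent.StarkRQ
open scoped Pointwise

namespace Pool.Agent.CMR

/-- a residue field in which `x ^ q = x` -/
private lemma ractb_card {k E : Type} [Field k] [NumberField k] [Field E] [NumberField E]
    [Algebra k E] {𝔮 : Ideal (𝓞 E)} (h𝔮 : 𝔮.IsPrime) (h0 : 𝔮 ≠ ⊥)
    (h : ∀ x : 𝓞 E, x - x ^ Ideal.absNorm (𝔮.comap (algebraMap (𝓞 k) (𝓞 E))) ∈ 𝔮)
    (h0' : 𝔮.comap (algebraMap (𝓞 k) (𝓞 E)) ≠ ⊥) :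
    Ideal.absNorm 𝔮 = Ideal.absNorm (𝔮.comap (algebraMap (𝓞 k) (𝓞 E))) := by
  classical
  set 𝔭 := 𝔮.comap (algebraMap (𝓞 k) (𝓞 E)) with h𝔭
  have hp : 𝔭.IsPrime := Ideal.comap_isPrime _ _
  have hmax : 𝔮.IsMaximal := h𝔮.isMaximal h0
  have hfin : Finite (𝓞 E ⧸ 𝔮) := Ideal.finiteQuotientOfFreeOfNeBot 𝔮 h0
  have hfin' : Finite (𝓞 k ⧸ 𝔭) := Ideal.finiteQuotientOfFreeOfNeBot 𝔭 h0'
  have e1 : Ideal.absNorm 𝔮 = Nat.card (𝓞 E ⧸ 𝔮) := by
    rw [Ideal.absNorm_apply, Submodule.cardQuot_apply]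
  have e2 : Ideal.absNorm 𝔭 = Nat.card (𝓞 k ⧸ 𝔭) := by
    rw [Ideal.absNorm_apply, Submodule.cardQuot_apply]
  apply le_antisymm
  · set q := Ideal.absNorm 𝔭 with hq
    have hq1 : 1 < q := by
      rw [e2]
      have : Nontrivial (𝓞 k ⧸ 𝔭) := Ideal.Quotient.nontrivial_iff.2 hp.ne_top
      exact Finite.one_lt_card
    let _ : Field (𝓞 E ⧸ 𝔮) := Ideal.Quotient.field 𝔮
    have _ : Fintype (𝓞 E ⧸ 𝔮) := Fintype.ofFinite _
    set P : Polynomial (𝓞 E ⧸ 𝔮) := Polynomial.X ^ q - Polynomial.X with hP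
    have hP0 : P ≠ 0 := FiniteField.X_pow_card_sub_X_ne_zero _ hq1
    have hPd : P.natDegree = q := FiniteField.X_pow_card_sub_X_natDegree_eq _ hq1
    rw [e1, Nat.card_eq_fintype_card]
    have hsub : (Finset.univ : Finset (𝓞 E ⧸ 𝔮)) ⊆ P.roots.toFinset := by
      intro y _
      rw [Multiset.mem_toFinset, Polynomial.mem_roots hP0, Polynomial.IsRoot.def, hP]
      obtain ⟨x, rfl⟩ := Ideal.Quotient.mk_surjective y
      have h1 := Ideal.Quotient.eq_zero_iff_mem.2 (h x)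
      rw [map_sub, map_pow, sub_eq_zero] at h1
      simp only [Polynomial.eval_sub, Polynomial.eval_pow, Polynomial.eval_X]
      rw [← h1, sub_self]
    calc Fintype.card (𝓞 E ⧸ 𝔮) = (Finset.univ : Finset (𝓞 E ⧸ 𝔮)).card := rfl
      _ ≤ P.roots.toFinset.card := Finset.card_le_card hsub
      _ ≤ P.roots.card := Multiset.toFinset_card_le _
      _ ≤ P.natDegree := Polynomial.card_roots' P
      _ = q := hPd
  · rw [e1, e2]
    exact Nat.card_le_card_of_injective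
      (Ideal.quotientMap 𝔮 (algebraMap (𝓞 k) (𝓞 E)) le_rfl) (Ideal.quotientMap_injective)

private lemma ractb_comap_ne {k E : Type} [Field k] [NumberField k] [Field E] [NumberField E]
    [Algebra k E] {𝔮 : Ideal (𝓞 E)} (h0 : 𝔮 ≠ ⊥) :
    𝔮.comap (algebraMap (𝓞 k) (𝓞 E)) ≠ ⊥ := by
  intro h
  have h1 : ((Ideal.absNorm 𝔮 : ℕ) : 𝓞 k) ∈ 𝔮.comap (algebraMap (𝓞 k) (𝓞 E)) := by
    rw [Ideal.mem_comap, map_natCast]
    exact Ideal.absNorm_mem 𝔮
  rw [h, Ideal.mem_bot, Nat.cast_eq_zero, Ideal.absNorm_eq_zero_iff] at h1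
  exact h0 h1

private lemma ractb_prm {k : Type} [Field k] [NumberField k] {B : ℕ} {𝔭 : Ideal (𝓞 k)}
    (hp : 𝔭.IsPrime) (hp0 : 𝔭 ≠ ⊥) (hB : (B : 𝓞 k) ∉ 𝔭) : Prm B 𝔭 := by
  have hmax : 𝔭.IsMaximal := hp.isMaximal hp0
  unfold Prm
  rw [Ideal.isCoprime_iff_sup_eq]
  by_contra hcon
  have h1 := hmax.eq_of_le hcon le_sup_left
  apply hB
  rw [h1]
  exact Ideal.mem_sup_right (Ideal.mem_span_singleton_self _)

/-- every element of `Gal(F/k)` which fixes `L` acts by multiplication by an ideal which is a product of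
primes under primes of degree one of `L` -/
theorem acts_of_fix {k L F : Type} [Field k] [NumberField k] [Field L] [NumberField L]
    [Field F] [NumberField F] [Algebra k L] [Algebra L F] [Algebra k F] [IsScalarTower k L F]
    [IsGalois k F] {n B N : ℕ} {X : Ideal (𝓞 k) → 𝓞 k → F} (hX : RD n B X) (hB : N ∣ B)
    (τ : Gal(F/k)) (hτ : ∀ x : L, τ (algebraMap L F x) = algebraMap L F x) :
    ∃ 𝔥 : Ideal (𝓞 k), 𝔥 ≠ ⊥ ∧ Prm B 𝔥 ∧ IsNm L N 𝔥 ∧ Acts n X 𝔥 τ := by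
  classical
  have hLF : IsGalois L F := IsGalois.tower_top_of_isGalois k L F
  let GA : Gal(F/L) → Prop := fun g => ∃ 𝔥 : Ideal (𝓞 k), 𝔥 ≠ ⊥ ∧ Prm B 𝔥 ∧ IsNm L N 𝔥 ∧
    Acts n X 𝔥 (g.restrictScalars k : Gal(F/k))
  let H0 : Submonoid Gal(F/L) :=
    { carrier := {g | GA g}
      one_mem' := ⟨⊤, top_ne_bot, by rw [Prm, ← Ideal.one_eq_top]; exact isCoprime_one_left,
        ⟨[], by rw [List.prod_nil, Ideal.one_eq_top], by simp⟩, Acts.one⟩
      mul_mem' := by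
        rintro g g' ⟨𝔥, a0, a1, ⟨l, a2, a3⟩, a4⟩ ⟨𝔨, b0, b1, ⟨l', b2, b3⟩, b4⟩
        refine ⟨𝔥 * 𝔨, mul_ne_zero a0 b0, (prm_mul_iff _ _).2 ⟨a1, b1⟩,
          ⟨l ++ l', by rw [List.prod_append, a2, b2], fun 𝔭 h𝔭 => ?_⟩,
          Acts.mul b0 (Prm.of_dvd hX.dvd b1) a4 b4⟩
        rcases List.mem_append.1 h𝔭 with h | h
        · exact a3 𝔭 h
        · exact b3 𝔭 h }
  let H : Subgroup Gal(F/L) :=
    { H0 with
      inv_mem' := by
        intro g hg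
        have h1 : g⁻¹ ∈ Submonoid.powers g :=
          (isOfFinOrder_of_finite g).mem_powers_iff_mem_zpowers.2
            (inv_mem (Subgroup.mem_zpowers g))
        exact (Submonoid.powers_le.2 (show g ∈ H0 from hg)) h1 }
  have hH : ∀ g, g ∈ H ↔ GA g := fun g => Iff.rfl
  let g : Gal(F/L) := AlgEquiv.ofRingEquiv (f := (τ : F ≃+* F)) hτ
  have hgτ : (g.restrictScalars k : Gal(F/k)) = τ := by
    ext x
    rfl
  suffices hg : g ∈ H by
    obtain ⟨𝔥, h1, h2, h3, h4⟩ := (hH g).1 hg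
    rw [hgτ] at h4
    exact ⟨𝔥, h1, h2, h3, h4⟩
  set E : IntermediateField L F := IntermediateField.fixedField H with hE
  have hone : Module.finrank L E = 1 := by
    have hBk : (Ideal.span {(B : 𝓞 L)} : Ideal (𝓞 L)) ≠ 0 := by
      rw [Ne, Ideal.zero_eq_bot, Ideal.span_singleton_eq_bot]
      exact_mod_cast hX.B_ne
    have hS : {𝔭 : Ideal (𝓞 L) | 𝔭 ∣ Ideal.span {(B : 𝓞 L)}}.Finite :=
      @Set.toFinite _ _ (@Finite.of_fintype _
        (UniqueFactorizationMonoid.fintypeSubtypeDvd _ hBk))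
    refine split_trivial_deg (k := k) hS ?_
    intro 𝔮 h𝔮 h0 hnot hdeg
    have hBq : (B : 𝓞 E) ∉ 𝔮 := by
      intro h
      apply hnot
      show 𝔮.comap (algebraMap (𝓞 L) (𝓞 E)) ∣ Ideal.span {(B : 𝓞 L)}
      rw [Ideal.dvd_span_singleton, Ideal.mem_comap, map_natCast]
      exact h
    obtain ⟨𝔓, h𝔓, hc⟩ := exists_over (F := E) (M := F) 𝔮
    have h𝔓0 : 𝔓 ≠ ⊥ := by
      rintro rfl
      apply h0
      rw [← hc, Ideal.comap_bot_of_injective _ (FaithfulSMul.algebraMap_injective (𝓞 E) (𝓞 F))]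
    have hB𝔓 : (B : 𝓞 F) ∉ 𝔓 := by
      intro h
      apply hBq
      rw [← hc, Ideal.mem_comap, map_natCast]
      exact h
    set 𝔭 := 𝔓.comap (algebraMap (𝓞 L) (𝓞 F)) with h𝔭
    have hp : 𝔭.IsPrime := Ideal.comap_isPrime _ _
    have hp0 : 𝔭 ≠ ⊥ := ractb_comap_ne h𝔓0
    have hpq : 𝔮.comap (algebraMap (𝓞 L) (𝓞 E)) = 𝔭 := by
      rw [← hc, Ideal.comap_comap, h𝔭]
      congr 1
    have hkp : 𝔓.comap (algebraMap (𝓞 k) (𝓞 F)) = 𝔭.comap (algebraMap (𝓞 k) (𝓞 L)) := by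
      rw [h𝔭, Ideal.comap_comap]
      congr 1
      ext y
      show algebraMap k F (y : k) = algebraMap L F (algebraMap k L (y : k))
      exact IsScalarTower.algebraMap_apply k L F (y : k)
    rw [hpq] at hdeg
    obtain ⟨φ, hφ⟩ := exists_cong_over (F := L) (M := F) hp0 h𝔭.symm
    have hBp : (B : 𝓞 L) ∉ 𝔭 := by
      intro h
      rw [h𝔭, Ideal.mem_comap, map_natCast] at h
      exact hB𝔓 h
    have hφ' : ∀ x : 𝓞 F, (φ.restrictScalars k : Gal(F/k)) • x -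
        x ^ Ideal.absNorm (𝔓.comap (algebraMap (𝓞 k) (𝓞 F))) ∈ 𝔓 := by
      intro x
      have h1 := hφ x
      rw [hkp, ← hdeg]
      exact h1
    have hφH : φ ∈ H := by
      rw [hH]
      have h1 := hX.frob 𝔓 _ h𝔓 h𝔓0 hB𝔓 hφ'
      rw [hkp] at h1
      have hp' : (𝔭.comap (algebraMap (𝓞 k) (𝓞 L))).IsPrime := Ideal.comap_isPrime _ _
      have hp0' : 𝔭.comap (algebraMap (𝓞 k) (𝓞 L)) ≠ ⊥ := ractb_comap_ne hp0
      refine ⟨_, hp0', ractb_prm hp' hp0' ?_, ⟨[𝔭.comap (algebraMap (𝓞 k) (𝓞 L))], by simp, ?_⟩,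
        h1⟩
      · rw [Ideal.mem_comap, map_natCast]
        exact hBp
      · intro 𝔠 h𝔠
        rw [List.mem_singleton] at h𝔠
        exact ⟨𝔭, hp, hp0, Prm.of_dvd hB (ractb_prm hp hp0 hBp), h𝔠.symm, by rw [h𝔠, hdeg]⟩
    refine ractb_card h𝔮 h0 ?_ (ractb_comap_ne h0)
    intro x
    rw [hpq, ← hc, Ideal.mem_comap]
    have h1 := hφ (algebraMap (𝓞 E) (𝓞 F) x)
    have h2 : φ ((x : E) : F) = ((x : E) : F) :=
      (IntermediateField.mem_fixedField_iff H _).1 (x : E).2 φ hφH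
    have h3 : toG L F φ • algebraMap (𝓞 E) (𝓞 F) x = algebraMap (𝓞 E) (𝓞 F) x := by
      ext
      exact h2
    rw [h3] at h1
    rw [map_sub, map_pow]
    exact h1
  have hbot : E = ⊥ := IntermediateField.finrank_eq_one_iff.1 hone
  have hfix : E.fixingSubgroup = H := IntermediateField.fixingSubgroup_fixedField H
  rw [hbot, IntermediateField.fixingSubgroup_bot] at hfix
  rw [← hfix]
  trivial

end Pool.Agent.CMR
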