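import Pool.Agent.CMR.RActA
import Pool.Agent.CMR.Mod
import Pool.Agent.StarkRQ.Cyclo

/-!
# R-CYC roots of unity, restriction, norms

`exists_cyc`: `M' = CyclotomicField m M` (see `CMG.isGalois_cyclotomic`, and the files of `StarkRQ/Oct`, `CMG` for the discriminant of `M(ζ)`: a prime `p ∤ N m` is unramified in `M` and in `ℚ(ζ_m)`, hence in the compositum `M'`: e.g. a nontrivial element `τ` of the inertia group of a prime `𝔔 ∣ p` of `M'` over `ℚ` acts trivially on `M` (unramified)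
and on `ζ` (`ζ^a ≡ ζ` mod `𝔔` implies equality for `p ∤ m`)). `M'/k` is abelian: `τ ↦ (τ|_M, τ ζ)` is injective into an abelian group. `art_root`: multiplicative in `𝔟` (`art_mul'`), for a prime `𝔭`: `φ ζ ≡ ζ^{N𝔭}` mod `𝔓` and `m ∉ 𝔓`, so equality (roots of unity of order prime to `𝔓` are different mod `𝔓`); cf. `CMG/SStark.lean`,
`CMR/AStark.lean`. `art_restrict`: multiplicative, for primes `art_of_frob`. `absNorm_of_REq`: `(a)𝔞 = (b)𝔟`, `a, b ≡ 1` mod `m`, so `N(a)N𝔞 = N(b)N𝔟` and `N(a) = N_{k/ℚ}(a) ≥ 0` (`k` imaginary quadratic: `a ā`), `≡ 1` mod `m` (`N_{k/ℚ}(1 + m x) = 1 + m Tr x + m² N x`).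
-/

set_option autoImplicit false

noncomputable section

open NumberField Pool.Agent.StarkRQ
open scoped Pointwise

namespace Pool.Agent.CMR

/-- adjoining roots of unity -/
theorem exists_cyc {k M : Type} [Field k] [NumberField k] [Field M] [NumberField M] [Algebra k M]
    [IsGalois ℚ M] [IsAbelianGalois k M] {N : ℕ} (hN : N ≠ 0)
    (hr : ∀ p : ℕ, p.Prime → (p : ℤ) ∣ discr M → p ∣ N) {m : ℕ} (hm : m ≠ 0) :
    ∃ (M' : Type) (_ : Field M') (_ : NumberField M') (_ : Algebra k M') (_ : Algebra M M')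
      (_ : IsScalarTower k M M') (_ : IsGalois ℚ M') (_ : IsAbelianGalois k M') (ζ : M'),
      IsPrimitiveRoot ζ m ∧ ∀ p : ℕ, p.Prime → (p : ℤ) ∣ discr M' → p ∣ N * m := by
  have : NeZero m := ⟨hm⟩
  have hG : IsGalois ℚ (CyclotomicField m M) := CMG.isGalois_cyclotomic (M := M) hm
  have hA : IsAbelianGalois k (CyclotomicField m M) :=
    isAbelianGalois_cyclotomic k M m (CyclotomicField m M)
  obtain ⟨ζ, hζ⟩ := IsCyclotomicExtension.exists_isPrimitiveRoot M (CyclotomicField m M)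
    (Set.mem_singleton m) hm
  refine ⟨CyclotomicField m M, inferInstance, inferInstance, inferInstance, inferInstance,
    inferInstance, hG, hA, ζ, hζ, fun p hp h1 => ?_⟩
  rcases CMG.ram_cyclotomic (M := M) hm hp h1 with h2 | h2
  · exact (hr p hp h2).mul_right m
  · exact h2.mul_left N

/-- the action of Artin symbols on roots of unity -/
theorem art_root {k M : Type} [Field k] [NumberField k] [Field M] [NumberField M] [Algebra k M]
    [IsGalois ℚ M] [IsAbelianGalois k M] {N : ℕ}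
    (hr : ∀ p : ℕ, p.Prime → (p : ℤ) ∣ discr M → p ∣ N) {m : ℕ} (hm : m ∣ N) {ζ : M}
    (hζ : ζ ^ m = 1) {𝔟 : Ideal (𝓞 k)} (h0 : 𝔟 ≠ ⊥) (hp : Prm N 𝔟) :
    (art 𝔟 : Gal(M/k)) ζ = ζ ^ Ideal.absNorm 𝔟 := by
  rcases eq_or_ne m 0 with h | h
  · subst h
    have hN : N = 0 := Nat.eq_zero_of_zero_dvd hm
    subst hN
    have h1 : Ideal.absNorm 𝔟 = 1 := Nat.coprime_zero_right _ |>.1 ((prm_iff _).1 hp)
    have h2 : 𝔟 = ⊤ := Ideal.absNorm_eq_one_iff.1 h1
    subst h2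
    rw [h1, pow_one, art_top hr, AlgEquiv.one_apply]
  · exact CMG.artin_root ((art_iff' hr h0 hp _).2 rfl) h ((prm_iff _).1 (hp.of_dvd hm)) hζ

/-- compatibility of Artin symbols with restriction -/
theorem art_restrict {k M M' : Type} [Field k] [NumberField k] [Field M] [NumberField M]
    [Field M'] [NumberField M'] [Algebra k M] [Algebra k M'] [Algebra M M'] [IsScalarTower k M M']
    [IsGalois ℚ M] [IsAbelianGalois k M] [IsGalois ℚ M'] [IsAbelianGalois k M'] {N N' : ℕ}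
    (hr : ∀ p : ℕ, p.Prime → (p : ℤ) ∣ discr M → p ∣ N)
    (hr' : ∀ p : ℕ, p.Prime → (p : ℤ) ∣ discr M' → p ∣ N') (hN : N ∣ N') {𝔟 : Ideal (𝓞 k)}
    (h0 : 𝔟 ≠ ⊥) (hp : Prm N' 𝔟) (x : M) :
    (art 𝔟 : Gal(M'/k)) (algebraMap M M' x) = algebraMap M M' ((art 𝔟 : Gal(M/k)) x) := by
  have h1 : HasArtinSymbol 𝔟 (art 𝔟 : Gal(M'/k)) := (art_iff' hr' h0 hp _).2 rfl
  have h2 := (art_iff' hr h0 (hp.of_dvd hN) _).1 (hasArtin_restrict (M := M) h1)
  have h3 := AlgEquiv.restrictNormal_commutes (art 𝔟 : Gal(M'/k)) M x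
  have h4 : (art 𝔟 : Gal(M'/k)).restrictNormal M = art 𝔟 := h2
  rw [h4] at h3
  exact h3.symm

/-- norms of ideals in the same ray class -/
theorem absNorm_of_REq {k : Type} [Field k] [NumberField k] (hk : IsIQ k) {m : ℕ}
    {𝔞 𝔟 : Ideal (𝓞 k)} (h : REq m 𝔞 𝔟) :
    Ideal.absNorm 𝔞 ≡ Ideal.absNorm 𝔟 [MOD m] := by
  have := hk.isComplex
  obtain ⟨a, b, ha0, hb0, ha, hb, e⟩ := h
  have h1 := congrArg Ideal.absNorm e
  rw [map_mul, map_mul] at h1
  have key : ∀ c : 𝓞 k, c ≠ 0 → (m : 𝓞 k) ∣ c - 1 →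
      Ideal.absNorm (Ideal.span {c}) ≡ 1 [MOD m] := by
    intro c hc h
    have h2 := absNorm_congr_one hc h
    exact (Int.natCast_modEq_iff.1 (Int.modEq_iff_dvd.2 (by exact_mod_cast h2))).symm
  calc Ideal.absNorm 𝔞 = 1 * Ideal.absNorm 𝔞 := (one_mul _).symm
    _ ≡ Ideal.absNorm (Ideal.span {a}) * Ideal.absNorm 𝔞 [MOD m] :=
        ((key a ha0 ha).symm).mul_right _
    _ = Ideal.absNorm (Ideal.span {b}) * Ideal.absNorm 𝔟 := h1
    _ ≡ 1 * Ideal.absNorm 𝔟 [MOD m] := (key b hb0 hb).mul_right _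
    _ = Ideal.absNorm 𝔟 := one_mul _

end Pool.Agent.CMR
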