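import Pool.Agent.CMR.ADefs

/-!
# Block R (every abelian extension of an imaginary quadratic field has a modulus): definitions
-/

set_option autoImplicit false

noncomputable section

open NumberField Pool.Agent.StarkRQ UniqueFactorizationMonoid
open scoped Pointwise

namespace Pool.Agent.CMR

section

variable (L : Type) [Field L] [NumberField L]

/-- the primes of `L` which are prime to `N` -/
def PrmT (N : ℕ) : Type := {𝔓 : Ideal (𝓞 L) // 𝔓.IsPrime ∧ 𝔓 ≠ ⊥ ∧ Prm N 𝔓}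

variable {L}

/-- the divisor of an ideal, away from `N` -/
def idiv (N : ℕ) (𝔄 : Ideal (𝓞 L)) : PrmT L N →₀ ℤ := open Classical in
  if h : (Function.support fun 𝔓 : PrmT L N => ((normalizedFactors 𝔄).count 𝔓.1 : ℤ)).Finite then
    Finsupp.ofSupportFinite (fun 𝔓 : PrmT L N => ((normalizedFactors 𝔄).count 𝔓.1 : ℤ)) h
  else 0

/-- the divisor of a nonzero element `x = a / b` of `L`, away from `N` -/
def vdiv (N : ℕ) (x : L) : PrmT L N →₀ ℤ :=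
  idiv N (Ideal.span {(IsLocalization.sec (nonZeroDivisors (𝓞 L)) x).1}) -
    idiv N (Ideal.span {((IsLocalization.sec (nonZeroDivisors (𝓞 L)) x).2 : 𝓞 L)})

/-- `s x` is integral for some `s` prime to `N` -/
def InR (N : ℕ) (x : L) : Prop := ∃ s : ℕ, s.Coprime N ∧ IsIntegral ℤ ((s : L) * x)

end

section

variable {k L : Type} [Field k] [NumberField k] [Field L] [NumberField L] [Algebra k L]

/-- the action of the Galois group on primes -/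
def actP {N : ℕ} (τ : Gal(L/k)) (𝔓 : PrmT L N) : PrmT L N := open Classical in
  if h : (τ • 𝔓.1).IsPrime ∧ τ • 𝔓.1 ≠ ⊥ ∧ Prm N (τ • 𝔓.1) then ⟨τ • 𝔓.1, h⟩ else 𝔓

/-- the lattice spanned over the localization of `𝓞 k` at `N` by the conjugates of `θ` -/
def InLam (k : Type) {L : Type} [Field k] [NumberField k] [Field L] [NumberField L] [Algebra k L]
    (N : ℕ) (θ x : L) : Prop :=
  ∃ c : Gal(L/k) → k, (∀ g, InR N (c g)) ∧ x = ∑ᶠ g : Gal(L/k), algebraMap k L (c g) * g θ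

/-- `θ` generates a normal basis, and `N ^ t` times the localization of `𝓞 L` at `N` is in the lattice. -/
structure IsLat (k : Type) {L : Type} [Field k] [NumberField k] [Field L] [NumberField L]
    [Algebra k L] (N t : ℕ) (θ : L) : Prop where
  int : IsIntegral ℤ θ
  indep : LinearIndependent k fun g : Gal(L/k) => g θ
  le : ∀ x : L, InR N x → InLam k N θ ((N : L) ^ t * x)

/-- `x = 1 + N ^ i λ`, `λ` in the lattice -/
def InW (k : Type) {L : Type} [Field k] [NumberField k] [Field L] [NumberField L] [Algebra k L]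
    (N i : ℕ) (θ x : L) : Prop :=
  ∃ l : L, InLam k N θ l ∧ x = 1 + (N : L) ^ i * l

/-- the units in `W` -/
def InU (k : Type) {L : Type} [Field k] [NumberField k] [Field L] [NumberField L] [Algebra k L]
    (N i : ℕ) (θ x : L) : Prop :=
  InW k N i θ x ∧ IsIntegral ℤ x ∧ IsIntegral ℤ x⁻¹

/-- `L/k` is unramified outside `N` -/
def Unr (k L : Type) [Field k] [NumberField k] [Field L] [NumberField L] [Algebra k L]
    (N : ℕ) : Prop :=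
  ∀ 𝔓 : Ideal (𝓞 L), 𝔓.IsPrime → 𝔓 ≠ ⊥ → Prm N 𝔓 →
    ¬ 𝔓 ^ 2 ∣ (𝔓.comap (algebraMap (𝓞 k) (𝓞 L))).map (algebraMap (𝓞 k) (𝓞 L))

/-- `𝔡` is a product of primes of `k` under primes of degree one (over `k`) of `L`, prime to `N`. -/
def IsNm (L : Type) {k : Type} [Field k] [NumberField k] [Field L] [NumberField L] [Algebra k L]
    (N : ℕ) (𝔡 : Ideal (𝓞 k)) : Prop :=
  ∃ l : List (Ideal (𝓞 k)), l.prod = 𝔡 ∧ ∀ 𝔭 ∈ l, ∃ 𝔓 : Ideal (𝓞 L), 𝔓.IsPrime ∧ 𝔓 ≠ ⊥ ∧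
    Prm N 𝔓 ∧ 𝔓.comap (algebraMap (𝓞 k) (𝓞 L)) = 𝔭 ∧ Ideal.absNorm 𝔓 = Ideal.absNorm 𝔭

end

section

variable {k F : Type} [Field k] [NumberField k] [Field F] [NumberField F] [Algebra k F]

/-- `τ` acts on the family `X` by multiplication of ideals by `𝔥` -/
def Acts (n : ℕ) (X : Ideal (𝓞 k) → 𝓞 k → F) (𝔥 : Ideal (𝓞 k)) (τ : Gal(F/k)) : Prop :=
  ∀ 𝔤 : Ideal (𝓞 k), 𝔤 ≠ ⊥ → Prm n 𝔤 → ∀ a : 𝓞 k, ¬ (n : 𝓞 k) ∣ a →
    τ (X 𝔤 a) = X (𝔤 * 𝔥) a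

/-- the family `X` of torsion values, indexed by ideals and residue classes modulo `n` -/
structure RD (n B : ℕ) (X : Ideal (𝓞 k) → 𝓞 k → F) : Prop where
  n_ne : n ≠ 0
  B_ne : B ≠ 0
  dvd : n ∣ B
  frob : ∀ (𝔓 : Ideal (𝓞 F)) (φ : Gal(F/k)), 𝔓.IsPrime → 𝔓 ≠ ⊥ → (B : 𝓞 F) ∉ 𝔓 →
    (∀ x : 𝓞 F, φ • x - x ^ Ideal.absNorm (𝔓.comap (algebraMap (𝓞 k) (𝓞 F))) ∈ 𝔓) →
    Acts n X (𝔓.comap (algebraMap (𝓞 k) (𝓞 F))) φ
  inj : ∀ 𝔤 𝔥 : Ideal (𝓞 k), 𝔤 ≠ ⊥ → 𝔥 ≠ ⊥ → Prm n 𝔤 → Prm n 𝔥 →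
    (∀ a : 𝓞 k, ¬ (n : 𝓞 k) ∣ a → X 𝔤 a = X 𝔥 a) → REq n 𝔤 𝔥

end

end Pool.Agent.CMR
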