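import Pool.Agent.CMR.RDefs
import Pool.Agent.CMR.ZCls

/-!
# R-DIV divisors of ideals and elements

`normalizedFactors` of a nonzero ideal is a multiset of primes (`Ideal` is normalized: units are trivial), so the support is finite and `idiv_apply` holds; `normalizedFactors_mul`, `normalizedFactors_irreducible` (`normalize = id` for ideals). `exists_idiv_sub`: positive and negative part, products of primes;
a product of primes prime to `N` is prime to `N` (`prm_mul_iff`; induction: `Finsupp.induction_linear` or on the support). `vdiv_coe`: `sec` of `a` is `(x, y)` with `a y = x`, `y ≠ 0`, so `idiv (x) = idiv (a) + idiv (y)`. In general, if `x = a/b` then `vdiv x = idiv (a) - idiv (b)`; `vdiv_mul`.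
`vdiv_int`: `x = (u : L)` for `u` a unit of `𝓞 L`, `span {u} = ⊤`. `int_of_vdiv`: `x = a/b`, `a, b ∈ 𝓞 L`. It is enough that `v_𝔓(a) = v_𝔓(b)` for all primes `𝔓`: then `(a) = (b)`, `x` is a unit. For `𝔓` prime to `N` this is `h`. For the other primes: `s x ∈ 𝓞 L` with `s` prime to `N`, and `𝔓` contains a prime number dividing `N`, so
`s ∉ 𝔓` and `v_𝔓(a) = v_𝔓(s x b) ≥ v_𝔓(b)`; the same for `x⁻¹`. `actP_val`: `τ` acts on `𝓞 L` by ring automorphisms and fixes `N`. `vdiv_act`: `τ • (a) = (τ a)`, the factorization of `τ • 𝔄` is the image of that of `𝔄`.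
-/

set_option autoImplicit false

noncomputable section

open NumberField Pool.Agent.StarkRQ
open scoped Pointwise

namespace Pool.Agent.CMR

section

variable {L : Type} [Field L] [NumberField L] {N : ℕ}

open Classical in
private lemma idiv_fin (𝔄 : Ideal (𝓞 L)) :
    (Function.support fun 𝔓 : PrmT L N =>
      ((UniqueFactorizationMonoid.normalizedFactors 𝔄).count 𝔓.1 : ℤ)).Finite := by
  have hinj : Function.Injective (fun 𝔓 : PrmT L N => 𝔓.1) := Subtype.val_injective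
  refine ((UniqueFactorizationMonoid.normalizedFactors 𝔄).toFinset.finite_toSet.preimage
    hinj.injOn).subset ?_
  intro 𝔓 h
  have h1 : ((UniqueFactorizationMonoid.normalizedFactors 𝔄).count 𝔓.1 : ℤ) ≠ 0 := h
  have h2 : (UniqueFactorizationMonoid.normalizedFactors 𝔄).count 𝔓.1 ≠ 0 := by
    intro h3; exact h1 (by rw [h3]; rfl)
  have h3 : 𝔓.1 ∈ UniqueFactorizationMonoid.normalizedFactors 𝔄 :=
    Multiset.count_ne_zero.1 h2
  have h4 : 𝔓.1 ∈ (UniqueFactorizationMonoid.normalizedFactors 𝔄).toFinset :=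
    Multiset.mem_toFinset.2 h3
  exact h4

private lemma idiv_apply' (𝔄 : Ideal (𝓞 L)) (𝔓 : PrmT L N) : idiv N 𝔄 𝔓 =
    (open Classical in ((UniqueFactorizationMonoid.normalizedFactors 𝔄).count 𝔓.1 : ℤ)) := by
  unfold idiv
  rw [dif_pos (idiv_fin 𝔄)]
  rfl

theorem idiv_apply {𝔄 : Ideal (𝓞 L)} (h : 𝔄 ≠ ⊥) (𝔓 : PrmT L N) : idiv N 𝔄 𝔓 =
    (open Classical in ((UniqueFactorizationMonoid.normalizedFactors 𝔄).count 𝔓.1 : ℤ)) :=
  idiv_apply' 𝔄 𝔓

theorem idiv_mul {𝔄 𝔅 : Ideal (𝓞 L)} (h : 𝔄 ≠ ⊥) (h' : 𝔅 ≠ ⊥) :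
    idiv N (𝔄 * 𝔅) = idiv N 𝔄 + idiv N 𝔅 := by
  ext 𝔓
  rw [Finsupp.add_apply, idiv_apply', idiv_apply', idiv_apply',
    UniqueFactorizationMonoid.normalizedFactors_mul h h', Multiset.count_add]
  push_cast
  rfl

theorem idiv_top : idiv N (⊤ : Ideal (𝓞 L)) = 0 := by
  ext 𝔓
  rw [idiv_apply', ← Ideal.one_eq_top, UniqueFactorizationMonoid.normalizedFactors_one]
  rfl

theorem idiv_prime (𝔓 : PrmT L N) : idiv N 𝔓.1 = Finsupp.single 𝔓 1 := by
  classical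
  have hp : Prime 𝔓.1 := Ideal.prime_of_isPrime 𝔓.2.2.1 𝔓.2.1
  ext 𝔔
  rw [idiv_apply', UniqueFactorizationMonoid.normalizedFactors_irreducible hp.irreducible,
    normalize_eq, Multiset.count_singleton, Finsupp.single_apply]
  by_cases h : 𝔔 = 𝔓
  · subst h; simp
  · have h1 : 𝔔.1 ≠ 𝔓.1 := fun h2 => h (Subtype.ext h2)
    have h2 : ¬ 𝔓 = 𝔔 := fun h3 => h h3.symm
    rw [if_neg h1, if_neg h2]; rfl

private lemma prm_top : Prm N (⊤ : Ideal (𝓞 L)) := by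
  unfold Prm
  rw [← Ideal.one_eq_top]
  exact isCoprime_one_left

private lemma idiv_pow {𝔄 : Ideal (𝓞 L)} (h : 𝔄 ≠ ⊥) (n : ℕ) :
    idiv N (𝔄 ^ n) = n • idiv N 𝔄 := by
  induction n with
  | zero => rw [pow_zero, zero_smul, Ideal.one_eq_top, idiv_top]
  | succ n ih => rw [pow_succ, idiv_mul (pow_ne_zero n h) h, ih, succ_nsmul]

/-- every divisor is a difference of divisors of ideals prime to `N` -/
theorem exists_idiv_sub (D : PrmT L N →₀ ℤ) : ∃ 𝔄 𝔅 : Ideal (𝓞 L), 𝔄 ≠ ⊥ ∧ 𝔅 ≠ ⊥ ∧ Prm N 𝔄 ∧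
    Prm N 𝔅 ∧ D = idiv N 𝔄 - idiv N 𝔅 := by
  have htop : (⊤ : Ideal (𝓞 L)) ≠ ⊥ := top_ne_bot
  induction D using Finsupp.induction_linear with
  | zero =>
    exact ⟨⊤, ⊤, htop, htop, prm_top, prm_top, by rw [idiv_top, sub_zero]⟩
  | add f g hf hg =>
    obtain ⟨A, B, hA, hB, hA', hB', hf⟩ := hf
    obtain ⟨C, D, hC, hD, hC', hD', hg⟩ := hg
    refine ⟨A * C, B * D, mul_ne_zero hA hC, mul_ne_zero hB hD,
      IsCoprime.mul_left hA' hC', IsCoprime.mul_left hB' hD', ?_⟩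
    rw [idiv_mul hA hC, idiv_mul hB hD, hf, hg]
    abel
  | single 𝔓 n =>
    obtain ⟨m, rfl | rfl⟩ := Int.eq_nat_or_neg n
    · refine ⟨𝔓.1 ^ m, ⊤, pow_ne_zero m 𝔓.2.2.1, htop, IsCoprime.pow_left 𝔓.2.2.2, prm_top, ?_⟩
      rw [idiv_pow 𝔓.2.2.1, idiv_prime, idiv_top, sub_zero, Finsupp.smul_single]
      simp
    · refine ⟨⊤, 𝔓.1 ^ m, htop, pow_ne_zero m 𝔓.2.2.1, prm_top, IsCoprime.pow_left 𝔓.2.2.2, ?_⟩
      rw [idiv_pow 𝔓.2.2.1, idiv_prime, idiv_top, zero_sub, Finsupp.smul_single,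
        Finsupp.single_neg]
      simp

private lemma span_ne_bot' {a : 𝓞 L} (ha : a ≠ 0) : Ideal.span {a} ≠ (⊥ : Ideal (𝓞 L)) := by
  rwa [Ne, Ideal.span_singleton_eq_bot]

private lemma idiv_span_mul {a b : 𝓞 L} (ha : a ≠ 0) (hb : b ≠ 0) :
    idiv N (Ideal.span {a * b}) = idiv N (Ideal.span {a}) + idiv N (Ideal.span {b}) := by
  rw [← Ideal.span_singleton_mul_span_singleton, idiv_mul (span_ne_bot' ha) (span_ne_bot' hb)]

private lemma vdiv_frac {x : L} (hx : x ≠ 0) {a b : 𝓞 L} (hb : b ≠ 0)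
    (h : x * (b : L) = (a : L)) :
    a ≠ 0 ∧ vdiv N x = idiv N (Ideal.span {a}) - idiv N (Ideal.span {b}) := by
  have hbL : (b : L) ≠ 0 := fun h0 => hb (RingOfIntegers.coe_eq_zero_iff.1 h0)
  have ha : a ≠ 0 := by
    rintro rfl
    have h1 : x * (b : L) = 0 := by rw [h]; exact map_zero (algebraMap (𝓞 L) L)
    rcases mul_eq_zero.1 h1 with h2 | h2
    · exact hx h2
    · exact hbL h2
  refine ⟨ha, ?_⟩
  have hs := IsLocalization.sec_spec (M := nonZeroDivisors (𝓞 L)) (S := L) x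
  have hd0 : ((IsLocalization.sec (nonZeroDivisors (𝓞 L)) x).2 : 𝓞 L) ≠ 0 :=
    nonZeroDivisors.ne_zero (IsLocalization.sec (nonZeroDivisors (𝓞 L)) x).2.2
  unfold vdiv
  generalize hd : ((IsLocalization.sec (nonZeroDivisors (𝓞 L)) x).2 : 𝓞 L) = d at hs hd0 ⊢
  generalize hc : (IsLocalization.sec (nonZeroDivisors (𝓞 L)) x).1 = c at hs ⊢
  have hdL : (d : L) ≠ 0 := fun h0 => hd0 (RingOfIntegers.coe_eq_zero_iff.1 h0)
  have hs' : x * (d : L) = (c : L) := hs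
  have hc0 : c ≠ 0 := by
    rintro rfl
    have h1 : x * (d : L) = 0 := by rw [hs']; exact map_zero (algebraMap (𝓞 L) L)
    rcases mul_eq_zero.1 h1 with h2 | h2
    · exact hx h2
    · exact hdL h2
  have key : a * d = c * b := by
    apply RingOfIntegers.coe_injective
    have h1 : ((a * d : 𝓞 L) : L) = (a : L) * (d : L) := map_mul (algebraMap (𝓞 L) L) _ _
    have h2 : ((c * b : 𝓞 L) : L) = (c : L) * (b : L) := map_mul (algebraMap (𝓞 L) L) _ _
    have h3 : ((a * d : 𝓞 L) : L) = ((c * b : 𝓞 L) : L) := by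
      rw [h1, h2, ← h, ← hs']; ring
    exact h3
  have h5 : idiv N (Ideal.span {a * d}) = idiv N (Ideal.span {c * b}) := by rw [key]
  rw [idiv_span_mul ha hd0, idiv_span_mul hc0 hb] at h5
  have h6 : idiv N (Ideal.span {c}) - idiv N (Ideal.span {d}) =
      idiv N (Ideal.span {a}) - idiv N (Ideal.span {b}) := by
    rw [sub_eq_sub_iff_add_eq_add, ← h5]
  exact h6

private lemma exists_frac (x : L) : ∃ a b : 𝓞 L, b ≠ 0 ∧ x * (b : L) = (a : L) := by
  have hs := IsLocalization.sec_spec (M := nonZeroDivisors (𝓞 L)) (S := L) x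
  exact ⟨_, _, nonZeroDivisors.ne_zero (IsLocalization.sec (nonZeroDivisors (𝓞 L)) x).2.2, hs⟩

theorem vdiv_coe {a : 𝓞 L} (ha : a ≠ 0) : vdiv N (a : L) = idiv N (Ideal.span {a}) := by
  have haL : (a : L) ≠ 0 := fun h0 => ha (RingOfIntegers.coe_eq_zero_iff.1 h0)
  have h := (vdiv_frac (N := N) haL (a := a) (b := 1) one_ne_zero
    (by rw [show ((1 : 𝓞 L) : L) = 1 from map_one (algebraMap (𝓞 L) L), mul_one])).2
  rw [h, Ideal.span_singleton_one, idiv_top, sub_zero]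

theorem vdiv_mul {x y : L} (hx : x ≠ 0) (hy : y ≠ 0) : vdiv N (x * y) = vdiv N x + vdiv N y := by
  obtain ⟨a, b, hb, h⟩ := exists_frac x
  obtain ⟨c, d, hd, h'⟩ := exists_frac y
  obtain ⟨ha, e1⟩ := vdiv_frac (N := N) hx hb h
  obtain ⟨hc, e2⟩ := vdiv_frac (N := N) hy hd h'
  obtain ⟨_, e3⟩ := vdiv_frac (N := N) (mul_ne_zero hx hy) (a := a * c) (b := b * d)
    (mul_ne_zero hb hd) (by
      rw [show ((b * d : 𝓞 L) : L) = (b : L) * (d : L) from map_mul (algebraMap (𝓞 L) L) _ _,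
        show ((a * c : 𝓞 L) : L) = (a : L) * (c : L) from map_mul (algebraMap (𝓞 L) L) _ _,
        ← h, ← h']
      ring)
  rw [e1, e2, e3, idiv_span_mul ha hc, idiv_span_mul hb hd]
  abel

theorem vdiv_int {x : L} (h0 : x ≠ 0) (hx : IsIntegral ℤ x) (hx' : IsIntegral ℤ x⁻¹) :
    vdiv N x = 0 := by
  obtain ⟨u, hu⟩ : ∃ u : 𝓞 L, (u : L) = x := ⟨⟨x, hx⟩, rfl⟩
  obtain ⟨v, hv⟩ : ∃ v : 𝓞 L, (v : L) = x⁻¹ := ⟨⟨x⁻¹, hx'⟩, rfl⟩
  have hu0 : u ≠ 0 := by
    rintro rfl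
    exact h0 (by rw [← hu]; exact map_zero (algebraMap (𝓞 L) L))
  have huv : u * v = 1 := by
    apply RingOfIntegers.coe_injective
    have h1 : ((u * v : 𝓞 L) : L) = (u : L) * (v : L) := map_mul (algebraMap (𝓞 L) L) _ _
    have h2 : ((u * v : 𝓞 L) : L) = ((1 : 𝓞 L) : L) := by
      rw [h1, hu, hv, mul_inv_cancel₀ h0]
      exact (map_one (algebraMap (𝓞 L) L)).symm
    exact h2
  rw [← hu, vdiv_coe hu0, Ideal.span_singleton_eq_top.2 (IsUnit.of_mul_eq_one v huv), idiv_top]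

private lemma nat_not_mem {𝔮 : Ideal (𝓞 L)} (hq : 𝔮.IsPrime) (h0 : 𝔮 ≠ ⊥) (hn : ¬ Prm N 𝔮)
    {s : ℕ} (hs : s.Coprime N) : (s : 𝓞 L) ∉ 𝔮 := by
  intro hsq
  apply hn
  have hN : (N : 𝓞 L) ∉ 𝔮 := by
    intro hNq
    have h1 : IsCoprime ((s : ℕ) : ℤ) ((N : ℕ) : ℤ) := Nat.isCoprime_iff_coprime.2 hs
    obtain ⟨a, b, hab⟩ := h1
    apply hq.ne_top
    rw [Ideal.eq_top_iff_one]
    have h2 : (1 : 𝓞 L) = (a : 𝓞 L) * (s : 𝓞 L) + (b : 𝓞 L) * (N : 𝓞 L) := by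
      have h3 := congrArg (fun z : ℤ => (z : 𝓞 L)) hab
      push_cast at h3
      exact h3.symm
    rw [h2]
    exact 𝔮.add_mem (𝔮.mul_mem_left _ hsq) (𝔮.mul_mem_left _ hNq)
  have hmax : 𝔮.IsMaximal := hq.isMaximal h0
  unfold Prm
  rw [Ideal.isCoprime_iff_sup_eq]
  apply hmax.1.2
  refine lt_of_le_of_ne le_sup_left ?_
  intro h4
  apply hN
  rw [h4]
  exact Ideal.mem_sup_right (Ideal.mem_span_singleton_self _)

private lemma int_of_vdiv' {x : L} (hx : x ≠ 0) (h1 : InR N x)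
    (h : vdiv N x = 0) : IsIntegral ℤ x := by
  classical
  obtain ⟨a, b, hb, hab⟩ := exists_frac x
  obtain ⟨ha, e1⟩ := vdiv_frac (N := N) hx hb hab
  rw [h] at e1
  have e2 : idiv N (Ideal.span {a}) = idiv N (Ideal.span {b}) := (sub_eq_zero.1 e1.symm)
  obtain ⟨s, hs, hsx⟩ := h1
  have hbL : (b : L) ≠ 0 := fun h0 => hb (RingOfIntegers.coe_eq_zero_iff.1 h0)
  obtain ⟨c, hc⟩ : ∃ c : 𝓞 L, (c : L) = (s : L) * x := ⟨⟨(s : L) * x, hsx⟩, rfl⟩
  have key : (s : 𝓞 L) * a = c * b := by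
    apply RingOfIntegers.coe_injective
    have h1 : (((s : 𝓞 L) * a : 𝓞 L) : L) = (s : L) * (a : L) := by
      have h2 : (((s : 𝓞 L) * a : 𝓞 L) : L) = (((s : 𝓞 L)) : L) * (a : L) :=
        map_mul (algebraMap (𝓞 L) L) _ _
      rw [h2, show (((s : 𝓞 L)) : L) = (s : L) from map_natCast (algebraMap (𝓞 L) L) s]
    have h2 : ((c * b : 𝓞 L) : L) = (c : L) * (b : L) := map_mul (algebraMap (𝓞 L) L) _ _
    have h3 : (((s : 𝓞 L) * a : 𝓞 L) : L) = ((c * b : 𝓞 L) : L) := by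
      rw [h1, h2, hc, ← hab]; ring
    exact h3
  have hdvd : Ideal.span {b} ∣ Ideal.span {a} := by
    rw [UniqueFactorizationMonoid.dvd_iff_normalizedFactors_le_normalizedFactors
      (span_ne_bot' hb) (span_ne_bot' ha), Multiset.le_iff_count]
    intro 𝔮
    by_cases hq : 𝔮 ∈ UniqueFactorizationMonoid.normalizedFactors (Ideal.span {b})
    · have hqp : Prime 𝔮 := UniqueFactorizationMonoid.prime_of_normalized_factor 𝔮 hq
      have hq' : 𝔮.IsPrime := Ideal.isPrime_of_prime hqp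
      by_cases hP : Prm N 𝔮
      · have h3 : idiv N (Ideal.span {a}) (⟨𝔮, hq', hqp.ne_zero, hP⟩ : PrmT L N) =
            idiv N (Ideal.span {b}) (⟨𝔮, hq', hqp.ne_zero, hP⟩ : PrmT L N) := by rw [e2]
        rw [idiv_apply', idiv_apply'] at h3
        have h4 := Nat.cast_injective h3
        exact le_of_eq (by convert h4.symm)
      · have hsq := nat_not_mem hq' hqp.ne_zero hP hs
        have hs0 : (s : 𝓞 L) ≠ 0 := fun h0 => hsq (by rw [h0]; exact 𝔮.zero_mem)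
        have hc0 : c ≠ 0 := by
          rintro rfl
          rw [zero_mul] at key
          exact (mul_ne_zero hs0 ha) key
        have h5 : (UniqueFactorizationMonoid.normalizedFactors
              (Ideal.span {(s : 𝓞 L) * a})).count 𝔮 =
            (UniqueFactorizationMonoid.normalizedFactors (Ideal.span {c * b})).count 𝔮 := by
          rw [key]
        rw [← Ideal.span_singleton_mul_span_singleton, ← Ideal.span_singleton_mul_span_singleton,
          UniqueFactorizationMonoid.normalizedFactors_mul (span_ne_bot' hs0) (span_ne_bot' ha),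
          UniqueFactorizationMonoid.normalizedFactors_mul (span_ne_bot' hc0) (span_ne_bot' hb),
          Multiset.count_add, Multiset.count_add] at h5
        have h6 : (UniqueFactorizationMonoid.normalizedFactors
            (Ideal.span {(s : 𝓞 L)})).count 𝔮 = 0 :=
          Multiset.count_eq_zero_of_notMem (fun hm => hsq (Ideal.dvd_span_singleton.1
            (UniqueFactorizationMonoid.dvd_of_mem_normalizedFactors hm)))
        omega
    · rw [Multiset.count_eq_zero_of_notMem hq]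
      exact Nat.zero_le _
  rw [Ideal.dvd_span_singleton, Ideal.mem_span_singleton] at hdvd
  obtain ⟨d, hd⟩ := hdvd
  have h4 : x = (d : L) := by
    have h5 : (a : L) = (b : L) * (d : L) := by
      rw [hd]; exact map_mul (algebraMap (𝓞 L) L) _ _
    rw [h5, mul_comm (b : L)] at hab
    exact mul_right_cancel₀ hbL hab
  rw [h4]
  exact d.2

theorem int_of_vdiv (hN : 2 ≤ N) {x : L} (hx : x ≠ 0) (h1 : InR N x) (h2 : InR N x⁻¹)
    (h : vdiv N x = 0) : IsIntegral ℤ x ∧ IsIntegral ℤ x⁻¹ := by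
  refine ⟨int_of_vdiv' hx h1 h, int_of_vdiv' (inv_ne_zero hx) h2 ?_⟩
  have h3 := vdiv_mul (N := N) hx (inv_ne_zero hx)
  rw [mul_inv_cancel₀ hx, h, zero_add] at h3
  rw [← h3]
  exact vdiv_int one_ne_zero isIntegral_one (by rw [inv_one]; exact isIntegral_one)

end

section

variable {k L : Type} [Field k] [NumberField k] [Field L] [NumberField L] [Algebra k L] {N : ℕ}

private lemma prm_smul (τ : Gal(L/k)) {𝔄 : Ideal (𝓞 L)} (h : Prm N 𝔄) : Prm N (τ • 𝔄) := by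
  unfold Prm at h ⊢
  rw [Ideal.isCoprime_iff_exists] at h ⊢
  obtain ⟨i, hi, j, hj, hij⟩ := h
  refine ⟨τ • i, Ideal.smul_mem_pointwise_smul τ i 𝔄 hi, τ • j, ?_, ?_⟩
  · rw [Ideal.mem_span_singleton] at hj ⊢
    obtain ⟨c, rfl⟩ := hj
    refine ⟨τ • c, ?_⟩
    rw [smul_mul']
    congr 1
    exact map_natCast (MulSemiringAction.toRingHom (Gal(L/k)) (𝓞 L) τ) N
  · rw [← smul_add, hij, smul_one]

private lemma smul_ne_bot' (τ : Gal(L/k)) {𝔄 : Ideal (𝓞 L)} (h : 𝔄 ≠ ⊥) : τ • 𝔄 ≠ ⊥ := by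
  intro h0
  apply h
  have h1 : τ⁻¹ • τ • 𝔄 = τ⁻¹ • (⊥ : Ideal (𝓞 L)) := by rw [h0]
  rw [inv_smul_smul] at h1
  rw [h1]
  exact smul_zero τ⁻¹

theorem actP_val (τ : Gal(L/k)) (𝔓 : PrmT L N) : (actP τ 𝔓).1 = τ • 𝔓.1 := by
  have h : (τ • 𝔓.1).IsPrime ∧ τ • 𝔓.1 ≠ ⊥ ∧ Prm N (τ • 𝔓.1) := by
    have h1 := 𝔓.2.1
    exact ⟨inferInstance, smul_ne_bot' τ 𝔓.2.2.1, prm_smul τ 𝔓.2.2.2⟩
  unfold actP
  rw [dif_pos h]

private lemma smul_mul_ideal (τ : Gal(L/k)) (𝔄 𝔅 : Ideal (𝓞 L)) :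
    τ • (𝔄 * 𝔅) = (τ • 𝔄) * (τ • 𝔅) := smul_mul' τ 𝔄 𝔅

private lemma idiv_not_prm {𝔮 : Ideal (𝓞 L)} (hq : 𝔮.IsPrime) (h0 : 𝔮 ≠ ⊥) (hn : ¬ Prm N 𝔮) :
    idiv N 𝔮 = 0 := by
  classical
  have hp : Prime 𝔮 := Ideal.prime_of_isPrime h0 hq
  ext 𝔔
  rw [idiv_apply', UniqueFactorizationMonoid.normalizedFactors_irreducible hp.irreducible,
    normalize_eq, Multiset.count_singleton]
  have h1 : 𝔔.1 ≠ 𝔮 := by
    intro h2
    exact hn (h2 ▸ 𝔔.2.2.2)
  rw [if_neg h1]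
  rfl

private lemma idiv_smul (τ : Gal(L/k)) {𝔄 : Ideal (𝓞 L)} (h : 𝔄 ≠ ⊥) :
    idiv N (τ • 𝔄) = Finsupp.mapDomain (actP τ) (idiv N 𝔄) := by
  induction 𝔄 using UniqueFactorizationMonoid.induction_on_prime with
  | h₁ => exact absurd rfl h
  | h₂ x hx =>
    have h1 : x = ⊤ := by rwa [Ideal.isUnit_iff] at hx
    have h2 : τ • (⊤ : Ideal (𝓞 L)) = ⊤ := by
      rw [← Ideal.one_eq_top]; exact smul_one τ
    rw [h1, h2, idiv_top, Finsupp.mapDomain_zero]
  | h₃ a p ha hp ih =>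
    have hpI : p.IsPrime := Ideal.isPrime_of_prime hp
    have hτp : (τ • p).IsPrime := inferInstance
    rw [smul_mul_ideal, idiv_mul (smul_ne_bot' τ hp.ne_zero) (smul_ne_bot' τ ha),
      idiv_mul hp.ne_zero ha, Finsupp.mapDomain_add, ih ha]
    congr 1
    by_cases hP : Prm N p
    · obtain ⟨P, hPP⟩ : ∃ P : PrmT L N, P.1 = p := ⟨⟨p, hpI, hp.ne_zero, hP⟩, rfl⟩
      have h1 : idiv N p = Finsupp.single P 1 := by rw [← hPP]; exact idiv_prime P
      have h2 : idiv N (τ • p) = Finsupp.single (actP τ P) 1 := by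
        rw [← hPP, ← actP_val]; exact idiv_prime (actP τ P)
      rw [h1, h2, Finsupp.mapDomain_single]
    · have hP' : ¬ Prm N (τ • p) := by
        intro h3
        apply hP
        have h4 := prm_smul τ⁻¹ h3
        rwa [inv_smul_smul] at h4
      rw [idiv_not_prm hpI hp.ne_zero hP, idiv_not_prm hτp (smul_ne_bot' τ hp.ne_zero) hP',
        Finsupp.mapDomain_zero]

theorem vdiv_act (τ : Gal(L/k)) {x : L} (hx : x ≠ 0) :
    vdiv N (τ x) = Finsupp.mapDomain (actP τ) (vdiv N x) := by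
  obtain ⟨a, b, hb, hab⟩ := exists_frac x
  obtain ⟨ha, e1⟩ := vdiv_frac (N := N) hx hb hab
  have hτx : τ x ≠ 0 := fun h0 => hx (by simpa using h0)
  have hτb : τ • b ≠ 0 := by
    intro h0
    exact hb ((smul_eq_zero_iff_eq τ).1 h0)
  obtain ⟨_, e2⟩ := vdiv_frac (N := N) hτx (a := τ • a) (b := τ • b) hτb (by
    have h1 : τ (x * (b : L)) = τ (a : L) := by rw [hab]
    rw [map_mul] at h1
    exact h1)
  have hsp : ∀ c : 𝓞 L, Ideal.span {τ • c} = τ • Ideal.span {c} := by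
    intro c
    rw [Ideal.pointwise_smul_def, Ideal.map_span, Set.image_singleton]
    rfl
  rw [e1, e2, hsp, hsp, idiv_smul τ (span_ne_bot' ha), idiv_smul τ (span_ne_bot' hb),
    sub_eq_add_neg, sub_eq_add_neg, Finsupp.mapDomain_add]
  congr 1
  exact (map_neg (Finsupp.mapDomain.addMonoidHom (M := ℤ) (actP (N := N) τ)) _).symm

end

end Pool.Agent.CMR
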