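import Pool.Agent.CMR.RInj
import Pool.Agent.CMR.GField
import Pool.Agent.CMR.GFrob

/-!
# R-FLD the field with the torsion values

`RD.mul`: clear. `exists_RD`: choose an embedding `ι : M →+* ℂ`, `Algebra k ℂ` by `ι ∘ algebraMap k M`; `exists_field` gives `F, κ, X`; `frob_acts_almost` (`B`); `inj`: apply `κ` and `crI_inj`.
-/

set_option autoImplicit false

noncomputable section

open NumberField Pool.Agent.StarkRQ
open scoped Pointwise

namespace Pool.Agent.CMR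

theorem RD.mul {k F : Type} [Field k] [NumberField k] [Field F] [NumberField F] [Algebra k F]
    {n B : ℕ} {X : Ideal (𝓞 k) → 𝓞 k → F} (h : RD n B X) {m : ℕ} (hm : m ≠ 0) :
    RD n (B * m) X where
  n_ne := h.n_ne
  B_ne := mul_ne_zero h.B_ne hm
  dvd := Dvd.dvd.mul_right h.dvd m
  frob 𝔓 φ h1 h2 h3 h4 := by
    refine h.frob 𝔓 φ h1 h2 (fun h5 => h3 ?_) h4
    rw [Nat.cast_mul]
    exact Ideal.mul_mem_right _ _ h5
  inj := h.inj

theorem exists_RD {k : Type} [Field k] [NumberField k] (hk : IsIQ k) {n : ℕ} (hn : 5 ≤ n)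
    (h2 : 2 ∣ n) (M : Type) [Field M] [NumberField M] [Algebra k M] :
    ∃ (F : Type) (_ : Field F) (_ : NumberField F) (_ : Algebra k F) (_ : Algebra M F)
      (_ : IsScalarTower k M F) (_ : IsGalois k F) (B : ℕ) (X : Ideal (𝓞 k) → 𝓞 k → F),
      RD n B X := by
  obtain ⟨ι⟩ : Nonempty (M →+* ℂ) := inferInstance
  let _ : Algebra k ℂ := (ι.comp (algebraMap k M)).toAlgebra
  obtain ⟨F, iF, iNF, ikF, iMF, iT, iG, κ, X, hκM, hX⟩ := exists_field hk hn ι (fun x => rfl)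
  have hκ : ∀ x : k, κ (algebraMap k F x) = algebraMap k ℂ x := by
    intro x
    rw [IsScalarTower.algebraMap_apply k M F, hκM]
    rfl
  obtain ⟨B, hB0, hnB, hB⟩ := frob_acts_almost hk hn κ hκ X hX
  refine ⟨F, iF, iNF, ikF, iMF, iT, iG, B, X, ⟨by omega, hB0, hnB, ?_, ?_⟩⟩
  · intro 𝔓 φ h1 h3 h4 h5 𝔤 h6 h7 a ha
    exact hB 𝔓 φ h1 h3 h4 h5 𝔤 h6 h7 a ha
  · intro 𝔤 𝔥 h0 h0' hp hp' h
    refine crI_inj hk hn h2 h0 h0' hp hp' fun a ha => ?_
    rw [← hX 𝔤 h0 hp a ha, ← hX 𝔥 h0' hp' a ha, h a ha]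

end Pool.Agent.CMR
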