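import Mathlib

/-!
# R-GRP abstract first inequality (Herbrand quotients)

Let `N x = ∏ s^i x` (in `A`) resp. `∑ s^i x` (in `I`), `E = ker v`, `P = v(A)`, `Q = I/P` (finite by `h1`), `A^s`, `I^s`, `P^s` the fixed elements.
(0) For `x = v b ∈ P` with `N x = 0`: `v (N b) = 0` and `N b` is fixed, so `N b = 1` (`h4`), `b = s c / c` (`h3`), `x = s q - q` with `q = v c ∈ P`.
(1) `I^s → Q^s` is onto: if `s x - x = p ∈ P` then `N p = 0`, `p = s q - q` with `q ∈ P` by (0), and `x - q` is fixed. So `[I^s : P^s + N I] = [Q^s : N Q] = q₀`, and `q₀ = |ker (N on Q)| / |(s-1) Q|` because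
`|Q| = |Q^s| |(s-1)Q| = |ker N| |N Q|` (`Q` finite).
(2) `P^s / v(A^s) ≅ E/(s-1)E`: for `x = v b`, `s x = x`, take `e = s b / b ∈ E`; well defined modulo `(s-1)E` (`b` is unique up to `E`); kernel: `e = s e'/e'` gives `b/e' ∈ A^s`, `x ∈ v(A^s)`; onto: for `e ∈ E`, `N e` is fixed and in `E`, so `N e = 1`, `e = s c / c`
(`h3`), `v c ∈ P^s`. So `[P^s : v(A^s)] = [E : (s-1)E] ≥ m` (or infinite) by `h5`.
(3) `[P ∩ N I : N P] = |ker(N on Q)| / |(s-1)Q| = q₀`: the map `{x ∈ I : N x ∈ P} → (P ∩ N I)/N P`, `x ↦ N x` is onto with kernel `P + ker N = P + (s-1)I` (`h2`); and `{x : N x ∈ P} / (P + (s-1) I) = ker(N on Q) / (s-1)Q`.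
(4) `N P ⊆ v(A^s)` (`N (v b) = v (N b)`). `[P^s + N I : v(A^s) + N I] = [P^s : v(A^s) + (P ∩ N I)] = [P^s : v(A^s)] / [v(A^s) + (P ∩ N I) : v(A^s)]` and the last index is
`[P ∩ N I : v(A^s) ∩ N I] ≤ [P ∩ N I : N P] = q₀`. Together: `[I^s : v(A^s) + N I] ≥ q₀ m / q₀ = m` (or infinite). So fewer than `m` cosets do not cover `I^s`.
Hint: use `AddSubgroup.relIndex`/`Subgroup.relIndex` (multiplicative in towers; `Additive A`), `0` meaning infinite; or count with explicit finite sets of representatives.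
-/

set_option autoImplicit false

noncomputable section

open Finset

namespace Pool.Agent.CMR

/-- few cosets: the index is small -/
private theorem rg_le_card {I : Type} [AddCommGroup I] {H J : AddSubgroup I} (R : Finset I)
    (hR : ∀ r ∈ R, r ∈ J) (h : ∀ x ∈ J, ∃ r ∈ R, x - r ∈ H) :
    H.relIndex J ≠ 0 ∧ H.relIndex J ≤ R.card := by
  classical
  let f : R → J ⧸ (H.addSubgroupOf J) := fun r => QuotientAddGroup.mk ⟨r.1, hR _ r.2⟩
  have hf : Function.Surjective f := by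
    intro q
    obtain ⟨x, rfl⟩ := QuotientAddGroup.mk_surjective q
    obtain ⟨r, hr, hx⟩ := h x.1 x.2
    refine ⟨⟨r, hr⟩, ?_⟩
    refine QuotientAddGroup.eq.2 ?_
    change -r + x.1 ∈ H
    rw [neg_add_eq_sub]
    exact hx
  have : Finite (J ⧸ (H.addSubgroupOf J)) := Finite.of_surjective f hf
  have hcard : Nat.card (J ⧸ (H.addSubgroupOf J)) ≤ Nat.card R :=
    Nat.card_le_card_of_surjective f hf
  have e : H.relIndex J = Nat.card (J ⧸ (H.addSubgroupOf J)) := rfl
  rw [e]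
  exact ⟨Nat.card_pos.ne', by simpa using hcard⟩

/-- representatives of the cosets -/
private theorem rg_reps {I : Type} [AddCommGroup I] {H J : AddSubgroup I}
    (h : H.relIndex J ≠ 0) : ∃ T : Finset I, T.card ≤ H.relIndex J ∧ (∀ t ∈ T, t ∈ J) ∧
      ∀ x ∈ J, ∃ t ∈ T, x - t ∈ H := by
  classical
  have e : H.relIndex J = Nat.card (J ⧸ (H.addSubgroupOf J)) := rfl
  rw [e] at h ⊢
  have : Finite (J ⧸ (H.addSubgroupOf J)) := Nat.finite_of_card_ne_zero h
  have := Fintype.ofFinite (J ⧸ (H.addSubgroupOf J))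
  refine ⟨Finset.univ.image fun q : J ⧸ (H.addSubgroupOf J) => ((Quotient.out q : J) : I),
    ?_, ?_, ?_⟩
  · refine Finset.card_image_le.trans ?_
    rw [Finset.card_univ, Nat.card_eq_fintype_card]
  · intro t ht
    obtain ⟨q, -, rfl⟩ := Finset.mem_image.1 ht
    exact (Quotient.out q : J).2
  · intro x hx
    let q : J ⧸ (H.addSubgroupOf J) := QuotientAddGroup.mk ⟨x, hx⟩
    refine ⟨((Quotient.out q : J) : I), Finset.mem_image.2 ⟨q, Finset.mem_univ _, rfl⟩, ?_⟩
    have h1 : (QuotientAddGroup.mk (Quotient.out q) : J ⧸ (H.addSubgroupOf J)) =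
        QuotientAddGroup.mk ⟨x, hx⟩ := Quotient.out_eq q
    have h2 := QuotientAddGroup.eq.1 h1
    change -((Quotient.out q : J) : I) + x ∈ H at h2
    rwa [neg_add_eq_sub] at h2

/-- the abstract first inequality for a cyclic group of order `n` -/
theorem first_ineq {A I : Type} [CommGroup A] [AddCommGroup I] {n : ℕ} (hn : 0 < n) (sA : A →* A)
    (sI : I →+ I) (hA : ∀ x, sA^[n] x = x) (hI : ∀ x, sI^[n] x = x) (v : A → I)
    (hv : ∀ x y, v (x * y) = v x + v y) (hs : ∀ x, v (sA x) = sI (v x))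
    (h1 : ∃ R : Finset I, ∀ x, ∃ r ∈ R, ∃ a, x = r + v a)
    (h2 : ∀ x, ∑ i ∈ range n, sI^[i] x = 0 → ∃ y, x = sI y - y)
    (h3 : ∀ x, ∏ i ∈ range n, sA^[i] x = 1 → ∃ y, x = sA y / y)
    (h4 : ∀ x, v x = 0 → sA x = x → x = 1) {m : ℕ}
    (h5 : ∀ R : Finset A, (∀ r ∈ R, v r = 0) → R.card < m →
      ∃ x, v x = 0 ∧ ∀ r ∈ R, ∀ e, v e = 0 → x ≠ r * (sA e / e))
    (R : Finset I) (hR : ∀ r ∈ R, sI r = r) (hRm : R.card < m) :
    ∃ x, sI x = x ∧ ∀ r ∈ R, ∀ a y, sA a = a → x ≠ r + v a + ∑ i ∈ range n, sI^[i] y := by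
  classical
  have hv1 : v 1 = 0 := by
    have := hv 1 1
    rw [mul_one] at this
    exact left_eq_add.1 this
  have hvinv : ∀ x, v x⁻¹ = -v x := by
    intro x
    have := hv x x⁻¹
    rw [mul_inv_cancel, hv1] at this
    exact (neg_eq_of_add_eq_zero_right this.symm).symm
  have hvdiv : ∀ x y, v (x / y) = v x - v y := by
    intro x y
    rw [div_eq_mul_inv, hv, hvinv, sub_eq_add_neg]
  have hvprod : ∀ (s : Finset ℕ) (f : ℕ → A), v (∏ i ∈ s, f i) = ∑ i ∈ s, v (f i) := by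
    intro s f
    induction s using Finset.induction_on with
    | empty => rw [Finset.prod_empty, Finset.sum_empty, hv1]
    | insert i s hi ih => rw [Finset.prod_insert hi, Finset.sum_insert hi, hv, ih]
  have hvit : ∀ (i : ℕ) (b : A), v (sA^[i] b) = sI^[i] (v b) := by
    intro i
    induction i with
    | zero => intro b; rfl
    | succ i ih =>
      intro b
      rw [Function.iterate_succ_apply, Function.iterate_succ_apply, ih, hs]
  let P : AddSubgroup I :=
    { carrier := {x | ∃ b, v b = x}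
      zero_mem' := ⟨1, hv1⟩
      add_mem' := by
        rintro _ _ ⟨a, rfl⟩ ⟨b, rfl⟩
        exact ⟨a * b, hv a b⟩
      neg_mem' := by
        rintro _ ⟨a, rfl⟩
        exact ⟨a⁻¹, hvinv a⟩ }
  let VA : AddSubgroup I :=
    { carrier := {x | ∃ b, sA b = b ∧ v b = x}
      zero_mem' := ⟨1, map_one _, hv1⟩
      add_mem' := by
        rintro _ _ ⟨a, ha, rfl⟩ ⟨b, hb, rfl⟩
        exact ⟨a * b, by rw [map_mul, ha, hb], hv a b⟩
      neg_mem' := by
        rintro _ ⟨a, ha, rfl⟩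
        exact ⟨a⁻¹, by rw [map_inv, ha], hvinv a⟩ }
  let N : I →+ I :=
    { toFun := fun x => ∑ i ∈ range n, sI^[i] x
      map_zero' := Finset.sum_eq_zero fun i _ => iterate_map_zero sI i
      map_add' := fun x y => by
        rw [← Finset.sum_add_distrib]
        exact Finset.sum_congr rfl fun i _ => iterate_map_add sI i x y }
  let S : I →+ I := sI - AddMonoidHom.id I
  have hNd : ∀ x, N x = ∑ i ∈ range n, sI^[i] x := fun _ => rfl
  have hSd : ∀ x, S x = sI x - x := fun _ => rfl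
  have hNs : ∀ x, N (sI x) = N x := by
    intro x
    rw [hNd, hNd]
    have e1 : ∀ i, sI^[i] (sI x) = sI^[i + 1] x := fun i =>
      (Function.iterate_succ_apply _ _ _).symm
    simp_rw [e1]
    have e2 := Finset.sum_range_succ (fun i => sI^[i] x) n
    have e3 := Finset.sum_range_succ' (fun i => sI^[i] x) n
    rw [e2, hI x] at e3
    exact (add_right_cancel e3).symm
  have hsN : ∀ x, sI (N x) = N x := by
    intro x
    rw [← hNs x]
    nth_rewrite 2 [hNs x]
    have e1 : sI (N x) = N (sI x) := by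
      rw [hNd, hNd, map_sum]
      refine Finset.sum_congr rfl fun i _ => ?_
      rw [← Function.iterate_succ_apply' sI, ← Function.iterate_succ_apply sI]
    rw [hNs] at e1
    rw [hNs]
    exact e1
  have hsNA : ∀ b, sA (∏ i ∈ range n, sA^[i] b) = ∏ i ∈ range n, sA^[i] b := by
    intro b
    rw [map_prod]
    have e1 : ∀ i, sA (sA^[i] b) = sA^[i + 1] b := fun i =>
      (Function.iterate_succ_apply' _ _ _).symm
    simp_rw [e1]
    have e2 := Finset.prod_range_succ (fun i => sA^[i] b) n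
    have e3 := Finset.prod_range_succ' (fun i => sA^[i] b) n
    rw [e2, hA b] at e3
    exact (mul_right_cancel e3).symm
  have hvN : ∀ b, N (v b) = v (∏ i ∈ range n, sA^[i] b) := by
    intro b
    rw [hvprod, hNd]
    exact Finset.sum_congr rfl fun i _ => (hvit i b).symm
  have hNS : ∀ x, N (S x) = 0 := by
    intro x
    rw [hSd, map_sub, hNs, sub_self]
  have hSN : ∀ x, S (N x) = 0 := by
    intro x
    rw [hSd, hsN, sub_self]
  -- step (0)
  have h0 : ∀ p ∈ P, N p = 0 → ∃ q ∈ P, p = S q := by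
    rintro _ ⟨b, rfl⟩ hN
    rw [hvN] at hN
    obtain ⟨c, rfl⟩ := h3 b (h4 _ hN (hsNA b))
    exact ⟨v c, ⟨c, rfl⟩, by rw [hvdiv, hs, hSd]⟩
  have hmemJ : ∀ x, x ∈ S.ker ↔ sI x = x := by
    intro x
    rw [AddMonoidHom.mem_ker, hSd, sub_eq_zero]
  obtain ⟨J, hJ⟩ : ∃ J, J = S.ker := ⟨_, rfl⟩
  rw [← hJ] at hmemJ
  have hPS : ∀ q ∈ P, S q ∈ P := by
    rintro _ ⟨b, rfl⟩
    exact ⟨sA b / b, by rw [hvdiv, hs, hSd]⟩
  have hPN : ∀ q ∈ P, N q ∈ VA := by
    rintro _ ⟨b, rfl⟩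
    exact ⟨_, hsNA b, (hvN b).symm⟩
  have hVP : VA ≤ P := by
    rintro _ ⟨b, -, rfl⟩
    exact ⟨b, rfl⟩
  have hVJ : VA ≤ J := by
    rintro _ ⟨b, hb, rfl⟩
    rw [hmemJ, ← hs, hb]
  have hNJ : N.range ≤ J := by
    rintro _ ⟨y, rfl⟩
    rw [hmemJ, hsN]
  have hL : P.comap S = J ⊔ P := by
    apply le_antisymm
    · intro x hx
      obtain ⟨q, hq, hxq⟩ := h0 (S x) (AddSubgroup.mem_comap.1 hx) (hNS x)
      have e1 : x - q ∈ J := by
        rw [hJ, AddMonoidHom.mem_ker, map_sub, hxq, sub_self]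
      have e2 := AddSubgroup.add_mem_sup e1 hq
      rwa [sub_add_cancel] at e2
    · refine sup_le (fun x hx => ?_) fun q hq => hPS q hq
      rw [hJ, AddMonoidHom.mem_ker] at hx
      rw [AddSubgroup.mem_comap, hx]
      exact zero_mem _
  have hZ : N.ker = S.range := by
    apply le_antisymm
    · intro x hx
      obtain ⟨y, hy⟩ := h2 x (AddMonoidHom.mem_ker.1 hx)
      exact ⟨y, by rw [hSd, hy]⟩
    · rintro _ ⟨y, rfl⟩
      exact hNS y
  -- indices
  have hPfin : P.index ≠ 0 := by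
    obtain ⟨R', hR'⟩ := h1
    have e1 := (rg_le_card (H := P) (J := ⊤) R' (fun _ _ => AddSubgroup.mem_top _)
      fun x _ => by
        obtain ⟨r, hr, a, ha⟩ := hR' x
        exact ⟨r, hr, a, by rw [ha, add_sub_cancel_left]⟩).1
    rwa [AddSubgroup.relIndex_top_right] at e1
  have hPK : P ≤ P.comap N := fun q hq => hVP (hPN q hq)
  have hPL : P ≤ P.comap S := fun q hq => hPS q hq
  have hDK : S.range ≤ P.comap N := by
    rintro _ ⟨y, rfl⟩
    rw [AddSubgroup.mem_comap, hNS]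
    exact zero_mem _
  have hNL : N.range ≤ P.comap S := by
    rintro _ ⟨y, rfl⟩
    rw [AddSubgroup.mem_comap, hSN]
    exact zero_mem _
  have a1 := AddSubgroup.relIndex_mul_relIndex P (P ⊔ S.range) (P.comap N) le_sup_left
    (sup_le hPK hDK)
  have a2 := AddSubgroup.relIndex_mul_index hPK
  have b1 := AddSubgroup.relIndex_mul_relIndex P (P ⊔ N.range) (P.comap S) le_sup_left
    (sup_le hPL hNL)
  have b2 := AddSubgroup.relIndex_mul_index hPL
  rw [AddSubgroup.relIndex_sup_left, ← AddSubgroup.index_comap] at a1 b1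
  have hK0 : (P.comap N).index ≠ 0 := fun e => hPfin (by rw [← a2, e, mul_zero])
  have hL0 : (P.comap S).index ≠ 0 := fun e => hPfin (by rw [← b2, e, mul_zero])
  have hXY : (P ⊔ S.range).relIndex (P.comap N) = (P ⊔ N.range).relIndex (P.comap S) := by
    rw [← a1] at a2
    rw [← b1, ← a2] at b2
    have e1 : (P.comap S).index * (P.comap N).index * (P ⊔ N.range).relIndex (P.comap S) =
        (P.comap S).index * (P.comap N).index * (P ⊔ S.range).relIndex (P.comap N) := by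
      linarith [b2]
    exact (Nat.eq_of_mul_eq_mul_left (Nat.pos_of_ne_zero (mul_ne_zero hL0 hK0)) e1).symm
  have hX : (P ⊔ S.range).relIndex (P.comap N) = (P.map N).relIndex (N.range ⊓ P) := by
    rw [← AddSubgroup.map_comap_eq, ← AddSubgroup.relIndex_comap, AddSubgroup.comap_map_eq, hZ]
  have hY : (P ⊔ N.range).relIndex (P.comap S) = (P ⊔ N.range).relIndex J := by
    have e1 : P.comap S = J ⊔ (P ⊔ N.range) := by
      rw [hL]
      apply le_antisymm
      · exact sup_le_sup_left le_sup_left J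
      · exact sup_le le_sup_left (sup_le le_sup_right (hNJ.trans le_sup_left))
    rw [e1, AddSubgroup.relIndex_sup_right]
  have hX0 : (P.map N).relIndex (N.range ⊓ P) ≠ 0 := by
    rw [← hX]
    intro e
    apply hPfin
    rw [← a2, ← a1, e, mul_zero, zero_mul]
  -- the contradiction
  by_contra hcon
  push Not at hcon
  obtain ⟨hH0, hHle⟩ := rg_le_card (H := VA ⊔ N.range) (J := J) R
    (fun r hr => (hmemJ r).2 (hR r hr)) fun x hx => by
      obtain ⟨r, hr, a, y, ha, hx'⟩ := hcon x ((hmemJ x).1 hx)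
      refine ⟨r, hr, ?_⟩
      have e1 : x - r = v a + N y := by
        rw [hx', hNd]
        abel
      rw [e1]
      exact AddSubgroup.add_mem_sup ⟨a, ha, rfl⟩ ⟨y, rfl⟩
  have hVPJ : VA ≤ P ⊓ J := le_inf hVP hVJ
  have c1 := AddSubgroup.relIndex_mul_relIndex (VA ⊔ N.range) ((P ⊓ J) ⊔ N.range) J
    (sup_le_sup_right hVPJ _) (sup_le inf_le_right hNJ)
  have c2 : ((P ⊓ J) ⊔ N.range).relIndex J = (P ⊔ N.range).relIndex J := by
    rw [← AddSubgroup.inf_relIndex_right (P ⊔ N.range) J, sup_comm P, sup_inf_assoc_of_le P hNJ,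
      sup_comm]
  have c3 : (VA ⊔ N.range).relIndex ((P ⊓ J) ⊔ N.range) = (VA ⊔ N.range).relIndex (P ⊓ J) := by
    rw [← AddSubgroup.relIndex_sup_right ((P ⊓ J) ⊔ N.range) (VA ⊔ N.range),
      ← AddSubgroup.relIndex_sup_right (P ⊓ J) (VA ⊔ N.range)]
    congr 1
    apply le_antisymm
    · exact sup_le (sup_le le_sup_left (le_sup_right.trans le_sup_right)) le_sup_right
    · exact sup_le (le_sup_left.trans le_sup_left) le_sup_right
  have c4 := AddSubgroup.relIndex_mul_relIndex VA ((VA ⊔ N.range) ⊓ (P ⊓ J)) (P ⊓ J)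
    (le_inf le_sup_left hVPJ) inf_le_right
  rw [AddSubgroup.inf_relIndex_right] at c4
  have c5 : VA.relIndex ((VA ⊔ N.range) ⊓ (P ⊓ J)) = VA.relIndex (N.range ⊓ P) := by
    have e1 : N.range ⊓ (P ⊓ J) = N.range ⊓ P :=
      le_antisymm (inf_le_inf_left _ inf_le_left)
        (le_inf inf_le_left (le_inf inf_le_right (inf_le_left.trans hNJ)))
    rw [sup_inf_assoc_of_le N.range hVPJ, e1, AddSubgroup.relIndex_sup_left]
  have hmapV : P.map N ≤ VA := by
    rintro _ ⟨q, hq, rfl⟩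
    exact hPN q hq
  have c6 : VA.relIndex (N.range ⊓ P) ≤ (P.map N).relIndex (N.range ⊓ P) :=
    AddSubgroup.relIndex_le_of_le_left hmapV hX0
  have c7 : VA.relIndex (N.range ⊓ P) ≠ 0 := fun e =>
    hX0 (AddSubgroup.relIndex_eq_zero_of_le_left hmapV e)
  rw [c2, c3] at c1
  rw [c5] at c4
  rw [← hX, hXY, hY] at c6
  have c8 : (VA ⊔ N.range).relIndex (P ⊓ J) ≠ 0 := fun e => hH0 (by rw [← c1, e, zero_mul])
  have c9 : VA.relIndex (P ⊓ J) ≠ 0 := by
    rw [← c4]
    exact mul_ne_zero c7 c8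
  have c10 : VA.relIndex (P ⊓ J) < m := by
    refine lt_of_le_of_lt ?_ (hHle.trans_lt hRm)
    rw [← c4, ← c1, mul_comm]
    exact Nat.mul_le_mul_left _ c6
  obtain ⟨T, hT1, hT2, hT3⟩ := rg_reps c9
  have hb : ∀ t : I, ∃ b : A, t ∈ P → v b = t := by
    intro t
    by_cases ht : t ∈ P
    · obtain ⟨b, hb⟩ := ht
      exact ⟨b, fun _ => hb⟩
    · exact ⟨1, fun h => absurd h ht⟩
  choose b hb using hb
  have hTE : ∀ t ∈ T, v (sA (b t) / b t) = 0 := by
    intro t ht
    have e1 := hT2 t ht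
    rw [hvdiv, hs, hb t e1.1, (hmemJ t).1 e1.2, sub_self]
  obtain ⟨x, hx0, hx⟩ := h5 (T.image fun t => sA (b t) / b t) (by
      intro r hr
      obtain ⟨t, ht, rfl⟩ := Finset.mem_image.1 hr
      exact hTE t ht) ((Finset.card_image_le.trans hT1).trans_lt c10)
  obtain ⟨c, hc⟩ := h3 x (h4 _ (by rw [← hvN, hx0, map_zero]) (hsNA x))
  have hcJ : v c ∈ J := by
    rw [hmemJ, ← hs, ← sub_eq_zero, ← hvdiv, ← hc, hx0]
  obtain ⟨t, ht, a, ha, hat⟩ := hT3 (v c) ⟨⟨c, rfl⟩, hcJ⟩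
  have hbt := hb t (hT2 t ht).1
  refine hx _ (Finset.mem_image.2 ⟨t, ht, rfl⟩) (c / (b t * a)) ?_ ?_
  · rw [hvdiv, hv, hbt, hat]
    abel
  · rw [hc, map_div, map_mul, ha]
    apply Additive.ofMul.injective
    simp only [ofMul_div, ofMul_mul]
    abel

end Pool.Agent.CMR
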