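import Mathlib

/-!
# R-PERM permutation modules of a cyclic group

`p` is a bijection. Orbits: `x ~ y` iff `y = p^i x` for some `i < n` (equivalence relation); choose a representative `r x` of every orbit. `perm_hilbert`: modulo the image of `mapDomain p - 1` we have `single x = single (p^i x) = single (r x)`,
so `D ≡ ∑_x D x • single (r x) = ∑_{orbits O} (∑_{x ∈ O} D x) single (r_O)`; evaluating the hypothesis at `x₀` (`(mapDomain p^i D) x₀ = D (p^{n-i} x₀)`): `∑_{i<n} D (p^i x₀) = 0`, which is `(n/|O|) ∑_{x ∈ O} D x`, so all sums over orbits are `0` and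
`D ≡ 0`. `perm_fixed`: `D` is constant on orbits (`D (p x) = D x`), so it is an integral combination of the (finitely many) orbit sums: induction on the support (subtract `D x •` the orbit sum of `x`).
-/

set_option autoImplicit false

noncomputable section

open Finset

namespace Pool.Agent.CMR

/-- the orbit relation -/
private def permSetoid {X : Type} (p : X → X) {n : ℕ} (hn : 0 < n) (hp : ∀ x, p^[n] x = x) :
    Setoid X where
  r x y := ∃ i, p^[i] x = y
  iseqv := by
    refine ⟨fun x => ⟨0, rfl⟩, ?_, ?_⟩
    · rintro x y ⟨i, rfl⟩
      -- `p^(n*i - i)` is the inverse of `p^i`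
      refine ⟨n * i - i, ?_⟩
      rw [← Function.iterate_add_apply]
      have h1 : n * i - i + i = n * i := Nat.sub_add_cancel (Nat.le_mul_of_pos_left i hn)
      rw [h1, Function.iterate_mul]
      have h2 : p^[n] = id := funext hp
      rw [h2, Function.iterate_id, id]
    · rintro x y z ⟨i, rfl⟩ ⟨j, rfl⟩
      exact ⟨j + i, Function.iterate_add_apply p j i x⟩

private theorem perm_inj {X : Type} (p : X → X) {n : ℕ} (hn : 0 < n) (hp : ∀ x, p^[n] x = x) :
    Function.Injective p := by
  intro a b hab
  obtain ⟨m, rfl⟩ : ∃ m, n = m + 1 := ⟨n - 1, by omega⟩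
  rw [← hp a, ← hp b, Function.iterate_succ_apply, Function.iterate_succ_apply, hab]

/-- vanishing of the cohomology of a permutation module -/
theorem perm_hilbert {X : Type} (p : X → X) {n : ℕ} (hn : 0 < n) (hp : ∀ x, p^[n] x = x)
    (D : X →₀ ℤ) (hD : ∑ i ∈ range n, (Finsupp.mapDomain p)^[i] D = 0) :
    ∃ E : X →₀ ℤ, D = Finsupp.mapDomain p E - E := by
  classical
  let M : AddSubgroup (X →₀ ℤ) :=
    (Finsupp.mapDomain.addMonoidHom p - AddMonoidHom.id (X →₀ ℤ)).range
  have hM : ∀ E : X →₀ ℤ, Finsupp.mapDomain p E - E ∈ M := fun E => ⟨E, rfl⟩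
  let q : X → Quotient (permSetoid p hn hp) := Quotient.mk (permSetoid p hn hp)
  let r : X → X := fun x => (q x).out
  have hrp : ∀ x, r (p x) = r x := by
    intro x
    have h1 : q x = q (p x) := Quotient.sound (s := permSetoid p hn hp) ⟨1, rfl⟩
    change (q (p x)).out = (q x).out
    rw [h1]
  have hr : ∀ x, ∃ i, p^[i] x = r x := by
    intro x
    have h1 : (permSetoid p hn hp).r (r x) x :=
      Quotient.exact (s := permSetoid p hn hp) (Quotient.out_eq (q x))
    exact (permSetoid p hn hp).iseqv.symm h1
  have hit : ∀ (x : X) (c : ℤ) (i : ℕ),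
      Finsupp.single (p^[i] x) c - Finsupp.single x c ∈ M := by
    intro x c i
    induction i with
    | zero => simp
    | succ i ih =>
      have h1 := hM (Finsupp.single (p^[i] x) c)
      rw [Finsupp.mapDomain_single] at h1
      have h2 := M.add_mem h1 ih
      rw [sub_add_sub_cancel] at h2
      rw [Function.iterate_succ_apply']
      exact h2
  have hDM : ∀ F : X →₀ ℤ, Finsupp.mapDomain r F - F ∈ M := by
    intro F
    induction F using Finsupp.induction_linear with
    | zero => simp
    | add f g hf hg =>
      rw [Finsupp.mapDomain_add, add_sub_add_comm]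
      exact M.add_mem hf hg
    | single x c =>
      rw [Finsupp.mapDomain_single]
      obtain ⟨i, hi⟩ := hr x
      rw [← hi]
      exact hit x c i
  have hrpc : ∀ F : X →₀ ℤ, Finsupp.mapDomain r (Finsupp.mapDomain p F) =
      Finsupp.mapDomain r F := by
    intro F
    rw [← Finsupp.mapDomain_comp]
    congr 1
    exact funext hrp
  have hrit : ∀ (F : X →₀ ℤ) (i : ℕ), Finsupp.mapDomain r ((Finsupp.mapDomain p)^[i] F) =
      Finsupp.mapDomain r F := by
    intro F i
    induction i with
    | zero => rfl
    | succ i ih => rw [Function.iterate_succ_apply', hrpc, ih]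
  have h0 : Finsupp.mapDomain r D = 0 := by
    have h1 := congrArg (Finsupp.mapDomain.addMonoidHom r) hD
    rw [map_sum, map_zero] at h1
    have h2 : ∀ i ∈ range n, Finsupp.mapDomain.addMonoidHom r ((Finsupp.mapDomain p)^[i] D) =
        Finsupp.mapDomain r D := fun i _ => hrit D i
    rw [Finset.sum_congr rfl h2, Finset.sum_const, Finset.card_range] at h1
    ext y
    have h3 := DFunLike.congr_fun h1 y
    rw [Finsupp.smul_apply, Finsupp.coe_zero, Pi.zero_apply, nsmul_eq_mul] at h3
    rcases mul_eq_zero.mp h3 with h4 | h4
    · exact absurd (Nat.cast_eq_zero.mp h4) hn.ne'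
    · rw [h4]
      rfl
  have h1 := hDM D
  rw [h0, zero_sub] at h1
  obtain ⟨E, hE⟩ := M.neg_mem h1
  rw [neg_neg] at hE
  exact ⟨E, hE.symm⟩

/-- the fixed elements of a permutation module: if all sums of orbits are in a subgroup then so are the fixed elements -/
theorem perm_fixed {X : Type} (p : X → X) {n : ℕ} (hn : 0 < n) (hp : ∀ x, p^[n] x = x)
    (S : AddSubgroup (X →₀ ℤ))
    (hS : ∀ x : X, ∀ O : Finset X, (∀ y, y ∈ O ↔ ∃ i < n, p^[i] x = y) →
      ∑ y ∈ O, Finsupp.single y (1 : ℤ) ∈ S)
    (D : X →₀ ℤ) (hD : Finsupp.mapDomain p D = D) : D ∈ S := by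
  classical
  have hinj := perm_inj p hn hp
  have key : ∀ m : ℕ, ∀ D : X →₀ ℤ, Finsupp.mapDomain p D = D → D.support.card = m → D ∈ S := by
    intro m
    induction m using Nat.strong_induction_on with
    | _ m ih =>
      intro D hD hm
      by_cases h0 : D = 0
      · rw [h0]
        exact S.zero_mem
      · obtain ⟨x, hx⟩ := Finsupp.support_nonempty_iff.mpr h0
        obtain ⟨O, hO⟩ : ∃ O : Finset X, O = (range n).image fun i => p^[i] x := ⟨_, rfl⟩
        have hOm : ∀ y, y ∈ O ↔ ∃ i < n, p^[i] x = y := by
          intro y
          rw [hO, Finset.mem_image]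
          simp only [Finset.mem_range]
        have hDp : ∀ y, D (p y) = D y := by
          intro y
          have h1 := Finsupp.mapDomain_apply hinj D y
          rw [hD] at h1
          exact h1
        have hDi : ∀ i, D (p^[i] x) = D x := by
          intro i
          induction i with
          | zero => rfl
          | succ i ih => rw [Function.iterate_succ_apply', hDp, ih]
        have hOp : O.image p = O := by
          refine Finset.eq_of_subset_of_card_le ?_ ?_
          · intro y hy
            obtain ⟨z, hz, rfl⟩ := Finset.mem_image.mp hy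
            obtain ⟨i, hi, rfl⟩ := (hOm z).mp hz
            rw [hOm]
            by_cases h2 : i + 1 < n
            · exact ⟨i + 1, h2, Function.iterate_succ_apply' p i x⟩
            · refine ⟨0, hn, ?_⟩
              have h3 : i.succ = n := by omega
              rw [← Function.iterate_succ_apply' p i x, h3, hp]
              rfl
          · rw [Finset.card_image_of_injective _ hinj]
        obtain ⟨T, hT⟩ : ∃ T : X →₀ ℤ, T = ∑ y ∈ O, Finsupp.single y (1 : ℤ) := ⟨_, rfl⟩
        have hTS : T ∈ S := by
          rw [hT]
          exact hS x O hOm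
        have hTp : Finsupp.mapDomain p T = T := by
          rw [hT, Finsupp.mapDomain_finsetSum]
          rw [Finset.sum_congr rfl fun y _ => Finsupp.mapDomain_single]
          conv_rhs => rw [← hOp]
          rw [Finset.sum_image fun a _ b _ h => hinj h]
        have hTa : ∀ y, T y = if y ∈ O then 1 else 0 := by
          intro y
          rw [hT, Finsupp.finsetSum_apply]
          simp only [Finsupp.single_apply]
          rw [Finset.sum_ite_eq']
        have hxO : x ∈ O := (hOm x).mpr ⟨0, hn, rfl⟩
        have hlt : (D - D x • T).support.card < m := by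
          rw [← hm]
          refine Finset.card_lt_card ?_
          rw [Finset.ssubset_iff_of_subset]
          · refine ⟨x, hx, ?_⟩
            rw [Finsupp.mem_support_iff, not_not, Finsupp.sub_apply, Finsupp.smul_apply, hTa,
              if_pos hxO]
            simp
          · intro y hy
            rw [Finsupp.mem_support_iff, Finsupp.sub_apply, Finsupp.smul_apply, hTa] at hy
            rw [Finsupp.mem_support_iff]
            intro h3
            refine hy ?_
            by_cases hyO : y ∈ O
            · obtain ⟨i, -, hi⟩ := (hOm y).mp hyO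
              rw [if_pos hyO, ← hi, hDi]
              simp
            · rw [if_neg hyO, h3]
              simp
        have h4 : D - D x • T ∈ S := by
          refine ih _ hlt _ ?_ rfl
          have h5 : Finsupp.mapDomain.addMonoidHom p (D - D x • T) = D - D x • T := by
            rw [map_sub, map_zsmul]
            change Finsupp.mapDomain p D - D x • Finsupp.mapDomain p T = _
            rw [hD, hTp]
          exact h5
        have h6 := S.add_mem h4 (S.zsmul_mem hTS (D x))
        rwa [sub_add_cancel] at h6
  exact key _ D hD rfl

end Pool.Agent.CMR
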