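import Pool.Agent.CMR.RDiv
import Pool.Agent.CMR.RPerm
import Pool.Agent.StarkRQ.FrobF

/-!
# R-ORB divisors fixed by the Galois group

`n = finrank k L` is the order of `σ`, so `(actP σ)^[n] = id`; `(actP σ)^[i] 𝔓 = σ^i 𝔓`. Let `𝔭 = 𝔓 ∩ k`. The primes of `L` containing `𝔭` are the conjugates of `𝔓` (transitivity of the Galois group on the primes over `𝔭`: Mathlib `Ideal.exists_map_eq_of_isGalois` or `IsInvariant`/`StarkRQ` files),
every element of `Gal(L/k)` is `σ^i` with `i < n`. They all are prime to `N`. `idiv_map_prime`: both sides at `𝔔`: `𝔔 ∣ 𝔭𝓞_L` iff `𝔔 ∈ O`, with multiplicity one by `hu` (`𝔔 ∩ k = 𝔭`; multiplicity ≥ 2 iff `𝔔² ∣ 𝔭𝓞_L`). `fixed_div`: `perm_fixed` with `S` the set of the `D` of the required form: a subgroup (`idiv_mul`, `Ideal.map_mul`),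
and `𝔭` is prime to `N`. `norm_div`: `N(𝔭 𝓞_L) = N𝔭^n` (`Ideal.absNorm_algebraMap`), `𝔭𝓞_L = ∏_{𝔔 ∈ O} 𝔔` (primes dividing it, all `≠`, multiplicity one; all prime to `N`), `N𝔔 = N𝔓 = N𝔭`, so `|O| = n`, so the `n` conjugates `σ^i 𝔓` are different and the left side is the orbit sum.
-/

set_option autoImplicit false
set_option linter.unusedSectionVars false
set_option linter.unusedVariables false

noncomputable section

open NumberField Pool.Agent.StarkRQ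
open scoped Pointwise

namespace Pool.Agent.CMR

variable {k L : Type} [Field k] [NumberField k] [Field L] [NumberField L] [Algebra k L]
  [IsGalois k L] {N : ℕ}

omit [IsGalois k L] in
private theorem ro_iter (σ : Gal(L/k)) (i : ℕ) (𝔓 : PrmT L N) :
    ((actP σ)^[i] 𝔓).1 = (σ ^ i) • 𝔓.1 := by
  induction i with
  | zero => simp
  | succ i ih => rw [Function.iterate_succ_apply', actP_val, ih, ← mul_smul, ← pow_succ']

private theorem ro_order (σ : Gal(L/k)) (hσ : ∀ τ : Gal(L/k), τ ∈ Subgroup.zpowers σ) :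
    orderOf σ = Module.finrank k L := by
  rw [← IsGalois.card_aut_eq_finrank k L, ← Nat.card_zpowers,
    (Subgroup.eq_top_iff' _).2 hσ, Subgroup.card_top]

private theorem ro_period (σ : Gal(L/k)) (hσ : ∀ τ : Gal(L/k), τ ∈ Subgroup.zpowers σ)
    (𝔓 : PrmT L N) : (actP σ)^[Module.finrank k L] 𝔓 = 𝔓 := by
  apply Subtype.ext
  rw [ro_iter, ← ro_order σ hσ, pow_orderOf_eq_one, one_smul]

omit [IsGalois k L] in
private theorem ro_comap_smul (τ : Gal(L/k)) (P : Ideal (𝓞 L)) :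
    (τ • P).comap (algebraMap (𝓞 k) (𝓞 L)) = P.comap (algebraMap (𝓞 k) (𝓞 L)) := by
  ext x
  rw [Ideal.mem_comap, Ideal.mem_comap, Ideal.mem_pointwise_smul_iff_inv_smul_mem]
  have h : τ⁻¹ • (algebraMap (𝓞 k) (𝓞 L) x) = algebraMap (𝓞 k) (𝓞 L) x := by
    apply RingOfIntegers.ext
    exact (τ⁻¹ : Gal(L/k)).commutes (x : k)
  rw [h]

/-- the primes over the same prime are conjugate -/
private theorem ro_orbit (σ : Gal(L/k)) (hσ : ∀ τ : Gal(L/k), τ ∈ Subgroup.zpowers σ)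
    (𝔓 𝔔 : PrmT L N) : (∃ i < Module.finrank k L, (actP σ)^[i] 𝔓 = 𝔔) ↔
      𝔔.1.comap (algebraMap (𝓞 k) (𝓞 L)) = 𝔓.1.comap (algebraMap (𝓞 k) (𝓞 L)) := by
  constructor
  · rintro ⟨i, -, rfl⟩
    rw [ro_iter, ro_comap_smul]
  · intro h
    have h1 : 𝔓.1.IsPrime := 𝔓.2.1
    have h2 : 𝔔.1.IsPrime := 𝔔.2.1
    obtain ⟨ψ, hψ⟩ := exists_smul_eq_over (F := k) (M := L) (Q := 𝔓.1) (Q' := 𝔔.1) h.symm rfl
    have h3 := hσ ψ
    rw [← mem_powers_iff_mem_zpowers, Submonoid.mem_powers_iff] at h3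
    obtain ⟨j, rfl⟩ := h3
    have hn : 0 < Module.finrank k L := Module.finrank_pos
    refine ⟨j % Module.finrank k L, Nat.mod_lt _ hn, ?_⟩
    apply Subtype.ext
    rw [ro_iter, ← ro_order σ hσ, pow_mod_orderOf]
    exact hψ

omit [IsGalois k L] in
private theorem ro_comap_ne (𝔓 : PrmT L N) : 𝔓.1.comap (algebraMap (𝓞 k) (𝓞 L)) ≠ ⊥ :=
  fun h => 𝔓.2.2.1 (Ideal.eq_bot_of_comap_eq_bot h)

omit [IsGalois k L] in
private theorem ro_map_ne {𝔞 : Ideal (𝓞 k)} (h : 𝔞 ≠ ⊥) :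
    𝔞.map (algebraMap (𝓞 k) (𝓞 L)) ≠ ⊥ := by
  intro h1
  rw [Ideal.map_eq_bot_iff_of_injective (FaithfulSMul.algebraMap_injective (𝓞 k) (𝓞 L))] at h1
  exact h h1

omit [IsGalois k L] in
/-- multiplicities in extended primes -/
private theorem ro_mult (hu : Unr k L N) (𝔓 𝔔 : PrmT L N) :
    idiv N ((𝔓.1.comap (algebraMap (𝓞 k) (𝓞 L))).map (algebraMap (𝓞 k) (𝓞 L))) 𝔔 =
      (open Classical in if 𝔔.1.comap (algebraMap (𝓞 k) (𝓞 L)) =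
        𝔓.1.comap (algebraMap (𝓞 k) (𝓞 L)) then 1 else 0) := by
  classical
  have hQ : 𝔔.1.IsPrime := 𝔔.2.1
  have hP : 𝔓.1.IsPrime := 𝔓.2.1
  have hp : (𝔓.1.comap (algebraMap (𝓞 k) (𝓞 L))).IsPrime := Ideal.comap_isPrime _ _
  have hq : (𝔔.1.comap (algebraMap (𝓞 k) (𝓞 L))).IsPrime := Ideal.comap_isPrime _ _
  rw [idiv_apply (ro_map_ne (ro_comap_ne 𝔓))]
  by_cases h : 𝔔.1.comap (algebraMap (𝓞 k) (𝓞 L)) = 𝔓.1.comap (algebraMap (𝓞 k) (𝓞 L))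
  · rw [if_pos h]
    have h1 := Ideal.count_normalizedFactors_eq (p := 𝔔.1) (n := 1)
      (x := (𝔓.1.comap (algebraMap (𝓞 k) (𝓞 L))).map (algebraMap (𝓞 k) (𝓞 L)))
      (by rw [pow_one, ← h]; exact Ideal.map_comap_le) (fun h2 => by
        refine hu 𝔔.1 hQ 𝔔.2.2.1 𝔔.2.2.2 ?_
        rw [h, Ideal.dvd_iff_le]
        exact h2)
    exact_mod_cast h1
  · rw [if_neg h]
    have h1 := Ideal.count_normalizedFactors_eq (p := 𝔔.1) (n := 0)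
      (x := (𝔓.1.comap (algebraMap (𝓞 k) (𝓞 L))).map (algebraMap (𝓞 k) (𝓞 L)))
      (by rw [pow_zero, Ideal.one_eq_top]; exact le_top) (fun h2 => by
        rw [zero_add, pow_one, Ideal.map_le_iff_le_comap] at h2
        have h3 : (𝔓.1.comap (algebraMap (𝓞 k) (𝓞 L))).IsMaximal := hp.isMaximal (ro_comap_ne 𝔓)
        exact h (h3.eq_of_le hq.ne_top h2).symm)
    exact_mod_cast h1

omit [IsGalois k L] in
private theorem ro_sum_apply (O : Finset (PrmT L N)) (𝔔 : PrmT L N) :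
    (∑ 𝔔 ∈ O, Finsupp.single 𝔔 (1 : ℤ)) 𝔔 = (open Classical in if 𝔔 ∈ O then 1 else 0) := by
  classical
  rw [Finsupp.finsetSum_apply]
  simp only [Finsupp.single_apply]
  rw [Finset.sum_ite_eq']

omit [IsGalois k L] in
private theorem ro_prm (𝔓 : PrmT L N) : Prm N (𝔓.1.comap (algebraMap (𝓞 k) (𝓞 L))) := by
  have hP : 𝔓.1.IsPrime := 𝔓.2.1
  have hp : (𝔓.1.comap (algebraMap (𝓞 k) (𝓞 L))).IsPrime := Ideal.comap_isPrime _ _
  have hmax : (𝔓.1.comap (algebraMap (𝓞 k) (𝓞 L))).IsMaximal := hp.isMaximal (ro_comap_ne 𝔓)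
  rw [Prm, Ideal.isCoprime_iff_sup_eq]
  by_contra hne
  have h1 := hmax.eq_of_le hne le_sup_left
  have h2 : (N : 𝓞 k) ∈ 𝔓.1.comap (algebraMap (𝓞 k) (𝓞 L)) := by
    rw [h1]
    exact Ideal.mem_sup_right (Ideal.mem_span_singleton_self _)
  rw [Ideal.mem_comap, map_natCast] at h2
  have h3 := 𝔓.2.2.2
  rw [Prm, Ideal.isCoprime_iff_sup_eq] at h3
  apply hP.ne_top
  rw [← h3, eq_comm, sup_eq_left, Ideal.span_singleton_le_iff_mem]
  exact h2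

/-- the divisor of an extended prime is an orbit sum -/
theorem idiv_map_prime (hu : Unr k L N) (hN : 2 ≤ N) (σ : Gal(L/k))
    (hσ : ∀ τ : Gal(L/k), τ ∈ Subgroup.zpowers σ) (𝔓 : PrmT L N) (O : Finset (PrmT L N))
    (hO : ∀ 𝔔, 𝔔 ∈ O ↔ ∃ i < Module.finrank k L, (actP σ)^[i] 𝔓 = 𝔔) :
    idiv N ((𝔓.1.comap (algebraMap (𝓞 k) (𝓞 L))).map (algebraMap (𝓞 k) (𝓞 L))) =
      ∑ 𝔔 ∈ O, Finsupp.single 𝔔 (1 : ℤ) := by
  classical
  ext 𝔔
  rw [ro_mult hu, ro_sum_apply]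
  refine if_congr ?_ rfl rfl
  rw [hO, ro_orbit σ hσ]

/-- divisors which are fixed by the Galois group come from `k`. -/
theorem fixed_div (hu : Unr k L N) (hN : 2 ≤ N) (σ : Gal(L/k))
    (hσ : ∀ τ : Gal(L/k), τ ∈ Subgroup.zpowers σ) (D : PrmT L N →₀ ℤ)
    (hD : Finsupp.mapDomain (actP σ) D = D) :
    ∃ 𝔞 𝔟 : Ideal (𝓞 k), 𝔞 ≠ ⊥ ∧ 𝔟 ≠ ⊥ ∧ Prm N 𝔞 ∧ Prm N 𝔟 ∧
      D = idiv N (𝔞.map (algebraMap (𝓞 k) (𝓞 L))) - idiv N (𝔟.map (algebraMap (𝓞 k) (𝓞 L))) := by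
  classical
  have hn : 0 < Module.finrank k L := Module.finrank_pos
  have hone : Prm N (⊤ : Ideal (𝓞 k)) := by
    rw [prm_iff, Ideal.absNorm_top]
    exact Nat.coprime_one_left N
  have htop : (⊤ : Ideal (𝓞 k)) ≠ ⊥ := top_ne_bot
  let S : AddSubgroup (PrmT L N →₀ ℤ) :=
    { carrier := {D | ∃ 𝔞 𝔟 : Ideal (𝓞 k), 𝔞 ≠ ⊥ ∧ 𝔟 ≠ ⊥ ∧ Prm N 𝔞 ∧ Prm N 𝔟 ∧
        D = idiv N (𝔞.map (algebraMap (𝓞 k) (𝓞 L))) - idiv N (𝔟.map (algebraMap (𝓞 k) (𝓞 L)))}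
      add_mem' := by
        rintro D E ⟨𝔞, 𝔟, ha, hb, hpa, hpb, rfl⟩ ⟨𝔠, 𝔡, hc, hd, hpc, hpd, rfl⟩
        refine ⟨𝔞 * 𝔠, 𝔟 * 𝔡, mul_ne_zero ha hc, mul_ne_zero hb hd,
          (prm_mul_iff _ _).2 ⟨hpa, hpc⟩, (prm_mul_iff _ _).2 ⟨hpb, hpd⟩, ?_⟩
        rw [Ideal.map_mul, Ideal.map_mul, idiv_mul (ro_map_ne ha) (ro_map_ne hc),
          idiv_mul (ro_map_ne hb) (ro_map_ne hd)]
        abel
      zero_mem' := ⟨⊤, ⊤, htop, htop, hone, hone, by rw [sub_self]⟩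
      neg_mem' := by
        rintro D ⟨𝔞, 𝔟, ha, hb, hpa, hpb, rfl⟩
        exact ⟨𝔟, 𝔞, hb, ha, hpb, hpa, by rw [neg_sub]⟩ }
  refine perm_fixed (actP σ) hn (ro_period σ hσ) S (fun 𝔓 O hO => ?_) D hD
  refine ⟨𝔓.1.comap (algebraMap (𝓞 k) (𝓞 L)), ⊤, ro_comap_ne 𝔓, htop, ro_prm 𝔓, hone, ?_⟩
  rw [idiv_map_prime hu hN σ hσ 𝔓 O hO, Ideal.map_top, idiv_top, sub_zero]

/-- the norm of a prime of degree one over `k` -/
theorem norm_div (hu : Unr k L N) (hN : 2 ≤ N) (σ : Gal(L/k))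
    (hσ : ∀ τ : Gal(L/k), τ ∈ Subgroup.zpowers σ) (𝔓 : PrmT L N)
    (h : Ideal.absNorm 𝔓.1 = Ideal.absNorm (𝔓.1.comap (algebraMap (𝓞 k) (𝓞 L)))) :
    ∑ i ∈ Finset.range (Module.finrank k L),
      (Finsupp.mapDomain (actP σ))^[i] (Finsupp.single 𝔓 (1 : ℤ)) =
    idiv N ((𝔓.1.comap (algebraMap (𝓞 k) (𝓞 L))).map (algebraMap (𝓞 k) (𝓞 L))) := by
  classical
  obtain ⟨n, hn⟩ : ∃ n, n = Module.finrank k L := ⟨_, rfl⟩
  obtain ⟨O, hO'⟩ : ∃ O : Finset (PrmT L N), O = (Finset.range n).image fun i => (actP σ)^[i] 𝔓 :=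
    ⟨_, rfl⟩
  have hO : ∀ 𝔔, 𝔔 ∈ O ↔ ∃ i < Module.finrank k L, (actP σ)^[i] 𝔓 = 𝔔 := by
    intro 𝔔
    rw [hO', Finset.mem_image, ← hn]
    simp only [Finset.mem_range]
  obtain ⟨𝔭, h𝔭⟩ : ∃ 𝔭, 𝔭 = 𝔓.1.comap (algebraMap (𝓞 k) (𝓞 L)) := ⟨_, rfl⟩
  have hPp : 𝔓.1.IsPrime := 𝔓.2.1
  have h𝔭0 : 𝔭 ≠ ⊥ := by rw [h𝔭]; exact ro_comap_ne 𝔓
  have h𝔭p : 𝔭.IsPrime := by rw [h𝔭]; exact Ideal.comap_isPrime _ _
  have hmap0 : 𝔭.map (algebraMap (𝓞 k) (𝓞 L)) ≠ ⊥ := ro_map_ne h𝔭0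
  -- the norms of the elements of the orbit
  have hnorm : ∀ 𝔔 ∈ O, Ideal.absNorm 𝔔.1 = Ideal.absNorm 𝔭 := by
    intro 𝔔 h𝔔
    obtain ⟨i, -, rfl⟩ := (hO 𝔔).1 h𝔔
    rw [ro_iter, h𝔭, ← h]
    rw [Ideal.absNorm_apply, Ideal.absNorm_apply, Submodule.cardQuot_apply,
      Submodule.cardQuot_apply]
    refine Nat.card_congr (Ideal.quotientEquiv _ _
      (MulSemiringAction.toRingEquiv Gal(L/k) (𝓞 L) (σ ^ i)) ?_).symm.toEquiv
    rfl
  -- the factorization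
  have hfac : UniqueFactorizationMonoid.normalizedFactors (𝔭.map (algebraMap (𝓞 k) (𝓞 L))) =
      O.val.map fun 𝔔 => 𝔔.1 := by
    have hinj : Function.Injective (fun 𝔔 : PrmT L N => 𝔔.1) := Subtype.val_injective
    ext Q
    by_cases hQ : ∃ 𝔔 : PrmT L N, 𝔔.1 = Q
    · obtain ⟨𝔔, rfl⟩ := hQ
      rw [Multiset.count_map_eq_count' _ _ hinj, Multiset.count_eq_of_nodup O.nodup]
      have h1 := ro_mult hu 𝔓 𝔔
      rw [idiv_apply (ro_map_ne (ro_comap_ne 𝔓)), ← h𝔭] at h1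
      have h2 : 𝔔 ∈ O.val ↔ 𝔔.1.comap (algebraMap (𝓞 k) (𝓞 L)) = 𝔭 := by
        rw [Finset.mem_val, hO, ro_orbit σ hσ, h𝔭]
      rw [if_congr h2 rfl rfl]
      split_ifs at h1 ⊢
      · exact_mod_cast h1
      · exact_mod_cast h1
    · rw [Multiset.count_eq_zero_of_notMem, Multiset.count_eq_zero_of_notMem]
      · intro h1
        obtain ⟨𝔔, -, h2⟩ := Multiset.mem_map.1 h1
        exact hQ ⟨𝔔, h2⟩
      · intro h1
        rw [Ideal.mem_normalizedFactors_iff hmap0] at h1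
        have h2 := h1.1
        have h3 : Q.comap (algebraMap (𝓞 k) (𝓞 L)) = 𝔭 := by
          have h4 : 𝔭.IsMaximal := h𝔭p.isMaximal h𝔭0
          exact (h4.eq_of_le (Ideal.comap_isPrime _ _).ne_top
            (Ideal.map_le_iff_le_comap.1 h1.2)).symm
        refine hQ ⟨⟨Q, h2, ?_, ?_⟩, rfl⟩
        · rintro rfl
          apply h𝔭0
          rw [← h3, Ideal.comap_bot_of_injective _
            (FaithfulSMul.algebraMap_injective (𝓞 k) (𝓞 L))]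
        · obtain ⟨ψ, hψ⟩ := exists_smul_eq_over (F := k) (M := L) (Q := 𝔓.1) (Q' := Q)
            h𝔭.symm h3
          have h5 := (actP ψ 𝔓).2.2.2
          rw [actP_val] at h5
          have h6 : ψ • 𝔓.1 = Q := hψ
          rwa [h6] at h5
  -- the number of elements of the orbit
  have hcard : O.card = n := by
    have h1 : Ideal.absNorm (𝔭.map (algebraMap (𝓞 k) (𝓞 L))) = Ideal.absNorm 𝔭 ^ n := by
      rw [Ideal.absNorm_algebraMap, hn, IsFractionRing.finrank_eq (𝓞 k) k (𝓞 L) L]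
    have h2 : Ideal.absNorm (𝔭.map (algebraMap (𝓞 k) (𝓞 L))) = Ideal.absNorm 𝔭 ^ O.card := by
      conv_lhs => rw [← Ideal.prod_normalizedFactors_eq_self hmap0, hfac]
      rw [map_multiset_prod, Multiset.map_map]
      have h3 : Multiset.map (fun 𝔔 : PrmT L N => Ideal.absNorm 𝔔.1) O.val =
          Multiset.map (fun _ : PrmT L N => Ideal.absNorm 𝔭) O.val :=
        Multiset.map_congr rfl fun 𝔔 h𝔔 => hnorm 𝔔 h𝔔
      have h4 := congrArg Multiset.prod h3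
      rw [Multiset.map_const', Multiset.prod_replicate, Finset.card_val] at h4
      exact h4
    have h5 : Ideal.absNorm 𝔭 ≠ 0 := fun h6 => h𝔭0 (Ideal.absNorm_eq_zero_iff.1 h6)
    have h6 : Ideal.absNorm 𝔭 ≠ 1 := fun h7 => h𝔭p.ne_top (Ideal.absNorm_eq_one_iff.1 h7)
    exact Nat.pow_right_injective (by omega : 2 ≤ Ideal.absNorm 𝔭) (h2.symm.trans h1)
  have hinj : Set.InjOn (fun i => (actP σ)^[i] 𝔓) (Finset.range n) := by
    rw [← Finset.card_image_iff, ← hO', hcard, Finset.card_range]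
  have hit : ∀ i, (Finsupp.mapDomain (actP σ))^[i] (Finsupp.single 𝔓 (1 : ℤ)) =
      Finsupp.single ((actP σ)^[i] 𝔓) 1 := by
    intro i
    induction i with
    | zero => rfl
    | succ i ih => rw [Function.iterate_succ_apply', ih, Finsupp.mapDomain_single,
        Function.iterate_succ_apply']
  rw [idiv_map_prime hu hN σ hσ 𝔓 O hO, ← hn, hO', Finset.sum_image hinj]
  exact Finset.sum_congr rfl fun i _ => hit i

end Pool.Agent.CMR
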