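import Pool.Agent.CMR.RDefs

/-!
# R-UNA Minkowski unit

`L` is totally complex, `[L : ℚ] = 2n`, `n = finrank k L`, so it has `n` infinite places, all
complex, and `Gal(L/k)` permutes them simply transitively: the embeddings `L → ℂ` over a fixed
embedding of `k` are `φ ∘ τ`, no two of them are complex conjugate, so the places
`w_j = |φ ∘ σ^j|`, `j < n`, are different and these are all.
`NumberField.Units.dirichletUnitTheorem.exists_unit` with `w₁ = w_0`: a unit `ε₀` with
`|ε₀|_w < 1` for all `w ≠ w_0`. The product of its conjugates has absolute value one at all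
places, so it is a root of unity; replace `ε₀` by a power `ε`: the product is `1` (first property).
Relations: let `a_{ij} = log |σ^i ε|_{w_j}`, so `a_{ij} < 0` unless `i = j`, and `∑_i a_{ij} = 0`.
If `∏ (σ^iε)^{c_i} = 1` then `∑_i c_i a_{ij} = 0` for all `j`; take `i₀` with `c_{i₀}` maximal and
`j = i₀`: `∑_i (c_i - c_{i₀}) a_{ij} = 0`, all terms are `≥ 0`, so all `c_i = c_{i₀}`. Finite
index: the conjugates of index `1, …, n - 1` are independent modulo torsion and the rank of the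
unit group is `n - 1`, so the quotient is finite.
-/

set_option autoImplicit false

noncomputable section

open NumberField Pool.Agent.StarkRQ
open scoped Pointwise

namespace Pool.Agent.CMR

section

variable {k L : Type} [Field k] [NumberField k] [Field L] [NumberField L] [Algebra k L]

private theorem mu_card_k (hk : IsIQ k) : Fintype.card (InfinitePlace k) = 1 := by
  have := hk.isComplex
  have h1 := IsTotallyComplex.finrank (K := k)
  rw [hk.finrank_eq] at h1
  rw [InfinitePlace.card_eq_nrRealPlaces_add_nrComplexPlaces,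
    IsTotallyComplex.nrRealPlaces_eq_zero k]
  omega

private theorem mu_cpx (L : Type) [Field L] [Algebra k L] (hk : IsIQ k) :
    IsTotallyComplex L := by
  have := hk.isComplex
  exact isTotallyComplex_of_algebra k L

private theorem mu_card_L (hk : IsIQ k) :
    Fintype.card (InfinitePlace L) = Module.finrank k L := by
  have := mu_cpx L hk
  have h1 := IsTotallyComplex.finrank (K := L)
  have h2 := Module.finrank_mul_finrank ℚ k L
  rw [hk.finrank_eq] at h2
  rw [InfinitePlace.card_eq_nrRealPlaces_add_nrComplexPlaces,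
    IsTotallyComplex.nrRealPlaces_eq_zero L]
  omega

private theorem mu_trans [IsGalois k L] (hk : IsIQ k) (w w' : InfinitePlace L) :
    ∃ τ : Gal(L/k), τ • w = w' := by
  apply InfinitePlace.exists_smul_eq_of_comap_eq
  have : Subsingleton (InfinitePlace k) := by
    rw [← Fintype.card_le_one_iff_subsingleton, mu_card_k hk]
  exact Subsingleton.elim _ _

private theorem mu_card_G [IsGalois k L] : Fintype.card Gal(L/k) = Module.finrank k L := by
  rw [← Nat.card_eq_fintype_card]
  exact IsGalois.card_aut_eq_finrank k L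

private theorem mu_bij [IsGalois k L] (hk : IsIQ k) (w : InfinitePlace L) :
    Function.Bijective (fun τ : Gal(L/k) => τ • w) :=
  (Fintype.bijective_iff_surjective_and_card _).2
    ⟨fun w' => mu_trans hk w w', by rw [mu_card_G, mu_card_L hk]⟩

/-- the conjugates of a unit -/
private def mu_cu (τ : Gal(L/k)) : (𝓞 L)ˣ →* (𝓞 L)ˣ :=
  Units.map (RingOfIntegers.mapRingHom (τ : L →+* L)).toMonoidHom

private theorem mu_cu_coe (τ : Gal(L/k)) (u : (𝓞 L)ˣ) : ((mu_cu τ u : (𝓞 L)ˣ) : L) = τ (u : L) :=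
  rfl

private theorem mu_smul (τ : Gal(L/k)) (w : InfinitePlace L) (u : (𝓞 L)ˣ) :
    (τ • w) ((mu_cu τ u : (𝓞 L)ˣ) : L) = w (u : L) := by
  rw [InfinitePlace.smul_apply, mu_cu_coe]
  congr 1
  exact τ.symm_apply_apply _

/-- the logarithm of the absolute value -/
private def mu_log (w : InfinitePlace L) (u : (𝓞 L)ˣ) : ℝ := Real.log (w (u : L))

private theorem mu_log_mul (w : InfinitePlace L) (u v : (𝓞 L)ˣ) :
    mu_log w (u * v) = mu_log w u + mu_log w v := by
  unfold mu_log
  rw [NumberField.Units.coe_mul, map_mul, Real.log_mul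
    (NumberField.Units.pos_at_place u w).ne' (NumberField.Units.pos_at_place v w).ne']

private theorem mu_log_one (w : InfinitePlace L) : mu_log w 1 = 0 := by
  unfold mu_log
  rw [NumberField.Units.coe_one, map_one, Real.log_one]

private theorem mu_log_zpow (w : InfinitePlace L) (u : (𝓞 L)ˣ) (c : ℤ) :
    mu_log w (u ^ c) = c * mu_log w u := by
  unfold mu_log
  rw [NumberField.Units.coe_zpow, map_zpow₀, Real.log_zpow]

private theorem mu_log_prod (w : InfinitePlace L) (s : Finset ℕ) (F : ℕ → (𝓞 L)ˣ) :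
    mu_log w (∏ j ∈ s, F j) = ∑ j ∈ s, mu_log w (F j) := by
  classical
  induction s using Finset.induction_on with
  | empty => simp [mu_log_one]
  | insert a s ha ih => rw [Finset.prod_insert ha, Finset.sum_insert ha, mu_log_mul, ih]

private theorem mu_torsion {u : (𝓞 L)ˣ} (h : ∀ w : InfinitePlace L, mu_log w u = 0) :
    ∃ m : ℕ, 0 < m ∧ u ^ m = 1 := by
  have h1 : u ∈ NumberField.Units.torsion L := by
    rw [NumberField.Units.mem_torsion]
    intro w
    exact Real.eq_one_of_pos_of_log_eq_zero (NumberField.Units.pos_at_place u w) (h w)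
  have h2 : IsOfFinOrder u := h1
  exact isOfFinOrder_iff_pow_eq_one.1 h2

private theorem mu_sum (hk : IsIQ k) (u : (𝓞 L)ˣ) :
    ∑ w : InfinitePlace L, mu_log w u = 0 := by
  have := mu_cpx L hk
  have h := NumberField.Units.sum_mult_mul_log u
  simp only [IsTotallyComplex.mult_eq] at h
  rw [← Finset.mul_sum] at h
  exact (mul_eq_zero.1 h).resolve_left (by norm_num)

private theorem mu_image [IsGalois k L] [DecidableEq Gal(L/k)] {σ : Gal(L/k)}
    (hσ : ∀ τ : Gal(L/k), τ ∈ Subgroup.zpowers σ) :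
    Finset.image (fun i : ℕ => σ ^ i) (Finset.range (Module.finrank k L)) = Finset.univ ∧
      orderOf σ = Module.finrank k L := by
  have h1 : orderOf σ = Module.finrank k L := by
    rw [orderOf_eq_card_of_forall_mem_zpowers hσ]
    exact IsGalois.card_aut_eq_finrank k L
  refine ⟨?_, h1⟩
  rw [← h1]
  exact IsCyclic.image_range_orderOf hσ

private theorem mu_pow_inj [IsGalois k L] {σ : Gal(L/k)}
    (hσ : ∀ τ : Gal(L/k), τ ∈ Subgroup.zpowers σ) {i j : ℕ} (hi : i < Module.finrank k L)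
    (hj : j < Module.finrank k L) (h : σ ^ i = σ ^ j) : i = j := by
  classical
  have h1 := (mu_image hσ).2
  exact pow_injOn_Iio_orderOf (by rw [Set.mem_Iio, h1]; exact hi)
    (by rw [Set.mem_Iio, h1]; exact hj) h

private theorem mu_norm_log [IsGalois k L] (hk : IsIQ k) {σ : Gal(L/k)}
    (hσ : ∀ τ : Gal(L/k), τ ∈ Subgroup.zpowers σ) (u : (𝓞 L)ˣ) (w : InfinitePlace L) :
    mu_log w (∏ j ∈ Finset.range (Module.finrank k L), mu_cu (σ ^ j) u) = 0 := by
  classical
  rw [mu_log_prod]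
  have h1 : ∑ j ∈ Finset.range (Module.finrank k L), mu_log w (mu_cu (σ ^ j) u) =
      ∑ τ : Gal(L/k), mu_log w (mu_cu τ u) := by
    rw [← (mu_image hσ).1, Finset.sum_image]
    intro i hi j hj hij
    exact mu_pow_inj hσ (Finset.mem_range.1 hi) (Finset.mem_range.1 hj) hij
  have h2 : ∑ τ : Gal(L/k), mu_log w (mu_cu τ u) = ∑ τ : Gal(L/k), mu_log (τ⁻¹ • w) u := by
    refine Finset.sum_congr rfl fun τ _ => ?_
    unfold mu_log
    have h3 := mu_smul τ (τ⁻¹ • w) u
    rw [smul_inv_smul] at h3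
    rw [h3]
  have h4 : ∑ τ : Gal(L/k), mu_log (τ⁻¹ • w) u = ∑ τ : Gal(L/k), mu_log (τ • w) u :=
    Fintype.sum_equiv (Equiv.inv _) _ _ fun τ => rfl
  rw [h1, h2, h4, ← mu_sum hk u]
  exact (mu_bij hk w).sum_comp (fun w' => mu_log w' u)

/-- the unit -/
private theorem mu_exists [IsGalois k L] (hk : IsIQ k) {σ : Gal(L/k)}
    (hσ : ∀ τ : Gal(L/k), τ ∈ Subgroup.zpowers σ) :
    ∃ (w₀ : InfinitePlace L) (ε : (𝓞 L)ˣ),
      (∏ j ∈ Finset.range (Module.finrank k L), mu_cu (σ ^ j) ε = 1) ∧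
      ∀ (τ : Gal(L/k)) (w : InfinitePlace L), w ≠ τ • w₀ → mu_log w (mu_cu τ ε) < 0 := by
  obtain ⟨w₀⟩ : Nonempty (InfinitePlace L) := inferInstance
  obtain ⟨u, hu⟩ := NumberField.Units.dirichletUnitTheorem.exists_unit L w₀
  obtain ⟨m, hm, hm1⟩ := mu_torsion (mu_norm_log hk hσ u)
  refine ⟨w₀, u ^ m, ?_, ?_⟩
  · simp only [map_pow]
    rw [Finset.prod_pow]
    exact hm1
  · intro τ w hw
    have h1 : mu_log w (mu_cu τ u) < 0 := by
      have h2 := mu_smul τ (τ⁻¹ • w) u
      rw [smul_inv_smul] at h2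
      unfold mu_log
      rw [h2]
      apply hu
      intro h3
      apply hw
      rw [← h3, smul_inv_smul]
    rw [map_pow, ← zpow_natCast, mu_log_zpow]
    have h4 : (0 : ℝ) < ((m : ℤ) : ℝ) := by exact_mod_cast hm
    exact mul_neg_of_pos_of_neg h4 h1

private theorem mu_rel [IsGalois k L] {σ : Gal(L/k)} (hk : IsIQ k)
    (hσ : ∀ τ : Gal(L/k), τ ∈ Subgroup.zpowers σ) {w₀ : InfinitePlace L} {ε : (𝓞 L)ˣ}
    (h1 : ∏ j ∈ Finset.range (Module.finrank k L), mu_cu (σ ^ j) ε = 1)
    (h2 : ∀ (τ : Gal(L/k)) (w : InfinitePlace L), w ≠ τ • w₀ → mu_log w (mu_cu τ ε) < 0)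
    (c : ℕ → ℤ) (hc : ∏ j ∈ Finset.range (Module.finrank k L), mu_cu (σ ^ j) ε ^ c j = 1) :
    ∀ j < Module.finrank k L, c j = c 0 := by
  classical
  have hn : 0 < Module.finrank k L := Module.finrank_pos
  obtain ⟨i₀, hi₀, hmax⟩ := Finset.exists_max_image (Finset.range (Module.finrank k L)) c
    ⟨0, Finset.mem_range.2 hn⟩
  have key : ∀ j ∈ Finset.range (Module.finrank k L), c j = c i₀ := by
    have h3 : ∑ j ∈ Finset.range (Module.finrank k L),
        ((c j : ℝ) - c i₀) * mu_log (σ ^ i₀ • w₀) (mu_cu (σ ^ j) ε) = 0 := by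
      have h4 := congrArg (mu_log (σ ^ i₀ • w₀)) h1
      have h5 := congrArg (mu_log (σ ^ i₀ • w₀)) hc
      rw [mu_log_prod, mu_log_one] at h4 h5
      simp only [mu_log_zpow] at h5
      simp only [sub_mul]
      rw [Finset.sum_sub_distrib, h5, ← Finset.mul_sum, h4]
      ring
    have h6 : ∀ j ∈ Finset.range (Module.finrank k L),
        0 ≤ ((c j : ℝ) - c i₀) * mu_log (σ ^ i₀ • w₀) (mu_cu (σ ^ j) ε) := by
      intro j hj
      by_cases hji : j = i₀
      · rw [hji, sub_self, zero_mul]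
      · have h7 : (c j : ℝ) - c i₀ ≤ 0 := by
          have : (c j : ℝ) ≤ c i₀ := by exact_mod_cast hmax j hj
          linarith
        have h8 : mu_log (σ ^ i₀ • w₀) (mu_cu (σ ^ j) ε) < 0 := by
          apply h2
          intro h9
          apply hji
          have h10 := (mu_bij hk w₀).1 h9
          exact (mu_pow_inj hσ (Finset.mem_range.1 hi₀) (Finset.mem_range.1 hj) h10).symm
        exact mul_nonneg_of_nonpos_of_nonpos h7 h8.le
    intro j hj
    by_cases hji : j = i₀
    · rw [hji]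
    · have h11 := (Finset.sum_eq_zero_iff_of_nonneg h6).1 h3 j hj
      have h8 : mu_log (σ ^ i₀ • w₀) (mu_cu (σ ^ j) ε) < 0 := by
        apply h2
        intro h9
        apply hji
        have h10 := (mu_bij hk w₀).1 h9
        exact (mu_pow_inj hσ (Finset.mem_range.1 hi₀) (Finset.mem_range.1 hj) h10).symm
      have h12 := (mul_eq_zero.1 h11).resolve_right h8.ne
      have h13 : (c j : ℝ) = c i₀ := by linarith
      exact_mod_cast h13
  intro j hj
  rw [key j (Finset.mem_range.2 hj), key 0 (Finset.mem_range.2 hn)]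

end

/-- `r` independent elements in a finitely generated abelian group of rank `r` -/
private theorem mu_index_add (M : Type) [AddCommGroup M] [Module.Finite ℤ M] {r : ℕ}
    (hr : Module.finrank ℤ M = r) (b : Fin r → M)
    (hb : ∀ c : Fin r → ℤ, ∑ i, c i • b i = 0 → ∀ i, c i = 0) :
    ∃ h : ℕ, 0 < h ∧ ∀ x : M, ∃ c : Fin r → ℤ, ∑ i, c i • b i = h • x := by
  classical
  have hli : LinearIndependent ℤ b := Fintype.linearIndependent_iff.2 hb
  set N := Submodule.span ℤ (Set.range b) with hN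
  have htors : ∀ x : M, ∃ a : ℤ, a ≠ 0 ∧ a • x ∈ N := by
    intro x
    by_contra hcon
    push Not at hcon
    have h1 := LinearIndependent.finCons' x b hli (fun c y hy hxy => by
      by_contra hc
      apply hcon c hc
      rw [eq_neg_of_add_eq_zero_left hxy]
      exact N.neg_mem hy)
    have h2 := h1.fintype_card_le_finrank
    rw [Fintype.card_fin, hr] at h2
    omega
  choose a ha0 ha using htors
  obtain ⟨S, hS⟩ := (Module.Finite.fg_top : (⊤ : Submodule ℤ M).FG)
  refine ⟨∏ s ∈ S, (a s).natAbs, Finset.prod_pos fun s _ => Int.natAbs_pos.2 (ha0 s),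
    fun x => ?_⟩
  rw [← Submodule.mem_span_range_iff_exists_fun ℤ]
  change (∏ s ∈ S, (a s).natAbs) • x ∈ N
  have hx : x ∈ Submodule.span ℤ (S : Set M) := by
    rw [hS]
    trivial
  induction hx using Submodule.span_induction with
  | mem s hs =>
    obtain ⟨d, hd⟩ : (a s) ∣ ((∏ s ∈ S, (a s).natAbs : ℕ) : ℤ) := by
      rw [← Int.natAbs_dvd]
      exact_mod_cast Finset.dvd_prod_of_mem (fun s => (a s).natAbs) hs
    rw [← natCast_zsmul, hd, mul_comm, mul_smul]
    exact N.smul_mem _ (ha s)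
  | zero =>
    rw [smul_zero]
    exact N.zero_mem
  | add y z _ _ hy hz =>
    rw [smul_add]
    exact N.add_mem hy hz
  | smul c y _ hy =>
    rw [smul_comm]
    exact N.smul_mem c hy

/-- `r` independent units in a field with unit group of rank `r` -/
private theorem mu_index (L : Type) [Field L] [NumberField L] {r : ℕ}
    (hr : NumberField.Units.rank L = r) (v : Fin r → (𝓞 L)ˣ)
    (hv : ∀ c : Fin r → ℤ, ∏ i, v i ^ c i = 1 → ∀ i, c i = 0) :
    ∃ h : ℕ, 0 < h ∧ ∀ u : (𝓞 L)ˣ, ∃ c : Fin r → ℤ, u ^ h = ∏ i, v i ^ c i := by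
  classical
  have hb : ∀ c : Fin r → ℤ, ∑ i, c i • (Additive.ofMul (v i)) =
      (Additive.ofMul (∏ i, v i ^ c i) : Additive (𝓞 L)ˣ) := by
    intro c
    rw [ofMul_prod]
    rfl
  obtain ⟨h, hh, hh1⟩ := mu_index_add (Additive (𝓞 L)ˣ)
    ((NumberField.Units.finrank_eq L).trans hr) (fun i => Additive.ofMul (v i))
    (fun c hc i => hv c ((hb c).symm.trans hc) i)
  refine ⟨h, hh, fun u => ?_⟩
  obtain ⟨c, hc⟩ := hh1 (Additive.ofMul u)
  exact ⟨c, (hc.symm.trans (hb c))⟩

/-- a unit whose conjugates generate a subgroup of finite index of the unit group, with one relation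
only -/
theorem exists_minkowski_unit {k L : Type} [Field k] [NumberField k] (hk : IsIQ k) [Field L]
    [NumberField L] [Algebra k L] [IsGalois k L] (σ : Gal(L/k))
    (hσ : ∀ τ : Gal(L/k), τ ∈ Subgroup.zpowers σ) :
    ∃ ε : L, IsIntegral ℤ ε ∧ IsIntegral ℤ ε⁻¹ ∧
      (∏ j ∈ Finset.range (Module.finrank k L), (σ ^ j) ε = 1) ∧
      (∀ c : ℕ → ℤ, ∏ j ∈ Finset.range (Module.finrank k L), (σ ^ j) ε ^ c j = 1 →
        ∀ j < Module.finrank k L, c j = c 0) ∧
      ∃ h : ℕ, 0 < h ∧ ∀ u : L, u ≠ 0 → IsIntegral ℤ u → IsIntegral ℤ u⁻¹ →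
        ∃ c : ℕ → ℤ, u ^ h = ∏ j ∈ Finset.range (Module.finrank k L), (σ ^ j) ε ^ c j := by
  classical
  obtain ⟨w₀, ε, h1, h2⟩ := mu_exists hk hσ
  let ψ : (𝓞 L)ˣ →* L := (algebraMap (𝓞 L) L).toMonoidHom.comp (Units.coeHom (𝓞 L))
  have hψ : Function.Injective ψ := fun a b hab => Units.ext (RingOfIntegers.ext hab)
  have hprod : ∀ c : ℕ → ℤ, ψ (∏ j ∈ Finset.range (Module.finrank k L), mu_cu (σ ^ j) ε ^ c j) =
      ∏ j ∈ Finset.range (Module.finrank k L), (σ ^ j) (ψ ε) ^ c j := by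
    intro c
    rw [map_prod]
    refine Finset.prod_congr rfl fun j _ => ?_
    rw [map_zpow]
    rfl
  obtain ⟨r, hr⟩ : ∃ r, Module.finrank k L = r + 1 :=
    ⟨Module.finrank k L - 1, by have := Module.finrank_pos (R := k) (M := L); omega⟩
  have hrank : NumberField.Units.rank L = r := by
    unfold NumberField.Units.rank
    rw [mu_card_L hk, hr, Nat.add_sub_cancel]
  have hinv : ∀ u : (𝓞 L)ˣ, (ψ u)⁻¹ = ψ u⁻¹ := fun u => (map_inv ψ u).symm
  refine ⟨ψ ε, RingOfIntegers.isIntegral_coe _, ?_, ?_, ?_, ?_⟩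
  · rw [hinv]
    exact RingOfIntegers.isIntegral_coe _
  · have h3 := congrArg ψ h1
    rw [map_one, map_prod] at h3
    exact h3
  · intro c hc
    rw [← hprod, ← map_one ψ] at hc
    exact mu_rel hk hσ h1 h2 c (hψ hc)
  · obtain ⟨h, hh, hh1⟩ := mu_index L hrank (fun i => mu_cu (σ ^ ((i : ℕ) + 1)) ε) (by
      intro c hc i
      let c' : ℕ → ℤ := fun j => if hj : j - 1 < r ∧ j ≠ 0 then c ⟨j - 1, hj.1⟩ else 0
      have hc'0 : c' 0 = 0 := by simp [c']
      have hc'i : ∀ i : Fin r, c' ((i : ℕ) + 1) = c i := by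
        intro i
        simp only [c']
        rw [dif_pos ⟨by simp, by omega⟩]
        congr 1
      have h4 : ∏ j ∈ Finset.range (Module.finrank k L), mu_cu (σ ^ j) ε ^ c' j = 1 := by
        rw [hr, Finset.prod_range_succ', hc'0, zpow_zero, mul_one, Finset.prod_range, ← hc]
        refine Finset.prod_congr rfl fun i _ => ?_
        rw [hc'i]
      have h5 := mu_rel hk hσ h1 h2 c' h4 ((i : ℕ) + 1) (by rw [hr]; omega)
      rw [hc'i, hc'0] at h5
      exact h5)
    refine ⟨h, hh, fun u hu0 hu hu' => ?_⟩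
    obtain ⟨U, hU⟩ : ∃ U : (𝓞 L)ˣ, ψ U = u := by
      refine ⟨⟨⟨u, hu⟩, ⟨u⁻¹, hu'⟩, ?_, ?_⟩, rfl⟩
      · exact RingOfIntegers.ext (mul_inv_cancel₀ hu0)
      · exact RingOfIntegers.ext (inv_mul_cancel₀ hu0)
    obtain ⟨c, hc⟩ := hh1 U
    let c' : ℕ → ℤ := fun j => if hj : j - 1 < r ∧ j ≠ 0 then c ⟨j - 1, hj.1⟩ else 0
    have hc'0 : c' 0 = 0 := by simp [c']
    have hc'i : ∀ i : Fin r, c' ((i : ℕ) + 1) = c i := by
      intro i
      simp only [c']
      rw [dif_pos ⟨by simp, by omega⟩]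
      congr 1
    refine ⟨c', ?_⟩
    rw [← hprod, ← hU, ← map_pow, hc]
    congr 1
    rw [hr, Finset.prod_range_succ', hc'0, zpow_zero, mul_one, Finset.prod_range]
    refine Finset.prod_congr rfl fun i _ => ?_
    rw [hc'i]

end Pool.Agent.CMR
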