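import Pool.Agent.CMR.RW
import Pool.Agent.CMR.RUnA
import Pool.Agent.CMG.SMisc

/-!
# R-UNB the index of (sigma - 1)E in the units E

`E = {x : InU x}` is an abelian group with an action of `σ` (`InW.mul`, `InW.inv`, `InW.map`). `unit_fixed`: `x ∈ k`, a unit of `𝓞 k`, so `|x| = 1`, `|x - 1| ≤ 2`; `x - 1 = N^i y` with `InR y` (`InLam.inR`) and `x - 1` integral: `y ∈ k`, `s y ∈ 𝓞 k`, `s` prime to `N`, `N^i y ∈ 𝓞 k` gives `y ∈ 𝓞 k`; `N_{k/ℚ}(x-1) = N^{2i} N(y)` is `≤ 4 < 9 ≤ N^{2i}`, so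
`y = 0`. `unit_index`: let `ε` be as in `exists_minkowski_unit`; some power `ε^m`, `m > 0`, is in `E` (the group of units modulo `N^{i+t}` is finite, `inW_of_congr`), it has the same properties (first: yes; relations: multiply `c` by `m`; last: replace `h` by `h m`). Call it `ε`. Let `E' ⊆ E` be generated by the `σ^jε`, `E'' = {∏(σ^jε)^{c_j} : ∑ c_j = 0} = (σ-1)E'`.
`[E : E']` is finite (`E` is finitely generated, exponent `h`), `[E' : E''] = n` (`E'/E''` is generated by `ε`, and `ε^m ∈ E''` means `ε^m = ∏(σ^jε)^{c_j}`, `∑ c_j = 0`, so by the relations all `c_j - m δ_{j0}` are equal, `- m = n c`). `σ - 1` is injective on `E` (`unit_fixed`), so `[(σ-1)E : (σ-1)E'] = [E : E']` and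
`[E : (σ-1)E] [E : E'] = [E : E''] = [E : E'] n`: `[E : (σ-1)E] = n`. So fewer than `n` cosets of `(σ-1)E` do not cover `E`.
-/

set_option autoImplicit false

noncomputable section

open NumberField Pool.Agent.StarkRQ
open scoped Pointwise

namespace Pool.Agent.CMR

/-! ### the index, abstract form -/

section

variable {A : Type} [CommGroup A]

private theorem runB_phi_shift (s : A →* A) (ε : ℕ → A) (m : ℕ) (hε : ∀ j, s (ε j) = ε (j + 1))
    (hεn : ε (m + 1) = ε 0) (c : ℕ → ℤ) :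
    s (∏ j ∈ Finset.range (m + 1), ε j ^ c j) =
      ∏ j ∈ Finset.range (m + 1), ε j ^ (if j = 0 then c m else c (j - 1)) := by
  rw [map_prod, Finset.prod_range_succ, Finset.prod_range_succ']
  simp only [map_zpow, hε, hεn, if_true, Nat.add_sub_cancel, Nat.add_eq_zero_iff, one_ne_zero,
    and_false, if_false]

private theorem runB_sum_shift (m : ℕ) (c : ℕ → ℤ) :
    ∑ j ∈ Finset.range (m + 1), (if j = 0 then c m else c (j - 1)) =
      ∑ j ∈ Finset.range (m + 1), c j := by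
  rw [Finset.sum_range_succ (fun j => c j), Finset.sum_range_succ']
  simp

private theorem runB_abs [Group.FG A] (s : A →* A) (hs : ∀ a, s a = a → a = 1) (ε : ℕ → A)
    (n : ℕ) (hn : 0 < n) (hε : ∀ j, s (ε j) = ε (j + 1)) (hεn : ε n = ε 0)
    (hrel : ∀ c : ℕ → ℤ, ∏ j ∈ Finset.range n, ε j ^ c j = 1 → ∀ j < n, c j = c 0)
    (h : ℕ) (hh : 0 < h)
    (hexp : ∀ u : A, ∃ c : ℕ → ℤ, u ^ h = ∏ j ∈ Finset.range n, ε j ^ c j)
    (R : Finset A) (hR : R.card < n) : ∃ x : A, ∀ r ∈ R, ∀ e : A, x ≠ r * (s e / e) := by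
  classical
  let f : A →* A := s / MonoidHom.id A
  have hfa : ∀ a, f a = s a / a := fun a => rfl
  have hfi : Function.Injective f := by
    rw [injective_iff_map_eq_one]
    intro a ha
    exact hs a (div_eq_one.1 ha)
  let φ : Multiplicative (ℕ → ℤ) →* A :=
    { toFun := fun c => ∏ j ∈ Finset.range n, ε j ^ (Multiplicative.toAdd c j)
      map_one' := by simp
      map_mul' := fun c c' => by
        simp only [toAdd_mul, Pi.add_apply, zpow_add, Finset.prod_mul_distrib] }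
  have hφ : ∀ c : ℕ → ℤ, φ (Multiplicative.ofAdd c) = ∏ j ∈ Finset.range n, ε j ^ c j :=
    fun c => rfl
  let deg : Multiplicative (ℕ → ℤ) →* Multiplicative (ZMod n) :=
    { toFun := fun c => Multiplicative.ofAdd
        (((∑ j ∈ Finset.range n, Multiplicative.toAdd c j : ℤ)) : ZMod n)
      map_one' := by simp
      map_mul' := fun c c' => by
        simp only [toAdd_mul, Pi.add_apply, Finset.sum_add_distrib, Int.cast_add, ofAdd_add] }
  have hdeg : deg.ker.index = n := by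
    have hsurj : Function.Surjective deg := by
      intro z
      obtain ⟨a, ha⟩ := ZMod.intCast_surjective (Multiplicative.toAdd z)
      refine ⟨Multiplicative.ofAdd fun j => if j = 0 then a else 0, ?_⟩
      change Multiplicative.ofAdd
        (((∑ j ∈ Finset.range n, if j = 0 then a else 0 : ℤ)) : ZMod n) = z
      rw [Finset.sum_ite_eq' (Finset.range n) 0 (fun _ => a), if_pos (Finset.mem_range.2 hn), ha]
      rfl
    rw [Subgroup.index_ker, MonoidHom.range_eq_top.2 hsurj, Subgroup.card_top,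
      Nat.card_congr Multiplicative.toAdd, Nat.card_zmod]
  obtain ⟨m, rfl⟩ : ∃ m, n = m + 1 := ⟨n - 1, by omega⟩
  have hsh : ∀ c : ℕ → ℤ, s (φ (Multiplicative.ofAdd c)) =
      φ (Multiplicative.ofAdd fun j => if j = 0 then c m else c (j - 1)) := fun c =>
    runB_phi_shift s ε m hε hεn c
  have hB : φ.range.index ≠ 0 := by
    have h1 : (powMonoidHom (α := A) h).range ≤ φ.range := by
      rintro _ ⟨u, rfl⟩
      obtain ⟨c, hc⟩ := hexp u
      exact ⟨Multiplicative.ofAdd c, hc.symm⟩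
    have h2 := Subgroup.finiteIndex_range_powMonoidHom_of_fg A hh.ne'
    exact (Subgroup.finiteIndex_of_le h1).index_ne_zero
  have hmap : φ.range.map f ≤ φ.range := by
    rintro _ ⟨_, ⟨c, rfl⟩, rfl⟩
    rw [hfa]
    refine φ.range.div_mem ?_ ⟨c, rfl⟩
    exact ⟨_, (hsh (Multiplicative.toAdd c)).symm⟩
  have key : f.range.index = (φ.range.map f).relIndex φ.range := by
    have h1 := Subgroup.relIndex_mul_index (φ.range.map_le_range f)
    have h2 := Subgroup.relIndex_mul_index hmap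
    have h3 : (φ.range.map f).relIndex f.range = φ.range.index := by
      rw [MonoidHom.range_eq_map f, Subgroup.relIndex_map_map_of_injective _ _ hfi,
        Subgroup.relIndex_top_right]
    rw [h3] at h1
    have h4 : φ.range.index * f.range.index =
        φ.range.index * (φ.range.map f).relIndex φ.range := by
      rw [h1, mul_comm, h2]
    exact Nat.eq_of_mul_eq_mul_left (Nat.pos_of_ne_zero hB) h4
  have hdvd : (m + 1) ∣ f.range.index := by
    rw [key, ← Subgroup.index_comap]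
    nth_rewrite 1 [← hdeg]
    refine Subgroup.index_dvd_of_le ?_
    intro c hc
    obtain ⟨_, ⟨c', rfl⟩, hc'⟩ := hc
    rw [hfa] at hc'
    have h1 := hsh (Multiplicative.toAdd c')
    rw [ofAdd_toAdd] at h1
    rw [h1, div_eq_iff_eq_mul, ← map_mul] at hc'
    -- the relation
    obtain ⟨d, hd⟩ : ∃ d : ℕ → ℤ, ∀ j, d j = Multiplicative.toAdd c j +
        Multiplicative.toAdd c' j - (if j = 0 then Multiplicative.toAdd c' m else
          Multiplicative.toAdd c' (j - 1)) := ⟨_, fun _ => rfl⟩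
    have h2 : φ (Multiplicative.ofAdd d) = 1 := by
      have h3 : Multiplicative.ofAdd d = c * c' / (Multiplicative.ofAdd fun j =>
            if j = 0 then Multiplicative.toAdd c' m else Multiplicative.toAdd c' (j - 1)) :=
        funext hd
      rw [h3, map_div, ← hc', div_self']
    have h4 := hrel d h2
    have h5 : ∑ j ∈ Finset.range (m + 1), d j = ((m + 1 : ℕ) : ℤ) * d 0 := by
      rw [Finset.sum_congr rfl fun j hj => h4 j (Finset.mem_range.1 hj), Finset.sum_const,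
        Finset.card_range, nsmul_eq_mul]
    rw [Finset.sum_congr rfl fun j _ => hd j, Finset.sum_sub_distrib, Finset.sum_add_distrib,
      runB_sum_shift m (fun j => Multiplicative.toAdd c' j), add_sub_cancel_right] at h5
    change deg c = 1
    change Multiplicative.ofAdd
      (((∑ j ∈ Finset.range (m + 1), Multiplicative.toAdd c j : ℤ)) : ZMod (m + 1)) = 1
    rw [h5, Int.cast_mul, Int.cast_natCast, ZMod.natCast_self, zero_mul, ofAdd_zero]
  by_contra hcon
  push Not at hcon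
  have hsurj : Function.Surjective (fun r : R => (QuotientGroup.mk (r : A) : A ⧸ f.range)) := by
    intro q
    obtain ⟨x, rfl⟩ := QuotientGroup.mk_surjective q
    obtain ⟨r, hr, e, he⟩ := hcon x
    refine ⟨⟨r, hr⟩, ?_⟩
    change (QuotientGroup.mk r : A ⧸ f.range) = QuotientGroup.mk x
    rw [QuotientGroup.eq]
    exact ⟨e, by rw [hfa, he, inv_mul_cancel_left]⟩
  have hfin : Finite (A ⧸ f.range) := Finite.of_surjective _ hsurj
  have hle : f.range.index ≤ R.card := by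
    have h1 := Nat.card_le_card_of_surjective _ hsurj
    have h2 : Nat.card R = R.card := by rw [Nat.card_eq_fintype_card, Fintype.card_coe]
    rwa [h2] at h1
  have hpos : 0 < f.range.index := Nat.card_pos
  exact absurd (Nat.le_of_dvd hpos hdvd) (by omega)

end

variable {k L : Type} [Field k] [NumberField k] [Field L] [NumberField L] [Algebra k L]
  [IsGalois k L] {N t i : ℕ} {θ : L}

/-- a unit which is congruent to `1` modulo `N` is `1` -/
private theorem runB_unit {k : Type} [Field k] [NumberField k] (hk : IsIQ k) {N : ℕ} (hN : 3 ≤ N)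
    (u : (𝓞 k)ˣ) (hu : (N : 𝓞 k) ∣ (u : 𝓞 k) - 1) : (u : 𝓞 k) = 1 := by
  let _ : Algebra k ℂ := (Classical.arbitrary (k →+* ℂ)).toAlgebra
  have norm_eq : ∀ a : 𝓞 k, (Ideal.absNorm (Ideal.span {a}) : ℝ) = ‖algebraMap k ℂ (a : k)‖ ^ 2 :=
    fun a => CMG.nrm_eq_of hk.finrank_eq hk.isComplex a
  obtain ⟨c, hc⟩ := hu
  have h1 : ‖algebraMap k ℂ ((u : 𝓞 k) : k)‖ ^ 2 = 1 := by
    rw [← norm_eq, Ideal.span_singleton_eq_top.2 u.isUnit, Ideal.absNorm_top, Nat.cast_one]
  have h2 : ‖algebraMap k ℂ ((u : 𝓞 k) : k)‖ = 1 := by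
    rwa [pow_eq_one_iff_of_nonneg (norm_nonneg _) two_ne_zero] at h1
  have h3 : algebraMap k ℂ ((u : 𝓞 k) : k) - 1 = (N : ℂ) * algebraMap k ℂ (c : k) := by
    have h4 := congrArg (fun t : 𝓞 k => algebraMap k ℂ (t : k)) hc
    simpa using h4
  have h5 : (N : ℝ) * ‖algebraMap k ℂ (c : k)‖ ≤ 2 := by
    have h6 : ‖(N : ℂ) * algebraMap k ℂ (c : k)‖ ≤ 2 := by
      rw [← h3]
      refine (norm_sub_le _ _).trans ?_
      rw [h2, norm_one]
      norm_num
    rwa [norm_mul, Complex.norm_natCast] at h6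
  have h6 : (3 : ℝ) ≤ N := by exact_mod_cast hN
  have h7 : ‖algebraMap k ℂ (c : k)‖ < 1 := by
    nlinarith [norm_nonneg (algebraMap k ℂ (c : k))]
  have h8 : (Ideal.absNorm (Ideal.span {c}) : ℝ) < 1 := by
    rw [norm_eq]
    nlinarith [norm_nonneg (algebraMap k ℂ (c : k))]
  have h9 : Ideal.absNorm (Ideal.span {c}) = 0 := by
    have : Ideal.absNorm (Ideal.span {c}) < 1 := by exact_mod_cast h8
    omega
  rw [Ideal.absNorm_eq_zero_iff, Ideal.span_singleton_eq_bot] at h9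
  rw [h9, mul_zero] at hc
  exact sub_eq_zero.1 hc

private theorem runB_finite (k L : Type) [Field k] [NumberField k] [Field L] [NumberField L]
    [Algebra k L] : Module.Finite k L := Module.Finite.of_restrictScalars_finite ℚ k L

private theorem runB_base (σ : Gal(L/k)) (hσ : ∀ τ : Gal(L/k), τ ∈ Subgroup.zpowers σ) {x : L}
    (h : σ x = x) : ∃ a : k, algebraMap k L a = x := by
  have := runB_finite k L
  have hall : ∀ τ : Gal(L/k), τ x = x := by
    intro τ
    obtain ⟨n, rfl⟩ := Subgroup.mem_zpowers_iff.1 (hσ τ)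
    have h1 : σ ∈ MulAction.stabilizer Gal(L/k) x := h
    exact Subgroup.zpow_mem _ h1 n
  exact (IsGalois.mem_range_algebraMap_iff_fixed x).2 hall

omit [NumberField L] in
private theorem runB_int {x : L} (N j s : ℕ) (hs : s.Coprime N)
    (h1 : IsIntegral ℤ ((s : L) * x)) (h2 : IsIntegral ℤ ((N : L) ^ j * x)) : IsIntegral ℤ x := by
  have hc : IsCoprime (s : ℤ) ((N : ℤ) ^ j) := by
    have := (Nat.Coprime.pow_right j hs)
    exact_mod_cast Nat.isCoprime_iff_coprime.2 this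
  obtain ⟨u, v, huv⟩ := hc
  have h3 : x = (u : L) * ((s : L) * x) + (v : L) * ((N : L) ^ j * x) := by
    have h4 := congrArg (fun z : ℤ => (z : L)) huv
    push_cast at h4
    linear_combination (-x) * h4
  rw [h3]
  have hu : IsIntegral ℤ ((u : ℤ) : L) := isIntegral_algebraMap (R := ℤ) (A := L) (x := u)
  have hv : IsIntegral ℤ ((v : ℤ) : L) := isIntegral_algebraMap (R := ℤ) (A := L) (x := v)
  exact (hu.mul h1).add (hv.mul h2)

theorem unit_fixed (hk : IsIQ k) (hN : 2 ≤ N) (hθ : IsLat k N t θ) (hi : t < i) (hi2 : 3 ≤ N ^ i)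
    (σ : Gal(L/k)) (hσ : ∀ τ : Gal(L/k), τ ∈ Subgroup.zpowers σ) {x : L} (hx : InU k N i θ x)
    (h : σ x = x) : x = 1 := by
  obtain ⟨a, ha⟩ := runB_base σ hσ h
  obtain ⟨⟨l, hl, hxl⟩, hx1, hx2⟩ := hx
  have hx0 : x ≠ 0 := (InW.unit hN hθ hi ⟨l, hl, hxl⟩).1
  have hinj : Function.Injective (algebraMap k L) := (algebraMap k L).injective
  have hNL : (N : L) ^ i ≠ 0 := pow_ne_zero _ (by
    have : (N : L) ≠ 0 := by exact_mod_cast (by omega : N ≠ 0)
    exact this)
  have hNk : (N : k) ^ i ≠ 0 := pow_ne_zero _ (by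
    have : (N : k) ≠ 0 := by exact_mod_cast (by omega : N ≠ 0)
    exact this)
  obtain ⟨s, hs, hsl⟩ := InLam.inR hN hθ hl
  have hl1 : (N : L) ^ i * l = x - 1 := by rw [hxl]; ring
  have hlint : IsIntegral ℤ l := runB_int N i s hs hsl (by
    rw [hl1]
    exact hx1.sub isIntegral_one)
  have hlb : algebraMap k L ((a - 1) / (N : k) ^ i) = l := by
    rw [map_div₀, map_sub, map_pow, map_natCast, map_one, ha, ← hl1, mul_div_cancel_left₀ _ hNL]
  have hint : ∀ z : k, IsIntegral ℤ (algebraMap k L z) → IsIntegral ℤ z := fun z hz =>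
    (isIntegral_algebraMap_iff hinj).1 hz
  have ha1 : IsIntegral ℤ a := hint a (by rw [ha]; exact hx1)
  have ha2 : IsIntegral ℤ a⁻¹ := hint a⁻¹ (by rw [map_inv₀, ha]; exact hx2)
  have hb : IsIntegral ℤ ((a - 1) / (N : k) ^ i) := hint _ (by rw [hlb]; exact hlint)
  have ha0 : a ≠ 0 := by
    rintro rfl
    rw [map_zero] at ha
    exact hx0 ha.symm
  let u : (𝓞 k)ˣ := ⟨⟨a, ha1⟩, ⟨a⁻¹, ha2⟩, by
    apply RingOfIntegers.ext
    change a * a⁻¹ = 1
    exact mul_inv_cancel₀ ha0, by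
    apply RingOfIntegers.ext
    change a⁻¹ * a = 1
    exact inv_mul_cancel₀ ha0⟩
  have hu := runB_unit hk hi2 u ⟨⟨_, hb⟩, by
    apply RingOfIntegers.ext
    change a - 1 = ((N ^ i : ℕ) : k) * ((a - 1) / (N : k) ^ i)
    rw [Nat.cast_pow, mul_div_cancel₀ _ hNk]⟩
  have hu1 : a = 1 := congrArg (fun z : 𝓞 k => (z : k)) hu
  rw [← ha, hu1, map_one]

/-- the group of units in `W` -/
private def runB_E (hN : 2 ≤ N) (hθ : IsLat k N t θ) (hi : t < i) : Subgroup (𝓞 L)ˣ where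
  carrier := {u | InW k N i θ (((u : (𝓞 L)ˣ) : 𝓞 L) : L)}
  mul_mem' := fun {a b} ha hb => by
    have := InW.mul hN hθ hi ha hb
    exact this
  one_mem' := by
    have := inW_of_congr (i := i) hN hθ (a := 1) (by rw [sub_self]; exact dvd_zero _)
    exact this
  inv_mem' := fun {a} ha => by
    have h1 := InW.inv hN hθ hi ha
    have h2 : (((a⁻¹ : (𝓞 L)ˣ) : 𝓞 L) : L) = (((a : (𝓞 L)ˣ) : 𝓞 L) : L)⁻¹ :=
      map_inv ((algebraMap (𝓞 L) L).toMonoidHom.comp (Units.coeHom (𝓞 L))) a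
    change InW k N i θ (((a⁻¹ : (𝓞 L)ˣ) : 𝓞 L) : L)
    rw [h2]
    exact h1

/-- the coercion -/
private def runB_psi (L : Type) [Field L] [NumberField L] : (𝓞 L)ˣ →* L :=
  (algebraMap (𝓞 L) L).toMonoidHom.comp (Units.coeHom (𝓞 L))

private theorem runB_psi_inj : Function.Injective (runB_psi L) := fun a b hab =>
  Units.ext (RingOfIntegers.ext hab)

private theorem runB_mk {x : L} (hx : x ≠ 0) (h1 : IsIntegral ℤ x) (h2 : IsIntegral ℤ x⁻¹) :
    ∃ u : (𝓞 L)ˣ, runB_psi L u = x :=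
  ⟨⟨⟨x, h1⟩, ⟨x⁻¹, h2⟩, by
    apply RingOfIntegers.ext
    change x * x⁻¹ = 1
    exact mul_inv_cancel₀ hx, by
    apply RingOfIntegers.ext
    change x⁻¹ * x = 1
    exact inv_mul_cancel₀ hx⟩, rfl⟩

/-- the action on units -/
private def runB_act (τ : Gal(L/k)) : (𝓞 L)ˣ →* (𝓞 L)ˣ :=
  Units.map (RingOfIntegers.mapRingHom (τ : L →+* L)).toMonoidHom

private theorem runB_psi_act (τ : Gal(L/k)) (u : (𝓞 L)ˣ) :
    runB_psi L (runB_act τ u) = τ (runB_psi L u) := rfl

private theorem runB_fg (E : Subgroup (𝓞 L)ˣ) : Group.FG E := by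
  have h := IsNoetherian.noetherian (AddSubgroup.toIntSubmodule E.toAddSubgroup)
  rw [Submodule.fg_iff_addSubgroup_fg, AddSubgroup.toIntSubmodule_toAddSubgroup] at h
  exact (Group.fg_iff_subgroup_fg E).2 ((Subgroup.fg_iff_add_fg E).2 h)

/-- some power is congruent to `1` -/
private theorem runB_pow (u : (𝓞 L)ˣ) (M : ℕ) (hM : M ≠ 0) :
    ∃ m : ℕ, 0 < m ∧ ((M : ℕ) : 𝓞 L) ∣ ((u ^ m : (𝓞 L)ˣ) : 𝓞 L) - 1 := by
  have hne : Ideal.span {((M : ℕ) : 𝓞 L)} ≠ ⊥ := by
    rw [Ne, Ideal.span_singleton_eq_bot]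
    exact_mod_cast hM
  have hfin : Finite (𝓞 L ⧸ Ideal.span {((M : ℕ) : 𝓞 L)}) :=
    Ideal.finiteQuotientOfFreeOfNeBot _ hne
  have hfin2 : Finite (𝓞 L ⧸ Ideal.span {((M : ℕ) : 𝓞 L)})ˣ := inferInstance
  refine ⟨Nat.card (𝓞 L ⧸ Ideal.span {((M : ℕ) : 𝓞 L)})ˣ, Nat.card_pos, ?_⟩
  have h1 := pow_card_eq_one' (x := Units.map
    (Ideal.Quotient.mk (Ideal.span {((M : ℕ) : 𝓞 L)})).toMonoidHom u)
  rw [← map_pow] at h1
  have h2 := congrArg Units.val h1
  change Ideal.Quotient.mk (Ideal.span {((M : ℕ) : 𝓞 L)}) _ = 1 at h2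
  rw [← Ideal.mem_span_singleton, ← Ideal.Quotient.eq_zero_iff_mem, map_sub, map_one, h2, sub_self]

theorem unit_index (hk : IsIQ k) (hN : 2 ≤ N) (hθ : IsLat k N t θ) (hi : t < i) (hi2 : 3 ≤ N ^ i)
    (σ : Gal(L/k)) (hσ : ∀ τ : Gal(L/k), τ ∈ Subgroup.zpowers σ) (R : Finset L)
    (hR : ∀ r ∈ R, InU k N i θ r) (hc : R.card < Module.finrank k L) :
    ∃ x : L, InU k N i θ x ∧ ∀ r ∈ R, ∀ e : L, InU k N i θ e → x ≠ r * (σ e / e) := by
  classical
  have hfinite := runB_finite k L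
  obtain ⟨ε, he1, he2, hnorm, hrel, h, hh, hexp⟩ := exists_minkowski_unit hk σ hσ
  set n := Module.finrank k L with hn
  have hn0 : 0 < n := Module.finrank_pos
  have hε0 : ε ≠ 0 := by
    rintro rfl
    obtain ⟨q, hq⟩ : ∃ q, n = q + 1 := ⟨n - 1, by omega⟩
    rw [hq, Finset.prod_range_succ, map_zero, mul_zero] at hnorm
    exact zero_ne_one hnorm
  obtain ⟨w, hw⟩ := runB_mk hε0 he1 he2
  obtain ⟨m, hm, hmd⟩ := runB_pow w (N ^ (i + t)) (pow_ne_zero _ (by omega))
  have hwE : ∀ j : ℕ, runB_act (σ ^ j) (w ^ m) ∈ runB_E hN hθ hi := fun j => by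
    have h1 := inW_of_congr (i := i) hN hθ hmd
    exact InW.map (σ ^ j) h1
  let E := runB_E hN hθ hi
  have hfg : Group.FG E := runB_fg E
  let s : E →* E := ((runB_act σ).comp E.subtype).codRestrict E fun e => InW.map σ e.2
  have hsv : ∀ e : E, runB_psi L (s e : (𝓞 L)ˣ) = σ (runB_psi L (e : (𝓞 L)ˣ)) := fun e => rfl
  have hInU : ∀ e : E, InU k N i θ (runB_psi L (e : (𝓞 L)ˣ)) := fun e =>
    ⟨e.2, RingOfIntegers.isIntegral_coe _, by
      rw [← map_inv]
      exact RingOfIntegers.isIntegral_coe _⟩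
  let η : ℕ → E := fun j => ⟨runB_act (σ ^ j) (w ^ m), hwE j⟩
  have hηv : ∀ j, runB_psi L (η j : (𝓞 L)ˣ) = (σ ^ j) ε ^ m := fun j => by
    change (σ ^ j) (runB_psi L (w ^ m)) = _
    rw [map_pow, map_pow, hw]
  have hprod : ∀ c : ℕ → ℤ, runB_psi L ((∏ j ∈ Finset.range n, η j ^ c j : E) : (𝓞 L)ˣ) =
      ∏ j ∈ Finset.range n, (σ ^ j) ε ^ ((m : ℤ) * c j) := fun c => by
    rw [Subgroup.val_finsetProd, map_prod]
    refine Finset.prod_congr rfl fun j _ => ?_
    rw [Subgroup.coe_zpow, map_zpow, hηv, ← zpow_natCast, ← zpow_mul]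
  have hinj : ∀ a b : E, runB_psi L (a : (𝓞 L)ˣ) = runB_psi L (b : (𝓞 L)ˣ) → a = b := fun a b hab =>
    Subtype.ext (runB_psi_inj hab)
  -- representatives
  have hrep : ∀ x : L, InU k N i θ x → ∃ e : E, runB_psi L (e : (𝓞 L)ˣ) = x := by
    intro x hx
    obtain ⟨u, hu⟩ := runB_mk (InW.unit hN hθ hi hx.1).1 hx.2.1 hx.2.2
    refine ⟨⟨u, ?_⟩, hu⟩
    change InW k N i θ (runB_psi L u)
    rw [hu]
    exact hx.1
  choose! g hg using hrep
  obtain ⟨x, hx⟩ := runB_abs s
    (fun a ha => by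
      apply hinj
      have h1 : σ (runB_psi L (a : (𝓞 L)ˣ)) = runB_psi L (a : (𝓞 L)ˣ) := by
        rw [← hsv, ha]
      rw [unit_fixed hk hN hθ hi hi2 σ hσ (hInU a) h1]
      exact (map_one (runB_psi L)).symm) η n hn0
    (fun j => by
      apply hinj
      rw [hsv, hηv, hηv, map_pow, pow_succ' σ, AlgEquiv.mul_apply])
    (by
      apply hinj
      rw [hηv, hηv]
      have h1 : σ ^ n = 1 := by
        rw [hn, ← IsGalois.card_aut_eq_finrank k L]
        exact pow_card_eq_one'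
      rw [h1, pow_zero])
    (fun c hc1 j hj => by
      have h1 := hprod c
      rw [hc1] at h1
      have h2 := hrel (fun j => (m : ℤ) * c j) (by
        rw [← h1]
        exact map_one (runB_psi L)) j hj
      have hm' : (m : ℤ) ≠ 0 := by exact_mod_cast hm.ne'
      exact mul_left_cancel₀ hm' h2)
    (h * m) (Nat.mul_pos hh hm)
    (fun u => by
      obtain ⟨c, hc1⟩ := hexp (runB_psi L (u : (𝓞 L)ˣ))
        (NumberField.Units.coe_ne_zero (u : (𝓞 L)ˣ)) (hInU u).2.1 (hInU u).2.2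
      refine ⟨c, ?_⟩
      apply hinj
      rw [hprod, Subgroup.coe_pow, map_pow, pow_mul, hc1, ← Finset.prod_pow]
      refine Finset.prod_congr rfl fun j _ => ?_
      rw [← zpow_natCast, ← zpow_mul, mul_comm])
    (R.image g) (lt_of_le_of_lt Finset.card_image_le hc)
  refine ⟨runB_psi L (x : (𝓞 L)ˣ), hInU x, fun r hr e he hcon => ?_⟩
  refine hx (g r) (Finset.mem_image_of_mem g hr) (g e) ?_
  apply hinj
  rw [Subgroup.coe_mul, Subgroup.coe_div, map_mul, map_div, hsv, hg r (hR r hr), hg e he]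
  exact hcon

end Pool.Agent.CMR
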