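import Pool.Agent.CMR.RGrp
import Pool.Agent.CMR.ROrb
import Pool.Agent.CMR.RUnB

/-!
# R-IDX the first inequality over imaginary quadratic fields

`exists_lat`: `t, θ`; `i = t + 2`, `a = i + t`. `first_ineq` with `A` = the subgroup `{x : InW k N i θ x}` of `Lˣ`, `sA = σ`, `I = PrmT L N →₀ ℤ`, `sI = mapDomain (actP σ)`, `v = vdiv N`, `n = m = finrank k L`. `h1`: `exists_isCls` for the field `L` and modulus `N^a` gives a finite set `G`; `D = idiv 𝔄 - idiv 𝔅`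
(`exists_idiv_sub`), `exists_REq_inv` (modulo `N^a`; prime to `N` iff prime to `N^a`): `α 𝔅𝔅' = (β)`, so `-idiv 𝔅 = idiv 𝔅' + v(α) - v(β)`, `α, β ∈ W` (`inW_of_congr`), `D ≡ idiv (𝔄𝔅') ≡ idiv 𝔤` with `𝔤 ∈ G`. `h2`: `perm_hilbert`. `h3`: `inW_hilbert`. `h4`: `unit_fixed` with `int_of_vdiv`, `InW.unit`.
`h5`: `unit_index` (elements with `v = 0` are in `InU` by `int_of_vdiv`, and conversely `vdiv_int`). Given `R`: apply it to the image of `R` under `𝔯 ↦ idiv N (𝔯 𝓞_L)` (fixed by `sI`: it is the divisor of an ideal which is invariant under `σ`). We get `D` with `sI D = D`; `fixed_div`: `D = idiv(𝔞𝓞_L) - idiv(𝔟𝓞_L)`; `𝔟𝔟' α = (β)` with `α, β ∈ 𝓞 k`, `≡ 1` mod `N^a`: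
`D = idiv(𝔞𝔟'𝓞_L) + v(α/β)`, `α/β ∈ W` fixed by `σ`. `𝔠 = 𝔞𝔟'`. If `α' 𝔠 = β' 𝔯 𝔡` and `𝔡 = ∏ (𝔓_j ∩ k)` is in `IsNm`, then `idiv(𝔡𝓞_L) = ∑_{i<n} sI^i (∑_j single 𝔓_j)` (`norm_div`), so `D = idiv(𝔯𝓞_L) + v(…) + ∑ sI^i y`, a contradiction.
-/

set_option autoImplicit false

noncomputable section

open NumberField Pool.Agent.StarkRQ
open scoped Pointwise

namespace Pool.Agent.CMR

private theorem ri_prm_pow {F : Type} [Field F] [NumberField F] {N : ℕ} (a : ℕ)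
    {𝔞 : Ideal (𝓞 F)} (h : Prm N 𝔞) : Prm (N ^ a) 𝔞 := by
  rw [prm_iff] at h ⊢
  exact h.pow_right a

private theorem ri_vdiv_one {L : Type} [Field L] [NumberField L] {N : ℕ} :
    vdiv N (1 : L) = 0 := by
  have h := vdiv_mul (N := N) (x := (1 : L)) (y := 1) one_ne_zero one_ne_zero
  rw [mul_one] at h
  have h2 : vdiv N (1 : L) + 0 = vdiv N (1 : L) + vdiv N (1 : L) := by rw [add_zero]; exact h
  exact (add_left_cancel h2).symm

private theorem ri_vdiv_inv {L : Type} [Field L] [NumberField L] {N : ℕ} {x : L} (hx : x ≠ 0) :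
    vdiv N x⁻¹ = - vdiv N x := by
  have h := vdiv_mul (N := N) hx (inv_ne_zero hx)
  rw [mul_inv_cancel₀ hx, ri_vdiv_one] at h
  exact (neg_eq_of_add_eq_zero_right h.symm).symm

private theorem ri_vdiv_div {L : Type} [Field L] [NumberField L] {N : ℕ} {x y : L} (hx : x ≠ 0)
    (hy : y ≠ 0) : vdiv N (x / y) = vdiv N x - vdiv N y := by
  rw [div_eq_mul_inv, vdiv_mul hx (inv_ne_zero hy), ri_vdiv_inv hy, sub_eq_add_neg]

section

variable {k L : Type} [Field k] [NumberField k] [Field L] [NumberField L] [Algebra k L]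
  [IsGalois k L] {N t i : ℕ} {θ : L}

omit [IsGalois k L] in
private theorem ri_one : InW k N i θ 1 := by
  refine ⟨0, ⟨fun _ => 0, fun _ => ?_, ?_⟩, by simp⟩
  · exact ⟨1, Nat.coprime_one_left N, by simpa using isIntegral_zero⟩
  · simp

/-- equivalent ideals have equivalent divisors -/
private theorem ri_req (hN : 2 ≤ N) (hθ : IsLat k N t θ) (hi : t < i) {𝔄 𝔅 : Ideal (𝓞 L)}
    (hA : 𝔄 ≠ ⊥) (hB : 𝔅 ≠ ⊥) (h : REq (N ^ (i + t)) 𝔄 𝔅) :
    ∃ w : L, InW k N i θ w ∧ idiv N 𝔄 = idiv N 𝔅 + vdiv N w := by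
  obtain ⟨a, b, ha0, hb0, ha, hb, e⟩ := h
  have ha' : InW k N i θ (a : L) := inW_of_congr hN hθ ha
  have hb' : InW k N i θ (b : L) := inW_of_congr hN hθ hb
  have ha1 : (a : L) ≠ 0 := (RingOfIntegers.coe_eq_zero_iff).not.2 ha0
  have hb1 : (b : L) ≠ 0 := (RingOfIntegers.coe_eq_zero_iff).not.2 hb0
  refine ⟨(b : L) / a, ?_, ?_⟩
  · rw [div_eq_mul_inv]
    exact InW.mul hN hθ hi hb' (InW.inv hN hθ hi ha')
  · have h1 := congrArg (idiv N) e
    rw [idiv_mul (by rwa [Ne, Ideal.span_singleton_eq_bot]) hA,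
      idiv_mul (by rwa [Ne, Ideal.span_singleton_eq_bot]) hB, ← vdiv_coe ha0, ← vdiv_coe hb0] at h1
    rw [ri_vdiv_div hb1 ha1]
    have h2 : idiv N 𝔄 = (vdiv N (a : L) + idiv N 𝔄) - vdiv N (a : L) := by abel
    rw [h2, h1]
    abel

omit [NumberField k] [NumberField L] [IsGalois k L] in
private theorem ri_map_ne {𝔞 : Ideal (𝓞 k)} (h : 𝔞 ≠ ⊥) :
    𝔞.map (algebraMap (𝓞 k) (𝓞 L)) ≠ ⊥ := by
  rwa [Ne, Ideal.map_eq_bot_iff_of_injective
    (FaithfulSMul.algebraMap_injective (𝓞 k) (𝓞 L))]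

/-- the same for ideals of the base field -/
private theorem ri_req_base (hN : 2 ≤ N) (hθ : IsLat k N t θ) (hi : t < i) (σ : Gal(L/k))
    {𝔞 𝔟 : Ideal (𝓞 k)} (hA : 𝔞 ≠ ⊥) (hB : 𝔟 ≠ ⊥) (h : REq (N ^ (i + t)) 𝔞 𝔟) :
    ∃ w : L, InW k N i θ w ∧ σ w = w ∧ idiv N (𝔞.map (algebraMap (𝓞 k) (𝓞 L))) =
      idiv N (𝔟.map (algebraMap (𝓞 k) (𝓞 L))) + vdiv N w := by
  obtain ⟨a, b, ha0, hb0, ha, hb, e⟩ := h
  have hinj := FaithfulSMul.algebraMap_injective (𝓞 k) (𝓞 L)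
  set f := algebraMap (𝓞 k) (𝓞 L) with hf
  have hcong : ∀ x : 𝓞 k, ((N ^ (i + t) : ℕ) : 𝓞 k) ∣ x - 1 →
      ((N ^ (i + t) : ℕ) : 𝓞 L) ∣ f x - 1 := by
    intro x hx
    have h1 := map_dvd f hx
    rwa [map_natCast, map_sub, map_one] at h1
  have ha' : InW k N i θ (f a : L) := inW_of_congr hN hθ (hcong a ha)
  have hb' : InW k N i θ (f b : L) := inW_of_congr hN hθ (hcong b hb)
  have fa0 : f a ≠ 0 := (map_ne_zero_iff f hinj).2 ha0
  have fb0 : f b ≠ 0 := (map_ne_zero_iff f hinj).2 hb0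
  have ha1 : (f a : L) ≠ 0 := (RingOfIntegers.coe_eq_zero_iff).not.2 fa0
  have hb1 : (f b : L) ≠ 0 := (RingOfIntegers.coe_eq_zero_iff).not.2 fb0
  have hfix : ∀ x : 𝓞 k, σ (f x : L) = (f x : L) := by
    intro x
    have h1 : ((f x : 𝓞 L) : L) = algebraMap k L (x : k) := rfl
    rw [h1]
    exact σ.commutes _
  refine ⟨(f b : L) / f a, ?_, ?_, ?_⟩
  · rw [div_eq_mul_inv]
    exact InW.mul hN hθ hi hb' (InW.inv hN hθ hi ha')
  · rw [map_div₀, hfix, hfix]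
  · have e' := congrArg (Ideal.map f) e
    rw [Ideal.map_mul, Ideal.map_mul, Ideal.map_span, Ideal.map_span, Set.image_singleton,
      Set.image_singleton] at e'
    have h1 := congrArg (idiv N) e'
    rw [idiv_mul (by rwa [Ne, Ideal.span_singleton_eq_bot]) (ri_map_ne hA),
      idiv_mul (by rwa [Ne, Ideal.span_singleton_eq_bot]) (ri_map_ne hB), ← vdiv_coe fa0,
      ← vdiv_coe fb0] at h1
    rw [ri_vdiv_div hb1 ha1]
    have h2 : idiv N (𝔞.map f) = (vdiv N (f a : L) + idiv N (𝔞.map f)) - vdiv N (f a : L) := by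
      abel
    rw [h2, h1]
    abel

omit [IsGalois k L] in
/-- the divisor of an extended ideal is fixed -/
private theorem ri_fixed (σ : Gal(L/k)) {𝔯 : Ideal (𝓞 k)} (h : 𝔯 ≠ ⊥) :
    Finsupp.mapDomain (actP σ) (idiv N (𝔯.map (algebraMap (𝓞 k) (𝓞 L)))) =
      idiv N (𝔯.map (algebraMap (𝓞 k) (𝓞 L))) := by
  set f := algebraMap (𝓞 k) (𝓞 L) with hf
  have hinj := FaithfulSMul.algebraMap_injective (𝓞 k) (𝓞 L)
  have hmem : 𝔯 ∈ nonZeroDivisors (Ideal (𝓞 k)) := mem_nonZeroDivisors_of_ne_zero h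
  set c := Fintype.card (ClassGroup (𝓞 k)) with hc
  have hc0 : c ≠ 0 := Fintype.card_ne_zero
  have h1 : ClassGroup.mk0 (⟨𝔯, hmem⟩ ^ c) = 1 := by
    rw [map_pow]
    exact pow_card_eq_one
  rw [ClassGroup.mk0_eq_one_iff] at h1
  obtain ⟨b, hb⟩ := h1
  have hb' : 𝔯 ^ c = Ideal.span {b} := by
    rw [SubmonoidClass.coe_pow] at hb
    exact hb
  have hb0 : b ≠ 0 := by
    rintro rfl
    rw [Ideal.span_singleton_zero] at hb'
    exact pow_ne_zero c h hb'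
  have hpow : ∀ m : ℕ, idiv N ((𝔯.map f) ^ m) = m • idiv N (𝔯.map f) := by
    intro m
    induction m with
    | zero => rw [pow_zero, zero_smul, Ideal.one_eq_top, idiv_top]
    | succ m ih => rw [pow_succ, idiv_mul (pow_ne_zero m (ri_map_ne h)) (ri_map_ne h), ih, succ_nsmul]
  have fb0 : f b ≠ 0 := (map_ne_zero_iff f hinj).2 hb0
  have hb1 : (f b : L) ≠ 0 := (RingOfIntegers.coe_eq_zero_iff).not.2 fb0
  have h2 : c • idiv N (𝔯.map f) = vdiv N (f b : L) := by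
    rw [← hpow, ← Ideal.map_pow, hb', Ideal.map_span, Set.image_singleton, vdiv_coe fb0]
  have hfix : σ (f b : L) = (f b : L) := by
    have h1 : ((f b : 𝓞 L) : L) = algebraMap k L (b : k) := rfl
    rw [h1]
    exact σ.commutes _
  have h3 := vdiv_act (N := N) σ hb1
  rw [hfix, ← h2] at h3
  have h4 : Finsupp.mapDomain (actP σ) (c • idiv N (𝔯.map f)) =
      c • Finsupp.mapDomain (actP σ) (idiv N (𝔯.map f)) :=
    map_nsmul (Finsupp.mapDomain.addMonoidHom (actP σ)) c _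
  rw [h4] at h3
  exact (smul_right_injective _ hc0 h3).symm

end

/-- the first inequality of class field theory over imaginary quadratic fields -/
theorem exists_index {k L : Type} [Field k] [NumberField k] (hk : IsIQ k) [Field L] [NumberField L]
    [Algebra k L] [IsGalois k L] (σ : Gal(L/k)) (hσ : ∀ τ : Gal(L/k), τ ∈ Subgroup.zpowers σ)
    {N : ℕ} (hN : 2 ≤ N) (hu : Unr k L N) :
    ∃ a : ℕ, 1 ≤ a ∧ ∀ R : Finset (Ideal (𝓞 k)), (∀ 𝔯 ∈ R, 𝔯 ≠ ⊥ ∧ Prm N 𝔯) →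
      R.card < Module.finrank k L →
      ∃ 𝔠 : Ideal (𝓞 k), 𝔠 ≠ ⊥ ∧ Prm N 𝔠 ∧ ∀ 𝔯 ∈ R, ∀ 𝔡 : Ideal (𝓞 k), IsNm L N 𝔡 →
        ¬ REq (N ^ a) 𝔠 (𝔯 * 𝔡) := by
  classical
  obtain ⟨t, θ, hθ⟩ := exists_lat (k := k) (L := L) hN
  obtain ⟨i, hi⟩ : ∃ i, i = t + 2 := ⟨_, rfl⟩
  have hi1 : t < i := by omega
  have hi2 : 3 ≤ N ^ i := by
    calc 3 ≤ 2 ^ 2 := by norm_num
      _ ≤ 2 ^ i := Nat.pow_le_pow_right (by norm_num) (by omega)
      _ ≤ N ^ i := Nat.pow_le_pow_left hN i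
  obtain ⟨n, hn⟩ : ∃ n, n = Module.finrank k L := ⟨_, rfl⟩
  have hn0 : 0 < n := hn ▸ Module.finrank_pos
  have hσn : σ ^ n = 1 := by
    rw [hn, ← IsGalois.card_aut_eq_finrank]
    exact pow_card_eq_one'
  have hNa : N ^ (i + t) ≠ 0 := pow_ne_zero _ (by omega)
  refine ⟨i + t, by omega, fun R hR hc => ?_⟩
  -- the group
  let W : Subgroup Lˣ :=
    { carrier := {x | InW k N i θ (x : L)}
      mul_mem' := fun {a b} ha hb => by
        have := InW.mul hN hθ hi1 ha hb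
        simpa using this
      one_mem' := by
        change InW k N i θ ((1 : Lˣ) : L)
        rw [Units.val_one]
        exact ri_one
      inv_mem' := fun {a} ha => by
        have := InW.inv hN hθ hi1 ha
        simpa using this }
  have hW : ∀ x : L, InW k N i θ x → ∃ w : W, ((w : Lˣ) : L) = x := fun x hx =>
    ⟨⟨Units.mk0 x (InW.unit hN hθ hi1 hx).1, hx⟩, rfl⟩
  let sA : W →* W :=
    { toFun := fun w => ⟨Units.map (σ : L →* L) w.1, InW.map σ w.2⟩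
      map_one' := Subtype.ext (map_one _)
      map_mul' := fun a b => Subtype.ext (map_mul _ _ _) }
  have hsA : ∀ w : W, (((sA w : W) : Lˣ) : L) = σ ((w : Lˣ) : L) := fun w => rfl
  have hsAi : ∀ (j : ℕ) (w : W), (((sA^[j] w : W) : Lˣ) : L) = (σ ^ j) ((w : Lˣ) : L) := by
    intro j
    induction j with
    | zero => intro w; rfl
    | succ j ih =>
      intro w
      rw [Function.iterate_succ_apply, ih, hsA, pow_succ, AlgEquiv.mul_apply]
  let sI : (PrmT L N →₀ ℤ) →+ (PrmT L N →₀ ℤ) := Finsupp.mapDomain.addMonoidHom (actP σ)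
  have hsI : ∀ D, sI D = Finsupp.mapDomain (actP σ) D := fun D => rfl
  have hact : ∀ (j : ℕ) (𝔓 : PrmT L N), ((actP σ)^[j] 𝔓).1 = σ ^ j • 𝔓.1 := by
    intro j
    induction j with
    | zero => intro 𝔓; rw [pow_zero, one_smul]; rfl
    | succ j ih =>
      intro 𝔓
      rw [Function.iterate_succ_apply, ih, actP_val, pow_succ, mul_smul]
  have hactn : ∀ 𝔓 : PrmT L N, (actP σ)^[n] 𝔓 = 𝔓 := by
    intro 𝔓
    apply Subtype.ext
    rw [hact, hσn, one_smul]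
  have hsIi : ∀ (j : ℕ) (D : PrmT L N →₀ ℤ), sI^[j] D = Finsupp.mapDomain ((actP σ)^[j]) D := by
    intro j
    induction j with
    | zero => intro D; rw [Function.iterate_zero, Function.iterate_zero, id, Finsupp.mapDomain_id]
    | succ j ih =>
      intro D
      rw [Function.iterate_succ_apply, ih, hsI, ← Finsupp.mapDomain_comp,
        ← Function.iterate_succ]
  let v : W → (PrmT L N →₀ ℤ) := fun w => vdiv N ((w : Lˣ) : L)
  have hv : ∀ x y : W, v (x * y) = v x + v y := fun x y =>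
    vdiv_mul (Units.ne_zero _) (Units.ne_zero _)
  have hvs : ∀ x : W, v (sA x) = sI (v x) := fun x => vdiv_act σ (Units.ne_zero _)
  have hU : ∀ x : W, v x = 0 → InU k N i θ ((x : Lˣ) : L) := by
    intro x hx
    obtain ⟨h0, h1, h2⟩ := InW.unit hN hθ hi1 x.2
    exact ⟨x.2, int_of_vdiv hN h0 h1 h2 hx⟩
  obtain ⟨D, hD, hD'⟩ := first_ineq (n := n) hn0 sA sI
    (fun x => by
      apply Subtype.ext
      apply Units.ext
      rw [hsAi, hσn, AlgEquiv.one_apply])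
    (fun x => by
      rw [hsIi]
      have h : (actP σ)^[n] = (id : PrmT L N → PrmT L N) := funext hactn
      rw [h, Finsupp.mapDomain_id])
    v hv hvs
    (by
      obtain ⟨G, hG⟩ := exists_isCls (k := L) hNa
      refine ⟨G.image (idiv N), fun D => ?_⟩
      obtain ⟨𝔄, 𝔅, hA, hB, hAp, hBp, rfl⟩ := exists_idiv_sub D
      obtain ⟨𝔅', hB', hB'p, hreq⟩ := exists_REq_inv hNa hB (ri_prm_pow _ hBp)
      obtain ⟨𝔤, h𝔤, hreq2⟩ := hG.ex (𝔄 * 𝔅') (mul_ne_zero hA hB')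
        ((prm_mul_iff _ _).2 ⟨ri_prm_pow _ hAp, hB'p⟩)
      obtain ⟨w, hw, e1⟩ := ri_req hN hθ hi1 (mul_ne_zero hB hB') top_ne_bot hreq
      obtain ⟨w', hw', e2⟩ := ri_req hN hθ hi1 (mul_ne_zero hA hB') (hG.ne _ h𝔤) hreq2
      rw [idiv_mul hB hB', idiv_top, zero_add] at e1
      rw [idiv_mul hA hB'] at e2
      obtain ⟨a, ha⟩ := hW (w' / w) (by
        rw [div_eq_mul_inv]
        exact InW.mul hN hθ hi1 hw' (InW.inv hN hθ hi1 hw))
      refine ⟨idiv N 𝔤, Finset.mem_image_of_mem _ h𝔤, a, ?_⟩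
      change _ = _ + vdiv N ((a : Lˣ) : L)
      rw [ha, ri_vdiv_div (InW.unit hN hθ hi1 hw').1 (InW.unit hN hθ hi1 hw).1, ← e1]
      have e3 : vdiv N w' = idiv N 𝔄 + idiv N 𝔅' - idiv N 𝔤 := by rw [e2]; abel
      rw [e3]
      abel)
    (fun D hD => perm_hilbert (actP σ) hn0 hactn D hD)
    (fun x hx => by
      have h1 : ∏ j ∈ Finset.range (Module.finrank k L), (σ ^ j) ((x : Lˣ) : L) = 1 := by
        have h2 := congrArg (fun w : W => ((w : Lˣ) : L)) hx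
        simp only [Subgroup.val_finsetProd, Units.coe_prod, OneMemClass.coe_one,
          Units.val_one, hsAi] at h2
        rw [← hn]
        exact h2
      obtain ⟨y, hy, e⟩ := inW_hilbert hN hθ hi1 σ hσ x.2 h1
      obtain ⟨w, hw⟩ := hW y hy
      refine ⟨w, Subtype.ext (Units.ext ?_)⟩
      rw [e, ← hw]
      simp [hsA])
    (fun x hx hx' => by
      apply Subtype.ext
      apply Units.ext
      have h1 : σ ((x : Lˣ) : L) = ((x : Lˣ) : L) := by rw [← hsA, hx']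
      exact unit_fixed hk hN hθ hi1 hi2 σ hσ (hU x hx) h1)
    (m := n)
    (fun S hS hSc => by
      obtain ⟨x, hx, h⟩ := unit_index hk hN hθ hi1 hi2 σ hσ
        (S.image fun w : W => ((w : Lˣ) : L)) (by
          intro r hr
          obtain ⟨w, hw, rfl⟩ := Finset.mem_image.1 hr
          exact hU w (hS w hw)) (by
          rw [← hn]
          exact Finset.card_image_le.trans_lt hSc)
      obtain ⟨w, hw⟩ := hW x hx.1
      refine ⟨w, ?_, ?_⟩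
      · change vdiv N ((w : Lˣ) : L) = 0
        rw [hw]
        exact vdiv_int (InW.unit hN hθ hi1 hx.1).1 hx.2.1 hx.2.2
      · intro r hr e he heq
        refine h _ (Finset.mem_image_of_mem _ hr) ((e : Lˣ) : L) (hU e he) ?_
        rw [← hw, heq]
        simp [hsA])
    (R.image fun 𝔯 => idiv N (𝔯.map (algebraMap (𝓞 k) (𝓞 L))))
    (by
      intro r hr
      obtain ⟨𝔯, h𝔯, rfl⟩ := Finset.mem_image.1 hr
      exact ri_fixed σ (hR 𝔯 h𝔯).1)
    (by rw [← hn] at hc; exact Finset.card_image_le.trans_lt hc)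
  obtain ⟨𝔞, 𝔟, ha, hb, hap, hbp, rfl⟩ := fixed_div hu hN σ hσ D hD
  obtain ⟨𝔟', hb', hb'p, hreq⟩ := exists_REq_inv hNa hb (ri_prm_pow _ hbp)
  refine ⟨𝔞 * 𝔟', mul_ne_zero ha hb', (prm_mul_iff _ _).2 ⟨hap, hb'p.of_dvd
    (dvd_pow_self N (by omega))⟩, ?_⟩
  intro 𝔯 h𝔯 𝔡 h𝔡 hreq2
  have hnm : ∀ l : List (Ideal (𝓞 k)), (∀ 𝔭 ∈ l, ∃ 𝔓 : Ideal (𝓞 L), 𝔓.IsPrime ∧ 𝔓 ≠ ⊥ ∧
      Prm N 𝔓 ∧ 𝔓.comap (algebraMap (𝓞 k) (𝓞 L)) = 𝔭 ∧ Ideal.absNorm 𝔓 = Ideal.absNorm 𝔭) →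
      l.prod ≠ ⊥ ∧ ∃ y : PrmT L N →₀ ℤ, idiv N (l.prod.map (algebraMap (𝓞 k) (𝓞 L))) =
        ∑ j ∈ Finset.range n, sI^[j] y := by
    intro l
    induction l with
    | nil =>
      intro _
      refine ⟨by simp, 0, ?_⟩
      rw [List.prod_nil, Ideal.one_eq_top, Ideal.map_top, idiv_top]
      refine (Finset.sum_eq_zero fun j _ => ?_).symm
      rw [hsIi, Finsupp.mapDomain_zero]
    | cons 𝔭 l ih =>
      intro hl
      obtain ⟨h1, y, hy⟩ := ih fun 𝔮 h𝔮 => hl 𝔮 (List.mem_cons_of_mem _ h𝔮)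
      obtain ⟨𝔓, hP, hP0, hPp, hc1, hc2⟩ := hl 𝔭 List.mem_cons_self
      have h𝔭 : 𝔭 ≠ ⊥ := by
        intro h
        rw [h] at hc1
        exact hP0 (Ideal.eq_bot_of_comap_eq_bot hc1)
      have h3 := norm_div hu hN σ hσ ⟨𝔓, hP, hP0, hPp⟩ (by rw [hc1]; exact hc2)
      rw [hc1] at h3
      refine ⟨by rw [List.prod_cons]; exact mul_ne_zero h𝔭 h1,
        Finsupp.single ⟨𝔓, hP, hP0, hPp⟩ 1 + y, ?_⟩
      rw [List.prod_cons, Ideal.map_mul, idiv_mul (ri_map_ne h𝔭) (ri_map_ne h1), hy, ← h3, ← hn,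
        ← Finset.sum_add_distrib]
      refine Finset.sum_congr rfl fun j _ => ?_
      have h5 : sI^[j] (Finsupp.single ⟨𝔓, hP, hP0, hPp⟩ 1 + y) =
          sI^[j] (Finsupp.single ⟨𝔓, hP, hP0, hPp⟩ 1) + sI^[j] y := by
        rw [hsIi, hsIi, hsIi, Finsupp.mapDomain_add]
      rw [h5]
      rfl
  obtain ⟨l, rfl, hl⟩ := h𝔡
  obtain ⟨hl0, y, hy⟩ := hnm l hl
  obtain ⟨w, hw, hws, e1⟩ := ri_req_base hN hθ hi1 σ (mul_ne_zero hb hb') top_ne_bot hreq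
  obtain ⟨w', hw', hws', e2⟩ := ri_req_base hN hθ hi1 σ (mul_ne_zero ha hb')
    (mul_ne_zero (hR 𝔯 h𝔯).1 hl0) hreq2
  rw [Ideal.map_mul, idiv_mul (ri_map_ne hb) (ri_map_ne hb'), Ideal.map_top, idiv_top,
    zero_add] at e1
  rw [Ideal.map_mul, Ideal.map_mul, idiv_mul (ri_map_ne ha) (ri_map_ne hb'),
    idiv_mul (ri_map_ne (hR 𝔯 h𝔯).1) (ri_map_ne hl0), hy] at e2
  obtain ⟨a, haw⟩ := hW (w' / w) (by
    rw [div_eq_mul_inv]
    exact InW.mul hN hθ hi1 hw' (InW.inv hN hθ hi1 hw))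
  refine hD' _ (Finset.mem_image_of_mem _ h𝔯) a y ?_ ?_
  · apply Subtype.ext
    apply Units.ext
    rw [hsA, haw, map_div₀, hws, hws']
  · change _ = _ + vdiv N ((a : Lˣ) : L) + _
    rw [haw, ri_vdiv_div (InW.unit hN hθ hi1 hw').1 (InW.unit hN hθ hi1 hw).1, ← e1]
    have e3 : idiv N (𝔞.map (algebraMap (𝓞 k) (𝓞 L))) =
        (idiv N (𝔞.map (algebraMap (𝓞 k) (𝓞 L))) + idiv N (𝔟'.map (algebraMap (𝓞 k) (𝓞 L)))) -
          idiv N (𝔟'.map (algebraMap (𝓞 k) (𝓞 L))) := by abel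
    rw [e3, e2]
    abel

end Pool.Agent.CMR
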