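import Pool.Agent.CMR.RUni
import Pool.Agent.CMR.GVal
import Pool.Agent.CMR.RDefs

/-!
# R-INJ torsion values determine the ray class

Let `L₁ = LatI 𝔤`, `L₂ = LatI 𝔥` (lattices `𝔤⁻¹`, `𝔥⁻¹`), `p_j(a) = ℘[L_j](a/n)`. `p_j(2) ≠ p_j(1)` (`1/n`, `2/n` are not in `L_j` and `2/n ± 1/n ∉ L_j`: `ptt_mem_iff`, `P_eq_iff`), so `p₂(a) = α p₁(a) + β` for all `a` not divisible by `n`, with `α = (p₂(2)-p₂(1))/(p₁(2)-p₁(1)) ≠ 0`.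
The points `b/2 = (n/2)b/n`, `b ∈ 𝓞 k`, represent all `2`-torsion points of `ℂ/L_j` (`𝔤` is prime to `2`: for `x ∈ 𝔤⁻¹` there is `b ∈ 𝓞 k` with `x - b ∈ 2𝔤⁻¹`: take `g ∈ 𝔤`, `g ≡ 1` mod `2`, `b = g x`). So for `b₁, b₂, b₃` representing the nonzero classes of `𝓞 k/2` (`b₁ = 1`, `ω`, `1 + ω` for a basis) `e_j(b_i) = p_j((n/2)b_i)`,
`i = 1, 2, 3`, are the three different roots of `4x³ - g₂(L_j)x - g₃(L_j)` (`℘'` vanishes at `2`-torsion points, `derivWeierstrassP_sq`), so their sum is `0`: `3β = 0`, `β = 0`; and `g₂(L₂) = α²g₂(L₁)`, `g₃(L₂) = α³g₃(L₁)` (elementary symmetric functions). Choose `c` with `c² = α⁻¹`. For the period pair `c L₁`: `g₂(cL₁) = c⁻⁴g₂(L₁) = g₂(L₂)`,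
`g₃(cL₁) = c⁻⁶g₃(L₁) = g₃(L₂)`, so `c L₁ = L₂` (`lattice_eq_of_g`), and `℘[L₂](cz) = c⁻²℘[L₁](z) = α℘[L₁](z)` (`P_homothety`), in particular `℘[L₂](c/n) = α p₁(1) = p₂(1)`, so `c/n ≡ ±1/n` mod `L₂` (`P_eq_iff`); replace `c` by `-c` if necessary: `c/n - 1/n ∈ L₂ = 𝔥⁻¹`. So `c ∈ k` (image), `c - 1 ∈ n𝔥⁻¹` and
`c 𝔤⁻¹ = 𝔥⁻¹`, i.e. `c𝔥 = 𝔤`. Choose `a ∈ 𝔥` with `a ≡ 1` mod `n` (`𝔥` prime to `n`), `a ≠ 0` (if `a = 0`, add an element of `n𝔥`; `n ≥ 2` shows `a ≠ 0` anyway), `b = ca ∈ c𝔥 = 𝔤`; `b - a = (c-1)a ∈ n𝔥⁻¹𝔥 ⊆ n𝓞 k`, so `b ≡ 1`. `(a)𝔤 = (a)c𝔥 = (b)𝔥`: this is `REq n 𝔤 𝔥`.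
-/

set_option autoImplicit false

noncomputable section

open NumberField Pool.Agent.StarkRQ
open scoped PeriodPair

namespace Pool.Agent.CMR

open Pool.Agent.CMG in
/-- `℘` at a point of order two -/
private theorem ri_root (L : PeriodPair) {u : ℂ} (hu : u ∉ L.lattice) (h2 : 2 * u ∈ L.lattice) :
    4 * ℘[L] u ^ 3 - L.g₂ * ℘[L] u - L.g₃ = 0 := by
  have h := L.derivWeierstrassP_sq u hu
  rw [(P'_eq_zero_iff L hu).2 h2] at h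
  rw [← h]
  ring

private theorem ri_sym {e₁ e₂ e₃ g2 g3 : ℂ} (h1 : 4 * e₁ ^ 3 - g2 * e₁ - g3 = 0)
    (h2 : 4 * e₂ ^ 3 - g2 * e₂ - g3 = 0) (h3 : 4 * e₃ ^ 3 - g2 * e₃ - g3 = 0) (h12 : e₁ ≠ e₂)
    (h13 : e₁ ≠ e₃) (h23 : e₂ ≠ e₃) : e₁ + e₂ + e₃ = 0 ∧
      g2 = -4 * (e₁ * e₂ + e₁ * e₃ + e₂ * e₃) ∧ g3 = 4 * (e₁ * e₂ * e₃) := by
  have a1 : 4 * (e₁ ^ 2 + e₁ * e₂ + e₂ ^ 2) - g2 = 0 := by
    refine (mul_eq_zero.1 (?_ : (e₁ - e₂) * (4 * (e₁ ^ 2 + e₁ * e₂ + e₂ ^ 2) - g2) = 0)).resolve_left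
      (sub_ne_zero.2 h12)
    linear_combination h1 - h2
  have a2 : 4 * (e₁ ^ 2 + e₁ * e₃ + e₃ ^ 2) - g2 = 0 := by
    refine (mul_eq_zero.1 (?_ : (e₁ - e₃) * (4 * (e₁ ^ 2 + e₁ * e₃ + e₃ ^ 2) - g2) = 0)).resolve_left
      (sub_ne_zero.2 h13)
    linear_combination h1 - h3
  have a3 : e₁ + e₂ + e₃ = 0 := by
    refine (mul_eq_zero.1 (?_ : (4 * (e₂ - e₃)) * (e₁ + e₂ + e₃) = 0)).resolve_left
      (mul_ne_zero (by norm_num) (sub_ne_zero.2 h23))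
    linear_combination a1 - a2
  have a4 : e₃ = -e₁ - e₂ := by linear_combination a3
  refine ⟨a3, ?_, ?_⟩
  · rw [a4]
    linear_combination -a1
  · rw [a4]
    linear_combination -h1 + e₁ * a1

/-- the lattice `c L` -/
private theorem ri_scale (L : PeriodPair) {c : ℂ} (hc : c ≠ 0) :
    ∃ L' : PeriodPair, ∀ z, c * z ∈ L'.lattice ↔ z ∈ L.lattice := by
  have hi : LinearIndependent ℝ ![c * L.ω₁, c * L.ω₂] := by
    rw [LinearIndependent.pair_iff]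
    intro s t h
    refine LinearIndependent.pair_iff.1 L.indep s t ?_
    have h1 : c * (s • L.ω₁ + t • L.ω₂) = 0 := by
      rw [← h]
      simp only [Complex.real_smul]
      ring
    exact (mul_eq_zero.1 h1).resolve_left hc
  refine ⟨⟨c * L.ω₁, c * L.ω₂, hi⟩, fun z => ?_⟩
  rw [PeriodPair.mem_lattice, PeriodPair.mem_lattice]
  constructor
  · rintro ⟨a, b, h⟩
    refine ⟨a, b, mul_left_cancel₀ hc ?_⟩
    rw [← h]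
    ring
  · rintro ⟨a, b, h⟩
    refine ⟨a, b, ?_⟩
    rw [← h]
    ring

section

variable {k : Type} [Field k] [NumberField k]

/-- three nonzero classes modulo `2` -/
private theorem ri_basis (hk : IsIQ k) : ∃ b₁ b₂ b₃ : 𝓞 k, ¬ (2 : 𝓞 k) ∣ b₁ ∧ ¬ (2 : 𝓞 k) ∣ b₂ ∧
    ¬ (2 : 𝓞 k) ∣ b₃ ∧ ¬ (2 : 𝓞 k) ∣ b₁ - b₂ ∧ ¬ (2 : 𝓞 k) ∣ b₁ + b₂ ∧ ¬ (2 : 𝓞 k) ∣ b₁ - b₃ ∧
    ¬ (2 : 𝓞 k) ∣ b₁ + b₃ ∧ ¬ (2 : 𝓞 k) ∣ b₂ - b₃ ∧ ¬ (2 : 𝓞 k) ∣ b₂ + b₃ := by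
  have hr : Module.finrank ℤ (𝓞 k) = 2 := by
    rw [RingOfIntegers.rank, hk.finrank_eq]
  let B : Module.Basis (Fin 2) ℤ (𝓞 k) := Module.finBasisOfFinrankEq ℤ (𝓞 k) hr
  have key : ∀ x : 𝓞 k, (2 : 𝓞 k) ∣ x → ∀ i, (2 : ℤ) ∣ B.repr x i := by
    rintro _ ⟨y, rfl⟩ i
    have h1 : (2 : 𝓞 k) * y = (2 : ℤ) • y := by
      rw [two_mul, two_smul]
    rw [h1, map_smul, Finsupp.smul_apply, smul_eq_mul]
    exact Dvd.intro _ rfl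
  have h00 : B.repr (B 0) 0 = 1 := by simp
  have h01 : B.repr (B 0) 1 = 0 := by simp
  have h10 : B.repr (B 1) 0 = 0 := by simp
  have h11 : B.repr (B 1) 1 = 1 := by simp
  refine ⟨B 0, B 1, B 0 + B 1, ?_, ?_, ?_, ?_, ?_, ?_, ?_, ?_, ?_⟩
  · intro h
    have := key _ h 0
    rw [h00] at this
    omega
  · intro h
    have := key _ h 1
    rw [h11] at this
    omega
  · intro h
    have := key _ h 0
    rw [map_add, Finsupp.add_apply, h00, h10] at this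
    omega
  · intro h
    have := key _ h 0
    rw [map_sub, Finsupp.sub_apply, h00, h10] at this
    omega
  · intro h
    have := key _ h 0
    rw [map_add, Finsupp.add_apply, h00, h10] at this
    omega
  · intro h
    have := key _ h 1
    rw [map_sub, map_add, Finsupp.sub_apply, Finsupp.add_apply, h01, h11] at this
    omega
  · intro h
    have := key _ h 1
    rw [map_add, map_add, Finsupp.add_apply, Finsupp.add_apply, h01, h11] at this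
    omega
  · intro h
    have := key _ h 0
    rw [map_sub, map_add, Finsupp.sub_apply, Finsupp.add_apply, h10, h00] at this
    omega
  · intro h
    have := key _ h 0
    rw [map_add, map_add, Finsupp.add_apply, Finsupp.add_apply, h10, h00] at this
    omega

private theorem ri_dvd {n m : ℕ} (h : (n : 𝓞 k) ∣ (m : 𝓞 k)) : n ∣ m := by
  rcases Nat.eq_zero_or_pos n with rfl | hn
  · obtain ⟨c, hc⟩ := h
    rw [Nat.cast_zero, zero_mul] at hc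
    have : m = 0 := by exact_mod_cast hc
    rw [this]
  obtain ⟨c, hc⟩ := h
  have hnk : (n : k) ≠ 0 := by exact_mod_cast hn.ne'
  have h1 : (algebraMap ℚ k ((m : ℚ) / n)) = (c : k) := by
    have h2 := congrArg (fun t : 𝓞 k => (t : k)) hc
    simp only [map_mul, map_natCast, RingOfIntegers.coe_eq_algebraMap] at h2
    rw [map_div₀, map_natCast, map_natCast, h2, mul_div_cancel_left₀ _ hnk,
      RingOfIntegers.coe_eq_algebraMap]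
  have h2 : IsIntegral ℤ (algebraMap ℚ k ((m : ℚ) / n)) := by
    rw [h1]
    exact RingOfIntegers.isIntegral_coe c
  rw [isIntegral_algebraMap_iff (algebraMap ℚ k).injective, IsIntegrallyClosed.isIntegral_iff] at h2
  obtain ⟨y, hy⟩ := h2
  have hnq : (n : ℚ) ≠ 0 := by exact_mod_cast hn.ne'
  have h3 : (y : ℚ) * n = m := by
    have h4 : (y : ℚ) = (m : ℚ) / n := by simpa using hy
    rw [h4, div_mul_cancel₀ _ hnq]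
  have h4 : y * (n : ℤ) = (m : ℤ) := by exact_mod_cast h3
  have h5 : (n : ℤ) ∣ (m : ℤ) := ⟨y, by rw [← h4, mul_comm]⟩
  exact_mod_cast h5

private theorem ri_not_dvd {n m : ℕ} (hm : 0 < m) (h : m < n) : ¬ (n : 𝓞 k) ∣ (m : 𝓞 k) :=
  fun h1 => absurd (Nat.le_of_dvd hm (ri_dvd h1)) (by omega)

private theorem ri_not_dvd_one {n : ℕ} (h : 2 ≤ n) : ¬ (n : 𝓞 k) ∣ 1 := by
  have := ri_not_dvd (k := k) (n := n) (m := 1) one_pos (by omega)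
  rwa [Nat.cast_one] at this

variable [Algebra k ℂ]

private theorem ri_add (n : ℕ) (a b : 𝓞 k) : ptt n (a + b) = ptt n a + ptt n b := by
  rw [ptt, ptt, ptt, RingOfIntegers.coe_eq_algebraMap (a + b), map_add, map_add, add_div,
    RingOfIntegers.coe_eq_algebraMap, RingOfIntegers.coe_eq_algebraMap]

private theorem ri_subt (n : ℕ) (a b : 𝓞 k) : ptt n (a - b) = ptt n a - ptt n b := by
  have h := ri_add n (a - b) b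
  rw [sub_add_cancel] at h
  rw [h]
  ring

open Pool.Agent.CMG in
/-- different values at different classes -/
private theorem ri_ne (hk : IsIQ k) {n : ℕ} (hn : n ≠ 0) {𝔤 : Ideal (𝓞 k)} (h0 : 𝔤 ≠ ⊥)
    (hp : Prm n 𝔤) {a b : 𝓞 k} (ha : ¬ (n : 𝓞 k) ∣ a) (hb : ¬ (n : 𝓞 k) ∣ b)
    (h1 : ¬ (n : 𝓞 k) ∣ a - b) (h2 : ¬ (n : 𝓞 k) ∣ a + b) :
    ℘[LatI 𝔤] (ptt n a) ≠ ℘[LatI 𝔤] (ptt n b) := by
  intro h
  rcases P_inj (LatI 𝔤) (fun h' => ha ((ptt_mem_iff hk hn h0 hp a).1 h'))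
    (fun h' => hb ((ptt_mem_iff hk hn h0 hp b).1 h')) h with h3 | h3
  · rw [← ri_subt] at h3
    exact h1 ((ptt_mem_iff hk hn h0 hp _).1 h3)
  · rw [← ri_add] at h3
    exact h2 ((ptt_mem_iff hk hn h0 hp _).1 h3)

private theorem ri_half {n m : ℕ} (hm : m ≠ 0) (hnm : n = 2 * m) {b : 𝓞 k} :
    (n : 𝓞 k) ∣ (m : 𝓞 k) * b ↔ (2 : 𝓞 k) ∣ b := by
  have hm' : (m : 𝓞 k) ≠ 0 := by exact_mod_cast hm
  subst hnm
  push_cast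
  rw [mul_comm (2 : 𝓞 k)]
  exact mul_dvd_mul_iff_left hm'

/-- the invariants of the lattice in terms of the values at the points of order two -/
private theorem ri_inv (hk : IsIQ k) {n m : ℕ} (hm : m ≠ 0) (hnm : n = 2 * m) {𝔤 : Ideal (𝓞 k)}
    (h0 : 𝔤 ≠ ⊥) (hp : Prm n 𝔤) {b₁ b₂ b₃ : 𝓞 k} (h1 : ¬ (2 : 𝓞 k) ∣ b₁) (h2 : ¬ (2 : 𝓞 k) ∣ b₂)
    (h3 : ¬ (2 : 𝓞 k) ∣ b₃) (h12 : ¬ (2 : 𝓞 k) ∣ b₁ - b₂) (h12' : ¬ (2 : 𝓞 k) ∣ b₁ + b₂)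
    (h13 : ¬ (2 : 𝓞 k) ∣ b₁ - b₃) (h13' : ¬ (2 : 𝓞 k) ∣ b₁ + b₃) (h23 : ¬ (2 : 𝓞 k) ∣ b₂ - b₃)
    (h23' : ¬ (2 : 𝓞 k) ∣ b₂ + b₃) {e₁ e₂ e₃ : ℂ} (he₁ : e₁ = ℘[LatI 𝔤] (ptt n ((m : 𝓞 k) * b₁)))
    (he₂ : e₂ = ℘[LatI 𝔤] (ptt n ((m : 𝓞 k) * b₂))) (he₃ : e₃ = ℘[LatI 𝔤] (ptt n ((m : 𝓞 k) * b₃))) :
    e₁ + e₂ + e₃ = 0 ∧ (LatI 𝔤).g₂ = -4 * (e₁ * e₂ + e₁ * e₃ + e₂ * e₃) ∧
      (LatI 𝔤).g₃ = 4 * (e₁ * e₂ * e₃) := by
  have hn : n ≠ 0 := by omega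
  have hd : ∀ b : 𝓞 k, (n : 𝓞 k) ∣ (m : 𝓞 k) * b ↔ (2 : 𝓞 k) ∣ b := fun b => ri_half hm hnm
  have hroot : ∀ b : 𝓞 k, ¬ (2 : 𝓞 k) ∣ b → 4 * ℘[LatI 𝔤] (ptt n ((m : 𝓞 k) * b)) ^ 3 -
      (LatI 𝔤).g₂ * ℘[LatI 𝔤] (ptt n ((m : 𝓞 k) * b)) - (LatI 𝔤).g₃ = 0 := by
    intro b hb
    apply ri_root
    · intro h
      exact hb ((hd b).1 ((ptt_mem_iff hk hn h0 hp _).1 h))
    · rw [two_mul, ← ri_add, ptt_mem_iff hk hn h0 hp]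
      refine ⟨b, ?_⟩
      rw [hnm]
      push_cast
      ring
  have hdist : ∀ b c : 𝓞 k, ¬ (2 : 𝓞 k) ∣ b → ¬ (2 : 𝓞 k) ∣ c → ¬ (2 : 𝓞 k) ∣ b - c →
      ¬ (2 : 𝓞 k) ∣ b + c → ℘[LatI 𝔤] (ptt n ((m : 𝓞 k) * b)) ≠ ℘[LatI 𝔤] (ptt n ((m : 𝓞 k) * c)) := by
    intro b c hb hc hbc hbc'
    refine ri_ne hk hn h0 hp (fun h => hb ((hd _).1 h)) (fun h => hc ((hd _).1 h)) ?_ ?_
    · rw [← mul_sub]
      exact fun h => hbc ((hd _).1 h)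
    · rw [← mul_add]
      exact fun h => hbc' ((hd _).1 h)
  rw [he₁, he₂, he₃]
  exact ri_sym (hroot _ h1) (hroot _ h2) (hroot _ h3) (hdist _ _ h1 h2 h12 h12')
    (hdist _ _ h1 h3 h13 h13') (hdist _ _ h2 h3 h23 h23')

/-- the multiplier of the lattices -/
private theorem ri_mult (hk : IsIQ k) {n : ℕ} (hn : 5 ≤ n) (h2 : 2 ∣ n) {𝔤 𝔥 : Ideal (𝓞 k)}
    (h0 : 𝔤 ≠ ⊥) (h0' : 𝔥 ≠ ⊥) (hp : Prm n 𝔤) (hp' : Prm n 𝔥)
    (h : ∀ a : 𝓞 k, ¬ (n : 𝓞 k) ∣ a → crI n 𝔤 a = crI n 𝔥 a) :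
    ∃ c : ℂ, c ≠ 0 ∧ (∀ z, c * z ∈ (LatI 𝔥).lattice ↔ z ∈ (LatI 𝔤).lattice) ∧
      c * ptt n (1 : 𝓞 k) - ptt n (1 : 𝓞 k) ∈ (LatI 𝔥).lattice := by
  have hn0 : n ≠ 0 := by omega
  obtain ⟨m, hm⟩ := h2
  have hm0 : m ≠ 0 := by omega
  have hd1 : ¬ (n : 𝓞 k) ∣ 1 := ri_not_dvd_one (by omega)
  obtain ⟨b₁, b₂, b₃, a1, a2, a3, a12, a12', a13, a13', a23, a23'⟩ := ri_basis hk
  have hne : ∀ {𝔤 : Ideal (𝓞 k)}, 𝔤 ≠ ⊥ → Prm n 𝔤 →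
      ℘[LatI 𝔤] (ptt n (2 : 𝓞 k)) - ℘[LatI 𝔤] (ptt n (1 : 𝓞 k)) ≠ 0 := by
    intro 𝔤 h0 hp
    refine sub_ne_zero.2 (ri_ne hk hn0 h0 hp ?_ hd1 ?_ ?_)
    · have := ri_not_dvd (k := k) (n := n) (m := 2) (by norm_num) (by omega)
      exact_mod_cast this
    · have e : (2 : 𝓞 k) - 1 = 1 := by norm_num
      rw [e]
      exact hd1
    · have := ri_not_dvd (k := k) (n := n) (m := 3) (by norm_num) (by omega)
      have e : (2 : 𝓞 k) + 1 = ((3 : ℕ) : 𝓞 k) := by norm_num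
      rw [e]
      exact this
  set α : ℂ := (℘[LatI 𝔥] (ptt n (2 : 𝓞 k)) - ℘[LatI 𝔥] (ptt n (1 : 𝓞 k))) /
    (℘[LatI 𝔤] (ptt n (2 : 𝓞 k)) - ℘[LatI 𝔤] (ptt n (1 : 𝓞 k))) with hα
  have hα0 : α ≠ 0 := div_ne_zero (hne h0' hp') (hne h0 hp)
  set β : ℂ := ℘[LatI 𝔥] (ptt n (1 : 𝓞 k)) - α * ℘[LatI 𝔤] (ptt n (1 : 𝓞 k)) with hβ
  have hval : ∀ a : 𝓞 k, ¬ (n : 𝓞 k) ∣ a →
      ℘[LatI 𝔥] (ptt n a) = α * ℘[LatI 𝔤] (ptt n a) + β := by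
    intro a ha
    have h1 := h a ha
    unfold crI at h1
    rw [div_eq_div_iff (hne h0 hp) (hne h0' hp')] at h1
    have h3 := hne h0 hp
    rw [hβ, hα]
    field_simp
    linear_combination -h1
  have hd : ∀ b : 𝓞 k, (n : 𝓞 k) ∣ (m : 𝓞 k) * b ↔ (2 : 𝓞 k) ∣ b := fun b => ri_half hm0 hm
  obtain ⟨s1, s2, s3⟩ := ri_inv hk hm0 hm h0 hp a1 a2 a3 a12 a12' a13 a13' a23 a23' rfl rfl rfl
  obtain ⟨t1, t2, t3⟩ := ri_inv hk hm0 hm h0' hp' a1 a2 a3 a12 a12' a13 a13' a23 a23'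
    (hval _ (fun h => a1 ((hd _).1 h))).symm (hval _ (fun h => a2 ((hd _).1 h))).symm
    (hval _ (fun h => a3 ((hd _).1 h))).symm
  have hβ0 : β = 0 := by
    have h3 : (3 : ℂ) * β = 0 := by linear_combination t1 - α * s1
    exact (mul_eq_zero.1 h3).resolve_left (by norm_num)
  rw [hβ0] at t2 t3 hval
  have g2 : (LatI 𝔥).g₂ = α ^ 2 * (LatI 𝔤).g₂ := by
    rw [t2, s2]
    ring
  have g3 : (LatI 𝔥).g₃ = α ^ 3 * (LatI 𝔤).g₃ := by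
    rw [t3, s3]
    ring
  obtain ⟨c, hc⟩ := IsAlgClosed.exists_pow_nat_eq α⁻¹ (n := 2) (by norm_num)
  have hc0 : c ≠ 0 := by
    rintro rfl
    rw [zero_pow (by norm_num)] at hc
    exact inv_ne_zero hα0 hc.symm
  have hc2 : c ^ 2 * α = 1 := by rw [hc, inv_mul_cancel₀ hα0]
  obtain ⟨L', hL'⟩ := ri_scale (LatI 𝔤) hc0
  have e2 : L'.g₂ = (LatI 𝔥).g₂ := by
    rw [g2]
    unfold PeriodPair.g₂
    rw [G_homothety (LatI 𝔤) L' hc0 hL']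
    have : α ^ 2 = 1 / c ^ 4 := by
      rw [eq_div_iff (pow_ne_zero _ hc0)]
      linear_combination (α * c ^ 2 + 1) * hc2
    rw [this]
    ring
  have e3 : L'.g₃ = (LatI 𝔥).g₃ := by
    rw [g3]
    unfold PeriodPair.g₃
    rw [G_homothety (LatI 𝔤) L' hc0 hL']
    have : α ^ 3 = 1 / c ^ 6 := by
      rw [eq_div_iff (pow_ne_zero _ hc0)]
      linear_combination (α ^ 2 * c ^ 4 + α * c ^ 2 + 1) * hc2
    rw [this]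
    ring
  have hlat := lattice_eq_of_g e2 e3
  have hL : ∀ z, c * z ∈ (LatI 𝔥).lattice ↔ z ∈ (LatI 𝔤).lattice := fun z => by
    rw [← hlat, hL']
  have hP := P_homothety (LatI 𝔤) (LatI 𝔥) hc0 hL (ptt n (1 : 𝓞 k))
  have h1g : ptt n (1 : 𝓞 k) ∉ (LatI 𝔤).lattice := fun h => hd1 ((ptt_mem_iff hk hn0 h0 hp _).1 h)
  have h1h : ptt n (1 : 𝓞 k) ∉ (LatI 𝔥).lattice := fun h =>
    hd1 ((ptt_mem_iff hk hn0 h0' hp' _).1 h)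
  have hP2 : ℘[LatI 𝔥] (c * ptt n (1 : 𝓞 k)) = ℘[LatI 𝔥] (ptt n (1 : 𝓞 k)) := by
    rw [hP, hval 1 hd1, add_zero, div_eq_iff (pow_ne_zero _ hc0)]
    linear_combination -℘[LatI 𝔤] (ptt n (1 : 𝓞 k)) * hc2
  rcases Pool.Agent.CMG.P_inj (LatI 𝔥) (fun h => h1g ((hL _).1 h)) h1h hP2 with h3 | h3
  · exact ⟨c, hc0, hL, h3⟩
  · refine ⟨-c, neg_ne_zero.2 hc0, fun z => ?_, ?_⟩
    · rw [neg_mul, neg_mem_iff, hL]
    · rw [← neg_mem_iff]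
      convert h3 using 1
      ring

open scoped nonZeroDivisors in
private theorem ri_mem_inv (hk : IsIQ k) {𝔤 : Ideal (𝓞 k)} (h0 : 𝔤 ≠ ⊥) (x : k) :
    algebraMap k ℂ x ∈ (LatI 𝔤).lattice ↔ x ∈ ((𝔤 : FractionalIdeal (𝓞 k)⁰ k))⁻¹ := by
  rw [mem_LatI hk h0, FractionalIdeal.mem_inv_iff (FractionalIdeal.coeIdeal_ne_zero.2 h0)]
  constructor
  · rintro ⟨x', hx', hg⟩ y hy
    obtain rfl : x' = x := (algebraMap k ℂ).injective hx'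
    obtain ⟨g, hg', rfl⟩ := (FractionalIdeal.mem_coeIdeal _).1 hy
    obtain ⟨w, hw⟩ := hg g hg'
    refine (FractionalIdeal.mem_one_iff _).2 ⟨w, ?_⟩
    rw [mul_comm]
    exact hw.symm
  · intro h
    refine ⟨x, rfl, fun g hg => ?_⟩
    obtain ⟨w, hw⟩ := (FractionalIdeal.mem_one_iff _).1
      (h _ (FractionalIdeal.mem_coeIdeal_of_mem _ hg))
    refine ⟨w, ?_⟩
    rw [mul_comm]
    exact hw.symm

end

open scoped nonZeroDivisors in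
/-- the normalized torsion values determine the ray class -/
theorem crI_inj {k : Type} [Field k] [NumberField k] [Algebra k ℂ] (hk : IsIQ k) {n : ℕ}
    (hn : 5 ≤ n) (h2 : 2 ∣ n) {𝔤 𝔥 : Ideal (𝓞 k)} (h0 : 𝔤 ≠ ⊥) (h0' : 𝔥 ≠ ⊥) (hp : Prm n 𝔤)
    (hp' : Prm n 𝔥) (h : ∀ a : 𝓞 k, ¬ (n : 𝓞 k) ∣ a → crI n 𝔤 a = crI n 𝔥 a) :
    REq n 𝔤 𝔥 := by
  obtain ⟨c, hc0, hL, hc1⟩ := ri_mult hk hn h2 h0 h0' hp hp' h
  have hn0 : n ≠ 0 := by omega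
  have hnC : (n : ℂ) ≠ 0 := by exact_mod_cast hn0
  rw [mem_LatI hk h0'] at hc1
  obtain ⟨y, hy, hyg⟩ := hc1
  have hc : algebraMap k ℂ (1 + n * y) = c := by
    rw [map_add, map_mul, hy, map_one, map_natCast, ptt]
    simp only [map_one]
    field_simp
    ring
  set γ : k := 1 + n * y with hγ
  have hγ0 : γ ≠ 0 := by
    intro h3
    rw [h3, map_zero] at hc
    exact hc0 hc.symm
  have hinv : ((𝔤 : FractionalIdeal (𝓞 k)⁰ k))⁻¹ =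
      FractionalIdeal.spanSingleton (𝓞 k)⁰ γ⁻¹ * ((𝔥 : FractionalIdeal (𝓞 k)⁰ k))⁻¹ := by
    ext x
    rw [FractionalIdeal.mem_singleton_mul, ← ri_mem_inv hk h0, ← hL, ← hc, ← map_mul,
      ri_mem_inv hk h0']
    constructor
    · intro h3
      exact ⟨_, h3, by rw [inv_mul_cancel_left₀ hγ0]⟩
    · rintro ⟨z, hz, rfl⟩
      rwa [mul_inv_cancel_left₀ hγ0]
  have heq : (𝔤 : FractionalIdeal (𝓞 k)⁰ k) =
      FractionalIdeal.spanSingleton (𝓞 k)⁰ γ * (𝔥 : FractionalIdeal (𝓞 k)⁰ k) := by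
    rw [← inv_inv (𝔤 : FractionalIdeal (𝓞 k)⁰ k), hinv, mul_inv, inv_inv,
      FractionalIdeal.spanSingleton_inv, inv_inv]
  obtain ⟨a, ha, t, ht, hat⟩ := Ideal.isCoprime_iff_exists.1 hp'
  obtain ⟨t', rfl⟩ := Ideal.mem_span_singleton'.1 ht
  have hmem : γ * (a : k) ∈ (𝔤 : FractionalIdeal (𝓞 k)⁰ k) := by
    rw [heq, FractionalIdeal.mem_singleton_mul]
    exact ⟨_, FractionalIdeal.mem_coeIdeal_of_mem _ ha, rfl⟩
  obtain ⟨b, hb, hbγ⟩ := (FractionalIdeal.mem_coeIdeal _).1 hmem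
  obtain ⟨w, hw⟩ := hyg a ha
  have hab : b = a + n * w := by
    apply RingOfIntegers.coe_injective
    have e1 : (algebraMap (𝓞 k) k) b = (algebraMap (𝓞 k) k) (a + n * w) := by
      rw [hbγ, hγ, map_add, map_mul, map_natCast]
      have e2 : (algebraMap (𝓞 k) k) w = (a : k) * y := hw.symm
      rw [e2]
      ring
    exact e1
  have ha1 : (n : 𝓞 k) ∣ a - 1 := ⟨-t', by rw [← hat]; ring⟩
  have ha0 : a ≠ 0 := by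
    rintro rfl
    rw [zero_sub, dvd_neg] at ha1
    exact ri_not_dvd_one (by omega) ha1
  have hb0 : b ≠ 0 := by
    rintro rfl
    rw [map_zero] at hbγ
    rcases mul_eq_zero.1 hbγ.symm with h3 | h3
    · exact hγ0 h3
    · exact ha0 (RingOfIntegers.coe_eq_zero_iff.1 h3)
  refine ⟨a, b, ha0, hb0, ha1, ?_, ?_⟩
  · rw [hab, show a + n * w - 1 = (a - 1) + n * w by ring]
    exact dvd_add ha1 (Dvd.intro _ rfl)
  · apply FractionalIdeal.coeIdeal_injective (K := k)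
    simp only [FractionalIdeal.coeIdeal_mul, FractionalIdeal.coeIdeal_span_singleton]
    rw [heq, hbγ, ← mul_assoc, FractionalIdeal.spanSingleton_mul_spanSingleton]
    congr 2
    exact mul_comm _ _

end Pool.Agent.CMR
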