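import Pool.Agent.CMR.RDefs

/-!
# R-LAT localization at N and a normal basis lattice

`InR`: products of the denominators `s`. `inv_one_add`: `s x = y ∈ 𝓞 L`, `z = s + N y`, `1 + N x = z/s`; `z ≠ 0` (otherwise `s = -N y`, `s` is not divisible by a prime `p ∣ N` in `𝓞 L`: `p y'= s`, norms). The norm `m = ∏ (conjugates of z)` is an integer, `m ≡ s^d` modulo `N` in the ring of integers of a Galois closure (or: `m = N_{L/ℚ}(s + N y)`, the
constant coefficient: the matrix of multiplication by `s + N y` is `s + N Y`, `Y` integral, so `det ≡ s^d` mod `N`), so `m` is prime to `N`, and `z⁻¹ = w/m` with `w = m/z` integral (`Algebra.norm` is divisible by `z` in `𝓞 L`), so `(1 + N x)⁻¹ = s w/m`. `exists_lat`: `IsGalois.normalBasis k L`: `g ↦ g θ₀` is a basis;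
multiply `θ₀` by a positive integer: `θ` integral. Let `ω_j` be a `ℤ`-basis of `𝓞 L`, `ω_j = ∑_g c_{jg} g θ`; there is `d ≥ 1` with `d c_{jg} ∈ 𝓞 k`. `d = d₁ d₂` with `d₁ ∣ N^t`, `d₂` prime to `N`. For `x` with `s x ∈ 𝓞 L`: `s d₂ N^t x ∈ ∑ 𝓞 k g θ`; divide by `s d₂` (prime to `N`).
-/

set_option autoImplicit false

noncomputable section

open NumberField Pool.Agent.StarkRQ
open scoped Pointwise

namespace Pool.Agent.CMR

variable {k L : Type} [Field k] [NumberField k] [Field L] [NumberField L] [Algebra k L]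
  [IsGalois k L] {N : ℕ}

theorem InR.add {x y : L} (hx : InR N x) (hy : InR N y) : InR N (x + y) := by
  obtain ⟨s, hs, hsx⟩ := hx
  obtain ⟨t, ht, hty⟩ := hy
  refine ⟨s * t, Nat.Coprime.mul_left hs ht, ?_⟩
  have h1 : IsIntegral ℤ ((t : L) * ((s : L) * x)) := (isIntegral_natCast t).mul hsx
  have h2 : IsIntegral ℤ ((s : L) * ((t : L) * y)) := (isIntegral_natCast s).mul hty
  have h3 := h1.add h2
  have h4 : ((s * t : ℕ) : L) * (x + y) = (t : L) * ((s : L) * x) + (s : L) * ((t : L) * y) := by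
    push_cast
    ring
  rw [h4]
  exact h3

theorem InR.mul {x y : L} (hx : InR N x) (hy : InR N y) : InR N (x * y) := by
  obtain ⟨s, hs, hsx⟩ := hx
  obtain ⟨t, ht, hty⟩ := hy
  refine ⟨s * t, Nat.Coprime.mul_left hs ht, ?_⟩
  have h3 := hsx.mul hty
  have h4 : ((s * t : ℕ) : L) * (x * y) = ((s : L) * x) * ((t : L) * y) := by
    push_cast
    ring
  rw [h4]
  exact h3

theorem InR.neg {x : L} (hx : InR N x) : InR N (-x) := by
  obtain ⟨s, hs, hsx⟩ := hx
  refine ⟨s, hs, ?_⟩
  have h3 := hsx.neg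
  convert h3 using 1
  ring

theorem InR.coe (a : 𝓞 L) : InR N (a : L) := by
  refine ⟨1, Nat.coprime_one_left N, ?_⟩
  rw [Nat.cast_one, one_mul]
  exact RingOfIntegers.isIntegral_coe a

theorem InR.map (τ : Gal(L/k)) {x : L} (hx : InR N x) : InR N (τ x) := by
  obtain ⟨s, hs, hsx⟩ := hx
  refine ⟨s, hs, ?_⟩
  have h3 := map_isIntegral_int τ hsx
  rwa [map_mul, map_natCast] at h3

private theorem InR.zero : InR N (0 : L) := by
  refine ⟨1, Nat.coprime_one_left N, ?_⟩
  rw [mul_zero]
  exact isIntegral_zero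

private theorem InR.sum {ι : Type} (S : Finset ι) (f : ι → L) (h : ∀ i ∈ S, InR N (f i)) :
    InR N (∑ i ∈ S, f i) := by
  classical
  induction S using Finset.induction_on with
  | empty => simpa using InR.zero
  | insert a S ha ih =>
    rw [Finset.sum_insert ha]
    exact (h a (Finset.mem_insert_self a S)).add
      (ih fun i hi => h i (Finset.mem_insert_of_mem hi))

/-- an element `z = s + N y` of the ring of integers, `s` prime to `N`, divides an integer `≡ 1` mod `N` -/
private theorem exists_mul_eq (s : ℕ) (hs : s.Coprime N) (y : 𝓞 L) :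
    ∃ (r : ℤ) (a : 𝓞 L), (N : ℤ) ∣ r - 1 ∧ ((s : 𝓞 L) + (N : 𝓞 L) * y) * a = (r : 𝓞 L) := by
  set z : 𝓞 L := (s : 𝓞 L) + (N : 𝓞 L) * y with hz
  have hfg : (⊤ : Submodule ℤ (𝓞 L ⧸ Ideal.span {z})).FG := Module.Finite.fg_top
  have hle : (⊤ : Submodule ℤ (𝓞 L ⧸ Ideal.span {z})) ≤
      (Ideal.span {(N : ℤ)}) • (⊤ : Submodule ℤ (𝓞 L ⧸ Ideal.span {z})) := by
    intro m _
    obtain ⟨b, rfl⟩ := Ideal.Quotient.mk_surjective m
    have hcop : IsCoprime (s : ℤ) (N : ℤ) := Nat.isCoprime_iff_coprime.2 hs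
    obtain ⟨u, v, huv⟩ := hcop
    have h1 : (Ideal.Quotient.mk (Ideal.span {z})) b =
        (N : ℤ) • (Ideal.Quotient.mk (Ideal.span {z})) (((v : 𝓞 L) - (u : 𝓞 L) * y) * b) := by
      have h2 : (N : ℤ) • (Ideal.Quotient.mk (Ideal.span {z})) (((v : 𝓞 L) - (u : 𝓞 L) * y) * b) =
          (Ideal.Quotient.mk (Ideal.span {z})) ((N : 𝓞 L) * (((v : 𝓞 L) - (u : 𝓞 L) * y) * b)) := by
        rw [zsmul_eq_mul, map_mul (Ideal.Quotient.mk (Ideal.span {z})) (N : 𝓞 L)]
        simp
      rw [h2, Ideal.Quotient.eq, Ideal.mem_span_singleton]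
      refine ⟨(u : 𝓞 L) * b, ?_⟩
      have h3 : (u : 𝓞 L) * (s : 𝓞 L) + (v : 𝓞 L) * (N : 𝓞 L) = 1 := by
        exact_mod_cast congrArg (fun t : ℤ => (t : 𝓞 L)) huv
      rw [hz]
      linear_combination (-b) * h3
    rw [h1]
    exact Submodule.smul_mem_smul (Ideal.mem_span_singleton_self _) Submodule.mem_top
  obtain ⟨r, hr1, hr2⟩ :=
    Submodule.exists_sub_one_mem_and_smul_eq_zero_of_fg_of_le_smul _ _ hfg hle
  have h4 := hr2 (Ideal.Quotient.mk (Ideal.span {z}) 1) Submodule.mem_top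
  rw [zsmul_eq_mul, map_one, mul_one] at h4
  have h5 : (Ideal.Quotient.mk (Ideal.span {z})) ((r : ℤ) : 𝓞 L) = 0 := by
    rw [map_intCast]; exact h4
  rw [Ideal.Quotient.eq_zero_iff_mem, Ideal.mem_span_singleton] at h5
  obtain ⟨a, ha⟩ := h5
  exact ⟨r, a, Ideal.mem_span_singleton.1 hr1, ha.symm⟩

/-- elements congruent to `1` modulo `N` are units of the localization -/
theorem InR.inv_one_add (hN : 2 ≤ N) {x : L} (hx : InR N x) :
    1 + (N : L) * x ≠ 0 ∧ InR N (1 + (N : L) * x)⁻¹ := by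
  obtain ⟨s, hs, hsx⟩ := hx
  set y : 𝓞 L := ⟨(s : L) * x, hsx⟩ with hy
  have hyc : (y : L) = (s : L) * x := rfl
  obtain ⟨r, a, hr, ha⟩ := exists_mul_eq (L := L) s hs y
  have hs0 : (s : L) ≠ 0 := by
    intro h0
    have : s = 0 := by exact_mod_cast h0
    rw [this, Nat.coprime_zero_left] at hs
    omega
  have hr0 : r ≠ 0 := by
    rintro rfl
    have h1 : (N : ℤ) ∣ 1 := by
      have := dvd_neg.2 hr
      simpa using this
    have h2 := Int.le_of_dvd one_pos h1
    omega
  have haL : ((s : L) + (N : L) * ((s : L) * x)) * (a : L) = (r : L) := by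
    have h1 := congrArg (algebraMap (𝓞 L) L) ha
    simp only [map_mul, map_add, map_natCast, map_intCast] at h1
    exact h1
  have hrL : (r : L) ≠ 0 := by exact_mod_cast hr0
  have hfac : (s : L) * (1 + (N : L) * x) * (a : L) = (r : L) := by
    rw [← haL]; ring
  have hne : 1 + (N : L) * x ≠ 0 := by
    intro h0
    rw [h0, mul_zero, zero_mul] at hfac
    exact hrL hfac.symm
  refine ⟨hne, r.natAbs, ?_, ?_⟩
  · have h1 : IsCoprime r (N : ℤ) := by
      obtain ⟨c, hc⟩ := hr
      exact ⟨1, -c, by linear_combination hc⟩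
    have h2 := Int.isCoprime_iff_gcd_eq_one.1 h1
    rw [Nat.coprime_iff_gcd_eq_one]
    simpa [Int.gcd] using h2
  · have h1 : IsIntegral ℤ ((r : L) * (1 + (N : L) * x)⁻¹) := by
      have h2 : (r : L) * (1 + (N : L) * x)⁻¹ = (s : L) * (a : L) := by
        rw [← hfac]
        field_simp
      rw [h2]
      exact (isIntegral_natCast s).mul (RingOfIntegers.isIntegral_coe a)
    rw [Nat.cast_natAbs]
    rcases abs_choice r with h | h
    · rw [h]; exact h1
    · rw [h]
      have h4 := h1.neg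
      convert h4 using 1
      push_cast
      ring

/-- `d` divides `N ^ t` times a number prime to `N` -/
private theorem exists_split (hN : 2 ≤ N) (d : ℕ) (hd : d ≠ 0) :
    ∃ t d₂ e : ℕ, d₂.Coprime N ∧ d * e = N ^ t * d₂ := by
  induction d using Nat.strong_induction_on with
  | _ d ih =>
    by_cases hg : Nat.gcd d N = 1
    · exact ⟨0, d, 1, hg, by simp⟩
    · have hgd : Nat.gcd d N ∣ d := Nat.gcd_dvd_left d N
      have hgN : Nat.gcd d N ∣ N := Nat.gcd_dvd_right d N
      obtain ⟨d', hd'⟩ := hgd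
      obtain ⟨c, hc⟩ := hgN
      have hg0 : Nat.gcd d N ≠ 0 := by
        intro h0; rw [h0, zero_mul] at hd'; exact hd hd'
      have hd'0 : d' ≠ 0 := by
        intro h0; rw [h0, mul_zero] at hd'; exact hd hd'
      have hlt : d' < d := by
        have h2 : 2 ≤ Nat.gcd d N := by omega
        calc d' < 2 * d' := by omega
          _ ≤ Nat.gcd d N * d' := Nat.mul_le_mul_right _ h2
          _ = d := hd'.symm
      obtain ⟨t, d₂, e, hco, he⟩ := ih d' hlt hd'0
      refine ⟨t + 1, d₂, e * c, hco, ?_⟩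
      calc d * (e * c) = (Nat.gcd d N * d') * (e * c) := by rw [← hd']
        _ = (Nat.gcd d N * c) * (d' * e) := by ring
        _ = N * (N ^ t * d₂) := by rw [← hc, he]
        _ = N ^ (t + 1) * d₂ := by ring

private theorem exists_den {K : Type} [Field K] [NumberField K] (F : Finset K) :
    ∃ d : ℕ, d ≠ 0 ∧ ∀ x ∈ F, IsIntegral ℤ ((d : K) * x) := by
  classical
  have halg : Algebra.IsAlgebraic ℚ K := Algebra.IsAlgebraic.of_finite ℚ K
  induction F using Finset.induction_on with
  | empty => exact ⟨1, one_ne_zero, by simp⟩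
  | insert a S ha ih =>
    obtain ⟨d, hd, hS⟩ := ih
    have hz : IsAlgebraic ℤ a :=
      (IsFractionRing.isAlgebraic_iff ℤ ℚ K).2 (Algebra.IsAlgebraic.isAlgebraic a)
    obtain ⟨y, hy, h1⟩ := hz.exists_integral_multiple
    rw [zsmul_eq_mul] at h1
    have h2 : IsIntegral ℤ (((y.natAbs : ℕ) : K) * a) := by
      rw [Nat.cast_natAbs]
      rcases abs_choice y with h' | h'
      · rw [h']; exact h1
      · rw [h']
        have h4 := h1.neg
        convert h4 using 1
        push_cast
        ring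
    refine ⟨y.natAbs * d, mul_ne_zero (by simpa using hy) hd, fun x hx => ?_⟩
    have h5 : ((y.natAbs * d : ℕ) : K) * x = ((d : ℕ) : K) * (((y.natAbs : ℕ) : K) * x) := by
      push_cast
      ring
    have h6 : ((y.natAbs * d : ℕ) : K) * x = ((y.natAbs : ℕ) : K) * (((d : ℕ) : K) * x) := by
      push_cast
      ring
    rcases Finset.mem_insert.1 hx with rfl | hx
    · rw [h5]
      exact (isIntegral_natCast (R := ℤ) (B := K) d).mul h2
    · rw [h6]
      exact (isIntegral_natCast (R := ℤ) (B := K) y.natAbs).mul (hS x hx)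

theorem exists_lat (hN : 2 ≤ N) : ∃ (t : ℕ) (θ : L), IsLat k N t θ := by
  classical
  have hfin : Module.Finite k L := Module.Finite.of_restrictScalars_finite ℚ k L
  have hfinG : Finite Gal(L/k) := inferInstance
  have : Fintype Gal(L/k) := Fintype.ofFinite _
  let b := IsGalois.normalBasis k L
  obtain ⟨D, hD, hDint⟩ := exists_den (K := L) {b 1}
  have hDk : (D : k) ≠ 0 := by exact_mod_cast hD
  let b' := b.unitsSMul (fun _ => Units.mk0 (D : k) hDk)
  have hb' : ∀ g : Gal(L/k), b' g = g ((D : L) * b 1) := by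
    intro g
    rw [map_mul, map_natCast, ← IsGalois.normalBasis_apply]
    show b.unitsSMul (fun _ => Units.mk0 (D : k) hDk) g = _
    rw [Module.Basis.unitsSMul_apply]
    show (D : k) • b g = _
    rw [Algebra.smul_def, map_natCast]
  let ω := RingOfIntegers.basis L
  let F : Finset k := (Finset.univ : Finset (Module.Free.ChooseBasisIndex ℤ (𝓞 L) × Gal(L/k))).image
    (fun p => b'.repr ((ω p.1 : 𝓞 L) : L) p.2)
  obtain ⟨d, hd, hF⟩ := exists_den F
  have hrep : ∀ (a : 𝓞 L) (g : Gal(L/k)), IsIntegral ℤ ((d : k) * b'.repr (a : L) g) := by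
    intro a g
    have h1 : (a : L) = ∑ j, ((ω.repr a j : ℤ) : k) • ((ω j : 𝓞 L) : L) := by
      have h0 := congrArg (algebraMap (𝓞 L) L) (ω.sum_repr a)
      rw [map_sum] at h0
      refine h0.symm.trans (Finset.sum_congr rfl fun j _ => ?_)
      rw [zsmul_eq_mul, map_mul, map_intCast, Algebra.smul_def, map_intCast]
    have h2 : (d : k) * b'.repr (a : L) g =
        ∑ j, ((ω.repr a j : ℤ) : k) * ((d : k) * b'.repr ((ω j : 𝓞 L) : L) g) := by
      rw [h1, map_sum, Finsupp.finsetSum_apply, Finset.mul_sum]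
      refine Finset.sum_congr rfl fun j _ => ?_
      rw [map_smul, Finsupp.smul_apply, smul_eq_mul]
      ring
    rw [h2]
    refine IsIntegral.sum _ fun j _ => ?_
    exact (isIntegral_intCast _).mul (hF _ (Finset.mem_image.2 ⟨(j, g), Finset.mem_univ _, rfl⟩))
  obtain ⟨t, d₂, e, hco, he⟩ := exists_split hN d hd
  refine ⟨t, (D : L) * b 1, hDint _ (Finset.mem_singleton_self _), ?_, ?_⟩
  · have h1 := b'.linearIndependent
    have h2 : (⇑b' : Gal(L/k) → L) = fun g => g ((D : L) * b 1) := funext hb'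
    rw [h2] at h1
    exact h1
  · rintro x ⟨s, hs, hsx⟩
    refine ⟨fun g => (N : k) ^ t * b'.repr x g, fun g => ?_, ?_⟩
    · refine ⟨s * d₂, Nat.Coprime.mul_left hs hco, ?_⟩
      have h1 : IsIntegral ℤ ((d : k) * b'.repr ((s : k) • x) g) := by
        have h2 : (s : k) • x = (((⟨(s : L) * x, hsx⟩ : 𝓞 L)) : L) := by
          rw [Algebra.smul_def, map_natCast]
        rw [h2]
        exact hrep ⟨(s : L) * x, hsx⟩ g
      rw [map_smul, Finsupp.smul_apply, smul_eq_mul] at h1
      have h3 := (isIntegral_natCast (R := ℤ) (B := k) e).mul h1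
      have h4 : (d : k) * (e : k) = (N : k) ^ t * (d₂ : k) := by exact_mod_cast he
      have h5 : ((s * d₂ : ℕ) : k) * ((N : k) ^ t * b'.repr x g) =
          (e : k) * ((d : k) * ((s : k) * b'.repr x g)) := by
        push_cast
        linear_combination (-(s : k) * b'.repr x g) * h4
      beta_reduce
      rw [h5]
      exact h3
    · rw [finsum_eq_sum_of_fintype]
      have h1 := b'.sum_repr x
      have h2 : ∀ g : Gal(L/k), algebraMap k L ((N : k) ^ t * b'.repr x g) * g ((D : L) * b 1) =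
          (N : L) ^ t * (b'.repr x g • b' g) := by
        intro g
        rw [map_mul, map_pow, map_natCast, Algebra.smul_def, hb']
        ring
      rw [Finset.sum_congr rfl fun g _ => h2 g, ← Finset.mul_sum, h1]

end Pool.Agent.CMR
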