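import Pool.Agent.CMR.RAb
import Pool.Agent.CMR.RCyc

/-!
# R-TW twisting with a cyclotomic extension

Let `q = N𝔭`, `e = |Gal(M/k)|`, `m = q^e - 1` (`> 0`, prime to `q`), so `q^j ≡ 1` mod `m` iff `e ∣ j` (for `m = 1`: `e = 1`). `exists_cyc`: `M' = M(ζ_m)`, `N' = N m`; `𝔭` is prime to `N'`. Let `φ' = art 𝔭 ∈ Gal(M'/k)`, `L'` = the fixed field of `⟨φ'⟩` in `M'`. A prime `𝔔` of `L'` over `𝔭` has `N𝔔 = N𝔭`: `φ'` is a Frobenius element at a prime `𝔓` of `M'` over `𝔭` (`M'/k` abelian: at all of them) and acts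
trivially on `L'`, so `x ≡ x^{q}` mod `𝔔`. So `IsNm L' N' 𝔭`. `step_abelian` for `L' ⊆ M'`, `N'`: `a', B'`. Choose `𝔟` with `REq (N'^{max(a', a₀) + 1}) 𝔭 𝔟` and prime to `B' B₀ N'` (`exists_REq_prm`). Then `REq (N'^{a'}) 𝔟 𝔭`, so `art 𝔟 ∈ Gal(M'/k)` fixes `L'`: `art 𝔟 = φ'^j` for some natural `j`. On `ζ`: `N𝔟 ≡ q^j` mod `m` (`art_root`; `ζ` primitive), and `N𝔟 ≡ N𝔭 = q` mod `m` (`absNorm_of_REq`),
so `q^j ≡ q`, `j ≡ 1` mod `e`. Restricting to `M` (`art_restrict`): `art 𝔟 = (art 𝔭)^j = art 𝔭` in `Gal(M/k)`. `REq (N^{a₀}) 𝔟 𝔭` (`REq.of_dvd`, `REq.symm`).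
-/

set_option autoImplicit false

noncomputable section

open NumberField Pool.Agent.StarkRQ
open scoped Pointwise

namespace Pool.Agent.CMR

/-- a polynomial has few roots -/
private theorem rtw_card {R : Type} [CommRing R] [IsDomain R] [Finite R] {q : ℕ} (hq : 1 < q)
    (h : ∀ x : R, x ^ q = x) : Nat.card R ≤ q := by
  classical
  have hfin : Fintype R := Fintype.ofFinite R
  have h1 : (Polynomial.X ^ q - Polynomial.X : Polynomial R).natDegree = q := by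
    rw [Polynomial.natDegree_sub_eq_left_of_natDegree_lt]
    · exact Polynomial.natDegree_X_pow q
    · rw [Polynomial.natDegree_X_pow, Polynomial.natDegree_X]
      exact hq
  have h0 : (Polynomial.X ^ q - Polynomial.X : Polynomial R) ≠ 0 := by
    intro h2
    rw [h2, Polynomial.natDegree_zero] at h1
    omega
  have h2 : (Finset.univ : Finset R) ⊆
      (Polynomial.X ^ q - Polynomial.X : Polynomial R).roots.toFinset := by
    intro x _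
    rw [Multiset.mem_toFinset, Polynomial.mem_roots h0, Polynomial.IsRoot.def]
    simp only [Polynomial.eval_sub, Polynomial.eval_pow, Polynomial.eval_X, h x, sub_self]
  calc Nat.card R = (Finset.univ : Finset R).card := by
        rw [Nat.card_eq_fintype_card, Finset.card_univ]
    _ ≤ (Polynomial.X ^ q - Polynomial.X : Polynomial R).roots.toFinset.card :=
        Finset.card_le_card h2
    _ ≤ Multiset.card (Polynomial.X ^ q - Polynomial.X : Polynomial R).roots :=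
        Multiset.toFinset_card_le _
    _ ≤ (Polynomial.X ^ q - Polynomial.X : Polynomial R).natDegree := Polynomial.card_roots' _
    _ = q := h1

private theorem rtw_norm {k M : Type} [Field k] [NumberField k] [Field M] [NumberField M]
    [Algebra k M] {E : Type} [Field E] [NumberField E] [Algebra k E] [Algebra E M]
    [IsScalarTower k E M] {𝔮 : Ideal (𝓞 E)} (h𝔮 : 𝔮.IsPrime) (h0 : 𝔮 ≠ ⊥) {𝔓 : Ideal (𝓞 M)}
    (h𝔓 : 𝔓.comap (algebraMap (𝓞 E) (𝓞 M)) = 𝔮) {σ : Gal(M/k)}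
    (hσ : ∀ x : E, σ (algebraMap E M x) = algebraMap E M x)
    (hc : Cong (toG k M σ) 𝔓 (Ideal.absNorm (𝔮.comap (algebraMap (𝓞 k) (𝓞 E))))) :
    Ideal.absNorm 𝔮 = Ideal.absNorm (𝔮.comap (algebraMap (𝓞 k) (𝓞 E))) := by
  have h1 : 𝔮.comap (algebraMap (𝓞 k) (𝓞 E)) ≠ ⊥ := by
    intro h
    exact h0 (Ideal.eq_bot_of_comap_eq_bot h)
  have hpr : (𝔮.comap (algebraMap (𝓞 k) (𝓞 E))).IsPrime := Ideal.comap_isPrime _ _
  have hfin : Finite (𝓞 E ⧸ 𝔮) := Ideal.finiteQuotientOfFreeOfNeBot 𝔮 h0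
  have hfin' : Finite (𝓞 k ⧸ 𝔮.comap (algebraMap (𝓞 k) (𝓞 E))) :=
    Ideal.finiteQuotientOfFreeOfNeBot _ h1
  refine le_antisymm ?_ ?_
  · rw [Ideal.absNorm_apply 𝔮, Submodule.cardQuot_apply]
    have h2 : 1 < Ideal.absNorm (𝔮.comap (algebraMap (𝓞 k) (𝓞 E))) := by
      have h3 : Ideal.absNorm (𝔮.comap (algebraMap (𝓞 k) (𝓞 E))) ≠ 0 := fun h =>
        h1 (Ideal.absNorm_eq_zero_iff.1 h)
      have h4 : Ideal.absNorm (𝔮.comap (algebraMap (𝓞 k) (𝓞 E))) ≠ 1 := fun h =>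
        hpr.ne_top (Ideal.absNorm_eq_one_iff.1 h)
      omega
    refine rtw_card h2 fun y => ?_
    obtain ⟨x, rfl⟩ := Ideal.Quotient.mk_surjective y
    rw [← map_pow, eq_comm, Ideal.Quotient.eq]
    have h5 := hc (algebraMap (𝓞 E) (𝓞 M) x)
    have h6 : toG k M σ • (algebraMap (𝓞 E) (𝓞 M) x) = algebraMap (𝓞 E) (𝓞 M) x := by
      rw [toG_smul]
      apply RingOfIntegers.ext
      exact hσ (x : E)
    rw [h6, ← map_pow, ← map_sub, ← Ideal.mem_comap, h𝔓] at h5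
    exact h5
  · rw [Ideal.absNorm_apply 𝔮, Submodule.cardQuot_apply, Ideal.absNorm_apply,
      Submodule.cardQuot_apply]
    exact Nat.card_le_card_of_injective (Ideal.quotientMap 𝔮 (algebraMap (𝓞 k) (𝓞 E)) le_rfl)
      Ideal.quotientMap_injective

/-- the order of `q` modulo `q ^ e - 1` -/
private theorem rtw_pow {q e j : ℕ} (hq : 2 ≤ q) (he : 1 ≤ e) (h : q ^ j ≡ q [MOD q ^ e - 1]) :
    j ≡ 1 [MOD e] := by
  rcases Nat.lt_or_ge e 2 with h1 | h1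
  · have h2 : e = 1 := by omega
    rw [h2]
    exact Nat.modEq_one
  · have h2 : 1 ≤ q ^ e := Nat.one_le_pow _ _ (by omega)
    have h3 : q ^ e ≡ 1 [MOD q ^ e - 1] :=
      ((Nat.modEq_iff_dvd' h2).2 dvd_rfl).symm
    have h4 : q ^ j ≡ q ^ (j % e) [MOD q ^ e - 1] := by
      conv_lhs => rw [← Nat.div_add_mod j e, pow_add, pow_mul]
      have h5 := (h3.pow (j / e)).mul_right (q ^ (j % e))
      rwa [one_pow, one_mul] at h5
    have h6 : q ≤ q ^ (e - 1) := by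
      calc q = q ^ 1 := (pow_one q).symm
        _ ≤ q ^ (e - 1) := Nat.pow_le_pow_right (by omega) (by omega)
    have h7 : q ^ e = q * q ^ (e - 1) := by
      rw [← pow_succ']
      congr 1
      omega
    have h8 : q ^ (e - 1) < q ^ e - 1 := by
      have h9 : 2 * q ^ (e - 1) ≤ q * q ^ (e - 1) := Nat.mul_le_mul_right _ hq
      omega
    have h9 : q ^ (j % e) < q ^ e - 1 := by
      refine lt_of_le_of_lt (Nat.pow_le_pow_right (by omega) ?_) h8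
      have := Nat.mod_lt j (by omega : 0 < e)
      omega
    have h10 : q ^ (j % e) = q ^ 1 := by
      rw [pow_one]
      exact Nat.ModEq.eq_of_lt_of_lt (h4.symm.trans h) h9 (by omega)
    have h11 := Nat.pow_right_injective hq h10
    show j % e = 1 % e
    rw [h11, Nat.mod_eq_of_lt (by omega)]

/-- the Artin symbol of a prime is the Artin symbol of ideals in its ray class which are prime to any given number -/
theorem exists_near {k M : Type} [Field k] [NumberField k] (hk : IsIQ k) [Field M] [NumberField M]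
    [Algebra k M] [IsGalois ℚ M] [IsAbelianGalois k M] {N : ℕ} (hN : 2 ≤ N)
    (hr : ∀ p : ℕ, p.Prime → (p : ℤ) ∣ discr M → p ∣ N) {𝔭 : Ideal (𝓞 k)} (hp : 𝔭.IsPrime)
    (h0 : 𝔭 ≠ ⊥) (hpN : Prm N 𝔭) (a₀ : ℕ) {B₀ : ℕ} (hB₀ : B₀ ≠ 0) :
    ∃ 𝔟 : Ideal (𝓞 k), 𝔟 ≠ ⊥ ∧ Prm B₀ 𝔟 ∧ REq (N ^ a₀) 𝔟 𝔭 ∧
      (art 𝔟 : Gal(M/k)) = art 𝔭 := by
  classical
  have hqq : 2 ≤ Ideal.absNorm 𝔭 := by
    have h3 : Ideal.absNorm 𝔭 ≠ 0 := fun h => h0 (Ideal.absNorm_eq_zero_iff.1 h)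
    have h4 : Ideal.absNorm 𝔭 ≠ 1 := fun h => hp.ne_top (Ideal.absNorm_eq_one_iff.1 h)
    omega
  obtain ⟨q, hq⟩ : ∃ q, q = Ideal.absNorm 𝔭 := ⟨_, rfl⟩
  have hq2 : 2 ≤ q := by rw [hq]; exact hqq
  obtain ⟨e, he⟩ : ∃ e, e = Nat.card Gal(M/k) := ⟨_, rfl⟩
  have he1 : 1 ≤ e := by rw [he]; exact Nat.card_pos
  obtain ⟨m, hm⟩ : ∃ m, m = q ^ e - 1 := ⟨_, rfl⟩
  have hqe : q ≤ q ^ e := by
    calc q = q ^ 1 := (pow_one q).symm
      _ ≤ q ^ e := Nat.pow_le_pow_right (by omega) he1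
  have hm0 : m ≠ 0 := by omega
  obtain ⟨M', _, _, _, _, _, _, _, ζ, hζ, hr'⟩ := exists_cyc (k := k) (M := M) (by omega : N ≠ 0)
    hr hm0
  obtain ⟨N', hN'⟩ : ∃ N', N' = N * m := ⟨_, rfl⟩
  rw [← hN'] at hr'
  have hN'0 : N' ≠ 0 := by rw [hN']; exact Nat.mul_ne_zero (by omega) hm0
  have hNN' : N ∣ N' := ⟨m, hN'⟩
  have hmN' : m ∣ N' := ⟨N, by rw [hN', mul_comm]⟩
  have hN'2 : 2 ≤ N' := le_trans hN (Nat.le_of_dvd (Nat.pos_of_ne_zero hN'0) hNN')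
  have hpm : Prm m 𝔭 := by
    rw [prm_iff, ← hq]
    have h1 : Nat.gcd q m ∣ 1 := by
      have h2 : Nat.gcd q m ∣ q ^ e := (Nat.gcd_dvd_left q m).trans (dvd_pow_self q (by omega))
      have h3 : Nat.gcd q m ∣ m := Nat.gcd_dvd_right q m
      have h4 : q ^ e - m = 1 := by omega
      rw [← h4]
      exact Nat.dvd_sub h2 h3
    exact Nat.dvd_one.1 h1
  have hpN' : Prm N' 𝔭 := by rw [hN', prm_mul_left_iff]; exact ⟨hpN, hpm⟩
  have hcomm : ∀ σ τ : Gal(M'/k), σ * τ = τ * σ := fun σ τ => IsMulCommutative.is_comm.comm σ τ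
  obtain ⟨φ, hφ⟩ : ∃ φ : Gal(M'/k), φ = art 𝔭 := ⟨_, rfl⟩
  obtain ⟨L', hL'⟩ : ∃ L' : IntermediateField k M', L' =
    IntermediateField.fixedField (Subgroup.zpowers φ) := ⟨_, rfl⟩
  -- the prime of `L'`
  obtain ⟨𝔓, h𝔓, h𝔓𝔭⟩ := exists_over (F := k) (M := M') 𝔭
  have hcong : Cong (toG k M' φ) 𝔓 (Ideal.absNorm 𝔭) := by
    rw [hφ]
    exact art_prime hcomm hr' hp h0 ((prm_iff _).1 hpN') h𝔓𝔭
  have hcc : (𝔓.comap (algebraMap (𝓞 L') (𝓞 M'))).comap (algebraMap (𝓞 k) (𝓞 L')) = 𝔭 := by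
    rw [Ideal.comap_comap, ← IsScalarTower.algebraMap_eq, h𝔓𝔭]
  have hQp : (𝔓.comap (algebraMap (𝓞 L') (𝓞 M'))).IsPrime := Ideal.comap_isPrime _ _
  have hQ0 : 𝔓.comap (algebraMap (𝓞 L') (𝓞 M')) ≠ ⊥ := by
    intro h
    rw [h, Ideal.comap_bot_of_injective _ (FaithfulSMul.algebraMap_injective (𝓞 k) (𝓞 L'))]
      at hcc
    exact h0 hcc.symm
  have hfixφ : ∀ x : L', φ (algebraMap L' M' x) = algebraMap L' M' x := by
    intro x
    have h2 : ∀ y ∈ L', φ y = y := by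
      intro y hy
      rw [hL', IntermediateField.mem_fixedField_iff] at hy
      exact hy φ (Subgroup.mem_zpowers φ)
    exact h2 x x.2
  have hQn : Ideal.absNorm (𝔓.comap (algebraMap (𝓞 L') (𝓞 M'))) = Ideal.absNorm 𝔭 := by
    have h1 := rtw_norm (k := k) (M := M') hQp hQ0 rfl hfixφ (by rw [hcc]; exact hcong)
    rw [h1, hcc]
  have hnm : IsNm L' N' 𝔭 := by
    refine ⟨[𝔭], by simp, ?_⟩
    intro 𝔮 h𝔮
    rw [List.mem_singleton] at h𝔮
    rw [h𝔮]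
    refine ⟨_, hQp, hQ0, ?_, hcc, hQn⟩
    rw [prm_iff, hQn]
    exact (prm_iff _).1 hpN'
  obtain ⟨a', B', ha', hB'0, hNB', hst⟩ := step_abelian hk (L := L') (M := M') hN'2 hr'
  obtain ⟨𝔟, h𝔟0, h𝔟p, h𝔟e⟩ := exists_REq_prm (N := N' ^ (max a' a₀ + 1))
    (pow_ne_zero _ hN'0) (m := B' * B₀ * N') (mul_ne_zero (mul_ne_zero hB'0 hB₀) hN'0) h0
    (by
      rw [prm_iff]
      exact Nat.Coprime.pow_right _ ((prm_iff _).1 hpN'))
  have h𝔟p' := ((prm_mul_left_iff _).1 h𝔟p).2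
  have h𝔟B' : Prm B' 𝔟 := h𝔟p'.of_dvd ⟨B₀ * N', by ring⟩
  have h𝔟B₀ : Prm B₀ 𝔟 := h𝔟p'.of_dvd ⟨B' * N', by ring⟩
  have h𝔟N' : Prm N' 𝔟 := h𝔟p'.of_dvd ⟨B' * B₀, by ring⟩
  have hmax1 : a' ≤ max a' a₀ + 1 := (le_max_left _ _).trans (Nat.le_succ _)
  have hmax2 : a₀ ≤ max a' a₀ + 1 := (le_max_right _ _).trans (Nat.le_succ _)
  have h1 : REq (N' ^ a') 𝔟 𝔭 := (h𝔟e.of_dvd (pow_dvd_pow _ hmax1)).symm
  have hfix𝔟 := hst 𝔟 𝔭 h𝔟0 h𝔟B' hnm h1
  have hmem : (art 𝔟 : Gal(M'/k)) ∈ Subgroup.zpowers φ := by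
    rw [← IntermediateField.fixingSubgroup_fixedField (Subgroup.zpowers φ), ← hL',
      IntermediateField.mem_fixingSubgroup_iff]
    intro x hx
    exact hfix𝔟 ⟨x, hx⟩
  obtain ⟨j, hj⟩ := (isOfFinOrder_of_finite φ).mem_powers_iff_mem_zpowers.2 hmem
  have hj' : (art 𝔟 : Gal(M'/k)) = φ ^ j := hj.symm
  -- the action on the roots of unity
  have hζm : ζ ^ m = 1 := hζ.pow_eq_one
  have hφζ : φ ζ = ζ ^ q := by
    rw [hφ, hq]
    exact art_root hr' hmN' hζm h0 hpN'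
  have hφj : ∀ i : ℕ, (φ ^ i) ζ = ζ ^ (q ^ i) := by
    intro i
    induction i with
    | zero => simp
    | succ i ih =>
      rw [pow_succ', AlgEquiv.mul_apply, ih, map_pow, hφζ, ← pow_mul, pow_succ']
  have h𝔟ζ : (art 𝔟 : Gal(M'/k)) ζ = ζ ^ Ideal.absNorm 𝔟 := art_root hr' hmN' hζm h𝔟0 h𝔟N'
  have hmod : q ^ j ≡ Ideal.absNorm 𝔟 [MOD m] := by
    have h2 : ζ ^ (q ^ j) = ζ ^ Ideal.absNorm 𝔟 := by rw [← hφj, ← hj', h𝔟ζ]
    rw [← pow_mod_orderOf ζ (q ^ j), ← pow_mod_orderOf ζ (Ideal.absNorm 𝔟), ← hζ.eq_orderOf] at h2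
    exact hζ.pow_inj (Nat.mod_lt _ (Nat.pos_of_ne_zero hm0))
      (Nat.mod_lt _ (Nat.pos_of_ne_zero hm0)) h2
  have hmod2 : Ideal.absNorm 𝔟 ≡ q [MOD m] := by
    rw [hq]
    refine absNorm_of_REq hk (h𝔟e.of_dvd ?_).symm
    exact hmN'.trans (dvd_pow_self _ (Nat.succ_ne_zero _))
  have hje : j ≡ 1 [MOD e] := rtw_pow hq2 he1 (by rw [← hm]; exact hmod.trans hmod2)
  refine ⟨𝔟, h𝔟0, h𝔟B₀, ?_, ?_⟩
  · refine (h𝔟e.of_dvd ?_).symm
    exact (pow_dvd_pow_of_dvd hNN' a₀).trans (pow_dvd_pow _ hmax2)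
  · have hφj' : ∀ (i : ℕ) (x : M), (φ ^ i) (algebraMap M M' x) =
        algebraMap M M' (((art 𝔭 : Gal(M/k)) ^ i) x) := by
      intro i
      induction i with
      | zero => intro x; simp
      | succ i ih =>
        intro x
        rw [pow_succ', AlgEquiv.mul_apply, ih, pow_succ', AlgEquiv.mul_apply, hφ]
        exact art_restrict hr hr' hNN' h0 hpN' _
    have hpj : (art 𝔭 : Gal(M/k)) ^ j = art 𝔭 := by
      have h2 : j ≡ 1 [MOD orderOf (art 𝔭 : Gal(M/k))] :=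
        hje.of_dvd (by rw [he]; exact orderOf_dvd_natCard _)
      have h3 := (pow_eq_pow_iff_modEq (x := (art 𝔭 : Gal(M/k)))).2 h2
      rwa [pow_one] at h3
    ext x
    apply (algebraMap M M').injective
    rw [← art_restrict hr hr' hNN' h𝔟0 h𝔟N' x, hj', hφj', hpj]

end Pool.Agent.CMR
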