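import Mathlib

/-!
# R-UNI a lattice is determined by its invariants

Let `f = ℘[L]`, `g = ℘[L']`, `δ = f - g` near `0`. Near `0`, `f(z) = z⁻² + F(z)` with `F` analytic (`weierstrassPExcept`), even, `F(0) = 0`, `F''(0)/2 = 3 G₄ = g₂/20`, `F⁗(0)/24 = 5 G₆ = g₃/28` (`iteratedDeriv_weierstrassPExcept_self` or the power series); so `δ = F - G` is analytic at `0` and vanishes there to order `≥ 5`
(coefficients of `z⁰, z², z⁴` vanish, odd ones too). Differentiating `℘'² = 4℘³ - g₂℘ - g₃` (`derivWeierstrassP_sq`) and dividing by `2℘'` (`℘' ≠ 0` near `0` except `0`): `f'' = 6f² - g₂/2`, the same for `g`, so `δ'' = 6 (f + g) δ` near `0` (punctured) and `z² δ'' = (12 + z² (…)) δ`, i.e. `z²δ'' = 6(2 + z²F + z²G) δ`. If `δ` has finite order `m` at `0`,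
`δ = a z^m + …`, `a ≠ 0`, comparing the coefficients of `z^m`: `m(m-1) = 12`, `m = 4`, a contradiction. So `δ = 0` near `0`, and by the identity theorem on the connected set `ℂ ∖ (L ∪ L')` (complement of a countable closed set is connected; `AnalyticOnNhd.eqOn_of_preconnected_of_eventuallyEq`) `f = g` there.
A point `l ∈ L ∖ L'` would be a pole of `f` (`not_continuousAt_weierstrassP`, or `|f| → ∞` by `order_weierstrassP`), but `g` is bounded near `l`. (Simpler for the last step: `f = g` on a punctured neighbourhood of every point not in `L ∪ L'`; approach `l`.)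
-/

set_option autoImplicit false

noncomputable section

open scoped PeriodPair

namespace Pool.Agent.CMR

open Filter Topology

private lemma uni_near (L : PeriodPair) : ∀ᶠ z in 𝓝[≠] (0 : ℂ), z ≠ 0 ∧ z ∉ L.lattice ∧
    ℘[L] z = ℘[L - (0 : ℂ)] z + 1 / z ^ 2 ∧ ℘'[L] z = deriv ℘[L - (0 : ℂ)] z - 2 / z ^ 3 := by
  filter_upwards [self_mem_nhdsWithin, mem_nhdsWithin_of_mem_nhds
    (L.compl_lattice_sdiff_singleton_mem_nhds 0)] with z hz hz'
  have hz0 : z ≠ 0 := hz
  refine ⟨hz0, ?_, ?_, ?_⟩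
  · intro h
    exact hz' ⟨h, hz0⟩
  · have h := L.weierstrassPExcept_add 0 z
    simp only [ZeroMemClass.coe_zero, sub_zero] at h
    rw [← h]
    simp
  · have h := L.derivWeierstrassPExcept_sub 0 z
    simp only [ZeroMemClass.coe_zero, sub_zero] at h
    rw [← h, L.eqOn_deriv_weierstrassPExcept_derivWeierstrassPExcept 0 hz']

private lemma uni_alg {F G F' G' z g2 g3 : ℂ} (hz : z ≠ 0)
    (h1 : (F' - 2 / z ^ 3) ^ 2 = 4 * (F + 1 / z ^ 2) ^ 3 - g2 * (F + 1 / z ^ 2) - g3)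
    (h2 : (G' - 2 / z ^ 3) ^ 2 = 4 * (G + 1 / z ^ 2) ^ 3 - g2 * (G + 1 / z ^ 2) - g3) :
    z * (F' - G') * (-4 + z ^ 3 * (F' + G')) =
      (F - G) * (12 + 12 * z ^ 2 * (F + G) + 4 * z ^ 4 * (F ^ 2 + F * G + G ^ 2) - g2 * z ^ 4) := by
  have e : (F' - 2 / z ^ 3) ^ 2 - (G' - 2 / z ^ 3) ^ 2 =
      4 * (F + 1 / z ^ 2) ^ 3 - g2 * (F + 1 / z ^ 2) - g3 -
        (4 * (G + 1 / z ^ 2) ^ 3 - g2 * (G + 1 / z ^ 2) - g3) := by rw [h1, h2]
  have h3 : z ^ 4 * ((F' - 2 / z ^ 3) ^ 2 - (G' - 2 / z ^ 3) ^ 2) =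
      z * (F' - G') * (-4 + z ^ 3 * (F' + G')) := by
    field_simp
    ring
  have h4 : z ^ 4 * (4 * (F + 1 / z ^ 2) ^ 3 - g2 * (F + 1 / z ^ 2) - g3 -
        (4 * (G + 1 / z ^ 2) ^ 3 - g2 * (G + 1 / z ^ 2) - g3)) = (F - G) *
      (12 + 12 * z ^ 2 * (F + G) + 4 * z ^ 4 * (F ^ 2 + F * G + G ^ 2) - g2 * z ^ 4) := by
    field_simp
    ring
  rw [← h3, ← h4, e]

private lemma uni_zero {L L' : PeriodPair} (h2 : L.g₂ = L'.g₂) (h3 : L.g₃ = L'.g₃) :
    ∀ᶠ z in 𝓝 (0 : ℂ), (℘[L - (0 : ℂ)] - ℘[L' - (0 : ℂ)]) z = 0 := by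
  by_contra hcon
  have hF := L.analyticAt_weierstrassPExcept 0
  have hG := L'.analyticAt_weierstrassPExcept 0
  obtain ⟨m, h, hh, hh0, heq⟩ := (hF.sub hG).exists_eventuallyEq_pow_smul_nonzero_iff.2 hcon
  simp only [sub_zero, smul_eq_mul] at heq
  set F := ℘[L - (0 : ℂ)] with hFd
  set G := ℘[L' - (0 : ℂ)] with hGd
  have hder : ∀ᶠ z in 𝓝 (0 : ℂ), z * (deriv F z - deriv G z) = z ^ m * (m * h z + z * deriv h z) := by
    have e1 : deriv (F - G) =ᶠ[𝓝 0] deriv fun z => z ^ m * h z := Filter.EventuallyEq.deriv heq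
    filter_upwards [e1, hF.eventually_analyticAt, hG.eventually_analyticAt,
      hh.eventually_analyticAt] with z hz hFz hGz hhz
    have e2 : deriv (F - G) z = deriv F z - deriv G z :=
      deriv_sub hFz.differentiableAt hGz.differentiableAt
    have e3 : deriv (fun z => z ^ m * h z) z = m * z ^ (m - 1) * h z + z ^ m * deriv h z := by
      have e4 : HasDerivAt (fun z => z ^ m * h z) (m * z ^ (m - 1) * h z + z ^ m * deriv h z) z :=
        (hasDerivAt_pow m z).mul hhz.differentiableAt.hasDerivAt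
      exact e4.deriv
    rw [← e2, hz, e3]
    rcases m with _ | m
    · simp
    · simp only [Nat.add_sub_cancel]
      ring
  let Φ : ℂ → ℂ := fun z => (m * h z + z * deriv h z) * (-4 + z ^ 3 * (deriv F z + deriv G z)) -
    h z * (12 + 12 * z ^ 2 * (F z + G z) + 4 * z ^ 4 * (F z ^ 2 + F z * G z + G z ^ 2) -
      L.g₂ * z ^ 4)
  have hΦ : ∀ᶠ z in 𝓝[≠] (0 : ℂ), Φ z = 0 := by
    filter_upwards [uni_near L, uni_near L', hder.filter_mono nhdsWithin_le_nhds,
      heq.filter_mono nhdsWithin_le_nhds] with z hz hz' hd he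
    obtain ⟨z0, zL, e1, e2⟩ := hz
    obtain ⟨-, zL', e1', e2'⟩ := hz'
    have s1 := L.derivWeierstrassP_sq z zL
    have s2 := L'.derivWeierstrassP_sq z zL'
    rw [e1, e2] at s1
    rw [e1', e2', ← h2, ← h3] at s2
    have s3 := uni_alg z0 s1 s2
    rw [← hFd, ← hGd, hd] at s3
    rw [show F z - G z = z ^ m * h z from he] at s3
    have s4 : z ^ m * Φ z = 0 := by
      simp only [Φ]
      linear_combination s3
    exact (mul_eq_zero.1 s4).resolve_left (pow_ne_zero m z0)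
  have hc : ContinuousAt Φ 0 := by
    have c1 := hF.continuousAt
    have c2 := hG.continuousAt
    have c3 := hF.deriv.continuousAt
    have c4 := hG.deriv.continuousAt
    have c5 := hh.continuousAt
    have c6 := hh.deriv.continuousAt
    simp only [Φ]
    fun_prop
  have hΦ0 : Φ 0 = 0 := by
    have t1 : Tendsto Φ (𝓝[≠] 0) (𝓝 (Φ 0)) := hc.tendsto.mono_left nhdsWithin_le_nhds
    have t2 : Tendsto Φ (𝓝[≠] 0) (𝓝 0) :=
      tendsto_const_nhds.congr' (hΦ.mono fun z hz => hz.symm)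
    exact tendsto_nhds_unique t1 t2
  have h5 : Φ 0 = -(4 * m + 12 : ℕ) * h 0 := by
    simp only [Φ]
    push_cast
    ring
  rw [h5] at hΦ0
  rcases mul_eq_zero.1 hΦ0 with h6 | h6
  · rw [neg_eq_zero] at h6
    have h7 : (4 * m + 12 : ℕ) = 0 := by exact_mod_cast h6
    omega
  · exact hh0 h6

private lemma uni_countable (L : PeriodPair) : (L.lattice : Set ℂ).Countable := by
  have : Countable L.lattice := L.latticeEquivProd.toEquiv.countable_iff.2 inferInstance
  exact Set.countable_coe_iff.1 this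

private lemma uni_off {L L' : PeriodPair} (h2 : L.g₂ = L'.g₂) (h3 : L.g₃ = L'.g₃) :
    Set.EqOn ℘[L] ℘[L'] ((L.lattice : Set ℂ) ∪ L'.lattice)ᶜ := by
  set U : Set ℂ := ((L.lattice : Set ℂ) ∪ L'.lattice)ᶜ with hU
  have hUo : IsOpen U := (L.isClosed_lattice.union L'.isClosed_lattice).isOpen_compl
  have hconn : IsPreconnected U :=
    (((uni_countable L).union (uni_countable L')).isConnected_compl_of_one_lt_rank
      (by rw [Complex.rank_real_complex]; exact Nat.one_lt_ofNat)).isPreconnected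
  have hz := (uni_zero h2 h3).eventually_nhds.filter_mono (nhdsWithin_le_nhds (s := {0}ᶜ))
  obtain ⟨z, hz1, hz2, hz3⟩ := (hz.and ((uni_near L).and (uni_near L'))).exists
  have hzU : z ∈ U := by
    rw [hU, Set.mem_compl_iff, Set.mem_union, not_or]
    exact ⟨hz2.2.1, hz3.2.1⟩
  refine AnalyticOnNhd.eqOn_of_preconnected_of_eventuallyEq
    (L.analyticOnNhd_weierstrassP.mono ?_) (L'.analyticOnNhd_weierstrassP.mono ?_) hconn hzU ?_
  · exact Set.compl_subset_compl.2 Set.subset_union_left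
  · exact Set.compl_subset_compl.2 Set.subset_union_right
  · have hn : ∀ᶠ w in 𝓝 z, w ≠ 0 := eventually_ne_nhds hz2.1
    filter_upwards [hz1, hUo.mem_nhds hzU, hn] with w hw hwU hw0
    have e1 := L.weierstrassPExcept_add 0 w
    have e2 := L'.weierstrassPExcept_add 0 w
    rw [← e1, ← e2]
    simp only [ZeroMemClass.coe_zero]
    rw [show ℘[L - (0 : ℂ)] w = ℘[L' - (0 : ℂ)] w from sub_eq_zero.1 hw]

private lemma uni_sub {L L' : PeriodPair} (h2 : L.g₂ = L'.g₂) (h3 : L.g₃ = L'.g₃) {z : ℂ}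
    (hz : z ∈ L.lattice) : z ∈ L'.lattice := by
  by_contra hz'
  have h4 := L.order_weierstrassP z hz
  have h5 : ℘[L] =ᶠ[𝓝[≠] z] ℘[L'] := by
    filter_upwards [self_mem_nhdsWithin, mem_nhdsWithin_of_mem_nhds
      (L.compl_lattice_sdiff_singleton_mem_nhds z),
      mem_nhdsWithin_of_mem_nhds (L'.isClosed_lattice.isOpen_compl.mem_nhds hz')] with w w1 w2 w3
    apply uni_off h2 h3
    rw [Set.mem_compl_iff, Set.mem_union, not_or]
    exact ⟨fun h => w2 ⟨h, w1⟩, w3⟩
  rw [meromorphicOrderAt_congr h5] at h4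
  have h6 := (L'.analyticOnNhd_weierstrassP z hz').meromorphicOrderAt_nonneg
  rw [h4] at h6
  exact absurd h6 (by decide)

/-- a lattice is determined by its invariants `g₂, g₃` -/
theorem lattice_eq_of_g {L L' : PeriodPair} (h2 : L.g₂ = L'.g₂) (h3 : L.g₃ = L'.g₃) :
    ∀ z, z ∈ L.lattice ↔ z ∈ L'.lattice := by
  intro z
  exact ⟨uni_sub h2 h3, uni_sub h2.symm h3.symm⟩

end Pool.Agent.CMR
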