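import Pool.Agent.CMR.RLat

/-!
# R-W congruence groups with trivial cohomology

`Λ = {x : InLam x}`, `R = {x : InR x}`; `N^t R ⊆ Λ ⊆ R`, `Λ` is stable under `Gal(L/k)` and under
multiplication with `InR` elements of `k`. `(1+N^iλ)(1+N^iμ) = 1 + N^i(λ+μ+N^iλμ)`,
`N^i λμ ∈ N^i R ⊆ Λ`. `InW.unit`: `InR.inv_one_add`. Inverse: with `u = (1+N^iλ)⁻¹ ∈ R`:
`u = 1 - N^iλ + N^{2i}λ²u`, and `N^{i}λ²u ∈ Λ`.
`inW_of_congr`: `a = 1 + N^{i+t}b = 1 + N^i(N^t b)`. Hilbert 90: `n = finrank k L`, `σ^n = 1`,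
`N x = ∏_{j<n} σ^j x`.
(1) If `x = 1 + N^lλ`, `l ≥ i`, `N x = 1`: expanding, `N^l Tr λ + N^{2l}(element of R) = 0`, so
`Tr λ = ∑_j σ^jλ ∈ N^l R ⊆ N Λ` (`l ≥ t+1`). Write `λ = ∑_g c_g gθ`;
`Tr λ = (∑_g c_g) ∑_h hθ`, so by independence `∑ c_g = N e`, `e ∈ R_k` (`R_k` = `InR` in `k`), and
`λ = ∑_g c_g (gθ - θ) + N e θ`, `σ^jθ - θ = σμ_j - μ_j`, `μ_j = ∑_{m<j} σ^mθ`. Then
`x (1+N^lμ)/(1+N^lσμ) ∈ 1 + N^{l+1}Λ`.
(2) Induction: for all `l ≥ i` there is `y ∈ W_i` with `x y/σy ∈ W_l` (norm `1` again).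
(3) Let `x' = x y/σ y ∈ W_l`, `N x' = 1`, `b_j = ∏_{m<j} σ^m x'` (`0 ≤ j ≤ n`), `b_0 = 1 = b_n`,
`σ(b_j) x' = b_{j+1}`, `s = ∑_{j<n} b_j`: `σ(s) x' = s`. `b_j ∈ W_l`, so `s = n + N^lλ''`,
`s/n = 1 + (N^l/n)λ''`; for `l` large `N^l/n = N^i r` with `r` a rational number with denominator
prime to `N` (`n = n₁n₂`, `n₁ ∣ N^{l-i}`, `n₂` prime to `N`), so `z = s/n ∈ W_i`, `x' = z/σz` and
`x = σ(y z⁻¹)/(y z⁻¹)`.
-/

set_option autoImplicit false

noncomputable section

open NumberField Pool.Agent.StarkRQ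
open scoped Pointwise

namespace Pool.Agent.CMR

variable {k L : Type} [Field k] [NumberField k] [Field L] [NumberField L] [Algebra k L]
  [IsGalois k L] {N t i : ℕ} {θ : L}

/-! ### The localization -/

omit [NumberField k] [NumberField L] [IsGalois k L] in
private theorem rw_alg {c : k} (h : InR N c) : InR N (algebraMap k L c) := by
  obtain ⟨s, hs, h⟩ := h
  refine ⟨s, hs, ?_⟩
  have h1 : (s : L) * algebraMap k L c = algebraMap k L ((s : k) * c) := by
    rw [map_mul, map_natCast]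
  rw [h1]
  exact h.algebraMap

private theorem rw_int {x : L} (h : IsIntegral ℤ x) : InR N x :=
  ⟨1, Nat.coprime_one_left N, by rwa [Nat.cast_one, one_mul]⟩

private theorem rw_nat (m : ℕ) : InR N (m : L) := rw_int (isIntegral_natCast m)

private theorem rw_zero : InR N (0 : L) := rw_int isIntegral_zero

private theorem rw_one : InR N (1 : L) := rw_int isIntegral_one

private theorem rw_pow (j : ℕ) {x : L} (h : InR N x) : InR N ((N : L) ^ j * x) := by
  have h1 : InR N ((N : L) ^ j) := by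
    have := rw_nat (L := L) (N := N) (N ^ j)
    rwa [Nat.cast_pow] at this
  exact h1.mul h

private theorem rw_sub {x y : L} (hx : InR N x) (hy : InR N y) : InR N (x - y) := by
  rw [sub_eq_add_neg]
  exact hx.add hy.neg

private theorem rw_sum {α : Type} (s : Finset α) (f : α → L) (h : ∀ a ∈ s, InR N (f a)) :
    InR N (∑ a ∈ s, f a) := by
  classical
  induction s using Finset.induction_on with
  | empty => rw [Finset.sum_empty]; exact rw_zero
  | insert a s ha ih =>
    rw [Finset.sum_insert ha]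
    exact (h a (Finset.mem_insert_self a s)).add
      (ih fun b hb => h b (Finset.mem_insert_of_mem hb))

/-! ### The lattice -/

omit [IsGalois k L] in
private theorem rw_fd : FiniteDimensional k L := FiniteDimensional.right ℚ k L

omit [IsGalois k L] in
private theorem rw_iff [Fintype Gal(L/k)] {x : L} : InLam k N θ x ↔
    ∃ c : Gal(L/k) → k, (∀ g, InR N (c g)) ∧ x = ∑ g : Gal(L/k), algebraMap k L (c g) * g θ := by
  unfold InLam
  simp only [finsum_eq_sum_of_fintype]

private theorem lam_zero : InLam k N θ 0 := by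
  refine ⟨fun _ => 0, fun _ => rw_zero, ?_⟩
  simp

private theorem lam_add {x y : L} (hx : InLam k N θ x) (hy : InLam k N θ y) :
    InLam k N θ (x + y) := by
  have := rw_fd (k := k) (L := L)
  rw [rw_iff] at *
  obtain ⟨c, hc, rfl⟩ := hx
  obtain ⟨d, hd, rfl⟩ := hy
  refine ⟨fun g => c g + d g, fun g => (hc g).add (hd g), ?_⟩
  rw [← Finset.sum_add_distrib]
  exact Finset.sum_congr rfl fun g _ => by rw [map_add, add_mul]

private theorem lam_smul {a : k} (ha : InR N a) {x : L} (hx : InLam k N θ x) :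
    InLam k N θ (algebraMap k L a * x) := by
  have := rw_fd (k := k) (L := L)
  rw [rw_iff] at *
  obtain ⟨c, hc, rfl⟩ := hx
  refine ⟨fun g => a * c g, fun g => ha.mul (hc g), ?_⟩
  rw [Finset.mul_sum]
  exact Finset.sum_congr rfl fun g _ => by rw [map_mul, mul_assoc]

private theorem lam_neg {x : L} (hx : InLam k N θ x) : InLam k N θ (-x) := by
  have h := lam_smul (k := k) (a := (-1 : k)) (InR.neg rw_one) hx
  rwa [map_neg, map_one, neg_one_mul] at h

private theorem lam_sub {x y : L} (hx : InLam k N θ x) (hy : InLam k N θ y) :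
    InLam k N θ (x - y) := by
  rw [sub_eq_add_neg]
  exact lam_add hx (lam_neg hy)

private theorem lam_sum {α : Type} (s : Finset α) (f : α → L)
    (h : ∀ a ∈ s, InLam k N θ (f a)) : InLam k N θ (∑ a ∈ s, f a) := by
  classical
  induction s using Finset.induction_on with
  | empty => rw [Finset.sum_empty]; exact lam_zero
  | insert a s ha ih =>
    rw [Finset.sum_insert ha]
    exact lam_add (h a (Finset.mem_insert_self a s))
      (ih fun b hb => h b (Finset.mem_insert_of_mem hb))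

private theorem lam_map (τ : Gal(L/k)) {x : L} (hx : InLam k N θ x) : InLam k N θ (τ x) := by
  have := rw_fd (k := k) (L := L)
  rw [rw_iff] at *
  obtain ⟨c, hc, rfl⟩ := hx
  refine ⟨fun g => c (τ⁻¹ * g), fun g => hc _, ?_⟩
  rw [map_sum, ← Equiv.sum_comp (Equiv.mulLeft τ)
    fun g : Gal(L/k) => algebraMap k L (c (τ⁻¹ * g)) * g θ]
  refine Finset.sum_congr rfl fun g _ => ?_
  rw [map_mul, AlgEquiv.commutes, Equiv.coe_mulLeft, inv_mul_cancel_left]
  rfl

private theorem lam_gen (g : Gal(L/k)) : InLam k N θ (g θ) := by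
  classical
  have := rw_fd (k := k) (L := L)
  rw [rw_iff]
  refine ⟨fun h => if h = g then 1 else 0, fun h => ?_, ?_⟩
  · dsimp only
    split_ifs
    · exact rw_one
    · exact rw_zero
  · rw [Finset.sum_eq_single g]
    · simp
    · intro h _ hne
      dsimp only
      rw [if_neg hne, map_zero, zero_mul]
    · intro h
      exact absurd (Finset.mem_univ g) h

private theorem lam_le (hθ : IsLat k N t θ) {j : ℕ} (hj : t ≤ j) {x : L} (hx : InR N x) :
    InLam k N θ ((N : L) ^ j * x) := by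
  have h := hθ.le _ (rw_pow (j - t) hx)
  rwa [← mul_assoc, ← pow_add, Nat.add_sub_cancel' hj] at h

theorem InLam.inR (hN : 2 ≤ N) (hθ : IsLat k N t θ) {x : L} (hx : InLam k N θ x) : InR N x := by
  have := rw_fd (k := k) (L := L)
  rw [rw_iff] at hx
  obtain ⟨c, hc, rfl⟩ := hx
  exact rw_sum _ _ fun g _ => (rw_alg (hc g)).mul (InR.map g (rw_int hθ.int))

theorem InW.mul (hN : 2 ≤ N) (hθ : IsLat k N t θ) (hi : t < i) {x y : L} (hx : InW k N i θ x)
    (hy : InW k N i θ y) : InW k N i θ (x * y) := by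
  obtain ⟨l, hl, rfl⟩ := hx
  obtain ⟨m, hm, rfl⟩ := hy
  refine ⟨l + m + (N : L) ^ i * (l * m),
    lam_add (lam_add hl hm) (lam_le hθ hi.le ((hl.inR hN hθ).mul (hm.inR hN hθ))), ?_⟩
  ring

theorem InW.unit (hN : 2 ≤ N) (hθ : IsLat k N t θ) (hi : t < i) {x : L} (hx : InW k N i θ x) :
    x ≠ 0 ∧ InR N x ∧ InR N x⁻¹ := by
  obtain ⟨l, hl, rfl⟩ := hx
  have h1 : (N : L) ^ i * l = (N : L) * ((N : L) ^ (i - 1) * l) := by
    rw [← mul_assoc, ← pow_succ', Nat.sub_add_cancel (by omega)]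
  have h2 := InR.inv_one_add hN (rw_pow (i - 1) (hl.inR hN hθ))
  rw [← h1] at h2
  exact ⟨h2.1, rw_one.add (rw_pow i (hl.inR hN hθ)), h2.2⟩

theorem InW.inv (hN : 2 ≤ N) (hθ : IsLat k N t θ) (hi : t < i) {x : L} (hx : InW k N i θ x) :
    InW k N i θ x⁻¹ := by
  obtain ⟨h0, -, h2⟩ := hx.unit hN hθ hi
  obtain ⟨l, hl, rfl⟩ := hx
  set u := (1 + (N : L) ^ i * l)⁻¹ with hu
  have h3 : (1 + (N : L) ^ i * l) * u = 1 := mul_inv_cancel₀ h0
  have hlR := hl.inR hN hθ
  refine ⟨-l + (N : L) ^ i * (l * l * u),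
    lam_add (lam_neg hl) (lam_le hθ hi.le ((hlR.mul hlR).mul h2)), ?_⟩
  linear_combination (1 - (N : L) ^ i * l) * h3

theorem InW.map (τ : Gal(L/k)) {x : L} (hx : InW k N i θ x) : InW k N i θ (τ x) := by
  obtain ⟨l, hl, rfl⟩ := hx
  refine ⟨τ l, lam_map τ hl, ?_⟩
  rw [map_add, map_one, map_mul, map_pow, map_natCast]

theorem inW_of_congr (hN : 2 ≤ N) (hθ : IsLat k N t θ) {a : 𝓞 L}
    (ha : ((N ^ (i + t) : ℕ) : 𝓞 L) ∣ a - 1) : InW k N i θ (a : L) := by
  obtain ⟨b, hb⟩ := ha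
  refine ⟨(N : L) ^ t * (b : L), hθ.le _ (InR.coe b), ?_⟩
  have h1 := congrArg (fun y : 𝓞 L => (y : L)) hb
  simp only [map_sub, map_one, map_mul, Nat.cast_pow, map_pow, map_natCast] at h1
  rw [← mul_assoc, ← pow_add]
  linear_combination h1

/-! ### Hilbert 90 -/

private theorem rw_expand {l : ℕ} (a : ℕ → L) (ha : ∀ j, InR N (a j)) (n : ℕ) :
    ∃ ρ : L, InR N ρ ∧ ∏ j ∈ Finset.range n, (1 + (N : L) ^ l * a j) =
      1 + (N : L) ^ l * ∑ j ∈ Finset.range n, a j + (N : L) ^ l * (N : L) ^ l * ρ := by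
  induction n with
  | zero => exact ⟨0, rw_zero, by simp⟩
  | succ n ih =>
    obtain ⟨ρ, hρ, h⟩ := ih
    refine ⟨ρ + (∑ j ∈ Finset.range n, a j) * a n + (N : L) ^ l * (ρ * a n),
      (hρ.add ((rw_sum _ _ fun j _ => ha j).mul (ha n))).add (rw_pow l (hρ.mul (ha n))), ?_⟩
    rw [Finset.prod_range_succ, Finset.sum_range_succ, h]
    ring

omit [NumberField k] [NumberField L] [IsGalois k L] in
private theorem rw_nm_map {n : ℕ} {σ : Gal(L/k)} (hn : σ ^ n = 1) (y : L) (hy : y ≠ 0) :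
    ∏ j ∈ Finset.range n, (σ ^ j) (y / σ y) = 1 := by
  have h1 : ∀ j, (σ ^ j) (y / σ y) = (σ ^ j) y / (σ ^ (j + 1)) y := by
    intro j
    rw [map_div₀, pow_succ]
    rfl
  have h2 : ∀ m, ∏ j ∈ Finset.range m, (σ ^ j) (y / σ y) = y / (σ ^ m) y := by
    intro m
    induction m with
    | zero => simp [hy]
    | succ m ih =>
      have h3 : (σ ^ m) y ≠ 0 := (map_ne_zero _).2 hy
      have h4 : (σ ^ (m + 1)) y ≠ 0 := (map_ne_zero _).2 hy
      rw [Finset.prod_range_succ, ih, h1]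
      field_simp
  rw [h2, hn]
  exact div_self hy

/-- one step of the approximation -/
private theorem rw_step (hN : 2 ≤ N) (hθ : IsLat k N t θ) {l : ℕ} (hl : t < l) (σ : Gal(L/k))
    (hσ : ∀ τ : Gal(L/k), τ ∈ Subgroup.zpowers σ) {x : L} (hx : InW k N l θ x)
    (h : ∏ j ∈ Finset.range (Module.finrank k L), (σ ^ j) x = 1) :
    ∃ y : L, InW k N l θ y ∧ InW k N (l + 1) θ (x * (y / σ y)) := by
  classical
  have hfd := rw_fd (k := k) (L := L)
  obtain ⟨lam, hlam, rfl⟩ := hx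
  have hlamR := hlam.inR hN hθ
  have hN0 : (N : L) ≠ 0 := by
    have : N ≠ 0 := by omega
    exact_mod_cast this
  set n := Module.finrank k L with hn
  -- the trace of `λ`
  obtain ⟨ρ, hρ, hexp⟩ := rw_expand (N := N) (l := l) (fun j => (σ ^ j) lam)
    (fun j => InR.map (σ ^ j) hlamR) n
  have h1 : ∀ j, (σ ^ j) (1 + (N : L) ^ l * lam) = 1 + (N : L) ^ l * (σ ^ j) lam := by
    intro j
    rw [map_add, map_one, map_mul, map_pow, map_natCast]
  rw [Finset.prod_congr rfl fun j _ => h1 j, hexp] at h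
  have htr : ∑ j ∈ Finset.range n, (σ ^ j) lam = -((N : L) ^ l * ρ) := by
    have h2 : (N : L) ^ l * (∑ j ∈ Finset.range n, (σ ^ j) lam + (N : L) ^ l * ρ) = 0 := by
      linear_combination h
    rcases mul_eq_zero.1 h2 with h3 | h3
    · exact absurd h3 (pow_ne_zero l hN0)
    · linear_combination h3
  -- the powers of `σ`
  have hord : orderOf σ = n := by
    rw [hn, ← IsGalois.card_aut_eq_finrank k L]
    exact orderOf_eq_card_of_forall_mem_zpowers hσ
  have hσn : σ ^ n = 1 := by rw [← hord, pow_orderOf_eq_one]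
  have hexj : ∀ g : Gal(L/k), ∃ j : ℕ, σ ^ j = g := by
    intro g
    have h2 := hσ g
    rw [← mem_powers_iff_mem_zpowers] at h2
    exact h2
  choose e he using hexj
  have hsumG : ∀ f : Gal(L/k) → L, ∑ j ∈ Finset.range n, f (σ ^ j) = ∑ g, f g := by
    intro f
    refine Finset.sum_bij (fun j _ => σ ^ j) (fun _ _ => Finset.mem_univ _) ?_ ?_ (fun _ _ => rfl)
    · intro a ha b hb hab
      rw [Finset.mem_range] at ha hb
      rw [← hord] at ha hb
      exact pow_injOn_Iio_orderOf ha hb hab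
    · intro g _
      refine ⟨e g % n, ?_, ?_⟩
      · rw [Finset.mem_range, ← hord]
        exact Nat.mod_lt _ (orderOf_pos σ)
      · rw [← hord, pow_mod_orderOf, he]
  -- the coefficients
  rw [rw_iff] at hlam
  obtain ⟨c, hc, hlc⟩ := hlam
  set C : k := ∑ g, c g with hC
  have htr2 : ∑ j ∈ Finset.range n, (σ ^ j) lam = ∑ g : Gal(L/k), algebraMap k L C * g θ := by
    have h2 : ∀ j, (σ ^ j) lam = ∑ g : Gal(L/k), algebraMap k L (c g) * ((σ ^ j) * g) θ := by
      intro j
      rw [hlc, map_sum]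
      refine Finset.sum_congr rfl fun g _ => ?_
      rw [map_mul, AlgEquiv.commutes]
      rfl
    rw [Finset.sum_congr rfl fun j _ => h2 j,
      hsumG fun h => ∑ g : Gal(L/k), algebraMap k L (c g) * (h * g) θ, Finset.sum_comm]
    have h3 : ∀ g : Gal(L/k), ∑ h : Gal(L/k), algebraMap k L (c g) * (h * g) θ =
        algebraMap k L (c g) * ∑ h : Gal(L/k), h θ := by
      intro g
      rw [← Finset.mul_sum]
      congr 1
      exact Equiv.sum_comp (Equiv.mulRight g) fun h => h θ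
    rw [Finset.sum_congr rfl fun g _ => h3 g, ← Finset.sum_mul, ← map_sum, ← hC, Finset.mul_sum]
  have hNC : ∃ e₀ : k, InR N e₀ ∧ C = (N : k) * e₀ := by
    have h2 : InLam k N θ (-((N : L) ^ (l - 1) * ρ)) := lam_neg (lam_le hθ (by omega) hρ)
    rw [rw_iff] at h2
    obtain ⟨d, hd, h3⟩ := h2
    refine ⟨d 1, hd 1, ?_⟩
    have h4 : ∑ g : Gal(L/k), (C - (N : k) * d g) • g θ = 0 := by
      have h5 : (N : L) ^ l = (N : L) * (N : L) ^ (l - 1) := by
        rw [← pow_succ', Nat.sub_add_cancel (by omega)]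
      have h6 : ∑ g : Gal(L/k), algebraMap k L C * g θ =
          (N : L) * ∑ g : Gal(L/k), algebraMap k L (d g) * g θ := by
        rw [← htr2, htr, ← h3, h5]
        ring
      rw [Finset.mul_sum, ← sub_eq_zero, ← Finset.sum_sub_distrib] at h6
      rw [← h6]
      refine Finset.sum_congr rfl fun g _ => ?_
      rw [Algebra.smul_def, map_sub, map_mul, map_natCast]
      ring
    have h5 := Fintype.linearIndependent_iff.1 hθ.indep _ h4 1
    exact sub_eq_zero.1 h5
  obtain ⟨e₀, he₀, hCe⟩ := hNC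
  -- the element `μ`
  let m : Gal(L/k) → L := fun g => ∑ j ∈ Finset.range (e g), (σ ^ j) θ
  have hm : ∀ g, σ (m g) - m g = g θ - θ := by
    intro g
    have h2 : ∀ a : ℕ, σ (∑ j ∈ Finset.range a, (σ ^ j) θ) - ∑ j ∈ Finset.range a, (σ ^ j) θ =
        (σ ^ a) θ - θ := by
      intro a
      induction a with
      | zero => simp
      | succ a ih =>
        rw [Finset.sum_range_succ, map_add]
        have h3 : σ ((σ ^ a) θ) = (σ ^ (a + 1)) θ := by
          rw [pow_succ']
          rfl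
        rw [h3]
        linear_combination ih
    have h3 := h2 (e g)
    rwa [he g] at h3
  set μ : L := ∑ g : Gal(L/k), algebraMap k L (c g) * m g with hμ
  set ν : L := algebraMap k L e₀ * θ with hν
  have hμΛ : InLam k N θ μ := lam_sum _ _ fun g _ => lam_smul (hc g)
    (lam_sum _ _ fun j _ => lam_gen (σ ^ j))
  have hνΛ : InLam k N θ ν := lam_smul he₀ (lam_gen 1)
  have hdec : lam = σ μ - μ + (N : L) * ν := by
    have h2 : σ μ - μ = ∑ g : Gal(L/k), algebraMap k L (c g) * (g θ - θ) := by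
      rw [hμ, map_sum, ← Finset.sum_sub_distrib]
      refine Finset.sum_congr rfl fun g _ => ?_
      rw [map_mul, AlgEquiv.commutes, ← mul_sub, hm]
    have h3 : ∑ g : Gal(L/k), algebraMap k L (c g) * (g θ - θ) = lam - algebraMap k L C * θ := by
      rw [hlc, hC, map_sum, Finset.sum_mul, ← Finset.sum_sub_distrib]
      exact Finset.sum_congr rfl fun g _ => by ring
    rw [h2, h3, hν, hCe, map_mul, map_natCast]
    ring
  -- the conclusion
  have hyW : InW k N l θ (1 + (N : L) ^ l * μ) := ⟨μ, hμΛ, rfl⟩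
  have hsW := InW.map σ hyW
  obtain ⟨hs0, -, hsR⟩ := hsW.unit hN hθ hl
  refine ⟨1 + (N : L) ^ l * μ, hyW, ?_⟩
  have hσy : σ (1 + (N : L) ^ l * μ) = 1 + (N : L) ^ l * σ μ := by
    rw [map_add, map_one, map_mul, map_pow, map_natCast]
  rw [hσy] at hs0 hsR ⊢
  set v := (1 + (N : L) ^ l * σ μ)⁻¹ with hv
  have hvv : (1 + (N : L) ^ l * σ μ) * v = 1 := mul_inv_cancel₀ hs0
  have hμR := hμΛ.inR hN hθ
  have hνR := hνΛ.inR hN hθ
  have hσμR := InR.map σ hμR
  refine ⟨ν - (N : L) ^ l * (ν * σ μ * v) + (N : L) ^ (l - 1) * (lam * μ * v),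
    lam_add (lam_sub hνΛ (lam_le hθ hl.le ((hνR.mul hσμR).mul hsR)))
      (lam_le hθ (by omega) ((hlamR.mul hμR).mul hsR)), ?_⟩
  rw [div_eq_mul_inv, ← hv]
  have h5 : (N : L) ^ (l + 1) * (N : L) ^ (l - 1) = (N : L) ^ l * (N : L) ^ l := by
    rw [← pow_add, ← pow_add]
    congr 1
    omega
  have h6 : (N : L) ^ (l + 1) = (N : L) * (N : L) ^ l := pow_succ' _ _
  have h7 : (1 + (N : L) ^ l * lam) * ((1 + (N : L) ^ l * μ) * v) =
      1 + (N : L) ^ l * ((N : L) * ν) * v + (N : L) ^ l * (N : L) ^ l * (lam * μ * v) := by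
    linear_combination (1 : L) * hvv + ((N : L) ^ l * v) * hdec
  rw [h7, mul_add, mul_sub, ← mul_assoc _ _ (lam * μ * v), h5, h6]
  linear_combination ((N : L) * (N : L) ^ l * ν) * hvv

private theorem rw_factor (hN : 2 ≤ N) (n : ℕ) (hn : 0 < n) :
    ∃ n₁ n₂ e : ℕ, n = n₁ * n₂ ∧ n₁ ∣ N ^ e ∧ n₂.Coprime N := by
  induction n using Nat.strong_induction_on with
  | _ n ih =>
    by_cases hg : n.Coprime N
    · exact ⟨1, n, 0, by rw [one_mul], one_dvd _, hg⟩
    · obtain ⟨m, hm⟩ := Nat.gcd_dvd_left n N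
      have hg0 : Nat.gcd n N ≠ 0 := by
        intro h
        rw [h, zero_mul] at hm
        omega
      have hg1 : 2 ≤ Nat.gcd n N := by
        have : Nat.gcd n N ≠ 1 := hg
        omega
      have hm0 : 0 < m := by
        rcases Nat.eq_zero_or_pos m with h | h
        · rw [h, mul_zero] at hm
          omega
        · exact h
      obtain ⟨n₁, n₂, e, h1, h2, h3⟩ := ih m (by rw [hm]; nlinarith) hm0
      refine ⟨Nat.gcd n N * n₁, n₂, e + 1, ?_, ?_, h3⟩
      · rw [mul_assoc, ← h1]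
        exact hm
      · rw [pow_succ']
        exact mul_dvd_mul (Nat.gcd_dvd_right n N) h2

/-- Hilbert 90 for the group `W` -/
theorem inW_hilbert (hN : 2 ≤ N) (hθ : IsLat k N t θ) (hi : t < i) (σ : Gal(L/k))
    (hσ : ∀ τ : Gal(L/k), τ ∈ Subgroup.zpowers σ) {x : L} (hx : InW k N i θ x)
    (h : ∏ j ∈ Finset.range (Module.finrank k L), (σ ^ j) x = 1) :
    ∃ y : L, InW k N i θ y ∧ x = σ y / y := by
  classical
  have hfd := rw_fd (k := k) (L := L)
  set n := Module.finrank k L with hn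
  have hord : orderOf σ = n := by
    rw [hn, ← IsGalois.card_aut_eq_finrank k L]
    exact orderOf_eq_card_of_forall_mem_zpowers hσ
  have hσn : σ ^ n = 1 := by rw [← hord, pow_orderOf_eq_one]
  have hn0 : 0 < n := by rw [← hord]; exact orderOf_pos σ
  -- approximation
  have happ : ∀ m : ℕ, ∃ y : L, InW k N i θ y ∧ InW k N (i + m) θ (x * (y / σ y)) := by
    intro m
    induction m with
    | zero =>
      refine ⟨1, ⟨0, lam_zero (k := k), by simp⟩, ?_⟩
      simpa using hx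
    | succ m ih =>
      obtain ⟨y, hy, hxy⟩ := ih
      have hy0 := (hy.unit hN hθ hi).1
      have hnm : ∏ j ∈ Finset.range n, (σ ^ j) (x * (y / σ y)) = 1 := by
        have h1 : ∀ j, (σ ^ j) (x * (y / σ y)) = (σ ^ j) x * (σ ^ j) (y / σ y) := fun j =>
          map_mul _ _ _
        rw [Finset.prod_congr rfl fun j _ => h1 j, Finset.prod_mul_distrib, h,
          rw_nm_map hσn y hy0, mul_one]
      obtain ⟨z, hz, hxz⟩ := rw_step hN hθ (by omega) σ hσ hxy hnm
      have hz' : InW k N i θ z := by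
        obtain ⟨l, hl, rfl⟩ := hz
        refine ⟨(N : L) ^ m * l, ?_, by rw [← mul_assoc, ← pow_add]⟩
        have h1 := lam_smul (k := k) (a := ((N ^ m : ℕ) : k)) (rw_nat _) hl
        rwa [map_natCast, Nat.cast_pow] at h1
      refine ⟨y * z, hy.mul hN hθ hi hz', ?_⟩
      have h1 : x * (y * z / σ (y * z)) = x * (y / σ y) * (z / σ z) := by
        rw [map_mul, mul_div_mul_comm]
        ring
      rw [h1]
      exact hxz
  obtain ⟨n₁, n₂, e, hnn, hn1, hn2⟩ := rw_factor hN n hn0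
  obtain ⟨q, hq⟩ := hn1
  obtain ⟨y, hy, hx'⟩ := happ e
  have hy0 := (hy.unit hN hθ hi).1
  set x' := x * (y / σ y) with hx'def
  have hie : t < i + e := by omega
  have hnm : ∏ j ∈ Finset.range n, (σ ^ j) x' = 1 := by
    have h1 : ∀ j, (σ ^ j) (x * (y / σ y)) = (σ ^ j) x * (σ ^ j) (y / σ y) := fun j =>
      map_mul _ _ _
    rw [hx'def, Finset.prod_congr rfl fun j _ => h1 j, Finset.prod_mul_distrib, h,
      rw_nm_map hσn y hy0, mul_one]
  -- the elements `b_j`
  let b : ℕ → L := fun j => ∏ m ∈ Finset.range j, (σ ^ m) x'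
  have hb0 : b 0 = 1 := by simp [b]
  have hbn : b n = 1 := hnm
  have hbs : ∀ j, σ (b j) * x' = b (j + 1) := by
    intro j
    simp only [b]
    rw [Finset.prod_range_succ', map_prod]
    congr 1
    refine Finset.prod_congr rfl fun m _ => ?_
    rw [pow_succ']
    rfl
  have hbW : ∀ j, InW k N (i + e) θ (b j) := by
    intro j
    induction j with
    | zero => rw [hb0]; exact ⟨0, lam_zero, by simp⟩
    | succ j ih =>
      have h1 : b (j + 1) = b j * (σ ^ j) x' := Finset.prod_range_succ _ _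
      rw [h1]
      exact ih.mul hN hθ hie (InW.map (σ ^ j) hx')
  choose l hl hbl using hbW
  set s : L := ∑ j ∈ Finset.range n, b j with hs
  have hσs : σ s * x' = s := by
    rw [hs, map_sum, Finset.sum_mul, Finset.sum_congr rfl fun j _ => hbs j]
    have h1 := Finset.sum_range_succ b n
    have h2 := Finset.sum_range_succ' b n
    rw [h1, hbn, hb0] at h2
    exact (add_right_cancel h2).symm
  have hsum : s = (n : L) + (N : L) ^ (i + e) * ∑ j ∈ Finset.range n, l j := by
    rw [hs, Finset.sum_congr rfl fun j _ => hbl j, Finset.sum_add_distrib, Finset.sum_const,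
      Finset.card_range, nsmul_eq_mul, mul_one, ← Finset.mul_sum]
  have hn0' : (n : L) ≠ 0 := by exact_mod_cast hn0.ne'
  have hn20 : n₂ ≠ 0 := by
    rintro rfl
    rw [mul_zero] at hnn
    omega
  have hn10 : n₁ ≠ 0 := by
    rintro rfl
    rw [zero_mul] at hnn
    omega
  have hr : InR N ((q : k) * ((n₂ : k))⁻¹) := by
    refine ⟨n₂, hn2, ?_⟩
    have h1 : (n₂ : k) ≠ 0 := by exact_mod_cast hn20
    have h2 : (n₂ : k) * ((q : k) * ((n₂ : k))⁻¹) = (q : k) := by field_simp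
    rw [h2]
    exact isIntegral_natCast q
  have hzW : InW k N i θ (s / n) := by
    refine ⟨algebraMap k L ((q : k) * ((n₂ : k))⁻¹) * ∑ j ∈ Finset.range n, l j,
      lam_smul hr (lam_sum _ _ fun j _ => hl j), ?_⟩
    have h1 : (n : L) = n₁ * n₂ := by rw [hnn, Nat.cast_mul]
    have h2 : (N : L) ^ e = n₁ * q := by
      rw [← Nat.cast_pow, hq, Nat.cast_mul]
    have h3 : (n₁ : L) ≠ 0 := by exact_mod_cast hn10
    have h4 : (n₂ : L) ≠ 0 := by exact_mod_cast hn20
    rw [hsum, map_mul, map_inv₀, map_natCast, map_natCast, pow_add, h2, h1]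
    field_simp
  have hz0 := (hzW.unit hN hθ hi).1
  have hσz : σ (s / n) * x' = s / n := by
    rw [map_div₀, map_natCast, div_mul_eq_mul_div, hσs]
  set z := s / (n : L) with hz
  refine ⟨y * z⁻¹, hy.mul hN hθ hi (hzW.inv hN hθ hi), ?_⟩
  have hσy0 : σ y ≠ 0 := by simpa using hy0
  have hσz0 : σ z ≠ 0 := by simpa using hz0
  have h1 : x' * σ y = x * y := by
    rw [hx'def]
    field_simp
  rw [map_mul, map_inv₀, eq_div_iff (mul_ne_zero hy0 (inv_ne_zero hz0))]
  have h2 : x * (y * z⁻¹) * (σ z * z) = σ y * (σ z)⁻¹ * (σ z * z) := by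
    have h3 : x * (y * z⁻¹) * (σ z * z) = x * y * σ z := by field_simp
    have h4 : σ y * (σ z)⁻¹ * (σ z * z) = σ y * z := by field_simp
    rw [h3, h4, ← h1]
    linear_combination (σ y) * hσz
  exact mul_right_cancel₀ (mul_ne_zero hσz0 hz0) h2

end Pool.Agent.CMR
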