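import Pool.Agent.CMR.GVal
import Pool.Agent.CMR.LPsi
import Pool.Agent.CMR.LKer
import Pool.Agent.CMR.ZArt

/-!
# V-U valuations of the elliptic units

Integers: if `|N| < 1` and `m` is prime to `N` then `|m| = 1` (`u N + v m = 1`); same for ideals: `m = N(𝔤)` (`prm_iff`). `L = 𝔤⁻¹`, `Good V L e d` (`exists_good`).
Step 1: `¬ InE (1/N)` under the hypothesis `h`. If `|N| = 1`: `notInE_of_tors` (`1/N ∉ L`). Else `|N| < 1`; the prime `𝔭₀ = {x : |x| < 1}` of `𝓞 k` contains `N`; one of `𝔭, 𝔮`, say `𝔮`, is different from `𝔭₀`, and (both are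
maximal) some `x ∈ 𝔮` has `|x| = 1`. `(N) = 𝔮^m 𝔟`, `𝔮 ∤ 𝔟`; `β ∈ 𝔟 ∖ 𝔮`. If `InE(1/N)` then `InE(β/N)` (`InE.mul`, `mul_mem_LatI`); `β/N ∈ (𝔤𝔮^m)⁻¹`, `∉ 𝔤⁻¹` (`ptt_mem_iff`: `N ∤ β`), contradiction to
`notInE_of_prime`.
Step 2: `|N(𝔠)| = 1`, `c = N(𝔠)`, and `¬ InE(1/N)`: for `s ∈ (𝔤𝔠)⁻¹` `InE(1/N + s)` would give `InE(c/N)` (`InE.nsmul`, `c s ∈ L`, `idx_smul_mem`) and then (`c u ≡ 1` mod `N`) `InE(1/N)`. So `val_Psi` gives `|UU| = 1`.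
Step 3: `|N(𝔠)| < 1`. Then `|N| = 1` (`Prm`). Let `p` be the prime number with `|p| < 1`, `d = 1 + 6 N p`, `𝔡 = (d)`: `|d| = 1`, prime to `6N`, `𝔤𝔡` is equivalent to `𝔤` (`REq.span_mul`). `UU_mul` and
`UU_congr_class`: `UU 𝔠 𝔤^{N𝔡} · UU 𝔡 (𝔤𝔠) = UU 𝔡 𝔤^{N𝔠} · UU 𝔠 𝔤`; the `UU 𝔡` have valuation `1` by Step 2, so `|UU 𝔠 𝔤|^{N𝔡 - 1} = 1`.
`val_UU_eq`: if `|N| = 1` both are `1`. Let `|N| < 1`: then `|N(𝔠)| = |N(𝔤)| = |N(𝔥)| = 1`. `L = 𝔤⁻¹`, `L'' = (𝔤𝔥)⁻¹`, `L' = 𝔥⁻¹` with coordinates from `exists_good`; `InE_L(1/N)` iff `InE_{L''}(1/N)` (`InE.isog`; conversely if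
`InE_{L''}(1/N)`: `m = N(𝔥)`, `m L'' ⊆ L`, `InE.isog` for `L'' ⊆ m⁻¹ L` and homothety give `InE_L(m/N)`, hence `InE_L(1/N)`). If not in, both are `1` (Step 2). If in: `val_Psi_in` and `val_xx_eq`: both are
`|xx(1/N)|^{-(c-1)/2}` with the same `|xx(1/N)|`.
-/

set_option autoImplicit false

noncomputable section

open NumberField Pool.Agent.StarkRQ
open scoped PeriodPair

namespace Pool.Agent.CMR

variable {k : Type} [Field k] [NumberField k] [Algebra k ℂ]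

private lemma vu_nat_le (V : ValuationSubring ℂ) (n : ℕ) : V.valuation (n : ℂ) ≤ 1 :=
  (V.valuation_le_one_iff _).2 (natCast_mem V n)

private lemma vu_int_le (V : ValuationSubring ℂ) (n : ℤ) : V.valuation (n : ℂ) ≤ 1 :=
  (V.valuation_le_one_iff _).2 (intCast_mem V n)

/-- a natural number prime to `N` is a unit at `V` if `|N| < 1` -/
private lemma vu_unit (V : ValuationSubring ℂ) {N m : ℕ} (hN : V.valuation (N : ℂ) < 1)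
    (h : m.Coprime N) : V.valuation (m : ℂ) = 1 := by
  refine le_antisymm (vu_nat_le V m) (not_lt.1 fun hlt => ?_)
  have hb := Nat.gcd_eq_gcd_ab m N
  rw [Nat.Coprime.gcd_eq_one h] at hb
  have h5 : (1 : ℂ) = (m : ℂ) * (Nat.gcdA m N : ℤ) + (N : ℂ) * (Nat.gcdB m N : ℤ) := by
    exact_mod_cast hb
  have h6 : V.valuation (1 : ℂ) < 1 := by
    rw [h5]
    refine (V.valuation.map_add _ _).trans_lt (max_lt ?_ ?_)
    · rw [map_mul]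
      exact mul_lt_one_of_lt_of_le hlt (vu_int_le V _)
    · rw [map_mul]
      exact mul_lt_one_of_lt_of_le hN (vu_int_le V _)
  rw [map_one] at h6
  exact lt_irrefl _ h6

/-- the integers of `k` are in `V` -/
private lemma vu_integral (V : ValuationSubring ℂ) (x : 𝓞 k) :
    V.valuation (algebraMap k ℂ (x : k)) ≤ 1 := by
  rw [V.valuation_le_one_iff]
  have h1 : IsIntegral ℤ (algebraMap k ℂ (x : k)) := by
    have h2 : IsIntegral ℤ (x : k) := x.isIntegral_coe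
    exact h2.map (algebraMap k ℂ).toIntAlgHom
  have h3 : IsIntegral V (algebraMap k ℂ (x : k)) := h1.tower_top
  obtain ⟨y, hy⟩ := IsIntegrallyClosed.isIntegral_iff.1 h3
  rw [← hy]
  exact y.2

private lemma vu_not_dvd (hk : IsIQ k) {N : ℕ} (hN : 2 ≤ N) : ¬ (N : 𝓞 k) ∣ (1 : 𝓞 k) := by
  intro h
  have h1 : Ideal.span {(N : 𝓞 k)} = ⊤ := Ideal.span_singleton_eq_top.2 (isUnit_of_dvd_one h)
  have h2 := norm_eq hk (N : 𝓞 k)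
  rw [h1, Ideal.absNorm_top] at h2
  have h3 : algebraMap k ℂ (((N : 𝓞 k) : 𝓞 k) : k) = (N : ℂ) := by simp
  rw [h3, Complex.norm_natCast] at h2
  have h4 : (N : ℝ) ^ 2 = 1 := by
    rw [← h2]
    norm_num
  have h5 : (2 : ℝ) ≤ N := by exact_mod_cast hN
  nlinarith

private lemma vu_one_not_mem (hk : IsIQ k) {N : ℕ} (hN : 2 ≤ N) {𝔤 : Ideal (𝓞 k)} (h0 : 𝔤 ≠ ⊥)
    (hp : Prm N 𝔤) : ptt N (1 : 𝓞 k) ∉ (LatI 𝔤).lattice := by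
  rw [ptt_mem_iff hk (by omega) h0 hp]
  exact vu_not_dvd hk hN

private lemma vu_ptt_one (N : ℕ) : ptt N (1 : 𝓞 k) = 1 / (N : ℂ) := by
  simp [ptt]

private lemma vu_nat_mem (hk : IsIQ k) {N : ℕ} (hN : 2 ≤ N) {𝔤 : Ideal (𝓞 k)} (h0 : 𝔤 ≠ ⊥)
    (hp : Prm N 𝔤) (m : ℕ) : (m : ℂ) ∈ (LatI 𝔤).lattice := by
  have hN' : (N : ℂ) ≠ 0 := by
    have : N ≠ 0 := by omega
    exact_mod_cast this
  have h1 : ptt N ((N : 𝓞 k) * (m : 𝓞 k)) ∈ (LatI 𝔤).lattice :=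
    (ptt_mem_iff hk (by omega) h0 hp _).2 ⟨_, rfl⟩
  have h2 : ptt N ((N : 𝓞 k) * (m : 𝓞 k)) = (m : ℂ) := by
    rw [ptt]
    simp [hN']
  rwa [h2] at h1

/-- `c / N` in the kernel of reduction, `c` prime to `N`, implies `1 / N` in it -/
private lemma vu_of_mul (hk : IsIQ k) {V : ValuationSubring ℂ} {N : ℕ} (hN : 2 ≤ N)
    {𝔤 : Ideal (𝓞 k)} (h0 : 𝔤 ≠ ⊥) (hp : Prm N 𝔤) {e d : ℂ} (hg : Good V (LatI 𝔤) e d) {c : ℕ}
    (hc : c.Coprime N) (h : InE V (LatI 𝔤) e d ((c : ℂ) * ptt N (1 : 𝓞 k))) :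
    InE V (LatI 𝔤) e d (ptt N (1 : 𝓞 k)) := by
  have hN' : (N : ℂ) ≠ 0 := by
    have : N ≠ 0 := by omega
    exact_mod_cast this
  obtain ⟨u, -, hu⟩ := Nat.exists_mul_mod_eq_one_of_coprime hc (by omega)
  have h1 : c * u = N * (c * u / N) + 1 := by
    conv_lhs => rw [← Nat.div_add_mod (c * u) N, hu]
  have h2 := h.nsmul hg u
  have h3 : InE V (LatI 𝔤) e d (-((c * u / N : ℕ) : ℂ)) :=
    Or.inl ((LatI 𝔤).lattice.neg_mem (vu_nat_mem hk hN h0 hp _))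
  have h4 := h2.add hg h3
  have h5 : (u : ℂ) * ((c : ℂ) * ptt N (1 : 𝓞 k)) + -((c * u / N : ℕ) : ℂ) =
      ptt N (1 : 𝓞 k) := by
    rw [vu_ptt_one]
    have h6 : (c : ℂ) * u = N * ((c * u / N : ℕ) : ℂ) + 1 := by exact_mod_cast h1
    field_simp
    linear_combination h6
  rwa [h5] at h4

/-- Step 2: the translates of `1 / N` -/
private lemma vu_translate (hk : IsIQ k) {V : ValuationSubring ℂ} {N : ℕ} (hN : 2 ≤ N)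
    {𝔤 𝔠 : Ideal (𝓞 k)} (h0 : 𝔤 ≠ ⊥) (hp : Prm N 𝔤) (hc0 : 𝔠 ≠ ⊥)
    (hc : (Ideal.absNorm 𝔠).Coprime N) {e d : ℂ} (hg : Good V (LatI 𝔤) e d)
    (h1 : ¬ InE V (LatI 𝔤) e d (ptt N (1 : 𝓞 k))) :
    ∀ s ∈ (LatI (𝔤 * 𝔠)).lattice, ¬ InE V (LatI 𝔤) e d (ptt N (1 : 𝓞 k) + s) := by
  intro s hs hin
  apply h1
  apply vu_of_mul hk hN h0 hp hg hc
  have h2 := hin.nsmul hg (Ideal.absNorm 𝔠)
  have h3 : (Ideal.absNorm 𝔠 : ℂ) * s ∈ (LatI 𝔤).lattice := by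
    have h4 := idx_smul_mem (LatI_le hk h0 hc0) hs
    rwa [idx_LatI hk h0 hc0] at h4
  have h4 : InE V (LatI 𝔤) e d (-((Ideal.absNorm 𝔠 : ℂ) * s)) :=
    Or.inl ((LatI 𝔤).lattice.neg_mem h3)
  have h5 := h2.add hg h4
  have h6 : (Ideal.absNorm 𝔠 : ℂ) * (ptt N (1 : 𝓞 k) + s) + -((Ideal.absNorm 𝔠 : ℂ) * s) =
      (Ideal.absNorm 𝔠 : ℂ) * ptt N (1 : 𝓞 k) := by ring
  rwa [h6] at h5

/-- the case of `𝔠` prime to `V` -/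
private lemma vu_unit_case (hk : IsIQ k) {V : ValuationSubring ℂ} {N : ℕ} (hN : 2 ≤ N)
    {𝔠 𝔤 : Ideal (𝓞 k)} (hc0 : 𝔠 ≠ ⊥) (hc : Prm (6 * N) 𝔠) (h0 : 𝔤 ≠ ⊥) (hp : Prm N 𝔤)
    {e d : ℂ} (hg : Good V (LatI 𝔤) e d)
    (h1 : ¬ InE V (LatI 𝔤) e d (ptt N (1 : 𝓞 k)))
    (hv : V.valuation (Ideal.absNorm 𝔠 : ℂ) = 1) : V.valuation (UU N 𝔠 𝔤) = 1 := by
  have hc' := (prm_iff 𝔠).1 hc
  have h6 : (Ideal.absNorm 𝔠).Coprime 6 := Nat.Coprime.coprime_dvd_right (dvd_mul_right 6 N) hc'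
  have hN' : (Ideal.absNorm 𝔠).Coprime N := Nat.Coprime.coprime_dvd_right (dvd_mul_left N 6) hc'
  refine val_Psi (CMlat_LatI hk h0) hg (LatI_le hk h0 hc0) ?_ ?_
    (vu_translate hk hN h0 hp hc0 hN' hg h1)
  · rw [idx_LatI hk h0 hc0]
    exact h6
  · rw [idx_LatI hk h0 hc0]
    exact hv

/-- Step 1: `1 / N` is not in the kernel of reduction -/
private lemma vu_step_one (hk : IsIQ k) {V : ValuationSubring ℂ} {N : ℕ} (hN : 2 ≤ N)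
    (h : V.valuation (N : ℂ) = 1 ∨ ∃ 𝔭 𝔮 : Ideal (𝓞 k), 𝔭.IsPrime ∧ 𝔮.IsPrime ∧ 𝔭 ≠ 𝔮 ∧
      (N : 𝓞 k) ∈ 𝔭 ∧ (N : 𝓞 k) ∈ 𝔮)
    {𝔤 : Ideal (𝓞 k)} (h0 : 𝔤 ≠ ⊥) (hp : Prm N 𝔤) {e d : ℂ} (hg : Good V (LatI 𝔤) e d) :
    ¬ InE V (LatI 𝔤) e d (ptt N (1 : 𝓞 k)) := by
  have hN0 : N ≠ 0 := by omega
  have hN' : (N : ℂ) ≠ 0 := by exact_mod_cast hN0
  have hNO : (N : 𝓞 k) ≠ 0 := by exact_mod_cast hN0
  have hNk : (N : k) ≠ 0 := by exact_mod_cast hN0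
  rcases h with h | ⟨𝔭, 𝔮, hp1, hq1, hpq, hNp, hNq⟩
  · refine notInE_of_tors (CMlat_LatI hk h0) hg h ?_ (vu_one_not_mem hk hN h0 hp)
    rw [vu_ptt_one, mul_one_div_cancel hN']
    exact_mod_cast vu_nat_mem hk hN h0 hp 1
  · -- one of the primes has a unit of `V`
    obtain ⟨𝔮, hq1, hNq, hV⟩ : ∃ 𝔮 : Ideal (𝓞 k), 𝔮.IsPrime ∧ (N : 𝓞 k) ∈ 𝔮 ∧
        ∃ x ∈ 𝔮, V.valuation (algebraMap k ℂ (x : k)) = 1 := by
      by_contra hcon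
      have hlt : ∀ 𝔯 : Ideal (𝓞 k), 𝔯.IsPrime → (N : 𝓞 k) ∈ 𝔯 → ∀ x ∈ 𝔯,
          V.valuation (algebraMap k ℂ (x : k)) < 1 := by
        intro 𝔯 hr hNr x hx
        refine lt_of_le_of_ne (vu_integral V x) fun hx1 => hcon ⟨𝔯, hr, hNr, x, hx, hx1⟩
      have hp0 : 𝔭 ≠ ⊥ := fun h => hNO (by rwa [h, Ideal.mem_bot] at hNp)
      have hq0 : 𝔮 ≠ ⊥ := fun h => hNO (by rwa [h, Ideal.mem_bot] at hNq)
      have hpm : 𝔭.IsMaximal := hp1.isMaximal hp0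
      have hqm : 𝔮.IsMaximal := hq1.isMaximal hq0
      have hsup : 𝔭 ⊔ 𝔮 = ⊤ := hpm.coprime_of_ne hqm hpq
      obtain ⟨x, hx, y, hy, hxy⟩ := Submodule.mem_sup.1
        (show (1 : 𝓞 k) ∈ 𝔭 ⊔ 𝔮 by rw [hsup]; exact Submodule.mem_top)
      have h1 : V.valuation (algebraMap k ℂ ((x + y : 𝓞 k) : k)) < 1 := by
        have e1 : algebraMap k ℂ ((x + y : 𝓞 k) : k) =
            algebraMap k ℂ (x : k) + algebraMap k ℂ (y : k) := by simp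
        rw [e1]
        exact (V.valuation.map_add _ _).trans_lt
          (max_lt (hlt 𝔭 hp1 hNp x hx) (hlt 𝔮 hq1 hNq y hy))
      rw [hxy] at h1
      have e2 : algebraMap k ℂ ((1 : 𝓞 k) : k) = 1 := by simp
      rw [e2, map_one] at h1
      exact lt_irrefl _ h1
    have hq0 : 𝔮 ≠ ⊥ := fun h => hNO (by rwa [h, Ideal.mem_bot] at hNq)
    have hspan0 : Ideal.span {(N : 𝓞 k)} ≠ 0 := by
      rw [Ideal.zero_eq_bot, Ne, Ideal.span_singleton_eq_bot]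
      exact hNO
    have hqp : Prime 𝔮 := Ideal.prime_of_isPrime hq0 hq1
    obtain ⟨m, 𝔟, hqb, hNb⟩ := WfDvdMonoid.max_power_factor hspan0 hqp.irreducible
    obtain ⟨β, hβ, hβq⟩ := SetLike.not_le_iff_exists.1 (fun h => hqb (Ideal.dvd_iff_le.2 h))
    intro hin
    have h1 := InE.mul (CMlat_LatI hk h0) hg (a := algebraMap k ℂ (β : k))
      (fun l hl => mul_mem_LatI hk h0 β hl) hin
    have hqm : 𝔮 ^ m ≠ ⊥ := by
      rw [← Ideal.zero_eq_bot]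
      exact pow_ne_zero m (by rwa [Ideal.zero_eq_bot])
    have hgq : 𝔤 * 𝔮 ^ m ≠ ⊥ := mul_ne_zero h0 hqm
    refine notInE_of_prime hk h0 hq1 hq0 hV (vu_integral V) hg (m := m)
      (s := algebraMap k ℂ (β : k) * ptt N (1 : 𝓞 k)) ?_ ?_ h1
    · rw [mem_LatI hk hgq]
      refine ⟨(β : k) / N, ?_, fun g hgm => ?_⟩
      · rw [vu_ptt_one, map_div₀, map_natCast]
        ring
      · have h2 : g * β ∈ Ideal.span {(N : 𝓞 k)} := by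
          rw [hNb]
          exact Ideal.mul_mem_mul (Ideal.mul_le_right hgm) hβ
        obtain ⟨y, hy⟩ := Ideal.mem_span_singleton.1 h2
        refine ⟨y, ?_⟩
        have h3 := congrArg (fun t : 𝓞 k => (t : k)) hy
        simp only [RingOfIntegers.coe_eq_algebraMap, map_mul, map_natCast] at h3 ⊢
        field_simp
        linear_combination h3
    · intro h2
      have h3 : algebraMap k ℂ (β : k) * ptt N (1 : 𝓞 k) = ptt N β := by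
        rw [vu_ptt_one, ptt]
        ring
      rw [h3, ptt_mem_iff hk hN0 h0 hp] at h2
      obtain ⟨y, hy⟩ := h2
      apply hβq
      rw [hy]
      exact Ideal.mul_mem_right _ _ hNq

/-- the elliptic units are units at `V` if `|N| = 1` or if two primes of `k` contain `N` -/
theorem val_UU_one (hk : IsIQ k) (V : ValuationSubring ℂ) {N : ℕ} (hN : 2 ≤ N)
    (h : V.valuation (N : ℂ) = 1 ∨ ∃ 𝔭 𝔮 : Ideal (𝓞 k), 𝔭.IsPrime ∧ 𝔮.IsPrime ∧ 𝔭 ≠ 𝔮 ∧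
      (N : 𝓞 k) ∈ 𝔭 ∧ (N : 𝓞 k) ∈ 𝔮)
    {𝔠 𝔤 : Ideal (𝓞 k)} (hc0 : 𝔠 ≠ ⊥) (hc : Prm (6 * N) 𝔠) (h0 : 𝔤 ≠ ⊥) (hp : Prm N 𝔤) :
    V.valuation (UU N 𝔠 𝔤) = 1 := by
  have key : ∀ {𝔠 𝔤 : Ideal (𝓞 k)}, 𝔠 ≠ ⊥ → Prm (6 * N) 𝔠 → 𝔤 ≠ ⊥ → Prm N 𝔤 →
      V.valuation (Ideal.absNorm 𝔠 : ℂ) = 1 → V.valuation (UU N 𝔠 𝔤) = 1 := by
    intro 𝔠 𝔤 hc0 hc h0 hp hv
    obtain ⟨e, d, hg⟩ := exists_good V (CMlat_LatI hk h0)
    exact vu_unit_case hk hN hc0 hc h0 hp hg (vu_step_one hk hN h h0 hp hg) hv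
  by_cases hv : V.valuation (Ideal.absNorm 𝔠 : ℂ) = 1
  · exact key hc0 hc h0 hp hv
  have hvlt : V.valuation (Ideal.absNorm 𝔠 : ℂ) < 1 := lt_of_le_of_ne (vu_nat_le V _) hv
  set c := Ideal.absNorm 𝔠 with hcdef
  set D : ℕ := 1 + 6 * N * c with hD
  have hDO : (D : 𝓞 k) ≠ 0 := by
    have : D ≠ 0 := by omega
    exact_mod_cast this
  have hDsub : ((6 * N : ℕ) : 𝓞 k) ∣ (D : 𝓞 k) - 1 := by
    refine ⟨(c : 𝓞 k), ?_⟩
    rw [hD]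
    push_cast
    ring
  have hDsub' : (N : 𝓞 k) ∣ (D : 𝓞 k) - 1 := by
    refine dvd_trans ?_ hDsub
    push_cast
    exact dvd_mul_left _ _
  set 𝔡 : Ideal (𝓞 k) := Ideal.span {(D : 𝓞 k)} with hd
  have hd0 : 𝔡 ≠ ⊥ := by
    rw [hd, Ne, Ideal.span_singleton_eq_bot]
    exact hDO
  have hdp : Prm (6 * N) 𝔡 := prm_span hDsub
  have hdn : Ideal.absNorm 𝔡 = D ^ 2 := by
    have h2 := norm_eq hk (D : 𝓞 k)
    have h3 : algebraMap k ℂ (((D : 𝓞 k) : 𝓞 k) : k) = (D : ℂ) := by simp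
    rw [h3, Complex.norm_natCast] at h2
    exact_mod_cast h2
  have hDv : V.valuation (D : ℂ) = 1 := by
    have h2 : V.valuation ((6 * N * c : ℕ) : ℂ) < 1 := by
      rw [Nat.cast_mul, map_mul]
      exact mul_lt_one_of_nonneg_of_lt_one_right (vu_nat_le V _) zero_le hvlt
    have h3 : V.valuation ((6 * N * c : ℕ) : ℂ) < V.valuation (1 : ℂ) := by
      rw [map_one]
      exact h2
    have h4 : (D : ℂ) = 1 + ((6 * N * c : ℕ) : ℂ) := by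
      rw [hD]
      push_cast
      ring
    rw [h4, Valuation.map_add_eq_of_lt_left _ h3, map_one]
  have hdv : V.valuation (Ideal.absNorm 𝔡 : ℂ) = 1 := by
    rw [hdn, Nat.cast_pow, map_pow, hDv, one_pow]
  have hc' := (prm_iff 𝔠).1 hc
  have hd' := (prm_iff 𝔡).1 hdp
  have hcN : Prm N 𝔠 := hc.of_dvd (dvd_mul_left N 6)
  have hdN : Prm N 𝔡 := hdp.of_dvd (dvd_mul_left N 6)
  have hgc0 : 𝔤 * 𝔠 ≠ ⊥ := mul_ne_zero h0 hc0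
  have hgd0 : 𝔤 * 𝔡 ≠ ⊥ := mul_ne_zero h0 hd0
  have hgcp : Prm N (𝔤 * 𝔠) := (prm_mul_iff 𝔤 𝔠).2 ⟨hp, hcN⟩
  have hgdp : Prm N (𝔤 * 𝔡) := (prm_mul_iff 𝔤 𝔡).2 ⟨hp, hdN⟩
  have hc6 : (Ideal.absNorm 𝔠).Coprime 6 := Nat.Coprime.coprime_dvd_right (dvd_mul_right 6 N) hc'
  have hd6 : (Ideal.absNorm 𝔡).Coprime 6 := Nat.Coprime.coprime_dvd_right (dvd_mul_right 6 N) hd'
  have hmul := UU_mul hk hN hc0 hc6 hcN hd0 hd6 hdN h0 hp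
  have hcong : UU N 𝔠 (𝔤 * 𝔡) = UU N 𝔠 𝔤 := UU_congr_class hk (by omega) hc0 hc6 hgd0 h0 hgdp hp
    (REq.span_mul hDO hDsub' 𝔤)
  rw [hcong] at hmul
  have h5 := congrArg V.valuation hmul
  rw [map_mul, map_mul, map_pow, map_pow, key hd0 hdp hgc0 hgcp hdv, key hd0 hdp h0 hp hdv,
    one_pow, one_mul, mul_one, hdn] at h5
  have hne : V.valuation (UU N 𝔠 𝔤) ≠ 0 :=
    (Valuation.ne_zero_iff _).2 (UU_ne_zero hk hN hc0 hc6 hcN h0 hp)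
  have hD2 : D ^ 2 = (D ^ 2 - 1) + 1 := by
    have : 0 < D ^ 2 := by positivity
    omega
  rw [hD2, pow_succ] at h5
  have h7 : V.valuation (UU N 𝔠 𝔤) ^ (D ^ 2 - 1) = 1 := by
    apply mul_right_cancel₀ hne
    rw [h5, one_mul]
  have hcpos : 0 < c := by
    rw [hcdef]
    exact Nat.pos_of_ne_zero (by rwa [Ne, Ideal.absNorm_eq_zero_iff])
  have hD1 : D ^ 2 - 1 ≠ 0 := by
    have h8 : 2 ≤ D := by
      have : 0 < 6 * N * c := by positivity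
      omega
    have h9 : 2 ^ 2 ≤ D ^ 2 := Nat.pow_le_pow_left h8 2
    omega
  exact (pow_eq_one_iff_of_nonneg zero_le hD1).1 h7

/-- `1 / N` in the kernel of reduction for `𝔤⁻¹` and for `(𝔤𝔥)⁻¹` -/
private lemma vu_iff (hk : IsIQ k) {V : ValuationSubring ℂ} {N : ℕ} (hN : 2 ≤ N)
    {𝔤 𝔥 : Ideal (𝓞 k)} (h0 : 𝔤 ≠ ⊥) (hp : Prm N 𝔤) (h0' : 𝔥 ≠ ⊥) (hp' : Prm N 𝔥)
    {e d e' d' : ℂ} (hg : Good V (LatI 𝔤) e d) (hg' : Good V (LatI (𝔤 * 𝔥)) e' d') :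
    InE V (LatI 𝔤) e d (ptt N (1 : 𝓞 k)) ↔ InE V (LatI (𝔤 * 𝔥)) e' d' (ptt N (1 : 𝓞 k)) := by
  have hgh0 : 𝔤 * 𝔥 ≠ ⊥ := mul_ne_zero h0 h0'
  constructor
  · exact InE.isog (CMlat_LatI hk h0) (CMlat_LatI hk hgh0) hg hg' (LatI_le hk h0 h0')
  · intro h
    set m := Ideal.absNorm 𝔥 with hm
    have hm0 : m ≠ 0 := by rwa [hm, Ne, Ideal.absNorm_eq_zero_iff]
    have hmC : (m : ℂ) ≠ 0 := by exact_mod_cast hm0
    have hmO : (m : 𝓞 k) ≠ 0 := by exact_mod_cast hm0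
    have hmem : (m : 𝓞 k) ∈ 𝔥 := Ideal.absNorm_mem 𝔥
    obtain ⟨𝔟, hb⟩ : 𝔥 ∣ Ideal.span {(m : 𝓞 k)} := by
      rw [Ideal.dvd_iff_le, Ideal.span_singleton_le_iff_mem]
      exact hmem
    have hb0 : 𝔟 ≠ ⊥ := by
      rintro rfl
      rw [Ideal.mul_bot, Ideal.span_singleton_eq_bot] at hb
      exact hmO hb
    have hghb0 : 𝔤 * 𝔥 * 𝔟 ≠ ⊥ := mul_ne_zero hgh0 hb0
    have hhom : ∀ z, (1 / (m : ℂ)) * z ∈ (LatI (𝔤 * 𝔥 * 𝔟)).lattice ↔ z ∈ (LatI 𝔤).lattice := by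
      intro z
      have h1 := LatI_homothety hk (𝔤 := 𝔤) (𝔥 := 𝔤 * 𝔥 * 𝔟) h0 (a := (m : 𝓞 k)) (b := 1) hmO
        one_ne_zero (by rw [Ideal.span_singleton_one, Ideal.top_mul, hb]; ring) z
      have e1 : algebraMap k ℂ ((1 : 𝓞 k) : k) / algebraMap k ℂ (((m : 𝓞 k) : 𝓞 k) : k) =
          1 / (m : ℂ) := by simp
      rwa [e1] at h1
    have hc : (1 / (m : ℂ)) ≠ 0 := one_div_ne_zero hmC
    have hg2 := Good.homothety hc hhom hg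
    have h2 := InE.isog (CMlat_LatI hk hgh0) (CMlat_LatI hk hghb0) hg' hg2
      (LatI_le hk hgh0 hb0) h
    have h3 : ptt N (1 : 𝓞 k) = 1 / (m : ℂ) * ((m : ℂ) * ptt N (1 : 𝓞 k)) := by
      field_simp
    rw [h3] at h2
    have h4 : InE V (LatI 𝔤) e d ((m : ℂ) * ptt N (1 : 𝓞 k)) := by
      rcases h2 with h2 | h2
      · exact Or.inl ((hhom _).1 h2)
      · right
        rwa [xx_homothety hc hhom] at h2
    exact vu_of_mul hk hN h0 hp hg ((prm_iff 𝔥).1 hp') h4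

/-- the valuation does not depend on the class -/
theorem val_UU_eq (hk : IsIQ k) (V : ValuationSubring ℂ) {N : ℕ} (hN : 2 ≤ N)
    {𝔠 𝔤 𝔥 : Ideal (𝓞 k)} (hc0 : 𝔠 ≠ ⊥) (hc : Prm (6 * N) 𝔠) (h0 : 𝔤 ≠ ⊥) (hp : Prm N 𝔤)
    (h0' : 𝔥 ≠ ⊥) (hp' : Prm N 𝔥) : V.valuation (UU N 𝔠 𝔤) = V.valuation (UU N 𝔠 𝔥) := by
  by_cases hv : V.valuation (N : ℂ) = 1
  · rw [val_UU_one hk V hN (Or.inl hv) hc0 hc h0 hp, val_UU_one hk V hN (Or.inl hv) hc0 hc h0' hp']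
  have hvlt : V.valuation (N : ℂ) < 1 := lt_of_le_of_ne (vu_nat_le V _) hv
  have hc' := (prm_iff 𝔠).1 hc
  have hcN : (Ideal.absNorm 𝔠).Coprime N := Nat.Coprime.coprime_dvd_right (dvd_mul_left N 6) hc'
  have hc6 : (Ideal.absNorm 𝔠).Coprime 6 := Nat.Coprime.coprime_dvd_right (dvd_mul_right 6 N) hc'
  have hcv := vu_unit V hvlt hcN
  have hgv := vu_unit V hvlt ((prm_iff 𝔤).1 hp)
  have hhv := vu_unit V hvlt ((prm_iff 𝔥).1 hp')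
  have hgh0 : 𝔤 * 𝔥 ≠ ⊥ := mul_ne_zero h0 h0'
  obtain ⟨e, d, hg⟩ := exists_good V (CMlat_LatI hk h0)
  obtain ⟨e', d', hg'⟩ := exists_good V (CMlat_LatI hk h0')
  obtain ⟨e₂, d₂, hg₂⟩ := exists_good V (CMlat_LatI hk hgh0)
  have hg₂' : Good V (LatI (𝔥 * 𝔤)) e₂ d₂ := by rwa [mul_comm 𝔥 𝔤]
  have i1 := vu_iff hk hN h0 hp h0' hp' hg hg₂
  have i2 := vu_iff hk hN h0' hp' h0 hp hg' hg₂'
  by_cases hin : InE V (LatI 𝔤) e d (ptt N (1 : 𝓞 k))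
  · have hin₂ := i1.1 hin
    have hin' : InE V (LatI 𝔥) e' d' (ptt N (1 : 𝓞 k)) := i2.2 (by rwa [mul_comm 𝔥 𝔤])
    have n1 := vu_one_not_mem hk hN h0 hp
    have n2 := vu_one_not_mem hk hN h0' hp'
    have v1 := val_xx_eq (CMlat_LatI hk h0) (CMlat_LatI hk hgh0) hg hg₂ (LatI_le hk h0 h0')
      (by rw [idx_LatI hk h0 h0']; exact hhv) hin n1
    have v2 := val_xx_eq (CMlat_LatI hk h0') (CMlat_LatI hk (mul_ne_zero h0' h0)) hg' hg₂'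
      (LatI_le hk h0' h0) (by rw [idx_LatI hk h0' h0]; exact hgv) hin' n2
    rw [mul_comm 𝔥 𝔤] at v2
    have hx : V.valuation (xx (LatI 𝔤) e d (ptt N (1 : 𝓞 k))) =
        V.valuation (xx (LatI 𝔥) e' d' (ptt N (1 : 𝓞 k))) := v1.2.symm.trans v2.2
    have p1 := val_Psi_in (CMlat_LatI hk h0) hg (LatI_le hk h0 hc0)
      (by rw [idx_LatI hk h0 hc0]; exact hc6) (by rw [idx_LatI hk h0 hc0]; exact hcv) hin n1
    have p2 := val_Psi_in (CMlat_LatI hk h0') hg' (LatI_le hk h0' hc0)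
      (by rw [idx_LatI hk h0' hc0]; exact hc6) (by rw [idx_LatI hk h0' hc0]; exact hcv) hin' n2
    rw [idx_LatI hk h0 hc0] at p1
    rw [idx_LatI hk h0' hc0] at p2
    rw [← hx] at p2
    have hne : V.valuation (xx (LatI 𝔤) e d (ptt N (1 : 𝓞 k))) ^
        ((Ideal.absNorm 𝔠 - 1) / 2) ≠ 0 := by
      intro h
      rw [h, mul_zero] at p1
      exact zero_ne_one p1
    exact mul_right_cancel₀ hne (p1.trans p2.symm)
  · have hin' : ¬ InE V (LatI 𝔥) e' d' (ptt N (1 : 𝓞 k)) := by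
      intro h
      apply hin
      have h2 := i2.1 h
      rw [mul_comm 𝔥 𝔤] at h2
      exact i1.2 h2
    rw [vu_unit_case hk hN hc0 hc h0 hp hg hin hcv, vu_unit_case hk hN hc0 hc h0' hp' hg' hin' hcv]

/-- the elliptic units are integral at `V` -/
theorem val_UU_le (hk : IsIQ k) (V : ValuationSubring ℂ) {N : ℕ} (hN : 2 ≤ N)
    {𝔠 𝔤 : Ideal (𝓞 k)} (hc0 : 𝔠 ≠ ⊥) (hc : Prm (6 * N) 𝔠) (h0 : 𝔤 ≠ ⊥) (hp : Prm N 𝔤) :
    V.valuation (UU N 𝔠 𝔤) ≤ 1 := by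
  by_cases hv : V.valuation (N : ℂ) = 1
  · exact (val_UU_one hk V hN (Or.inl hv) hc0 hc h0 hp).le
  have hvlt : V.valuation (N : ℂ) < 1 := lt_of_le_of_ne (vu_nat_le V _) hv
  have hc' := (prm_iff 𝔠).1 hc
  have hcN : (Ideal.absNorm 𝔠).Coprime N := Nat.Coprime.coprime_dvd_right (dvd_mul_left N 6) hc'
  have hc6 : (Ideal.absNorm 𝔠).Coprime 6 := Nat.Coprime.coprime_dvd_right (dvd_mul_right 6 N) hc'
  have hcv := vu_unit V hvlt hcN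
  obtain ⟨e, d, hg⟩ := exists_good V (CMlat_LatI hk h0)
  by_cases hin : InE V (LatI 𝔤) e d (ptt N (1 : 𝓞 k))
  · have n1 := vu_one_not_mem hk hN h0 hp
    have p1 := val_Psi_in (CMlat_LatI hk h0) hg (LatI_le hk h0 hc0)
      (by rw [idx_LatI hk h0 hc0]; exact hc6) (by rw [idx_LatI hk h0 hc0]; exact hcv) hin n1
    have h1 : 1 ≤ V.valuation (xx (LatI 𝔤) e d (ptt N (1 : 𝓞 k))) ^
        ((idx (LatI 𝔤) (LatI (𝔤 * 𝔠)) - 1) / 2) :=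
      one_le_pow₀ (hin.resolve_left n1).le
    calc V.valuation (UU N 𝔠 𝔤) = V.valuation (UU N 𝔠 𝔤) * 1 := (mul_one _).symm
      _ ≤ V.valuation (UU N 𝔠 𝔤) * V.valuation (xx (LatI 𝔤) e d (ptt N (1 : 𝓞 k))) ^
        ((idx (LatI 𝔤) (LatI (𝔤 * 𝔠)) - 1) / 2) := mul_le_mul_right h1 _
      _ = 1 := p1
  · exact (vu_unit_case hk hN hc0 hc h0 hp hg hin hcv).le

end Pool.Agent.CMR
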