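import Pool.Agent.CMR.ZCls
import Pool.Agent.CMR.ZLat

/-!
# Z-ZETA the zeta function of a ray class as an Epstein zeta function

The map `t ↦ (1 + N t) 𝔤` is a bijection from `𝔤⁻¹` (the lattice `LatI 𝔤`, `mem_LatI`) to the ideals `𝔞` of the ray class of `𝔤`, and
`N(𝔞) = |1 + N t|² N(𝔤) = N(𝔤) N² |1/N + t|²` (`norm_eq`, multiplicativity). Details: `x = 1 + N t ∈ k`, `x 𝔤 ⊆ 𝔤 + N 𝓞 ⊆ 𝓞` is an integral ideal, nonzero
(`1/N ∉ 𝔤⁻¹`, `ptt_mem_iff`). Choose `a ∈ 𝔤`, `a ≡ 1` mod `N` (`𝔤` is prime to `N`): `b = a x = a + N (a t) ∈ 𝓞`, `b ≡ 1`, `b 𝔤 = a (x 𝔤)`: in the class of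
`𝔤`, and prime to `N`. Conversely `a 𝔞 = b 𝔤` with `a, b ≡ 1`, `x = b/a`: `x - 1 = (b - a)/a`; `t = (x - 1)/N` satisfies `t 𝔤 ⊆ 𝓞`: for `g ∈ 𝔤`:
`t g = (x g - g)/N` with `y = x g - g ∈ 𝓞` (`x 𝔤 = 𝔞`), `a y = (b - a) g ∈ N 𝓞`, and `a` is a unit modulo `N`, so `y ∈ N 𝓞`. Injective: if `x 𝔤 = x' 𝔤` then
`x' = ε x` with a unit `ε`, and `ε ≡ 1` modulo `N` (multiply by `a a'`), `|ε| = 1`, so `|ε - 1| ≤ 2 < 3 ≤ N`, and `ε - 1 = N c` with `|c|² = N(c) < 1`, `c = 0`.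
-/

set_option autoImplicit false

noncomputable section

open NumberField Pool.Agent.StarkRQ
open scoped PeriodPair

namespace Pool.Agent.CMR

variable {k : Type} [Field k] [NumberField k] [Algebra k ℂ]

omit [NumberField k] [Algebra k ℂ] in
private theorem zz_dvd {N : ℕ} {a y : 𝓞 k} (ha : (N : 𝓞 k) ∣ a - 1) (h : (N : 𝓞 k) ∣ a * y) :
    (N : 𝓞 k) ∣ y := by
  have h1 : y = a * y - (a - 1) * y := by ring
  rw [h1]
  exact dvd_sub h (Dvd.dvd.mul_right ha y)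

omit [NumberField k] [Algebra k ℂ] in
private theorem zz_mul {N : ℕ} {a b : 𝓞 k} (ha : (N : 𝓞 k) ∣ a - 1) (hb : (N : 𝓞 k) ∣ b - 1) :
    (N : 𝓞 k) ∣ a * b - 1 := by
  have h1 : a * b - 1 = (a - 1) * b + (b - 1) := by ring
  rw [h1]
  exact dvd_add (Dvd.dvd.mul_right ha b) hb

/-- a unit which is congruent to `1` modulo `N` is `1` -/
private theorem zz_unit (hk : IsIQ k) {N : ℕ} (hN : 3 ≤ N) (u : (𝓞 k)ˣ)
    (hu : (N : 𝓞 k) ∣ (u : 𝓞 k) - 1) : (u : 𝓞 k) = 1 := by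
  obtain ⟨c, hc⟩ := hu
  have h1 : ‖algebraMap k ℂ ((u : 𝓞 k) : k)‖ ^ 2 = 1 := by
    rw [← norm_eq hk, Ideal.span_singleton_eq_top.2 u.isUnit, Ideal.absNorm_top, Nat.cast_one]
  have h2 : ‖algebraMap k ℂ ((u : 𝓞 k) : k)‖ = 1 := by
    rwa [pow_eq_one_iff_of_nonneg (norm_nonneg _) two_ne_zero] at h1
  have h3 : algebraMap k ℂ ((u : 𝓞 k) : k) - 1 = (N : ℂ) * algebraMap k ℂ (c : k) := by
    have h4 := congrArg (fun t : 𝓞 k => algebraMap k ℂ (t : k)) hc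
    simpa using h4
  have h5 : (N : ℝ) * ‖algebraMap k ℂ (c : k)‖ ≤ 2 := by
    have h6 : ‖(N : ℂ) * algebraMap k ℂ (c : k)‖ ≤ 2 := by
      rw [← h3]
      refine (norm_sub_le _ _).trans ?_
      rw [h2, norm_one]
      norm_num
    rwa [norm_mul, Complex.norm_natCast] at h6
  have h6 : (3 : ℝ) ≤ N := by exact_mod_cast hN
  have h7 : ‖algebraMap k ℂ (c : k)‖ < 1 := by
    nlinarith [norm_nonneg (algebraMap k ℂ (c : k))]
  have h8 : (Ideal.absNorm (Ideal.span {c}) : ℝ) < 1 := by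
    rw [norm_eq hk]
    nlinarith [norm_nonneg (algebraMap k ℂ (c : k))]
  have h9 : Ideal.absNorm (Ideal.span {c}) = 0 := by
    have : Ideal.absNorm (Ideal.span {c}) < 1 := by exact_mod_cast h8
    omega
  rw [Ideal.absNorm_eq_zero_iff, Ideal.span_singleton_eq_bot] at h9
  rw [h9, mul_zero] at hc
  exact sub_eq_zero.1 hc

/-- uniqueness of the quotient -/
private theorem zz_uniq (hk : IsIQ k) {N : ℕ} (hN : 3 ≤ N) {𝔤 𝔞 : Ideal (𝓞 k)} (h0 : 𝔤 ≠ ⊥)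
    {a b a' b' : 𝓞 k} (ha : (N : 𝓞 k) ∣ a - 1) (hb : (N : 𝓞 k) ∣ b - 1)
    (ha' : (N : 𝓞 k) ∣ a' - 1) (hb' : (N : 𝓞 k) ∣ b' - 1)
    (h : Ideal.span {a} * 𝔞 = Ideal.span {b} * 𝔤)
    (h' : Ideal.span {a'} * 𝔞 = Ideal.span {b'} * 𝔤) : a * b' = a' * b := by
  have h1 : Ideal.span {a * b'} * 𝔤 = Ideal.span {a' * b} * 𝔤 := by
    rw [← Ideal.span_singleton_mul_span_singleton, ← Ideal.span_singleton_mul_span_singleton,
      mul_assoc, ← h', mul_assoc, ← h, mul_left_comm]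
  have h2 : Ideal.span {a * b'} = Ideal.span {a' * b} := by
    have h3 : 𝔤 ≠ 0 := by rwa [Ideal.zero_eq_bot]
    exact mul_right_cancel₀ h3 h1
  rw [Ideal.span_singleton_eq_span_singleton] at h2
  obtain ⟨u, hu⟩ := h2
  have h3 : (N : 𝓞 k) ∣ (u : 𝓞 k) - 1 := by
    refine zz_dvd (zz_mul ha hb') ?_
    have h4 : a * b' * ((u : 𝓞 k) - 1) = (a' * b - 1) - (a * b' - 1) := by
      rw [← hu]; ring
    rw [h4]
    exact dvd_sub (zz_mul ha' hb) (zz_mul ha hb')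
  rw [zz_unit hk hN u h3, mul_one] at hu
  exact hu

/-- the quotient `b / a` with `a 𝔞 = b 𝔤`: the point `(b / a - 1) / N` is in the lattice -/
private theorem zz_mem {N : ℕ} (hN : N ≠ 0) {𝔤 𝔞 : Ideal (𝓞 k)}
    {a b : 𝓞 k} (ha0 : a ≠ 0) (ha : (N : 𝓞 k) ∣ a - 1) (hb : (N : 𝓞 k) ∣ b - 1)
    (h : Ideal.span {a} * 𝔞 = Ideal.span {b} * 𝔤) :
    MemInv 𝔤 (algebraMap k ℂ (((b : k) / a - 1) / N)) := by
  have hNk : (N : k) ≠ 0 := by exact_mod_cast hN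
  have hak : (a : k) ≠ 0 := by rwa [Ne, RingOfIntegers.coe_eq_zero_iff]
  have key : ∀ g ∈ 𝔤, ∃ w : 𝓞 k, b * g = a * (g + N * w) := by
    intro g hg
    have h1 : b * g ∈ Ideal.span {a} * 𝔞 := by
      rw [h]
      exact Ideal.mul_mem_mul (Ideal.mem_span_singleton_self b) hg
    have h0 : b * g ∈ Ideal.span {a} := by
      have h3 : Ideal.span {a} * 𝔞 ≤ Ideal.span {a} := Ideal.mul_le_left
      exact h3 h1
    have h2 : a ∣ b * g := by rwa [Ideal.mem_span_singleton] at h0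
    obtain ⟨y, hy⟩ := h2
    have h2 : (N : 𝓞 k) ∣ y - g := by
      refine zz_dvd ha ?_
      have h3 : a * (y - g) = ((b - 1) - (a - 1)) * g := by
        rw [mul_sub, ← hy]; ring
      rw [h3]
      exact Dvd.dvd.mul_right (dvd_sub hb ha) g
    obtain ⟨w, hw⟩ := h2
    refine ⟨w, ?_⟩
    rw [hy, ← hw]; ring
  refine ⟨((b : k) / a - 1) / N, rfl, fun g hg => ?_⟩
  obtain ⟨w, hw⟩ := key g hg
  refine ⟨w, ?_⟩
  have e1 : (b : k) * g = a * (g + N * w) := by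
    have := congrArg (algebraMap (𝓞 k) k) hw
    rwa [map_mul, map_mul, map_add, map_mul, map_natCast] at this
  have e3 : (g : k) * (((b : k) / a - 1) / N) = ((b : k) * g - a * g) / (a * N) := by
    rw [div_sub_one hak, div_div, mul_div_assoc']
    congr 1
    ring
  rw [e3, div_eq_iff (mul_ne_zero hak hNk), e1]
  ring

/-- the norm -/
private theorem zz_norm (hk : IsIQ k) {N : ℕ} (hN : N ≠ 0) {𝔤 𝔞 : Ideal (𝓞 k)}
    {a b : 𝓞 k} (ha0 : a ≠ 0) (h : Ideal.span {a} * 𝔞 = Ideal.span {b} * 𝔤) :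
    (Ideal.absNorm 𝔞 : ℝ) = (Ideal.absNorm 𝔤 : ℝ) * (N : ℝ) ^ 2 *
      ‖ptt N (1 : 𝓞 k) + algebraMap k ℂ (((b : k) / a - 1) / N)‖ ^ 2 := by
  have hak : (a : k) ≠ 0 := by rwa [Ne, RingOfIntegers.coe_eq_zero_iff]
  have hac : algebraMap k ℂ (a : k) ≠ 0 := by rwa [Ne, map_eq_zero]
  have hNc : (N : ℂ) ≠ 0 := by exact_mod_cast hN
  have hNr : (N : ℝ) ≠ 0 := by exact_mod_cast hN
  have e1 : ptt N (1 : 𝓞 k) + algebraMap k ℂ (((b : k) / a - 1) / N) =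
      algebraMap k ℂ (b : k) / algebraMap k ℂ (a : k) / N := by
    rw [ptt, map_div₀, map_sub, map_div₀, map_natCast, map_one]
    have : algebraMap k ℂ ((1 : 𝓞 k) : k) = 1 := by
      rw [RingOfIntegers.coe_eq_algebraMap, map_one, map_one]
    rw [this]
    ring
  have h1 := congrArg Ideal.absNorm h
  rw [map_mul, map_mul] at h1
  have h2 : (Ideal.absNorm (Ideal.span {a}) : ℝ) * Ideal.absNorm 𝔞 =
      Ideal.absNorm (Ideal.span {b}) * Ideal.absNorm 𝔤 := by exact_mod_cast h1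
  rw [norm_eq hk, norm_eq hk] at h2
  have h3 : ‖algebraMap k ℂ (a : k)‖ ≠ 0 := norm_ne_zero_iff.2 hac
  rw [e1, norm_div, norm_div, Complex.norm_natCast]
  field_simp
  linear_combination h2

/-- the zeta function of a ray class -/
theorem zeta_class (hk : IsIQ k) {N : ℕ} (hN : 3 ≤ N) {𝔤 : Ideal (𝓞 k)} (h0 : 𝔤 ≠ ⊥)
    (hp : Prm N 𝔤) {Z : ℂ → ℂ} (hZ : IsEps (LatI 𝔤) (ptt N (1 : 𝓞 k)) Z) {s : ℂ}
    (hs : 1 < s.re) :
    HasSum (fun 𝔞 : {𝔞 : Ideal (𝓞 k) // 𝔞 ≠ ⊥ ∧ Prm N 𝔞 ∧ REq N 𝔞 𝔤} =>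
      ((Ideal.absNorm (𝔞 : Ideal (𝓞 k)) : ℝ) : ℂ) ^ (-s))
      ((((Ideal.absNorm 𝔤 : ℝ) * (N : ℝ) ^ 2 : ℝ) : ℂ) ^ (-s) * Z s) := by
  have hN0 : N ≠ 0 := by omega
  have hNk : (N : k) ≠ 0 := by exact_mod_cast hN0
  have hch : ∀ 𝔞 : {𝔞 : Ideal (𝓞 k) // 𝔞 ≠ ⊥ ∧ Prm N 𝔞 ∧ REq N 𝔞 𝔤}, ∃ p : 𝓞 k × 𝓞 k,
      p.1 ≠ 0 ∧ p.2 ≠ 0 ∧ (N : 𝓞 k) ∣ p.1 - 1 ∧ (N : 𝓞 k) ∣ p.2 - 1 ∧
        Ideal.span {p.1} * (𝔞 : Ideal (𝓞 k)) = Ideal.span {p.2} * 𝔤 := by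
    rintro ⟨𝔞, h1, h2, a, b, h3⟩
    exact ⟨(a, b), h3⟩
  choose p hp1 hp2 hp3 hp4 hp5 using hch
  let f : {𝔞 : Ideal (𝓞 k) // 𝔞 ≠ ⊥ ∧ Prm N 𝔞 ∧ REq N 𝔞 𝔤} → (LatI 𝔤).lattice := fun 𝔞 =>
    ⟨algebraMap k ℂ ((((p 𝔞).2 : k) / (p 𝔞).1 - 1) / N),
      (mem_LatI hk h0 _).2 (zz_mem hN0 (hp1 𝔞) (hp3 𝔞) (hp4 𝔞) (hp5 𝔞))⟩
  have hinj : Function.Injective f := by
    intro 𝔞 𝔟 h
    have h1 : algebraMap k ℂ ((((p 𝔞).2 : k) / (p 𝔞).1 - 1) / N) =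
      algebraMap k ℂ ((((p 𝔟).2 : k) / (p 𝔟).1 - 1) / N) := congrArg Subtype.val h
    have h2 := (algebraMap k ℂ).injective h1
    rw [div_left_inj' hNk, sub_left_inj, div_eq_div_iff
      (by rw [Ne, RingOfIntegers.coe_eq_zero_iff]; exact hp1 𝔞)
      (by rw [Ne, RingOfIntegers.coe_eq_zero_iff]; exact hp1 𝔟)] at h2
    have h3 : (p 𝔞).2 * (p 𝔟).1 = (p 𝔟).2 * (p 𝔞).1 := by
      apply RingOfIntegers.coe_injective
      rw [map_mul, map_mul]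
      exact h2
    have h4 : Ideal.span {(p 𝔞).1 * (p 𝔟).1} * (𝔞 : Ideal (𝓞 k)) =
        Ideal.span {(p 𝔞).1 * (p 𝔟).1} * (𝔟 : Ideal (𝓞 k)) := by
      rw [← Ideal.span_singleton_mul_span_singleton]
      calc Ideal.span {(p 𝔞).1} * Ideal.span {(p 𝔟).1} * (𝔞 : Ideal (𝓞 k))
          = Ideal.span {(p 𝔟).1} * (Ideal.span {(p 𝔞).1} * (𝔞 : Ideal (𝓞 k))) := by
            rw [mul_comm (Ideal.span {(p 𝔞).1}), mul_assoc]
        _ = Ideal.span {(p 𝔞).2 * (p 𝔟).1} * 𝔤 := by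
            rw [hp5, ← mul_assoc, Ideal.span_singleton_mul_span_singleton, mul_comm (p 𝔟).1]
        _ = Ideal.span {(p 𝔞).1} * (Ideal.span {(p 𝔟).2} * 𝔤) := by
            rw [h3, ← mul_assoc, Ideal.span_singleton_mul_span_singleton, mul_comm (p 𝔟).2]
        _ = Ideal.span {(p 𝔞).1} * Ideal.span {(p 𝔟).1} * (𝔟 : Ideal (𝓞 k)) := by
            rw [← hp5, mul_assoc]
    have h5 : Ideal.span {(p 𝔞).1 * (p 𝔟).1} ≠ 0 := by
      rw [Ideal.zero_eq_bot, Ne, Ideal.span_singleton_eq_bot]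
      exact mul_ne_zero (hp1 𝔞) (hp1 𝔟)
    exact Subtype.ext (mul_left_cancel₀ h5 h4)
  have hsurj : Function.Surjective f := by
    rintro ⟨z, hz⟩
    obtain ⟨t, ht, h1⟩ := (mem_LatI hk h0 z).1 hz
    obtain ⟨a, hag, c', hc', hac⟩ := Ideal.isCoprime_iff_exists.1 hp
    obtain ⟨c, rfl⟩ := Ideal.mem_span_singleton.1 hc'
    have ha1 : (N : 𝓞 k) ∣ a - 1 := ⟨-c, by rw [← hac]; ring⟩
    have hne : ∀ {d : 𝓞 k}, (N : 𝓞 k) ∣ d - 1 → d ≠ 0 := by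
      rintro d hd rfl
      rw [zero_sub, dvd_neg] at hd
      have h2 : IsUnit (N : 𝓞 k) := isUnit_of_dvd_one hd
      have h3 := norm_eq hk (N : 𝓞 k)
      rw [Ideal.span_singleton_eq_top.2 h2, Ideal.absNorm_top] at h3
      have h4 : algebraMap k ℂ ((N : 𝓞 k) : k) = (N : ℂ) := by
        rw [RingOfIntegers.coe_eq_algebraMap, map_natCast, map_natCast]
      rw [h4, Complex.norm_natCast, Nat.cast_one] at h3
      have h5 : (3 : ℝ) ≤ N := by exact_mod_cast hN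
      nlinarith
    have ha0 : a ≠ 0 := hne ha1
    have hak : (a : k) ≠ 0 := by rwa [Ne, RingOfIntegers.coe_eq_zero_iff]
    obtain ⟨w, hw⟩ := h1 a hag
    set b : 𝓞 k := a + N * w with hb
    have hbk : (b : k) = a * (1 + N * t) := by
      rw [hb, RingOfIntegers.coe_eq_algebraMap, map_add, map_mul, map_natCast,
        ← RingOfIntegers.coe_eq_algebraMap, ← RingOfIntegers.coe_eq_algebraMap, ← hw]
      ring
    have hb1 : (N : 𝓞 k) ∣ b - 1 := by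
      have h2 : b - 1 = (a - 1) + N * w := by rw [hb]; ring
      rw [h2]
      exact dvd_add ha1 (dvd_mul_right _ _)
    have hb0 : b ≠ 0 := hne hb1
    have hdvd : Ideal.span {a} ∣ Ideal.span {b} * 𝔤 := by
      rw [Ideal.dvd_iff_le, Ideal.span_singleton_mul_le_iff]
      intro g hg
      obtain ⟨y, hy⟩ := h1 g hg
      rw [Ideal.mem_span_singleton]
      refine ⟨g + N * y, ?_⟩
      apply RingOfIntegers.coe_injective
      rw [map_mul, map_mul, map_add, map_mul, map_natCast]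
      change (b : k) * (g : k) = (a : k) * ((g : k) + (N : k) * (y : k))
      rw [hbk, ← hy]
      ring
    obtain ⟨𝔞, h𝔞⟩ := hdvd
    have h𝔞0 : 𝔞 ≠ ⊥ := by
      rintro rfl
      rw [Ideal.mul_bot] at h𝔞
      rcases Ideal.mul_eq_bot.1 h𝔞 with h2 | h2
      · exact hb0 (Ideal.span_singleton_eq_bot.1 h2)
      · exact h0 h2
    have h𝔞p : Prm N 𝔞 := by
      have h2 : Prm N (Ideal.span {b} * 𝔤) := (prm_mul_iff _ _).2 ⟨prm_span hb1, hp⟩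
      rw [h𝔞] at h2
      exact ((prm_mul_iff _ _).1 h2).2
    let A : {𝔞 : Ideal (𝓞 k) // 𝔞 ≠ ⊥ ∧ Prm N 𝔞 ∧ REq N 𝔞 𝔤} :=
      ⟨𝔞, h𝔞0, h𝔞p, a, b, ha0, hb0, ha1, hb1, h𝔞.symm⟩
    refine ⟨A, Subtype.ext ?_⟩
    have h2 := zz_uniq hk hN h0 (hp3 A) (hp4 A) ha1 hb1 (hp5 A) h𝔞.symm
    have h3 : ((p A).2 : k) / (p A).1 = 1 + N * t := by
      rw [div_eq_iff (by rw [Ne, RingOfIntegers.coe_eq_zero_iff]; exact hp1 A)]
      have h4 : ((p A).1 : k) * b = a * (p A).2 := by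
        have := congrArg (algebraMap (𝓞 k) k) h2
        rwa [map_mul, map_mul] at this
      rw [hbk] at h4
      apply mul_left_cancel₀ hak
      linear_combination -h4
    change algebraMap k ℂ ((((p A).2 : k) / (p A).1 - 1) / N) = z
    rw [h3, ← ht, add_sub_cancel_left, mul_div_cancel_left₀ _ hNk]
  let e := Equiv.ofBijective f ⟨hinj, hsurj⟩
  have h1 := (e.hasSum_iff).2 (hZ.sum s hs)
  have h2 := h1.mul_left ((((Ideal.absNorm 𝔤 : ℝ) * (N : ℝ) ^ 2 : ℝ) : ℂ) ^ (-s))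
  have h3 : (fun 𝔞 : {𝔞 : Ideal (𝓞 k) // 𝔞 ≠ ⊥ ∧ Prm N 𝔞 ∧ REq N 𝔞 𝔤} =>
      ((Ideal.absNorm (𝔞 : Ideal (𝓞 k)) : ℝ) : ℂ) ^ (-s)) = fun 𝔞 =>
      ((((Ideal.absNorm 𝔤 : ℝ) * (N : ℝ) ^ 2 : ℝ) : ℂ) ^ (-s) *
        ((‖ptt N (1 : 𝓞 k) + (f 𝔞 : ℂ)‖ ^ 2 : ℝ) : ℂ) ^ (-s)) := by
    funext 𝔞
    rw [zz_norm hk hN0 (hp1 𝔞) (hp5 𝔞), Complex.ofReal_mul,
      Complex.mul_cpow_ofReal_nonneg (by positivity) (by positivity)]
  rw [h3]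
  exact h2

end Pool.Agent.CMR
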